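import Pool.Agent.Lib.MP_efe3d7_co.H.Soft3

/-! Fragments with large degrees: contraction and deletion. -/

set_option autoImplicit false

open Finset

namespace Pool.Agent.Lib.MP_efe3d7_co.H

variable {α : Type} [DecidableEq α] {V : Finset α} {τ : Sym2 α → Fin 3}

theorem Big.contr {Q T : Finset α} (h : Big V τ Q T) {u v : α} (hu : u ∈ core V τ Q T)
    (hv : v ∈ core V τ Q T) (huv : v ∈ nb V τ u)
    (hs : ∀ s ∈ nb V τ u, s ∉ core V τ Q T → nb V τ s ∩ core V τ Q T ≠ {u, v}) :
    Con3 (V.erase v) (mg τ u v) := by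
  have hk := h.min.1
  obtain ⟨huQ, hu0⟩ := mem_core.1 hu
  obtain ⟨hvQ, hv0⟩ := mem_core.1 hv
  have huV := hk.subQ huQ
  have hvV := hk.subQ hvQ
  have hne : v ≠ u := (mem_nb.1 huv).2.1
  have hdis : ∀ t ∈ T, t ∉ Q := fun t ht k => disjoint_left.1 hk.dis k ht
  refine hk.safe h.con ⟨erase_subset _ _, ?_, ?_, ?_, ?_, ?_, ?_⟩
  · intro a ha ha'
    have e : a = v := by
      by_contra k
      exact ha' (mem_erase.2 ⟨k, ha⟩)
    exact e ▸ hvQ
  · intro a _ b _ _ ha hb e
    have h1 : a ≠ u := fun k => ha (k ▸ huQ)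
    have h2 : b ≠ u := fun k => hb (k ▸ huQ)
    rwa [mg_of_ne τ v h1 h2]
  · intro a ha haQ b hb
    have key : b ∈ Q ∨ b ∈ T := by
      by_cases e : a = u
      · rw [e, mem_nb_mg_self] at hb
        rcases hb.2.2 with k | k
        · exact hk.cov u huQ b k
        · exact hk.cov v hvQ b k
      · rw [mem_nb_mg e (mem_erase.1 ha).1 huV hvV] at hb
        rcases hb.2 with k | k
        · exact hk.cov a haQ b k
        · exact Or.inl (k.1 ▸ huQ)
    exact key.imp_right Or.inl
  · intro w hw
    exact absurd hw (by simp [envR])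
  · exact Or.inl ⟨u, mem_erase.2 ⟨hne.symm, huV⟩, huQ⟩
  · intro B S hB hBne hA hcov
    have hBQ : B ⊆ Q := hA.1
    have hvB : v ∉ B := fun k => (mem_erase.1 (hB k)).1 rfl
    have hBv : ∀ a ∈ B, a ≠ v := fun a ha k => hvB (k ▸ ha)
    by_cases huB : u ∈ B
    · have hc : Cov V τ (insert v B) S := by
        intro a ha b hb
        by_cases e1 : b = v
        · exact Or.inl (e1 ▸ mem_insert_self _ _)
        by_cases e2 : b = u
        · exact Or.inl (e2 ▸ mem_insert_of_mem huB)
        refine Or.imp_left mem_insert_of_mem ?_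
        by_cases e3 : a = u
        · exact hcov u huB b (mem_nb_mg_self.2 ⟨e2, e1, Or.inl (e3 ▸ hb)⟩)
        rcases mem_insert.1 ha with e4 | e4
        · exact hcov u huB b (mem_nb_mg_self.2 ⟨e2, e1, Or.inr (e4 ▸ hb)⟩)
        · exact hcov a e4 b ((mem_nb_mg e3 (hBv a e4) huV hvV).2 ⟨e1, Or.inl hb⟩)
      have hs' : insert v B ⊆ Q := insert_subset hvQ hBQ
      exact h.con.three' (hs'.trans hk.subQ) (insert_nonempty _ _) hc hk.subT hk.cT.ge
        fun t ht k => hdis t ht (hs' k)
    · by_contra hS
      have hBu : ∀ a ∈ B, a ≠ u := fun a ha k => huB (k ▸ ha)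
      have hc : Cov V τ B (insert v S) := by
        intro a ha b hb
        by_cases e1 : b = v
        · exact Or.inr (e1 ▸ mem_insert_self _ _)
        · exact (hcov a ha b ((mem_nb_mg (hBu a ha) (hBv a ha) huV hvV).2
            ⟨e1, Or.inl hb⟩)).imp_right mem_insert_of_mem
      have c3 : (insert v S).card ≤ 3 := (card_insert_le _ _).trans (by omega)
      by_cases h2 : 2 ≤ B.card
      · obtain ⟨-, t, ht, -, e⟩ := (h.min.ax h.con hBQ h2 hc.sdiff disjoint_sdiff
          ((card_le_card sdiff_subset).trans c3)).1 v hvQ hvB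
        exact hv0 t ht e
      · have h1 : B.card = 1 := by
          have := hBne.card_pos
          omega
        obtain ⟨c, rfl⟩ := card_eq_one.1 h1
        have hcc := mem_singleton_self c
        have hcQ := hBQ hcc
        have hsub : nb V τ c ⊆ insert v S := fun b hb =>
          (hc c hcc b hb).resolve_left fun k => not_mem_nb c (mem_singleton.1 k ▸ hb)
        have hle : dg V τ c ≤ 3 := (card_le_card hsub).trans c3
        obtain ⟨d3, hc0⟩ := (h.deg c hcQ).resolve_left (by omega)
        have heq : nb V τ c = insert v S := eq_of_subset_of_card_le hsub (c3.trans d3.ge)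
        have hvc : v ∈ nb V τ c := heq ▸ mem_insert_self _ _
        have huS : u ∈ S := (hcov c hcc u ((mem_nb_mg (hBu c hcc) (hBv c hcc) huV hvV).2
          ⟨hne.symm, Or.inr ⟨rfl, hvc⟩⟩)).resolve_left huB
        have huc : u ∈ nb V τ c := heq ▸ mem_insert_of_mem huS
        obtain ⟨t, ht, e⟩ := s3a_door hcQ hc0
        have hct : c ∈ nb V τ t := (mem_inter.1 (e ▸ hcc : c ∈ nb V τ t ∩ Q)).1
        have htc : t ∈ nb V τ c := nb_symm (hk.subT ht) hct
        have htu : t ≠ u := fun k => hdis t ht (k ▸ huQ)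
        have htv : t ≠ v := fun k => hdis t ht (k ▸ hvQ)
        have hs3 : ({t, u, v} : Finset α) ⊆ nb V τ c := by
          intro z hz
          simp only [mem_insert, mem_singleton] at hz
          rcases hz with k | k | k <;> rw [k] <;> assumption
        have hc3 : ({t, u, v} : Finset α).card = 3 :=
          card_eq_three.2 ⟨t, u, v, htu, htv, hne.symm, rfl⟩
        have heq3 : {t, u, v} = nb V τ c := eq_of_subset_of_card_le hs3 (d3.le.trans hc3.ge)
        refine hs c (nb_symm (hk.subQ hcQ) huc) hc0 ?_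
        rw [← heq3]
        ext z
        simp only [mem_inter, mem_insert, mem_singleton]
        constructor
        · rintro ⟨k | k, k'⟩
          · exact absurd (mem_core.1 k').1 (k ▸ hdis t ht)
          · exact k
        · rintro (k | k)
          · exact ⟨Or.inr (Or.inl k), k ▸ hu⟩
          · exact ⟨Or.inr (Or.inr k), k ▸ hv⟩

theorem Big.del {Q T : Finset α} (h : Big V τ Q T) {u p : α} (hu : u ∈ core V τ Q T)
    (hp : p ∈ nb V τ u) (h2 : p ∈ Q → dg V τ p ≠ 3) : Con3 V (Function.update τ s(u, p) 0) := by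
  have hk := h.min.1
  obtain ⟨huQ, hu0⟩ := mem_core.1 hu
  have huV := hk.subQ huQ
  have hdis : ∀ t ∈ T, t ∉ Q := fun t ht k => disjoint_left.1 hk.dis k ht
  refine hk.safe h.con ⟨Subset.refl _, fun a ha k => absurd ha k, ?_, ?_, ?_, ?_, ?_⟩
  · intro a _ b _ _ ha hb e
    have h1 : a ≠ u := fun k => ha (k ▸ huQ)
    have h3 : b ≠ u := fun k => hb (k ▸ huQ)
    have h4 : s(a, b) ≠ s(u, p) := by simp [h1, h3]
    rwa [Function.update_of_ne h4]
  · intro a _ haQ b hb
    exact (hk.cov a haQ b (mem_nb_del.1 hb).1).imp_right Or.inl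
  · intro w hw
    exact absurd hw (by simp [envR])
  · exact Or.inl ⟨u, huV, huQ⟩
  · intro B S hB hBne hA hcov
    have hBQ : B ⊆ Q := hA.1
    by_contra hS
    have no : ¬ Cov V τ B S := fun hc => hS (h.con.three' hB hBne hc hk.subT hk.cT.ge
      fun t ht k => hdis t ht (hBQ k))
    have cv : ∀ a ∈ B, ∀ b ∈ nb V τ a,
        b ∈ B ∨ b ∈ S ∨ (a = u ∧ b = p) ∨ (a = p ∧ b = u) := by
      intro a ha b hb
      by_cases e : s(a, b) = s(u, p)
      · exact Or.inr (Or.inr (Sym2.eq_iff.1 e))
      · exact (hcov a ha b (mem_nb_del.2 ⟨hb, e⟩)).imp_right Or.inl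
    have one : ∀ o c : α, B = {c} → Cov V τ B (insert o S) →
        dg V τ c = 3 ∧ c ∉ core V τ Q T := by
      intro o c e hc
      have hcc : c ∈ B := e ▸ mem_singleton_self c
      have hsub : nb V τ c ⊆ insert o S := fun b hb =>
        (hc c hcc b hb).resolve_left fun k => by
          rw [e, mem_singleton] at k
          exact not_mem_nb c (k ▸ hb)
      have hle : dg V τ c ≤ 3 :=
        (card_le_card hsub).trans ((card_insert_le _ _).trans (by omega))
      exact (h.deg c (hBQ hcc)).resolve_left (by omega)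
    have c3 : ∀ o : α, (insert o S \ B).card ≤ 3 := fun o =>
      (card_le_card sdiff_subset).trans ((card_insert_le _ _).trans (by omega))
    have sing : ∀ c ∈ B, ¬ 2 ≤ B.card → B = {c} := fun c hc k =>
      eq_singleton_iff_unique_mem.2 ⟨hc, fun x hx => card_le_one.1 (by omega) x hx c hc⟩
    by_cases huB : u ∈ B <;> by_cases hpB : p ∈ B
    · refine no fun a ha b hb => ?_
      rcases cv a ha b hb with k | k | k | k
      · exact Or.inl k
      · exact Or.inr k
      · exact Or.inl (k.2 ▸ hpB)
      · exact Or.inl (k.2 ▸ huB)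
    · have hc : Cov V τ B (insert p S) := by
        intro a ha b hb
        rcases cv a ha b hb with k | k | k | k
        · exact Or.inl k
        · exact Or.inr (mem_insert_of_mem k)
        · exact Or.inr (k.2 ▸ mem_insert_self _ _)
        · exact Or.inl (k.2 ▸ huB)
      have hpS : p ∉ S := fun k => no (by rwa [insert_eq_of_mem k] at hc)
      have hpV : p ∈ V := nb_sub _ hp
      have only : ∀ q ∈ nb V τ p, q ∈ B → q = u := by
        intro q hq hqB
        rcases cv q hqB p (nb_symm hpV hq) with k | k | k | k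
        · exact absurd k hpB
        · exact absurd k hpS
        · exact k.1
        · exact absurd (k.1 ▸ hqB) hpB
      by_cases h3 : 2 ≤ B.card
      · have ax := (h.min.ax h.con hBQ h3 hc.sdiff disjoint_sdiff (c3 p)).1
        rcases hk.cov u huQ p hp with hpQ | hpT
        · obtain ⟨-, t, ht, -, e⟩ := ax p hpQ hpB
          have hp0 : p ∉ core V τ Q T := fun k => (mem_core.1 k).2 t ht e
          have hsub : nb V τ p ⊆ {u, t} := by
            intro b hb
            rw [mem_insert, mem_singleton]
            rcases hk.cov p hpQ b hb with k | k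
            · by_cases hbB : b ∈ B
              · exact Or.inl (only b hb hbB)
              · obtain ⟨-, t', ht', -, e'⟩ := ax b k hbB
                exact absurd hb (h.doors hpQ hp0 k fun k' => (mem_core.1 k').2 t' ht' e')
            · exact Or.inr (h.min.door_one h.con h.three ht e k hb)
          have hle : dg V τ p ≤ 2 := (card_le_card hsub).trans card_le_two
          rcases h.deg p hpQ with k | k <;> omega
        · have hup : u ∈ nb V τ p ∩ Q := mem_inter.2 ⟨nb_symm huV hp, huQ⟩
          have hq : ∃ q ∈ nb V τ p ∩ Q, q ≠ u := by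
            by_contra k
            exact hu0 p hpT (eq_singleton_iff_unique_mem.2 ⟨hup, fun x hx => by
              by_contra k'
              exact k ⟨x, hx, k'⟩⟩)
          obtain ⟨q, hq, hqu⟩ := hq
          obtain ⟨hq1, hq2⟩ := mem_inter.1 hq
          obtain ⟨-, t, ht, htU, e⟩ := ax q hq2 fun k => hqu (only q hq1 k)
          have e1 : p = t := h.min.door_one h.con h.three ht e hpT (nb_symm hpV hq1)
          exact htU (e1 ▸ mem_sdiff.2 ⟨mem_insert_self _ _, hpB⟩)
      · exact (one p u (sing u huB h3) hc).2 hu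
    · have hc : Cov V τ B (insert u S) := by
        intro a ha b hb
        rcases cv a ha b hb with k | k | k | k
        · exact Or.inl k
        · exact Or.inr (mem_insert_of_mem k)
        · exact Or.inl (k.2 ▸ hpB)
        · exact Or.inr (k.2 ▸ mem_insert_self _ _)
      by_cases h3 : 2 ≤ B.card
      · obtain ⟨-, t, ht, -, e⟩ :=
          (h.min.ax h.con hBQ h3 hc.sdiff disjoint_sdiff (c3 u)).1 u huQ huB
        exact hu0 t ht e
      · exact h2 (hBQ hpB) (one u p (sing p hpB h3) hc).1
    · refine no fun a ha b hb => ?_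
      rcases cv a ha b hb with k | k | k | k
      · exact Or.inl k
      · exact Or.inr k
      · exact absurd (k.1 ▸ ha) huB
      · exact absurd (k.1 ▸ ha) hpB

end Pool.Agent.Lib.MP_efe3d7_co.H
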