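import Pool.Agent.Lib.MP_efe3d7_co.H.G0

/-! Changes inside a fragment that keep three-connectivity. -/

set_option autoImplicit false

open Finset

namespace Pool.Agent.Lib.MP_efe3d7_co.H

variable {α : Type} [DecidableEq α] {V : Finset α} {τ : Sym2 α → Fin 3}

/-- Neighbours of a vertex outside the fragment and its boundary are kept. -/
theorem fr2a_far {Q T : Finset α} (hcov : Cov V τ Q T) {V' : Finset α} {τ' : Sym2 α → Fin 3}
    (del : ∀ a ∈ V, a ∉ V' → a ∈ Q)
    (far : ∀ a ∈ V, ∀ b ∈ V, a ≠ b → a ∉ Q → a ∉ T → b ∉ Q → τ s(a, b) ≠ 0 → τ' s(a, b) ≠ 0)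
    {a b : α} (ha : a ∈ V) (h1 : a ∉ Q) (h2 : a ∉ T) (hb : b ∈ nb V τ a) :
    b ∉ Q ∧ b ∈ nb V' τ' a := by
  have hq : b ∉ Q := fun k => (hcov b k a (nb_symm ha hb)).elim h1 h2
  obtain ⟨k1, k2, k3⟩ := mem_nb.1 hb
  refine ⟨hq, mem_nb.2 ⟨?_, k2, far a ha b k1 k2.symm h1 h2 hq k3⟩⟩
  by_contra k
  exact hq (del b k1 k)

/-- The general safety lemma. -/
theorem safe_gen (hc : Con3 V τ) {Q T : Finset α} (hT : T ⊆ V) (hd : Disjoint Q T)
    (h3 : T.card = 3) (hcov : Cov V τ Q T) {V' : Finset α} {τ' : Sym2 α → Fin 3} (sub : V' ⊆ V)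
    (del : ∀ a ∈ V, a ∉ V' → a ∈ Q)
    (far : ∀ a ∈ V, ∀ b ∈ V, a ≠ b → a ∉ Q → a ∉ T → b ∉ Q → τ s(a, b) ≠ 0 → τ' s(a, b) ≠ 0)
    (nq : ∀ a ∈ V', a ∈ Q → ∀ b ∈ nb V' τ' a, b ∈ Q ∨ b ∈ T)
    (nem : (∃ a ∈ V', a ∈ Q) ∨ ∀ a ∈ T, ∀ b ∈ T, a ≠ b → τ' s(a, b) ≠ 0)
    (l1 : ∀ B S : Finset α, B ⊆ V' → B ⊆ Q → B.Nonempty → Cov V' τ' B S → 3 ≤ S.card)
    (l2 : ∀ t ∈ T, ∀ B S : Finset α, B ⊆ V' → B ⊆ Q → S.card ≤ 2 →
      Cov V' τ' (insert t B) S → T.erase t ⊆ S) : Con3 V' τ' := by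
  have hqt : ∀ v ∈ Q, v ∉ T := fun v hv => disjoint_left.1 hd hv
  have hT' : T ⊆ V' := fun t ht => by
    by_contra k
    exact hqt t (del t (hT ht) k) ht
  have c1 : ∀ A S : Finset α, A.Nonempty → A ⊆ V' → S.card ≤ 2 → Cov V' τ' A S →
      (A ∩ T).Nonempty := by
    intro A S hA hAV hS h
    by_contra k
    have k1 : ∀ v ∈ A, v ∉ T := fun v h1 h2 => k ⟨v, mem_inter.2 ⟨h1, h2⟩⟩
    have k2 : ∀ v ∈ A, v ∉ Q := fun v h1 h2 => by
      have := l1 (A ∩ Q) S (inter_subset_left.trans hAV) inter_subset_right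
        ⟨v, mem_inter.2 ⟨h1, h2⟩⟩ fun a ha b hb => by
          rw [mem_inter] at ha ⊢
          have e1 := h a ha.1 b hb
          have e2 := nq a (hAV ha.1) ha.2 b hb
          have e3 := k1 b
          tauto
      omega
    have := hc.three' (hAV.trans sub) hA (S := S) (fun a ha b hb =>
      h a ha b (fr2a_far hcov del far (sub (hAV ha)) (k2 a ha) (k1 a ha) hb).2) hT h3.ge
      fun t ht e => k1 t e ht
    omega
  have key : ∀ (A S C : Finset α) (t t' : α), S.card ≤ 2 →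
      (∀ v, v ∈ V' ↔ v ∈ A ∨ v ∈ S ∨ v ∈ C) → (∀ v ∈ A, v ∉ S) → (∀ v ∈ C, v ∉ S) →
      (∀ v ∈ A, v ∉ C) → Cov V' τ' A S → Cov V' τ' C S → A ∩ T = {t} → t' ∈ C → t' ∈ T →
      False := by
    intro A S C t t' hS hp hAS hCS hAC hA hC ht h1 h2
    have hAV : A ⊆ V' := fun v hv => (hp v).2 (Or.inl hv)
    have ht1 : ∀ v, v ∈ A ∧ v ∈ T ↔ v = t := fun v => by rw [← mem_inter, ht, mem_singleton]
    obtain ⟨tA, tT⟩ := (ht1 t).2 rfl
    have tt : t' ≠ t := fun e => hAC t tA (e ▸ h1)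
    by_cases hR : ∃ r ∈ A, r ∉ Q ∧ r ∉ T
    · obtain ⟨r, r1, r2⟩ := hR
      have e1 := hc.three' (B := A.filter fun v => v ∉ Q ∧ v ∉ T) (S := insert t (S \ Q))
        ((filter_subset _ _).trans (hAV.trans sub)) ⟨r, mem_filter.2 ⟨r1, r2⟩⟩
        (fun a ha b hb => by
          rw [mem_filter] at ha
          obtain ⟨k1, k2⟩ := fr2a_far hcov del far (sub (hAV ha.1)) ha.2.1 ha.2.2 hb
          have k3 := hA a ha.1 b k2
          have k4 := ht1 b
          simp only [mem_filter, mem_insert, mem_sdiff]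
          tauto) hT h3.ge fun u hu e => (mem_filter.1 e).2.2 hu
      have e2 := card_insert_le t (S \ Q)
      have e3 : S \ Q = S := eq_of_subset_of_card_le sdiff_subset (by omega)
      have e4 : ∀ v ∈ S, v ∉ Q := fun v hv => (mem_sdiff.1 (e3.symm ▸ hv : v ∈ S \ Q)).2
      by_cases hB : (A ∩ Q).Nonempty
      · have := l1 (A ∩ Q) (T.erase t') (inter_subset_left.trans hAV) inter_subset_right hB
          fun a ha b hb => by
            rw [mem_inter] at ha
            have k1 := hA a ha.1 b hb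
            have k2 := nq a (hAV ha.1) ha.2 b hb
            have k3 := e4 b
            have k4 : b ≠ t' := fun e => k1.elim (fun u => hAC b u (e ▸ h1))
              fun u => hCS b (e ▸ h1) u
            simp only [mem_inter, mem_erase]
            tauto
        rw [card_erase_of_mem h2] at this
        omega
      · rcases nem with ⟨q, q1, q2⟩ | nem
        · have := l1 (V' ∩ Q) (T.erase t) inter_subset_left inter_subset_right
            ⟨q, mem_inter.2 ⟨q1, q2⟩⟩ fun a ha b hb => by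
              rw [mem_inter] at ha
              have k0 : a ∈ C := by
                rcases (hp a).1 ha.1 with u | u | u
                · exact absurd ⟨a, mem_inter.2 ⟨u, ha.2⟩⟩ hB
                · exact absurd ha.2 (e4 a u)
                · exact u
              have k1 := hC a k0 b hb
              have k2 := nq a ha.1 ha.2 b hb
              have k3 := nb_sub _ hb
              have k4 : b ≠ t := fun e => k1.elim (fun u => hAC b (e ▸ tA) u)
                fun u => hAS b (e ▸ tA) u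
              simp only [mem_inter, mem_erase]
              tauto
          rw [card_erase_of_mem tT] at this
          omega
        · rcases hA t tA t' (mem_nb.2 ⟨hT' h2, tt, nem t tT t' h2 tt.symm⟩) with u | u
          · exact hAC t' u h1
          · exact hCS t' h1 u
    · have e : insert t (A ∩ Q) = A := by
        ext v
        have k1 := ht1 v
        have k2 : v ∈ A → v ∈ Q ∨ v ∈ T := fun u => by
          by_contra k
          exact hR ⟨v, u, not_or.1 k⟩
        simp only [mem_insert, mem_inter]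
        tauto
      exact hCS t' h1 (l2 t tT (A ∩ Q) S (inter_subset_left.trans hAV) inter_subset_right hS
        (e.symm ▸ hA) (mem_erase.2 ⟨tt, h2⟩))
  refine con3_of_sep (h3.ge.trans (card_le_card hT')) fun A S C hA hC hS hp hAS hCS hAC cA cC => ?_
  have a1 := c1 A S hA (fun v hv => (hp v).2 (Or.inl hv)) hS cA
  have a2 := c1 C S hC (fun v hv => (hp v).2 (Or.inr (Or.inr hv))) hS cC
  have a3 : (A ∩ T ∪ C ∩ T).card ≤ T.card :=
    card_le_card (union_subset inter_subset_right inter_subset_right)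
  rw [card_union_of_disjoint (disjoint_left.2 fun v h1 h2 =>
    hAC v (mem_inter.1 h1).1 (mem_inter.1 h2).1)] at a3
  have b1 := card_pos.2 a1
  have b2 := card_pos.2 a2
  by_cases k : (A ∩ T).card = 1
  · obtain ⟨t, ht⟩ := card_eq_one.1 k
    obtain ⟨t', ht'⟩ := a2
    exact key A S C t t' hS hp hAS hCS hAC cA cC ht (mem_inter.1 ht').1 (mem_inter.1 ht').2
  · obtain ⟨t, ht⟩ := card_eq_one.1 (show (C ∩ T).card = 1 by omega)
    obtain ⟨t', ht'⟩ := a1
    exact key C S A t t' hS (fun v => by rw [hp v]; tauto) hCS hAS (fun v h1 h2 => hAC v h2 h1)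
      cC cA ht (mem_inter.1 ht').1 (mem_inter.1 ht').2

/-- The last hypothesis of `safe_gen` for a boundary vertex with two neighbours outside. -/
theorem l2_of_two {Q T : Finset α} (hd : Disjoint Q T) (h3 : T.card = 3) {V' : Finset α}
    {τ' : Sym2 α → Fin 3} (hT : T ⊆ V')
    (nq : ∀ a ∈ V', a ∈ Q → ∀ b ∈ nb V' τ' a, b ∈ Q ∨ b ∈ T)
    (nem : (∃ a ∈ V', a ∈ Q) ∨ ∀ a ∈ T, ∀ b ∈ T, a ≠ b → τ' s(a, b) ≠ 0)
    (l1 : ∀ B S : Finset α, B ⊆ V' → B ⊆ Q → B.Nonempty → Cov V' τ' B S → 3 ≤ S.card)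
    {t : α} (ht : t ∈ T) (two : 2 ≤ (nb V' τ' t \ Q).card) {B S : Finset α} (hB : B ⊆ V')
    (hBQ : B ⊆ Q) (hS : S.card ≤ 2) (h : Cov V' τ' (insert t B) S) : T.erase t ⊆ S := by
  have hd' : ∀ v ∈ Q, v ∉ T := disjoint_left.1 hd
  have h1 : nb V' τ' t \ Q ⊆ S := fun w hw => by
    obtain ⟨w1, w2⟩ := mem_sdiff.1 hw
    refine (h t (mem_insert_self _ _) w w1).resolve_left fun k => ?_
    rcases mem_insert.1 k with rfl | k
    exacts [not_mem_nb _ w1, w2 (hBQ k)]
  have h2 : ∀ v ∈ S, v ∉ Q := fun v hv => by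
    rw [← eq_of_subset_of_card_le h1 (by omega)] at hv
    exact (mem_sdiff.1 hv).2
  intro t' ht'
  obtain ⟨n1, n2⟩ := mem_erase.1 ht'
  have h4 : t' ∉ insert t B := fun k => by
    rcases mem_insert.1 k with k | k
    exacts [n1 k, hd' _ (hBQ k) n2]
  rcases nem with ⟨q, q1, q2⟩ | nem
  · have h5 : ∀ u ∈ V', u ∈ Q → u ∈ B := fun u u1 u2 => by
      by_contra u3
      have := l1 ((V' ∩ Q) \ B) (T.erase t) (sdiff_subset.trans inter_subset_left)
        (sdiff_subset.trans inter_subset_right) ⟨u, by simp [u1, u2, u3]⟩ fun v hv w hw => by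
          simp only [mem_sdiff, mem_inter] at hv
          have k : w ∉ insert t B := fun k => by
            rcases h w k v (nb_symm hv.1.1 hw) with k | k
            · rcases mem_insert.1 k with k | k
              exacts [hd' v hv.1.2 (k ▸ ht), hv.2 k]
            · exact h2 v k hv.1.2
          rw [mem_insert, not_or] at k
          exact (nq v hv.1.1 hv.1.2 w hw).imp
            (fun j => mem_sdiff.2 ⟨mem_inter.2 ⟨nb_sub _ hw, j⟩, k.2⟩) fun j => mem_erase.2 ⟨k.1, j⟩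
      rw [card_erase_of_mem ht] at this
      omega
    by_contra k
    have := l1 (V' ∩ Q) (T.erase t') inter_subset_left inter_subset_right
      ⟨q, mem_inter.2 ⟨q1, q2⟩⟩ fun v hv w hw => by
        obtain ⟨v1, v2⟩ := mem_inter.1 hv
        refine (nq v v1 v2 w hw).imp (fun j => mem_inter.2 ⟨nb_sub _ hw, j⟩) fun j =>
          mem_erase.2 ⟨?_, j⟩
        rintro rfl
        exact (h v (mem_insert_of_mem (h5 v v1 v2)) _ hw).elim h4 k
    rw [card_erase_of_mem n2] at this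
    omega
  · exact (h t (mem_insert_self _ _) t' (mem_nb.2 ⟨hT n2, n1, nem t ht t' n2 n1.symm⟩)).resolve_left
      h4

/-- Safety for thick fragments. -/
theorem Thick.safe (hc : Con3 V τ) {Q T : Finset α} (h : Thick V τ Q T) {V' : Finset α}
    {τ' : Sym2 α → Fin 3} (g : Chg V τ (envR V τ Q T) V' τ') : Con3 V' τ' := by
  have hd' : ∀ v ∈ Q, v ∉ T := disjoint_left.1 h.dis
  have keep : ∀ v ∈ V, v ∉ Q → v ∈ V' := fun v h1 h2 => by
    by_contra k
    exact h2 (g.del v h1 k)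
  have nq : ∀ a ∈ V', a ∈ Q → ∀ b ∈ nb V' τ' a, b ∈ Q ∨ b ∈ T := fun a h1 h2 b hb => by
    rcases g.nq a h1 h2 b hb with k | k | k
    exacts [Or.inl k, Or.inr k, by cases k]
  have nem : (∃ a ∈ V', a ∈ Q) ∨ ∀ a ∈ T, ∀ b ∈ T, a ≠ b → τ' s(a, b) ≠ 0 := g.nem.imp id And.right
  have l1 : ∀ B S : Finset α, B ⊆ V' → B ⊆ Q → B.Nonempty → Cov V' τ' B S → 3 ≤ S.card :=
    fun B S h1 h2 h3 h4 => g.l1 B S h1 h3 ⟨h2, fun w hw => by cases hw⟩ h4
  refine safe_gen hc h.subT h.dis h.cT h.cov g.sub g.del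
    (fun a ha b hb ab h1 _ h2 => g.far a ha b hb ab h1 h2) nq nem l1 fun t ht B S h1 h2 h3 h4 =>
      l2_of_two h.dis h.cT (fun v hv => keep v (h.subT hv) fun k => hd' v k hv) nq nem l1 ht
        ((h.out t ht).trans (card_le_card fun w hw => ?_)) h1 h2 h3 h4
  obtain ⟨w1, w2⟩ := mem_sdiff.1 hw
  obtain ⟨w3, w4, w5⟩ := mem_nb.1 w1
  exact mem_sdiff.2 ⟨mem_nb.2 ⟨keep w w3 w2, w4,
    g.far t (h.subT ht) w w3 w4.symm (fun k => hd' t k ht) w2 w5⟩, w2⟩

end Pool.Agent.Lib.MP_efe3d7_co.H
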