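import Pool.Agent.Lib.MP_efe3d7_co.H.Fr1
import Pool.Agent.Lib.MP_efe3d7_co.H.Fr2

/-! The frame of a minimal thick fragment. -/

set_option autoImplicit false

open Finset

namespace Pool.Agent.Lib.MP_efe3d7_co.H

variable {α : Type} [DecidableEq α] {V : Finset α} {τ : Sym2 α → Fin 3}

theorem fr3_dr {Q T : Finset α} {v : α} :
    v ∈ (envR V τ Q T).Dr ↔ v ∈ Q ∧ ∃ p ∈ T, nb V τ p ∩ Q = {v} := mem_filter

theorem fr3_dsQ {Q T : Finset α} {v : α} (hv : v ∈ Q) : ds V τ (envR V τ Q T) v = dg V τ v :=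
  if_pos hv

theorem fr3_dsT {Q T : Finset α} (h : Thick V τ Q T) {v : α} (hv : v ∈ T) :
    ds V τ (envR V τ Q T) v = 2 + (nb V τ v ∩ Q).card :=
  if_neg (disjoint_right.1 h.dis hv)

theorem fr3_door {Q : Finset α} {d t : α} (hd : nb V τ t ∩ Q = {d}) : d ∈ nb V τ t ∧ d ∈ Q :=
  mem_inter.1 (hd ▸ mem_singleton_self d)

theorem fr3_one {Q T : Finset α} (h : Thick V τ Q T) {v p : α} (hv : v ∈ Q) (hp : p ∈ T)
    (h1 : p ∈ nb V τ v) (h3 : ds V τ (envR V τ Q T) p = 3) : nb V τ p ∩ Q = {v} := by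
  rw [fr3_dsT h hp] at h3
  obtain ⟨d, hd⟩ := card_eq_one.1 (show (nb V τ p ∩ Q).card = 1 by omega)
  have : v ∈ ({d} : Finset α) := hd ▸ mem_inter.2 ⟨nb_symm (h.subQ hv) h1, hv⟩
  rw [hd, mem_singleton.1 this]

theorem fr3_two (hc : Con3 V τ) {Q T : Finset α} (h : Thick V τ Q T) {v p p' : α} (hp : p ∈ T)
    (hp' : p' ∈ T) (h1 : nb V τ p ∩ Q = {v}) (h2 : nb V τ p' ∩ Q = {v}) : p = p' := by
  by_contra k
  have hv := (fr3_door h1).2
  have h3 : Cov V τ (Q.erase v) (insert v ((T.erase p).erase p')) := by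
    intro a ha b hb
    simp only [mem_erase, mem_insert] at ha ⊢
    by_cases e : b = v
    · exact Or.inr (Or.inl e)
    refine (h.cov a ha.2 b hb).imp (fun f => ⟨e, f⟩) fun f => Or.inr ⟨?_, ?_, f⟩
    · rintro rfl
      exact ha.1 (mem_singleton.1 (h2 ▸ mem_inter.2 ⟨nb_symm (h.subQ ha.2) hb, ha.2⟩))
    · rintro rfl
      exact ha.1 (mem_singleton.1 (h1 ▸ mem_inter.2 ⟨nb_symm (h.subQ ha.2) hb, ha.2⟩))
  have h4 := hc.three' ((erase_subset _ _).trans h.subQ)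
    (card_pos.1 (by rw [card_erase_of_mem hv]; have := h.cQ; omega)) h3 h.subT h.cT.ge
    fun t ht e => disjoint_right.1 h.dis ht (mem_of_mem_erase e)
  have h5 := card_insert_le v ((T.erase p).erase p')
  rw [card_erase_of_mem (mem_erase.2 ⟨Ne.symm k, hp'⟩), card_erase_of_mem hp, h.cT] at h5
  omega

theorem fr3_t0 (hc : Con3 V τ) {Q T : Finset α} (h : MinThick V τ Q T)
    (hq : 3 ≤ (Q \ (envR V τ Q T).Dr).card) {v : α}
    (hv : v ∈ (envR V τ Q T).Dr ∨ (v ∈ T ∧ 4 ≤ ds V τ (envR V τ Q T) v)) :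
    2 ≤ (nb V τ v ∩ (Q \ (envR V τ Q T).Dr)).card := by
  have h3 : 3 ≤ Q.card := hq.trans (card_le_card sdiff_subset)
  rcases hv with hv | ⟨hv, h4⟩
  · obtain ⟨h1, t, ht, h2⟩ := fr3_dr.1 hv
    have h4 : 4 ≤ Q.card := by
      have := card_le_card (show Q \ (envR V τ Q T).Dr ⊆ Q.erase v from fun a ha =>
        mem_erase.2 ⟨fun e => (mem_sdiff.1 ha).2 (e ▸ hv), (mem_sdiff.1 ha).1⟩)
      rw [card_erase_of_mem h1] at this
      omega
    have h5 : nb V τ v ⊆ insert t (nb V τ v ∩ (Q \ (envR V τ Q T).Dr)) := fun b hb => by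
      rcases h.1.cov v h1 b hb with e | e
      · refine mem_insert_of_mem (mem_inter.2 ⟨hb, mem_sdiff.2 ⟨e, fun f => ?_⟩⟩)
        obtain ⟨-, t', ht', h6⟩ := fr3_dr.1 f
        exact h.door_two hc h4 ht ht' h2 h6 hb
      · rw [h.door_one hc h3 ht h2 e hb]
        exact mem_insert_self _ _
    have h6 := (card_le_card h5).trans (card_insert_le _ _)
    have h7 := hc.dg3 (by have := h.1.five; omega) (h.1.subQ h1)
    unfold dg at h7
    omega
  · rw [fr3_dsT h.1 hv] at h4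
    refine le_trans (show 2 ≤ (nb V τ v ∩ Q).card by omega) (card_le_card fun b hb => ?_)
    obtain ⟨h1, h2⟩ := mem_inter.1 hb
    refine mem_inter.2 ⟨h1, mem_sdiff.2 ⟨h2, fun f => ?_⟩⟩
    obtain ⟨-, t, ht, h6⟩ := fr3_dr.1 f
    rw [h.door_one hc h3 ht h6 hv (nb_symm (h.1.subT hv) h1), h6, card_singleton] at h4
    omega

theorem ok_R (hc : Con3 V τ) {Q T : Finset α} (h : MinThick V τ Q T) (m : Md) (m1 : m.rl = true)
    (m2 : m.wm = false) (m3 : m.fr = false)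
    (hq : m.q0 = true → 3 ≤ (Q \ (envR V τ Q T).Dr).card)
    (hb : m.big = true → ∀ v ∈ Q, v ∉ (envR V τ Q T).Dr → 4 ≤ dg V τ v)
    (hn : m.nf = true → ∀ a b, Q ⊆ {a, b} → τ s(a, b) ≠ 0 → dg V τ a = 3 → dg V τ b = 3 → False) :
    Ok m V τ (envR V τ Q T) := by
  have hT := h.1
  have hw : ¬ m.wm = true := by rw [m2]; exact Bool.false_ne_true
  have hno : ∀ w, ¬ (envR V τ Q T).om = some w := fun w e => by cases e
  refine ⟨hc, hT.subQ, hT.subT, fun v hv => disjoint_left.1 hT.dis hv, hT.cT.le,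
    fun v hv b k => (hT.cov v hv b k).imp_right Or.inl, fun _ => rfl, fun e => absurd e hw,
    fun w e => absurd e (hno w), ?_, ?_, hb, ?_, ?_, ?_, fun _ => ⟨hT.cQ, hT.cT⟩, ?_, ?_,
    fun e v hv => fr3_t0 hc h (hq e) hv, hn,
    fun e => absurd e (by rw [m3]; exact Bool.false_ne_true), fun _ V' τ' g => hT.safe hc g⟩
  · rintro v (hv | hv)
    · rw [fr3_dsQ (Q := Q) hv]
      exact hc.dg3 (by have := hT.five; omega) (hT.subQ hv)
    · have := card_pos.2 (hT.nbQ hc hv)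
      rw [fr3_dsT hT hv]
      omega
  · intro v hv
    have h1 := hT.out v hv
    have h2 := card_sdiff_add_card_inter (nb V τ v) Q
    rw [fr3_dsT hT hv, dg]
    omega
  · intro v hv
    obtain ⟨h1, p, hp, h2⟩ := fr3_dr.1 hv
    refine ⟨h1, p, nb_symm (hT.subT hp) (fr3_door h2).1, Or.inl ⟨hp, ?_⟩⟩
    rw [fr3_dsT hT hp, h2, card_singleton]
  · exact fun v hv p hp h1 h3 => fr3_dr.2 ⟨hv, p, hp, fr3_one hT hv hp h1 h3⟩
  · exact fun v hv p hp p' hp' h1 h2 h3 h4 =>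
      fr3_two hc hT hp hp' (fr3_one hT hv hp h1 h3) (fr3_one hT hv hp' h2 h4)
  · exact fun _ B U hB hne hcov => hc.three' (hB.1.trans hT.subQ) hne hcov hT.subT hT.cT.ge
      fun t ht e => disjoint_right.1 hT.dis ht (hB.1 e)
  · intro _ B U hB h2 hcov hdis h3
    obtain ⟨a1, a2, -⟩ := h.ax hc hB.1 h2 hcov hdis h3
    have a3 : ∀ c ∈ Q, c ∉ B → c ∈ (envR V τ Q T).Dr := fun c k k' => by
      obtain ⟨-, t, ht, -, e⟩ := a1 c k k'
      exact fr3_dr.2 ⟨k, t, ht, e⟩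
    have a4 : Q \ (envR V τ Q T).Dr ⊆ B := fun c k => by
      by_contra k'
      exact (mem_sdiff.1 k).2 (a3 c (mem_sdiff.1 k).1 k')
    have a5 : ∀ u ∈ U, u ∈ Q → u ∈ (envR V τ Q T).Dr := fun u hu k =>
      a3 u k (disjoint_right.1 hdis hu)
    refine ⟨?_, a5, fun e => (hq e).trans (card_le_card a4), ?_, fun w e => absurd e (hno w)⟩
    · rintro c (k | k) k1 k2
      · exact absurd (a1 c k k1).1 k2
      · obtain ⟨d, -, e⟩ := a2 c k k2
        exact ⟨k, by rw [fr3_dsT hT k, e, card_singleton]⟩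
    · intro e u hu k
      exact (fr3_t0 hc h (hq (e.resolve_right hw)) (k.imp_left (a5 u hu))).trans
        (card_le_card (inter_subset_inter_left a4))

end Pool.Agent.Lib.MP_efe3d7_co.H
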