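import Pool.Agent.Lib.MP_efe3d7_co.H.G0

/-! A cubic vertex in a triangle. -/

set_option autoImplicit false

open Finset

namespace Pool.Agent.Lib.MP_efe3d7_co.H

variable {α : Type} [DecidableEq α] {V : Finset α} {τ : Sym2 α → Fin 3}

theorem tri_del_aux (hc : Con3 V τ) {r a b : α} {A S : Finset α} (hA : A ⊆ V) (ha : a ∈ A)
    (hb : b ∉ A) (hr : r ∈ V) (hrS : r ∈ S) (hrA : r ∉ A) (hS : S.card ≤ 2) (da : 4 ≤ dg V τ a)
    (hcov : Cov V (Function.update τ s(a, b) 0) A S) (h1 : ∀ x ∈ A, x ∈ nb V τ r → x = a) :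
    False := by
  rcases (A.erase a).eq_empty_or_nonempty with e | e
  · have h2 : nb V τ a ⊆ insert b S := fun y hy => by
      by_cases k : y = b
      · simp [k]
      · rcases hcov a ha y (mem_nb_del.2 ⟨hy, fun q => k (Sym2.congr_right.1 q)⟩) with q | q
        · exact absurd (mem_erase.2 ⟨(mem_nb.1 hy).2.1, q⟩) (by simp [e])
        · simp [q]
    have h3 := (card_le_card h2).trans (card_insert_le _ _)
    unfold dg at da
    omega
  · have h2 : Cov V τ (A.erase a) (insert a (S.erase r)) := fun x hx y hy => by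
      obtain ⟨x1, x2⟩ := mem_erase.1 hx
      have x3 : x ≠ b := fun q => hb (q ▸ x2)
      have x4 : y ≠ r := fun q => x1 (h1 x x2 (nb_symm (hA x2) (q ▸ hy)))
      have := hcov x x2 y (mem_nb_del.2 ⟨hy, by simp [x1, x3]⟩)
      simp only [mem_erase, mem_insert]
      tauto
    have h3 := hc.three ((erase_subset _ _).trans hA) e h2 hr (by simp [hrA])
      (by simpa using fun q : r = a => hrA (q ▸ ha))
    have h4 := card_insert_le a (S.erase r)
    have h5 := card_erase_of_mem hrS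
    omega

theorem tri_del_side (hc : Con3 V τ) {r a b : α} {A S C : Finset α} (hr : r ∈ V)
    (h3 : dg V τ r = 3) (ha : a ∈ nb V τ r) (hb : b ∈ nb V τ r) (da : 4 ≤ dg V τ a)
    (db : 4 ≤ dg V τ b) (hS : S.card ≤ 2) (hV : ∀ v, v ∈ V ↔ v ∈ A ∨ v ∈ S ∨ v ∈ C)
    (h1 : ∀ v ∈ A, v ∉ S) (h2 : ∀ v ∈ C, v ∉ S) (h4 : ∀ v ∈ A, v ∉ C)
    (cA : Cov V (Function.update τ s(a, b) 0) A S) (cC : Cov V (Function.update τ s(a, b) 0) C S)
    (haA : a ∈ A) (hbC : b ∈ C) : False := by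
  have ra : r ≠ a := (mem_nb.1 ha).2.1.symm
  have rb : r ≠ b := (mem_nb.1 hb).2.1.symm
  have rA : r ∉ A := fun q => by
    have := cA r q b (mem_nb_del.2 ⟨hb, by simp [ra, rb]⟩)
    grind
  have rC : r ∉ C := fun q => by
    have := cC r q a (mem_nb_del.2 ⟨ha, by simp [ra, rb]⟩)
    grind
  have rS : r ∈ S := by grind
  by_cases k : ∀ x ∈ A, x ∈ nb V τ r → x = a
  · exact tri_del_aux hc (fun v hv => (hV v).2 (Or.inl hv)) haA (fun q => h4 b q hbC) hr rS rA hS
      da cA k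
  · rw [Sym2.eq_swap] at cC
    refine tri_del_aux hc (fun v hv => (hV v).2 (Or.inr (Or.inr hv))) hbC (h4 a haA) hr rS rC hS
      db cC fun y hy hy' => ?_
    by_contra q
    push Not at k
    obtain ⟨x, x1, x2, x3⟩ := k
    have h5 : ({a, x} ∪ {b, y} : Finset α) ⊆ nb V τ r := by
      intro z hz
      simp only [mem_union, mem_insert, mem_singleton] at hz
      grind
    have h6 := card_le_card h5
    rw [card_union_of_disjoint (by simp only [disjoint_left, mem_insert, mem_singleton]; grind),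
      card_pair (Ne.symm x3), card_pair (Ne.symm q)] at h6
    unfold dg at h3
    omega

theorem tri_del (hc : Con3 V τ) {r a b : α} (hr : r ∈ V) (h3 : dg V τ r = 3) (ha : a ∈ nb V τ r)
    (hb : b ∈ nb V τ r) (hab : a ≠ b) (da : 4 ≤ dg V τ a) (db : 4 ≤ dg V τ b) :
    Con3 V (Function.update τ s(a, b) 0) := by
  refine con3_of_sep hc.1 fun A S C hA hC hS hV h1 h2 h4 cA cC => ?_
  by_cases k1 : a ∈ A ∧ b ∈ C
  · exact tri_del_side hc hr h3 ha hb da db hS hV h1 h2 h4 cA cC k1.1 k1.2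
  by_cases k2 : b ∈ A ∧ a ∈ C
  · rw [Sym2.eq_swap] at cA cC
    exact tri_del_side hc hr h3 hb ha db da hS hV h1 h2 h4 cA cC k2.1 k2.2
  obtain ⟨c, hcC⟩ := hC
  have h5 : Cov V τ A S := fun x hx y hy => by
    by_cases q : s(x, y) = s(a, b)
    · have := (hV y).1 (nb_sub _ hy)
      rw [Sym2.eq_iff] at q
      grind
    · exact cA x hx y (mem_nb_del.2 ⟨hy, q⟩)
  have := hc.three (fun v hv => (hV v).2 (Or.inl hv)) hA h5 ((hV c).2 (Or.inr (Or.inr hcC)))
    (fun q => h4 c q hcC) (h2 c hcC)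
  omega

theorem tri_del2_nb {a b c : α} (h1 : c ≠ a) (h2 : c ≠ b) :
    nb V (Function.update τ s(a, b) 0) c = nb V τ c := by
  ext y
  simp [mem_nb_del, h1, h2]

theorem tri_del2 (hc : Con3 V τ) {r a b c : α} (hr : r ∈ V) (h3 : nb V τ r = {a, b, c})
    (hab : b ∈ nb V τ a) (hbc : c ∈ nb V τ b) (hac : a ≠ c) (da : 4 ≤ dg V τ a)
    (db : 4 ≤ dg V τ b) (dc : 4 ≤ dg V τ c) :
    Con3 V (Function.update (Function.update τ s(a, b) 0) s(b, c) 0) ∨
      (dg V τ b = 4 ∧ ∃ T, MinThick V τ {r, b} T) := by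
  have ha : a ∈ nb V τ r := by simp [h3]
  have hb : b ∈ nb V τ r := by simp [h3]
  have hc' : c ∈ nb V τ r := by simp [h3]
  have ab : a ≠ b := (mem_nb.1 hab).2.1.symm
  have bc : b ≠ c := (mem_nb.1 hbc).2.1.symm
  have ra : r ≠ a := (mem_nb.1 ha).2.1.symm
  have rb : r ≠ b := (mem_nb.1 hb).2.1.symm
  have rc : r ≠ c := (mem_nb.1 hc').2.1.symm
  have d3 : dg V τ r = 3 := by
    rw [dg, h3]
    exact card_eq_three.2 ⟨a, b, c, ab, hac, bc, rfl⟩
  rcases db.eq_or_lt with e | e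
  · refine Or.inr ⟨e.symm, (nb V τ b).erase r, ⟨?_, (erase_subset _ _).trans (nb_sub _), ?_,
      (card_pair rb).ge, ?_, ?_, fun t ht => ?_⟩, fun Q' T' h1 h2 =>
        eq_of_subset_of_card_le h2 ((card_pair rb).trans_le h1.cQ)⟩
    · simp [insert_subset_iff, hr, nb_sub _ hb]
    · simp [not_mem_nb]
    · rw [card_erase_of_mem (nb_symm hr hb)]
      unfold dg at e
      omega
    · intro x hx y hy
      have h4 := nb_symm (nb_sub _ ha) hab
      simp only [mem_insert, mem_singleton, mem_erase] at hx ⊢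
      rcases hx with rfl | rfl
      · simp only [h3, mem_insert, mem_singleton] at hy
        grind
      · tauto
    · by_cases k : t ∈ nb V τ r
      · have h4 := le_card_sdiff ({r, b} : Finset α) (nb V τ t)
        have h5 : t ≠ b := (mem_nb.1 (mem_of_mem_erase ht)).2.1
        have h6 : 4 ≤ dg V τ t := by
          simp only [h3, mem_insert, mem_singleton] at k
          grind
        rw [card_pair rb] at h4
        unfold dg at h6
        omega
      · have h4 := nb_sub _ (mem_of_mem_erase ht)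
        have h5 := hc.dg3 (e.trans_le (card_le_card (nb_sub b))) h4
        have h6 : (nb V τ t).erase b ⊆ nb V τ t \ {r, b} := fun y hy => by
          have : y ≠ r := fun q => k (nb_symm h4 (q ▸ mem_of_mem_erase hy))
          simp only [mem_erase, mem_sdiff, mem_insert, mem_singleton] at hy ⊢
          tauto
        have h7 := pred_card_le_card_erase (s := nb V τ t) (a := b)
        have h8 := card_le_card h6
        unfold dg at h5
        omega
  · refine Or.inl (tri_del (tri_del hc hr d3 ha hb ab da db) hr ?_ ?_ ?_ bc ?_ ?_)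
    · rwa [dg, tri_del2_nb ra rb]
    · rwa [tri_del2_nb ra rb]
    · rwa [tri_del2_nb ra rb]
    · have h6 : (nb V τ b).erase a ⊆ nb V (Function.update τ s(a, b) 0) b := fun y hy =>
        mem_nb_del.2 ⟨mem_of_mem_erase hy, by simp [ab.symm, ne_of_mem_erase hy]⟩
      have h7 := pred_card_le_card_erase (s := nb V τ b) (a := a)
      have h8 := card_le_card h6
      unfold dg at e ⊢
      omega
    · rwa [dg, tri_del2_nb hac.symm bc.symm]

/-- The separation that appears when the contraction of `r a` fails. -/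
def fr6b_D (V : Finset α) (τ : Sym2 α → Fin 3) (r a b p s : α) (A C : Finset α) : Prop :=
  (∀ v ∈ V, v = r ∨ v = a ∨ v = s ∨ v ∈ A ∨ v ∈ C) ∧ A ⊆ V ∧ C ⊆ V ∧ r ∉ A ∧ r ∉ C ∧ a ∉ A ∧
    a ∉ C ∧ s ≠ r ∧ s ∉ A ∧ s ∉ C ∧ (∀ v ∈ A, v ∉ C) ∧ b ∈ A ∧ p ∈ C ∧
    (∀ x ∈ A, ∀ z ∈ nb V τ x, z ∉ C) ∧ (∀ x ∈ C, ∀ z ∈ nb V τ x, z ∉ A) ∧ ∃ y ∈ nb V τ a, y ∈ C

theorem fr6b_two (hc : Con3 V τ) {X : Finset α} {r u v : α} (hr : r ∈ V) (hX : X ⊆ V)
    (h1 : r ∉ X) (h2 : r ≠ u) (h3 : r ≠ v)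
    (h : ∀ x ∈ X, ∀ z ∈ nb V τ x, z ∈ X ∨ z = u ∨ z = v) : ∀ x, x ∉ X := fun x hx => by
  have := hc.three (S := {u, v}) hX ⟨x, hx⟩ (fun x hx z hz => by simpa using h x hx z hz) hr h1
    (by simp [h2, h3])
  have := card_le_two (a := u) (b := v)
  omega

theorem fr6b_side (hc : Con3 V τ) {r a b p : α} (hr : r ∈ V) (h4 : 4 ≤ V.card)
    (hn : ∀ z, z ∈ nb V τ r ↔ z = a ∨ z = b ∨ z = p) (hab : b ≠ a) (hap : p ≠ a) (hbp : b ≠ p)
    (h : ¬ Con3 (V.erase r) (mg τ a r)) : ∃ s A C, fr6b_D V τ r a b p s A C := by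
  have ha : a ∈ nb V τ r := (hn a).2 (Or.inl rfl)
  have hb : b ∈ nb V τ r := (hn b).2 (Or.inr (Or.inl rfl))
  have hp : p ∈ nb V τ r := (hn p).2 (Or.inr (Or.inr rfl))
  have haV := nb_sub _ ha
  have hbr := (mem_nb.1 hb).2.1
  have hpr := (mem_nb.1 hp).2.1
  by_contra hcon
  refine h (con3_of_sep (by rw [card_erase_of_mem hr]; omega) ?_)
  intro A S C hA hC hS hV hAS hCS hAC cA cC
  have hV' : ∀ v, (v ≠ r ∧ v ∈ V) ↔ v ∈ A ∨ v ∈ S ∨ v ∈ C := fun v => by
    rw [← hV, mem_erase]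
  have cov : ∀ X : Finset α, (∀ v ∈ X, v ≠ r ∧ v ∈ V) → a ∉ X → Cov (V.erase r) (mg τ a r) X S →
      ∀ x ∈ X, ∀ z ∈ nb V τ x, z = r ∨ z ∈ X ∨ z ∈ S := fun X hX haX cX x hx z hz => by
    by_cases e : z = r
    · exact Or.inl e
    · exact Or.inr (cX x hx z ((mem_nb_mg (fun k : x = a => haX (k ▸ hx)) (hX x hx).1 haV hr).2
        ⟨e, Or.inl hz⟩))
  have side : ∀ X : Finset α, X.Nonempty → (∀ v ∈ X, v ≠ r ∧ v ∈ V) → a ∉ X →
      Cov (V.erase r) (mg τ a r) X S → b ∈ X ∨ p ∈ X := fun X hne hX haX cX => by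
    by_contra k
    push Not at k
    have := hc.three (S := S) (fun v hv => (hX v hv).2) hne (fun x hx z hz => by
      rcases cov X hX haX cX x hx z hz with e | e
      · have := (hn x).1 (nb_symm (hX x hx).2 (e ▸ hz))
        grind
      · exact e) hr (fun k => (hX r k).1 rfl) (fun k => ((hV' r).2 (Or.inr (Or.inl k))).1 rfl)
    omega
  have hAV : ∀ v ∈ A, v ≠ r ∧ v ∈ V := fun v hv => (hV' v).2 (Or.inl hv)
  have hCV : ∀ v ∈ C, v ≠ r ∧ v ∈ V := fun v hv => (hV' v).2 (Or.inr (Or.inr hv))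
  have nb1 : b ∈ nb (V.erase r) (mg τ a r) a := mem_nb_mg_self.2 ⟨hab, hbr, Or.inr hb⟩
  have nb2 : p ∈ nb (V.erase r) (mg τ a r) a := mem_nb_mg_self.2 ⟨hap, hpr, Or.inr hp⟩
  have haA : a ∉ A := fun k => by
    have h1 := cA a k b nb1
    have h2 := cA a k p nb2
    have h3 := side C hC hCV (hAC a k) cC
    grind
  have haC : a ∉ C := fun k => by
    have h1 := cC a k b nb1
    have h2 := cC a k p nb2
    have h3 := side A hA hAV haA cA
    grind
  have haS : a ∈ S := by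
    have := (hV' a).1 ⟨(mem_nb.1 ha).2.1, haV⟩
    tauto
  obtain ⟨s, hsS, hs⟩ : ∃ s ∈ S, ∀ v ∈ S, v = a ∨ v = s := by
    by_cases k : ∃ s ∈ S, s ≠ a
    · obtain ⟨s, h1, h2⟩ := k
      refine ⟨s, h1, fun v hv => ?_⟩
      by_contra n
      push Not at n
      have : ({a, s, v} : Finset α) ⊆ S := by simp [insert_subset_iff, haS, h1, hv]
      have h5 := card_le_card this
      rw [card_eq_three.2 ⟨a, s, v, h2.symm, n.1.symm, n.2.symm, rfl⟩] at h5
      omega
    · push Not at k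
      exact ⟨a, haS, fun v hv => Or.inl (k v hv)⟩
  have hsr : s ≠ r := ((hV' s).2 (Or.inr (Or.inl hsS))).1
  have fin : ∀ X Y : Finset α, (∀ v, (v ≠ r ∧ v ∈ V) ↔ v ∈ X ∨ v ∈ S ∨ v ∈ Y) →
      (∀ v ∈ X, v ∉ S) → (∀ v ∈ Y, v ∉ S) → (∀ v ∈ X, v ∉ Y) → a ∉ X → a ∉ Y →
      Cov (V.erase r) (mg τ a r) X S → Cov (V.erase r) (mg τ a r) Y S → b ∈ X → p ∈ Y → False :=
    fun X Y hV hXS hYS hXY haX haY cX cY hbX hpY => by
      have hXV : ∀ v ∈ X, v ≠ r ∧ v ∈ V := fun v hv => (hV v).2 (Or.inl hv)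
      have hYV : ∀ v ∈ Y, v ≠ r ∧ v ∈ V := fun v hv => (hV v).2 (Or.inr (Or.inr hv))
      have c1 := cov X hXV haX cX
      have c2 := cov Y hYV haY cY
      refine hcon ⟨s, X, Y, fun v hv => ?_, fun v hv => (hXV v hv).2, fun v hv => (hYV v hv).2,
        fun k => (hXV r k).1 rfl, fun k => (hYV r k).1 rfl, haX, haY, hsr, fun k => hXS s k hsS,
        fun k => hYS s k hsS, hXY, hbX, hpY, fun x hx z hz k => ?_, fun x hx z hz k => ?_, ?_⟩
      · have := hV v
        have := hs v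
        tauto
      · have := c1 x hx z hz
        have := hYV z k
        have := hYS z k
        have := hXY z
        tauto
      · have := c2 x hx z hz
        have := hXV z k
        have := hXS z k
        have := hXY z
        tauto
      · by_contra k
        push Not at k
        refine fr6b_two hc (u := s) (v := r) (nb_sub _ hb) (fun v hv => (hYV v hv).2) (hXY b hbX)
          (fun e => hXS b hbX (e ▸ hsS)) hbr (fun x hx z hz => ?_) p hpY
        rcases c2 x hx z hz with e | e | e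
        · exact Or.inr (Or.inr e)
        · exact Or.inl e
        · rcases hs z e with e | e
          · exact absurd hx (k x (nb_symm (hYV x hx).2 (e ▸ hz)))
          · exact Or.inr (Or.inl e)
  have s1 := side A hA hAV haA cA
  have s2 := side C hC hCV haC cC
  by_cases k : b ∈ A
  · exact fin A C hV' hAS hCS hAC haA haC cA cC k (s2.resolve_left (hAC b k))
  · have k2 := s1.resolve_left k
    exact fin C A (fun v => by rw [hV']; tauto) hCS hAS (fun v h1 h2 => hAC v h2 h1) haC haA cC cA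
      (s2.resolve_right (hAC p k2)) k2

theorem fr6b_cross (hc : Con3 V τ) {r a b p s s' : α} {A C A' C' : Finset α} (hr : r ∈ V)
    (hn : ∀ z, z ∈ nb V τ r ↔ z = a ∨ z = b ∨ z = p) (h : fr6b_D V τ r a b p s A C)
    (h' : fr6b_D V τ r b a p s' A' C') : ∀ x ∈ C, x ∉ A' := by
  obtain ⟨a1, a2, a3, a4, a5, a6, a7, a8, -, a10, a11, a12, a13, a14, a15, -⟩ := h
  obtain ⟨b1, b2, b3, b4, b5, b6, b7, b8, -, -, b11, b12, b13, b14, b15, y, b16, b17⟩ := h'
  intro x hx hx'
  have har : r ≠ a := fun e => b4 (e ▸ b12)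
  have hbr : r ≠ b := fun e => a4 (e ▸ a12)
  have key : ∀ x ∈ C ∩ A', ∀ z ∈ nb V τ x, (z = a ∨ z = s ∨ z ∈ C) ∧ (z = s' ∨ z ∈ A') := by
    intro x hx z hz
    obtain ⟨k1, k2⟩ := mem_inter.1 hx
    have e1 := a1 z (nb_sub _ hz)
    have e2 := b1 z (nb_sub _ hz)
    have e3 := a15 x k1 z hz
    have e4 := b14 x k2 z hz
    have e5 : z ≠ r := fun e => by
      have := (hn x).1 (nb_symm (a3 k1) (e ▸ hz))
      grind
    grind
  have hsub : C ∩ A' ⊆ V := inter_subset_left.trans a3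
  have hrX : r ∉ C ∩ A' := fun k => a5 (mem_inter.1 k).1
  have hs : s ∈ A' := by
    by_contra k
    refine fr6b_two hc (u := a) (v := s') hr hsub hrX har b8.symm (fun x hx z hz => ?_) x
      (mem_inter.2 ⟨hx, hx'⟩)
    have := key x hx z hz
    rw [mem_inter]
    grind
  have hs' : s' ∈ C := by
    by_contra k
    refine fr6b_two hc (u := a) (v := s) hr hsub hrX har a8.symm (fun x hx z hz => ?_) x
      (mem_inter.2 ⟨hx, hx'⟩)
    have := key x hx z hz
    rw [mem_inter]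
    grind
  have hE := fr6b_two hc (X := A ∩ C') (u := b) (v := b) hr (inter_subset_left.trans a2)
    (fun k => a4 (mem_inter.1 k).1) hbr hbr fun x hx z hz => by
      obtain ⟨k1, k2⟩ := mem_inter.1 hx
      have e1 := a1 z (nb_sub _ hz)
      have e2 := b1 z (nb_sub _ hz)
      have e3 := a14 x k1 z hz
      have e4 := b15 x k2 z hz
      have e5 : z ≠ r := fun e => by
        have := (hn x).1 (nb_symm (a2 k1) (e ▸ hz))
        grind
      rw [mem_inter]
      grind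
  have e1 := a1 y (nb_sub _ b16)
  have e2 := a14 b a12 y b16
  have e3 := hE y
  rw [mem_inter] at e3
  grind

theorem tri_contr (hc : Con3 V τ) {r a b : α} (hr : r ∈ V) (h3 : dg V τ r = 3)
    (ha : a ∈ nb V τ r) (hb : b ∈ nb V τ r) (hab : b ∈ nb V τ a) (db : 4 ≤ dg V τ b) :
    Con3 (V.erase r) (mg τ a r) ∨ Con3 (V.erase r) (mg τ b r) := by
  have hba : b ≠ a := (mem_nb.1 hab).2.1
  have h4 : 4 ≤ V.card := db.trans (card_le_card (nb_sub _))
  obtain ⟨p, hp⟩ : ∃ p, ((nb V τ r).erase a).erase b = {p} := by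
    rw [← card_eq_one, card_erase_of_mem (mem_erase.2 ⟨hba, hb⟩), card_erase_of_mem ha]
    unfold dg at h3
    omega
  have hp' : ∀ z, (z ≠ b ∧ z ≠ a ∧ z ∈ nb V τ r) ↔ z = p := fun z => by
    rw [← mem_singleton, ← hp, mem_erase, mem_erase]
  have hp2 := (hp' p).2 rfl
  have hn : ∀ z, z ∈ nb V τ r ↔ z = a ∨ z = b ∨ z = p := fun z => by
    have := hp' z
    grind
  have hn' : ∀ z, z ∈ nb V τ r ↔ z = b ∨ z = a ∨ z = p := fun z => by rw [hn]; tauto
  by_contra k
  push Not at k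
  obtain ⟨s, A, C, h⟩ := fr6b_side hc hr h4 hn hba hp2.2.1 hp2.1.symm k.1
  obtain ⟨s', A', C', h'⟩ := fr6b_side hc hr h4 hn' hba.symm hp2.1 hp2.2.1.symm k.2
  have c1 := fr6b_cross hc hr hn h h'
  have c2 := fr6b_cross hc hr hn' h' h
  obtain ⟨a1, a2, a3, a4, a5, a6, a7, a8, -, a10, a11, a12, a13, a14, a15, y, a16, a17⟩ := h
  obtain ⟨b1, b2, b3, b4, b5, b6, b7, b8, -, -, b11, b12, b13, b14, b15, y', b16, b17⟩ := h'
  have hs' : s' ∈ C := by
    have e1 := b1 y (nb_sub _ a16)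
    have e2 := b14 a b12 y a16
    have e3 := c1 y a17
    grind
  have hs : s ∈ C' := by
    have e1 := a1 y' (nb_sub _ b16)
    have e2 := a14 b a12 y' b16
    have e3 := c2 y' b17
    grind
  have hE := fr6b_two hc (X := A ∩ A') (u := a) (v := b) hr (inter_subset_left.trans a2)
    (fun k => a4 (mem_inter.1 k).1) (fun e => b4 (e ▸ b12)) (fun e => a4 (e ▸ a12))
    fun x hx z hz => by
      obtain ⟨k1, k2⟩ := mem_inter.1 hx
      have e1 := a1 z (nb_sub _ hz)
      have e2 := b1 z (nb_sub _ hz)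
      have e3 := a14 x k1 z hz
      have e4 := b14 x k2 z hz
      have e5 : z ≠ r := fun e => by
        have := (hn x).1 (nb_symm (a2 k1) (e ▸ hz))
        grind
      rw [mem_inter]
      grind
  have hsub : nb V τ b ⊆ {a, s, r} := fun z hz => by
    have e1 := a1 z (nb_sub _ hz)
    have e2 := b1 z (nb_sub _ hz)
    have e3 := a14 b a12 z hz
    have e4 := hE z
    have e5 := (mem_nb.1 hz).2.1
    have e6 := c2 z
    have e7 := a11 z
    rw [mem_inter] at e4
    simp only [mem_insert, mem_singleton]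
    grind
  have := (card_le_card hsub).trans card_le_three
  unfold dg at db
  omega

theorem contr_of_aux {u v : α} (hu : u ∈ V) (hv : v ∈ V) {A S : Finset α} (h1 : u ∉ A)
    (h2 : v ∉ A) (h : Cov (V.erase v) (mg τ u v) A S) {x y : α} (hx : x ∈ A) (hy : y ∈ nb V τ x)
    (huv : u ≠ v) : (y = v ∧ u ∈ S) ∨ y ∈ A ∨ y ∈ S := by
  have x1 : x ≠ u := fun q => h1 (q ▸ hx)
  have x2 : x ≠ v := fun q => h2 (q ▸ hx)
  by_cases k : y = v
  · exact Or.inl ⟨k, (h x hx u ((mem_nb_mg x1 x2 hu hv).2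
      ⟨huv, Or.inr ⟨rfl, k ▸ hy⟩⟩)).resolve_left h1⟩
  · exact Or.inr (h x hx y ((mem_nb_mg x1 x2 hu hv).2 ⟨k, Or.inl hy⟩))

/-- An edge whose ends lie in no cut with three vertices can be contracted. -/
theorem contr_of (hc : Con3 V τ) (h4 : 4 ≤ V.card) {u v : α} (hu : u ∈ V) (hv : v ∈ V)
    (huv : u ≠ v)
    (h : ∀ (B : Finset α) (s : α), B ⊆ V → B.Nonempty → u ∉ B → v ∉ B → Cov V τ B {u, v, s} →
      V ⊆ B ∪ {u, v, s}) : Con3 (V.erase v) (mg τ u v) := by
  refine con3_of_sep (by rw [card_erase_of_mem hv]; omega) fun A S C hA hC hS hV h1 h2 h3 cA cC => ?_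
  have sA : ∀ x ∈ A, x ≠ v ∧ x ∈ V := fun x hx => mem_erase.1 ((hV x).2 (Or.inl hx))
  have sC : ∀ x ∈ C, x ≠ v ∧ x ∈ V := fun x hx => mem_erase.1 ((hV x).2 (Or.inr (Or.inr hx)))
  have key : ∀ B : Finset α, (∀ x ∈ B, x ≠ v ∧ x ∈ V) → B.Nonempty → u ∉ B → u ∉ S →
      Cov (V.erase v) (mg τ u v) B S → False := fun B sB hB k1 k2 cB => by
    have := hc.three (fun x hx => (sB x hx).2) hB (fun x hx y hy =>
      (contr_of_aux hu hv k1 (fun q => (sB v q).1 rfl) cB hx hy huv).resolve_left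
        fun q => k2 q.2) hu k1 k2
    omega
  rcases (hV u).1 (mem_erase.2 ⟨huv, hu⟩) with k | k | k
  · exact key C sC hC (h3 u k) (h1 u k) cC
  · obtain ⟨s, s1, s2⟩ : ∃ s ∈ S, ∀ y ∈ S, y = u ∨ y = s := by
      rcases (S.erase u).eq_empty_or_nonempty with e | ⟨s, e⟩
      · exact ⟨u, k, fun y hy => Or.inl (by_contra fun q =>
          absurd (mem_erase.2 ⟨q, hy⟩) (by simp [e]))⟩
      · refine ⟨s, mem_of_mem_erase e, fun y hy => or_iff_not_imp_left.2 fun q => ?_⟩
        exact card_le_one.1 (by rw [card_erase_of_mem k]; omega) y (mem_erase.2 ⟨q, hy⟩) s e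
    have uA : u ∉ A := fun q => h1 u q k
    have vA : v ∉ A := fun q => (sA v q).1 rfl
    obtain ⟨c, hcC⟩ := hC
    have := h A s (fun x hx => (sA x hx).2) hA uA vA (fun x hx y hy => by
      have := contr_of_aux hu hv uA vA cA hx hy huv
      simp only [mem_insert, mem_singleton]
      grind) (sC c hcC).2
    simp only [mem_union, mem_insert, mem_singleton] at this
    grind
  · exact key A sA hA (fun q => h3 u q k) (h2 u k) cA

end Pool.Agent.Lib.MP_efe3d7_co.H
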