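import Pool.Agent.Lib.MP_efe3d7_co.H.Snd
import Pool.Agent.Lib.MP_efe3d7_co.H.Fr3
import Pool.Agent.Lib.MP_efe3d7_co.H.Fr6

/-! The entry of the table that is proved by hand. -/

set_option autoImplicit false

open Finset

namespace Pool.Agent.Lib.MP_efe3d7_co.H

variable {α : Type} [Fintype α] [DecidableEq α] {x : ℝ} {V : Finset α} {τ : Sym2 α → Fin 3}

theorem n1 : N1 α := fun _ _ _ _ _ hc hr h3 ha hb hab da db =>
  tri_del hc hr h3 ha hb (mem_nb.1 hab).2.1.symm da db

theorem ok2_R (hc : Con3 V τ) {Q T : Finset α} (h : MinThick V τ Q T) (m : Md) (m1 : m.rl = true)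
    (m2 : m.wm = false) (m3 : m.fr = false)
    (hq : m.q0 = true → 3 ≤ (Q \ (envR V τ Q T).Dr).card)
    (hb : m.big = true → ∀ v ∈ Q, v ∉ (envR V τ Q T).Dr → 4 ≤ dg V τ v)
    (hn : m.nf = true → (Q \ (envR V τ Q T).Dr).card ≤ 2 ∧
      ∀ a b, Q ⊆ {a, b} → τ s(a, b) ≠ 0 → dg V τ a = 3 → dg V τ b = 3 → False) :
    Ok2 m V τ (envR V τ Q T) := by
  refine ⟨ok_R hc h m m1 m2 m3 hq hb fun e => (hn e).2, fun e => (hn e).1,
    fun e => absurd (m3 ▸ e) (by decide), hq, fun _ h3 d hd => ?_, fun _ h4 d hd d' hd' => ?_⟩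
  · obtain ⟨-, p, hp, e⟩ := mem_filter.1 hd
    refine card_le_one.2 fun a ha b hb => ?_
    rw [h.door_one hc h3 hp e (mem_inter.1 ha).2 (mem_inter.1 ha).1,
      h.door_one hc h3 hp e (mem_inter.1 hb).2 (mem_inter.1 hb).1]
  · obtain ⟨-, p, hp, e⟩ := mem_filter.1 hd
    obtain ⟨-, p', hp', e'⟩ := mem_filter.1 hd'
    exact h.door_two hc h4 hp hp' e e'

omit [Fintype α] in
theorem sat_zero (E : Env α) (v : ℕ → α) : Sat ⟨0, 0, 0, 0, 0, 0, 0, 0, 0, false⟩ V τ E v := by
  refine ⟨?_, ?_, ?_, ?_, ?_, ?_, ?_, ?_, ?_, ?_, fun h => absurd h (by decide)⟩ <;>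
    exact fun i hi => absurd hi (Nat.not_lt_zero i)

/-- A cubic vertex with hard edges whose neighbours form a path of forced edges. -/
def kG : K := ⟨4, 8, 0, 0, 0, 292, 1536, 3255908798985472880140115210151607449858080768, 0, false⟩

/-- The certificate for this configuration. -/
def cG : Cert := ⟨3, [128, 296, 176], [15, 14],
  [⟨1, false, 0, 0, 0, 1806360361080981742114993408314481728641040384, [0, 40, 48]⟩,
    ⟨0, false, 0, 0, 0, 1346878762742494302040200577024, [75, 160, 84]⟩,
    ⟨1, false, 0, 0, 99, 1627954399492735489332107433903330389936570368, [8, 32, 32]⟩,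
    ⟨0, false, 0, 0, 0, 633825300114115263698305024000, [45, 64, 12]⟩,
    ⟨0, false, 0, 0, 0, 1267650600228229682971679916032, [18, 40, 8]⟩,
    ⟨1, false, 0, 0, 0, 3055202092198696638040993631582508497999233024, [36, 44, 8]⟩]⟩

theorem valid_g2 (h1 : 1 / 4 ≤ x) (h2 : x ≤ 1 / 2)
    (hs : Valid α x ⟨true, false, false, false, true, false⟩ ⟨0, 0, 0, 0, 0, 0, 0, 0, 0, false⟩) :
    Valid α x ⟨true, false, false, false, false, false⟩ kG := by
  intro V τ E v hO hS
  have o := hO.ok
  have aj : ∀ i < 4, ∀ j < 4, kG.aj i j = true → v j ∈ nb V τ (v i) :=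
    fun i hi j hj => aj_sound o hS hi hj
  have hq : v 3 ∈ E.Q := hS.lq 3 (by decide) (by decide)
  have h3 : nb V τ (v 3) = {v 0, v 1, v 2} := by
    ext z
    simp only [mem_insert, mem_singleton]
    constructor
    · intro hz
      obtain ⟨j, hj, a, rfl⟩ := cl_sound o hS (i := 3) (by decide) (by decide) hz (Or.inl hq)
      have := (by decide : ∀ j < kG.n, kG.aj 3 j = true → j = 0 ∨ j = 1 ∨ j = 2) j hj a
      rcases this with rfl | rfl | rfl <;> simp
    · rintro (rfl | rfl | rfl) <;> exact aj _ (by decide) _ (by decide) (by decide)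
  have d4 : ∀ i < 3, 4 ≤ dg V τ (v i) := fun i hi => by
    have a : i < kG.n := Nat.lt_succ_of_lt hi
    have b : dig kG.lo i = 4 := by revert i; decide
    exact (b ▸ hS.lo i a).trans (o.ds_le (hS.mem i a))
  rcases tri_del2 o.con (o.subQ hq) h3 (aj 0 (by decide) 1 (by decide) (by decide))
    (aj 1 (by decide) 2 (by decide) (by decide))
    (fun e => absurd (hS.inj 0 (by decide) 2 (by decide) e) (by decide))
    (d4 0 (by decide)) (d4 1 (by decide)) (d4 2 (by decide)) with hc | ⟨hd, T, hm⟩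
  · refine certEx_sound h1 h2 n1 o hS (c := cG) (ex := true) (by decide +kernel)
      fun _ g hg hr U σ hG => ?_
    have eg : g = ⟨1, false, 0, 0, 99, 1627954399492735489332107433903330389936570368,
        [8, 32, 32]⟩ := by
      simp only [cG, List.mem_cons, List.not_mem_nil, or_false] at hg
      rcases hg with e | e | e | e | e | e <;> first | exact e | (rw [e] at hr; cases hr)
    subst eg
    have en : (preOf ⟨true, false, false, false, false, false⟩ kG cG.s).n = 4 := preOf_n _ _ _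
    have es : (preOf ⟨true, false, false, false, false, false⟩ kG cG.s).s = 3 := preOf_s _ _ _
    have eU : U = V := by
      ext z
      rw [hG.mem, en, es]
      exact ⟨fun h => h.1, fun h => ⟨h, fun i hi _ => hi⟩⟩
    subst eU
    refine con3_mono (fun a ha b hb hab ht => ?_) hc
    show σ s(a, b) ≠ 0
    have n1 : s(a, b) ≠ s(v 1, v 2) := fun e => ht (by rw [e, Function.update_self])
    rw [Function.update_of_ne n1] at ht
    have n0 : s(a, b) ≠ s(v 0, v 1) := fun e => ht (by rw [e, Function.update_self])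
    rw [Function.update_of_ne n0] at ht
    by_cases ka : ∀ i < 4, v i ≠ a
    · rwa [hG.out a b (en ▸ ka)]
    by_cases kb : ∀ i < 4, v i ≠ b
    · rwa [Sym2.eq_swap, hG.out b a (en ▸ kb), Sym2.eq_swap]
    push Not at ka kb
    obtain ⟨i, hi, rfl⟩ := ka
    obtain ⟨j, hj, rfl⟩ := kb
    have ij : i ≠ j := fun e => hab (e ▸ rfl)
    have key := hG.inn i (by rw [es]; exact hi) j (by rw [es]; exact hj) ij
    have dec : ∀ i < 4, ∀ j < 4, (decide (i = j ∨ i + j = 1 ∨ (i + j = 3 ∧ i ≠ 0 ∧ j ≠ 0)) ||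
        Nat.beq (ty 1627954399492735489332107433903330389936570368 i j) 1 ||
        !tb (fld (preOf ⟨true, false, false, false, false, false⟩ kG cG.s).kn i) j) = true := by
      decide +kernel
    have dec2 := dec i hi j hj
    simp only [Bool.or_eq_true, decide_eq_true_eq, Nat.beq_eq, Bool.not_eq_true'] at dec2
    intro z
    rw [z] at key
    rcases dec2 with (e | e) | e
    · have : (i = 0 ∧ j = 1) ∨ (i = 1 ∧ j = 0) ∨ (i = 1 ∧ j = 2) ∨ (i = 2 ∧ j = 1) := by omega
      rcases this with ⟨rfl, rfl⟩ | ⟨rfl, rfl⟩ | ⟨rfl, rfl⟩ | ⟨rfl, rfl⟩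
      exacts [n0 rfl, n0 Sym2.eq_swap, n1 rfl, n1 Sym2.eq_swap]
    · rw [e] at key
      simp at key
    · rw [e, if_neg (by decide)] at key
      split_ifs at key
      · cases key
      · exact ht (Fin.ext key.symm)
  · refine hs V τ _ v (ok2_R o.con hm _ rfl rfl rfl (fun e => absurd e (by decide))
      (fun e => absurd e (by decide)) fun _ => ⟨(card_le_card sdiff_subset).trans card_le_two,
        fun a b hab _ da db => ?_⟩) (sat_zero _ v)
    have := hab (mem_insert_of_mem (mem_singleton_self (v 1)))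
    rcases mem_insert.1 this with e | e
    · rw [← e, hd] at da; cases da
    · rw [← mem_singleton.1 e, hd] at db; cases db

end Pool.Agent.Lib.MP_efe3d7_co.H
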