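import Pool.Agent.Lib.MP_efe3d7_co.H.Tb0
import Pool.Agent.Lib.MP_efe3d7_co.H.Tb1
import Pool.Agent.Lib.MP_efe3d7_co.H.Tb2
import Pool.Agent.Lib.MP_efe3d7_co.H.Tb3
import Pool.Agent.Lib.MP_efe3d7_co.H.Tb4
import Pool.Agent.Lib.MP_efe3d7_co.H.Tb5
import Pool.Agent.Lib.MP_efe3d7_co.H.Tb6
import Pool.Agent.Lib.MP_efe3d7_co.H.Tb7
import Pool.Agent.Lib.MP_efe3d7_co.H.Tb8
import Pool.Agent.Lib.MP_efe3d7_co.H.Tb9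
import Pool.Agent.Lib.MP_efe3d7_co.H.Tb10
import Pool.Agent.Lib.MP_efe3d7_co.H.Tb11
import Pool.Agent.Lib.MP_efe3d7_co.H.Hnd

/-! All entries of the table are valid. -/

set_option autoImplicit false

namespace Pool.Agent.Lib.MP_efe3d7_co.H

variable {α : Type} [Fintype α] [DecidableEq α] {x : ℝ}

theorem vu0 : VU α x tab 0 := fun _ h => absurd h (Nat.not_lt_zero _)

theorem vu29 (h1 : 1 / 4 ≤ x) (h2 : x ≤ 1 / 2) : VU α x tab 29 :=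
  chkL_sound h1 h2 n1 tab tr0 0 ck0 (vu0)

theorem vu69 (h1 : 1 / 4 ≤ x) (h2 : x ≤ 1 / 2) : VU α x tab 69 :=
  chkL_sound h1 h2 n1 tab tr29 29 ck29 (vu29 h1 h2)

theorem vu105 (h1 : 1 / 4 ≤ x) (h2 : x ≤ 1 / 2) : VU α x tab 105 :=
  chkL_sound h1 h2 n1 tab tr69 69 ck69 (vu69 h1 h2)

theorem vu152 (h1 : 1 / 4 ≤ x) (h2 : x ≤ 1 / 2) : VU α x tab 152 :=
  chkL_sound h1 h2 n1 tab tr105 105 ck105 (vu105 h1 h2)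

theorem vu187 (h1 : 1 / 4 ≤ x) (h2 : x ≤ 1 / 2) : VU α x tab 187 :=
  chkL_sound h1 h2 n1 tab tr152 152 ck152 (vu152 h1 h2)

theorem vu220 (h1 : 1 / 4 ≤ x) (h2 : x ≤ 1 / 2) : VU α x tab 220 :=
  chkL_sound h1 h2 n1 tab tr187 187 ck187 (vu187 h1 h2)

theorem vu246 (h1 : 1 / 4 ≤ x) (h2 : x ≤ 1 / 2) : VU α x tab 246 :=
  chkL_sound h1 h2 n1 tab tr220 220 ck220 (vu220 h1 h2)

theorem vu291 (h1 : 1 / 4 ≤ x) (h2 : x ≤ 1 / 2) : VU α x tab 291 :=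
  chkL_sound h1 h2 n1 tab tr246 246 ck246 (vu246 h1 h2)

theorem vu332 (h1 : 1 / 4 ≤ x) (h2 : x ≤ 1 / 2) : VU α x tab 332 :=
  chkL_sound h1 h2 n1 tab tr291 291 ck291 (vu291 h1 h2)

theorem vu365 (h1 : 1 / 4 ≤ x) (h2 : x ≤ 1 / 2) : VU α x tab 365 :=
  chkL_sound h1 h2 n1 tab tr332 332 ck332 (vu332 h1 h2)

theorem vu397 (h1 : 1 / 4 ≤ x) (h2 : x ≤ 1 / 2) : VU α x tab 397 :=
  chkL_sound h1 h2 n1 tab tr365 365 ck365 (vu365 h1 h2)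

theorem vu428 (h1 : 1 / 4 ≤ x) (h2 : x ≤ 1 / 2) : VU α x tab 428 :=
  chkL_sound h1 h2 n1 tab tr397 397 ck397 (vu397 h1 h2)

theorem vu463 (h1 : 1 / 4 ≤ x) (h2 : x ≤ 1 / 2) : VU α x tab 463 :=
  chkL_sound h1 h2 n1 tab tr428 428 ck428 (vu428 h1 h2)

theorem vu464 (h1 : 1 / 4 ≤ x) (h2 : x ≤ 1 / 2) : VU α x tab 464 :=
  (vu463 h1 h2).succ (valid_g2 h1 h2 (vu463 h1 h2 462 (by decide)))

theorem vu481 (h1 : 1 / 4 ≤ x) (h2 : x ≤ 1 / 2) : VU α x tab 481 :=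
  chkL_sound h1 h2 n1 tab tr464 464 ck464 (vu464 h1 h2)

theorem vu496 (h1 : 1 / 4 ≤ x) (h2 : x ≤ 1 / 2) : VU α x tab 496 :=
  chkL_sound h1 h2 n1 tab tr481 481 ck481 (vu481 h1 h2)

theorem vu514 (h1 : 1 / 4 ≤ x) (h2 : x ≤ 1 / 2) : VU α x tab 514 :=
  chkL_sound h1 h2 n1 tab tr496 496 ck496 (vu496 h1 h2)

theorem vu526 (h1 : 1 / 4 ≤ x) (h2 : x ≤ 1 / 2) : VU α x tab 526 :=
  chkL_sound h1 h2 n1 tab tr514 514 ck514 (vu514 h1 h2)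

theorem vu541 (h1 : 1 / 4 ≤ x) (h2 : x ≤ 1 / 2) : VU α x tab 541 :=
  chkL_sound h1 h2 n1 tab tr526 526 ck526 (vu526 h1 h2)

theorem vu551 (h1 : 1 / 4 ≤ x) (h2 : x ≤ 1 / 2) : VU α x tab 551 :=
  chkL_sound h1 h2 n1 tab tr541 541 ck541 (vu541 h1 h2)

theorem vu575 (h1 : 1 / 4 ≤ x) (h2 : x ≤ 1 / 2) : VU α x tab 575 :=
  chkL_sound h1 h2 n1 tab tr551 551 ck551 (vu551 h1 h2)

theorem vu633 (h1 : 1 / 4 ≤ x) (h2 : x ≤ 1 / 2) : VU α x tab 633 :=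
  chkL_sound h1 h2 n1 tab tr575 575 ck575 (vu575 h1 h2)

theorem vu648 (h1 : 1 / 4 ≤ x) (h2 : x ≤ 1 / 2) : VU α x tab 648 :=
  chkL_sound h1 h2 n1 tab tr633 633 ck633 (vu633 h1 h2)

theorem vu652 (h1 : 1 / 4 ≤ x) (h2 : x ≤ 1 / 2) : VU α x tab 652 :=
  chkL_sound h1 h2 n1 tab tr648 648 ck648 (vu648 h1 h2)

theorem vu663 (h1 : 1 / 4 ≤ x) (h2 : x ≤ 1 / 2) : VU α x tab 663 :=
  chkL_sound h1 h2 n1 tab tr652 652 ck652 (vu652 h1 h2)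

theorem vu670 (h1 : 1 / 4 ≤ x) (h2 : x ≤ 1 / 2) : VU α x tab 670 :=
  chkL_sound h1 h2 n1 tab tr663 663 ck663 (vu663 h1 h2)

theorem vu707 (h1 : 1 / 4 ≤ x) (h2 : x ≤ 1 / 2) : VU α x tab 707 :=
  chkL_sound h1 h2 n1 tab tr670 670 ck670 (vu670 h1 h2)

theorem vu738 (h1 : 1 / 4 ≤ x) (h2 : x ≤ 1 / 2) : VU α x tab 738 :=
  chkL_sound h1 h2 n1 tab tr707 707 ck707 (vu707 h1 h2)

theorem vu741 (h1 : 1 / 4 ≤ x) (h2 : x ≤ 1 / 2) : VU α x tab 741 :=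
  chkL_sound h1 h2 n1 tab tr738 738 ck738 (vu738 h1 h2)

theorem vu761 (h1 : 1 / 4 ≤ x) (h2 : x ≤ 1 / 2) : VU α x tab 761 :=
  chkL_sound h1 h2 n1 tab tr741 741 ck741 (vu741 h1 h2)

theorem vu775 (h1 : 1 / 4 ≤ x) (h2 : x ≤ 1 / 2) : VU α x tab 775 :=
  chkL_sound h1 h2 n1 tab tr761 761 ck761 (vu761 h1 h2)

theorem vu795 (h1 : 1 / 4 ≤ x) (h2 : x ≤ 1 / 2) : VU α x tab 795 :=
  chkL_sound h1 h2 n1 tab tr775 775 ck775 (vu775 h1 h2)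

theorem vu820 (h1 : 1 / 4 ≤ x) (h2 : x ≤ 1 / 2) : VU α x tab 820 :=
  chkL_sound h1 h2 n1 tab tr795 795 ck795 (vu795 h1 h2)

theorem vu857 (h1 : 1 / 4 ≤ x) (h2 : x ≤ 1 / 2) : VU α x tab 857 :=
  chkL_sound h1 h2 n1 tab tr820 820 ck820 (vu820 h1 h2)

theorem vu861 (h1 : 1 / 4 ≤ x) (h2 : x ≤ 1 / 2) : VU α x tab 861 :=
  chkL_sound h1 h2 n1 tab tr857 857 ck857 (vu857 h1 h2)

theorem vu921 (h1 : 1 / 4 ≤ x) (h2 : x ≤ 1 / 2) : VU α x tab 921 :=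
  chkL_sound h1 h2 n1 tab tr861 861 ck861 (vu861 h1 h2)

theorem vu981 (h1 : 1 / 4 ≤ x) (h2 : x ≤ 1 / 2) : VU α x tab 981 :=
  chkL_sound h1 h2 n1 tab tr921 921 ck921 (vu921 h1 h2)

theorem vu1029 (h1 : 1 / 4 ≤ x) (h2 : x ≤ 1 / 2) : VU α x tab 1029 :=
  chkL_sound h1 h2 n1 tab tr981 981 ck981 (vu981 h1 h2)

theorem vu1034 (h1 : 1 / 4 ≤ x) (h2 : x ≤ 1 / 2) : VU α x tab 1034 :=
  chkL_sound h1 h2 n1 tab tr1029 1029 ck1029 (vu1029 h1 h2)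

theorem vu1050 (h1 : 1 / 4 ≤ x) (h2 : x ≤ 1 / 2) : VU α x tab 1050 :=
  chkL_sound h1 h2 n1 tab tr1034 1034 ck1034 (vu1034 h1 h2)

theorem vu1086 (h1 : 1 / 4 ≤ x) (h2 : x ≤ 1 / 2) : VU α x tab 1086 :=
  chkL_sound h1 h2 n1 tab tr1050 1050 ck1050 (vu1050 h1 h2)

theorem vu1119 (h1 : 1 / 4 ≤ x) (h2 : x ≤ 1 / 2) : VU α x tab 1119 :=
  chkL_sound h1 h2 n1 tab tr1086 1086 ck1086 (vu1086 h1 h2)

theorem vu1148 (h1 : 1 / 4 ≤ x) (h2 : x ≤ 1 / 2) : VU α x tab 1148 :=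
  chkL_sound h1 h2 n1 tab tr1119 1119 ck1119 (vu1119 h1 h2)

theorem vu1159 (h1 : 1 / 4 ≤ x) (h2 : x ≤ 1 / 2) : VU α x tab 1159 :=
  chkL_sound h1 h2 n1 tab tr1148 1148 ck1148 (vu1148 h1 h2)

theorem vu1167 (h1 : 1 / 4 ≤ x) (h2 : x ≤ 1 / 2) : VU α x tab 1167 :=
  chkL_sound h1 h2 n1 tab tr1159 1159 ck1159 (vu1159 h1 h2)

theorem vu1188 (h1 : 1 / 4 ≤ x) (h2 : x ≤ 1 / 2) : VU α x tab 1188 :=
  chkL_sound h1 h2 n1 tab tr1167 1167 ck1167 (vu1167 h1 h2)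

theorem vu1194 (h1 : 1 / 4 ≤ x) (h2 : x ≤ 1 / 2) : VU α x tab 1194 :=
  chkL_sound h1 h2 n1 tab tr1188 1188 ck1188 (vu1188 h1 h2)

theorem vu1222 (h1 : 1 / 4 ≤ x) (h2 : x ≤ 1 / 2) : VU α x tab 1222 :=
  chkL_sound h1 h2 n1 tab tr1194 1194 ck1194 (vu1194 h1 h2)

theorem vu1234 (h1 : 1 / 4 ≤ x) (h2 : x ≤ 1 / 2) : VU α x tab 1234 :=
  chkL_sound h1 h2 n1 tab tr1222 1222 ck1222 (vu1222 h1 h2)

theorem vu1246 (h1 : 1 / 4 ≤ x) (h2 : x ≤ 1 / 2) : VU α x tab 1246 :=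
  chkL_sound h1 h2 n1 tab tr1234 1234 ck1234 (vu1234 h1 h2)

theorem vu1249 (h1 : 1 / 4 ≤ x) (h2 : x ≤ 1 / 2) : VU α x tab 1249 :=
  chkL_sound h1 h2 n1 tab tr1246 1246 ck1246 (vu1246 h1 h2)

theorem vu1294 (h1 : 1 / 4 ≤ x) (h2 : x ≤ 1 / 2) : VU α x tab 1294 :=
  chkL_sound h1 h2 n1 tab tr1249 1249 ck1249 (vu1249 h1 h2)

theorem vu1328 (h1 : 1 / 4 ≤ x) (h2 : x ≤ 1 / 2) : VU α x tab 1328 :=
  chkL_sound h1 h2 n1 tab tr1294 1294 ck1294 (vu1294 h1 h2)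

theorem vu1344 (h1 : 1 / 4 ≤ x) (h2 : x ≤ 1 / 2) : VU α x tab 1344 :=
  chkL_sound h1 h2 n1 tab tr1328 1328 ck1328 (vu1328 h1 h2)

theorem vu1352 (h1 : 1 / 4 ≤ x) (h2 : x ≤ 1 / 2) : VU α x tab 1352 :=
  chkL_sound h1 h2 n1 tab tr1344 1344 ck1344 (vu1344 h1 h2)

theorem vu1412 (h1 : 1 / 4 ≤ x) (h2 : x ≤ 1 / 2) : VU α x tab 1412 :=
  chkL_sound h1 h2 n1 tab tr1352 1352 ck1352 (vu1352 h1 h2)

theorem vu1435 (h1 : 1 / 4 ≤ x) (h2 : x ≤ 1 / 2) : VU α x tab 1435 :=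
  chkL_sound h1 h2 n1 tab tr1412 1412 ck1412 (vu1412 h1 h2)

theorem vu1444 (h1 : 1 / 4 ≤ x) (h2 : x ≤ 1 / 2) : VU α x tab 1444 :=
  chkL_sound h1 h2 n1 tab tr1435 1435 ck1435 (vu1435 h1 h2)

theorem vu1457 (h1 : 1 / 4 ≤ x) (h2 : x ≤ 1 / 2) : VU α x tab 1457 :=
  chkL_sound h1 h2 n1 tab tr1444 1444 ck1444 (vu1444 h1 h2)

theorem vu1469 (h1 : 1 / 4 ≤ x) (h2 : x ≤ 1 / 2) : VU α x tab 1469 :=
  chkL_sound h1 h2 n1 tab tr1457 1457 ck1457 (vu1457 h1 h2)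

theorem vu1475 (h1 : 1 / 4 ≤ x) (h2 : x ≤ 1 / 2) : VU α x tab 1475 :=
  chkL_sound h1 h2 n1 tab tr1469 1469 ck1469 (vu1469 h1 h2)

theorem vu1494 (h1 : 1 / 4 ≤ x) (h2 : x ≤ 1 / 2) : VU α x tab 1494 :=
  chkL_sound h1 h2 n1 tab tr1475 1475 ck1475 (vu1475 h1 h2)

theorem vu1496 (h1 : 1 / 4 ≤ x) (h2 : x ≤ 1 / 2) : VU α x tab 1496 :=
  chkL_sound h1 h2 n1 tab tr1494 1494 ck1494 (vu1494 h1 h2)

theorem vu1513 (h1 : 1 / 4 ≤ x) (h2 : x ≤ 1 / 2) : VU α x tab 1513 :=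
  chkL_sound h1 h2 n1 tab tr1496 1496 ck1496 (vu1496 h1 h2)

theorem vu1550 (h1 : 1 / 4 ≤ x) (h2 : x ≤ 1 / 2) : VU α x tab 1550 :=
  chkL_sound h1 h2 n1 tab tr1513 1513 ck1513 (vu1513 h1 h2)

theorem vu1569 (h1 : 1 / 4 ≤ x) (h2 : x ≤ 1 / 2) : VU α x tab 1569 :=
  chkL_sound h1 h2 n1 tab tr1550 1550 ck1550 (vu1550 h1 h2)

theorem vu1586 (h1 : 1 / 4 ≤ x) (h2 : x ≤ 1 / 2) : VU α x tab 1586 :=
  chkL_sound h1 h2 n1 tab tr1569 1569 ck1569 (vu1569 h1 h2)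

theorem vu1603 (h1 : 1 / 4 ≤ x) (h2 : x ≤ 1 / 2) : VU α x tab 1603 :=
  chkL_sound h1 h2 n1 tab tr1586 1586 ck1586 (vu1586 h1 h2)

theorem vu1604 (h1 : 1 / 4 ≤ x) (h2 : x ≤ 1 / 2) : VU α x tab 1604 :=
  chkL_sound h1 h2 n1 tab tr1603 1603 ck1603 (vu1603 h1 h2)

theorem vu1649 (h1 : 1 / 4 ≤ x) (h2 : x ≤ 1 / 2) : VU α x tab 1649 :=
  chkL_sound h1 h2 n1 tab tr1604 1604 ck1604 (vu1604 h1 h2)

theorem vu1668 (h1 : 1 / 4 ≤ x) (h2 : x ≤ 1 / 2) : VU α x tab 1668 :=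
  chkL_sound h1 h2 n1 tab tr1649 1649 ck1649 (vu1649 h1 h2)

theorem vu1692 (h1 : 1 / 4 ≤ x) (h2 : x ≤ 1 / 2) : VU α x tab 1692 :=
  chkL_sound h1 h2 n1 tab tr1668 1668 ck1668 (vu1668 h1 h2)

theorem vu1724 (h1 : 1 / 4 ≤ x) (h2 : x ≤ 1 / 2) : VU α x tab 1724 :=
  chkL_sound h1 h2 n1 tab tr1692 1692 ck1692 (vu1692 h1 h2)

theorem vu1725 (h1 : 1 / 4 ≤ x) (h2 : x ≤ 1 / 2) : VU α x tab 1725 :=
  chkL_sound h1 h2 n1 tab tr1724 1724 ck1724 (vu1724 h1 h2)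

theorem vu1730 (h1 : 1 / 4 ≤ x) (h2 : x ≤ 1 / 2) : VU α x tab 1730 :=
  chkL_sound h1 h2 n1 tab tr1725 1725 ck1725 (vu1725 h1 h2)

theorem vu1732 (h1 : 1 / 4 ≤ x) (h2 : x ≤ 1 / 2) : VU α x tab 1732 :=
  chkL_sound h1 h2 n1 tab tr1730 1730 ck1730 (vu1730 h1 h2)

theorem vu1745 (h1 : 1 / 4 ≤ x) (h2 : x ≤ 1 / 2) : VU α x tab 1745 :=
  chkL_sound h1 h2 n1 tab tr1732 1732 ck1732 (vu1732 h1 h2)

theorem vu1787 (h1 : 1 / 4 ≤ x) (h2 : x ≤ 1 / 2) : VU α x tab 1787 :=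
  chkL_sound h1 h2 n1 tab tr1745 1745 ck1745 (vu1745 h1 h2)

theorem vu1847 (h1 : 1 / 4 ≤ x) (h2 : x ≤ 1 / 2) : VU α x tab 1847 :=
  chkL_sound h1 h2 n1 tab tr1787 1787 ck1787 (vu1787 h1 h2)

theorem vu1873 (h1 : 1 / 4 ≤ x) (h2 : x ≤ 1 / 2) : VU α x tab 1873 :=
  chkL_sound h1 h2 n1 tab tr1847 1847 ck1847 (vu1847 h1 h2)

theorem valid_S (h1 : 1 / 4 ≤ x) (h2 : x ≤ 1 / 2) :
    Valid α x ⟨true, false, false, false, true, false⟩ ⟨0, 0, 0, 0, 0, 0, 0, 0, 0, false⟩ :=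
  vu1873 h1 h2 462 (by decide)

theorem valid_A (h1 : 1 / 4 ≤ x) (h2 : x ≤ 1 / 2) :
    Valid α x ⟨true, false, true, false, false, false⟩ ⟨1, 1, 0, 0, 1, 0, 3, 0, 0, false⟩ :=
  vu1873 h1 h2 986 (by decide)

theorem valid_B (h1 : 1 / 4 ≤ x) (h2 : x ≤ 1 / 2) :
    Valid α x ⟨true, false, true, true, false, false⟩ ⟨1, 1, 0, 0, 0, 0, 4, 0, 0, false⟩ :=
  vu1873 h1 h2 1721 (by decide)

theorem valid_F (h1 : 1 / 4 ≤ x) (h2 : x ≤ 1 / 2) :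
    Valid α x ⟨false, false, false, false, false, true⟩ ⟨1, 1, 0, 0, 0, 0, 3, 0, 0, false⟩ :=
  vu1873 h1 h2 1836 (by decide)

theorem valid_K4 (h1 : 1 / 4 ≤ x) (h2 : x ≤ 1 / 2) :
    Valid α x ⟨false, false, false, false, false, false⟩ ⟨4, 15, 0, 0, 0, 0, 0, 0, 0, true⟩ :=
  vu1873 h1 h2 1872 (by decide)

theorem valid_k24 (h1 : 1 / 4 ≤ x) (h2 : x ≤ 1 / 2) :
    Valid α x ⟨true, false, true, true, false, false⟩ ⟨6, 48, 0, 0, 48, 0, 184320, 24811833330682862156651792406557545249575794093278877288535520919132829646848, 0, false⟩ :=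
  vu1873 h1 h2 1608 (by decide)

theorem valid_k34 (h1 : 1 / 4 ≤ x) (h2 : x ≤ 1 / 2) :
    Valid α x ⟨true, false, true, true, false, false⟩ ⟨7, 120, 0, 0, 120, 0, 1797120, 55872773640930324698064060115413037574558353736058736785556106158889400848097997443651600384, 0, false⟩ :=
  vu1873 h1 h2 1723 (by decide)

end Pool.Agent.Lib.MP_efe3d7_co.H
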