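import Pool.Agent.Lib.MP_efe3d7_co.H.Defs
import Pool.Agent.Lib.MP_efe3d7_co.R1

/-! Basic facts on typed graphs. -/

set_option autoImplicit false

open Finset

namespace Pool.Agent.Lib.MP_efe3d7_co.H

variable {α : Type} [DecidableEq α] {V : Finset α} {τ : Sym2 α → Fin 3}

theorem mem_nb {a b : α} : b ∈ nb V τ a ↔ b ∈ V ∧ b ≠ a ∧ τ s(a, b) ≠ 0 := by simp [nb]

theorem nb_sub (a : α) : nb V τ a ⊆ V := filter_subset _ _

theorem not_mem_nb (a : α) : a ∉ nb V τ a := by simp [nb]

theorem nb_symm {a b : α} (ha : a ∈ V) (h : b ∈ nb V τ a) : a ∈ nb V τ b := by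
  rw [mem_nb] at h ⊢
  exact ⟨ha, h.2.1.symm, by rw [Sym2.eq_swap]; exact h.2.2⟩

theorem Cov.mono {B S S' : Finset α} (h : Cov V τ B S) (hS : S ⊆ S') : Cov V τ B S' :=
  fun a ha b hb => (h a ha b hb).imp_right fun k => hS k

theorem Cov.sdiff {B S : Finset α} (h : Cov V τ B S) : Cov V τ B (S \ B) := fun a ha b hb => by
  by_cases k : b ∈ B
  · exact Or.inl k
  · exact Or.inr (mem_sdiff.2 ⟨(h a ha b hb).resolve_left k, k⟩)

/-- The other side of a separation. -/
theorem Cov.compl {B S : Finset α} (h : Cov V τ B S) : Cov V τ (V \ (B ∪ S)) S := by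
  intro a ha b hb
  simp only [mem_sdiff, mem_union, not_or] at ha ⊢
  by_cases k : b ∈ S
  · exact Or.inr k
  · refine Or.inl ⟨nb_sub _ hb, fun hB => ?_, k⟩
    rcases h b hB a (nb_symm ha.1 hb) with e | e
    · exact ha.2.1 e
    · exact ha.2.2 e

/-- A set that misses a vertex outside its cover has a cover with three elements. -/
theorem Con3.three (hc : Con3 V τ) {B S : Finset α} (hB : B ⊆ V) (hne : B.Nonempty)
    (h : Cov V τ B S) {c : α} (hcV : c ∈ V) (h1 : c ∉ B) (h2 : c ∉ S) : 3 ≤ S.card := by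
  by_contra k
  have := hc.2 B S hB hne (by omega) h hcV
  simp [h1, h2] at this

/-- A set disjoint from three vertices has a cover with three elements. -/
theorem Con3.three' (hc : Con3 V τ) {B S T : Finset α} (hB : B ⊆ V) (hne : B.Nonempty)
    (h : Cov V τ B S) (hT : T ⊆ V) (h3 : 3 ≤ T.card) (hd : ∀ t ∈ T, t ∉ B) : 3 ≤ S.card := by
  by_contra k
  have h1 := hc.2 B S hB hne (by omega) h
  have : T ⊆ S := fun t ht => (mem_union.1 (h1 (hT ht))).resolve_left (hd t ht)
  have := card_le_card this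
  omega

/-- To prove three-connectivity, refute every separation of order at most two. -/
theorem con3_of_sep (h3 : 3 ≤ V.card)
    (h : ∀ A S C : Finset α, A.Nonempty → C.Nonempty → S.card ≤ 2 →
      (∀ v, v ∈ V ↔ v ∈ A ∨ v ∈ S ∨ v ∈ C) → (∀ v ∈ A, v ∉ S) → (∀ v ∈ C, v ∉ S) →
      (∀ v ∈ A, v ∉ C) → Cov V τ A S → Cov V τ C S → False) : Con3 V τ := by
  refine ⟨h3, fun B S hB hne hS hcov => ?_⟩
  by_contra k
  obtain ⟨c, hc, hc'⟩ := not_subset.1 k
  have h1 : Cov V τ B ((S \ B) ∩ V) := fun a ha b hb =>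
    (hcov.sdiff a ha b hb).imp_right fun e => mem_inter.2 ⟨e, nb_sub _ hb⟩
  refine h B ((S \ B) ∩ V) (V \ (B ∪ (S \ B) ∩ V)) hne ⟨c, ?_⟩ ?_ ?_ ?_ ?_ ?_ h1 h1.compl
  · simp only [mem_union, not_or] at hc'
    simp [hc, hc'.1, hc'.2]
  · exact (card_le_card (inter_subset_left.trans sdiff_subset)).trans hS
  · intro v
    have := @hB v
    simp only [mem_sdiff, mem_inter, mem_union]
    tauto
  · intro v hv
    simp [hv]
  · intro v hv
    simp only [mem_sdiff, mem_union, not_or] at hv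
    exact hv.2.2
  · intro v hv
    simp [hv]

theorem Con3.dg3 (hc : Con3 V τ) (h4 : 4 ≤ V.card) {v : α} (hv : v ∈ V) : 3 ≤ dg V τ v := by
  by_contra k
  have h1 := hc.2 {v} (nb V τ v) (by simpa using hv) (by simp) (by unfold dg at k; omega)
    (fun a ha b hb => Or.inr (by rw [mem_singleton.1 ha] at hb; exact hb))
  have h2 := (card_le_card h1).trans (card_union_le _ _)
  unfold dg at k
  simp only [card_singleton] at h2
  omega

/-- More edges keep three-connectivity. -/
theorem Con3.mono (hc : Con3 V τ) {τ' : Sym2 α → Fin 3}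
    (h : ∀ a ∈ V, ∀ b ∈ V, a ≠ b → τ s(a, b) ≠ 0 → τ' s(a, b) ≠ 0) : Con3 V τ' :=
  ⟨hc.1, fun B S hB hne hS hcov => hc.2 B S hB hne hS fun a ha b hb => hcov a ha b (by
    rw [mem_nb] at hb ⊢
    exact ⟨hb.1, hb.2.1, h a (hB ha) b hb.1 hb.2.1.symm hb.2.2⟩)⟩

/-- The set of neighbours of a set. -/
def bd (V : Finset α) (τ : Sym2 α → Fin 3) (B : Finset α) : Finset α := B.biUnion (nb V τ) \ B

theorem mem_bd {B : Finset α} {v : α} : v ∈ bd V τ B ↔ (∃ a ∈ B, v ∈ nb V τ a) ∧ v ∉ B := by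
  simp [bd]

theorem cov_bd (B : Finset α) : Cov V τ B (bd V τ B) := fun a ha b hb => by
  by_cases k : b ∈ B
  · exact Or.inl k
  · exact Or.inr (mem_bd.2 ⟨⟨a, ha, hb⟩, k⟩)

theorem Cov.bd_sub {B S : Finset α} (h : Cov V τ B S) : bd V τ B ⊆ S := fun v hv => by
  obtain ⟨⟨a, ha, hb⟩, k⟩ := mem_bd.1 hv
  exact (h a ha v hb).resolve_left k

theorem bd_subV (B : Finset α) : bd V τ B ⊆ V := fun v hv => by
  obtain ⟨⟨a, _, hb⟩, _⟩ := mem_bd.1 hv
  exact nb_sub _ hb

theorem par_ne_zero {s t : Fin 3} : par s t ≠ 0 ↔ s ≠ 0 ∨ t ≠ 0 := by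
  revert s t; decide

theorem mg_self (τ : Sym2 α → Fin 3) (a b z : α) :
    mg τ a b s(a, z) = par (τ s(a, z)) (τ s(b, z)) := by
  have h : a ∈ s(a, z) := Sym2.mem_mk_left a z
  have h2 : Sym2.Mem.other h = z := Sym2.congr_right.1 (Sym2.other_spec h)
  rw [mg, dif_pos h, h2]

theorem mg_of_ne (τ : Sym2 α → Fin 3) {a : α} (b : α) {c d : α} (hc : c ≠ a) (hd : d ≠ a) :
    mg τ a b s(c, d) = τ s(c, d) := by
  have h : a ∉ s(c, d) := by simp [hc.symm, hd.symm]
  rw [mg, dif_neg h]

/-- Neighbours of the merged vertex. -/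
theorem mem_nb_mg_self {a b z : α} :
    z ∈ nb (V.erase b) (mg τ a b) a ↔ z ≠ a ∧ z ≠ b ∧ (z ∈ nb V τ a ∨ z ∈ nb V τ b) := by
  simp only [mem_nb, mem_erase, mg_self, par_ne_zero]
  tauto

/-- Neighbours of the other vertices after a merge. -/
theorem mem_nb_mg {a b c z : α} (hc : c ≠ a) (hcb : c ≠ b) (ha : a ∈ V) (hb : b ∈ V) :
    z ∈ nb (V.erase b) (mg τ a b) c ↔ z ≠ b ∧ (z ∈ nb V τ c ∨ (z = a ∧ b ∈ nb V τ c)) := by
  by_cases hz : z = a
  · subst hz
    simp only [mem_nb, mem_erase, Sym2.eq_swap (a := c), mg_self, par_ne_zero]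
    have := hc.symm
    have := hcb.symm
    tauto
  · simp only [mem_nb, mem_erase, mg_of_ne τ b hc hz]
    tauto

/-- Neighbours after changing the type of one pair. -/
theorem mem_nb_upd {u v a b : α} {t : Fin 3} :
    b ∈ nb V (Function.update τ s(u, v) t) a ↔
      b ∈ V ∧ b ≠ a ∧ (if s(a, b) = s(u, v) then t ≠ 0 else τ s(a, b) ≠ 0) := by
  rw [mem_nb, Function.update_apply]
  split_ifs <;> rfl

theorem mem_nb_del {u v a b : α} :
    b ∈ nb V (Function.update τ s(u, v) 0) a ↔ b ∈ nb V τ a ∧ s(a, b) ≠ s(u, v) := by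
  rw [mem_nb_upd, mem_nb]
  split_ifs with h <;> simp [h, and_assoc]

theorem card_upd {e : Sym2 α} (he : e ∈ pairs V) (p : Fin 3 → Prop) [DecidablePred p] (t : Fin 3) :
    ((pairs V).filter fun f => p (Function.update τ e t f)).card + (if p (τ e) then 1 else 0) =
      ((pairs V).filter fun f => p (τ f)).card + (if p t then 1 else 0) := by
  rw [card_filter, card_filter, ← add_sum_erase _ _ he, ← add_sum_erase _ _ he,
    Function.update_self, sum_congr rfl (g := fun f => if p (τ f) then 1 else 0)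
      fun f hf => by rw [Function.update_of_ne (ne_of_mem_erase hf)]]
  ring

theorem ne_upd {e : Sym2 α} (he : e ∈ pairs V) (t : Fin 3) :
    ne V (Function.update τ e t) + (if τ e ≠ 0 then 1 else 0) =
      ne V τ + (if t ≠ 0 then 1 else 0) := card_upd he (fun s => s ≠ 0) t

theorem nh_upd {e : Sym2 α} (he : e ∈ pairs V) (t : Fin 3) :
    nh V (Function.update τ e t) + (if τ e = 1 then 1 else 0) =
      nh V τ + (if t = 1 then 1 else 0) := card_upd he (fun s => s = 1) t

/-- Contracting an edge lowers the number of edges, also after later deletions. -/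
theorem ne_mg_lt {u v : α} (hu : u ∈ V) (hv : v ∈ nb V τ u) {τ' : Sym2 α → Fin 3}
    (h : ∀ e, τ' e ≠ 0 → mg τ u v e ≠ 0) : ne (V.erase v) τ' < ne V τ := by
  classical
  obtain ⟨hvV, hvu, huv⟩ := mem_nb.1 hv
  have hmem : s(u, v) ∈ (pairs V).filter fun e => τ e ≠ 0 :=
    mem_filter.2 ⟨mk_mem_pairs.2 ⟨hu, hvV, hvu.symm⟩, huv⟩
  refine lt_of_le_of_lt ?_ (card_erase_lt_of_mem hmem)
  refine card_le_card_of_injOn
    (fun e => if τ e ≠ 0 then e else e.map fun z => if z = u then v else z) ?_ ?_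
  · intro e he
    induction e using Sym2.ind with
    | h a b =>
      simp only [coe_filter, Set.mem_setOf_eq, mk_mem_pairs, mem_erase] at he
      obtain ⟨⟨⟨h1, h2⟩, ⟨h3, h4⟩, h5⟩, h6⟩ := he
      have h7 := h _ h6
      simp only [coe_erase, coe_filter, Set.mem_diff, Set.mem_setOf_eq, Set.mem_singleton_iff]
      split_ifs with k
      · exact ⟨⟨mk_mem_pairs.2 ⟨h2, h4, h5⟩, k⟩, by simp [h1, h3]⟩
      · push Not at k
        by_cases ha : a = u
        · subst ha
          rw [mg_self, par_ne_zero] at h7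
          simp only [Sym2.map_mk, if_true, if_neg h5.symm]
          exact ⟨⟨mk_mem_pairs.2 ⟨hvV, h4, h3.symm⟩, h7.resolve_left fun e => e k⟩,
            by simp [hvu, h5.symm]⟩
        by_cases hb : b = u
        · subst hb
          rw [Sym2.eq_swap, mg_self, par_ne_zero, Sym2.eq_swap (a := b)] at h7
          simp only [Sym2.map_mk, if_true, if_neg h5]
          refine ⟨⟨mk_mem_pairs.2 ⟨h2, hvV, h1⟩, ?_⟩, by simp [h5, h1]⟩
          rw [Sym2.eq_swap]
          exact h7.resolve_left fun e => e k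
        · rw [mg_of_ne τ v ha hb] at h7
          exact absurd k h7
  · intro e he f hf hef
    induction e using Sym2.ind with
    | h a b =>
    induction f using Sym2.ind with
    | h c d =>
      simp only [coe_filter, Set.mem_setOf_eq, mk_mem_pairs, mem_erase] at he hf
      obtain ⟨⟨⟨h1, _⟩, ⟨h3, _⟩, _⟩, h6⟩ := he
      obtain ⟨⟨⟨k1, _⟩, ⟨k3, _⟩, _⟩, k6⟩ := hf
      have h7 := h _ h6
      have k7 := h _ k6
      have key : ∀ a b : α, τ s(a, b) = 0 → mg τ u v s(a, b) ≠ 0 → a = u ∨ b = u := by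
        intro a b e1 e2
        by_contra n
        push Not at n
        exact e2 (by rw [mg_of_ne τ v n.1 n.2, e1])
      simp only [Sym2.map_mk] at hef
      by_cases e1 : τ s(a, b) = 0 <;> by_cases e2 : τ s(c, d) = 0
      · simp only [e1, e2, ne_eq, not_true_eq_false, if_false] at hef
        rw [Sym2.eq_iff] at hef ⊢
        grind
      · simp only [e1, e2, ne_eq, not_true_eq_false, if_false, not_false_eq_true, if_true] at hef
        have := key a b e1 h7
        rw [Sym2.eq_iff] at hef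
        grind
      · simp only [e1, e2, ne_eq, not_true_eq_false, if_false, not_false_eq_true, if_true] at hef
        have := key c d e2 k7
        rw [Sym2.eq_iff] at hef
        grind
      · simpa only [e1, e2, ne_eq, not_false_eq_true, if_true] using hef

theorem ww_pos (V : Finset α) (τ : Sym2 α → Fin 3) : 0 < ww V τ := by
  unfold ww; positivity

variable [Fintype α] {x : ℝ}

theorem wt_upd (x : ℝ) (τ : Sym2 α → Fin 3) (e : Sym2 α) (t : Fin 3) :
    (fun f => wt x (Function.update τ e t f)) = Function.update (fun f => wt x (τ f)) e (wt x t) := by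
  funext f
  by_cases h : f = e
  · rw [h, Function.update_self, Function.update_self]
  · rw [Function.update_of_ne h, Function.update_of_ne h]

theorem wt0 (x : ℝ) : wt x 0 = 1 := by simp [wt]
theorem wt1 (x : ℝ) : wt x 1 = 0 := by simp [wt]
theorem wt2 (x : ℝ) : wt x 2 = -x := by
  have h1 : (2 : Fin 3) ≠ 0 := by decide
  have h2 : (2 : Fin 3) ≠ 1 := by decide
  simp [wt, h1, h2]

theorem Con3.upd (hc : Con3 V τ) (e : Sym2 α) {t : Fin 3} (ht : t ≠ 0) :
    Con3 V (Function.update τ e t) := hc.mono fun a _ b _ _ h => by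
  rw [Function.update_apply]
  split_ifs <;> assumption

/-- A deletable hard edge. -/
theorem red_del (h1 : 1 / 4 ≤ x) (hc : Con3 V τ) {u v : α} (hu : u ∈ V) (hv : v ∈ V) (huv : u ≠ v)
    (ht : τ s(u, v) = 1) (hd : Con3 V (Function.update τ s(u, v) 0)) : Red x V τ := by
  intro sm μ hμ eq
  have he : s(u, v) ∈ pairs V := mk_mem_pairs.2 ⟨hu, hv, huv⟩
  have n0 := ne_upd (τ := τ) he 0
  have n2 := ne_upd (τ := τ) he 2
  have m2 := nh_upd (τ := τ) he 2
  simp only [ht] at n0 n2 m2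
  have p0 := sm V _ hd (by simp at n0; omega)
  have p2 := eq V _ (hc.upd s(u, v) (t := 2) (by decide)) (by simpa using n2)
  have m3 : nh V τ = nh V (Function.update τ s(u, v) 2) + 1 := by
    rw [if_pos trivial, if_neg (by decide)] at m2; omega
  have w2 : ww V (Function.update τ s(u, v) 2) = 9 / 8 * ww V τ := by
    unfold ww; rw [m3, pow_succ]; field_simp
  rw [FF, wt_upd, ff_aff, wt0] at p0
  rw [FF, wt_upd, ff_aff, wt2, w2] at p2
  rw [FF, ff_self V _ s(u, v), ht, wt1]
  have wp := ww_pos V τ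
  have : μ * ww V τ ≤ 0 := mul_nonpos_of_nonpos_of_nonneg hμ wp.le
  nlinarith

/-- A forced edge whose contraction has positive value. -/
theorem red_con (h1 : 0 < x) (hc : Con3 V τ) {u v : α} (hu : u ∈ V) (hv : v ∈ V) (huv : u ≠ v)
    (ht : τ s(u, v) = 2)
    (hp : Sm x V τ → 0 < ff x (V.erase v) (mergeW (fun e => wt x (τ e)) u v)) : Red x V τ := by
  intro sm μ hμ eq
  have he : s(u, v) ∈ pairs V := mk_mem_pairs.2 ⟨hu, hv, huv⟩
  have n1 := ne_upd (τ := τ) he 1
  have m1 := nh_upd (τ := τ) he 1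
  simp only [ht] at n1 m1
  have p1 := eq V _ (hc.upd s(u, v) (t := 1) (by decide)) (by simpa using n1)
  have m3 : nh V (Function.update τ s(u, v) 1) = nh V τ + 1 := by
    rw [if_pos trivial, if_neg (by decide)] at m1; omega
  have w2 : ww V τ = 9 / 8 * ww V (Function.update τ s(u, v) 1) := by
    unfold ww; rw [m3, pow_succ]; field_simp
  have p0 := hp sm
  rw [← Sv_merge h1 hu hv huv] at p0
  rw [FF, wt_upd, ff_aff, wt1] at p1
  rw [FF, ff_self V _ s(u, v), ht, wt2, w2]
  have wp := ww_pos V (Function.update τ s(u, v) 1)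
  have : μ * ww V (Function.update τ s(u, v) 1) ≤ 0 := mul_nonpos_of_nonpos_of_nonneg hμ wp.le
  nlinarith

end Pool.Agent.Lib.MP_efe3d7_co.H
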