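import Pool.Agent.Lib.MP_efe3d7_co.H.Bit3
import Pool.Agent.Lib.MP_efe3d7_co.H.G0

/-! Basic facts on typed graphs. -/

set_option autoImplicit false

open Finset

namespace Pool.Agent.Lib.MP_efe3d7_co.H

variable {α : Type} [Fintype α] [DecidableEq α]

omit [Fintype α] in
theorem con3_mono {V : Finset α} {τ τ' : Sym2 α → Fin 3}
    (h : ∀ a ∈ V, ∀ b ∈ V, a ≠ b → τ s(a, b) ≠ 0 → τ' s(a, b) ≠ 0) (hc : Con3 V τ) :
    Con3 V τ' := by
  refine ⟨hc.1, fun B S hB hne hS hcov => hc.2 B S hB hne hS fun a ha b hb => hcov a ha b ?_⟩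
  obtain ⟨h1, h2, h3⟩ := mem_nb.1 hb
  exact mem_nb.2 ⟨h1, h2, h a (hB ha) b h1 h2.symm h3⟩

theorem wt_wn (x : ℝ) (t : Fin 3) : wt x t = wn x t.val := by
  fin_cases t <;> simp [wt, wn]

theorem par_ne (s t : Fin 3) : par s t ≠ 0 ↔ s ≠ 0 ∨ t ≠ 0 := by
  revert s t; decide

omit [Fintype α] in
theorem ds_Q {V : Finset α} {τ : Sym2 α → Fin 3} {E : Env α} {a : α} (h : a ∈ E.Q) :
    ds V τ E a = dg V τ a := if_pos h

omit [Fintype α] in
theorem ds_nQ {V : Finset α} {τ : Sym2 α → Fin 3} {E : Env α} {a : α} (h : a ∉ E.Q) :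
    ds V τ E a = 2 + (nb V τ a ∩ E.Q).card := if_neg h

omit [Fintype α] in
theorem Ok.memV {m : Md} {V : Finset α} {τ : Sym2 α → Fin 3} {E : Env α} (h : Ok m V τ E) {a : α}
    (ha : a ∈ E.Q ∨ a ∈ E.T) : a ∈ V := ha.elim (fun h' => h.subQ h') fun h' => h.subT h'

omit [Fintype α] in
theorem Ok.ds_le {m : Md} {V : Finset α} {τ : Sym2 α → Fin 3} {E : Env α} (h : Ok m V τ E) {a : α}
    (ha : a ∈ E.Q ∨ a ∈ E.T) : ds V τ E a ≤ dg V τ a :=
  ha.elim (fun h' => (ds_Q h').le) (h.dsT a)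

omit [Fintype α] in
theorem Ok.wm_false {m : Md} {V : Finset α} {τ : Sym2 α → Fin 3} {E : Env α} (h : Ok m V τ E)
    (hr : m.rl = true) : m.wm = false := by
  cases hw : m.wm
  · rfl
  · have h1 := (h.oms hw).1
    have h2 := (h.q2 hr).2
    rw [h1] at h2
    simp at h2

end Pool.Agent.Lib.MP_efe3d7_co.H
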