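import Pool.Agent.Lib.MP_efe3d7_co.H.Pol

/-! The inequality behind a certificate. -/

set_option autoImplicit false

open Finset

namespace Pool.Agent.Lib.MP_efe3d7_co.H

theorem ineq_B {x : ℝ} (h1 : 1 / 4 ≤ x) (h2 : x ≤ 1 / 2) (L t : ℕ) :
    0 ≤ (4 * x - 1) ^ t * (2 - 4 * x) ^ (L - 1 - t) :=
  mul_nonneg (pow_nonneg (by linarith) _) (pow_nonneg (by linarith) _)

theorem ineq_t {x : ℝ} (h2 : x ≤ 1 / 2) {L : ℕ} (hL : L ≠ 0) : ∃ t < L, (t = 0 ∨ t + 1 = L) ∧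
    0 < (4 * x - 1) ^ t * (2 - 4 * x) ^ (L - 1 - t) := by
  rcases h2.lt_or_eq with h | rfl
  · exact ⟨0, by omega, Or.inl rfl, by rw [pow_zero, one_mul]; exact pow_pos (by linarith) _⟩
  · exact ⟨L - 1, by omega, Or.inr (by omega), by rw [Nat.sub_self]; norm_num⟩

theorem ineq_nn {x : ℝ} (h1 : 1 / 4 ≤ x) (h2 : x ≤ 1 / 2) (l : List ℕ) : 0 ≤ ev x (bern l).1 := by
  rw [ev_bern]
  exact sum_nonneg fun t _ => mul_nonneg (Nat.cast_nonneg _) (ineq_B h1 h2 _ _)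

theorem ineq_pos {x : ℝ} (h1 : 1 / 4 ≤ x) (h2 : x ≤ 1 / 2) {l : List ℕ} {t : ℕ} (ht : t < l.length)
    (h : l.getD t 0 ≠ 0) (hB : 0 < (4 * x - 1) ^ t * (2 - 4 * x) ^ (l.length - 1 - t)) :
    0 < ev x (bern l).1 := by
  rw [ev_bern]
  exact sum_pos' (fun t _ => mul_nonneg (Nat.cast_nonneg _) (ineq_B h1 h2 _ _))
    ⟨t, mem_range.2 ht, mul_pos (Nat.cast_pos.2 (Nat.pos_of_ne_zero h)) hB⟩

theorem ineq_sum (x : ℝ) (L : ℕ) (w : Col → ℕ) (cols : List Col)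
    (hl : ∀ g ∈ cols, g.cf.length = L) :
    (cols.map fun g => ev x (bern g.cf).1 * w g).sum = ∑ t ∈ range L,
      ((cols.foldr (fun g r => w g * g.cf.getD t 0 + r) 0 : ℕ) : ℝ) *
        ((4 * x - 1) ^ t * (2 - 4 * x) ^ (L - 1 - t)) := by
  induction cols with
  | nil => simp
  | cons g l ih =>
    rw [List.map_cons, List.sum_cons, ih fun g hg => hl g (List.mem_cons_of_mem _ hg), ev_bern,
      hl g List.mem_cons_self, sum_mul, ← sum_add_distrib]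
    refine sum_congr rfl fun t _ => ?_
    rw [List.foldr_cons]
    push_cast
    ring

theorem ineq {x : ℝ} (h1 : 1 / 4 ≤ x) (h2 : x ≤ 1 / 2) (D : List ℕ) (cols : List Col)
    (sm : Col → Bool) (w : Col → ℕ) (F : Col → ℝ) (F0 ν : ℝ) (M : ℕ) (hν : ν ≤ 0)
    (hD : D.length ≠ 0) (hl : ∀ g ∈ cols, g.cf.length = D.length)
    (hw : ∀ t < D.length,
      cols.foldr (fun g r => w g * g.cf.getD t 0 + r) 0 ≤ M * D.getD t 0)
    (he : ∀ t < D.length, t = 0 ∨ t + 1 = D.length →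
      cols.foldr (fun g r => w g * g.cf.getD t 0 + r) 0 < M * D.getD t 0 ∧
        ∃ g ∈ cols, sm g = true ∧ g.cf.getD t 0 ≠ 0)
    (hs : ∀ g ∈ cols, sm g = true → 0 < F g ∧ w g = 0)
    (hn : ∀ g ∈ cols, sm g = false → ν * w g ≤ M * F g)
    (hid : ev x (bern D).1 * F0 = (cols.map fun g => ev x (bern g.cf).1 * F g).sum) :
    ν < F0 := by
  obtain ⟨t, ht, ht', hB⟩ := ineq_t h2 hD
  obtain ⟨a1, g0, hg0, a2, a3⟩ := he t ht ht'
  have a4 : M * D.getD t 0 ≠ 0 := by omega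
  have hM : (0 : ℝ) < M := Nat.cast_pos.2 (Nat.pos_of_ne_zero (left_ne_zero_of_mul a4))
  have hDx := ineq_pos h1 h2 ht (right_ne_zero_of_mul a4) hB
  have b1 : (cols.map fun g => ν * (ev x (bern g.cf).1 * w g)).sum <
      (cols.map fun g => M * (ev x (bern g.cf).1 * F g)).sum := by
    refine List.sum_lt_sum _ _ (fun g hg => ?_) ⟨g0, hg0, ?_⟩
    · have := ineq_nn h1 h2 g.cf
      cases h : sm g
      · nlinarith [mul_le_mul_of_nonneg_left (hn g hg h) this]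
      · rw [(hs g hg h).2, Nat.cast_zero, mul_zero, mul_zero]
        exact mul_nonneg hM.le (mul_nonneg this (hs g hg h).1.le)
    · rw [(hs g0 hg0 a2).2, Nat.cast_zero, mul_zero, mul_zero]
      exact mul_pos hM (mul_pos (ineq_pos h1 h2 (hl g0 hg0 ▸ ht) a3 (hl g0 hg0 ▸ hB))
        (hs g0 hg0 a2).1)
  rw [List.sum_map_mul_left, List.sum_map_mul_left, ← hid, ineq_sum x _ w cols hl] at b1
  have b2 : ∑ t ∈ range D.length,
      ((cols.foldr (fun g r => w g * g.cf.getD t 0 + r) 0 : ℕ) : ℝ) *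
        ((4 * x - 1) ^ t * (2 - 4 * x) ^ (D.length - 1 - t)) ≤ M * ev x (bern D).1 := by
    rw [ev_bern, mul_sum]
    refine sum_le_sum fun t ht => ?_
    rw [← mul_assoc (M : ℝ), ← Nat.cast_mul]
    exact mul_le_mul_of_nonneg_right (Nat.cast_le.2 (hw t (mem_range.1 ht))) (ineq_B h1 h2 _ _)
  have b3 := (mul_le_mul_of_nonpos_left b2 hν).trans_lt b1
  refine lt_of_mul_lt_mul_left (a := M * ev x (bern D).1) ?_ (mul_pos hM hDx).le
  linarith

theorem bern_pos {x : ℝ} (h1 : 1 / 4 ≤ x) (h2 : x ≤ 1 / 2) {D : List ℕ} (h0 : D.getD 0 0 ≠ 0)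
    (hl : D.getD (D.length - 1) 0 ≠ 0) : 0 < ev x (bern D).1 := by
  have hD : D.length ≠ 0 := fun h => h0 (by rw [List.length_eq_zero_iff.1 h]; rfl)
  obtain ⟨t, ht, ht', hB⟩ := ineq_t h2 hD
  refine ineq_pos h1 h2 ht ?_ hB
  rcases ht' with rfl | h
  · exact h0
  · rwa [← h] at hl

end Pool.Agent.Lib.MP_efe3d7_co.H
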