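import Pool.Agent.Lib.MP_efe3d7_co.H.Bas

/-! What a configuration says on the graph. -/

set_option autoImplicit false

open Finset

namespace Pool.Agent.Lib.MP_efe3d7_co.H

variable {α : Type} [Fintype α] [DecidableEq α]

variable {m : Md} {p : Pre} {k : K} {V : Finset α} {τ : Sym2 α → Fin 3} {E : Env α} {v : ℕ → α}


theorem aj_sound (hO : Ok m V τ E) (hS : Sat k V τ E v) {i j : ℕ} (hi : i < k.n) (hj : j < k.n)
    (h : k.aj i j = true) : v j ∈ nb V τ (v i) := by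
  obtain ⟨h1, h2⟩ := (k.aj_iff i j).1 h
  exact mem_nb.2 ⟨hO.memV (hS.mem j hj), fun e => h1 (hS.inj j hj i hi e).symm,
    (hS.pr i hi j hj h1).2.2.2 h2⟩

theorem kf_a (hO : Ok m V τ E) (hS : Sat k V τ E v) {i : ℕ} (hi : i < k.n) :
    (bs k.n (k.nm i)).image v ⊆ nb V τ (v i) := fun z hz => by
  obtain ⟨j, hj, rfl⟩ := mem_image.1 hz
  exact aj_sound hO hS hi (mem_bs.1 hj).1 ((k.tb_nm i j).1 (mem_bs.1 hj).2).2

theorem kf_b (hO : Ok m V τ E) (hS : Sat k V τ E v) {i : ℕ} (hi : i < k.n) :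
    (bs k.n (Nat.land (k.nm i) k.lq)).image v ⊆ nb V τ (v i) ∩ E.Q := fun z hz => by
  obtain ⟨j, hj, rfl⟩ := mem_image.1 hz
  obtain ⟨h1, h2⟩ := mem_bs.1 hj
  rw [tb_land, Bool.and_eq_true] at h2
  exact mem_inter.2 ⟨aj_sound hO hS hi h1 ((k.tb_nm i j).1 h2.1).2, hS.lq j h1 h2.2⟩

theorem kf_c (hO : Ok m V τ E) (hS : Sat k V τ E v) {i : ℕ} (hi : i < k.n) :
    pc k.n (k.nm i) ≤ dg V τ (v i) :=
  card_img hS.inj (k.nm i) ▸ card_le_card (kf_a hO hS hi)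

theorem kf_d (hO : Ok m V τ E) (hS : Sat k V τ E v) {i : ℕ} (hi : i < k.n) :
    pc k.n (Nat.land (k.nm i) k.lq) ≤ (nb V τ (v i) ∩ E.Q).card :=
  card_img hS.inj (Nat.land (k.nm i) k.lq) ▸ card_le_card (kf_b hO hS hi)

theorem cl_sound (hO : Ok m V τ E) (hS : Sat k V τ E v) {i : ℕ} (hi : i < k.n)
    (h : k.cl i = true) {z : α} (hz : z ∈ nb V τ (v i)) (hq : v i ∈ E.Q ∨ z ∈ E.Q) :
    ∃ j < k.n, k.aj i j = true ∧ v j = z := by
  simp only [K.cl, Bool.and_eq_true, Bool.or_eq_true, Nat.beq_eq, nz_iff, Nat.add_eq] at h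
  rcases h with ⟨⟨h1, h2⟩, h3⟩ | ⟨h1, h2⟩
  · have h4 := hS.ex i hi h3
    rw [ds_Q (hS.lq i hi h1), ← h2, ← card_img hS.inj] at h4
    rw [← eq_of_subset_of_card_le (kf_a hO hS hi) h4.le] at hz
    obtain ⟨j, hj, e⟩ := mem_image.1 hz
    exact ⟨j, (mem_bs.1 hj).1, ((k.tb_nm i j).1 (mem_bs.1 hj).2).2, e⟩
  · have h3 : v i ∉ E.Q := fun h => hO.dis _ h (hS.lt i hi h1)
    have h4 := hS.ex i hi (by omega)
    rw [ds_nQ h3, ← h2, ← card_img hS.inj] at h4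
    have h5 := mem_inter.2 ⟨hz, hq.resolve_left h3⟩
    rw [← eq_of_subset_of_card_le (kf_b hO hS hi) (by omega)] at h5
    obtain ⟨j, hj, e⟩ := mem_image.1 h5
    obtain ⟨h6, h7⟩ := mem_bs.1 hj
    rw [tb_land, Bool.and_eq_true] at h7
    exact ⟨j, h6, ((k.tb_nm i j).1 h7.1).2, e⟩

theorem eP_one (hO : Ok m V τ E) (hS : Sat k V τ E v) {i j : ℕ} (hi : i < k.n) (hj : j < k.n)
    (hij : i ≠ j) (h : k.eP i j = 1) : τ s(v i, v j) = 0 := by
  rw [K.eP, Bool.cond_eq_ite] at h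
  split_ifs at h with hc
  swap
  · exact (hS.pr i hi j hj hij).1 h
  simp only [Bool.and_eq_true, Bool.or_eq_true, Nat.beq_eq] at hc
  obtain ⟨⟨h1, h2⟩, h3⟩ := hc
  by_contra h0
  have h4 : v j ∈ nb V τ (v i) :=
    mem_nb.2 ⟨hO.memV (hS.mem j hj), fun e => hij (hS.inj j hj i hi e).symm, h0⟩
  have h5 := h2.imp (hS.lq i hi) (hS.lq j hj)
  rcases h3 with h3 | h3
  · obtain ⟨l, hl, a1, a2⟩ := cl_sound hO hS hi h3 h4 h5
    have := ((k.aj_iff i l).1 a1).2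
    rw [hS.inj l hl j hj a2] at this
    omega
  · obtain ⟨l, hl, a1, a2⟩ := cl_sound hO hS hj h3 (nb_symm (hO.memV (hS.mem i hi)) h4) h5.symm
    have := ((k.aj_iff j l).1 a1).2
    rw [hS.inj l hl i hi a2, k.P_comm] at this
    omega

theorem lb_sound (hO : Ok m V τ E) (hS : Sat k V τ E v) {i : ℕ} (hi : i < k.n) :
    k.lb m i ≤ ds V τ E (v i) := by
  have h1 := kf_c hO hS hi
  have h2 := kf_d hO hS hi
  refine max_le (max_le (hO.ds3 _ (hS.mem i hi)) (hS.lo i hi)) (max_le ?_ ?_) <;>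
    simp only [Bool.cond_eq_ite, Bool.and_eq_true, Nat.add_eq]
  · split_ifs with h
    · obtain ⟨a1, a2⟩ := hS.dn i hi h.2
      exact ds_Q a1 ▸ hO.big h.1 _ a1 a2
    · exact Nat.zero_le _
  · split_ifs with h h'
    · exact ds_Q (hS.lq i hi h) ▸ h1
    · rw [ds_nQ fun h => hO.dis _ h (hS.lt i hi h')]
      omega
    · by_cases hq : v i ∈ E.Q
      · exact ds_Q hq ▸ h2.trans (card_le_card inter_subset_left)
      · rw [ds_nQ hq]
        omega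

theorem el_sound (hO : Ok m V τ E) (hS : Sat k V τ E v) {i : ℕ} (hi : i < k.n) :
    k.el m i ≤ ds V τ E (v i) := by
  refine max_le (lb_sound hO hS hi) ?_
  by_cases h : dig k.ex i = 0
  · omega
  · exact (hS.ex i hi h).ge

theorem np_sound (hO : Ok m V τ E) (hS : Sat k V τ E v) {i : ℕ} (hi : i < k.n)
    (h : k.np m i = true) : v i ∈ E.Q ∨ (v i ∈ E.T ∧ 4 ≤ ds V τ E (v i)) := by
  simp only [K.np, Bool.or_eq_true, Nat.ble_eq] at h
  refine or_iff_not_imp_left.2 fun hq => ⟨(hS.mem i hi).resolve_left hq, ?_⟩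
  rcases h with (h | h) | h
  · exact (hq (hS.lq i hi h)).elim
  · exact h.trans (el_sound hO hS hi)
  · have := kf_d hO hS hi
    rw [ds_nQ hq]
    omega

end Pool.Agent.Lib.MP_efe3d7_co.H
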