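import Pool.Agent.Lib.MP_efe3d7_co.H.Bas

/-! The induction, the triangle, the passage to graphs. -/

set_option autoImplicit false

open Finset

namespace Pool.Agent.Lib.MP_efe3d7_co.H

variable {α : Type} [Fintype α] [DecidableEq α]

omit [Fintype α] in
theorem pos_ww (V : Finset α) (τ : Sym2 α → Fin 3) : 0 < ww V τ := by
  unfold ww
  positivity

omit [Fintype α] in
theorem pos_adj {V : Finset α} {τ : Sym2 α → Fin 3} (hc : Con3 V τ) (h : V.card = 3) {a c : α}
    (ha : a ∈ V) (hcV : c ∈ V) (hac : a ≠ c) : τ s(a, c) ≠ 0 := by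
  intro h0
  have m : c ∈ V.erase a := mem_erase.2 ⟨hac.symm, hcV⟩
  have a1 := card_erase_add_one ha
  have a2 := card_erase_add_one m
  have k := hc.2 {a} ((V.erase a).erase c) (by simpa using ha) (singleton_nonempty a) (by omega)
    (fun u hu b hb => by
      rw [mem_singleton.1 hu, nb, mem_filter] at hb
      refine Or.inr (mem_erase.2 ⟨?_, mem_erase.2 ⟨hb.2.1, hb.1⟩⟩)
      rintro rfl
      exact hb.2.2 h0) hcV
  simp [hac.symm] at k

theorem pos_wt {x : ℝ} (hx : 0 < x) {t : Fin 3} (ht : t ≠ 0) : wt x t ≤ 0 := by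
  unfold wt
  rw [if_neg ht]
  split_ifs
  · exact le_rfl
  · linarith

theorem pos_of_red {x : ℝ} (h : ∀ (V : Finset α) (τ : Sym2 α → Fin 3), Con3 V τ → Red x V τ)
    (V : Finset α) (τ : Sym2 α → Fin 3) (hc : Con3 V τ) : 0 < FF x V τ := by
  classical
  suffices H : ∀ (N : ℕ) (V : Finset α) (τ : Sym2 α → Fin 3), Con3 V τ → ne V τ = N →
      0 < FF x V τ from H _ V τ hc rfl
  intro N
  induction N using Nat.strong_induction_on with
  | _ N ih =>
  intro V τ hc hN
  obtain ⟨p, hp, hmin⟩ := exists_min_image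
    (univ.filter fun p : Finset α × (Sym2 α → Fin 3) => Con3 p.1 p.2 ∧ ne p.1 p.2 = N)
    (fun p => FF x p.1 p.2 / ww p.1 p.2) ⟨(V, τ), mem_filter.2 ⟨mem_univ _, hc, hN⟩⟩
  have hp' := (mem_filter.1 hp).2
  by_cases hμ : FF x p.1 p.2 / ww p.1 p.2 ≤ 0
  · have k := h p.1 p.2 hp'.1 (fun V' τ' hc' hl => ih _ (hp'.2 ▸ hl) V' τ' hc' rfl) _ hμ
      (fun V' τ' hc' he => (le_div_iff₀ (pos_ww V' τ')).1
        (hmin (V', τ') (mem_filter.2 ⟨mem_univ _, hc', he.trans hp'.2⟩)))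
    rw [div_mul_cancel₀ _ (pos_ww _ _).ne'] at k
    exact absurd k (lt_irrefl _)
  · have k := (not_le.1 hμ).trans_le (hmin (V, τ) (mem_filter.2 ⟨mem_univ _, hc, hN⟩))
    exact (div_pos_iff_of_pos_right (pos_ww V τ)).1 k

theorem red_of_pos {x : ℝ} {V : Finset α} {τ : Sym2 α → Fin 3} (h : 0 < FF x V τ) :
    Red x V τ := by
  intro _ μ hμ _
  exact (mul_nonpos_of_nonpos_of_nonneg hμ (pos_ww V τ).le).trans_lt h

theorem red_three {x : ℝ} (h1 : 1 / 4 ≤ x) (h2 : x ≤ 1 / 2) {V : Finset α} {τ : Sym2 α → Fin 3}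
    (hc : Con3 V τ) (h : V.card = 3) : Red x V τ := by
  have hx : 0 < x := by linarith
  refine red_of_pos ?_
  obtain ⟨a, b, p, hab, hap, hbp, hV⟩ := card_eq_three.1 h
  have k1 := pos_wt hx (pos_adj hc h (a := a) (c := b) (by simp [hV]) (by simp [hV]) hab)
  have k2 := pos_wt hx (pos_adj hc h (a := a) (c := p) (by simp [hV]) (by simp [hV]) hap)
  have k3 := pos_wt hx (pos_adj hc h (a := b) (c := p) (by simp [hV]) (by simp [hV]) hbp)
  rw [FF, hV, ff_three hx hab hap hbp]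
  have k4 := mul_nonpos_of_nonneg_of_nonpos (mul_nonneg_of_nonpos_of_nonpos k1 k2) k3
  refine mul_pos (by linarith) ?_
  have k5 : 0 < x * (1 - x - wt x (τ s(a, b)) - wt x (τ s(a, p)) - wt x (τ s(b, p))) :=
    mul_pos hx (by linarith)
  linarith

theorem con3_of_conn {n : ℕ} (G : SimpleGraph (Fin n)) [DecidableRel G.Adj] (hn : 4 ≤ n)
    (hG : ∀ S : Finset (Fin n), S.card ≤ 2 → (G.induce ((↑S : Set (Fin n))ᶜ)).Connected) :
    Con3 (univ : Finset (Fin n)) fun e => if e ∈ G.edgeFinset then 1 else 0 := by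
  refine ⟨by rw [card_univ, Fintype.card_fin]; omega, fun B S _ hne hS hcov c _ => ?_⟩
  obtain ⟨a, ha⟩ := hne
  by_contra hc
  rw [mem_union, not_or] at hc
  have hcon := hG (S \ B) ((card_le_card sdiff_subset).trans hS)
  have ma : a ∈ ((↑(S \ B) : Set (Fin n))ᶜ) := by simp [ha]
  have mc : c ∈ ((↑(S \ B) : Set (Fin n))ᶜ) := by simp [hc.2]
  obtain ⟨w⟩ := hcon.preconnected ⟨a, ma⟩ ⟨c, mc⟩
  have key : ∀ (u v : ↥((↑(S \ B) : Set (Fin n))ᶜ))
      (_ : (G.induce ((↑(S \ B) : Set (Fin n))ᶜ)).Walk u v), u.1 ∈ B → v.1 ∈ B := by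
    intro u v q
    induction q with
    | nil => exact id
    | @cons u t _ hadj _ ih =>
      intro hu
      have hadj' : G.Adj u.1 t.1 := hadj
      have m : t.1 ∈ nb (univ : Finset (Fin n))
          (fun e => if e ∈ G.edgeFinset then (1 : Fin 3) else 0) u.1 := by
        simp [nb, hadj', hadj'.ne']
      rcases hcov u.1 hu t.1 m with e | e
      · exact ih e
      · refine ih ?_
        by_contra k
        exact t.2 (by simp [e, k])
  exact hc.1 (key _ _ w ha)

end Pool.Agent.Lib.MP_efe3d7_co.H
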