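import Pool.Agent.Lib.MP_efe3d7_co.H.Exp
import Pool.Agent.Lib.MP_efe3d7_co.H.Ineq
import Pool.Agent.Lib.MP_efe3d7_co.H.Kf
import Pool.Agent.Lib.MP_efe3d7_co.H.Pos

/-! Graphs that are known completely. -/

set_option autoImplicit false

open Finset

namespace Pool.Agent.Lib.MP_efe3d7_co.H

variable {α : Type} [Fintype α] [DecidableEq α]

variable {m : Md} {p : Pre} {k : K} {V : Finset α} {τ : Sym2 α → Fin 3} {E : Env α} {v : ℕ → α}


theorem base_ty (hO : Ok m V τ E) (hS : Sat k V τ E v) (hn : k.n ≤ 16) {i j : ℕ} (hi : i < k.n)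
    (hj : j < i) (h1 : tb k.lq i = true) (h2 : k.cl i = true) (h3 : k.eP i j ≤ 3) :
    (τ s(v i, v j)).val = ty k.ct i j := by
  have hj' : j < k.n := by omega
  have hij : i ≠ j := by omega
  obtain ⟨-, p2, p3, -⟩ := hS.pr i hi j hj' hij
  have h0 : k.P i j = 0 → k.eP i j = 1 := fun e => by simp [K.eP, e, h1, h2]
  have h4 := k.eP_cases i j
  rw [k.ty_ct hn hi hj' hij]
  obtain e | e | e : k.eP i j = 1 ∨ k.eP i j = 2 ∨ k.eP i j = 3 := by omega
  · rw [eP_one hO hS hi hj' hij e, e]; rfl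
  · rw [p2 (by omega), e]; rfl
  · rw [p3 (by omega), e]; rfl

theorem base_sound {x : ℝ} (h1 : 1 / 4 ≤ x) (h2 : x ≤ 1 / 2) (hO : Ok m V τ E) (hS : Sat k V τ E v)
    {D : List ℕ} {t : ℕ} (h : baseOk k D t = true) : Red x V τ := by
  simp only [baseOk, Bool.and_eq_true, allB_iff, Nat.ble_eq, nz_iff] at h
  obtain ⟨⟨⟨⟨⟨⟨n1, n7⟩, ha⟩, ht⟩, d0⟩, dl⟩, hid⟩ := h
  have hx : 0 < x := by linarith
  have hV : V = ∅ ∪ (Ico 0 (0 + k.n)).image v := by
    rw [empty_union, zero_add, ← range_eq_Ico]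
    have hB : (range k.n).image v ⊆ V := fun z hz => by
      obtain ⟨i, hi, rfl⟩ := mem_image.1 hz
      exact hO.memV (hS.mem i (mem_range.1 hi))
    refine Subset.antisymm ?_ hB
    have := hO.con.2 _ ∅ hB ((nonempty_range_iff.2 (by omega)).image v) (by simp)
      fun a ha' b hb => by
        obtain ⟨i, hi, rfl⟩ := mem_image.1 ha'
        have hi' := mem_range.1 hi
        obtain ⟨j, hj, -, rfl⟩ := cl_sound hO hS hi' (ha i hi').1.2 hb
          (Or.inl (hS.lq i hi' (ha i hi').1.1))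
        exact Or.inl (mem_image_of_mem v (mem_range.2 hj))
    rwa [union_empty] at this
  obtain ⟨R, hR⟩ := expand hx (∅ : Finset α) (fun _ => 1) v 0 (by simp) (by simp)
  have r0 := hR 0 0 (fun _ => 1) (by omega) (by simp) (by simp) (by simp) (by simp) (by simp)
    (by simp)
  have r1 := hR k.n k.ct (fun e => wt x (τ e)) (by omega) (by simpa using hS.inj) (by simp)
    (by simp) (by simp) (by simp) fun i _ hi j hj => by
      have hi' : i < k.n := by omega
      rw [wt_wn, base_ty hO hS (by omega) hi' hj (ha i hi').1.1 (ha i hi').1.2 ((ha i hi').2 j hj)]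
  rw [ff_ones hx (by simp)] at r0
  simp only [parts, List.map_cons, List.map_nil, List.sum_cons, List.sum_nil, add_zero] at r0 r1
  rw [ev_val] at r0
  simp only [locP, Ico_self, image_empty, union_empty, card_empty, pow_zero, range_zero,
    prod_empty, Polynomial.eval_one, mul_one] at r0
  have e0 := ev_zero x hid
  rw [ev_pa, ev_ps, ev_ps] at e0
  have b0 := bern_pos h1 h2 d0 dl
  refine red_of_pos ?_
  rw [FF, hV, r1, ← r0, one_mul]
  have t0 : (0 : ℝ) < t := by exact_mod_cast Nat.pos_of_ne_zero ht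
  push_cast at e0
  exact (pos_iff_pos_of_mul_pos (a := (t : ℝ)) (by linarith)).1 t0

end Pool.Agent.Lib.MP_efe3d7_co.H
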