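import Pool.Agent.Lib.MP_efe3d7_co.H.Sem

/-! Masks. -/

set_option autoImplicit false

open Finset

namespace Pool.Agent.Lib.MP_efe3d7_co.H

theorem frc_eq {β : Type} (m : ℕ) (k : ℕ → β) : frc m k = k m := by
  cases m <;> rfl

theorem bt_eq (i : ℕ) : bt i = 2 ^ i := by
  simp [bt, Nat.shiftLeft_eq]

theorem tb_eq (m i : ℕ) : tb m i = m.testBit i := by
  show Nat.beq ((m >>> i) % 2) 1 = _
  rw [Nat.testBit_eq_decide_div_mod_eq, Nat.shiftRight_eq_div_pow, Bool.eq_iff_iff]
  simp

theorem tb_zero (i : ℕ) : tb 0 i = false := by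
  simp [tb_eq]

theorem tb_bt (i j : ℕ) : tb (bt i) j = decide (i = j) := by
  rw [tb_eq, bt_eq, Nat.testBit_two_pow]

theorem tb_lor (a b i : ℕ) : tb (Nat.lor a b) i = (tb a i || tb b i) := by
  simp only [tb_eq]
  exact Nat.testBit_or a b i

theorem bit1_or (a b i : ℕ) : tb (a ||| b) i = (tb a i || tb b i) := tb_lor a b i

theorem tb_land (a b i : ℕ) : tb (Nat.land a b) i = (tb a i && tb b i) := by
  simp only [tb_eq]
  exact Nat.testBit_and a b i

theorem tb_df (a b i : ℕ) : tb (df a b) i = (tb a i && !tb b i) := by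
  have h : tb (df a b) i = (a.testBit i ^^ (a &&& b).testBit i) := by
    rw [tb_eq]; exact Nat.testBit_xor a (a &&& b) i
  rw [h, Nat.testBit_and, tb_eq, tb_eq]
  cases a.testBit i <;> cases b.testBit i <;> rfl

theorem tb_ful (n i : ℕ) : tb (ful n) i = decide (i < n) := by
  rw [tb_eq, ful, bt_eq]
  exact Nat.testBit_two_pow_sub_one n i

theorem tb_msk (n : ℕ) (f : ℕ → Bool) (i : ℕ) : tb (msk n f) i = (decide (i < n) && f i) := by
  induction n with
  | zero => simp [msk, tb_zero]
  | succ n ih =>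
    have e : msk (n + 1) f = bif f n then Nat.lor (bt n) (msk n f) else msk n f := rfl
    rw [e]
    rcases Nat.lt_trichotomy i n with h | h | h
    · cases f n <;> simp [bit1_or, tb_bt, ih, h, h.ne', Nat.lt_succ_of_lt h]
    · subst h
      cases hf : f i <;> simp [bit1_or, tb_bt, ih, hf]
    · have h1 : ¬ i < n := by omega
      have h2 : ¬ i < n + 1 := by omega
      cases f n <;> simp [bit1_or, tb_bt, ih, h1, h2, h.ne]

theorem tb_un (n m : ℕ) (g : ℕ → ℕ) (j : ℕ) :
    tb (un n m g) j = true ↔ ∃ i < n, tb m i = true ∧ tb (g i) j = true := by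
  induction n with
  | zero => simp [un, tb_zero]
  | succ n ih =>
    have e : un (n + 1) m g = bif tb m n then Nat.lor (g n) (un n m g) else un n m g := rfl
    rw [e, Nat.exists_lt_succ_right, ← ih]
    cases hf : tb m n <;> simp [bit1_or, or_comm]

theorem nz_iff (a : ℕ) : nz a = true ↔ a ≠ 0 := by
  cases a <;> simp [nz, Nat.beq]

theorem nz_bit (a : ℕ) : nz a = true ↔ ∃ i, tb a i = true := by
  rw [nz_iff]
  constructor
  · intro h
    obtain ⟨i, hi⟩ := Nat.exists_testBit_of_ne_zero h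
    exact ⟨i, by rw [tb_eq, hi]⟩
  · rintro ⟨i, hi⟩ rfl
    simp [tb_zero] at hi

theorem nz_false (a : ℕ) : nz a = false ↔ ∀ i, tb a i = false := by
  rw [← Bool.not_eq_true, nz_bit]
  simp

theorem allB_iff (n : ℕ) (f : ℕ → Bool) : allB n f = true ↔ ∀ i < n, f i = true := by
  induction n with
  | zero => simp [allB]
  | succ n ih =>
    have e : allB (n + 1) f = (f n && allB n f) := rfl
    rw [e, Nat.forall_lt_succ_right, Bool.and_eq_true, ih, and_comm]

theorem anyB_iff (n : ℕ) (f : ℕ → Bool) : anyB n f = true ↔ ∃ i < n, f i = true := by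
  induction n with
  | zero => simp [anyB]
  | succ n ih =>
    have e : anyB (n + 1) f = (f n || anyB n f) := rfl
    rw [e, Nat.exists_lt_succ_right, Bool.or_eq_true, ih, or_comm]

theorem cnt_eq (n : ℕ) (f : ℕ → Bool) :
    cnt n f = ((range n).filter fun i => f i = true).card := by
  induction n with
  | zero => simp [cnt]
  | succ n ih =>
    have e : cnt (n + 1) f = bif f n then Nat.succ (cnt n f) else cnt n f := rfl
    rw [e, range_add_one, filter_insert, ih]
    cases hf : f n
    · simp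
    · simp

theorem mem_bs {n m i : ℕ} : i ∈ bs n m ↔ i < n ∧ tb m i = true := by
  simp [bs]

theorem pc_eq (n m : ℕ) : pc n m = (bs n m).card := by
  rw [pc, cnt_eq]; rfl

theorem lt_bt {m n : ℕ} (h : ∀ i, tb m i = true → i < n) : m < bt n := by
  rw [bt_eq]
  refine Nat.lt_pow_two_of_testBit m fun i hi => ?_
  by_contra hc
  have := h i (by rw [tb_eq]; simpa using hc)
  omega

theorem lt_of_tb {m n i : ℕ} (h : m < bt n) (hi : tb m i = true) : i < n := by
  by_contra hc
  rw [bt_eq] at h
  have h2 : 2 ^ n ≤ 2 ^ i := Nat.pow_le_pow_right (by norm_num) (not_lt.1 hc)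
  rw [tb_eq, Nat.testBit_lt_two_pow (lt_of_lt_of_le h h2)] at hi
  exact Bool.noConfusion hi

theorem msk_lt (n : ℕ) (f : ℕ → Bool) : msk n f < bt n := by
  refine lt_bt fun i hi => ?_
  rw [tb_msk] at hi
  simp at hi
  exact hi.1

theorem cp_eq (w : ℕ) (f : ℕ → ℕ → Bool) :
    cp w f = ∑ i ∈ range w, ((range i).filter fun j => f i j = true).card := by
  induction w with
  | zero => simp [cp]
  | succ n ih =>
    rw [sum_range_succ, ← ih, ← cnt_eq, add_comm (cp n f)]
    rfl

theorem card_img {β : Type} [DecidableEq β] {n : ℕ} {v : ℕ → β}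
    (h : ∀ i < n, ∀ j < n, v i = v j → i = j) (m : ℕ) : ((bs n m).image v).card = pc n m := by
  rw [pc_eq]
  exact card_image_of_injOn fun i hi j hj e => h i (mem_bs.1 hi).1 j (mem_bs.1 hj).1 e

end Pool.Agent.Lib.MP_efe3d7_co.H
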