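import Pool.Agent.Lib.MP_efe3d7_co.H.Bit1

/-! Digits, fields, pairs. -/

set_option autoImplicit false

open Finset

namespace Pool.Agent.Lib.MP_efe3d7_co.H

theorem bit2_dig (m i : ℕ) : dig m i = m / 8 ^ i % 8 := by
  have e : dig m i = m >>> (3 * i) % 8 := rfl
  rw [e, Nat.shiftRight_eq_div_pow, pow_mul, show 2 ^ 3 = 8 by norm_num]

theorem bit2_sdg (m i d : ℕ) : sdg m i d = m - m / 8 ^ i % 8 * 8 ^ i + d * 8 ^ i := by
  have e : sdg m i d = m - dig m i <<< (3 * i) + d <<< (3 * i) := rfl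
  rw [e, Nat.shiftLeft_eq, Nat.shiftLeft_eq, pow_mul, bit2_dig, show 2 ^ 3 = 8 by norm_num]

theorem bit2_fld (m i : ℕ) : fld m i = m / 65536 ^ i % 65536 := by
  have e : fld m i = m >>> (16 * i) % 65536 := rfl
  rw [e, Nat.shiftRight_eq_div_pow, pow_mul, show 2 ^ 16 = 65536 by norm_num]

theorem bit2_low {B r q i j : ℕ} (hB : 0 < B) (hji : j < i) :
    (r + q * B ^ i) / B ^ j % B = r / B ^ j % B := by
  obtain ⟨c, rfl⟩ := Nat.exists_eq_add_of_lt hji
  have e : q * B ^ (j + c + 1) = q * B ^ c * B * B ^ j := by ring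
  rw [e, Nat.add_mul_div_right _ _ (pow_pos hB j), Nat.add_mul_mod_self_right]

theorem bit2_high {B r q i c : ℕ} (hB : 0 < B) (hr : r < B ^ i) :
    (r + q * B ^ i) / B ^ (i + c) = q / B ^ c := by
  rw [pow_add, ← Nat.div_div_eq_div_mul, Nat.add_mul_div_right _ _ (pow_pos hB i),
    Nat.div_eq_of_lt hr, zero_add]

theorem dig_lt (m i : ℕ) : dig m i < 8 := by
  rw [bit2_dig]
  exact Nat.mod_lt _ (by norm_num)

theorem dig_zero (i : ℕ) : dig 0 i = 0 := by
  rw [bit2_dig, Nat.zero_div]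

theorem dig_sdg (m i j : ℕ) {d : ℕ} (hd : d < 8) :
    dig (sdg m i d) j = if j = i then d else dig m j := by
  obtain ⟨r, q, hr, rfl⟩ : ∃ r q, r < 8 ^ i ∧ m = r + q * 8 ^ i :=
    ⟨m % 8 ^ i, m / 8 ^ i, Nat.mod_lt _ (by positivity), (Nat.mod_add_div' _ _).symm⟩
  have h8 : 0 < 8 := by norm_num
  have h0 : (r + q * 8 ^ i) / 8 ^ i = q := by
    have := bit2_high (q := q) (c := 0) h8 hr
    simpa using this
  have e : sdg (r + q * 8 ^ i) i d = r + (8 * (q / 8) + d) * 8 ^ i := by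
    rw [bit2_sdg, h0]
    have h1 : q * 8 ^ i = 8 * (q / 8) * 8 ^ i + q % 8 * 8 ^ i := by
      rw [← add_mul, Nat.div_add_mod]
    rw [add_mul]
    omega
  rw [e, bit2_dig, bit2_dig]
  rcases lt_trichotomy j i with h | h | h
  · rw [if_neg h.ne, bit2_low h8 h, bit2_low h8 h]
  · subst h
    have := bit2_high (q := 8 * (q / 8) + d) (c := 0) h8 hr
    rw [add_zero, pow_zero, Nat.div_one] at this
    rw [if_pos rfl, this]
    omega
  · obtain ⟨c, rfl⟩ := Nat.exists_eq_add_of_lt h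
    rw [if_neg h.ne', add_assoc, bit2_high h8 hr, bit2_high h8 hr, pow_succ',
      ← Nat.div_div_eq_div_mul, ← Nat.div_div_eq_div_mul]
    have h2 : (8 * (q / 8) + d) / 8 = q / 8 := by omega
    rw [h2]

theorem bit2_pk (n : ℕ) (g : ℕ → ℕ) : pk (n + 1) g = pk n g + g n * 65536 ^ n := by
  have e : pk (n + 1) g = g n <<< (16 * n) + pk n g := rfl
  rw [e, Nat.shiftLeft_eq, pow_mul, add_comm, show 2 ^ 16 = 65536 by norm_num]

theorem bit2_pk_lt {n : ℕ} {g : ℕ → ℕ} (hg : ∀ l < n, g l < 65536) : pk n g < 65536 ^ n := by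
  induction n with
  | zero => exact Nat.zero_lt_one
  | succ n ih =>
    have h1 := ih fun l hl => hg l (by omega)
    have h2 : g n * 65536 ^ n ≤ 65535 * 65536 ^ n :=
      Nat.mul_le_mul_right _ (by have := hg n (by omega); omega)
    rw [bit2_pk, pow_succ]
    omega

theorem fld_pk {n i : ℕ} {g : ℕ → ℕ} (hg : ∀ l < n, g l < 65536) (hi : i < n) :
    fld (pk n g) i = g i := by
  induction n with
  | zero => omega
  | succ n ih =>
    have hB : 0 < 65536 := by norm_num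
    have hlt := bit2_pk_lt (n := n) fun l hl => hg l (by omega)
    rw [bit2_pk, bit2_fld]
    rcases Nat.lt_succ_iff_lt_or_eq.1 hi with h | h
    · rw [bit2_low hB h, ← bit2_fld]
      exact ih (fun l hl => hg l (by omega)) h
    · subst h
      have := bit2_high (q := g i) (c := 0) hB hlt
      rw [add_zero, pow_zero, Nat.div_one] at this
      rw [this, Nat.mod_eq_of_lt (hg i hi)]

theorem fld_pk_msk {n w i : ℕ} (f : ℕ → ℕ → Bool) (hw : w ≤ 16) (hi : i < n) :
    fld (pk n fun l => msk w (f l)) i = msk w (f i) := by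
  refine fld_pk (g := fun l => msk w (f l)) (fun l _ => ?_) hi
  have h1 := msk_lt w (f l)
  rw [bt_eq] at h1
  exact h1.trans_le (Nat.pow_le_pow_right (by norm_num) hw)

theorem bit2_px (i j : ℕ) : px i j = if i ≤ j then 16 * j + i else 16 * i + j := by
  by_cases h : i ≤ j
  · rw [if_pos h, px, Nat.ble_eq_true_of_le h]
    rfl
  · rw [if_neg h, px, Bool.eq_false_iff.2 fun e => h (Nat.le_of_ble_eq_true e)]
    rfl

theorem px_comm (i j : ℕ) : px i j = px j i := by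
  rw [bit2_px, bit2_px]
  split_ifs <;> omega

theorem px_inj {i j a b : ℕ} (hi : i < 16) (hj : j < 16) (ha : a < 16) (hb : b < 16) :
    px i j = px a b ↔ (i = a ∧ j = b) ∨ (i = b ∧ j = a) := by
  rw [bit2_px, bit2_px]
  split_ifs <;> omega

theorem ty_comm (ct i j : ℕ) : ty ct i j = ty ct j i := by
  rw [ty, ty, px_comm]

theorem ty_sdg (ct : ℕ) {i j a b d : ℕ} (hi : i < 16) (hj : j < 16) (ha : a < 16) (hb : b < 16)
    (hd : d < 8) : ty (sdg ct (px a b) d) i j =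
      if (i = a ∧ j = b) ∨ (i = b ∧ j = a) then d else ty ct i j := by
  rw [ty, ty, dig_sdg _ _ _ hd]
  simp only [px_inj hi hj ha hb]

theorem K.P_comm (k : K) (i j : ℕ) : k.P i j = k.P j i := by
  rw [K.P, K.P, px_comm]

theorem K.aj_comm (k : K) (i j : ℕ) : k.aj i j = k.aj j i := by
  have e : Nat.beq i j = Nat.beq j i := by
    rw [Bool.eq_iff_iff, Nat.beq_eq, Nat.beq_eq, eq_comm]
  rw [K.aj, K.aj, k.P_comm i j, e]

theorem K.eP_comm (k : K) (i j : ℕ) : k.eP i j = k.eP j i := by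
  rw [K.eP, K.eP, k.P_comm i j, Bool.or_comm (tb k.lq i), Bool.or_comm (k.cl i)]

theorem K.F_comm (k : K) (i j : ℕ) : k.F i j = k.F j i := by
  rw [K.F, K.F, px_comm]

theorem K.aj_iff (k : K) (i j : ℕ) : k.aj i j = true ↔ i ≠ j ∧ 2 ≤ k.P i j := by
  rw [K.aj, Bool.and_eq_true, Bool.not_eq_true', ← Bool.not_eq_true, Nat.beq_eq, Nat.ble_eq]

theorem K.tb_nm (k : K) (i j : ℕ) : tb (k.nm i) j = true ↔ j < k.n ∧ k.aj i j = true := by
  rw [K.nm, tb_msk, Bool.and_eq_true, decide_eq_true_eq]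

theorem K.eP_cases (k : K) (i j : ℕ) : k.eP i j = k.P i j ∨ (k.P i j = 0 ∧ k.eP i j = 1) := by
  rw [K.eP]
  cases h : (Nat.beq (k.P i j) 0 && (tb k.lq i || tb k.lq j) && (k.cl i || k.cl j)) with
  | false => exact Or.inl rfl
  | true =>
    rw [Bool.and_eq_true, Bool.and_eq_true, Nat.beq_eq] at h
    exact Or.inr ⟨h.1.1, rfl⟩

theorem K.P_sP (k : K) {i j a b d : ℕ} (hi : i < 16) (hj : j < 16) (ha : a < 16) (hb : b < 16)
    (hd : d < 8) : (k.sP a b d).P i j =
      if (i = a ∧ j = b) ∨ (i = b ∧ j = a) then d else k.P i j := by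
  exact ty_sdg k.pr hi hj ha hb hd

theorem K.frc_eq {β : Type} (k : K) (c : K → β) : k.frc c = c k := by
  simp only [K.frc, H.frc_eq]

theorem mkPre_eq {β : Type} (m : Md) (k : K) (s : ℕ) (c : Pre → β) :
    mkPre m k s c = c (preOf m k s) := by
  simp only [preOf, mkPre, H.frc_eq, id]

end Pool.Agent.Lib.MP_efe3d7_co.H
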