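import Pool.Agent.Lib.MP_efe3d7_co.H.Bit2

/-! The types of a window; the neighbours in a column. -/

set_option autoImplicit false

open Finset

namespace Pool.Agent.Lib.MP_efe3d7_co.H

theorem bit3_lt (k : K) (i j : ℕ) : Nat.pred (k.eP i j) < 8 := by
  have h := dig_lt k.pr (px i j)
  rw [Nat.pred_eq_sub_one]
  rcases k.eP_cases i j with e | ⟨_, e⟩
  · rw [e, K.P]
    omega
  · rw [e]
    omega

/-- One row of the table. -/
def bit3_row (k : K) (i r m : ℕ) : ℕ :=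
  Nat.rec r (fun j t => sdg t (px i j) (Nat.pred (k.eP i j))) m

/-- The rows below `n`. -/
def bit3_tab (k : K) (n : ℕ) : ℕ := Nat.rec 0 (fun i r => bit3_row k i r i) n

theorem bit3_row_ty (k : K) {i r a b : ℕ} (hi : i < 16) (ha : a < 16) (hb : b < a) (m : ℕ)
    (hm : m ≤ i) : ty (bit3_row k i r m) a b =
      if a = i ∧ b < m then Nat.pred (k.eP a b) else ty r a b := by
  induction m with
  | zero => simp [bit3_row]
  | succ m ih =>
    have e : bit3_row k i r (m + 1) =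
        sdg (bit3_row k i r m) (px i m) (Nat.pred (k.eP i m)) := rfl
    rw [e, ty_sdg _ ha (by omega) hi (by omega) (bit3_lt k i m), ih (by omega)]
    by_cases h1 : a = i ∧ b = m
    · rw [if_pos (Or.inl h1), if_pos ⟨h1.1, by omega⟩, h1.1, h1.2]
    · rw [if_neg (by omega)]
      by_cases h2 : a = i ∧ b < m
      · rw [if_pos h2, if_pos ⟨h2.1, by omega⟩]
      · rw [if_neg h2, if_neg (by omega)]

theorem bit3_tab_ty (k : K) {a b : ℕ} (hb : b < a) (n : ℕ) (hn : n ≤ 16) (ha : a < n) :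
    ty (bit3_tab k n) a b = Nat.pred (k.eP a b) := by
  induction n with
  | zero => omega
  | succ n ih =>
    have e : bit3_tab k (n + 1) = bit3_row k n (bit3_tab k n) n := rfl
    rw [e, bit3_row_ty k (by omega) (by omega) hb n le_rfl]
    by_cases h : a = n
    · rw [if_pos ⟨h, by omega⟩]
    · rw [if_neg (by omega), ih (by omega) (by omega)]

theorem K.ty_ct (k : K) (hn : k.n ≤ 16) {i j : ℕ} (hi : i < k.n) (hj : j < k.n) (hij : i ≠ j) :
    ty k.ct i j = k.eP i j - 1 := by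
  have e : k.ct = bit3_tab k k.n := rfl
  rw [e, ← Nat.pred_eq_sub_one]
  rcases lt_or_gt_of_ne hij with h | h
  · rw [ty_comm, k.eP_comm, bit3_tab_ty k h _ hn hj]
  · exact bit3_tab_ty k h _ hn hi

theorem bit3_cak {w : ℕ} (g : Col) (hw : w ≤ 16) {i : ℕ} (hi : i < w) (j : ℕ) :
    tb (fld (cak w g) i) j = true ↔ j < w ∧ i ≠ j ∧ ty g.ct i j ≠ 0 := by
  rw [cak, fld_pk_msk (fun i j => !Nat.beq i j && nz (ty g.ct i j)) hw hi, tb_msk]
  simp only [Bool.and_eq_true, decide_eq_true_eq, Bool.not_eq_true', nz_iff]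
  rw [← Bool.not_eq_true, Nat.beq_eq]

/-- The entry of the table after a merge. -/
def bit3_ent (g : Col) (ca i : ℕ) : ℕ :=
  frc (bif Nat.beq i g.a then Nat.lor (fld ca g.a) (fld ca g.b) else fld ca i) fun M =>
    df (bif tb M g.b then Nat.lor (df M (bt g.b)) (bt g.a) else M) (bt i)

theorem bit3_tb {M a b i j : ℕ} (hab : a ≠ b)
    (h : tb (df (bif tb M b then Nat.lor (df M (bt b)) (bt a) else M) (bt i)) j = true) :
    i ≠ j ∧ j ≠ b ∧ (tb M j = true ∨ (j = a ∧ tb M b = true)) := by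
  rw [tb_df, tb_bt, Bool.and_eq_true, Bool.not_eq_true', decide_eq_false_iff_not] at h
  obtain ⟨h1, h2⟩ := h
  refine ⟨h2, ?_⟩
  cases hb : tb M b with
  | false =>
    rw [hb, cond_false] at h1
    exact ⟨fun e => by rw [e, hb] at h1; exact Bool.false_ne_true h1, Or.inl h1⟩
  | true =>
    rw [hb, cond_true, tb_lor, tb_df, tb_bt, tb_bt] at h1
    simp only [Bool.or_eq_true, Bool.and_eq_true, Bool.not_eq_true', decide_eq_false_iff_not,
      decide_eq_true_eq] at h1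
    rcases h1 with ⟨h3, h4⟩ | h3
    · exact ⟨fun e => h4 e.symm, Or.inl h3⟩
    · exact ⟨fun e => hab (h3.trans e), Or.inr ⟨h3.symm, rfl⟩⟩

theorem bit3_ent_spec {w : ℕ} {g : Col} (hw : w ≤ 16) (ha : g.a < w) (hb : g.b < w)
    (hab : g.a ≠ g.b) {i j : ℕ} (hi : i < w) (h : tb (bit3_ent g (cak w g) i) j = true) :
    j < w ∧ j ≠ g.b ∧ i ≠ j ∧ ∃ i' < w, ∃ j' < w, (i' = i ∨ (i' = g.b ∧ i = g.a)) ∧
      (j' = j ∨ (j' = g.b ∧ j = g.a)) ∧ ty g.ct i' j' ≠ 0 := by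
  rw [bit3_ent, frc_eq] at h
  obtain ⟨h1, h2, h3⟩ := bit3_tb hab h
  have key : ∀ l, tb (bif Nat.beq i g.a then Nat.lor (fld (cak w g) g.a) (fld (cak w g) g.b)
      else fld (cak w g) i) l = true →
      l < w ∧ ∃ i' < w, (i' = i ∨ (i' = g.b ∧ i = g.a)) ∧ ty g.ct i' l ≠ 0 := by
    intro l hl
    cases hc : Nat.beq i g.a with
    | false =>
      rw [hc, cond_false, bit3_cak g hw hi] at hl
      exact ⟨hl.1, i, hi, Or.inl rfl, hl.2.2⟩
    | true =>
      have e : i = g.a := Nat.eq_of_beq_eq_true hc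
      rw [hc, cond_true, tb_lor, Bool.or_eq_true, bit3_cak g hw ha, bit3_cak g hw hb] at hl
      rcases hl with hl | hl
      · exact ⟨hl.1, g.a, ha, Or.inl e.symm, hl.2.2⟩
      · exact ⟨hl.1, g.b, hb, Or.inr ⟨rfl, e⟩, hl.2.2⟩
  rcases h3 with h3 | ⟨h3, h4⟩
  · obtain ⟨k1, i', k2, k3, k4⟩ := key j h3
    exact ⟨k1, h2, h1, i', k2, j, k1, k3, Or.inl rfl, k4⟩
  · obtain ⟨_, i', k2, k3, k4⟩ := key g.b h4
    exact ⟨h3 ▸ ha, h2, h1, i', k2, g.b, hb, k3, Or.inr ⟨rfl, h3⟩, k4⟩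

theorem cm_spec {w : ℕ} {g : Col} (hw : w ≤ 16) (hm : g.mg = true → g.a < w ∧ g.b < w ∧ g.a ≠ g.b)
    {i j : ℕ} (hi : i < w) (hib : ¬ (g.mg = true ∧ i = g.b))
    (h : tb (fld (cmk w g (cak w g)) i) j = true) :
    j < w ∧ ¬ (g.mg = true ∧ j = g.b) ∧ i ≠ j ∧
      ∃ i' < w, ∃ j' < w, rho g i' = i ∧ rho g j' = j ∧ ty g.ct i' j' ≠ 0 := by
  cases hg : g.mg with
  | false =>
    rw [cmk, hg, cond_false, bit3_cak g hw hi] at h
    refine ⟨h.1, by simp, h.2.1, i, hi, j, h.1, ?_, ?_, h.2.2⟩ <;> simp [rho, hg]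
  | true =>
    obtain ⟨ha, hb, hab⟩ := hm hg
    have e : cmk w g (cak w g) = pk w (bit3_ent g (cak w g)) := by
      rw [cmk, hg, cond_true]
      rfl
    have hlt : ∀ l < w, bit3_ent g (cak w g) l < 65536 := fun l hl => by
      have h1 : bit3_ent g (cak w g) l < bt 16 :=
        lt_bt fun t ht => (bit3_ent_spec hw ha hb hab hl ht).1.trans_le hw
      rwa [bt_eq] at h1
    rw [e, fld_pk hlt hi] at h
    obtain ⟨h1, h2, h3, i', h4, j', h5, h6, h7, h8⟩ := bit3_ent_spec hw ha hb hab hi h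
    have hi' : i ≠ g.b := fun t => hib ⟨hg, t⟩
    refine ⟨h1, fun t => h2 t.2, h3, i', h4, j', h5, ?_, ?_, h8⟩
    · rcases h6 with t | ⟨t1, t2⟩
      · rw [rho, if_neg (fun s => hi' (t ▸ s.2)), t]
      · rw [rho, if_pos ⟨hg, t1⟩, t2]
    · rcases h7 with t | ⟨t1, t2⟩
      · rw [rho, if_neg (fun s => h2 (t ▸ s.2)), t]
      · rw [rho, if_pos ⟨hg, t1⟩, t2]

end Pool.Agent.Lib.MP_efe3d7_co.H
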