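import Pool.Agent.Lib.MP_efe3d7_co.H.Defs

/-! The checker: configurations, certificates, case trees. -/

set_option autoImplicit false

namespace Pool.Agent.Lib.MP_efe3d7_co.H

/-- Bit `i` of `m`. -/
def tb (m i : ℕ) : Bool := Nat.beq (Nat.mod (Nat.shiftRight m i) 2) 1

/-- The power of two. -/
def bt (i : ℕ) : ℕ := Nat.shiftLeft 1 i

/-- Set difference of masks. -/
def df (a b : ℕ) : ℕ := Nat.xor a (Nat.land a b)

/-- The mask is not empty. -/
def nz (a : ℕ) : Bool := !Nat.beq a 0

/-- Evaluate a number before it is used. -/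
def frc {β : Type} (m : ℕ) (k : ℕ → β) : β := Nat.rec (k 0) (fun n _ => k (Nat.succ n)) m

/-- `f i` for all `i < n`. -/
def allB (n : ℕ) (f : ℕ → Bool) : Bool := Nat.rec true (fun i r => f i && r) n

/-- `f i` for some `i < n`. -/
def anyB (n : ℕ) (f : ℕ → Bool) : Bool := Nat.rec false (fun i r => f i || r) n

/-- The number of `i < n` with `f i`. -/
def cnt (n : ℕ) (f : ℕ → Bool) : ℕ := Nat.rec 0 (fun i r => bif f i then Nat.succ r else r) n

/-- The mask of all `i < n` with `f i`. -/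
def msk (n : ℕ) (f : ℕ → Bool) : ℕ := Nat.rec 0 (fun i r => bif f i then Nat.lor (bt i) r else r) n

/-- The union of the masks `g i` over `i < n` in `m`. -/
def un (n m : ℕ) (g : ℕ → ℕ) : ℕ :=
  Nat.rec 0 (fun i r => bif tb m i then Nat.lor (g i) r else r) n

/-- The number of bits below `n`. -/
def pc (n m : ℕ) : ℕ := cnt n (tb m)

/-- The mask of all `i < n`. -/
def ful (n : ℕ) : ℕ := Nat.pred (bt n)

/-- Digit `i` in base eight. -/
def dig (m i : ℕ) : ℕ := Nat.mod (Nat.shiftRight m (Nat.mul 3 i)) 8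

/-- Replace digit `i`. -/
def sdg (m i d : ℕ) : ℕ :=
  Nat.add (Nat.sub m (Nat.shiftLeft (dig m i) (Nat.mul 3 i))) (Nat.shiftLeft d (Nat.mul 3 i))

/-- Field `i` of sixteen bits. -/
def fld (m i : ℕ) : ℕ := Nat.mod (Nat.shiftRight m (Nat.mul 16 i)) 65536

/-- Pack the fields `g i`, `i < n`. -/
def pk (n : ℕ) (g : ℕ → ℕ) : ℕ :=
  Nat.rec 0 (fun i r => Nat.add (Nat.shiftLeft (g i) (Nat.mul 16 i)) r) n

/-- The index of an unordered pair. -/
def px (i j : ℕ) : ℕ :=
  bif Nat.ble i j then Nat.add (Nat.mul 16 j) i else Nat.add (Nat.mul 16 i) j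

/-- What is known on the vertices `0, ..., n - 1` of a window. -/
structure K where
  /-- number of vertices -/
  n : ℕ
  /-- in `Q` -/
  lq : ℕ
  /-- in `T` -/
  lt : ℕ
  /-- doors -/
  dy : ℕ
  /-- in `Q` and not doors -/
  dn : ℕ
  /-- lower bounds for the degree -/
  lo : ℕ
  /-- exact degrees, zero if unknown -/
  ex : ℕ
  /-- pairs: `0` unknown, `1` no edge, `2` hard, `3` forced, `4` an edge -/
  pr : ℕ
  /-- pairs with no common neighbour outside the window -/
  fb : ℕ
  /-- the window contains `Q` and `T` -/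
  al : Bool

namespace K

variable (k : K)

/-- The status of a pair. -/
def P (i j : ℕ) : ℕ := dig k.pr (px i j)

/-- Known to be adjacent. -/
def aj (i j : ℕ) : Bool := !Nat.beq i j && Nat.ble 2 (k.P i j)

/-- The known neighbours. -/
def nm (i : ℕ) : ℕ := msk k.n (k.aj i)

/-- All neighbours (in `Q`, for a vertex of `T`) are known. -/
def cl (i : ℕ) : Bool :=
  (tb k.lq i && Nat.beq (pc k.n (k.nm i)) (dig k.ex i) && nz (dig k.ex i)) ||
    (tb k.lt i && Nat.beq (Nat.add 2 (pc k.n (Nat.land (k.nm i) k.lq))) (dig k.ex i))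

/-- The status of a pair, using closed vertices. -/
def eP (i j : ℕ) : ℕ :=
  bif Nat.beq (k.P i j) 0 && (tb k.lq i || tb k.lq j) && (k.cl i || k.cl j) then 1 else k.P i j

/-- A lower bound for the degree. -/
def lb (m : Md) (i : ℕ) : ℕ :=
  max (max 3 (dig k.lo i)) (max (bif m.big && tb k.dn i then 4 else 0)
    (bif tb k.lq i then pc k.n (k.nm i) else
      bif tb k.lt i then Nat.add 2 (pc k.n (Nat.land (k.nm i) k.lq)) else
        pc k.n (Nat.land (k.nm i) k.lq)))

/-- A lower bound for the degree, using the exact degree. -/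
def el (m : Md) (i : ℕ) : ℕ := max (k.lb m i) (dig k.ex i)

/-- Not a vertex of `T` with a single neighbour in `Q`. -/
def np (m : Md) (i : ℕ) : Bool :=
  tb k.lq i || Nat.ble 4 (k.el m i) || Nat.ble 2 (pc k.n (Nat.land (k.nm i) k.lq))

/-- No common neighbour outside the window. -/
def F (i j : ℕ) : Bool := tb k.fb (px i j)

/-- Set the status of a pair. -/
def sP (i j d : ℕ) : K := { k with pr := sdg k.pr (px i j) d }

/-- A new vertex with nothing known. -/
def fresh : Bool :=
  Nat.ble k.n 14 && !k.al && !tb k.lq k.n && !tb k.lt k.n && !tb k.dy k.n && !tb k.dn k.n &&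
    Nat.beq (dig k.lo k.n) 0 && Nat.beq (dig k.ex k.n) 0 &&
    allB k.n fun i => Nat.beq (k.P i k.n) 0 && !k.F i k.n

/-- Add a vertex adjacent to `i`. -/
def add (i : ℕ) : K := { k.sP i k.n 4 with n := Nat.succ k.n }

end K

/-- Tables for a window with terminals `0, ..., s - 1`. -/
structure Pre where
  /-- number of vertices -/
  n : ℕ
  /-- number of terminals -/
  s : ℕ
  /-- known neighbours -/
  ha : ℕ
  /-- pairs with known status -/
  kn : ℕ
  /-- pairs without a common neighbour outside -/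
  fb : ℕ
  /-- in `Q` -/
  lq : ℕ
  /-- in `T` -/
  lt : ℕ
  /-- not doors -/
  dn : ℕ
  /-- closed -/
  cl : ℕ
  /-- degree at least four -/
  d4 : ℕ
  /-- degree at least five -/
  d5 : ℕ
  /-- the window contains `Q` and `T` -/
  al : Bool

/-- The tables of a configuration. -/
def mkPre {β : Type} (m : Md) (k : K) (s : ℕ) (c : Pre → β) : β :=
  frc (pk k.n k.nm) fun ha =>
  frc (pk k.n fun i => msk k.n fun j => nz (k.eP i j)) fun kn =>
  frc (pk k.n fun i => msk k.n fun j => !Nat.beq i j && k.F i j) fun fb =>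
  frc (msk k.n k.cl) fun cl =>
  frc (msk k.n fun i => Nat.ble 4 (k.el m i)) fun d4 =>
  frc (msk k.n fun i => Nat.ble 5 (k.el m i)) fun d5 =>
  c ⟨k.n, s, ha, kn, fb, k.lq, k.lt, k.dn, cl, d4, d5, k.al && !m.wm⟩

/-- The set contains a pair without a common neighbour outside. -/
def Pre.hf (p : Pre) (U : ℕ) : Bool := anyB p.s fun a => tb U a && nz (Nat.land (fld p.fb a) U)

/-- The window part of the candidate set. -/
def cB (p : Pre) (J0 c : ℕ) : ℕ :=
  Nat.lor J0 (Nat.land (df (ful p.n) (ful p.s)) (Nat.shiftRight c 9))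

/-- The window part of the neighbourhood of the candidate set. -/
def cU (p : Pre) (J1 JS : ℕ) (z : Bool) (J0 B : ℕ) : ℕ :=
  df (Nat.lor (Nat.lor (bif z then df (Nat.lor J1 JS) p.cl else 0)
    (un p.s J0 fun a => df (Nat.lor J1 JS) (fld p.kn a))) (un p.n B (fld p.ha))) B

/-- The candidate `c` contradicts the labelling. -/
def tryC (m : Md) (p : Pre) (J1 J2 JS o1 o rd np nd c : ℕ) : Bool :=
  let z := tb c 0
  frc (Nat.land J1 (Nat.shiftRight c 1)) fun J0 =>
  frc (cB p J0 c) fun B =>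
  let opn := nz (df J0 p.cl)
  (bif z then nz o1 else nz B && (Nat.ble o1 1 || !opn)) &&
  frc (cU p J1 JS z J0 B) fun U =>
  frc (Nat.add (pc p.n U) (bif z then o else bif opn then Nat.sub (Nat.add o o1) rd else 0)) fun u =>
  frc (Nat.add (pc p.n B) (bif z then o1 else 0)) fun b =>
  Nat.ble u 2 ||
  (!z && Nat.beq b 1 &&
    ((nz (Nat.land B p.d4) && Nat.ble u 3) || (nz (Nat.land B p.d5) && Nat.ble u 4))) ||
  (Nat.ble 2 b && Nat.ble u 3 &&
    (frc (df (df (ful p.n) B) U) (fun C => nz (Nat.land C np) || Nat.ble 4 (pc p.n C)) ||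
      nz (Nat.land U nd) || (nz o1 && !z && !opn) ||
      (m.q0 && (!z || Nat.ble o1 1) && Nat.ble b 2) || (m.wm && p.hf U) ||
      ((m.q0 || m.wm) && anyB p.n fun y => tb U y && tb np y &&
        Nat.ble (Nat.add (pc p.n (Nat.land (fld p.ha y) B))
          (bif Nat.ble p.s y || tb J2 y then 0 else
            Nat.add (pc p.s (df J0 (fld p.kn y))) (bif z && !tb p.cl y then o1 else 0))) 1)))

/-- The labelling of the terminals is impossible. -/
def imp (m : Md) (p : Pre) (cs : List ℕ) (J1 JS o1 o' : ℕ) : Bool :=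
  nz (Nat.land J1 p.lt) || (p.al && nz o1) ||
  frc (bif p.al then 0 else o') fun o =>
  frc (Nat.lor (Nat.lor (df (ful p.n) (ful p.s)) p.lq) J1) fun Qk =>
  frc (Nat.lor (Nat.lor Qk p.d4)
    (msk p.s fun a => Nat.ble 2 (pc p.n (Nat.land (fld p.ha a) Qk)))) fun np =>
  frc (Nat.lor p.dn (msk p.n fun y => Nat.ble p.s y && !nz (df (fld p.ha y) np))) fun nd =>
  frc (df (Nat.lor J1 JS) p.cl) fun X =>
  frc (Nat.add o (bif p.hf X then Nat.pred (pc p.s X) else pc p.s X)) fun u =>
  let one := Nat.beq o1 1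
  let r := one && m.big && !m.wm && Nat.ble u 3 && !nz (df (df JS np) p.cl)
  (one && Nat.ble u 2) || (r && Nat.beq o 0) ||
    cs.any (tryC m p J1 (df (df (ful p.s) J1) JS) JS o1 o (bif r then 1 else 0) np nd)

/-- A column: a replacement of the window. -/
structure Col where
  /-- number of inner vertices -/
  ni : ℕ
  /-- whether `b` is merged into `a` -/
  mg : Bool
  /-- first vertex -/
  a : ℕ
  /-- second vertex -/
  b : ℕ
  /-- apex for the rule on triangles, zero if not used -/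
  r : ℕ
  /-- the types of the pairs -/
  ct : ℕ
  /-- the coefficient -/
  cf : List ℕ

/-- The type of a pair in a column. -/
def ty (ct i j : ℕ) : ℕ := dig ct (px i j)

/-- The neighbours in a column before the merge. -/
def cak (w : ℕ) (c : Col) : ℕ := pk w fun i => msk w fun j => !Nat.beq i j && nz (ty c.ct i j)

/-- The neighbours in a column after the merge. -/
def cmk (w : ℕ) (c : Col) (ca : ℕ) : ℕ :=
  bif c.mg then pk w fun i =>
    frc (bif Nat.beq i c.a then Nat.lor (fld ca c.a) (fld ca c.b) else fld ca i) fun M =>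
      df (bif tb M c.b then Nat.lor (df M (bt c.b)) (bt c.a) else M) (bt i) else ca

/-- All labellings that come from a small cut of the column are impossible. -/
def cutsOk (m : Md) (p : Pre) (cs : List ℕ) (c : Col) : Bool :=
  frc (Nat.add p.s c.ni) fun w =>
  frc (bif c.mg then df (ful w) (bt c.b) else ful w) fun W =>
  frc (cak w c) fun ca => frc (cmk w c ca) fun cm =>
  let pre := fun M : ℕ => bif c.mg && tb M c.a then Nat.lor M (bt c.b) else M
  allB (bt w) fun A => nz (df A W) ||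
    frc (df (un w A (fld cm)) A) fun NA => Nat.ble 3 (pc w NA) ||
      frc (df (df (Nat.land W (ful p.s)) A) NA) fun R =>
      frc (pre (Nat.land A (ful p.s))) fun J1 =>
      allB (bt p.s) fun X => nz (df X R) ||
        frc (pc w (Nat.lor NA X)) fun t => Nat.ble 3 t ||
          frc (pre (Nat.land (Nat.lor NA X) (ful p.s))) fun JS =>
          frc (Nat.sub 2 t) fun o =>
          (!nz A || imp m p cs J1 JS 0 o) && imp m p cs J1 JS 1 o && imp m p cs J1 JS 2 o

/-- The pair may carry a forced edge in the column. -/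
def pf (p : Pre) (ct i j : ℕ) : Bool :=
  Nat.beq (ty ct i j) 2 ||
    (Nat.beq (ty ct i j) 0 && Nat.blt i p.s && Nat.blt j p.s && !tb (fld p.kn i) j)

/-- The types in the column are meaningful. -/
def typOk (p : Pre) (c : Col) : Bool :=
  Nat.ble (Nat.add p.s c.ni) p.n &&
  (allB (Nat.add p.s c.ni) fun i => allB i fun j => Nat.ble (ty c.ct i j) 2 &&
    (Nat.ble p.s i || tb (fld p.kn i) j || Nat.ble (ty c.ct i j) 1)) &&
  (!c.mg || (Nat.blt c.a p.s && Nat.blt c.b p.s && !Nat.beq c.a c.b && tb p.lq c.b &&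
    tb (fld p.kn c.a) c.b && tb (fld p.fb c.a) c.b && Nat.beq (ty c.ct c.a c.b) 0 &&
    allB (Nat.add p.s c.ni) fun i => Nat.beq i c.a || Nat.beq i c.b ||
      !(pf p c.ct c.a i && pf p c.ct c.b i)))

/-- The column arises by deleting the base of a triangle with a cubic apex. -/
def triOk (p : Pre) (c : Col) : Bool :=
  !c.mg && Nat.beq (Nat.add p.s c.ni) p.n && Nat.ble p.s c.r && Nat.blt c.r p.n &&
  Nat.blt c.a p.s && Nat.blt c.b p.s && Nat.beq (pc p.n (fld p.ha c.r)) 3 &&
  tb (fld p.ha c.r) c.a && tb (fld p.ha c.r) c.b && tb (fld p.ha c.a) c.b &&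
  tb p.d4 c.a && tb p.d4 c.b &&
  allB p.n fun i => allB i fun j => !tb (fld p.ha i) j || nz (ty c.ct i j) ||
    Nat.beq (px i j) (px c.a c.b)

/-- The column satisfies the conditions of a change inside the region. -/
def chgOk (m : Md) (p : Pre) (cs : List ℕ) (c : Col) : Bool :=
  (allB p.s fun i => allB i fun j =>
    !tb (fld p.ha i) j || tb p.lq i || tb p.lq j || nz (ty c.ct i j)) &&
  (nz c.ni || Nat.ble (bif c.mg then 5 else 4) p.s ||
    (anyB p.s fun i => tb p.lq i && !(c.mg && Nat.beq i c.b)) ||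
    (m.rl && !c.mg && (Nat.ble p.n (Nat.succ p.s) ||
      (Nat.beq p.s 3 && nz (ty c.ct 0 1) && nz (ty c.ct 0 2) && nz (ty c.ct 1 2))))) &&
  cutsOk m p cs c

/-- The number of pairs below `w` with a property. -/
def cp (w : ℕ) (f : ℕ → ℕ → Bool) : ℕ := Nat.rec 0 (fun i r => Nat.add (cnt i (f i)) r) w

/-- Sum of polynomials. -/
def pa : List ℤ → List ℤ → List ℤ
  | [], q => q
  | a :: p, [] => a :: p
  | a :: p, b :: q => Int.add a b :: pa p q

/-- Product with a number. -/
def ps (a : ℤ) (p : List ℤ) : List ℤ := p.map (Int.mul a)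

/-- Product of polynomials. -/
def pm (p q : List ℤ) : List ℤ := p.foldr (fun a r => pa (ps a q) (0 :: r)) []

/-- Product with `(-x) ^ f`. -/
def px2 (f : ℕ) (p : List ℤ) : List ℤ := Nat.rec p (fun _ r => 0 :: ps (-1) r) f

/-- The value of a polynomial. -/
noncomputable def ev (x : ℝ) (p : List ℤ) : ℝ := p.foldr (fun a r => (a : ℝ) + x * r) 0

/-- The factor of vertex `u` with colour `c` against the earlier vertices. -/
def fac (ct cs u c : ℕ) (p : List ℤ) : List ℤ :=
  bif anyB u fun j => Nat.beq (dig cs j) c && Nat.beq (ty ct u j) 1 then [] else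
    px2 (cnt u fun j => Nat.beq (dig cs j) c && Nat.beq (ty ct u j) 2) p

/-- The sum over the colours of `r` further vertices. -/
def loc (ct : ℕ) : ℕ → ℕ → ℕ → ℕ → List ℤ
  | 0, _, _, _ => [1]
  | r + 1, u, cs, d =>
    Nat.rec (pm [1 - (d : ℤ), 1] (loc ct r (u + 1) (sdg cs u d) (d + 1)))
      (fun c q => pa (fac ct cs u c (loc ct r (u + 1) (sdg cs u c) d)) q) d

/-- The value of a window without merging on a partition of the terminals. -/
def val (s ni ct cs d : ℕ) : List ℤ :=
  ps ((-1) ^ ni) (Nat.rec (loc ct ni s cs d) (fun u q => fac ct cs u (dig cs u) q) s)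

/-- The value of a column. -/
def cval (s : ℕ) (c : Col) (cs d : ℕ) : List ℤ :=
  bif c.mg then pa (val s c.ni (sdg c.ct (px c.a c.b) 1) cs d) (ps (-1) (val s c.ni c.ct cs d))
  else val s c.ni c.ct cs d

/-- The partitions of `s` points with the number of blocks. -/
def parts : ℕ → List (ℕ × ℕ)
  | 0 => [(0, 0)]
  | s + 1 => (parts s).flatMap fun p =>
    (List.range (p.2 + 1)).map fun c => (sdg p.1 s c, bif Nat.beq c p.2 then p.2 + 1 else p.2)

/-- The polynomial `∑ c k * (4 x - 1) ^ k * (2 - 4 x) ^ (d - k)`, `d + 1` the length. -/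
def bern : List ℕ → List ℤ × List ℤ
  | [] => ([], [1])
  | c :: l => (pa (ps c (bern l).2) (pm [-1, 4] (bern l).1), pm [2, -4] (bern l).2)

/-- The types of the window itself. -/
def K.ct (k : K) : ℕ :=
  Nat.rec 0 (fun i r => Nat.rec r (fun j t => sdg t (px i j) (Nat.pred (k.eP i j))) i) k.n

/-- A certificate. -/
structure Cert where
  /-- number of terminals -/
  s : ℕ
  /-- the coefficient of the window -/
  D : List ℕ
  /-- candidates -/
  cs : List ℕ
  /-- columns -/
  cols : List Col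

/-- The identity between the window and the columns. -/
def idOk (k : K) (c : Cert) : Bool :=
  frc k.ct fun h => (parts c.s).all fun p => frc p.1 fun cs => frc p.2 fun d =>
    (c.cols.foldr (fun g r => pa (pm (bern g.cf).1 (cval c.s g cs d)) r)
      (pm (ps (-1) (bern c.D).1) (val c.s (Nat.sub k.n c.s) h cs d))).all fun a => a == 0

/-- The number of edges of a column. -/
def Col.ne (s : ℕ) (c : Col) : ℕ := cp (Nat.add s c.ni) fun i j => nz (ty c.ct i j)

/-- The number of hard edges of a column. -/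
def Col.nh (s : ℕ) (c : Col) : ℕ := cp (Nat.add s c.ni) fun i j => Nat.beq (ty c.ct i j) 1

/-- The scaled weight of a column, zero if it has fewer edges. -/
def Col.w (s nI e h : ℕ) (c : Col) : ℕ :=
  bif Nat.blt (c.ne s) e then 0 else
    9 ^ (30 + (c.ni + h) - (nI + c.nh s)) * 8 ^ (30 + (nI + c.nh s) - (c.ni + h))

/-- The sizes and the weights are in order. -/
def szOk (p : Pre) (k : K) (c : Cert) : Bool :=
  frc k.ct fun t => frc (cp k.n fun i j => nz (ty t i j)) fun e =>
  frc (cp k.n fun i j => Nat.beq (ty t i j) 1) fun h => frc (Nat.sub k.n c.s) fun nI =>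
  Nat.ble (Nat.add e nI) 30 && Nat.ble nI 5 &&
  (c.cols.all fun g => Nat.beq g.cf.length c.D.length && (Nat.blt (g.ne c.s) e ||
    (Nat.beq (g.ne c.s) e && !g.mg &&
      allB c.s fun i => allB i fun j => tb (fld p.kn i) j || Nat.beq (ty g.ct i j) 0))) &&
  (allB c.D.length fun t =>
    frc (c.cols.foldr (fun g r => g.w c.s nI e h * g.cf.getD t 0 + r) 0) fun S =>
      bif Nat.beq t 0 || Nat.beq (Nat.succ t) c.D.length then
        Nat.blt S (72 ^ 30 * c.D.getD t 0) &&
          c.cols.any fun g => Nat.blt (g.ne c.s) e && nz (g.cf.getD t 0)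
      else Nat.ble S (72 ^ 30 * c.D.getD t 0)) &&
  nz c.D.length

/-- The vertices from `s` on are closed vertices of `Q` and all known edges have a type. -/
def strOk (k : K) (s : ℕ) : Bool :=
  Nat.ble k.n 8 && Nat.ble s 7 && Nat.ble s k.n &&
  allB k.n fun i => (Nat.blt i s || (tb k.lq i && k.cl i)) &&
    allB i fun j => Nat.ble (k.eP i j) 3

/-- The certificate is in order; if `ex` holds, columns with `r = 99` are not tested. -/
def certEx (ex : Bool) (m : Md) (k : K) (c : Cert) : Bool :=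
  (m.rl || m.wm) && strOk k c.s &&
  (mkPre m k c.s fun p => szOk p k c && c.cols.all fun g => typOk p g &&
    (bif Nat.beq g.r 99 then ex else bif nz g.r then triOk p g else chgOk m p c.cs g)) &&
  idOk k c

/-- The certificate shows that the configuration is reducible. -/
def certOk (m : Md) (k : K) (c : Cert) : Bool := certEx false m k c

/-- The whole graph is known and its value is positive. -/
def baseOk (k : K) (D : List ℕ) (t : ℕ) : Bool :=
  Nat.ble 1 k.n && Nat.ble k.n 7 &&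
  (allB k.n fun i => tb k.lq i && k.cl i && allB i fun j => Nat.ble (k.eP i j) 3) &&
  nz t && nz (D.getD 0 0) && nz (D.getD (Nat.pred D.length) 0) &&
  (pa (ps (-1) (bern D).1) (ps t (val 0 k.n k.ct 0 0))).all fun a => a == 0

/-- The contradiction rules. -/
def conOk (m : Md) (k : K) (r i : ℕ) : Bool :=
  match r with
  | 0 => Nat.blt i k.n && nz (dig k.ex i) && Nat.blt (dig k.ex i) (k.lb m i)
  | 1 => Nat.blt i k.n && k.al && !m.wm &&
    ((tb k.lq i && Nat.blt (cnt k.n fun j => !Nat.beq i j && !Nat.beq (k.eP i j) 1) (k.el m i)) ||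
      (tb k.lt i && Nat.blt (Nat.add 2 (cnt k.n fun j =>
        !Nat.beq i j && !tb k.lt j && !Nat.beq (k.eP i j) 1)) (k.el m i)))
  | 2 => Nat.blt i k.n && tb k.dn i &&
    anyB k.n fun j => k.aj i j && tb k.lt j && Nat.beq (dig k.ex j) 3
  | 3 => Nat.blt i k.n && tb k.dy i && tb k.lq i && k.cl i &&
    allB k.n fun j => !k.aj i j || k.np m j
  | 4 => Nat.blt i k.n && tb k.lq i &&
    Nat.ble 2 (cnt k.n fun j => k.aj i j && tb k.lt j && Nat.beq (dig k.ex j) 3)
  | 5 => !m.wm && Nat.ble 4 (Nat.add (pc k.n k.lt) (cnt k.n fun j => tb k.dy j &&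
    allB k.n fun l => Nat.beq j l || Nat.beq (k.eP j l) 1 || k.np m l))
  | 6 => m.q0 && Nat.blt i k.n && k.cl i &&
    ((tb k.dy i && tb k.lq i) || (tb k.lt i && Nat.ble 4 (dig k.ex i))) &&
    Nat.ble (cnt k.n fun j => k.aj i j && !tb k.lt j && !tb k.dy j) 1
  | 7 => m.rl && nz i && !nz (df i (ful k.n)) &&
    (allB k.n fun j => !tb i j || (tb k.lq j && k.cl j)) &&
    frc (df (un k.n i k.nm) i) fun U => Nat.ble (pc k.n U) 2 ||
      (Nat.ble 2 (pc k.n i) && Nat.ble (pc k.n U) 3 &&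
        ((m.q0 && Nat.ble (pc k.n i) 2) || nz (Nat.land U k.dn) ||
          Nat.ble 4 (pc k.n (df (df (ful k.n) i) U)) ||
          anyB k.n fun j => !tb i j && !tb U j && k.np m j))
  | 8 => m.fr && anyB k.n fun a => tb k.lt a || tb k.dy a ||
    anyB a fun b => Nat.beq (k.P a b) 3 || (k.aj a b && nz (Nat.land (k.nm a) (k.nm b)))
  | 9 => m.fr && nz i && !nz (df i (ful k.n)) &&
    (allB k.n fun j => !tb i j || (tb k.lq j && k.cl j)) &&
    frc (df (un k.n i k.nm) i) fun U => frc (pc k.n (df (df (ful k.n) i) U)) fun c =>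
      (Nat.ble (pc k.n U) 2 && nz c) ||
        (Nat.ble 2 (pc k.n i) && Nat.ble (pc k.n U) 3 && Nat.ble 2 c)
  | 10 => m.nf && k.al && anyB k.n fun a => anyB a fun b => k.aj a b &&
    tb k.lq a && tb k.lq b && Nat.beq (dig k.ex a) 3 && Nat.beq (dig k.ex b) 3 &&
    allB k.n fun j => Nat.beq j a || Nat.beq j b || tb k.lt j
  | 11 => (m.nf && Nat.ble 3 (pc k.n k.dn)) || (!m.wm && Nat.ble 4 (pc k.n k.dy))
  | 12 => m.rl && k.al && (Nat.ble (cnt k.n fun j => !tb k.lq j) 2 ||
    Nat.ble (cnt k.n fun j => !tb k.lt j) 1)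
  | 13 => Nat.blt i k.n && !m.wm && k.al && tb k.dy i &&
    allB k.n fun l => Nat.beq i l || Nat.beq (k.eP i l) 1 || k.np m l
  | 14 => m.rl && Nat.blt i k.n && tb k.dy i && (m.q0 || Nat.ble 3 (pc k.n k.lq)) &&
    Nat.ble 2 (pc k.n (Nat.land (k.nm i) k.lt))
  | 15 => m.rl && Nat.blt i k.n && tb k.dy i && (m.q0 || Nat.ble 4 (pc k.n k.lq)) &&
    nz (Nat.land (k.nm i) k.dy)
  | _ => false

/-- Digit `i` in base sixteen. -/
def hx (m i : ℕ) : ℕ := Nat.mod (Nat.shiftRight m (Nat.mul 4 i)) 16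

/-- The configuration `k'` occurs in `k` along `σ`. -/
def subOk (m : Md) (k k' : K) (σ : ℕ) : Bool :=
  Nat.ble k'.n 15 && (!k'.al || (k.al && Nat.beq k'.n k.n)) &&
  allB k'.n fun i => frc (hx σ i) fun a => Nat.blt a k.n &&
    (!tb k'.lq i || tb k.lq a) && (!tb k'.lt i || tb k.lt a) && (!tb k'.dy i || tb k.dy a) &&
    (!tb k'.dn i || tb k.dn a) && Nat.ble (dig k'.lo i) (k.el m a) &&
    (Nat.beq (dig k'.ex i) 0 || Nat.beq (dig k'.ex i) (dig k.ex a)) &&
    allB i fun j => frc (hx σ j) fun b => !Nat.beq a b &&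
      (Nat.beq (k'.P i j) 0 || Nat.beq (k'.P i j) (k.eP a b) ||
        (Nat.beq (k'.P i j) 4 && k.aj a b)) &&
      (!k'.F i j || (k.F a b && allB k.n fun z => (anyB k'.n fun l => Nat.beq (hx σ l) z) ||
        Nat.beq (k.eP a z) 1 || Nat.beq (k.eP b z) 1))

/-- The kind `m` has all properties of the kind `m'`. -/
def Md.le (m' m : Md) : Bool :=
  (m'.rl == m.rl) && (m'.wm == m.wm) && (!m'.q0 || m.q0) && (!m'.big || m.big) &&
    (!m'.nf || m.nf) && (!m'.fr || m.fr)

/-- The kind of the frame of a cubic vertex. -/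
def mdW : Md := ⟨false, true, false, false, false, false⟩

/-- A table of configurations. -/
inductive BT where
  | lf : Md → K → BT
  | nd : BT → BT → BT

/-- Entry `j` of a table. -/
def BT.get : BT → ℕ → Md × K
  | .lf m k, _ => (m, k)
  | .nd a b, j => bif tb j 0 then b.get (Nat.shiftRight j 1) else a.get (Nat.shiftRight j 1)

/-- Case trees. -/
inductive Tr where
  | con : ℕ → ℕ → Tr
  | ref : ℕ → ℕ → Tr
  | rfw : ℕ → ℕ → ℕ → Tr
  | cert : Cert → Tr
  | base : List ℕ → ℕ → Tr
  | loc : ℕ → Tr → Tr → Tr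
  | door : ℕ → Tr → Tr → Tr
  | deg : ℕ → Tr → Tr → Tr
  | adj : ℕ → ℕ → Tr → Tr → Tr
  | typ : ℕ → ℕ → Tr → Tr → Tr
  | fbd : ℕ → ℕ → Tr → Tr → Tr
  | exp : ℕ → Tr → Tr
  | prm : ℕ → Tr → Tr
  | alx : Tr → Tr → Tr

/-- Evaluate the fields of a configuration. -/
def K.frc {β : Type} (k : K) (c : K → β) : β :=
  H.frc k.n fun n => H.frc k.lq fun lq => H.frc k.lt fun lt => H.frc k.dy fun dy =>
  H.frc k.dn fun dn => H.frc k.lo fun lo => H.frc k.ex fun ex => H.frc k.pr fun pr =>
  H.frc k.fb fun fb => c ⟨n, lq, lt, dy, dn, lo, ex, pr, fb, k.al⟩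

/-- The tree shows that the configuration is reducible, given the first `N` entries of `L`. -/
def chk (L : BT) (N : ℕ) (m : Md) : Tr → K → Bool
  | .con r i, k => conOk m k r i
  | .ref j σ, k => Nat.blt j N && (L.get j).1.le m && subOk m k (L.get j).2 σ
  | .rfw j σ z, k => Nat.blt j N && m.fr && !m.wm && (L.get j).1.le mdW &&
    !(L.get j).2.al && Nat.beq (L.get j).2.dy 0 && Nat.beq (L.get j).2.dn 0 &&
    Nat.blt z k.n && tb k.lq z && Nat.beq (dig k.ex z) 3 &&
    (allB (L.get j).2.n fun l => !Nat.beq (hx σ l) z) && subOk m k (L.get j).2 σ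
  | .cert c, k => certOk m k c
  | .base D t, k => baseOk k D t
  | .loc i a b, k => Nat.blt i k.n &&
    (K.frc { k with lq := Nat.lor k.lq (bt i) } fun k => chk L N m a k) &&
    K.frc { k with lt := Nat.lor k.lt (bt i) } fun k => chk L N m b k
  | .door i a b, k => Nat.blt i k.n && tb k.lq i &&
    (K.frc { k with dy := Nat.lor k.dy (bt i) } fun k => chk L N m a k) &&
    K.frc { k with dn := Nat.lor k.dn (bt i) } fun k => chk L N m b k
  | .deg i a b, k => Nat.blt i k.n && Nat.ble (k.el m i) 6 &&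
    (K.frc { k with ex := sdg k.ex i (k.el m i) } fun k => chk L N m a k) &&
    K.frc { k with lo := sdg k.lo i (Nat.succ (k.el m i)) } fun k => chk L N m b k
  | .adj i j a b, k => Nat.blt i k.n && Nat.blt j k.n && !Nat.beq i j && Nat.ble k.n 16 &&
    (K.frc (k.sP i j 1) fun k => chk L N m a k) && K.frc (k.sP i j 4) fun k => chk L N m b k
  | .typ i j a b, k => Nat.blt i k.n && Nat.blt j k.n && k.aj i j && Nat.ble k.n 16 &&
    (K.frc (k.sP i j 2) fun k => chk L N m a k) && K.frc (k.sP i j 3) fun k => chk L N m b k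
  | .fbd i j a b, k => Nat.blt i k.n && Nat.blt j k.n && !Nat.beq i j && !m.wm && k.fresh &&
    (tb k.lq i || tb k.lq j) &&
    (K.frc { k with fb := Nat.lor k.fb (bt (px i j)) } fun k => chk L N m a k) &&
    K.frc ((k.sP j k.n 4).add i) fun k => chk L N m b k
  | .exp i a, k => Nat.blt i k.n && !m.wm && k.fresh && tb k.lq i &&
    Nat.blt (cnt k.n fun j => !Nat.beq i j && !Nat.beq (k.eP i j) 1) (k.el m i) &&
    K.frc (k.add i) fun k => chk L N m a k
  | .prm i a, k => Nat.blt i k.n && !m.wm && k.fresh && tb k.dy i &&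
    (allB k.n fun l => Nat.beq i l || Nat.beq (k.eP i l) 1 || k.np m l) &&
    K.frc { k.add i with lt := Nat.lor k.lt (bt k.n), ex := sdg k.ex k.n 3 } fun k => chk L N m a k
  | .alx a b, k => k.fresh && chk L N m a { k with al := true } &&
    K.frc { k with n := Nat.succ k.n } fun k => chk L N m b k

/-- The entries `N, N + 1, ...` are reducible by the listed trees. -/
def chkL (L : BT) : List Tr → ℕ → Bool
  | [], _ => true
  | t :: ts, N => chk L N (L.get N).1 t (L.get N).2 && frc (Nat.succ N) fun M => chkL L ts M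

variable {α : Type} [Fintype α] [DecidableEq α]

/-- The vertices `v i` satisfy the configuration. -/
structure Sat (k : K) (V : Finset α) (τ : Sym2 α → Fin 3) (E : Env α) (v : ℕ → α) : Prop where
  inj : ∀ i < k.n, ∀ j < k.n, v i = v j → i = j
  mem : ∀ i < k.n, v i ∈ E.Q ∨ v i ∈ E.T
  lq : ∀ i < k.n, tb k.lq i = true → v i ∈ E.Q
  lt : ∀ i < k.n, tb k.lt i = true → v i ∈ E.T
  dy : ∀ i < k.n, tb k.dy i = true → v i ∈ E.Dr
  dn : ∀ i < k.n, tb k.dn i = true → v i ∈ E.Q ∧ v i ∉ E.Dr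
  lo : ∀ i < k.n, dig k.lo i ≤ ds V τ E (v i)
  ex : ∀ i < k.n, dig k.ex i ≠ 0 → ds V τ E (v i) = dig k.ex i
  pr : ∀ i < k.n, ∀ j < k.n, i ≠ j → (k.P i j = 1 → τ s(v i, v j) = 0) ∧
    (k.P i j = 2 → τ s(v i, v j) = 1) ∧ (k.P i j = 3 → τ s(v i, v j) = 2) ∧
    (2 ≤ k.P i j → τ s(v i, v j) ≠ 0)
  fb : ∀ i < k.n, ∀ j < k.n, i ≠ j → k.F i j = true → ∀ z ∈ nb V τ (v i), z ∈ nb V τ (v j) →
    ∃ l < k.n, v l = z
  al : k.al = true → ∀ z, z ∈ E.Q ∨ z ∈ E.T → ∃ l < k.n, v l = z

/-- The facts on a frame, with two more. -/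
structure Ok2 (m : Md) (V : Finset α) (τ : Sym2 α → Fin 3) (E : Env α) : Prop where
  ok : Ok m V τ E
  sm : m.nf = true → (E.Q \ E.Dr).card ≤ 2
  w : m.fr = true → ∀ w ∈ V, dg V τ w = 3 → Ok mdW V τ (envW V τ w)
  q3 : m.q0 = true → 3 ≤ (E.Q \ E.Dr).card
  dt : m.rl = true → 3 ≤ E.Q.card → ∀ d ∈ E.Dr, (nb V τ d ∩ E.T).card ≤ 1
  dd : m.rl = true → 4 ≤ E.Q.card → ∀ d ∈ E.Dr, ∀ d' ∈ E.Dr, d' ∉ nb V τ d

/-- Every graph that contains the configuration is reducible. -/
def Valid (α : Type) [Fintype α] [DecidableEq α] (x : ℝ) (m : Md) (k : K) : Prop :=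
  ∀ (V : Finset α) (τ : Sym2 α → Fin 3) (E : Env α) (v : ℕ → α), Ok2 m V τ E → Sat k V τ E v →
    Red x V τ

end Pool.Agent.Lib.MP_efe3d7_co.H
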