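import Pool.Agent.Lib.MP_efe3d7_co.H.Chk

set_option autoImplicit false

/-! One shared copy of some automatically generated unfolding lemmas. -/

theorem Pool.Agent.Lib.MP_efe3d7_co.H.conOk_eq1Shared : type_of% @Pool.Agent.Lib.MP_efe3d7_co.H.conOk.eq_1 :=
  @Pool.Agent.Lib.MP_efe3d7_co.H.conOk.eq_1

theorem Pool.Agent.Lib.MP_efe3d7_co.H.conOk_eq2Shared : type_of% @Pool.Agent.Lib.MP_efe3d7_co.H.conOk.eq_2 :=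
  @Pool.Agent.Lib.MP_efe3d7_co.H.conOk.eq_2

theorem Pool.Agent.Lib.MP_efe3d7_co.H.conOk_eq3Shared : type_of% @Pool.Agent.Lib.MP_efe3d7_co.H.conOk.eq_3 :=
  @Pool.Agent.Lib.MP_efe3d7_co.H.conOk.eq_3

theorem Pool.Agent.Lib.MP_efe3d7_co.H.conOk_eq4Shared : type_of% @Pool.Agent.Lib.MP_efe3d7_co.H.conOk.eq_4 :=
  @Pool.Agent.Lib.MP_efe3d7_co.H.conOk.eq_4

theorem Pool.Agent.Lib.MP_efe3d7_co.H.conOk_eq5Shared : type_of% @Pool.Agent.Lib.MP_efe3d7_co.H.conOk.eq_5 :=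
  @Pool.Agent.Lib.MP_efe3d7_co.H.conOk.eq_5

theorem Pool.Agent.Lib.MP_efe3d7_co.H.conOk_eq6Shared : type_of% @Pool.Agent.Lib.MP_efe3d7_co.H.conOk.eq_6 :=
  @Pool.Agent.Lib.MP_efe3d7_co.H.conOk.eq_6

theorem Pool.Agent.Lib.MP_efe3d7_co.H.conOk_eq7Shared : type_of% @Pool.Agent.Lib.MP_efe3d7_co.H.conOk.eq_7 :=
  @Pool.Agent.Lib.MP_efe3d7_co.H.conOk.eq_7

theorem Pool.Agent.Lib.MP_efe3d7_co.H.conOk_eq8Shared : type_of% @Pool.Agent.Lib.MP_efe3d7_co.H.conOk.eq_8 :=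
  @Pool.Agent.Lib.MP_efe3d7_co.H.conOk.eq_8

theorem Pool.Agent.Lib.MP_efe3d7_co.H.conOk_eq9Shared : type_of% @Pool.Agent.Lib.MP_efe3d7_co.H.conOk.eq_9 :=
  @Pool.Agent.Lib.MP_efe3d7_co.H.conOk.eq_9

theorem Pool.Agent.Lib.MP_efe3d7_co.H.conOk_eq10Shared : type_of% @Pool.Agent.Lib.MP_efe3d7_co.H.conOk.eq_10 :=
  @Pool.Agent.Lib.MP_efe3d7_co.H.conOk.eq_10

theorem Pool.Agent.Lib.MP_efe3d7_co.H.conOk_eq11Shared : type_of% @Pool.Agent.Lib.MP_efe3d7_co.H.conOk.eq_11 :=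
  @Pool.Agent.Lib.MP_efe3d7_co.H.conOk.eq_11

theorem Pool.Agent.Lib.MP_efe3d7_co.H.conOk_eq12Shared : type_of% @Pool.Agent.Lib.MP_efe3d7_co.H.conOk.eq_12 :=
  @Pool.Agent.Lib.MP_efe3d7_co.H.conOk.eq_12

theorem Pool.Agent.Lib.MP_efe3d7_co.H.conOk_eq13Shared : type_of% @Pool.Agent.Lib.MP_efe3d7_co.H.conOk.eq_13 :=
  @Pool.Agent.Lib.MP_efe3d7_co.H.conOk.eq_13

theorem Pool.Agent.Lib.MP_efe3d7_co.H.conOk_eq14Shared : type_of% @Pool.Agent.Lib.MP_efe3d7_co.H.conOk.eq_14 :=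
  @Pool.Agent.Lib.MP_efe3d7_co.H.conOk.eq_14

theorem Pool.Agent.Lib.MP_efe3d7_co.H.conOk_eq15Shared : type_of% @Pool.Agent.Lib.MP_efe3d7_co.H.conOk.eq_15 :=
  @Pool.Agent.Lib.MP_efe3d7_co.H.conOk.eq_15

theorem Pool.Agent.Lib.MP_efe3d7_co.H.conOk_eq16Shared : type_of% @Pool.Agent.Lib.MP_efe3d7_co.H.conOk.eq_16 :=
  @Pool.Agent.Lib.MP_efe3d7_co.H.conOk.eq_16

theorem Pool.Agent.Lib.MP_efe3d7_co.H.conOk_eq17Shared : type_of% @Pool.Agent.Lib.MP_efe3d7_co.H.conOk.eq_17 :=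
  @Pool.Agent.Lib.MP_efe3d7_co.H.conOk.eq_17
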