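import Pool.Agent.Lib.MP_efe3d7_co.H.Bas

/-! Columns exist. -/

set_option autoImplicit false

open Finset

namespace Pool.Agent.Lib.MP_efe3d7_co.H

variable {α : Type} [Fintype α] [DecidableEq α]

variable {m : Md} {p : Pre} {k : K} {V : Finset α} {τ : Sym2 α → Fin 3} {E : Env α} {v : ℕ → α}

theorem typ_tyB (hP : PS m p V τ E v) {g : Col} (h : typOk p g = true) : TyB p g.ni g.ct := by
  simp only [typOk, Bool.and_eq_true, Bool.or_eq_true, allB_iff, Nat.ble_eq, Nat.add_eq] at h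
  obtain ⟨⟨h1, h2⟩, -⟩ := h
  have key : ∀ i < p.s + g.ni, ∀ j < i,
      ty g.ct i j ≤ 2 ∧ (tb (fld p.kn i) j = true ∨ ty g.ct i j ≤ 1) := fun i hi j hj => by
    obtain ⟨h3, (h4 | h4) | h4⟩ := h2 i hi j hj
    · exact ⟨h3, .inl ((hP.int i (by omega) h4).2.2 j (by omega) (by omega))⟩
    · exact ⟨h3, .inl h4⟩
    · exact ⟨h3, .inr h4⟩
  refine ⟨h1, fun i hi j hj hij => ?_⟩
  rcases lt_or_gt_of_ne hij with h3 | h3
  · rw [ty_comm, hP.kns i (by omega) j (by omega)]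
    exact key j hj i h3
  · exact key i hi j h3

theorem colG_ex (hP : PS m p V τ E v) {ni ct : ℕ} (h : TyB p ni ct) :
    ∃ U σ, ColG p ni ct V τ v U σ := by
  classical
  obtain ⟨h1, h2⟩ := h
  let f : ℕ → ℕ → Fin 3 := fun i j => if tb (fld p.kn i) j = true then Fin.ofNat 3 (ty ct i j)
    else if ty ct i j = 1 then 1 else τ s(v i, v j)
  have fs : ∀ i < p.s + ni, ∀ j < p.s + ni, f i j = f j i := fun i hi j hj => by
    simp only [f, hP.kns i (by omega) j (by omega), ty_comm ct i j, Sym2.eq_swap (a := v i)]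
  let Q : Sym2 α → ℕ × ℕ → Prop := fun e q =>
    q.1 < p.s + ni ∧ q.2 < p.s + ni ∧ e = s(v q.1, v q.2)
  refine ⟨V.filter fun z => ∀ i < p.n, v i = z → i < p.s + ni,
    fun e => if h : ∃ q, Q e q then f h.choose.1 h.choose.2 else τ e,
    fun z => mem_filter, fun a b ha => dif_neg ?_, fun i hi j hj hij => ?_⟩
  · rintro ⟨q, q1, q2, q3⟩
    rcases Sym2.eq_iff.1 q3 with q4 | q4
    · exact ha _ (by omega) q4.1.symm
    · exact ha _ (by omega) q4.1.symm
  · have hq : ∃ q, Q s(v i, v j) q := ⟨(i, j), hi, hj, rfl⟩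
    have e : f hq.choose.1 hq.choose.2 = f i j := by
      obtain ⟨q1, q2, q3⟩ := hq.choose_spec
      rcases Sym2.eq_iff.1 q3 with q4 | q4
      · rw [← hP.inj i (by omega) _ (by omega) q4.1, ← hP.inj j (by omega) _ (by omega) q4.2]
      · rw [← hP.inj i (by omega) _ (by omega) q4.1, ← hP.inj j (by omega) _ (by omega) q4.2]
        exact fs j hj i hi
    rw [dif_pos hq, e]
    simp only [f]
    split_ifs
    · exact Nat.mod_eq_of_lt (Nat.lt_succ_of_le (h2 i hi j hj hij).1)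
    · rfl
    · rfl

theorem typ_mg {g : Col} (h : typOk p g = true) (hm : g.mg = true) :
    g.a < p.s ∧ g.b < p.s ∧ g.a ≠ g.b ∧ tb p.lq g.b = true ∧ tb (fld p.kn g.a) g.b = true ∧
      tb (fld p.fb g.a) g.b = true ∧ ty g.ct g.a g.b = 0 ∧
      ∀ i < p.s + g.ni, i ≠ g.a → i ≠ g.b →
        pf p g.ct g.a i = false ∨ pf p g.ct g.b i = false := by
  simp only [typOk, hm, Bool.and_eq_true, Bool.or_eq_true, Bool.not_eq_true', allB_iff,
    Nat.blt_eq, Nat.beq_eq, Nat.add_eq, Bool.not_true, Bool.false_or, Bool.and_eq_false_iff] at h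
  obtain ⟨-, ⟨⟨⟨⟨⟨⟨h1, h2⟩, h3⟩, h4⟩, h5⟩, h6⟩, h7⟩, h8⟩ := h
  exact ⟨h1, h2, Nat.ne_of_beq_eq_false h3, h4, h5, h6, h7, fun i hi ha hb =>
    (h8 i hi).resolve_left fun h => h.elim ha hb⟩

end Pool.Agent.Lib.MP_efe3d7_co.H
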