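import Pool.Agent.Lib.MP_efe3d7_co.H.Bas
import Pool.Agent.Lib.MP_efe3d7_co.H.SemEq

/-! Values of the polynomials of the checker. -/

set_option autoImplicit false

open Finset

namespace Pool.Agent.Lib.MP_efe3d7_co.H

theorem ev_nil (x : ℝ) : ev x [] = 0 := rfl

theorem ev_cons (x : ℝ) (a : ℤ) (p : List ℤ) : ev x (a :: p) = a + x * ev x p := rfl

theorem ev_pa (x : ℝ) (p q : List ℤ) : ev x (pa p q) = ev x p + ev x q := by
  induction p generalizing q with
  | nil => simp [pa, ev_nil]
  | cons a p ih =>
    cases q with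
    | nil => simp [pa, ev_nil]
    | cons b q =>
      rw [pa, ev_cons, ev_cons, ev_cons, ih, Int.add_def, Int.cast_add]
      ring

theorem ev_ps (x : ℝ) (a : ℤ) (p : List ℤ) : ev x (ps a p) = a * ev x p := by
  induction p with
  | nil => simp [ps, ev_nil]
  | cons b p ih =>
    rw [show ps a (b :: p) = (a * b) :: ps a p from rfl, ev_cons, ev_cons, ih, Int.cast_mul]
    ring

theorem ev_pm (x : ℝ) (p q : List ℤ) : ev x (pm p q) = ev x p * ev x q := by
  induction p with
  | nil => simp [pm, ev_nil]
  | cons a p ih =>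
    rw [show pm (a :: p) q = pa (ps a q) (0 :: pm p q) from rfl, ev_pa, ev_ps, ev_cons, ev_cons, ih,
      Int.cast_zero]
    ring

theorem ev_px2 (x : ℝ) (f : ℕ) (p : List ℤ) : ev x (px2 f p) = (-x) ^ f * ev x p := by
  induction f with
  | zero => rw [pow_zero, one_mul]; rfl
  | succ f ih =>
    rw [show px2 (f + 1) p = 0 :: ps (-1) (px2 f p) from rfl, ev_cons, ev_ps, ih]
    push_cast
    ring

theorem ev_zero (x : ℝ) {p : List ℤ} (h : (p.all fun a => a == 0) = true) : ev x p = 0 := by
  induction p with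
  | nil => rfl
  | cons a p ih =>
    rw [List.all_cons, Bool.and_eq_true, beq_iff_eq] at h
    rw [ev_cons, ih h.2, h.1]
    simp

theorem pol_bern (x : ℝ) (l : List ℕ) : ev x (bern l).2 = (2 - 4 * x) ^ l.length := by
  induction l with
  | nil => simp [bern, ev_cons, ev_nil]
  | cons c l ih =>
    rw [show (bern (c :: l)).2 = pm [2, -4] (bern l).2 from rfl, ev_pm, ih, ev_cons, ev_cons,
      ev_nil, List.length_cons]
    push_cast
    ring

theorem ev_bern (x : ℝ) (l : List ℕ) : ev x (bern l).1 =
    ∑ t ∈ range l.length, (l.getD t 0 : ℝ) * ((4 * x - 1) ^ t * (2 - 4 * x) ^ (l.length - 1 - t)) := by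
  induction l with
  | nil => rfl
  | cons c l ih =>
    rw [show (bern (c :: l)).1 = pa (ps c (bern l).2) (pm [-1, 4] (bern l).1) from rfl, ev_pa,
      ev_ps, ev_pm, ih, pol_bern, List.length_cons, sum_range_succ', mul_sum, add_comm]
    congr 1
    · refine sum_congr rfl fun t _ => ?_
      rw [List.getD_cons_succ, show l.length + 1 - 1 - (t + 1) = l.length - 1 - t by omega,
        ev_cons, ev_cons, ev_nil]
      push_cast
      ring
    · simp

theorem ev_fac (x : ℝ) (ct cs u c : ℕ) (p : List ℤ) :
    ev x (fac ct cs u c p) = facR x ct cs u c * ev x p := by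
  unfold fac facR
  cases h : anyB u fun j => Nat.beq (dig cs j) c && Nat.beq (ty ct u j) 1
  · rw [cond_false, ev_px2, cnt_eq, ← prod_const, prod_filter]
    congr 1
    refine prod_congr rfl fun j hj => ?_
    have k : ¬(dig cs j = c ∧ ty ct u j = 1) := fun q => by
      rw [← Bool.not_eq_true, anyB_iff] at h
      exact h ⟨j, mem_range.1 hj, by simpa using q⟩
    simp only [Bool.and_eq_true, Nat.beq_eq, wn]
    by_cases a : dig cs j = c <;> by_cases b : ty ct u j = 2 <;> simp_all
  · obtain ⟨j, hj, q⟩ := (anyB_iff _ _).1 h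
    simp only [Bool.and_eq_true, Nat.beq_eq] at q
    rw [cond_true, ev_nil, prod_eq_zero (mem_range.2 hj) (by simp [q.1, q.2, wn]), zero_mul]

theorem pol_rec (x : ℝ) (b : List ℤ) (g : ℕ → List ℤ) (d : ℕ) :
    ev x (Nat.rec b (fun c q => pa (g c) q) d) = ev x b + ∑ c ∈ range d, ev x (g c) := by
  induction d with
  | zero => simp
  | succ d ih =>
    show ev x (pa (g d) _) = _
    rw [ev_pa, ih, sum_range_succ]
    ring

theorem ev_loc (x : ℝ) (ct r u cs d : ℕ) :
    ev x (loc ct r u cs d) = (locP x ct r u cs d).eval (1 + x) := by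
  induction r generalizing u cs d with
  | zero => simp [loc, locP, ev_cons, ev_nil]
  | succ r ih =>
    rw [loc, locP, pol_rec, ev_pm, ih, Polynomial.eval_add, Polynomial.eval_mul,
      Polynomial.eval_finsetSum, ev_cons, ev_cons, ev_nil]
    congr 1
    · simp only [Polynomial.eval_sub, Polynomial.eval_X, Polynomial.eval_C]
      push_cast
      ring
    · refine sum_congr rfl fun c _ => ?_
      rw [ev_fac, ih, Polynomial.eval_mul, Polynomial.eval_C]

theorem ev_val (x : ℝ) (s ni ct cs d : ℕ) : ev x (val s ni ct cs d) =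
    (-1) ^ ni * ((∏ u ∈ range s, facR x ct cs u (dig cs u)) *
      (locP x ct ni s cs d).eval (1 + x)) := by
  rw [val, ev_ps, ← ev_loc]
  push_cast
  congr 1
  generalize loc ct ni s cs d = b
  induction s with
  | zero => simp
  | succ s ih =>
    show ev x (fac ct cs s (dig cs s) _) = _
    rw [ev_fac, ih, prod_range_succ]
    ring

end Pool.Agent.Lib.MP_efe3d7_co.H
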