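import Pool.Agent.Lib.MP_efe3d7_co.H.Col1
import Pool.Agent.Lib.MP_efe3d7_co.H.Pol

/-! The value of a merged column. -/

set_option autoImplicit false

open Finset

namespace Pool.Agent.Lib.MP_efe3d7_co.H

variable {α : Type} [Fintype α] [DecidableEq α]

variable {m : Md} {p : Pre} {k : K} {V : Finset α} {τ : Sym2 α → Fin 3} {E : Env α} {v : ℕ → α}

theorem col2_par (x : ℝ) {s t : Fin 3} (h : ¬ (s = 2 ∧ t = 2)) :
    wt x (par s t) = wt x s * wt x t := by
  fin_cases s <;> fin_cases t <;> simp_all [wt, par]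

theorem col2_sum {β : Type} (l : List β) (f g : β → ℝ) :
    (l.map f).sum - (l.map g).sum = (l.map fun q => f q - g q).sum := by
  induction l with
  | nil => simp
  | cons a l ih =>
    simp only [List.map_cons, List.sum_cons, ← ih]
    ring

omit [Fintype α] in
theorem col2_pf (hP : PS m p V τ E v) {ni ct : ℕ} (hT : TyB p ni ct) {U : Finset α}
    {σ : Sym2 α → Fin 3} (hG : ColG p ni ct V τ v U σ) {a i : ℕ} (ha : a < p.s)
    (hi : i < p.s + ni) (hai : a ≠ i) (h : σ s(v a, v i) = 2) : pf p ct a i = true := by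
  have h1 := hG.inn a (by omega) i hi hai
  have h2 := hT.2 a (by omega) i hi hai
  have h3 := hT.1
  rw [h] at h1
  simp only [pf, Bool.or_eq_true, Bool.and_eq_true, Nat.beq_eq, Nat.blt_eq, Bool.not_eq_true']
  by_cases hk : tb (fld p.kn a) i = true
  · rw [if_pos hk] at h1
    exact Or.inl h1.symm
  · rw [if_neg hk] at h1
    have h4 : ty ct a i ≠ 1 := fun e => by
      rw [if_pos e] at h1
      exact absurd h1 (by decide)
    have h5 := h2.2.resolve_left hk
    refine Or.inr ⟨⟨⟨by omega, ha⟩, ?_⟩, by simpa using hk⟩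
    by_contra h6
    rw [hP.kns a (by omega) i (by omega)] at hk
    exact hk ((hP.int i (by omega) (by omega)).2.2 a (by omega) hai.symm)

omit [Fintype α] in
theorem col2_upd (hP : PS m p V τ E v) {ni ct : ℕ} (hT : TyB p ni ct) {U : Finset α}
    {σ : Sym2 α → Fin 3} (hG : ColG p ni ct V τ v U σ) {a b : ℕ} (ha : a < p.s) (hb : b < p.s) :
    TyB p ni (sdg ct (px a b) 1) ∧
      ColG p ni (sdg ct (px a b) 1) V τ v U (Function.update σ s(v a, v b) 1) := by
  have h1 := hT.1
  have h2 := hP.n8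
  have e : ∀ i < p.s + ni, ∀ j < p.s + ni, ty (sdg ct (px a b) 1) i j =
      if (i = a ∧ j = b) ∨ (i = b ∧ j = a) then 1 else ty ct i j := fun i hi j hj =>
    ty_sdg ct (by omega) (by omega) (by omega) (by omega) (by omega)
  refine ⟨⟨h1, fun i hi j hj hij => ?_⟩, hG.mem, fun c d hc => ?_, fun i hi j hj hij => ?_⟩
  · rw [e i hi j hj]
    split_ifs
    · exact ⟨by omega, Or.inr le_rfl⟩
    · exact hT.2 i hi j hj hij
  · rw [Function.update_of_ne, hG.out c d hc]
    intro k
    rcases Sym2.eq_iff.1 k with k | k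
    · exact hc a (by omega) k.1.symm
    · exact hc b (by omega) k.1.symm
  · rw [e i hi j hj]
    by_cases k : (i = a ∧ j = b) ∨ (i = b ∧ j = a)
    · have k2 : s(v i, v j) = s(v a, v b) := by
        rcases k with ⟨rfl, rfl⟩ | ⟨rfl, rfl⟩
        · rfl
        · exact Sym2.eq_swap
      rw [k2, Function.update_self, if_pos k]
      simp
    · rw [if_neg k, Function.update_of_ne, hG.inn i hi j hj hij]
      intro k2
      refine k ((Sym2.eq_iff.1 k2).imp (fun k3 => ?_) fun k3 => ?_)
      · exact ⟨hP.inj _ (by omega) _ (by omega) k3.1, hP.inj _ (by omega) _ (by omega) k3.2⟩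
      · exact ⟨hP.inj _ (by omega) _ (by omega) k3.1, hP.inj _ (by omega) _ (by omega) k3.2⟩

theorem col_ff {x : ℝ} (hx : 0 < x) (hO : Ok m V τ E) (hP : PS m p V τ E v) {R : ℕ → ℝ}
    (hR : ∀ ni ct U σ, TyB p ni ct → ColG p ni ct V τ v U σ →
      FF x U σ = ((parts p.s).map fun q => R q.1 * ev x (val p.s ni ct q.1 q.2)).sum)
    {g : Col} (h : typOk p g = true) {U : Finset α} {σ : Sym2 α → Fin 3}
    (hG : ColG p g.ni g.ct V τ v U σ) :
    FF x (cV g v U) (cT g v σ) =
      ((parts p.s).map fun q => R q.1 * ev x (cval p.s g q.1 q.2)).sum := by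
  have hT := typ_tyB hP h
  cases hm : g.mg
  · simpa only [cV, cT, cval, hm, Bool.false_eq_true, if_false, cond_false] using
      hR _ _ U σ hT hG
  obtain ⟨ha, hb, hab, -, hk, hf, h0, hpf⟩ := typ_mg h hm
  have h1 := hT.1
  have hU : ∀ i < p.s, v i ∈ U := fun i hi => (hG.mem _).2 ⟨hO.memV (hP.mem i (by omega)),
    fun l hl e => by
      have := hP.inj l hl i (by omega) e
      omega⟩
  have hne : v g.a ≠ v g.b := fun e => hab (hP.inj _ (by omega) _ (by omega) e)
  have h2 : ∀ z ∈ U, z ≠ v g.a → z ≠ v g.b →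
      wt x (mg σ (v g.a) (v g.b) s(v g.a, z)) =
        mergeW (fun e => wt x (σ e)) (v g.a) (v g.b) s(v g.a, z) := by
    intro z hz za zb
    rw [mg_self, mergeW_self]
    refine col2_par x fun k => ?_
    obtain ⟨hzV, hz2⟩ := (hG.mem z).1 hz
    by_cases hw : ∃ i < p.n, v i = z
    · obtain ⟨i, hi, rfl⟩ := hw
      have hi2 := hz2 i hi rfl
      have ia : i ≠ g.a := fun e => za (congrArg v e)
      have ib : i ≠ g.b := fun e => zb (congrArg v e)
      have k1 := col2_pf hP hT hG ha hi2 ia.symm k.1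
      have k2 := col2_pf hP hT hG hb hi2 ib.symm k.2
      simpa [k1, k2] using hpf i hi2 ia ib
    · have hw' : ∀ i < p.n, v i ≠ z := fun i hi e => hw ⟨i, hi, e⟩
      have k1 : ∀ c, z ≠ c → σ s(c, z) = 2 → z ∈ nb V τ c := fun c hc e => mem_nb.2 ⟨hzV, hc, by
        rw [Sym2.eq_swap, ← hG.out z c hw', Sym2.eq_swap, e]
        decide⟩
      exact hw ((hP.fb _ (by omega) _ hf).2.2 z (k1 _ za k.1) (k1 _ zb k.2))
  have h3 : FF x (U.erase (v g.b)) (mg σ (v g.a) (v g.b)) =
      ff x (U.erase (v g.b)) (mergeW (fun e => wt x (σ e)) (v g.a) (v g.b)) := by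
    refine ff_congr fun c hc d hd hcd => ?_
    by_cases ca : c = v g.a
    · subst ca
      exact h2 d (mem_of_mem_erase hd) hcd.symm (ne_of_mem_erase hd)
    by_cases da : d = v g.a
    · subst da
      rw [Sym2.eq_swap]
      exact h2 c (mem_of_mem_erase hc) hcd (ne_of_mem_erase hc)
    · rw [mg_of_ne σ _ ca da, mergeW_of_ne _ _ ca da]
  have h4 : σ s(v g.a, v g.b) = 0 := by
    have := hG.inn g.a (by omega) g.b (by omega) hab
    rw [if_pos hk, h0] at this
    exact Fin.ext this
  have h5 : Function.update (fun e => wt x (σ e)) s(v g.a, v g.b) 1 = fun e => wt x (σ e) :=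
    Function.update_eq_self_iff.2 (by simp [h4, wt])
  have h6 : Function.update (fun e => wt x (σ e)) s(v g.a, v g.b) 0 =
      fun e => wt x (Function.update σ s(v g.a, v g.b) 1 e) := by
    funext e
    by_cases k : e = s(v g.a, v g.b)
    · rw [k, Function.update_self, Function.update_self]
      simp [wt]
    · rw [Function.update_of_ne k, Function.update_of_ne k]
  obtain ⟨t1, t2⟩ := col2_upd hP hT hG ha hb
  have h7 := hR _ _ U _ t1 t2
  have h8 := hR _ _ U σ hT hG
  rw [FF] at h7 h8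
  simp only [cV, cT, cval, hm, if_true, cond_true]
  rw [h3, ← Sv_merge hx (hU _ ha) (hU _ hb) hne, Sv, h5, h6, h7, h8, col2_sum]
  refine congrArg List.sum (List.map_congr_left fun q _ => ?_)
  rw [ev_pa, ev_ps]
  push_cast
  ring

end Pool.Agent.Lib.MP_efe3d7_co.H
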