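import Pool.Agent.Lib.MP_efe3d7_co.H.Bas

/-! Counting edges of columns. -/

set_option autoImplicit false

open Finset

namespace Pool.Agent.Lib.MP_efe3d7_co.H

variable {α : Type} [Fintype α] [DecidableEq α]

variable {m : Md} {p : Pre} {k : K} {V : Finset α} {τ : Sym2 α → Fin 3} {E : Env α} {v : ℕ → α}

omit [Fintype α] in
theorem col3_img {w : ℕ} (h : ∀ i < w, ∀ j < w, v i = v j → i = j) (F : ℕ → ℕ → Bool) :
    ∃ C : Finset (Sym2 α), C.card = cp w F ∧
      ∀ e, e ∈ C ↔ ∃ i < w, ∃ j < i, F i j = true ∧ s(v i, v j) = e := by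
  refine ⟨((range w).sigma fun i => (range i).filter fun j => F i j = true).image
    fun q => s(v q.1, v q.2), ?_, fun e => ?_⟩
  · rw [card_image_of_injOn, card_sigma, cp_eq]
    rintro ⟨i, j⟩ h1 ⟨a, b⟩ h2 e
    simp only [coe_sigma, Set.mem_sigma_iff, mem_coe, mem_range, mem_filter] at h1 h2
    rcases Sym2.eq_iff.1 e with ⟨e1, e2⟩ | ⟨e1, e2⟩
    · obtain rfl := h i h1.1 a h2.1 e1
      obtain rfl := h j (by omega) b (by omega) e2
      rfl
    · have := h i h1.1 b (by omega) e1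
      have := h j (by omega) a h2.1 e2
      omega
  · simp only [mem_image, mem_sigma, mem_range, mem_filter]
    exact ⟨fun ⟨q, ⟨a, b, c⟩, d⟩ => ⟨q.1, a, q.2, b, c, d⟩,
      fun ⟨i, a, j, b, c, d⟩ => ⟨⟨i, j⟩, ⟨a, b, c⟩, d⟩⟩

omit [Fintype α] in
theorem col_cnt (hO : Ok m V τ E) (hP : PS m p V τ E v) (f : ℕ → Bool) (hf : f 0 = false) :
    ∃ r : ℕ, ∀ ni ct U σ, TyB p ni ct → ColG p ni ct V τ v U σ →
      (Pure p ct → ((pairs U).filter fun e => f (σ e).val = true).card =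
        r + cp (p.s + ni) fun i j => f (ty ct i j)) ∧
      (f 1 = true → ((pairs U).filter fun e => f (σ e).val = true).card ≤
        r + cp (p.s + ni) fun i j => f (ty ct i j)) := by
  classical
  refine ⟨((pairs V).filter fun e => f (τ e).val = true ∧
    ¬∃ i < p.n, ∃ j < p.n, i ≠ j ∧ tb (fld p.kn i) j = true ∧ s(v i, v j) = e).card,
    fun ni ct U σ hT hG => ?_⟩
  have hw := hT.1
  obtain ⟨C, hC, mC⟩ := col3_img (v := v) (w := p.s + ni)
    (fun i hi j hj => hP.inj i (by omega) j (by omega)) fun i j => f (ty ct i j)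
  rw [← hC]
  have un : ∀ i < p.n, ∀ j < p.n, i ≠ j → ¬tb (fld p.kn i) j = true → i < p.s ∧ j < p.s :=
    fun i hi j hj ne h => ⟨by_contra fun l => h ((hP.int i hi (by omega)).2.2 j hj ne),
      by_contra fun l => h (by
        rw [hP.kns i hi j hj]; exact (hP.int j hj (by omega)).2.2 i hi ne.symm)⟩
  have mC' : ∀ i < p.s + ni, ∀ j < p.s + ni, i ≠ j → f (ty ct i j) = true → s(v i, v j) ∈ C :=
    fun i hi j hj ne h => (mC _).2 ((lt_or_gt_of_ne ne).elim
      (fun l => ⟨j, hj, i, l, by rwa [ty_comm], Sym2.eq_swap⟩) fun l => ⟨i, hi, j, l, h, rfl⟩)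
  have out : ∀ a b, ¬((∃ i < p.n, v i = a) ∧ ∃ j < p.n, v j = b) → σ s(a, b) = τ s(a, b) := by
    intro a b h
    rcases not_and_or.1 h with h | h
    · exact hG.out a b fun i hi e => h ⟨i, hi, e⟩
    · rw [Sym2.eq_swap]; exact hG.out b a fun i hi e => h ⟨i, hi, e⟩
  have sub : (∀ i < p.s, ∀ j < p.s, i ≠ j → ¬tb (fld p.kn i) j = true → ty ct i j = 1 →
      f 1 = true) → ((pairs U).filter fun e => f (σ e).val = true) ⊆
      ((pairs V).filter fun e => f (τ e).val = true ∧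
        ¬∃ i < p.n, ∃ j < p.n, i ≠ j ∧ tb (fld p.kn i) j = true ∧ s(v i, v j) = e) ∪ C := by
    intro H e he
    induction e using Sym2.ind with
    | h a b =>
    obtain ⟨he, fe⟩ := mem_filter.1 he
    obtain ⟨ha, hb, hab⟩ := mk_mem_pairs.1 he
    obtain ⟨ha, ha'⟩ := (hG.mem a).1 ha
    obtain ⟨hb, hb'⟩ := (hG.mem b).1 hb
    rw [mem_union, mem_filter, mk_mem_pairs]
    by_cases q : (∃ i < p.n, v i = a) ∧ ∃ j < p.n, v j = b
    · obtain ⟨⟨i, hi, rfl⟩, j, hj, rfl⟩ := q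
      have ne : i ≠ j := fun e => hab (e ▸ rfl)
      have li := ha' i hi rfl
      have lj := hb' j hj rfl
      have e := hG.inn i li j lj ne
      split_ifs at e with c1 c2
      · exact Or.inr (mC' i li j lj ne (e ▸ fe))
      · obtain ⟨u1, u2⟩ := un i hi j hj ne c1
        exact Or.inr (mC' i li j lj ne (c2 ▸ H i u1 j u2 ne c1 c2))
      · refine Or.inl ⟨⟨ha, hb, hab⟩, e ▸ fe, ?_⟩
        rintro ⟨i', hi', j', hj', -, kn, e'⟩
        rcases Sym2.eq_iff.1 e' with ⟨e1, e2⟩ | ⟨e1, e2⟩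
        · rw [hP.inj _ hi' _ hi e1, hP.inj _ hj' _ hj e2] at kn
          exact c1 kn
        · rw [hP.inj _ hi' _ hj e1, hP.inj _ hj' _ hi e2, hP.kns j hj i hi] at kn
          exact c1 kn
    · refine Or.inl ⟨⟨ha, hb, hab⟩, out a b q ▸ fe, ?_⟩
      rintro ⟨i, hi, j, hj, -, -, e'⟩
      rcases Sym2.eq_iff.1 e' with ⟨e1, e2⟩ | ⟨e1, e2⟩
      · exact q ⟨⟨i, hi, e1⟩, j, hj, e2⟩
      · exact q ⟨⟨j, hj, e2⟩, i, hi, e1⟩
  refine ⟨fun hp => ?_, fun h1 => (card_le_card (sub fun _ _ _ _ _ _ _ => h1)).trans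
    (card_union_le _ _)⟩
  have pu : ∀ i < p.n, ∀ j < p.n, i ≠ j → ¬tb (fld p.kn i) j = true → ty ct i j = 0 :=
    fun i hi j hj ne h => hp i (un i hi j hj ne h).1 j (un i hi j hj ne h).2 ne
      (Bool.eq_false_iff.2 h)
  have kn : ∀ i < p.n, ∀ j < p.n, i ≠ j → f (ty ct i j) = true → tb (fld p.kn i) j = true :=
    fun i hi j hj ne h => by_contra fun c => by
      rw [pu i hi j hj ne c, hf] at h; exact Bool.false_ne_true h
  rw [← card_union_of_disjoint (disjoint_left.2 fun e h1 h2 => by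
    obtain ⟨i, hi, j, hj, fe, rfl⟩ := (mC e).1 h2
    exact (mem_filter.1 h1).2.2 ⟨i, by omega, j, by omega, by omega,
      kn i (by omega) j (by omega) (by omega) fe, rfl⟩)]
  have sn := hP.sn
  refine congrArg card (Subset.antisymm (sub fun i hi j hj ne c t => ?_) fun e he => ?_)
  · rw [pu i (by omega) j (by omega) ne c] at t
    exact absurd t zero_ne_one
  rcases mem_union.1 he with he | he
  · induction e using Sym2.ind with
    | h a b =>
    obtain ⟨he, fe, nk⟩ := mem_filter.1 he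
    obtain ⟨ha, hb, hab⟩ := mk_mem_pairs.1 he
    have t0 : τ s(a, b) ≠ 0 := fun c => by
      rw [c] at fe; exact Bool.false_ne_true (hf ▸ fe)
    have mU : ∀ a ∈ V, ∀ b ∈ V, a ≠ b → τ s(a, b) ≠ 0 → (¬∃ i < p.n, ∃ j < p.n, i ≠ j ∧
        tb (fld p.kn i) j = true ∧ s(v i, v j) = s(a, b)) → a ∈ U := by
      refine fun a ha b hb hab t0 nk => (hG.mem a).2 ⟨ha, fun i hi e => by_contra fun l => ?_⟩
      subst e
      obtain ⟨q1, q2, q3⟩ := hP.int i hi (by omega)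
      obtain ⟨j, hj, -, rfl⟩ := hP.cl i hi q2 b (mem_nb.2 ⟨hb, hab.symm, t0⟩) (Or.inl q1)
      have ne : i ≠ j := fun e => hab (e ▸ rfl)
      exact nk ⟨i, hi, j, hj, ne, q3 j hj ne, rfl⟩
    have aU := mU a ha b hb hab t0 nk
    have bU := mU b hb a ha hab.symm (by rwa [Sym2.eq_swap]) (by rwa [Sym2.eq_swap (a := b)])
    refine mem_filter.2 ⟨mk_mem_pairs.2 ⟨aU, bU, hab⟩, ?_⟩
    by_cases q : (∃ i < p.n, v i = a) ∧ ∃ j < p.n, v j = b
    · obtain ⟨⟨i, hi, rfl⟩, j, hj, rfl⟩ := q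
      have ne : i ≠ j := fun e => hab (e ▸ rfl)
      have c : ¬tb (fld p.kn i) j = true := fun c => nk ⟨i, hi, j, hj, ne, c, rfl⟩
      rw [hG.inn i (((hG.mem _).1 aU).2 i hi rfl) j (((hG.mem _).1 bU).2 j hj rfl) ne, if_neg c,
        pu i hi j hj ne c, if_neg zero_ne_one]
      exact fe
    · rw [out a b q]; exact fe
  · obtain ⟨i, hi, j, hj, fe, rfl⟩ := (mC e).1 he
    have mU : ∀ i < p.s + ni, v i ∈ U := fun i li => (hG.mem _).2
      ⟨hO.memV (hP.mem i (by omega)), fun j lj ej => by rwa [hP.inj j lj i (by omega) ej]⟩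
    refine mem_filter.2 ⟨mk_mem_pairs.2 ⟨mU i hi, mU j (by omega), fun c => ?_⟩, ?_⟩
    · have := hP.inj i (by omega) j (by omega) c
      omega
    · rw [hG.inn i hi j (by omega) (by omega), if_pos (kn i (by omega) j (by omega) (by omega) fe)]
      exact fe

end Pool.Agent.Lib.MP_efe3d7_co.H
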