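import Pool.Agent.Lib.MP_efe3d7_co.H.Exp

/-! The values of columns. -/

set_option autoImplicit false

open Finset

namespace Pool.Agent.Lib.MP_efe3d7_co.H

variable {α : Type} [Fintype α] [DecidableEq α]

variable {m : Md} {p : Pre} {k : K} {V : Finset α} {τ : Sym2 α → Fin 3} {E : Env α} {v : ℕ → α}

theorem colG_ff {x : ℝ} (hx : 0 < x) (hO : Ok m V τ E) (hP : PS m p V τ E v) :
    ∃ R : ℕ → ℝ, ∀ ni ct U σ, TyB p ni ct → ColG p ni ct V τ v U σ →
      FF x U σ = ((parts p.s).map fun q => R q.1 * ev x (val p.s ni ct q.1 q.2)).sum := by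
  classical
  have hs := hP.sn
  have hV : ∀ i < p.n, v i ∈ V := fun i hi => hO.memV (hP.mem i hi)
  obtain ⟨R, hR⟩ := expand hx (V.filter fun z => ∀ i < p.n, v i = z → i < p.s)
    (fun e => if ∃ i < p.s, ∃ j < p.s, tb (fld p.kn i) j = true ∧ e = s(v i, v j) then 1
      else wt x (τ e)) v p.s
    (fun i hi => mem_filter.2 ⟨hV i (by omega), fun j hj e => by
      rwa [hP.inj j hj i (by omega) e]⟩)
    fun i hi j hj => hP.inj i (by omega) j (by omega)
  refine ⟨R, fun ni ct U σ hT hC => ?_⟩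
  have hn := hT.1
  have hU : U = (V.filter fun z => ∀ i < p.n, v i = z → i < p.s) ∪
      (Ico p.s (p.s + ni)).image v := by
    ext z
    rw [hC.mem, mem_union, mem_filter, mem_image]
    constructor
    · rintro ⟨h1, h2⟩
      by_cases h : ∀ i < p.n, v i = z → i < p.s
      · exact Or.inl ⟨h1, h⟩
      · push Not at h
        obtain ⟨i, hi, e, h3⟩ := h
        exact Or.inr ⟨i, mem_Ico.2 ⟨h3, h2 i hi e⟩, e⟩
    · rintro (⟨h1, h2⟩ | ⟨i, hi, rfl⟩)
      · exact ⟨h1, fun i hi e => by have := h2 i hi e; omega⟩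
      · have := (mem_Ico.1 hi).2
        exact ⟨hV i (by omega), fun j hj e => by rwa [hP.inj j hj i (by omega) e]⟩
  have ho : ∀ z ∈ V.filter fun z => ∀ i < p.n, v i = z → i < p.s, (∀ l < p.s, v l ≠ z) →
      ∀ l < p.n, v l ≠ z := fun z hz h l hl e => h l ((mem_filter.1 hz).2 l hl e) e
  rw [FF, hU]
  refine hR ni ct _ (hn.trans hP.n8) (fun i hi j hj => hP.inj i (by omega) j (by omega))
    (fun i h1 h2 h => by have := (mem_filter.1 h).2 i (by omega) rfl; omega)
    (fun a ha b _ _ h => ?_) (fun i hi j hj => ?_) (fun i h1 h2 z hz h => ?_) fun i h1 h2 j hj => ?_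
  · rw [hC.out a b (ho a ha h), if_neg]
    rintro ⟨i, hi, j, hj, -, e⟩
    rcases Sym2.eq_iff.1 e with ⟨e, -⟩ | ⟨e, -⟩
    exacts [h i hi e.symm, h j hj e.symm]
  · have h1 := hC.inn i (by omega) j (by omega) (by omega)
    have h2 := (hT.2 i (by omega) j (by omega) (by omega)).2
    by_cases hk : tb (fld p.kn i) j = true
    · rw [if_pos ⟨i, hi, j, by omega, hk, rfl⟩, one_mul, wt_wn, h1, if_pos hk]
    · rw [if_neg, wt_wn, h1, if_neg hk]
      · by_cases h3 : ty ct i j = 1
        · simp [h3, wn]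
        · have h4 : ty ct i j = 0 := by have := h2.resolve_left hk; omega
          rw [if_neg h3, h4, wt_wn]
          simp [wn]
      · rintro ⟨a, ha, b, hb, h3, e⟩
        rcases Sym2.eq_iff.1 e with ⟨e1, e2⟩ | ⟨e1, e2⟩
        · rw [hP.inj i (by omega) a (by omega) e1, hP.inj j (by omega) b (by omega) e2] at hk
          exact hk h3
        · rw [hP.inj i (by omega) b (by omega) e1, hP.inj j (by omega) a (by omega) e2,
            hP.kns b (by omega) a (by omega)] at hk
          exact hk h3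
  · have h3 := ho z hz h
    have h4 := hP.int i (by omega) h1
    have h5 : τ s(v i, z) = 0 := by
      by_contra h5
      obtain ⟨j, hj, -, e⟩ := hP.cl i (by omega) h4.2.1 z
        (mem_nb.2 ⟨(mem_filter.1 hz).1, (h3 i (by omega)).symm, h5⟩) (Or.inl h4.1)
      exact h3 j hj e
    rw [Sym2.eq_swap, hC.out z _ h3, Sym2.eq_swap, h5, wt, if_pos rfl]
  · rw [wt_wn, hC.inn i h2 j (by omega) (by omega),
      if_pos ((hP.int i (by omega) h1).2.2 j (by omega) (by omega))]

end Pool.Agent.Lib.MP_efe3d7_co.H
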