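import Pool.Agent.Lib.MP_efe3d7_co.H.Col1

/-! The edges of a column. -/

set_option autoImplicit false

open Finset

namespace Pool.Agent.Lib.MP_efe3d7_co.H

variable {α : Type} [Fintype α] [DecidableEq α]

variable {m : Md} {p : Pre} {k : K} {V : Finset α} {τ : Sym2 α → Fin 3} {E : Env α} {v : ℕ → α}

omit [Fintype α] in
theorem col5_mg {σ : Sym2 α → Fin 3} {a b x y : α} (h : σ s(x, y) ≠ 0)
    (hxy : (if x = b then a else x) ≠ if y = b then a else y) :
    mg σ a b s(if x = b then a else x, if y = b then a else y) ≠ 0 := by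
  by_cases hx : x = b <;> by_cases hy : y = b
  · simp [hx, hy] at hxy
  · rw [if_pos hx, if_neg hy, mg_self, par_ne]
    exact Or.inr (hx ▸ h)
  · rw [if_neg hx, if_pos hy, Sym2.eq_swap, mg_self, par_ne]
    exact Or.inr (by rwa [Sym2.eq_swap, ← hy])
  · rw [if_neg hx, if_neg hy]
    by_cases hx' : x = a
    · rw [hx', mg_self, par_ne]
      exact Or.inl (hx' ▸ h)
    · by_cases hy' : y = a
      · rw [hy', Sym2.eq_swap, mg_self, par_ne]
        exact Or.inl (by rwa [Sym2.eq_swap, ← hy'])
      · rwa [mg_of_ne σ b hx' hy']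

theorem rep_of (hO : Ok m V τ E) (hP : PS m p V τ E v) {g : Col} (h : typOk p g = true)
    {U : Finset α} {σ : Sym2 α → Fin 3} (hG : ColG p g.ni g.ct V τ v U σ) :
    Rep p g V τ v (cV g v U) (cT g v σ) := by
  have hT := typ_tyB hP h
  have hle := hT.1
  have hsn := hP.sn
  have hr : g.mg = true → ∀ i < p.n, v (rho g i) = if v i = v g.b then v g.a else v i := by
    intro hm i hi
    have hb := (typ_mg h hm).2.1
    by_cases e : i = g.b
    · simp [rho, hm, e]
    · rw [if_neg fun e' => e (hP.inj i hi _ (by omega) e')]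
      simp [rho, e]
  have hr0 : ¬g.mg = true → ∀ i, rho g i = i := fun hm i => by simp [rho, hm]
  have hrn : ∀ i < p.n, rho g i < p.n := fun i hi => by
    unfold rho
    split_ifs with e
    · have := (typ_mg h e.1).1
      omega
    · exact hi
  have lift : ∀ i < p.n, ∀ j < p.n, rho g i ≠ rho g j → σ s(v i, v j) ≠ 0 →
      cT g v σ s(v (rho g i), v (rho g j)) ≠ 0 := by
    intro i hi j hj hij hs
    unfold cT
    split_ifs with hm
    · have h1 : v (rho g i) ≠ v (rho g j) := fun e => hij (hP.inj _ (hrn i hi) _ (hrn j hj) e)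
      rw [hr hm i hi, hr hm j hj] at h1 ⊢
      exact col5_mg hs h1
    · rwa [hr0 hm, hr0 hm]
  have hout : ∀ i z, (∀ l < p.n, v l ≠ z) → σ s(v i, z) = τ s(v i, z) := fun i z hz => by
    rw [Sym2.eq_swap, hG.out z _ hz, Sym2.eq_swap]
  refine ⟨hle, fun hm => ?_, fun z => ?_, fun a b ha hb => ?_, fun i hi z hz hs => ?_,
    fun j hj z hzV hz hs => ?_, fun i hi j hj hij hk hs => ?_, fun i hi j hj hij hs => ?_⟩
  · obtain ⟨h1, h2, h3, h4, -, h5, -⟩ := typ_mg h hm
    exact ⟨h1, h2, h3, h4, h5⟩
  · unfold cV inW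
    split_ifs with hm
    · have hb := (typ_mg h hm).2.1
      rw [mem_erase, hG.mem]
      refine ⟨fun ⟨h1, h2, h3⟩ => ⟨h2, fun i hi e => ⟨h3 i hi e, fun e' => h1 ?_⟩⟩,
        fun ⟨h1, h2⟩ => ⟨fun e => (h2 g.b (by omega) e.symm).2 ⟨hm, rfl⟩, h1,
          fun i hi e => (h2 i hi e).1⟩⟩
      rw [← e, e'.2]
    · rw [hG.mem]
      simp [hm]
  · unfold cT
    split_ifs with hm
    · have h1 : g.a < p.n := by have := (typ_mg h hm).1; omega
      rw [mg_of_ne σ _ (ha _ h1).symm (hb _ h1).symm, hG.out a b ha]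
    · exact hG.out a b ha
  · rw [← hout i z hz] at hs
    unfold cT
    split_ifs with hm
    · have h1 : ¬z = v g.b := (hz _ (by have := (typ_mg h hm).2.1; omega)).symm
      have h2 := hz _ (hrn i (by omega))
      rw [hr hm i (by omega)] at h2 ⊢
      have h3 := col5_mg (a := v g.a) (b := v g.b) hs (by rwa [if_neg h1])
      rwa [if_neg h1] at h3
    · rwa [hr0 hm]
  · have key : ∀ i < p.s + g.ni, rho g i = j → σ s(v i, z) ≠ 0 →
        ∃ i < p.s, rho g i = j ∧ τ s(v i, z) ≠ 0 := by
      intro i hi e h1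
      rw [hout i z hz] at h1
      refine ⟨i, not_le.1 fun h2 => ?_, e, h1⟩
      obtain ⟨h3, h4, -⟩ := hP.int i (by omega) h2
      obtain ⟨l, hl, -, h5⟩ := hP.cl i (by omega) h4 z
        (mem_nb.2 ⟨hzV, (hz i (by omega)).symm, h1⟩) (Or.inl h3)
      exact hz l hl h5
    have hjj : rho g j = j := if_neg hj.2
    have hj1 := hj.1
    unfold cT at hs
    split_ifs at hs with hm
    · obtain ⟨h1, h2, -⟩ := typ_mg h hm
      by_cases e : j = g.a
      · rw [e, mg_self, par_ne] at hs
        rcases hs with hs | hs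
        · exact key j hj1 hjj (e ▸ hs)
        · exact key g.b (by omega) (by simp [rho, hm, e]) hs
      · rw [mg_of_ne σ _ (fun e' => e (hP.inj j (by omega) _ (by omega) e'))
          (hz _ (by omega)).symm] at hs
        exact key j hj1 hjj hs
    · exact key j hj1 hjj hs
  · have h1 : rho g i ≠ rho g j := by
      unfold rho
      split_ifs with e1 e2 e2
      · exact absurd (e1.2.trans e2.2.symm) hij
      · rintro rfl
        rw [hP.kns i (by omega) _ (by omega), e1.2, (typ_mg h e1.1).2.2.2.2.1] at hk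
        exact absurd hk (by simp)
      · rintro rfl
        rw [e2.2, (typ_mg h e2.1).2.2.2.2.1] at hk
        exact absurd hk (by simp)
      · exact hij
    refine ⟨h1, lift i (by omega) j (by omega) h1 fun e => hs ?_⟩
    have h2 := hG.inn i (by omega) j (by omega) hij
    rw [e, hk, if_neg (by simp)] at h2
    split_ifs at h2 with h3
    · exact absurd h2 (by simp)
    · exact Fin.ext h2.symm
  · have h1 : i ≠ j := fun e => hij (by rw [e])
    refine lift i (by omega) j (by omega) hij fun e => ?_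
    have h2 := hG.inn i hi j hj h1
    have h3 := (hT.2 i hi j hj h1).2
    rw [e] at h2
    split_ifs at h2 with h4 h5
    · exact hs h2.symm
    · exact absurd h2 (by simp)
    · rcases h3 with h3 | h3
      · exact h4 h3
      · omega

end Pool.Agent.Lib.MP_efe3d7_co.H
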