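import Pool.Agent.Lib.MP_efe3d7_co.H.Bas

/-! Counting vertices of columns; edges after a merge. -/

set_option autoImplicit false

open Finset

namespace Pool.Agent.Lib.MP_efe3d7_co.H

variable {α : Type} [Fintype α] [DecidableEq α]

variable {m : Md} {p : Pre} {k : K} {V : Finset α} {τ : Sym2 α → Fin 3} {E : Env α} {v : ℕ → α}

theorem col_card (hO : Ok m V τ E) (hP : PS m p V τ E v) {ni ct : ℕ} {U : Finset α}
    {σ : Sym2 α → Fin 3} (h : p.s + ni ≤ p.n) (hG : ColG p ni ct V τ v U σ) :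
    U.card + p.n = V.card + (p.s + ni) := by
  have h1 : U = V \ (Ico (p.s + ni) p.n).image v := by
    ext z
    rw [hG.mem, mem_sdiff, mem_image]
    refine and_congr_right fun _ => ⟨fun h1 ⟨i, hi, e⟩ => ?_, fun h1 i hi e => ?_⟩
    · exact (mem_Ico.1 hi).1.not_gt (h1 i (mem_Ico.1 hi).2 e)
    · exact not_le.1 fun h2 => h1 ⟨i, mem_Ico.2 ⟨h2, hi⟩, e⟩
  have h2 : (Ico (p.s + ni) p.n).image v ⊆ V := image_subset_iff.2 fun i hi =>
    hO.memV (hP.mem i (mem_Ico.1 hi).2)
  have h3 : ((Ico (p.s + ni) p.n).image v).card = p.n - (p.s + ni) := by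
    rw [card_image_of_injOn fun i hi j hj e =>
      hP.inj i (mem_Ico.1 hi).2 j (mem_Ico.1 hj).2 e, Nat.card_Ico]
  have h4 := card_sdiff_add_card_eq_card h2
  rw [← h1, h3] at h4
  omega

omit [Fintype α] in
theorem ne_mg (U : Finset α) (σ : Sym2 α → Fin 3) {a b : α} (ha : a ∈ U) (hb : b ∈ U)
    (hab : a ≠ b) : ne (U.erase b) (mg σ a b) ≤ ne U σ := by
  refine card_le_card_of_surjOn (Sym2.map fun z => if z = b then a else z) fun e he => ?_
  have key : ∀ c d, c ∈ U → d ∈ U.erase b → c ≠ d → σ s(c, d) ≠ 0 →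
      s(if c = b then a else c, d) ∈ Sym2.map (fun z => if z = b then a else z) ''
        ((pairs U).filter fun e => σ e ≠ 0 : Finset _) := fun c d hc hd hcd h0 =>
    ⟨s(c, d), mem_coe.2 (mem_filter.2 ⟨mk_mem_pairs.2 ⟨hc, mem_of_mem_erase hd, hcd⟩, h0⟩), by
      rw [Sym2.map_mk, if_neg (ne_of_mem_erase hd)]⟩
  have k2 : ∀ d ∈ U.erase b, a ≠ d → mg σ a b s(a, d) ≠ 0 →
      s(a, d) ∈ Sym2.map (fun z => if z = b then a else z) ''
        ((pairs U).filter fun e => σ e ≠ 0 : Finset _) := fun d hd had h0 => by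
    rw [mg_self, par_ne] at h0
    rcases h0 with h0 | h0
    · simpa only [if_neg hab] using key a d ha hd had h0
    · simpa only [if_true] using key b d hb hd (ne_of_mem_erase hd).symm h0
  induction e using Sym2.ind with
  | _ c d =>
    obtain ⟨h1, h2⟩ := mem_filter.1 (mem_coe.1 he)
    obtain ⟨hc, hd, hcd⟩ := mk_mem_pairs.1 h1
    by_cases e1 : c = a
    · subst e1
      exact k2 d hd hcd h2
    by_cases e2 : d = a
    · subst e2
      rw [Sym2.eq_swap] at h2 ⊢
      exact k2 c hc (Ne.symm hcd) h2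
    rw [mg_of_ne σ b e1 e2] at h2
    simpa only [if_neg (ne_of_mem_erase hc)] using key c d (mem_of_mem_erase hc) hd hcd h2

end Pool.Agent.Lib.MP_efe3d7_co.H
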