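import Pool.Agent.Lib.MP_efe3d7_co.H.Pol

/-! The identity behind a certificate. -/

set_option autoImplicit false

open Finset

namespace Pool.Agent.Lib.MP_efe3d7_co.H

theorem ids_fold (x : ℝ) (f g : Col → List ℤ) (z : List ℤ) (l : List Col) :
    ev x (l.foldr (fun a r => pa (pm (f a) (g a)) r) z) =
      (l.map fun a => ev x (f a) * ev x (g a)).sum + ev x z := by
  induction l with
  | nil => simp
  | cons a l ih => rw [List.foldr_cons, ev_pa, ev_pm, ih, List.map_cons, List.sum_cons, add_assoc]

theorem ids_swap {β γ : Type} (l : List β) (l' : List γ) (f : β → γ → ℝ) :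
    (l.map fun a => (l'.map fun b => f a b).sum).sum =
      (l'.map fun b => (l.map fun a => f a b).sum).sum := by
  induction l with
  | nil => simp
  | cons a l ih => simp only [List.map_cons, List.sum_cons, List.sum_map_add, ih]

theorem id_sound (x : ℝ) (k : K) (c : Cert) (h : idOk k c = true) (R : ℕ → ℝ) :
    ev x (bern c.D).1 *
        ((parts c.s).map fun q => R q.1 * ev x (val c.s (k.n - c.s) k.ct q.1 q.2)).sum =
      (c.cols.map fun g => ev x (bern g.cf).1 *
        ((parts c.s).map fun q => R q.1 * ev x (cval c.s g q.1 q.2)).sum).sum := by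
  simp only [idOk, frc_eq, Nat.sub_eq] at h
  simp only [← List.sum_map_mul_left]
  rw [ids_swap]
  refine congrArg _ (List.map_congr_left fun q hq => ?_)
  have h1 := ev_zero x (List.all_eq_true.1 h q hq)
  rw [ids_fold x (fun g => (bern g.cf).1) fun g => cval c.s g q.1 q.2, ev_pm, ev_ps] at h1
  simp only [mul_left_comm _ (R q.1), List.sum_map_mul_left]
  congr 1
  push_cast at h1
  linarith

end Pool.Agent.Lib.MP_efe3d7_co.H
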