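import Pool.Agent.Lib.MP_efe3d7_co.H.Prs
import Pool.Agent.Lib.MP_efe3d7_co.H.Col2
import Pool.Agent.Lib.MP_efe3d7_co.H.Col3
import Pool.Agent.Lib.MP_efe3d7_co.H.Col4
import Pool.Agent.Lib.MP_efe3d7_co.H.Col6
import Pool.Agent.Lib.MP_efe3d7_co.H.Ineq
import Pool.Agent.Lib.MP_efe3d7_co.H.Ids

/-! A certificate whose columns are in the class reduces the graph. -/

set_option autoImplicit false

open Finset

namespace Pool.Agent.Lib.MP_efe3d7_co.H

variable {α : Type} [Fintype α] [DecidableEq α]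

variable {m : Md} {p : Pre} {k : K} {V : Finset α} {τ : Sym2 α → Fin 3} {E : Env α} {v : ℕ → α}

omit [Fintype α] in
theorem core_ne (U : Finset α) (σ : Sym2 α → Fin 3) :
    ne U σ = ((pairs U).filter fun e => nz (σ e).val = true).card :=
  congrArg card (filter_congr fun e _ => by rw [nz_iff]; exact Fin.val_ne_iff.symm)

omit [Fintype α] in
theorem core_nh (U : Finset α) (σ : Sym2 α → Fin 3) :
    nh U σ = ((pairs U).filter fun e => Nat.beq (σ e).val 1 = true).card :=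
  congrArg card (filter_congr fun e _ => by rw [Nat.beq_eq]; exact Fin.ext_iff)

theorem core_cp (w ct : ℕ) :
    (cp w fun i j => Nat.beq (ty ct i j) 1) ≤ cp w fun i j => nz (ty ct i j) := by
  rw [cp_eq, cp_eq]
  refine sum_le_sum fun i _ => card_le_card (monotone_filter_right _ fun j _ h => ?_)
  rw [Nat.beq_eq] at h
  rw [nz_iff, h]; exact one_ne_zero

theorem core_w {a u n1 n2 A B : ℕ} (hAB : A + B = 60) (h : a + A + n2 = 30 + u + n1) :
    (9 / 8 : ℝ) ^ a / (9 / 8) ^ n1 * ((9 ^ A * 8 ^ B : ℕ) : ℝ) =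
      ((72 ^ 30 : ℕ) : ℝ) * ((9 / 8) ^ u / (9 / 8) ^ n2) := by
  have e1 : ((9 ^ A * 8 ^ B : ℕ) : ℝ) = (9 / 8) ^ A * 8 ^ 60 := by
    push_cast
    rw [← hAB, pow_add, div_pow]
    field_simp
  have e2 : ((72 ^ 30 : ℕ) : ℝ) = (9 / 8) ^ 30 * 8 ^ 60 := by norm_num
  have e3 : (9 / 8 : ℝ) ^ (a + A + n2) = (9 / 8) ^ (30 + u + n1) := by rw [h]
  have e4 : (9 / 8 : ℝ) ≠ 0 := by norm_num
  rw [e1, e2]
  generalize (9 / 8 : ℝ) = q at *
  generalize (8 : ℝ) ^ 60 = c
  rw [div_mul_eq_mul_div, mul_div_assoc', div_eq_div_iff (pow_ne_zero _ e4) (pow_ne_zero _ e4)]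
  simp only [pow_add] at e3
  linear_combination c * e3

theorem cert_core {x : ℝ} (h1 : 1 / 4 ≤ x) (h2 : x ≤ 1 / 2) (hO : Ok m V τ E) (hS : Sat k V τ E v)
    {c : Cert} (hs : strOk k c.s = true) (hz : szOk (preOf m k c.s) k c = true)
    (ht : ∀ g ∈ c.cols, typOk (preOf m k c.s) g = true) (hi : idOk k c = true)
    (hc : ∀ g ∈ c.cols, ∀ U σ, ColG (preOf m k c.s) g.ni g.ct V τ v U σ →
      Con3 (cV g v U) (cT g v σ)) : Red x V τ := by
  intro hSm μ hμ hE
  have hx : 0 < x := by linarith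
  have hP := ps_of hO hS hs
  obtain ⟨hT, hPu, hG0⟩ := colG_self hO hS hs
  obtain ⟨R, hR⟩ := colG_ff hx hO hP
  obtain ⟨r, hr⟩ := col_cnt hO hP nz rfl
  obtain ⟨r', hr'⟩ := col_cnt hO hP (fun t => Nat.beq t 1) rfl
  have en := preOf_n m k c.s
  have es := preOf_s m k c.s
  generalize preOf m k c.s = p at *
  have sn : c.s + (k.n - c.s) = k.n := by have := hP.sn; omega
  have n0 := (hr _ _ _ _ hT hG0).1 hPu
  have h0 := (hr' _ _ _ _ hT hG0).1 hPu
  rw [← core_ne, es, sn] at n0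
  rw [← core_nh, es, sn] at h0
  have he := core_cp k.n k.ct
  simp only [szOk, frc_eq, Bool.and_eq_true, Bool.or_eq_true, List.all_eq_true, allB_iff,
    Nat.ble_eq, Nat.beq_eq, Nat.sub_eq, nz_iff, Bool.not_eq_true'] at hz
  rw [Nat.add_eq] at hz
  obtain ⟨⟨⟨⟨e16, i4⟩, hcol⟩, hw⟩, hD⟩ := hz
  generalize (cp k.n fun i j => nz (ty k.ct i j)) = e at *
  generalize (cp k.n fun i j => Nat.beq (ty k.ct i j) 1) = h at *
  have key : ∀ g ∈ c.cols, ∃ U σ, TyB p g.ni g.ct ∧ ColG p g.ni g.ct V τ v U σ ∧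
      ((parts c.s).map fun q => R q.1 * ev x (cval c.s g q.1 q.2)).sum =
        FF x (cV g v U) (cT g v σ) := fun g hg => by
    have b := typ_tyB hP (ht g hg)
    obtain ⟨U, σ, hG⟩ := colG_ex hP b
    exact ⟨U, σ, b, hG, by rw [col_ff hx hO hP hR (ht g hg) hG, es]⟩
  refine ineq h1 h2 c.D c.cols (fun g => Nat.blt (g.ne c.s) e) (fun g => g.w c.s (k.n - c.s) e h)
    (fun g => ((parts c.s).map fun q => R q.1 * ev x (cval c.s g q.1 q.2)).sum) _ _ (72 ^ 30)
    (mul_nonpos_of_nonpos_of_nonneg hμ (by unfold ww; positivity)) hD (fun g hg => (hcol g hg).1)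
    (fun t lt => ?_) (fun t lt et => ?_) (fun g hg sm => ?_) (fun g hg sm => ?_) ?_
  · have := hw t lt
    cases q : (Nat.beq t 0 || Nat.beq t.succ c.D.length)
    · rw [q, cond_false, Nat.ble_eq] at this
      exact this
    · rw [q, cond_true, Bool.and_eq_true, Nat.blt_eq] at this
      exact this.1.le
  · have := hw t lt
    have q : (Nat.beq t 0 || Nat.beq t.succ c.D.length) = true := by
      rw [Bool.or_eq_true, Nat.beq_eq, Nat.beq_eq]; exact et
    rw [q, cond_true, Bool.and_eq_true, Nat.blt_eq, List.any_eq_true] at this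
    obtain ⟨a, g, hg, b⟩ := this
    rw [Bool.and_eq_true, nz_iff] at b
    exact ⟨a, g, hg, b⟩
  · refine ⟨?_, by rw [Col.w, sm, cond_true]⟩
    obtain ⟨U, σ, b, hG, eq⟩ := key g hg
    rw [eq]
    refine hSm _ _ (hc g hg U σ hG) ?_
    have n1 := (hr _ _ _ _ b hG).2 rfl
    rw [← core_ne, es] at n1
    rw [Nat.blt_eq, Col.ne, Nat.add_eq] at sm
    refine lt_of_le_of_lt ?_ (by omega : ne U σ < ne V τ)
    unfold cV cT
    split_ifs with hm
    · obtain ⟨a1, a2, a3, -⟩ := typ_mg (ht g hg) hm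
      have sn' := hP.sn
      have mU : ∀ i < p.s, v i ∈ U := fun i li => (hG.mem _).2
        ⟨hO.memV (hP.mem i (by omega)), fun j lj ej => by
          rw [hP.inj j lj i (by omega) ej]; omega⟩
      exact ne_mg U σ (mU _ a1) (mU _ a2) fun q => a3 (hP.inj _ (by omega) _ (by omega) q)
    · exact le_rfl
  · obtain ⟨U, σ, b, hG, eq⟩ := key g hg
    obtain ⟨⟨a1, a2⟩, a3⟩ := (hcol g hg).2.resolve_left (by rw [sm]; exact Bool.false_ne_true)
    have pu : Pure p g.ct := fun i li j lj ne kn => by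
      rw [es] at li lj
      rcases lt_or_gt_of_ne ne with l | l
      · rw [ty_comm]
        refine (a3 j lj i l).resolve_left ?_
        rw [← hP.kns i (by omega) j (by omega), kn]; exact Bool.false_ne_true
      · exact (a3 i li j l).resolve_left (by rw [kn]; exact Bool.false_ne_true)
    have n1 := (hr _ _ _ _ b hG).1 pu
    have n2 := (hr' _ _ _ _ b hG).1 pu
    have n3 := col_card hO hP b.1 hG
    have n4 := core_cp (c.s + g.ni) g.ct
    have n5 := b.1
    have c3 := hc g hg U σ hG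
    rw [← core_ne, es] at n1
    rw [← core_nh, es] at n2
    rw [eq]
    rw [cV, cT, if_neg (by simp [a2]), if_neg (by simp [a2])] at c3 ⊢
    rw [Col.w, sm, cond_false, Col.nh, mul_assoc, ww]
    rw [Col.ne, Nat.add_eq] at a1
    rw [Nat.add_eq, core_w (u := U.card) (n2 := nh U σ) (by omega) (by omega), mul_left_comm]
    exact mul_le_mul_of_nonneg_left (hE U σ c3 (by omega)) (Nat.cast_nonneg _)
  · rw [hR _ _ _ _ hT hG0, es]
    exact id_sound x k c hi R

end Pool.Agent.Lib.MP_efe3d7_co.H
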