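import Pool.Agent.Lib.MP_efe3d7_co.H.Cut2

/-! Columns are changes inside the region. -/

set_option autoImplicit false

open Finset

namespace Pool.Agent.Lib.MP_efe3d7_co.H

variable {α : Type} [Fintype α] [DecidableEq α]

variable {m : Md} {p : Pre} {k : K} {V : Finset α} {τ : Sym2 α → Fin 3} {E : Env α} {v : ℕ → α}

variable {g : Col} {V' : Finset α} {τ' : Sym2 α → Fin 3}

theorem saf_rho (hP : PS m p V τ E v) (hR : Rep p g V τ v V' τ') {i : ℕ} (hi : i < p.s) :
    rho g i < p.s ∧ inW p g (rho g i) ∧ (rho g i = i ∨ v i ∈ E.Q) := by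
  unfold rho inW
  split_ifs with k
  · obtain ⟨h1, h2, h3, h4, -⟩ := hR.mg k.1
    exact ⟨h1, ⟨by omega, fun j => h3 j.2⟩, Or.inr (k.2 ▸ hP.lq _ (h2.trans_le hP.sn) h4)⟩
  · exact ⟨hi, ⟨by omega, k⟩, Or.inl rfl⟩

theorem saf_mem (hO : Ok m V τ E) (hP : PS m p V τ E v) (hR : Rep p g V τ v V' τ') {i : ℕ}
    (hi : inW p g i) : v i ∈ V' := by
  have h1 : i < p.n := hi.1.trans_le hR.le
  exact (hR.mem _).2 ⟨hO.memV (hP.mem i h1), fun l hl e => hP.inj l hl i h1 e ▸ hi⟩

theorem saf_om (hO : Ok m V τ E) (hP : PS m p V τ E v) (hR : Rep p g V τ v V' τ') {w : α}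
    (hw : E.om = some w) : dg V' τ' w = 3 := by
  obtain ⟨w1, w2, w3, w4⟩ := hO.omv w hw
  have wo : ∀ l < p.n, v l ≠ w := fun l hl e => (hP.mem l hl).elim (e ▸ w2) (e ▸ w3)
  let f : α → α := fun z => if g.mg = true ∧ z = v g.b then v g.a else z
  have f1 : ∀ i < p.n, f (v i) = v (rho g i) := fun i hi => by
    simp only [f, rho]
    by_cases k : g.mg = true ∧ i = g.b
    · rw [if_pos k, if_pos ⟨k.1, by rw [k.2]⟩]
    · rw [if_neg k, if_neg fun j => k ⟨j.1, hP.inj i hi _ ((hR.mg j.1).2.1.trans_le hP.sn) j.2⟩]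
  have f2 : ∀ z, (∀ l < p.n, v l ≠ z) → f z = z := fun z hz =>
    if_neg fun j => hz _ ((hR.mg j.1).2.1.trans_le hP.sn) j.2.symm
  have e : nb V' τ' w = (nb V τ w).image f := by
    ext z
    rw [mem_image]
    constructor
    · intro hz
      obtain ⟨z1, z2, z3⟩ := mem_nb.1 hz
      obtain ⟨z4, z5⟩ := (hR.mem z).1 z1
      by_cases k : ∀ l < p.n, v l ≠ z
      · exact ⟨z, mem_nb.2 ⟨z4, z2, hR.oo w z wo k ▸ z3⟩, f2 z k⟩
      · push Not at k
        obtain ⟨j, hj, rfl⟩ := k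
        obtain ⟨i, i1, i2, i3⟩ := hR.wo j (z5 j hj rfl) w w1 wo (by rwa [Sym2.eq_swap])
        have i4 := i1.trans_le hP.sn
        exact ⟨v i, mem_nb.2 ⟨hO.memV (hP.mem i i4), wo i i4, by rwa [Sym2.eq_swap]⟩,
          i2 ▸ f1 i i4⟩
    · rintro ⟨y, hy, rfl⟩
      obtain ⟨y1, y2, y3⟩ := mem_nb.1 hy
      by_cases k : ∀ l < p.n, v l ≠ y
      · rw [f2 y k]
        exact mem_nb.2 ⟨(hR.mem y).2 ⟨y1, fun i hi e => absurd e (k i hi)⟩, y2,
          (hR.oo w y wo k).symm ▸ y3⟩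
      · push Not at k
        obtain ⟨i, hi, rfl⟩ := k
        have i1 : i < p.s := not_le.1 fun j => by
          obtain ⟨j1, j2, -⟩ := hP.int i hi j
          obtain ⟨l, l1, -, l2⟩ := hP.cl i hi j2 w (nb_symm w1 hy) (Or.inl j1)
          exact wo l l1 l2
        obtain ⟨r1, r2, -⟩ := saf_rho hP hR i1
        rw [f1 i hi]
        exact mem_nb.2 ⟨saf_mem hO hP hR r2, wo _ (r1.trans_le hP.sn), by
          rw [Sym2.eq_swap]; exact hR.ow i i1 w wo (by rwa [Sym2.eq_swap])⟩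
  have key : g.mg = true → v g.b ∈ nb V τ w → v g.a ∈ nb V τ w → False := fun k h1 h2 => by
    obtain ⟨a1, -, -, -, a2⟩ := hR.mg k
    obtain ⟨l, l1, l2⟩ := (hP.fb _ (a1.trans_le hP.sn) _ a2).2.2 w (nb_symm w1 h2) (nb_symm w1 h1)
    exact wo l l1 l2
  rw [dg, e, card_image_of_injOn fun y hy z hz j => ?_]
  · exact w4
  simp only [f] at j
  split_ifs at j with k1 k2 k2
  · rw [k1.2, k2.2]
  · exact (key k1.1 (k1.2 ▸ hy) (j ▸ hz)).elim
  · exact (key k2.1 (k2.2 ▸ hz) (j ▸ hy)).elim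
  · exact j

theorem chg_sound (hm : m.rl = true ∨ m.wm = true) (hO : Ok m V τ E) (hP : PS m p V τ E v)
    (hR : Rep p g V τ v V' τ') {cs : List ℕ} (h : chgOk m p cs g = true) : Chg V τ E V' τ' := by
  simp only [chgOk, Bool.and_eq_true, Bool.or_eq_true, Bool.not_eq_true', allB_iff, anyB_iff,
    Nat.ble_eq, Nat.beq_eq, nz_iff, Bool.and_eq_false_iff] at h
  obtain ⟨⟨h1, h2⟩, h3⟩ := h
  have term : ∀ i < p.n, v i ∉ E.Q → i < p.s ∧ rho g i = i := fun i hi k => by
    have : i < p.s := not_le.1 fun j => k (hP.int i hi j).1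
    exact ⟨this, (saf_rho hP hR this).2.2.resolve_right k⟩
  have half : ∀ i < p.n, ∀ j < i, v i ∉ E.Q → v j ∉ E.Q → τ s(v i, v j) ≠ 0 →
      τ' s(v i, v j) ≠ 0 := fun i hi j hj k1 k2 k3 => by
    obtain ⟨i1, i2⟩ := term i hi k1
    obtain ⟨j1, j2⟩ := term j (hj.trans hi) k2
    cases e : tb (fld p.kn i) j
    · have := (hR.un i i1 j j1 hj.ne' e k3).2
      rwa [i2, j2] at this
    rcases h1 i i1 j hj with ((k | k) | k) | k
    · exact absurd (hP.kn i hi j (hj.trans hi) hj.ne' e k) k3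
    · exact absurd (hP.lq i hi k) k1
    · exact absurd (hP.lq j (hj.trans hi) k) k2
    · have := hR.ct i (by omega) j (by omega) (by omega) k
      rwa [i2, j2] at this
  refine ⟨fun z hz => ((hR.mem z).1 hz).1, fun a ha k => ?_, fun a ha b hb ab a1 b1 k => ?_,
    fun a ha a1 b hb => ?_, fun w hw => saf_om hO hP hR hw, ?_,
    fun B S => cut_sound hm hO hP hR h3 B S⟩
  · by_contra j
    refine k ((hR.mem a).2 ⟨ha, ?_⟩)
    rintro i hi rfl
    obtain ⟨i1, i2⟩ := term i hi j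
    exact i2 ▸ (saf_rho hP hR i1).2.1
  · by_cases k1 : ∀ l < p.n, v l ≠ a <;> by_cases k2 : ∀ l < p.n, v l ≠ b
    · rwa [hR.oo a b k1 k2]
    · push Not at k2
      obtain ⟨j, hj, rfl⟩ := k2
      have := hR.ow j (term j hj b1).1 a k1 (by rwa [Sym2.eq_swap])
      rwa [(term j hj b1).2, Sym2.eq_swap] at this
    · push Not at k1
      obtain ⟨j, hj, rfl⟩ := k1
      have := hR.ow j (term j hj a1).1 b k2 k
      rwa [(term j hj a1).2] at this
    · push Not at k1 k2
      obtain ⟨i, hi, rfl⟩ := k1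
      obtain ⟨j, hj, rfl⟩ := k2
      rcases lt_trichotomy i j with c | rfl | c
      · rw [Sym2.eq_swap] at k ⊢
        exact half j hj i c b1 a1 k
      · exact absurd rfl ab
      · exact half i hi j c a1 b1 k
  · obtain ⟨b1, b2, b3⟩ := mem_nb.1 hb
    have b4 := ((hR.mem b).1 b1).1
    by_cases k2 : ∀ l < p.n, v l ≠ b
    · by_cases k1 : ∀ l < p.n, v l ≠ a
      · exact hO.nbq a a1 b (mem_nb.2 ⟨b4, b2, hR.oo a b k1 k2 ▸ b3⟩)
      · push Not at k1
        obtain ⟨j, hj, rfl⟩ := k1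
        obtain ⟨i, i1, i2, i3⟩ := hR.wo j (((hR.mem _).1 ha).2 j hj rfl) b b4 k2 b3
        exact hO.nbq (v i) ((saf_rho hP hR i1).2.2.elim (fun e => by rw [← e, i2]; exact a1) id) b
          (mem_nb.2 ⟨b4, (k2 i (i1.trans_le hP.sn)).symm, i3⟩)
    · push Not at k2
      obtain ⟨j, hj, rfl⟩ := k2
      exact (hP.mem j hj).imp_right Or.inl
  · by_cases k : ∃ a ∈ V', a ∈ E.Q
    · exact Or.inl k
    have inT : ∀ i, inW p g i → v i ∈ E.T := fun i hi =>
      (hP.mem i (hi.1.trans_le hR.le)).resolve_left fun j => k ⟨_, saf_mem hO hP hR hi, j⟩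
    have sn := hP.sn
    have le := hR.le
    rcases h2 with ((c | c) | ⟨i, i1, i2, i3⟩) | ⟨⟨c1, c2⟩, c | ⟨⟨⟨c3, c4⟩, c5⟩, c6⟩⟩
    · exact (k ⟨v p.s, saf_mem hO hP hR ⟨by omega, fun j => by have := (hR.mg j.1).2.1; omega⟩,
        (hP.int p.s (by omega) le_rfl).1⟩).elim
    · exfalso
      have := card_le_card_of_injOn (s := (range p.s).erase (if g.mg = true then g.b else p.s))
        (t := E.T) v (fun i hi => by
          obtain ⟨i1, i2⟩ := mem_erase.1 hi
          rw [mem_range] at i2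
          exact inT i ⟨by omega, fun j => i1 (by rw [if_pos j.1, j.2])⟩) fun i hi j hj =>
        hP.inj i ((mem_range.1 (mem_erase.1 hi).2).trans_le sn) j
          ((mem_range.1 (mem_erase.1 hj).2).trans_le sn)
      have c3 := hO.cT
      cases e : g.mg
      · simp [e] at this c
        omega
      · have c4 := pred_card_le_card_erase (s := range p.s) (a := g.b)
        simp [e] at this c c4
        omega
    · refine (k ⟨v i, saf_mem hO hP hR ⟨by omega, fun j => ?_⟩, hP.lq i (by omega) i2⟩).elim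
      rcases i3 with i3 | i3
      · simp [i3] at j
      · exact Nat.ne_of_beq_eq_false i3 j.2
    · obtain ⟨a, a1, a2⟩ := exists_mem_ne (s := E.Q) (hO.q2 c1).1 (v p.s)
      refine (k ⟨a, (hR.mem a).2 ⟨hO.subQ a1, ?_⟩, a1⟩).elim
      rintro i hi rfl
      have : i ≠ p.s := fun j => a2 (by rw [j])
      exact ⟨by omega, by simp [c2]⟩
    · have r : ∀ i, rho g i = i := fun i => if_neg (by simp [c2])
      have ne : ∀ i < 3, ∀ j < 3, i ≠ j → v i ≠ v j := fun i hi j hj c e =>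
        c (hP.inj i (by omega) j (by omega) e)
      have eT : ({v 0, v 1, v 2} : Finset α) = E.T := eq_of_subset_of_card_le (fun z hz => by
        simp only [mem_insert, mem_singleton] at hz
        rcases hz with rfl | rfl | rfl <;> exact inT _ ⟨by omega, by simp [c2]⟩) (by
          rw [(hO.q2 c1).2, card_eq_three.2 ⟨_, _, _, ne 0 (by omega) 1 (by omega) (by omega),
            ne 0 (by omega) 2 (by omega) (by omega), ne 1 (by omega) 2 (by omega) (by omega), rfl⟩])
      have ed : ∀ i < 3, ∀ j < 3, i ≠ j → ty g.ct i j ≠ 0 → τ' s(v i, v j) ≠ 0 :=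
        fun i hi j hj c e => by
          have := hR.ct i (by omega) j (by omega) (by rwa [r, r]) e
          rwa [r, r] at this
      have e1 := ed 0 (by omega) 1 (by omega) (by omega) c4
      have e2 := ed 0 (by omega) 2 (by omega) (by omega) c5
      have e3 := ed 1 (by omega) 2 (by omega) (by omega) c6
      refine Or.inr ⟨hO.omn (hO.wm_false c1), fun a ha b hb ab => ?_⟩
      simp only [← eT, mem_insert, mem_singleton] at ha hb
      rcases ha with rfl | rfl | rfl <;> rcases hb with rfl | rfl | rfl <;>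
        first | exact absurd rfl ab | assumption | rwa [Sym2.eq_swap]

end Pool.Agent.Lib.MP_efe3d7_co.H
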