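import Pool.Agent.Lib.MP_efe3d7_co.H.Col1

/-! Columns that delete the base of a triangle. -/

set_option autoImplicit false

open Finset

namespace Pool.Agent.Lib.MP_efe3d7_co.H

variable {α : Type} [Fintype α] [DecidableEq α]

variable {m : Md} {p : Pre} {k : K} {V : Finset α} {τ : Sym2 α → Fin 3} {E : Env α} {v : ℕ → α}

variable {g : Col} {V' : Finset α} {τ' : Sym2 α → Fin 3}

theorem tri_sound (hN : N1 α) (hO : Ok m V τ E) (hP : PS m p V τ E v) (ht : typOk p g = true)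
    (h : triOk p g = true) {U : Finset α} {σ : Sym2 α → Fin 3}
    (hG : ColG p g.ni g.ct V τ v U σ) : Con3 (cV g v U) (cT g v σ) := by
  simp only [triOk, Bool.and_eq_true, Bool.or_eq_true, Bool.not_eq_true', allB_iff, Nat.ble_eq,
    Nat.blt_eq, Nat.beq_eq, Nat.add_eq, nz_iff] at h
  obtain ⟨⟨⟨⟨⟨⟨⟨⟨⟨⟨⟨⟨hm, hn⟩, r1⟩, r2⟩, ha⟩, hb⟩, h3⟩, ra⟩, rb⟩, ab⟩, da⟩, db⟩, hall⟩ := h
  have n8 := hP.n8
  have hV : ∀ i < p.n, v i ∈ V := fun i hi => hO.memV (hP.mem i hi)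
  have hnb : ∀ i < p.n, ∀ j, tb (fld p.ha i) j = true → v j ∈ nb V τ (v i) := fun i hi j e => by
    obtain ⟨k1, k2, k3⟩ := hP.ha i hi j e
    exact mem_nb.2 ⟨hV j k1, fun e' => k2 (hP.inj _ k1 _ hi e').symm, k3⟩
  have hU : U = V := by
    ext z
    rw [hG.mem]
    exact ⟨fun k => k.1, fun k => ⟨k, fun i hi _ => by omega⟩⟩
  have hr : nb V τ (v g.r) = (bs p.n (fld p.ha g.r)).image v := by
    ext z
    simp only [mem_image, mem_bs]
    constructor
    · intro hz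
      obtain ⟨k1, k2, -⟩ := hP.int g.r r2 r1
      obtain ⟨j, hj, k3, k4⟩ := hP.cl g.r r2 k2 z hz (Or.inl k1)
      exact ⟨j, ⟨hj, k3⟩, k4⟩
    · rintro ⟨j, ⟨-, k1⟩, rfl⟩
      exact hnb _ r2 j k1
  have hc := hN V τ (v g.r) (v g.a) (v g.b) hO.con (hV _ r2)
    (by rw [dg, hr, card_img hP.inj, h3]) (hnb _ r2 _ ra) (hnb _ r2 _ rb) (hnb _ (by omega) _ ab)
    ((hP.d4 _ (by omega) da).trans (hO.ds_le (hP.mem _ (by omega))))
    ((hP.d4 _ (by omega) db).trans (hO.ds_le (hP.mem _ (by omega))))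
  have key : ∀ i < p.n, ∀ j < i, s(v i, v j) ≠ s(v g.a, v g.b) → τ s(v i, v j) ≠ 0 →
      σ s(v i, v j) ≠ 0 := by
    intro i hi j hj k1 k2 k3
    have k4 := hG.inn i (by omega) j (by omega) (by omega)
    rw [k3] at k4
    split_ifs at k4 with k5 k6
    · rcases hall i hi j hj with (k6 | k6) | k6
      · exact k2 (hP.kn i hi j (by omega) (by omega) k5 k6)
      · exact k6 k4.symm
      · rcases (px_inj (by omega) (by omega) (by omega) (by omega)).1 k6 with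
          ⟨rfl, rfl⟩ | ⟨rfl, rfl⟩
        · exact k1 rfl
        · exact k1 Sym2.eq_swap
    · exact absurd k4 (by decide)
    · exact k2 (Fin.ext k4.symm)
  simp only [cV, cT, hm, Bool.false_eq_true, if_false, hU]
  refine con3_mono (fun c _ d _ hcd e => ?_) hc
  have k1 : s(c, d) ≠ s(v g.a, v g.b) := fun k => e (by rw [k, Function.update_self])
  rw [Function.update_of_ne k1] at e
  by_cases hc' : ∀ i < p.n, v i ≠ c
  · rwa [hG.out c d hc']
  by_cases hd' : ∀ i < p.n, v i ≠ d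
  · rwa [Sym2.eq_swap, hG.out d c hd', Sym2.eq_swap]
  push Not at hc' hd'
  obtain ⟨i, hi, rfl⟩ := hc'
  obtain ⟨j, hj, rfl⟩ := hd'
  rcases lt_trichotomy i j with k | rfl | k
  · rw [Sym2.eq_swap] at k1 e ⊢
    exact key j hj i k k1 e
  · exact absurd rfl hcd
  · exact key i hi j k k1 e

end Pool.Agent.Lib.MP_efe3d7_co.H
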