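import Pool.Agent.Lib.MP_efe3d7_co.H.Core
import Pool.Agent.Lib.MP_efe3d7_co.H.Saf
import Pool.Agent.Lib.MP_efe3d7_co.H.Tri
import Pool.Agent.Lib.MP_efe3d7_co.H.Col5

/-! Soundness of certificates. -/

set_option autoImplicit false

open Finset

namespace Pool.Agent.Lib.MP_efe3d7_co.H

variable {α : Type} [Fintype α] [DecidableEq α]

variable {m : Md} {p : Pre} {k : K} {V : Finset α} {τ : Sym2 α → Fin 3} {E : Env α} {v : ℕ → α}


theorem certEx_sound {x : ℝ} (h1 : 1 / 4 ≤ x) (h2 : x ≤ 1 / 2) (hN : N1 α) (hO : Ok m V τ E)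
    (hS : Sat k V τ E v) {c : Cert} {ex : Bool} (h : certEx ex m k c = true)
    (hex : ex = true → ∀ g ∈ c.cols, g.r = 99 → ∀ U σ,
      ColG (preOf m k c.s) g.ni g.ct V τ v U σ → Con3 (cV g v U) (cT g v σ)) : Red x V τ := by
  simp only [certEx, mkPre_eq, Bool.and_eq_true, Bool.or_eq_true, List.all_eq_true] at h
  obtain ⟨⟨⟨hm, hs⟩, hz, hc⟩, hi⟩ := h
  have hP := ps_of hO hS hs
  refine cert_core h1 h2 hO hS hs hz (fun g hg => (hc g hg).1) hi fun g hg U σ hG => ?_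
  obtain ⟨ht, hq⟩ := hc g hg
  cases e1 : Nat.beq g.r 99
  · rw [e1, cond_false] at hq
    cases e2 : nz g.r
    · rw [e2, cond_false] at hq
      exact hO.safe hm _ _ (chg_sound hm hO hP (rep_of hO hP ht hG) hq)
    · rw [e2, cond_true] at hq
      exact tri_sound hN hO hP ht hq hG
  · rw [e1, cond_true] at hq
    exact hex hq g hg (Nat.eq_of_beq_eq_true e1) U σ hG

end Pool.Agent.Lib.MP_efe3d7_co.H
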