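import Pool.Agent.Lib.MP_efe3d7_co.H.Bas

/-! A small cut of a column gives a labelling. -/

set_option autoImplicit false

open Finset

namespace Pool.Agent.Lib.MP_efe3d7_co.H

variable {α : Type} [Fintype α] [DecidableEq α]

variable {m : Md} {p : Pre} {k : K} {V : Finset α} {τ : Sym2 α → Fin 3} {E : Env α} {v : ℕ → α}

variable {g : Col} {V' : Finset α} {τ' : Sym2 α → Fin 3}


open Classical in
theorem lab_ex (hO : Ok m V τ E) (hP : PS m p V τ E v) (hR : Rep p g V τ v V' τ')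
    {B S : Finset α} (hB : B ⊆ V') (hA : Adm V' τ' E B) (hC : Cov V' τ' B S) (hS : S.card ≤ 2)
    {A X J1 JS : ℕ} (h1 : ∀ i, tb A i = true ↔ inW p g i ∧ v i ∈ B)
    (h2 : ∀ i, tb X i = true → inW p g i ∧ v i ∈ S)
    (h3 : ∀ i < p.s, inW p g i → v i ∈ S → v i ∉ B → tb X i = true)
    (h4 : ∀ i, tb J1 i = true ↔ i < p.s ∧ tb A (rho g i) = true)
    (h5 : ∀ i, tb JS i = true ↔ i < p.s ∧ tb X (rho g i) = true) :
    pc (p.s + g.ni) X ≤ 2 ∧
    Lab p V τ E v J1 JS (min 2 (B.filter fun z => ∀ l < p.n, v l ≠ z).card)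
      (2 - pc (p.s + g.ni) X) (B.filter fun z => ∀ l < p.n, v l ≠ z)
      (S.filter fun z => ∀ l < p.n, v l ≠ z) := by
  have hsn := hP.sn
  have hle := hR.le
  have hr : ∀ i < p.s, inW p g (rho g i) ∧ rho g i < p.s := fun i hi => by
    unfold rho inW
    split_ifs with h
    · obtain ⟨a1, -, a3, -⟩ := hR.mg h.1
      exact ⟨⟨by omega, fun h' => a3 h'.2⟩, a1⟩
    · exact ⟨⟨by omega, h⟩, hi⟩
  have hv : ∀ i < p.n, v i ∈ V := fun i hi => hO.memV (hP.mem i hi)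
  have hv' : ∀ i < p.s, v (rho g i) ∈ V' := fun i hi => (hR.mem _).2
    ⟨hv _ ((hr i hi).2.trans_le hsn), fun l hl e =>
      hP.inj l hl _ ((hr i hi).2.trans_le hsn) e ▸ (hr i hi).1⟩
  have ho : ∀ z ∈ V, (∀ l < p.n, v l ≠ z) → z ∈ V' := fun z hz h =>
    (hR.mem z).2 ⟨hz, fun l hl e => (h l hl e).elim⟩
  have hl : ∀ i < p.s, v (rho g i) ∈ B ∨ v (rho g i) ∈ S → tb J1 i = true ∨ tb JS i = true := by
    intro i hi h
    by_cases hb : v (rho g i) ∈ B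
    · exact Or.inl ((h4 i).2 ⟨hi, (h1 _).2 ⟨(hr i hi).1, hb⟩⟩)
    · exact Or.inr ((h5 i).2 ⟨hi, h3 _ (hr i hi).2 (hr i hi).1 (h.resolve_left hb) hb⟩)
  have hJ : ∀ i, tb J1 i = true → i < p.s ∧ v (rho g i) ∈ B := fun i h =>
    ⟨((h4 i).1 h).1, ((h1 _).1 ((h4 i).1 h).2).2⟩
  have hc : (S.filter fun z => ∀ l < p.n, v l ≠ z).card + pc (p.s + g.ni) X ≤ 2 := by
    rw [← card_img (v := v) (fun i hi j hj => hP.inj i (by omega) j (by omega)) X,
      ← card_union_of_disjoint]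
    · refine (card_le_card (union_subset (filter_subset _ _) fun z hz => ?_)).trans hS
      obtain ⟨i, hi, rfl⟩ := mem_image.1 hz
      exact (h2 i (mem_bs.1 hi).2).2
    · refine disjoint_left.2 fun z hz hz' => ?_
      obtain ⟨i, hi, e⟩ := mem_image.1 hz'
      exact (mem_filter.1 hz).2 i ((mem_bs.1 hi).1.trans_le hle) e
  refine ⟨by omega, fun i h => ⟨(hJ i h).1, ?_⟩, fun i h => ((h5 i).1 h).1,
    fun z hz => ⟨hA.1 (mem_filter.1 hz).1, (mem_filter.1 hz).2⟩, fun z hz => (mem_filter.1 hz).2,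
    rfl, by omega, fun y hy z hz => ?_, fun i h z hz hz' => ?_, fun i h j hj hij hk ht => ?_,
    fun w hw => ?_⟩
  · obtain ⟨a1, a2⟩ := hJ i h
    unfold rho at a2
    split_ifs at a2 with h'
    · exact hP.lq i (a1.trans_le hsn) (h'.2 ▸ (hR.mg h'.1).2.2.2.1)
    · exact hA.1 a2
  · obtain ⟨y1, y2⟩ := mem_filter.1 hy
    obtain ⟨z1, z2, z3⟩ := mem_nb.1 hz
    by_cases h : ∀ l < p.n, v l ≠ z
    · rcases hC y y1 z (mem_nb.2 ⟨ho z z1 h, z2, hR.oo y z y2 h ▸ z3⟩) with h' | h'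
      · exact Or.inl (mem_filter.2 ⟨h', h⟩)
      · exact Or.inr (Or.inl (mem_filter.2 ⟨h', h⟩))
    push Not at h
    obtain ⟨l, hln, rfl⟩ := h
    have hls : l < p.s := by
      by_contra hls
      obtain ⟨a1, a2, -⟩ := hP.int l hln (not_lt.1 hls)
      obtain ⟨j, hj, -, e⟩ := hP.cl l hln a2 y (nb_symm ((hR.mem y).1 (hB y1)).1 hz) (Or.inl a1)
      exact y2 j hj e
    refine Or.inr (Or.inr ⟨l, hl l hls (hC y y1 _ (mem_nb.2 ⟨hv' l hls,
      y2 _ ((hr l hls).2.trans_le hsn), ?_⟩)), rfl⟩)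
    rw [Sym2.eq_swap] at z3 ⊢
    exact hR.ow l hls y y2 z3
  · obtain ⟨a1, a2⟩ := hJ i h
    obtain ⟨z1, -, z3⟩ := mem_nb.1 hz
    exact (hC _ a2 z (mem_nb.2 ⟨ho z z1 hz', (hz' _ ((hr i a1).2.trans_le hsn)).symm,
      hR.ow i a1 z hz' z3⟩)).imp (fun h' => mem_filter.2 ⟨h', hz'⟩) fun h' => mem_filter.2 ⟨h', hz'⟩
  · obtain ⟨a1, a2⟩ := hJ i h
    obtain ⟨b1, b2⟩ := hR.un i a1 j hj hij hk ht
    exact hl j hj (hC _ a2 _ (mem_nb.2 ⟨hv' j hj, fun e => b1 (hP.inj _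
      ((hr j hj).2.trans_le hsn) _ ((hr i a1).2.trans_le hsn) e).symm, b2⟩))
  · obtain ⟨w1, w2, w3, -⟩ := hO.omv w hw
    have hw' : ∀ l < p.n, v l ≠ w := fun l h e => (hP.mem l h).elim (e ▸ w2) (e ▸ w3)
    have hf : ∀ z ∈ ((B.filter fun z => ∀ l < p.n, v l ≠ z) ∪ (bs p.s J1).image v) ∩ nb V τ w,
        (if g.mg = true ∧ z = v g.b then v g.a else z) ∈ B ∩ nb V' τ' w := by
      intro z hz
      obtain ⟨z0, hz'⟩ := mem_inter.1 hz
      obtain ⟨z1, z2, z3⟩ := mem_nb.1 hz'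
      rcases mem_union.1 z0 with h | h
      · obtain ⟨a1, a2⟩ := mem_filter.1 h
        rw [if_neg fun h' => a2 _ ((hR.mg h'.1).2.1.trans_le hsn) h'.2.symm]
        exact mem_inter.2 ⟨a1, mem_nb.2 ⟨hB a1, z2, hR.oo w z hw' a2 ▸ z3⟩⟩
      · obtain ⟨i, hi, rfl⟩ := mem_image.1 h
        obtain ⟨a1, a2⟩ := hJ i (mem_bs.1 hi).2
        have e : (if g.mg = true ∧ v i = v g.b then v g.a else v i) = v (rho g i) := by
          rw [rho, apply_ite v]
          exact if_congr (and_congr_right fun h' => ⟨hP.inj i (a1.trans_le hsn) _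
            ((hR.mg h').2.1.trans_le hsn), congrArg v⟩) rfl rfl
        rw [e]
        refine mem_inter.2 ⟨a2, mem_nb.2 ⟨hB a2, hw' _ ((hr i a1).2.trans_le hsn), ?_⟩⟩
        rw [Sym2.eq_swap] at z3 ⊢
        exact hR.ow i a1 w hw' z3
    have hn : g.mg = true → v g.a ∈ nb V τ w → v g.b ∈ nb V τ w → False := fun h ha hb => by
      obtain ⟨a1, -, -, -, a5⟩ := hR.mg h
      obtain ⟨l, hln, e⟩ := (hP.fb _ (a1.trans_le hsn) _ a5).2.2 w (nb_symm w1 ha) (nb_symm w1 hb)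
      exact hw' l hln e
    refine card_le_one.2 fun z hz z' hz' => ?_
    have e := card_le_one.1 (hA.2 w hw) _ (hf z hz) _ (hf z' hz')
    have n1 := (mem_inter.1 hz).2
    have n2 := (mem_inter.1 hz').2
    split_ifs at e with c1 c2 c2
    · exact c1.2.trans c2.2.symm
    · exact (hn c1.1 (e ▸ n2) (c1.2 ▸ n1)).elim
    · exact (hn c2.1 (e ▸ n1) (c2.2 ▸ n2)).elim
    · exact e

end Pool.Agent.Lib.MP_efe3d7_co.H
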