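import Pool.Agent.Lib.MP_efe3d7_co.H.Try3

/-! Impossible labellings. -/

set_option autoImplicit false

open Finset

namespace Pool.Agent.Lib.MP_efe3d7_co.H

variable {α : Type} [Fintype α] [DecidableEq α]

variable {m : Md} {p : Pre} {k : K} {V : Finset α} {τ : Sym2 α → Fin 3} {E : Env α} {v : ℕ → α}

variable {J1 JS o1 o : ℕ} {O1 So : Finset α}

omit [Fintype α] in
theorem imp_np (hO : Ok m V τ E) (hP : PS m p V τ E v) {Qk : ℕ}
    (hQ : ∀ i < p.n, tb Qk i = true → v i ∈ E.Q) : ∀ y < p.n, tb (Nat.lor (Nat.lor Qk p.d4)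
      (msk p.s fun a => Nat.ble 2 (pc p.n (Nat.land (fld p.ha a) Qk)))) y = true →
      v y ∈ E.Q ∨ (v y ∈ E.T ∧ 4 ≤ ds V τ E (v y)) := by
  intro y hy h
  by_cases hq : v y ∈ E.Q
  · exact Or.inl hq
  refine Or.inr ⟨(hP.mem y hy).resolve_left hq, ?_⟩
  simp only [tb_lor, tb_msk, Bool.or_eq_true, Bool.and_eq_true, Nat.ble_eq] at h
  rcases h with (h | h) | ⟨-, h⟩
  · exact absurd (hQ y hy h) hq
  · exact hP.d4 y hy h
  · rw [← card_img hP.inj] at h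
    have : (bs p.n (Nat.land (fld p.ha y) Qk)).image v ⊆ nb V τ (v y) ∩ E.Q := by
      intro z hz
      obtain ⟨j, hj, rfl⟩ := mem_image.1 hz
      rw [mem_bs, tb_land, Bool.and_eq_true] at hj
      obtain ⟨-, h1, h2⟩ := hP.ha y hy j hj.2.1
      exact mem_inter.2 ⟨mem_nb.2 ⟨hO.memV (hP.mem j hj.1),
        fun e => h1 (hP.inj j hj.1 y hy e).symm, h2⟩, hQ j hj.1 hj.2.2⟩
    have := card_le_card this
    rw [ds_nQ hq]
    omega

omit [Fintype α] in
theorem imp_nd (hO : Ok m V τ E) (hP : PS m p V τ E v) {np : ℕ}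
    (hnp : ∀ y < p.n, tb np y = true → v y ∈ E.Q ∨ (v y ∈ E.T ∧ 4 ≤ ds V τ E (v y))) :
    ∀ y < p.n, tb (Nat.lor p.dn
      (msk p.n fun y => Nat.ble p.s y && !nz (df (fld p.ha y) np))) y = true →
      v y ∈ E.Q ∧ v y ∉ E.Dr := by
  intro y hy h
  simp only [tb_lor, tb_msk, Bool.or_eq_true, Bool.and_eq_true, Nat.ble_eq, Bool.not_eq_true',
    nz_false, tb_df] at h
  rcases h with h | ⟨-, h1, h2⟩
  · exact hP.dn y hy h
  obtain ⟨h3, h4, -⟩ := hP.int y hy h1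
  refine ⟨h3, fun hd => ?_⟩
  obtain ⟨-, q, hq, h5⟩ := hO.dr1 _ hd
  obtain ⟨j, hj, h6, rfl⟩ := hP.cl y hy h4 q hq (Or.inl h3)
  have h7 := hnp j hj (by simpa [h6] using h2 j)
  rcases h5 with ⟨h5, h8⟩ | h5
  · rcases h7 with h7 | h7
    · exact hO.dis _ h7 h5
    · omega
  · exact (hP.mem j hj).elim (hO.omv _ h5).2.1 (hO.omv _ h5).2.2.1

omit [Fintype α] in
theorem imp_op (hO : Ok m V τ E) (hP : PS m p V τ E v) (hL : Lab p V τ E v J1 JS o1 o O1 So)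
    {y : α} (hy : y ∈ O1) {i : ℕ} (hi : i < p.n) (h : v i ∈ nb V τ y) : tb p.cl i = false := by
  obtain ⟨h1, h2⟩ := hL.oQ y hy
  rw [← Bool.not_eq_true]
  intro hc
  obtain ⟨j, hj, -, e⟩ := hP.cl i hi hc y (nb_symm (hO.subQ h1) h) (Or.inr h1)
  exact h2 j hj e

omit [Fintype α] in
theorem imp_deg (hO : Ok m V τ E) (hP : PS m p V τ E v) (hL : Lab p V τ E v J1 JS o1 o O1 So)
    {y : α} (hy : O1 = {y}) {X : ℕ} (hX : X = df (Nat.lor J1 JS) p.cl) :
    dg V τ y ≤ Nat.add o (bif p.hf X then Nat.pred (pc p.s X) else pc p.s X) := by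
  have hy' : y ∈ O1 := hy ▸ mem_singleton_self y
  have hs : ∀ i, tb J1 i = true ∨ tb JS i = true → i < p.s := fun i h =>
    h.elim (fun h => (hL.j1 i h).1) (hL.js i)
  have hc := card_img (fun i hi j hj => hP.inj i (hi.trans_le hP.sn) j (hj.trans_le hP.sn)) X
  have h1 : ∀ z ∈ nb V τ y, z ∈ So ∨ z ∈ (bs p.s X).image v := by
    intro z hz
    rcases hL.nO y hy' z hz with h | h | ⟨i, hi, rfl⟩
    · exact absurd (mem_singleton.1 (hy ▸ h)) (mem_nb.1 hz).2.1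
    · exact Or.inl h
    · refine Or.inr (mem_image_of_mem _ (mem_bs.2 ⟨hs i hi, ?_⟩))
      rw [hX, tb_df, tb_lor, imp_op hO hP hL hy' ((hs i hi).trans_le hP.sn) hz]
      simpa using hi
  have h0 := hL.co
  have h2 : ∀ a < p.s, tb X a = true → v a ∉ nb V τ y → dg V τ y ≤ o + (pc p.s X - 1) := by
    intro a ha hx hn
    have h3 : nb V τ y ⊆ So ∪ ((bs p.s X).image v).erase (v a) := fun z hz =>
      mem_union.2 ((h1 z hz).imp_right fun h => mem_erase.2 ⟨fun e => hn (e ▸ hz), h⟩)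
    have h4 := (card_le_card h3).trans (card_union_le _ _)
    rw [card_erase_of_mem (mem_image_of_mem _ (mem_bs.2 ⟨ha, hx⟩)), hc] at h4
    exact h4.trans (by omega)
  cases hf : p.hf X
  · have h4 := (card_le_card fun z hz => mem_union.2 (h1 z hz)).trans (card_union_le _ _)
    rw [hc] at h4
    exact h4.trans (Nat.add_le_add_right h0 _)
  · simp only [Pre.hf, anyB_iff, Bool.and_eq_true, nz_bit, tb_land] at hf
    obtain ⟨a, ha, h3, b, h4, h5⟩ := hf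
    by_cases h6 : v a ∈ nb V τ y
    · refine h2 b (hs b ?_) h5 fun h7 => ?_
      · rw [hX, tb_df, tb_lor] at h5
        simpa using (Bool.and_eq_true_iff.1 h5).1
      · obtain ⟨h8, h9⟩ := hL.oQ y hy'
        obtain ⟨l, hl, e⟩ := (hP.fb a (ha.trans_le hP.sn) b h4).2.2 y (nb_symm (hO.subQ h8) h6)
          (nb_symm (hO.subQ h8) h7)
        exact h9 l hl e
    · exact h2 a ha h3 h6

omit [Fintype α] in
theorem imp_door (hO : Ok m V τ E) (hP : PS m p V τ E v) (hL : Lab p V τ E v J1 JS o1 o O1 So)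
    {y : α} (hy : y ∈ O1) (hd : dg V τ y ≤ 3) (hb : m.big = true) (hw : m.wm = false) {np : ℕ}
    (hnp : ∀ y < p.n, tb np y = true → v y ∈ E.Q ∨ (v y ∈ E.T ∧ 4 ≤ ds V τ E (v y)))
    (h : nz (df (df JS np) p.cl) = false) : ∃ q ∈ So, ∀ i, tb J1 i = true → q ∉ nb V τ (v i) := by
  obtain ⟨h1, h2⟩ := hL.oQ y hy
  have h3 : y ∈ E.Dr := by
    by_contra h3
    have := hO.big hb y h1 h3
    omega
  obtain ⟨-, q, hq, ⟨h4, h5⟩ | h4⟩ := hO.dr1 y h3
  swap
  · rw [hO.omn hw] at h4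
    cases h4
  have h6 : q ∉ E.Q := fun h => hO.dis q h h4
  refine ⟨q, ?_, fun i hi h7 => ?_⟩
  · rcases hL.nO y hy q hq with h7 | h7 | ⟨i, hi | hi, rfl⟩
    · exact absurd (hL.oQ q h7).1 h6
    · exact h7
    · exact absurd (hL.j1 i hi).2 h6
    · have h8 := (hL.js i hi).trans_le hP.sn
      have h9 := (nz_false _).1 h i
      rw [tb_df, tb_df, hi, imp_op hO hP hL hy h8 hq] at h9
      rcases hnp i h8 (by simpa using h9) with h7 | h7
      · exact absurd h7 h6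
      · omega
  · obtain ⟨h8, h9⟩ := hL.j1 i hi
    rw [ds_nQ h6] at h5
    exact h2 i (h8.trans_le hP.sn) (card_le_one.1 (by omega : (nb V τ q ∩ E.Q).card ≤ 1) _
      (mem_inter.2 ⟨nb_symm (hO.subQ h9) h7, h9⟩) _ (mem_inter.2 ⟨nb_symm (hO.subQ h1) hq, h1⟩))

omit [Fintype α] in
theorem imp_al (hO : Ok m V τ E) (hP : PS m p V τ E v) (hL : Lab p V τ E v J1 JS o1 o O1 So) :
    (p.al = true → o1 = 0) ∧ ∃ So, Lab p V τ E v J1 JS o1 (bif p.al then 0 else o) O1 So := by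
  cases ha : p.al
  · exact ⟨nofun, So, hL⟩
  obtain ⟨h1, h2⟩ := hP.al ha
  have h3 : ∀ z, z ∉ O1 := fun z hz => by
    obtain ⟨l, hl, e⟩ := h2 z (Or.inl (hL.oQ z hz).1)
    exact (hL.oQ z hz).2 l hl e
  refine ⟨fun _ => by rw [hL.co1, eq_empty_of_forall_notMem h3]; rfl, ∅, hL.j1, hL.js, hL.oQ,
    nofun, hL.co1, le_rfl, fun y hy => absurd hy (h3 y), fun i hi z hz h4 => ?_, hL.nU, hL.adm⟩
  have h5 := hO.nbq _ (hL.j1 i hi).2 z hz
  rw [hO.omn h1, ← or_assoc] at h5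
  obtain ⟨l, hl, e⟩ := h2 z (h5.resolve_right nofun)
  exact absurd e (h4 l hl)

theorem imp_sound (hm : m.rl = true ∨ m.wm = true) (hO : Ok m V τ E) (hP : PS m p V τ E v)
    (hL : Lab p V τ E v J1 JS o1 o O1 So) {cs : List ℕ} (h : imp m p cs J1 JS o1 o = true) :
    False := by
  obtain ⟨ha, So', hL'⟩ := imp_al hO hP hL
  simp only [imp, frc_eq] at h
  generalize (bif p.al then 0 else o) = o' at h hL'
  have hQ : ∀ i < p.n, tb (Nat.lor (Nat.lor (df (ful p.n) (ful p.s)) p.lq) J1) i = true →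
      v i ∈ E.Q := by
    intro i hi h1
    simp only [tb_lor, tb_df, tb_ful, Bool.or_eq_true, Bool.and_eq_true, Bool.not_eq_true',
      decide_eq_false_iff_not, not_lt] at h1
    rcases h1 with (h1 | h1) | h1
    · exact (hP.int i hi h1.2).1
    · exact hP.lq i hi h1
    · exact (hL.j1 i h1).2
  have hnp := imp_np hO hP hQ
  have hnd := imp_nd hO hP hnp
  generalize Nat.lor (Nat.lor (Nat.lor (Nat.lor (df (ful p.n) (ful p.s)) p.lq) J1) p.d4) _ = np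
    at h hnp hnd
  have h1 : Nat.beq o1 1 = true → ∃ y ∈ O1, 3 ≤ dg V τ y ∧ dg V τ y ≤ Nat.add o'
      (bif p.hf (df (Nat.lor J1 JS) p.cl) then Nat.pred (pc p.s (df (Nat.lor J1 JS) p.cl))
        else pc p.s (df (Nat.lor J1 JS) p.cl)) := by
    intro h1
    have h2 := hL.co1
    rw [Nat.beq_eq] at h1
    obtain ⟨y, hy⟩ := card_eq_one.1 (by omega : O1.card = 1)
    have hy' : y ∈ O1 := hy ▸ mem_singleton_self y
    have h3 := (hL.oQ y hy').1
    exact ⟨y, hy', ds_Q h3 ▸ hO.ds3 y (Or.inl h3), imp_deg hO hP hL' hy rfl⟩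
  generalize Nat.add o' _ = u at h h1
  have h2 : (Nat.beq o1 1 && m.big && !m.wm && Nat.ble u 3 && !nz (df (df JS np) p.cl)) = true →
      ∃ q ∈ So', ∀ i, tb J1 i = true → q ∉ nb V τ (v i) := by
    intro h2
    simp only [Bool.and_eq_true, Bool.not_eq_true', Nat.ble_eq] at h2
    obtain ⟨⟨⟨⟨h3, h4⟩, h5⟩, h6⟩, h7⟩ := h2
    obtain ⟨y, hy, -, h8⟩ := h1 h3
    exact imp_door hO hP hL' hy (h8.trans h6) h4 h5 hnp h7
  generalize (Nat.beq o1 1 && m.big && !m.wm && Nat.ble u 3 && !nz (df (df JS np) p.cl)) = r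
    at h h2
  simp only [Bool.or_eq_true, Bool.and_eq_true, List.any_eq_true, Nat.ble_eq] at h
  rcases h with (h | h) | (h | h) | ⟨c, -, h⟩
  · obtain ⟨i, hi⟩ := (nz_bit _).1 h
    rw [tb_land, Bool.and_eq_true] at hi
    obtain ⟨h3, h4⟩ := hL.j1 i hi.1
    exact hO.dis _ h4 (hP.lt i (h3.trans_le hP.sn) hi.2)
  · exact (nz_iff _).1 h.2 (ha h.1)
  · obtain ⟨y, -, h3, h4⟩ := h1 h.1
    omega
  · obtain ⟨q, hq, -⟩ := h2 h.1
    have h3 := hL'.co
    have h4 := card_pos.2 ⟨q, hq⟩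
    rw [Nat.beq_eq] at h
    omega
  · refine try_sound hm hO hP hL' (fun i hi => ?_) ?_ hnp hnd c h
    · simp only [tb_df, Bool.and_eq_true, Bool.not_eq_true'] at hi
      exact ⟨hi.1.2, hi.2⟩
    · cases r
      · exact Or.inl rfl
      · exact Or.inr ⟨rfl, h2 rfl⟩

end Pool.Agent.Lib.MP_efe3d7_co.H
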