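import Pool.Agent.Lib.MP_efe3d7_co.H.Cut1
import Pool.Agent.Lib.MP_efe3d7_co.H.Imp

/-! Columns without small cuts. -/

set_option autoImplicit false

open Finset

namespace Pool.Agent.Lib.MP_efe3d7_co.H

variable {α : Type} [Fintype α] [DecidableEq α]

variable {m : Md} {p : Pre} {k : K} {V : Finset α} {τ : Sym2 α → Fin 3} {E : Env α} {v : ℕ → α}

variable {g : Col} {V' : Finset α} {τ' : Sym2 α → Fin 3}


theorem cut2_pre {s M : ℕ} (hg : g.mg = true → g.a < s ∧ g.b < s ∧ tb M g.b = false) (i : ℕ) :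
    tb (bif g.mg && tb (Nat.land M (ful s)) g.a then Nat.lor (Nat.land M (ful s)) (bt g.b)
      else Nat.land M (ful s)) i = true ↔ i < s ∧ tb M (rho g i) = true := by
  cases hm : g.mg
  · simp only [Bool.false_and, cond_false, tb_land, tb_ful]
    simp [rho, hm, and_comm]
  obtain ⟨ha, hb, h0⟩ := hg hm
  cases h1 : tb M g.a <;>
    simp only [tb_land, tb_ful, h1, Bool.false_and, Bool.true_and, cond_false, ha, decide_true,
      Bool.and_false, cond_true, tb_lor, tb_bt] <;>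
    by_cases hi : i = g.b <;> simp [rho, hm, hi, hb, h0, h1, and_comm, eq_comm (a := g.b)]

theorem cut2_W (i : ℕ) : tb (bif g.mg then df (ful (p.s + g.ni)) (bt g.b) else ful (p.s + g.ni)) i
    = true ↔ inW p g i := by
  cases hm : g.mg <;> simp [inW, hm, tb_df, tb_ful, tb_bt, eq_comm (a := g.b)]

omit [Fintype α] in
theorem cut2_nb (hO : Ok m V τ E) (hP : PS m p V τ E v) (hR : Rep p g V τ v V' τ') {i j : ℕ}
    (hi : inW p g i)
    (h : tb (fld (cmk (p.s + g.ni) g (cak (p.s + g.ni) g)) i) j = true) :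
    inW p g j ∧ v j ∈ nb V' τ' (v i) := by
  have h1 := hR.le
  have h2 := hP.n8
  have h3 := hi.1
  obtain ⟨k1, k2, k3, i', hi', j', hj', rfl, rfl, k4⟩ := cm_spec (by omega) (fun hm => by
    have := hR.mg hm
    omega) hi.1 hi.2 h
  refine ⟨⟨k1, k2⟩, mem_nb.2 ⟨(hR.mem _).2 ⟨hO.memV (hP.mem _ (by omega)), fun l hl e => ?_⟩,
    fun e => k3 (hP.inj _ (by omega) _ (by omega) e.symm), hR.ct i' hi' j' hj' k3 k4⟩⟩
  rw [hP.inj l hl _ (by omega) e]
  exact ⟨k1, k2⟩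

theorem cut_sound (hm : m.rl = true ∨ m.wm = true) (hO : Ok m V τ E) (hP : PS m p V τ E v)
    (hR : Rep p g V τ v V' τ') {cs : List ℕ} (h : cutsOk m p cs g = true) (B S : Finset α)
    (hB : B ⊆ V') (hne : B.Nonempty) (hA : Adm V' τ' E B) (hC : Cov V' τ' B S) : 3 ≤ S.card := by
  classical
  by_contra hS
  simp only [cutsOk, frc_eq, Nat.add_eq, Nat.sub_eq, allB_iff, Bool.or_eq_true, Bool.and_eq_true,
    Nat.ble_eq, Bool.not_eq_true'] at h
  obtain ⟨A, hA1, hA2⟩ : ∃ A, A < bt (p.s + g.ni) ∧ ∀ i, tb A i = true ↔ inW p g i ∧ v i ∈ B :=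
    ⟨msk (p.s + g.ni) fun i => decide (inW p g i ∧ v i ∈ B), msk_lt _ _, fun i => by
      simp only [tb_msk, Bool.and_eq_true, decide_eq_true_eq]
      exact ⟨fun k => k.2, fun k => ⟨k.1.1, k⟩⟩⟩
  replace h := (h A hA1).resolve_left (by
    simp only [nz_bit, tb_df, Bool.and_eq_true, Bool.not_eq_true', not_exists, not_and,
      Bool.not_eq_false]
    exact fun i hi => (cut2_W i).2 ((hA2 i).1 hi).1)
  generalize hN : df (un (p.s + g.ni) A (fld (cmk (p.s + g.ni) g (cak (p.s + g.ni) g)))) A = NA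
    at h
  have hN2 : ∀ j, tb NA j = true → inW p g j ∧ v j ∈ S := by
    intro j hj
    rw [← hN, tb_df, Bool.and_eq_true, tb_un, Bool.not_eq_true'] at hj
    obtain ⟨⟨i, -, k1, k2⟩, k3⟩ := hj
    obtain ⟨k4, k5⟩ := (hA2 i).1 k1
    obtain ⟨k6, k7⟩ := cut2_nb hO hP hR k4 k2
    refine ⟨k6, (hC _ k5 _ k7).resolve_left fun e => ?_⟩
    rw [(hA2 j).2 ⟨k6, e⟩] at k3
    exact absurd k3 (by decide)
  obtain ⟨X, hX1, hX2⟩ : ∃ X, X < bt p.s ∧ ∀ i, tb X i = true ↔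
      i < p.s ∧ inW p g i ∧ v i ∈ S ∧ tb A i = false ∧ tb NA i = false :=
    ⟨msk p.s fun i => decide (inW p g i ∧ v i ∈ S ∧ tb A i = false ∧ tb NA i = false), msk_lt _ _,
      fun i => by simp only [tb_msk, Bool.and_eq_true, decide_eq_true_eq]⟩
  have h2 : ∀ i, tb (Nat.lor NA X) i = true → inW p g i ∧ v i ∈ S := fun i hi => by
    rw [tb_lor, Bool.or_eq_true] at hi
    exact hi.elim (hN2 i) fun k => ⟨((hX2 i).1 k).2.1, ((hX2 i).1 k).2.2.1⟩
  have h3 : ∀ i < p.s, inW p g i → v i ∈ S → v i ∉ B → tb (Nat.lor NA X) i = true := by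
    intro i hi k1 k2 k3
    rw [tb_lor, Bool.or_eq_true]
    cases k4 : tb NA i
    · exact Or.inr ((hX2 i).2 ⟨hi, k1, k2, Bool.eq_false_iff.2 fun e => k3 ((hA2 i).1 e).2, k4⟩)
    · exact Or.inl rfl
  have h4 : ∀ M, (∀ i, tb M i = true → inW p g i) → g.mg = true →
      g.a < p.s ∧ g.b < p.s ∧ tb M g.b = false := fun M hM hg =>
    ⟨(hR.mg hg).1, (hR.mg hg).2.1, Bool.eq_false_iff.2 fun e => (hM _ e).2 ⟨hg, rfl⟩⟩
  obtain ⟨l1, l2⟩ := lab_ex hO hP hR hB hA hC (by omega) hA2 h2 h3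
    (cut2_pre (h4 A fun i hi => ((hA2 i).1 hi).1)) (cut2_pre (h4 _ fun i hi => (h2 i hi).1))
  have h5 : pc (p.s + g.ni) NA ≤ pc (p.s + g.ni) (Nat.lor NA X) := by
    rw [pc_eq, pc_eq]
    refine card_le_card fun i hi => ?_
    rw [mem_bs] at hi ⊢
    exact ⟨hi.1, by rw [tb_lor, hi.2, Bool.true_or]⟩
  replace h := (((h.resolve_left (by omega)) X hX1).resolve_left (by
    simp only [nz_bit, tb_df, tb_land, tb_ful, Bool.and_eq_true, Bool.not_eq_true', not_exists,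
      not_and, Bool.not_eq_false, decide_eq_true_eq]
    intro i hi
    obtain ⟨k1, k2, -, k3, k4⟩ := (hX2 i).1 hi
    exact ⟨⟨⟨(cut2_W i).2 k2, k1⟩, k3⟩, k4⟩)).resolve_left (by omega)
  obtain ⟨⟨c0, c1⟩, c2⟩ := h
  rcases hc : (B.filter fun z => ∀ l < p.n, v l ≠ z).card with _ | _ | c
  · rw [hc] at l2
    refine imp_sound hm hO hP l2 (c0.resolve_left fun e => ?_)
    obtain ⟨z, hz⟩ := hne
    have k1 := filter_eq_empty_iff.1 (card_eq_zero.1 hc) hz
    push Not at k1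
    obtain ⟨l, hl, rfl⟩ := k1
    have k2 := (hA2 l).2 ⟨((hR.mem _).1 (hB hz)).2 l hl rfl, hz⟩
    rw [(nz_false A).1 e l] at k2
    exact absurd k2 (by decide)
  · rw [hc] at l2
    exact imp_sound hm hO hP l2 c1
  · rw [hc, min_eq_left (by omega)] at l2
    exact imp_sound hm hO hP l2 c2

end Pool.Agent.Lib.MP_efe3d7_co.H
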