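import Pool.Agent.Lib.MP_efe3d7_co.F

/-! Graphs with hard and forced edges: the class, reducibility, frames. -/

set_option autoImplicit false

open Finset

namespace Pool.Agent.Lib.MP_efe3d7_co.H

variable {α : Type} [Fintype α] [DecidableEq α]

/-- The weight of a type: `0` no edge, `1` hard edge, `2` forced edge. -/
noncomputable def wt (x : ℝ) (t : Fin 3) : ℝ := if t = 0 then 1 else if t = 1 then 0 else -x

/-- The signed partition function of a typed graph at `q = 1 + x`. -/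
noncomputable def FF (x : ℝ) (V : Finset α) (τ : Sym2 α → Fin 3) : ℝ := ff x V fun e => wt x (τ e)

/-- The neighbours of `a` in `V`. -/
def nb (V : Finset α) (τ : Sym2 α → Fin 3) (a : α) : Finset α :=
  V.filter fun b => b ≠ a ∧ τ s(a, b) ≠ 0

/-- The degree. -/
def dg (V : Finset α) (τ : Sym2 α → Fin 3) (a : α) : ℕ := (nb V τ a).card

/-- All neighbours of `B` lie in `B` or `S`. -/
def Cov (V : Finset α) (τ : Sym2 α → Fin 3) (B S : Finset α) : Prop :=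
  ∀ a ∈ B, ∀ b ∈ nb V τ a, b ∈ B ∨ b ∈ S

/-- Three-connected graphs and the triangle. -/
def Con3 (V : Finset α) (τ : Sym2 α → Fin 3) : Prop :=
  3 ≤ V.card ∧ ∀ B S : Finset α, B ⊆ V → B.Nonempty → S.card ≤ 2 → Cov V τ B S → V ⊆ B ∪ S

/-- The number of edges. -/
def ne (V : Finset α) (τ : Sym2 α → Fin 3) : ℕ := ((pairs V).filter fun e => τ e ≠ 0).card

/-- The number of hard edges. -/
def nh (V : Finset α) (τ : Sym2 α → Fin 3) : ℕ := ((pairs V).filter fun e => τ e = 1).card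

/-- The weight used among graphs with the same number of edges. -/
noncomputable def ww (V : Finset α) (τ : Sym2 α → Fin 3) : ℝ :=
  (9 / 8) ^ V.card / (9 / 8) ^ nh V τ

/-- All members of the class with fewer edges are positive. -/
def Sm (x : ℝ) (V : Finset α) (τ : Sym2 α → Fin 3) : Prop :=
  ∀ (V' : Finset α) (τ' : Sym2 α → Fin 3), Con3 V' τ' → ne V' τ' < ne V τ → 0 < FF x V' τ'

/-- All members of the class with the same number of edges are at least `μ` times the weight. -/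
def Eqs (x μ : ℝ) (V : Finset α) (τ : Sym2 α → Fin 3) : Prop :=
  ∀ (V' : Finset α) (τ' : Sym2 α → Fin 3), Con3 V' τ' → ne V' τ' = ne V τ →
    μ * ww V' τ' ≤ FF x V' τ'

/-- The graph is not a minimal counterexample. -/
def Red (x : ℝ) (V : Finset α) (τ : Sym2 α → Fin 3) : Prop :=
  Sm x V τ → ∀ μ : ℝ, μ ≤ 0 → Eqs x μ V τ → μ * ww V τ < FF x V τ

/-- The type of two parallel edges. -/
def par (s t : Fin 3) : Fin 3 := if s = 1 ∨ t = 1 then 1 else if s = 2 ∨ t = 2 then 2 else 0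

/-- The types after merging `b` into `a`. -/
noncomputable def mg (τ : Sym2 α → Fin 3) (a b : α) (e : Sym2 α) : Fin 3 :=
  if h : a ∈ e then par (τ e) (τ s(b, Sym2.Mem.other h)) else τ e

/-- The data of a frame: the region `Q`, its boundary `T`, a special vertex, the doors. -/
structure Env (α : Type) where
  /-- the region -/
  Q : Finset α
  /-- the boundary -/
  T : Finset α
  /-- the special vertex -/
  om : Option α
  /-- the doors -/
  Dr : Finset α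

/-- The kind of a frame. -/
structure Md where
  /-- minimal thick fragment -/
  rl : Bool
  /-- complement of a cubic vertex -/
  wm : Bool
  /-- at least three vertices of the region are not doors -/
  q0 : Bool
  /-- every cubic vertex in the region is a door -/
  big : Bool
  /-- the region is not a pair of adjacent cubic vertices -/
  nf : Bool
  /-- no thick fragment, all edges hard -/
  fr : Bool

/-- The degree in the model graph. -/
def ds (V : Finset α) (τ : Sym2 α → Fin 3) (E : Env α) (v : α) : ℕ :=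
  if v ∈ E.Q then dg V τ v else 2 + (nb V τ v ∩ E.Q).card

/-- Admissible subsets of the region. -/
def Adm (V : Finset α) (τ : Sym2 α → Fin 3) (E : Env α) (B : Finset α) : Prop :=
  B ⊆ E.Q ∧ ∀ w, E.om = some w → (B ∩ nb V τ w).card ≤ 1

/-- A change inside the region after which every admissible set has three neighbours. -/
structure Chg (V : Finset α) (τ : Sym2 α → Fin 3) (E : Env α) (V' : Finset α)
    (τ' : Sym2 α → Fin 3) : Prop where
  sub : V' ⊆ V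
  del : ∀ a ∈ V, a ∉ V' → a ∈ E.Q
  far : ∀ a ∈ V, ∀ b ∈ V, a ≠ b → a ∉ E.Q → b ∉ E.Q → τ s(a, b) ≠ 0 → τ' s(a, b) ≠ 0
  nq : ∀ a ∈ V', a ∈ E.Q → ∀ b ∈ nb V' τ' a, b ∈ E.Q ∨ b ∈ E.T ∨ E.om = some b
  om3 : ∀ w, E.om = some w → dg V' τ' w = 3
  nem : (∃ a ∈ V', a ∈ E.Q) ∨
    (E.om = none ∧ ∀ a ∈ E.T, ∀ b ∈ E.T, a ≠ b → τ' s(a, b) ≠ 0)
  l1 : ∀ B S : Finset α, B ⊆ V' → B.Nonempty → Adm V' τ' E B → Cov V' τ' B S → 3 ≤ S.card

/-- The facts on a frame that the checker uses. -/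
structure Ok (m : Md) (V : Finset α) (τ : Sym2 α → Fin 3) (E : Env α) : Prop where
  con : Con3 V τ
  subQ : E.Q ⊆ V
  subT : E.T ⊆ V
  dis : ∀ v ∈ E.Q, v ∉ E.T
  cT : E.T.card ≤ 3
  nbq : ∀ v ∈ E.Q, ∀ b ∈ nb V τ v, b ∈ E.Q ∨ b ∈ E.T ∨ E.om = some b
  omn : m.wm = false → E.om = none
  oms : m.wm = true → E.T = ∅ ∧ ∃ w, E.om = some w
  omv : ∀ w, E.om = some w → w ∈ V ∧ w ∉ E.Q ∧ w ∉ E.T ∧ dg V τ w = 3
  ds3 : ∀ v, v ∈ E.Q ∨ v ∈ E.T → 3 ≤ ds V τ E v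
  dsT : ∀ v ∈ E.T, ds V τ E v ≤ dg V τ v
  big : m.big = true → ∀ v ∈ E.Q, v ∉ E.Dr → 4 ≤ dg V τ v
  dr1 : ∀ v ∈ E.Dr, v ∈ E.Q ∧ ∃ p ∈ nb V τ v, (p ∈ E.T ∧ ds V τ E p = 3) ∨ E.om = some p
  dr2 : ∀ v ∈ E.Q, ∀ p ∈ E.T, p ∈ nb V τ v → ds V τ E p = 3 → v ∈ E.Dr
  two : ∀ v ∈ E.Q, ∀ p ∈ E.T, ∀ p' ∈ E.T, p ∈ nb V τ v → p' ∈ nb V τ v → ds V τ E p = 3 →
    ds V τ E p' = 3 → p = p'
  q2 : m.rl = true → 2 ≤ E.Q.card ∧ E.T.card = 3
  a1 : m.rl = true ∨ m.wm = true → ∀ B U : Finset α, Adm V τ E B → B.Nonempty → Cov V τ B U →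
    3 ≤ U.card
  a2 : m.rl = true ∨ m.wm = true → ∀ B U : Finset α, Adm V τ E B → 2 ≤ B.card → Cov V τ B U →
    Disjoint B U → U.card ≤ 3 →
      (∀ c, c ∈ E.Q ∨ c ∈ E.T → c ∉ B → c ∉ U → c ∈ E.T ∧ ds V τ E c = 3) ∧
      (∀ u ∈ U, u ∈ E.Q → u ∈ E.Dr) ∧ (m.q0 = true → 3 ≤ B.card) ∧
      (m.q0 = true ∨ m.wm = true → ∀ u ∈ U, u ∈ E.Q ∨ (u ∈ E.T ∧ 4 ≤ ds V τ E u) →
        2 ≤ (nb V τ u ∩ B).card) ∧
      ∀ w, E.om = some w → U ⊆ insert w (nb V τ w)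
  t0 : m.q0 = true → ∀ v, v ∈ E.Dr ∨ (v ∈ E.T ∧ 4 ≤ ds V τ E v) →
    2 ≤ (nb V τ v ∩ (E.Q \ E.Dr)).card
  nf : m.nf = true → ∀ a b, E.Q ⊆ {a, b} → τ s(a, b) ≠ 0 → dg V τ a = 3 → dg V τ b = 3 → False
  fr : m.fr = true → E.Q = V ∧ (∀ a ∈ V, ∀ b ∈ V, a ≠ b → τ s(a, b) ≠ 2) ∧
    (∀ a ∈ V, ∀ b ∈ nb V τ a, ∀ c ∈ nb V τ a, c ∉ nb V τ b) ∧
    ∀ B U : Finset α, B ⊆ V → 2 ≤ B.card → Cov V τ B U → U.card ≤ 3 → (V \ (B ∪ U)).card ≤ 1
  safe : m.rl = true ∨ m.wm = true → ∀ (V' : Finset α) (τ' : Sym2 α → Fin 3), Chg V τ E V' τ' →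
    Con3 V' τ'

/-- A thick fragment. -/
structure Thick (V : Finset α) (τ : Sym2 α → Fin 3) (Q T : Finset α) : Prop where
  subQ : Q ⊆ V
  subT : T ⊆ V
  dis : Disjoint Q T
  cQ : 2 ≤ Q.card
  cT : T.card = 3
  cov : Cov V τ Q T
  out : ∀ t ∈ T, 2 ≤ (nb V τ t \ Q).card

/-- A thick fragment that contains no other one. -/
def MinThick (V : Finset α) (τ : Sym2 α → Fin 3) (Q T : Finset α) : Prop :=
  Thick V τ Q T ∧ ∀ Q' T', Thick V τ Q' T' → Q' ⊆ Q → Q' = Q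

/-- The frame of a thick fragment. -/
def envR (V : Finset α) (τ : Sym2 α → Fin 3) (Q T : Finset α) : Env α :=
  ⟨Q, T, none, Q.filter fun v => ∃ p ∈ T, nb V τ p ∩ Q = {v}⟩

/-- The frame of a cubic vertex. -/
def envW (V : Finset α) (τ : Sym2 α → Fin 3) (w : α) : Env α := ⟨V.erase w, ∅, some w, nb V τ w⟩

/-- The frame of the whole graph. -/
def envF (V : Finset α) : Env α := ⟨V, ∅, none, ∅⟩

end Pool.Agent.Lib.MP_efe3d7_co.H
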