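import Pool.Agent.Lib.MP_efe3d7_co.H.Bas

/-! The sum over a pattern is a polynomial. -/

set_option autoImplicit false

open Finset

namespace Pool.Agent.Lib.MP_efe3d7_co.H

variable {α : Type} [Fintype α] [DecidableEq α]

open Classical in
theorem pat2_aux (U : Finset α) (P : α × α → Prop) (T : Finset (α × α))
    (hT : ∀ q ∈ T, q.1 ∈ U ∧ q.2 ∈ U ∧ q.1 ≠ q.2) (y : Sym2 α → ℝ) :
    ∃ R : Polynomial ℝ, ∀ n : ℕ, R.eval (n : ℝ) =
      ∑ c : α → Fin n, if ∀ q ∈ T, (c q.1 = c q.2 ↔ P q) then W U y c else 0 := by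
  induction T using Finset.induction_on generalizing y with
  | empty => exact ⟨Zp U y, fun n => by simp [eval_Zp]⟩
  | insert q T _ ih =>
    obtain ⟨h1, h2, h3⟩ := hT q (mem_insert_self _ _)
    obtain ⟨R, hR⟩ := ih (fun r hr => hT r (mem_insert_of_mem hr)) y
    obtain ⟨R', hR'⟩ := ih (fun r hr => hT r (mem_insert_of_mem hr))
      (Function.update y s(q.1, q.2) 0)
    have key : ∀ (n : ℕ) (c : α → Fin n), W U (Function.update y s(q.1, q.2) 0) c =
        if c q.1 = c q.2 then 0 else W U y c := fun n c => by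
      have h4 := W_update h1 h2 h3 y c (y s(q.1, q.2))
      rw [Function.update_eq_self] at h4
      rw [W_update h1 h2 h3 y c 0, h4]
      split_ifs <;> simp
    refine ⟨if P q then R - R' else R', fun n => ?_⟩
    simp only [forall_mem_insert]
    by_cases hP : P q
    · rw [if_pos hP, Polynomial.eval_sub, hR, hR', ← sum_sub_distrib]
      refine sum_congr rfl fun c _ => ?_
      rw [key]
      by_cases h4 : c q.1 = c q.2
      · simp only [h4, hP, iff_self, true_and, if_true, ite_self, sub_zero]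
      · simp only [h4, hP, iff_true, false_and, if_false, sub_self]
    · rw [if_neg hP, hR']
      refine sum_congr rfl fun c _ => ?_
      rw [key]
      by_cases h4 : c q.1 = c q.2 <;>
        simp only [h4, hP, iff_false, not_true, true_and, false_and, if_true, if_false, ite_self,
          iff_self]

theorem pol_pat (U : Finset α) (y : Sym2 α → ℝ) (v : ℕ → α) (u cs : ℕ) (hU : ∀ i < u, v i ∈ U)
    (hinj : ∀ i < u, ∀ j < u, v i = v j → i = j) :
    ∃ R : Polynomial ℝ, ∀ n : ℕ, R.eval (n : ℝ) = SS n U y v u cs := by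
  classical
  obtain ⟨R, hR⟩ := pat2_aux U
    (fun q => ∃ i < u, ∃ j < u, q = (v i, v j) ∧ dig cs i = dig cs j)
    ((range u).offDiag.image fun p => (v p.1, v p.2)) (fun q hq => by
      obtain ⟨p, hp, rfl⟩ := mem_image.1 hq
      obtain ⟨h1, h2, h3⟩ := mem_offDiag.1 hp
      exact ⟨hU _ (mem_range.1 h1), hU _ (mem_range.1 h2),
        fun e => h3 (hinj _ (mem_range.1 h1) _ (mem_range.1 h2) e)⟩) y
  refine ⟨R, fun n => (hR n).trans (sum_congr rfl fun c _ =>
    @if_congr _ _ _ (_) (_) _ _ _ _ ?_ rfl rfl)⟩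
  have key : ∀ i < u, ∀ j < u, (∃ i' < u, ∃ j' < u, (v i, v j) = (v i', v j') ∧
      dig cs i' = dig cs j') ↔ dig cs i = dig cs j := fun i hi j hj =>
    ⟨fun ⟨i', hi', j', hj', e, h⟩ => by
      rw [hinj i hi i' hi' (Prod.mk.inj e).1, hinj j hj j' hj' (Prod.mk.inj e).2, h],
      fun h => ⟨i, hi, j, hj, rfl, h⟩⟩
  rw [forall_mem_image]
  refine ⟨fun h i hi j hj => ?_, fun h p hp => ?_⟩
  · by_cases e : i = j
    · simp [e]
    · exact (h (x := (i, j)) (mem_offDiag.2 ⟨mem_range.2 hi, mem_range.2 hj, e⟩)).trans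
        (key i hi j hj)
  · obtain ⟨h1, h2, -⟩ := mem_offDiag.1 hp
    exact (h _ (mem_range.1 h1) _ (mem_range.1 h2)).trans
      (key _ (mem_range.1 h1) _ (mem_range.1 h2)).symm

end Pool.Agent.Lib.MP_efe3d7_co.H
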