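import Pool.Agent.Lib.MP_efe3d7_co.H.Bas

/-! The factor of the terminals. -/

set_option autoImplicit false

open Finset

namespace Pool.Agent.Lib.MP_efe3d7_co.H

variable {α : Type} [Fintype α] [DecidableEq α]

theorem SS_term (x : ℝ) (n : ℕ) (U : Finset α) (y y' : Sym2 α → ℝ) (v : ℕ → α) (s ct cs : ℕ)
    (hU : ∀ i < s, v i ∈ U) (hinj : ∀ i < s, ∀ j < s, v i = v j → i = j)
    (h1 : ∀ a ∈ U, ∀ b ∈ U, a ≠ b → (∀ i < s, v i ≠ a) → y' s(a, b) = y s(a, b))
    (h2 : ∀ i < s, ∀ j < i, y' s(v i, v j) = y s(v i, v j) * wn x (ty ct i j)) :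
    SS n U y' v s cs = (∏ u ∈ range s, facR x ct cs u (dig cs u)) * SS n U y v s cs := by
  unfold SS
  rw [mul_sum]
  refine sum_congr rfl fun c _ => ?_
  split_ifs with hc
  swap
  · rw [mul_zero]
  let φ : (Σ _ : ℕ, ℕ) → Sym2 α := fun q => s(v q.1, v q.2)
  have hφ : Set.InjOn φ ((range s).sigma range : Finset (Σ _ : ℕ, ℕ)) := by
    rintro ⟨i, j⟩ hq ⟨k, l⟩ hq' e
    simp only [coe_sigma, Set.mem_sigma_iff, coe_range, Set.mem_Iio] at hq hq'
    rcases Sym2.eq_iff.1 e with ⟨e1, e2⟩ | ⟨e1, e2⟩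
    · obtain rfl : i = k := hinj i hq.1 k hq'.1 e1
      obtain rfl : j = l := hinj j (hq.2.trans hq.1) l (hq'.2.trans hq'.1) e2
      rfl
    · have e3 := hinj i hq.1 l (hq'.2.trans hq'.1) e1
      have e4 := hinj j (hq.2.trans hq.1) k hq'.1 e2
      omega
  have hs : ((range s).sigma range).image φ ⊆ pairs U := by
    intro e he
    obtain ⟨⟨i, j⟩, hq, rfl⟩ := mem_image.1 he
    simp only [mem_sigma, mem_range] at hq
    exact mk_mem_pairs.2 ⟨hU i hq.1, hU j (hq.2.trans hq.1),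
      fun e => hq.2.ne' (hinj i hq.1 j (hq.2.trans hq.1) e)⟩
  have k1 : ∏ e ∈ pairs U \ ((range s).sigma range).image φ, om y' c e =
      ∏ e ∈ pairs U \ ((range s).sigma range).image φ, om y c e := by
    refine prod_congr rfl fun e he => ?_
    induction e using Sym2.ind with
    | h a b =>
      obtain ⟨he1, he2⟩ := mem_sdiff.1 he
      obtain ⟨ha, hb, hab⟩ := mk_mem_pairs.1 he1
      have e : y' s(a, b) = y s(a, b) := by
        by_cases ka : ∀ i < s, v i ≠ a
        · exact h1 a ha b hb hab ka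
        by_cases kb : ∀ i < s, v i ≠ b
        · rw [Sym2.eq_swap]
          exact h1 b hb a ha hab.symm kb
        push Not at ka kb
        obtain ⟨i, hi, rfl⟩ := ka
        obtain ⟨j, hj, rfl⟩ := kb
        refine absurd ?_ he2
        rcases lt_trichotomy i j with k | k | k
        · exact mem_image.2 ⟨⟨j, i⟩, by simp [hj, k], Sym2.eq_swap⟩
        · exact absurd (k ▸ rfl) hab
        · exact mem_image.2 ⟨⟨i, j⟩, by simp [hi, k], rfl⟩
      rw [om_mk, om_mk, e]
  unfold W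
  rw [← prod_sdiff hs, ← prod_sdiff hs, k1, prod_image hφ, prod_image hφ, mul_left_comm]
  refine congrArg _ ?_
  simp only [facR]
  rw [prod_sigma', ← prod_mul_distrib]
  refine prod_congr rfl fun q hq => ?_
  simp only [mem_sigma, mem_range] at hq
  have e := hc q.1 hq.1 q.2 (hq.2.trans hq.1)
  simp only [φ, om_mk, h2 _ hq.1 _ hq.2, e, eq_comm (a := dig cs q.2)]
  split_ifs
  · rw [mul_comm]
  · rw [mul_one]

end Pool.Agent.Lib.MP_efe3d7_co.H
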