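import Pool.Agent.Lib.MP_efe3d7_co.H.Pat3
import Pool.Agent.Lib.MP_efe3d7_co.H.SemEq

/-! Removing the inner vertices. -/

set_option autoImplicit false

open Finset

namespace Pool.Agent.Lib.MP_efe3d7_co.H

variable {α : Type} [Fintype α] [DecidableEq α]

omit [Fintype α] in
theorem pat5_set (U : Finset α) (v : ℕ → α) (u r : ℕ) :
    U ∪ (Ico u (u + (r + 1))).image v = insert (v u) U ∪ (Ico (u + 1) (u + 1 + r)).image v := by
  ext z
  simp only [mem_union, mem_image, mem_Ico, mem_insert]
  constructor
  · rintro (h | ⟨i, hi, rfl⟩)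
    · exact Or.inl (Or.inr h)
    · by_cases e : i = u
      · exact Or.inl (Or.inl (by rw [e]))
      · exact Or.inr ⟨i, by omega, rfl⟩
  · rintro ((rfl | h) | ⟨i, hi, rfl⟩)
    · exact Or.inr ⟨u, by omega, rfl⟩
    · exact Or.inl h
    · exact Or.inr ⟨i, by omega, rfl⟩

theorem SS_loc (x : ℝ) (n : ℕ) (y : Sym2 α → ℝ) (v : ℕ → α) (ct r : ℕ) :
    ∀ (U : Finset α) (u cs d : ℕ), u + r ≤ 8 → RG cs u d → (∀ i < u, v i ∈ U) →
      (∀ i, u ≤ i → i < u + r → v i ∉ U) → (∀ i < u + r, ∀ j < u + r, v i = v j → i = j) →
      (∀ i, u ≤ i → i < u + r → ∀ z ∈ U, (∀ l < u, v l ≠ z) → y s(v i, z) = 1) →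
      (∀ i, u ≤ i → i < u + r → ∀ j < i, y s(v i, v j) = wn x (ty ct i j)) →
      (n : ℝ) ^ r * SS n (U ∪ (Ico u (u + r)).image v) y v u cs =
        (locP x ct r u cs d).eval (n : ℝ) * SS n U y v u cs := by
  induction r with
  | zero =>
    intro U u cs d _ _ _ _ _ _ _
    simp [locP]
  | succ r ih =>
    intro U u cs d hr hRG hU hn hinj h1 h2
    have hu : u < 8 := by omega
    have hv : v u ∉ U := hn u le_rfl (by omega)
    have key : ∀ c ≤ d, (n : ℝ) ^ (r + 1) *
        SS n (insert (v u) U ∪ (Ico (u + 1) (u + 1 + r)).image v) y v (u + 1) (sdg cs u c) =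
        (locP x ct r (u + 1) (sdg cs u c) (if c = d then d + 1 else d)).eval (n : ℝ) *
          (if c = d then (n : ℝ) - d else facR x ct cs u c) * SS n U y v u cs := by
      intro c hc
      have a := ih (insert (v u) U) (u + 1) (sdg cs u c) _ (by omega) (RG_step hu hRG hc)
        (fun i hi => by
          by_cases e : i = u
          · rw [e]; exact mem_insert_self _ _
          · exact mem_insert_of_mem (hU i (by omega)))
        (fun i hi hi' hm => by
          rcases mem_insert.1 hm with e | e
          · have := hinj i (by omega) u (by omega) e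
            omega
          · exact hn i (by omega) (by omega) e)
        (fun i hi j hj e => hinj i (by omega) j (by omega) e)
        (fun i hi hi' z hz hl => by
          rcases mem_insert.1 hz with e | e
          · exact absurd e.symm (hl u (by omega))
          · exact h1 i (by omega) (by omega) z e fun l hl' => hl l (by omega))
        (fun i hi hi' j hj => h2 i (by omega) (by omega) j hj)
      have b := SS_peel x n U y v (ct := ct) hu hRG hc hv hU
        (fun i hi j hj e => hinj i (by omega) j (by omega) e)
        (fun z hz hl => h1 u le_rfl (by omega) z hz hl)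
        (fun j hj => h2 u le_rfl (by omega) j hj)
      rw [pow_succ', mul_assoc, a, mul_left_comm, b, mul_assoc]
    rw [pat5_set, SS_refine n _ y v hu hRG, mul_sum,
      sum_congr rfl fun c hc => key c (Nat.lt_succ_iff.1 (mem_range.1 hc)), ← sum_mul,
      sum_range_succ, locP]
    congr 1
    rw [Polynomial.eval_add, Polynomial.eval_finsetSum, add_comm, if_pos rfl, if_pos rfl]
    congr 1
    · simp only [Polynomial.eval_mul, Polynomial.eval_sub, Polynomial.eval_X, Polynomial.eval_C]
      ring
    · refine sum_congr rfl fun c hc => ?_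
      have e : c ≠ d := (mem_range.1 hc).ne
      rw [if_neg e, if_neg e, Polynomial.eval_mul, Polynomial.eval_C, mul_comm]

end Pool.Agent.Lib.MP_efe3d7_co.H
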