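import Pool.Agent.Lib.MP_efe3d7_co.H.Pol
import Pool.Agent.Lib.MP_efe3d7_co.H.Pat2
import Pool.Agent.Lib.MP_efe3d7_co.H.Pat4
import Pool.Agent.Lib.MP_efe3d7_co.H.Pat5

/-! The expansion along the partitions of the terminals. -/

set_option autoImplicit false

open Finset

namespace Pool.Agent.Lib.MP_efe3d7_co.H

variable {α : Type} [Fintype α] [DecidableEq α]

theorem expand {x : ℝ} (hx : 0 < x) (U : Finset α) (y : Sym2 α → ℝ) (v : ℕ → α) (s : ℕ)
    (hU : ∀ i < s, v i ∈ U) (hinj : ∀ i < s, ∀ j < s, v i = v j → i = j) :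
    ∃ R : ℕ → ℝ, ∀ (ni ct : ℕ) (y' : Sym2 α → ℝ), s + ni ≤ 8 →
      (∀ i < s + ni, ∀ j < s + ni, v i = v j → i = j) → (∀ i, s ≤ i → i < s + ni → v i ∉ U) →
      (∀ a ∈ U, ∀ b ∈ U, a ≠ b → (∀ i < s, v i ≠ a) → y' s(a, b) = y s(a, b)) →
      (∀ i < s, ∀ j < i, y' s(v i, v j) = y s(v i, v j) * wn x (ty ct i j)) →
      (∀ i, s ≤ i → i < s + ni → ∀ z ∈ U, (∀ l < s, v l ≠ z) → y' s(v i, z) = 1) →
      (∀ i, s ≤ i → i < s + ni → ∀ j < i, y' s(v i, v j) = wn x (ty ct i j)) →
      ff x (U ∪ (Ico s (s + ni)).image v) y' =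
        ((parts s).map fun p => R p.1 * ev x (val s ni ct p.1 p.2)).sum := by
  choose Rp hRp using fun cs => pol_pat U y v s cs hU hinj
  refine ⟨fun cs => (-1) ^ U.card * (1 + x) ^ U.card / (1 + x) ^ Fintype.card α *
    (Rp cs).eval (1 + x), fun ni ct y' h8 hi hn h1 h2 h3 h4 => ?_⟩
  have hs : s ≤ 8 := by omega
  have ev : ∀ (t : ℝ) (l : List (ℕ × ℕ)) (f : ℕ × ℕ → Polynomial ℝ),
      ((l.map f).sum).eval t = (l.map fun p => (f p).eval t).sum := fun t l f => by
    induction l with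
    | nil => simp
    | cons a l ih => simp only [List.map_cons, List.sum_cons, Polynomial.eval_add, ih]
  have key : Polynomial.X ^ ni * Zp (U ∪ (Ico s (s + ni)).image v) y' =
      ((parts s).map fun p => locP x ct ni s p.1 p.2 *
        (Polynomial.C (∏ u ∈ range s, facR x ct p.1 u (dig p.1 u)) * Rp p.1)).sum := by
    refine poly_ext fun n => ?_
    rw [Polynomial.eval_mul, Polynomial.eval_pow, Polynomial.eval_X, eval_Zp,
      sum_parts n _ y' v hs, ← List.sum_map_mul_left, ev]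
    refine congrArg _ (List.map_congr_left fun p hp => ?_)
    rw [SS_loc x n y' v ct ni U s p.1 p.2 h8 (parts_RG hs hp) hU hn hi h3 h4,
      SS_term x n U y y' v s ct p.1 hU hinj h1 h2, Polynomial.eval_mul, Polynomial.eval_mul,
      Polynomial.eval_C, hRp]
  have hc : (U ∪ (Ico s (s + ni)).image v).card = U.card + ni := by
    rw [card_union_of_disjoint, card_image_of_injOn, Nat.card_Ico, Nat.add_sub_cancel_left]
    · intro i hi' j hj e
      exact hi i (mem_Ico.1 hi').2 j (mem_Ico.1 hj).2 e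
    · refine disjoint_right.2 fun z hz => ?_
      obtain ⟨i, hi', rfl⟩ := mem_image.1 hz
      exact hn i (mem_Ico.1 hi').1 (mem_Ico.1 hi').2
  have k2 := congrArg (Polynomial.eval (1 + x)) key
  rw [Polynomial.eval_mul, Polynomial.eval_pow, Polynomial.eval_X, ev] at k2
  have k3 : ff x (U ∪ (Ico s (s + ni)).image v) y' =
      (-1) ^ U.card * (1 + x) ^ U.card / (1 + x) ^ Fintype.card α * (-1) ^ ni *
        ((1 + x) ^ ni * (Zp (U ∪ (Ico s (s + ni)).image v) y').eval (1 + x)) := by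
    rw [ff, hc]
    ring
  rw [k3, k2, ← List.sum_map_mul_left]
  refine congrArg _ (List.map_congr_left fun p _ => ?_)
  rw [ev_val, Polynomial.eval_mul, Polynomial.eval_mul, Polynomial.eval_C]
  ring

end Pool.Agent.Lib.MP_efe3d7_co.H
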