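import Pool.Agent.Lib.MP_efe3d7_co.H.G0

/-! Fans: definitions. -/

set_option autoImplicit false

open Finset

namespace Pool.Agent.Lib.MP_efe3d7_co.H

variable {α : Type} [DecidableEq α] {V : Finset α} {τ : Sym2 α → Fin 3}

/-- A fan with hub `a`, cubic vertices `v 1, …, v k` and ends `v 0`, `v (k + 1)`. -/
structure Fan (V : Finset α) (τ : Sym2 α → Fin 3) (a : α) (v : ℕ → α) (k : ℕ) : Prop where
  k2 : 2 ≤ k
  ha : a ∈ V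
  hv : ∀ i, i ≤ k + 1 → v i ∈ V
  na : ∀ i, i ≤ k + 1 → v i ≠ a
  inj : ∀ i j, i ≤ k + 1 → j ≤ k + 1 → v i = v j → i = j
  nbr : ∀ i, i < k → nb V τ (v (i + 1)) = {a, v i, v (i + 2)}
  hub : 4 ≤ dg V τ a

/-- The cubic vertices of a fan. -/
def fanQ (v : ℕ → α) (k : ℕ) : Finset α := (range k).image fun i => v (i + 1)

theorem mem_fanQ {v : ℕ → α} {k : ℕ} {w : α} : w ∈ fanQ v k ↔ ∃ i, i < k ∧ v (i + 1) = w := by
  simp [fanQ]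

/-- A fan that cannot be extended. -/
def MFan (V : Finset α) (τ : Sym2 α → Fin 3) (a : α) (v : ℕ → α) (k : ℕ) : Prop :=
  Fan V τ a v k ∧ ¬ (dg V τ (v 0) = 3 ∧ a ∈ nb V τ (v 0)) ∧
    ¬ (dg V τ (v (k + 1)) = 3 ∧ a ∈ nb V τ (v (k + 1)))

/-- The graph consists of a fan, its hub and its ends. -/
def Wheel (V : Finset α) (τ : Sym2 α → Fin 3) : Prop :=
  ∃ a v k, Fan V τ a v k ∧ V \ fanQ v k = {v 0, a, v (k + 1)}

/-- The properties of a maximal fan `F` with hub `a` and ends `b`, `c`. -/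
structure AFan (V : Finset α) (τ : Sym2 α → Fin 3) (F : Finset α) (a b c wb wc : α) : Prop where
  sub : F ⊆ V
  ha : a ∈ V
  hb : b ∈ V
  hc : c ∈ V
  aF : a ∉ F
  bF : b ∉ F
  cF : c ∉ F
  ab : a ≠ b
  ac : a ≠ c
  bc : b ≠ c
  cub : ∀ v ∈ F, dg V τ v = 3 ∧ a ∈ nb V τ v
  hub : 4 ≤ dg V τ a
  out : ∀ v ∈ F, ∀ w ∈ nb V τ v, w ∈ F ∨ w = a ∨ (v = wb ∧ w = b) ∨ (v = wc ∧ w = c)
  wbF : wb ∈ F
  wcF : wc ∈ F
  wbc : wb ≠ wc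
  bw : b ∈ nb V τ wb
  cw : c ∈ nb V τ wc
  conn : ∀ X : Finset α, (∃ v ∈ F, v ∈ X) → (∃ v ∈ F, v ∉ X) →
    ∃ v ∈ F, ∃ w ∈ F, v ∈ X ∧ w ∉ X ∧ w ∈ nb V τ v
  eb : ¬ (dg V τ b = 3 ∧ a ∈ nb V τ b)
  ec : ¬ (dg V τ c = 3 ∧ a ∈ nb V τ c)

/-- The fan is replaced by the two edges from the hub to the ends. -/
def pth (τ : Sym2 α → Fin 3) (a b c : α) : Sym2 α → Fin 3 :=
  Function.update (Function.update τ s(a, b) 1) s(a, c) 1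

end Pool.Agent.Lib.MP_efe3d7_co.H
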