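import Pool.Agent.Lib.MP_efe3d7_co.H.G0

/-! Minimal thick fragments: doors and the structure of small boundaries. -/

set_option autoImplicit false

open Finset

namespace Pool.Agent.Lib.MP_efe3d7_co.H

variable {α : Type} [DecidableEq α] {V : Finset α} {τ : Sym2 α → Fin 3}

theorem Thick.five {Q T : Finset α} (h : Thick V τ Q T) : 5 ≤ V.card := by
  have h1 : (Q ∪ T).card ≤ V.card := card_le_card (union_subset h.subQ h.subT)
  rw [card_union_of_disjoint h.dis, h.cT] at h1
  have := h.cQ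
  omega

/-- Every boundary vertex has a neighbour in the fragment. -/
theorem Thick.nbQ (hc : Con3 V τ) {Q T : Finset α} (h : Thick V τ Q T) {t : α} (ht : t ∈ T) :
    (nb V τ t ∩ Q).Nonempty := by
  by_contra k
  have hQ : Q.Nonempty := card_pos.1 (by have := h.cQ; omega)
  have h1 : Cov V τ Q (T.erase t) := fun a ha b hb => (h.cov a ha b hb).imp_right fun e =>
    mem_erase.2 ⟨fun e' => k ⟨a, mem_inter.2 ⟨e' ▸ nb_symm (h.subQ ha) hb, ha⟩⟩, e⟩
  have h2 := hc.three h.subQ hQ h1 (h.subT ht) (disjoint_right.1 h.dis ht) (notMem_erase t T)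
  rw [card_erase_of_mem ht, h.cT] at h2
  omega

theorem exists_min {Q T : Finset α} (h : Thick V τ Q T) :
    ∃ Q' T', MinThick V τ Q' T' ∧ Q' ⊆ Q := by
  induction hn : Q.card using Nat.strong_induction_on generalizing Q T with
  | _ n ih =>
    by_cases k : ∀ Q' T', Thick V τ Q' T' → Q' ⊆ Q → Q' = Q
    · exact ⟨Q, T, ⟨h, k⟩, Subset.refl _⟩
    · push Not at k
      obtain ⟨Q', T', h1, h2, h3⟩ := k
      obtain ⟨Q'', T'', h4, h5⟩ := ih _ (hn ▸ card_lt_card (ssubset_of_subset_of_ne h2 h3)) h1 rfl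
      exact ⟨Q'', T'', h4, h5.trans h2⟩

theorem fr1a_door {Q : Finset α} {d t : α} (hd : nb V τ t ∩ Q = {d}) :
    d ∈ Q ∧ d ∈ nb V τ t ∧ ∀ a ∈ Q, a ∈ nb V τ t → a = d := by
  have h1 : d ∈ nb V τ t ∩ Q := hd ▸ mem_singleton_self d
  exact ⟨(mem_inter.1 h1).2, (mem_inter.1 h1).1,
    fun a ha hb => mem_singleton.1 (hd ▸ mem_inter.2 ⟨hb, ha⟩)⟩

theorem fr1a_two {s : Finset α} {a b : α} (ha : a ∈ s) (hb : b ∈ s) (h : a ≠ b) : 2 ≤ s.card :=
  one_lt_card.2 ⟨a, ha, b, hb, h⟩

/-- A door has one neighbour in the boundary. -/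
theorem MinThick.door_one (hc : Con3 V τ) {Q T : Finset α} (h : MinThick V τ Q T)
    (h3 : 3 ≤ Q.card) {d t t' : α} (ht : t ∈ T) (hd : nb V τ t ∩ Q = {d}) (ht' : t' ∈ T)
    (h' : t' ∈ nb V τ d) : t' = t := by
  by_contra k
  obtain ⟨d1, d2, d3⟩ := fr1a_door hd
  have hT := h.1
  have dT : d ∉ T := disjoint_left.1 hT.dis d1
  have hdis : ∀ a ∈ Q, a ∉ T := fun a ha => disjoint_left.1 hT.dis ha
  have h1 : Thick V τ (Q.erase d) (insert d (T.erase t)) := by
    refine ⟨(erase_subset _ _).trans hT.subQ,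
      insert_subset (hT.subQ d1) ((erase_subset _ _).trans hT.subT), ?_, ?_, ?_, ?_, ?_⟩
    · refine disjoint_left.2 fun a ha hb => ?_
      simp only [mem_erase, mem_insert] at ha hb
      exact hb.elim ha.1 fun e => hdis a ha.2 e.2
    · rw [card_erase_of_mem d1]
      omega
    · rw [card_insert_of_notMem fun e => dT (mem_of_mem_erase e), card_erase_of_mem ht, hT.cT]
    · intro a ha b hb
      simp only [mem_erase, mem_insert] at ha ⊢
      by_cases e : b = d
      · exact Or.inr (Or.inl e)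
      · refine (hT.cov a ha.2 b hb).imp (fun e' => ⟨e, e'⟩) fun e' => Or.inr ⟨?_, e'⟩
        rintro rfl
        exact ha.1 (d3 a ha.2 (nb_symm (hT.subQ ha.2) hb))
    · intro a ha
      rcases mem_insert.1 ha with rfl | ha
      · exact fr1a_two (mem_sdiff.2 ⟨h', fun e => hdis _ (mem_of_mem_erase e) ht'⟩)
          (mem_sdiff.2 ⟨nb_symm (hT.subT ht) d2, fun e => hdis _ (mem_of_mem_erase e) ht⟩) k
      · exact (hT.out a (mem_of_mem_erase ha)).trans
          (card_le_card (sdiff_subset_sdiff (Subset.refl _) (erase_subset _ _)))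
  exact notMem_erase d Q ((h.2 _ _ h1 (erase_subset _ _)).symm ▸ d1)

/-- Doors are not adjacent. -/
theorem MinThick.door_two (hc : Con3 V τ) {Q T : Finset α} (h : MinThick V τ Q T)
    (h4 : 4 ≤ Q.card) {d d' t t' : α} (ht : t ∈ T) (ht' : t' ∈ T) (hd : nb V τ t ∩ Q = {d})
    (hd' : nb V τ t' ∩ Q = {d'}) : d' ∉ nb V τ d := by
  intro k
  obtain ⟨d1, d2, d3⟩ := fr1a_door hd
  obtain ⟨e1, e2, e3⟩ := fr1a_door hd'
  have hT := h.1
  have dd : d' ≠ d := (mem_nb.1 k).2.1
  have tt : t' ≠ t := by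
    rintro rfl
    exact dd (d3 d' e1 e2)
  have hdis : ∀ a ∈ Q, a ∉ T := fun a ha => disjoint_left.1 hT.dis ha
  have hs : (Q.erase d).erase d' ⊆ Q := (erase_subset _ _).trans (erase_subset _ _)
  have hs' : (T.erase t).erase t' ⊆ T := (erase_subset _ _).trans (erase_subset _ _)
  have h1 : Thick V τ ((Q.erase d).erase d') (insert d (insert d' ((T.erase t).erase t'))) := by
    refine ⟨hs.trans hT.subQ, insert_subset (hT.subQ d1)
      (insert_subset (hT.subQ e1) (hs'.trans hT.subT)), ?_, ?_, ?_, ?_, ?_⟩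
    · refine disjoint_left.2 fun a ha hb => ?_
      simp only [mem_erase, mem_insert] at ha hb
      exact hb.elim ha.2.1 fun e => e.elim ha.1 fun e => hdis a ha.2.2 e.2.2
    · rw [card_erase_of_mem (mem_erase.2 ⟨dd, e1⟩), card_erase_of_mem d1]
      omega
    · rw [card_insert_of_notMem, card_insert_of_notMem fun e => hdis _ e1 (hs' e),
        card_erase_of_mem (mem_erase.2 ⟨tt, ht'⟩), card_erase_of_mem ht, hT.cT]
      intro e
      exact (mem_insert.1 e).elim dd.symm fun e => hdis _ d1 (hs' e)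
    · intro a ha b hb
      simp only [mem_erase, mem_insert] at ha ⊢
      by_cases e : b = d
      · exact Or.inr (Or.inl e)
      by_cases e' : b = d'
      · exact Or.inr (Or.inr (Or.inl e'))
      refine (hT.cov a ha.2.2 b hb).imp (fun f => ⟨e', e, f⟩) fun f => Or.inr (Or.inr ⟨?_, ?_, f⟩)
      · rintro rfl
        exact ha.1 (e3 a ha.2.2 (nb_symm (hT.subQ ha.2.2) hb))
      · rintro rfl
        exact ha.2.1 (d3 a ha.2.2 (nb_symm (hT.subQ ha.2.2) hb))
    · intro a ha
      rcases mem_insert.1 ha with rfl | ha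
      · exact fr1a_two (mem_sdiff.2 ⟨k, notMem_erase _ _⟩)
          (mem_sdiff.2 ⟨nb_symm (hT.subT ht) d2, fun e => hdis _ (hs e) ht⟩)
          fun e => hdis _ e1 (e ▸ ht)
      rcases mem_insert.1 ha with rfl | ha
      · exact fr1a_two (mem_sdiff.2 ⟨nb_symm (hT.subQ d1) k,
            fun e => notMem_erase _ _ (mem_of_mem_erase e)⟩)
          (mem_sdiff.2 ⟨nb_symm (hT.subT ht') e2, fun e => hdis _ (hs e) ht'⟩)
          fun e => hdis _ d1 (e ▸ ht')
      · exact (hT.out a (hs' ha)).trans (card_le_card (sdiff_subset_sdiff (Subset.refl _) hs))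
  exact notMem_erase d' _ ((h.2 _ _ h1 hs).symm ▸ e1)

/-- The vertices of the fragment that are not doors. -/
def core (V : Finset α) (τ : Sym2 α → Fin 3) (Q T : Finset α) : Finset α :=
  Q \ (envR V τ Q T).Dr

theorem mem_core {Q T : Finset α} {v : α} :
    v ∈ core V τ Q T ↔ v ∈ Q ∧ ∀ t ∈ T, nb V τ t ∩ Q ≠ {v} := by
  simp only [core, envR, mem_sdiff, mem_filter, not_and, not_exists]
  exact ⟨fun h => ⟨h.1, fun t ht => h.2 h.1 t ht⟩, fun h => ⟨h.1, fun _ t ht => h.2 t ht⟩⟩

/-- A subset with at least two vertices and three neighbours is the fragment without some doors. -/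
theorem MinThick.ax (hc : Con3 V τ) {Q T : Finset α} (h : MinThick V τ Q T) {B U : Finset α}
    (hB : B ⊆ Q) (h2 : 2 ≤ B.card) (hcov : Cov V τ B U) (hdis : Disjoint B U) (h3 : U.card ≤ 3) :
    (∀ c ∈ Q, c ∉ B → c ∈ U ∧ ∃ t ∈ T, t ∉ U ∧ nb V τ t ∩ Q = {c}) ∧
      (∀ t ∈ T, t ∉ U → ∃ d ∈ U, nb V τ t ∩ Q = {d}) ∧ U ⊆ Q ∪ T := by
  induction hn : (Q \ B).card using Nat.strong_induction_on generalizing B U with
  | _ n ih =>
  have th := h.1
  have hQT : ∀ t ∈ T, t ∉ Q := fun t ht hq => disjoint_left.1 th.dis hq ht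
  have hBU : ∀ v ∈ U, v ∉ B := fun v hv hb => disjoint_left.1 hdis hb hv
  have big : ∀ X : Finset α, X ⊆ Q → X.Nonempty → 3 ≤ (bd V τ X).card := fun X hX hne =>
    hc.three' (hX.trans th.subQ) hne (cov_bd X) th.subT th.cT.ge fun t ht hx => hQT t ht (hX hx)
  have hne : B.Nonempty := card_pos.1 (by omega)
  have eU : bd V τ B = U := eq_of_subset_of_card_le hcov.bd_sub (h3.trans (big B hB hne))
  have cU : U.card = 3 := le_antisymm h3 (eU ▸ big B hB hne)
  have hUV : U ⊆ V := eU ▸ bd_subV B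
  have hUQT : U ⊆ Q ∪ T := fun v hv => by
    obtain ⟨⟨a, ha, hv'⟩, -⟩ := mem_bd.1 (eU ▸ hv)
    exact mem_union.2 (th.cov a (hB ha) v hv')
  by_cases hout : ∀ u ∈ U, 2 ≤ (nb V τ u \ B).card
  · obtain rfl : B = Q := h.2 B U ⟨hB.trans th.subQ, hUV, hdis, h2, cU, hcov, hout⟩ hB
    have eT : U = T := eq_of_subset_of_card_le
      (fun v hv => (mem_union.1 (hUQT hv)).resolve_left (hBU v hv)) (by rw [cU, th.cT])
    exact ⟨fun c h1 h2 => absurd h1 h2, fun t h1 h2 => absurd (eT ▸ h1) h2, hUQT⟩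
  push Not at hout
  obtain ⟨u, huU, hu1⟩ := hout
  have huT : u ∉ T := fun ht => by
    have h1 := th.out u ht
    have h2 := card_le_card (sdiff_subset_sdiff (Subset.refl (nb V τ u)) hB)
    omega
  have huQ : u ∈ Q := (mem_union.1 (hUQT huU)).resolve_right huT
  have huB : u ∉ B := hBU u huU
  have hB' : insert u B ⊆ Q := insert_subset huQ hB
  have cB' : (insert u B).card = B.card + 1 := card_insert_of_notMem huB
  have cE : (U.erase u).card = 2 := by rw [card_erase_of_mem huU, cU]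
  have hcv : Cov V τ (insert u B) (U.erase u ∪ (nb V τ u \ B)) := fun a ha b hb => by
    simp only [mem_insert, mem_union, mem_erase, mem_sdiff] at ha ⊢
    rcases ha with rfl | ha
    · tauto
    · have := hcov a ha b hb
      tauto
  have h3' := (big _ hB' (insert_nonempty _ _)).trans (card_le_card hcv.bd_sub)
  obtain ⟨u', hu'⟩ : ∃ u', nb V τ u \ B = {u'} := card_eq_one.1 (by
    have := card_union_le (U.erase u) (nb V τ u \ B)
    omega)
  have hu'm : u' ∈ nb V τ u ∧ u' ∉ B := mem_sdiff.1 (hu' ▸ mem_singleton_self u')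
  have hne' : u' ≠ u := (mem_nb.1 hu'm.1).2.1
  have hu'V : u' ∈ V := nb_sub _ hu'm.1
  rw [hu', union_comm, ← insert_eq] at hcv h3'
  have hu'U : u' ∉ U := fun k => by
    rw [insert_eq_of_mem (mem_erase.2 ⟨hne', k⟩)] at h3'
    omega
  obtain ⟨i1, i2, -⟩ := ih (Q \ insert u B).card (by
      rw [← hn]
      exact card_lt_card ⟨sdiff_subset_sdiff (Subset.refl Q) (subset_insert u B), fun k => by
        simpa using k (mem_sdiff.2 ⟨huQ, huB⟩)⟩)
    hB' (by omega) hcv (disjoint_left.2 fun v h1 h2 => by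
      simp only [mem_insert, mem_erase] at h1 h2
      rcases h2 with rfl | h2
      · exact h1.elim hne' hu'm.2
      · exact h1.elim h2.1 (hBU v h2.2))
    ((card_insert_le _ _).trans (by omega)) rfl
  have noB : ∀ b ∈ nb V τ u', b ∉ B := fun b hb k =>
    (hcov b k u' (nb_symm hu'V hb)).elim hu'm.2 hu'U
  have cQ : 3 ≤ Q.card := by
    have := card_le_card hB'
    omega
  have hu'T : u' ∈ T := by
    refine (th.cov u huQ u' hu'm.1).resolve_left fun hq => ?_
    have hn' : u' ∉ insert u B := by simp [hne', hu'm.2]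
    obtain ⟨-, t, ht, -, hd⟩ := i1 u' hq hn'
    have c4 : 4 ≤ Q.card := by
      have := card_le_card (insert_subset hq hB')
      rw [card_insert_of_notMem hn'] at this
      omega
    have hs : nb V τ u' ⊆ {u, t} := fun v hv => by
      simp only [mem_insert, mem_singleton]
      rcases th.cov u' hq v hv with k | k
      · by_contra e
        obtain ⟨-, t', ht', -, hd'⟩ := i1 v k (by simp [noB v hv, (not_or.1 e).1])
        exact h.door_two hc c4 ht ht' hd hd' hv
      · exact Or.inr (h.door_one hc cQ ht hd k hv)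
    have d3 := hc.dg3 (by have := th.five; omega) hu'V
    have := (card_le_card hs).trans (card_le_two (a := u) (b := t))
    unfold dg at d3
    omega
  have hdoor : nb V τ u' ∩ Q = {u} := by
    refine eq_singleton_iff_unique_mem.2
      ⟨mem_inter.2 ⟨nb_symm (th.subQ huQ) hu'm.1, huQ⟩, fun q hq => ?_⟩
    obtain ⟨q1, q2⟩ := mem_inter.1 hq
    by_contra e
    obtain ⟨-, t, ht, htU, hd⟩ := i1 q q2 (by simp [noB q q1, e])
    exact htU (h.door_one hc cQ ht hd hu'T (nb_symm hu'V q1) ▸ mem_insert_self _ _)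
  refine ⟨fun c h1 h2 => ?_, fun t h1 h2 => ?_, hUQT⟩
  · by_cases e : c = u
    · exact e ▸ ⟨huU, u', hu'T, hu'U, hdoor⟩
    obtain ⟨k, t, ht, htU, hd⟩ := i1 c h1 (by simp [e, h2])
    refine ⟨?_, t, ht, fun k' => htU (mem_insert_of_mem (mem_erase.2 ⟨?_, k'⟩)), hd⟩
    · rcases mem_insert.1 k with rfl | k
      · exact absurd h1 (hQT _ hu'T)
      · exact mem_of_mem_erase k
    · rintro rfl
      exact huT ht
  · by_cases e : t = u'
    · exact ⟨u, huU, e ▸ hdoor⟩
    obtain ⟨d, k, hd⟩ := i2 t h1 (by simp [e, h2])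
    refine ⟨d, ?_, hd⟩
    rcases mem_insert.1 k with rfl | k
    · exact absurd (mem_inter.1 (hd ▸ mem_singleton_self _)).2 (hQT _ hu'T)
    · exact mem_of_mem_erase k

end Pool.Agent.Lib.MP_efe3d7_co.H
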