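import Pool.Agent.Lib.MP_efe3d7_co.H.Fan0
import Pool.Agent.Lib.MP_efe3d7_co.H.Fr1

/-! Extending a fan. -/

set_option autoImplicit false

open Finset

namespace Pool.Agent.Lib.MP_efe3d7_co.H

variable {α : Type} [DecidableEq α] {V : Finset α} {τ : Sym2 α → Fin 3}

theorem Fan.rev {a : α} {v : ℕ → α} {k : ℕ} (h : Fan V τ a v k) :
    Fan V τ a (fun i => v (k + 1 - i)) k ∧ fanQ (fun i => v (k + 1 - i)) k = fanQ v k := by
  refine ⟨⟨h.k2, h.ha, fun i _ => h.hv _ (by omega), fun i _ => h.na _ (by omega),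
    fun i j hi hj e => ?_, fun i hi => ?_, h.hub⟩, ?_⟩
  · have := h.inj _ _ (by omega) (by omega) e
    omega
  · have e := h.nbr (k - 1 - i) (by omega)
    rw [show k - 1 - i + 1 = k + 1 - (i + 1) by omega, show k - 1 - i + 2 = k + 1 - i by omega,
      show k - 1 - i = k + 1 - (i + 2) by omega, pair_comm] at e
    exact e
  · ext w
    simp only [mem_fanQ]
    constructor
    · rintro ⟨i, hi, rfl⟩
      exact ⟨k - 1 - i, by omega, congrArg v (by omega)⟩
    · rintro ⟨i, hi, rfl⟩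
      exact ⟨k - 1 - i, by omega, congrArg v (by omega)⟩

theorem fan1a_side {r s : α} {T : Finset α} (h : Cov V τ {r, s} T) (hs : s ∈ nb V τ r)
    (h1 : dg V τ r = 3) : (nb V τ r).erase s ⊆ T ∧ ((nb V τ r).erase s).card = 2 := by
  refine ⟨fun w hw => ?_, by rw [card_erase_of_mem hs, show (nb V τ r).card = 3 from h1]⟩
  obtain ⟨k1, k2⟩ := mem_erase.1 hw
  refine (h r (by simp) w k2).resolve_left ?_
  simp [k1, (mem_nb.1 k2).2.1]

theorem fan1a_split {A : Finset α} {a : α} (ha : a ∈ A) (h : A.card = 2) :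
    ∃ c, c ≠ a ∧ A = {a, c} := by
  obtain ⟨c, hc⟩ := card_eq_one.1 (show (A.erase a).card = 1 by rw [card_erase_of_mem ha, h])
  refine ⟨c, ne_of_mem_erase (hc ▸ mem_singleton_self c), ?_⟩
  rw [← insert_erase ha, hc]

theorem fan_of_pair (hc : Con3 V τ) {r s : α} {T : Finset α} (h : Thick V τ {r, s} T)
    (hrs : τ s(r, s) ≠ 0) (h1 : dg V τ r = 3) (h2 : dg V τ s = 3) :
    ∃ a v, Fan V τ a v 2 ∧ fanQ v 2 = {r, s} := by
  have hne : r ≠ s := by
    rintro rfl
    have := h.cQ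
    simp at this
  have hr : r ∈ V := h.subQ (by simp)
  have hs : s ∈ V := h.subQ (by simp)
  have e1 : s ∈ nb V τ r := mem_nb.2 ⟨hs, hne.symm, hrs⟩
  have e2 : r ∈ nb V τ s := nb_symm hr e1
  have hT : ∀ t ∈ T, t ≠ r ∧ t ≠ s := fun t ht => by
    have := disjoint_right.1 h.dis ht
    simpa [not_or] using this
  obtain ⟨a1, a2⟩ := fan1a_side h.cov e1 h1
  obtain ⟨b1, b2⟩ := fan1a_side (T := T) (by rw [pair_comm]; exact h.cov) e2 h2
  have hU : (nb V τ r).erase s ∪ (nb V τ s).erase r = T := by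
    refine (union_subset a1 b1).antisymm fun t ht => ?_
    obtain ⟨w, hw⟩ := h.nbQ hc ht
    obtain ⟨k1, k2⟩ := mem_inter.1 hw
    have k3 := nb_symm (h.subT ht) k1
    simp only [mem_insert, mem_singleton] at k2
    simp only [mem_union, mem_erase]
    rcases k2 with rfl | rfl
    · exact Or.inl ⟨(hT t ht).2, k3⟩
    · exact Or.inr ⟨(hT t ht).1, k3⟩
  have hI := card_union_add_card_inter ((nb V τ r).erase s) ((nb V τ s).erase r)
  rw [hU, h.cT, a2, b2] at hI
  obtain ⟨a, ha⟩ := card_pos.1 (show 0 < ((nb V τ r).erase s ∩ (nb V τ s).erase r).card by omega)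
  obtain ⟨p1, p2⟩ := mem_inter.1 ha
  obtain ⟨c, c1, c2⟩ := fan1a_split p1 a2
  obtain ⟨b, d1, d2⟩ := fan1a_split p2 b2
  have hcT : c ∈ T := a1 (by simp [c2])
  have hbT : b ∈ T := b1 (by simp [d2])
  have haT : a ∈ T := a1 p1
  have hbc : b ≠ c := by
    rintro rfl
    rw [c2, d2, inter_self, ← c2, a2] at hI
    omega
  have n1 : nb V τ r = {a, c, s} := by
    rw [← insert_erase e1, c2]
    ext w
    simp only [mem_insert, mem_singleton]
    tauto
  have n2 : nb V τ s = {a, r, b} := by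
    rw [← insert_erase e2, d2]
    ext w
    simp only [mem_insert, mem_singleton]
    tauto
  have hub : 4 ≤ dg V τ a := by
    have k1 : ({r, s} : Finset α) ⊆ nb V τ a := by
      intro w hw
      simp only [mem_insert, mem_singleton] at hw
      rcases hw with rfl | rfl
      · exact nb_symm hr (mem_of_mem_erase p1)
      · exact nb_symm hs (mem_of_mem_erase p2)
    have k2 := h.out a haT
    have k3 := card_sdiff_add_card_eq_card k1
    have k4 := h.cQ
    unfold dg
    omega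
  obtain ⟨q1, q2⟩ := hT a haT
  obtain ⟨q3, q4⟩ := hT b hbT
  obtain ⟨q5, q6⟩ := hT c hcT
  refine ⟨a, fun i => if i = 0 then c else if i = 1 then r else if i = 2 then s else b,
    ⟨le_rfl, h.subT haT, fun i hi => ?_, fun i hi => ?_, fun i j hi hj => ?_, fun i hi => ?_,
      hub⟩, ?_⟩
  · split_ifs
    exacts [h.subT hcT, hr, hs, h.subT hbT]
  · split_ifs
    exacts [c1, q1.symm, q2.symm, d1]
  · grind
  · interval_cases i
    · simpa using n1
    · simpa using n2
  · ext w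
    simp only [mem_fanQ, mem_insert, mem_singleton]
    constructor
    · rintro ⟨i, hi, rfl⟩
      interval_cases i <;> simp
    · rintro (rfl | rfl)
      · exact ⟨0, by omega, by simp⟩
      · exact ⟨1, by omega, by simp⟩

theorem f1b_le {a : α} {v : ℕ → α} {k : ℕ} (h : Fan V τ a v k) : k + 2 ≤ V.card := by
  have := card_le_card_of_injOn (s := range (k + 2)) (t := V) v
    (fun i hi => h.hv i (by simpa [Nat.lt_succ_iff] using hi)) fun i hi j hj e =>
      h.inj i j (by simpa [Nat.lt_succ_iff] using hi) (by simpa [Nat.lt_succ_iff] using hj) e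
  simpa using this

theorem f1b_step (hc : Con3 V τ) {a : α} {v : ℕ → α} {k : ℕ} (h : Fan V τ a v k)
    (h3 : dg V τ (v (k + 1)) = 3) (ha : a ∈ nb V τ (v (k + 1))) :
    Wheel V τ ∨ ∃ v', Fan V τ a v' (k + 1) ∧ fanQ v k ⊆ fanQ v' (k + 1) := by
  obtain ⟨j, rfl⟩ : ∃ j, k = j + 1 := ⟨k - 1, by have := h.k2; omega⟩
  have h1 : v (j + 1) ∈ nb V τ (v (j + 1 + 1)) :=
    nb_symm (h.hv _ (by omega)) (by rw [h.nbr j (by omega)]; simp)
  have h2 : v (j + 1) ≠ a := h.na _ (by omega)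
  have hs : ({a, v (j + 1)} : Finset α) ⊆ nb V τ (v (j + 1 + 1)) := by
    simp [insert_subset_iff, ha, h1]
  obtain ⟨b, hb⟩ := card_eq_one.1 (show (nb V τ (v (j + 1 + 1)) \ {a, v (j + 1)}).card = 1 by
    rw [card_sdiff_of_subset hs, card_pair h2.symm]
    unfold dg at h3
    omega)
  have hb1 := mem_sdiff.1 (hb ▸ mem_singleton_self b)
  have hn : nb V τ (v (j + 1 + 1)) = {a, v (j + 1), b} := by
    rw [← union_sdiff_of_subset hs, hb]
    ext w
    simp only [mem_union, mem_insert, mem_singleton, or_assoc]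
  simp only [mem_insert, mem_singleton, not_or] at hb1
  by_cases e : b = v 0
  · have h4 := hc.2 (insert (v (j + 1 + 1)) (fanQ v (j + 1))) {a, v 0} (fun w hw => by
      rcases mem_insert.1 hw with rfl | hw
      · exact h.hv _ le_rfl
      · obtain ⟨i, hi, rfl⟩ := mem_fanQ.1 hw
        exact h.hv _ (by omega)) (insert_nonempty _ _) card_le_two fun w hw z hz => by
      simp only [mem_insert, mem_singleton, mem_fanQ] at hw ⊢
      rcases hw with rfl | ⟨i, hi, rfl⟩
      · rw [hn, e] at hz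
        simp only [mem_insert, mem_singleton] at hz
        rcases hz with rfl | rfl | rfl
        · exact .inr (.inl rfl)
        · exact .inl (.inr ⟨j, by omega, rfl⟩)
        · exact .inr (.inr rfl)
      · rw [h.nbr i hi] at hz
        simp only [mem_insert, mem_singleton] at hz
        rcases hz with rfl | rfl | rfl
        · exact .inr (.inl rfl)
        · rcases i with _ | i
          · exact .inr (.inr rfl)
          · exact .inl (.inr ⟨i, by omega, rfl⟩)
        · rcases eq_or_ne i j with rfl | e'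
          · exact .inl (.inl rfl)
          · exact .inl (.inr ⟨i + 1, by omega, rfl⟩)
    refine .inl ⟨a, v, j + 1, h, ext fun w => ?_⟩
    simp only [mem_sdiff, mem_insert, mem_singleton]
    refine ⟨fun hw => ?_, ?_⟩
    · have := h4 hw.1
      simp only [mem_union, mem_insert, mem_singleton] at this
      tauto
    · rintro (rfl | rfl | rfl)
      · exact ⟨h.hv _ (by omega), fun k => by
          obtain ⟨i, hi, e⟩ := mem_fanQ.1 k
          have := h.inj _ _ (by omega) (by omega) e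
          omega⟩
      · exact ⟨h.ha, fun k => by
          obtain ⟨i, hi, e⟩ := mem_fanQ.1 k
          exact h.na _ (by omega) e⟩
      · exact ⟨h.hv _ le_rfl, fun k => by
          obtain ⟨i, hi, e⟩ := mem_fanQ.1 k
          have := h.inj _ _ (by omega) le_rfl e
          omega⟩
  have h5 : ∀ i, i ≤ j + 1 + 1 → v i ≠ b := fun i hi e' => by
    subst e'
    rcases i with _ | i
    · exact e rfl
    rcases eq_or_ne i (j + 1) with rfl | e1
    · exact not_mem_nb _ hb1.1
    have h6 := nb_symm (h.hv _ le_rfl) hb1.1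
    rw [h.nbr i (by omega)] at h6
    simp only [mem_insert, mem_singleton] at h6
    rcases h6 with h6 | h6 | h6
    · exact h.na _ le_rfl h6
    · have := h.inj _ _ le_rfl (by omega) h6
      omega
    · have := h.inj _ _ le_rfl (by omega) h6
      exact hb1.2.2 (congrArg v (by omega))
  have u1 : ∀ i, i ≤ j + 1 + 1 → Function.update v (j + 1 + 2) b i = v i := fun i hi =>
    Function.update_of_ne (by omega) _ _
  have u2 : ∀ i, i ≤ j + 1 + 1 + 1 → i ≤ j + 1 + 1 ∨ i = j + 1 + 2 := fun i hi => by omega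
  refine .inr ⟨Function.update v (j + 1 + 2) b, ⟨by omega, h.ha, fun i hi => ?_, fun i hi => ?_,
    fun i i' hi hi' => ?_, fun i hi => ?_, h.hub⟩, fun w hw => ?_⟩
  · rcases u2 i hi with k | rfl
    · exact u1 i k ▸ h.hv i k
    · rw [Function.update_self]
      exact nb_sub _ hb1.1
  · rcases u2 i hi with k | rfl
    · exact u1 i k ▸ h.na i k
    · rw [Function.update_self]
      exact hb1.2.1
  · rcases u2 i hi with k | rfl <;> rcases u2 i' hi' with k' | rfl
    · rw [u1 i k, u1 i' k']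
      exact h.inj i i' k k'
    · rw [u1 i k, Function.update_self]
      exact fun e => absurd e (h5 i k)
    · rw [u1 i' k', Function.update_self]
      exact fun e => absurd e.symm (h5 i' k')
    · exact fun _ => rfl
  · rw [u1 (i + 1) (by omega), u1 i (by omega)]
    rcases eq_or_ne i (j + 1) with rfl | e1
    · rw [Function.update_self, hn]
    · rw [u1 (i + 2) (by omega), h.nbr i (by omega)]
  · obtain ⟨i, hi, rfl⟩ := mem_fanQ.1 hw
    exact mem_fanQ.2 ⟨i, by omega, u1 _ (by omega)⟩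

theorem Fan.ext (hc : Con3 V τ) {a : α} {v : ℕ → α} {k : ℕ} (h : Fan V τ a v k) :
    Wheel V τ ∨ ∃ v' k', MFan V τ a v' k' ∧ fanQ v k ⊆ fanQ v' k' := by
  obtain ⟨n, hn⟩ : ∃ n, V.card ≤ k + n := ⟨V.card, by omega⟩
  induction n generalizing v k with
  | zero =>
    have := f1b_le h
    omega
  | succ n ih =>
    have s : ∀ u, Fan V τ a u k → fanQ u k = fanQ v k → dg V τ (u (k + 1)) = 3 →
        a ∈ nb V τ (u (k + 1)) →
        Wheel V τ ∨ ∃ v' k', MFan V τ a v' k' ∧ fanQ v k ⊆ fanQ v' k' := fun u hu e h1 h2 =>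
      (f1b_step hc hu h1 h2).elim .inl fun ⟨v', h3, h4⟩ => (ih h3 (by omega)).imp_right
        fun ⟨w, k', h5, h6⟩ => ⟨w, k', h5, e ▸ h4.trans h6⟩
    by_cases h1 : dg V τ (v (k + 1)) = 3 ∧ a ∈ nb V τ (v (k + 1))
    · exact s v h rfl h1.1 h1.2
    by_cases h0 : dg V τ (v 0) = 3 ∧ a ∈ nb V τ (v 0)
    · exact s _ h.rev.1 h.rev.2 (by simpa using h0.1) (by simpa using h0.2)
    · exact .inr ⟨v, k, ⟨h, h0, h1⟩, Subset.rfl⟩

theorem fan1a_conn {a : α} {v : ℕ → α} {k : ℕ} (h : Fan V τ a v k) (X : Finset α)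
    (hX : ∀ u ∈ fanQ v k, ∀ w ∈ fanQ v k, u ∈ X → w ∈ nb V τ u → w ∈ X) (i : ℕ) (hi : i < k) :
    v (i + 1) ∈ X ↔ v 1 ∈ X := by
  induction i with
  | zero => rfl
  | succ i ih =>
    have m1 : v (i + 1) ∈ fanQ v k := mem_fanQ.2 ⟨i, by omega, rfl⟩
    have m2 : v (i + 1 + 1) ∈ fanQ v k := mem_fanQ.2 ⟨i + 1, hi, rfl⟩
    rw [← ih (by omega)]
    exact ⟨fun e => hX _ m2 _ m1 e (by simp [h.nbr (i + 1) hi]),
      fun e => hX _ m1 _ m2 e (by simp [h.nbr i (by omega)])⟩

theorem MFan.afan {a : α} {v : ℕ → α} {k : ℕ} (h : MFan V τ a v k) :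
    AFan V τ (fanQ v k) a (v (k + 1)) (v 0) (v k) (v 1) := by
  obtain ⟨f, ec, eb⟩ := h
  have k2 := f.k2
  have ne : ∀ i j, i ≤ k + 1 → j ≤ k + 1 → i ≠ j → v i ≠ v j := fun i j hi hj n e =>
    n (f.inj i j hi hj e)
  obtain ⟨l, rfl⟩ : ∃ l, k = l + 1 := ⟨k - 1, by omega⟩
  refine ⟨fun w hw => ?_, f.ha, f.hv _ le_rfl, f.hv _ (by omega), fun hw => ?_, fun hw => ?_,
    fun hw => ?_, (f.na _ le_rfl).symm, (f.na _ (by omega)).symm,
    ne _ _ le_rfl (by omega) (by omega), fun w hw => ?_, f.hub, fun u hu w hw => ?_,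
    mem_fanQ.2 ⟨l, by omega, rfl⟩, mem_fanQ.2 ⟨0, by omega, rfl⟩,
    ne _ _ (by omega) (by omega) (by omega), by simp [f.nbr l (by omega)],
    by simp [f.nbr 0 (by omega)], fun X h1 h2 => ?_, eb, ec⟩
  · obtain ⟨i, hi, rfl⟩ := mem_fanQ.1 hw
    exact f.hv _ (by omega)
  · obtain ⟨i, hi, e⟩ := mem_fanQ.1 hw
    exact f.na _ (by omega) e
  · obtain ⟨i, hi, e⟩ := mem_fanQ.1 hw
    exact ne _ _ (by omega) le_rfl (by omega) e
  · obtain ⟨i, hi, e⟩ := mem_fanQ.1 hw
    exact ne _ _ (by omega) (by omega) (by omega) e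
  · obtain ⟨i, hi, rfl⟩ := mem_fanQ.1 hw
    rw [dg, f.nbr i hi]
    exact ⟨card_eq_three.2 ⟨_, _, _, (f.na _ (by omega)).symm, (f.na _ (by omega)).symm,
      ne _ _ (by omega) (by omega) (by omega), rfl⟩, by simp⟩
  · obtain ⟨i, hi, rfl⟩ := mem_fanQ.1 hu
    rw [f.nbr i hi] at hw
    simp only [mem_insert, mem_singleton] at hw
    rcases hw with rfl | rfl | rfl
    · exact Or.inr (Or.inl rfl)
    · rcases i with _ | i
      · exact Or.inr (Or.inr (Or.inr ⟨rfl, rfl⟩))
      · exact Or.inl (mem_fanQ.2 ⟨i, by omega, rfl⟩)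
    · by_cases e : i = l
      · exact Or.inr (Or.inr (Or.inl ⟨by rw [e], by rw [e]⟩))
      · exact Or.inl (mem_fanQ.2 ⟨i + 1, by omega, rfl⟩)
  · by_contra n
    have hX : ∀ u ∈ fanQ v (l + 1), ∀ w ∈ fanQ v (l + 1), u ∈ X → w ∈ nb V τ u → w ∈ X :=
      fun u hu w hw e1 e2 => by_contra fun e3 => n ⟨u, hu, w, hw, e1, e3, e2⟩
    obtain ⟨u, hu, e1⟩ := h1
    obtain ⟨w, hw, e2⟩ := h2
    obtain ⟨i, hi, rfl⟩ := mem_fanQ.1 hu
    obtain ⟨j, hj, rfl⟩ := mem_fanQ.1 hw
    exact e2 ((fan1a_conn f X hX j hj).2 ((fan1a_conn f X hX i hi).1 e1))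

end Pool.Agent.Lib.MP_efe3d7_co.H
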