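import Pool.Agent.Lib.MP_efe3d7_co.H.Fan0

/-! Some maximal fan can be replaced by a path. -/

set_option autoImplicit false

open Finset

namespace Pool.Agent.Lib.MP_efe3d7_co.H

variable {α : Type} [DecidableEq α] {V : Finset α} {τ : Sym2 α → Fin 3}

/-- An obstruction to replacing the fan: one side `A` of a cut through the hub. -/
structure Cfg (V : Finset α) (τ : Sym2 α → Fin 3) (F : Finset α) (a b c wb u : α)
    (A : Finset α) : Prop where
  uV : u ∈ V
  uF : u ∉ F
  ua : u ≠ a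
  sub : A ⊆ V
  dF : ∀ v ∈ A, v ∉ F
  aA : a ∉ A
  uA : u ∉ A
  bA : b ∈ A
  cA : c ∉ A
  cu : c ≠ u
  cov : Cov V τ A {a, u, wb}

theorem f2a_nb {F : Finset α} {a b c x y : α} (hy : y ∈ nb V τ x) (hF : y ∉ F) :
    y ∈ nb (V \ F) (pth τ a b c) x := by
  rw [mem_nb] at hy ⊢
  refine ⟨mem_sdiff.2 ⟨hy.1, hF⟩, hy.2.1, ?_⟩
  rw [pth, Function.update_apply, Function.update_apply]
  split_ifs
  · decide
  · decide
  · exact hy.2.2

theorem f2a_ends {F : Finset α} {a b c wb wc : α} (h : AFan V τ F a b c wb wc) :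
    b ∈ nb (V \ F) (pth τ a b c) a ∧ c ∈ nb (V \ F) (pth τ a b c) a := by
  constructor
  · refine mem_nb.2 ⟨mem_sdiff.2 ⟨h.hb, h.bF⟩, h.ab.symm, ?_⟩
    rw [pth, Function.update_apply, Function.update_self]
    split_ifs <;> decide
  · refine mem_nb.2 ⟨mem_sdiff.2 ⟨h.hc, h.cF⟩, h.ac.symm, ?_⟩
    rw [pth, Function.update_self]
    decide

/-- The neighbours in the graph of a side of a separation of the path graph. -/
theorem f2a_side {F : Finset α} {a b c wb wc : α} (h : AFan V τ F a b c wb wc) {X S : Finset α}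
    (hX : X ⊆ V \ F) (hcov : Cov (V \ F) (pth τ a b c) X S) {x y : α} (hx : x ∈ X)
    (hy : y ∈ nb V τ x) :
    y ∈ X ∨ y ∈ S ∨ x = a ∨ (y = wb ∧ x = b) ∨ (y = wc ∧ x = c) := by
  obtain ⟨h1, h2⟩ := mem_sdiff.1 (hX hx)
  by_cases k : y ∈ F
  · exact Or.inr (Or.inr ((h.out y k x (nb_symm h1 hy)).resolve_left h2))
  · exact (hcov x hx y (f2a_nb hy k)).imp_right Or.inl

/-- Every side contains the hub or an end. -/
theorem f2a_meet (hc : Con3 V τ) {F : Finset α} {a b c wb wc : α} (h : AFan V τ F a b c wb wc)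
    {X S : Finset α} (hX : X ⊆ V \ F) (hcov : Cov (V \ F) (pth τ a b c) X S) (hS : S.card ≤ 2)
    (hne : X.Nonempty) {z : α} (hz : z ∈ V) (hzX : z ∉ X) (hzS : z ∉ S) :
    a ∈ X ∨ b ∈ X ∨ c ∈ X := by
  by_contra k
  push Not at k
  have h1 : Cov V τ X S := fun x hx y hy => by
    rcases f2a_side h hX hcov hx hy with e | e | e | e | e
    · exact Or.inl e
    · exact Or.inr e
    · exact absurd (e ▸ hx) k.1
    · exact absurd (e.2 ▸ hx) k.2.1
    · exact absurd (e.2 ▸ hx) k.2.2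
  have := hc.three (hX.trans sdiff_subset) hne h1 hz hzX hzS
  omega

theorem f2a_mk (hc : Con3 V τ) {F : Finset α} {a b c wb wc : α} (h : AFan V τ F a b c wb wc)
    {A S : Finset α} (hA : A ⊆ V \ F) (hSV : S ⊆ V \ F)
    (hcov : Cov (V \ F) (pth τ a b c) A S) (hS : S.card ≤ 2) (hd : ∀ v ∈ A, v ∉ S)
    (ha : a ∈ S) (hb : b ∈ A) (hcA : c ∉ A) (hcS : c ∉ S) : ∃ u A, Cfg V τ F a b c wb u A := by
  have aA : a ∉ A := fun q => hd a q ha
  have h1 : Cov V τ A (insert wb S) := fun x hx y hy => by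
    rcases f2a_side h hA hcov hx hy with e | e | e | e | e
    · exact Or.inl e
    · exact Or.inr (mem_insert_of_mem e)
    · exact absurd (e ▸ hx) aA
    · exact Or.inr (e.1 ▸ mem_insert_self _ _)
    · exact absurd (e.2 ▸ hx) hcA
  have h2 := hc.three (hA.trans sdiff_subset) ⟨b, hb⟩ h1 h.hc hcA (by
    rw [mem_insert, not_or]
    exact ⟨fun q => h.cF (q ▸ h.wbF), hcS⟩)
  have h3 := card_insert_le wb S
  have h4 := card_erase_of_mem ha
  obtain ⟨u, hu⟩ := card_eq_one.1 (show (S.erase a).card = 1 by omega)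
  obtain ⟨u1, u2⟩ : u ≠ a ∧ u ∈ S := mem_erase.1 (hu ▸ mem_singleton_self u)
  refine ⟨u, A, (mem_sdiff.1 (hSV u2)).1, (mem_sdiff.1 (hSV u2)).2, u1, hA.trans sdiff_subset,
    fun v hv => (mem_sdiff.1 (hA hv)).2, aA, fun q => hd u q u2, hb, hcA,
    fun q => hcS (q ▸ u2), h1.mono fun y hy => ?_⟩
  simp only [mem_insert, mem_singleton] at hy ⊢
  by_cases q : y = a
  · exact Or.inl q
  · exact Or.inr (hy.symm.imp_left fun e => mem_singleton.1 (hu ▸ mem_erase.2 ⟨q, e⟩))

/-- If the path is not three-connected, there is an obstruction. -/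
theorem AFan.cfg (hc : Con3 V τ) {F : Finset α} {a b c wb wc : α} (h : AFan V τ F a b c wb wc)
    (hn : ¬ Con3 (V \ F) (pth τ a b c)) : ∃ u A, Cfg V τ F a b c wb u A := by
  by_contra k
  have hs : ({a, b, c} : Finset α) ⊆ V \ F := by
    intro x hx
    simp only [mem_insert, mem_singleton] at hx
    rcases hx with rfl | rfl | rfl
    · exact mem_sdiff.2 ⟨h.ha, h.aF⟩
    · exact mem_sdiff.2 ⟨h.hb, h.bF⟩
    · exact mem_sdiff.2 ⟨h.hc, h.cF⟩
  have h3 : 3 ≤ (V \ F).card :=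
    (card_eq_three.2 ⟨a, b, c, h.ab, h.ac, h.bc, rfl⟩).ge.trans (card_le_card hs)
  refine hn (con3_of_sep h3 fun A S C hA hC hS hp d1 d2 d3 c1 c2 => ?_)
  have sA : A ⊆ V \ F := fun v hv => (hp v).2 (Or.inl hv)
  have sS : S ⊆ V \ F := fun v hv => (hp v).2 (Or.inr (Or.inl hv))
  have sC : C ⊆ V \ F := fun v hv => (hp v).2 (Or.inr (Or.inr hv))
  have d4 : ∀ v ∈ C, v ∉ A := fun v h1 h2 => d3 v h2 h1
  obtain ⟨x, hx⟩ := hA
  obtain ⟨z, hz⟩ := hC
  have m1 := f2a_meet hc h sA c1 hS ⟨x, hx⟩ (mem_sdiff.1 (sC hz)).1 (d4 z hz) (d2 z hz)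
  have m2 := f2a_meet hc h sC c2 hS ⟨z, hz⟩ (mem_sdiff.1 (sA hx)).1 (d3 x hx) (d1 x hx)
  obtain ⟨e1, e2⟩ := f2a_ends h
  have aA : a ∉ A := fun q => by
    rcases m2 with e | e | e
    · exact d3 a q e
    · exact (c1 a q b e1).elim (d4 b e) (d2 b e)
    · exact (c1 a q c e2).elim (d4 c e) (d2 c e)
  have aC : a ∉ C := fun q => by
    rcases m1 with e | e | e
    · exact aA e
    · exact (c2 a q b e1).elim (d3 b e) (d1 b e)
    · exact (c2 a q c e2).elim (d3 c e) (d1 c e)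
  have aS : a ∈ S := (((hp a).1 (mem_sdiff.2 ⟨h.ha, h.aF⟩)).resolve_left aA).resolve_right aC
  rcases m1.resolve_left aA with e | e <;> rcases m2.resolve_left aC with e' | e'
  · exact d3 b e e'
  · exact k (f2a_mk hc h sA sS c1 hS d1 aS e (d4 c e') (d2 c e'))
  · exact k (f2a_mk hc h sC sS c2 hS d2 aS e' (d3 c e) (d1 c e))
  · exact d3 c e e'

/-- The other side of an obstruction. -/
theorem Cfg.other {F A : Finset α} {a b c wb wc u : α} (h : AFan V τ F a b c wb wc)
    (g : Cfg V τ F a b c wb u A) : Cfg V τ F a c b wc u (V \ (F ∪ A ∪ {a, u})) := by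
  have m : ∀ x, x ∈ V \ (F ∪ A ∪ {a, u}) ↔ x ∈ V ∧ x ∉ F ∧ x ∉ A ∧ x ≠ a ∧ x ≠ u := fun x => by
    simp only [mem_sdiff, mem_union, mem_insert, mem_singleton, not_or, and_assoc]
  refine ⟨g.uV, g.uF, g.ua, sdiff_subset, fun v hv => ((m v).1 hv).2.1,
    fun q => ((m a).1 q).2.2.2.1 rfl, fun q => ((m u).1 q).2.2.2.2 rfl,
    (m c).2 ⟨h.hc, h.cF, g.cA, h.ac.symm, g.cu⟩, fun q => ((m b).1 q).2.2.1 g.bA,
    fun q => g.uA (q ▸ g.bA), fun x hx y hy => ?_⟩
  obtain ⟨x1, x2, x3, x4, x5⟩ := (m x).1 hx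
  have hxy := nb_symm x1 hy
  rw [m]
  simp only [mem_insert, mem_singleton]
  by_cases y1 : y ∈ F
  · rcases h.out y y1 x hxy with e | e | e | e
    · exact absurd e x2
    · exact absurd e x4
    · exact absurd (e.2 ▸ g.bA) x3
    · exact Or.inr (Or.inr (Or.inr e.1))
  by_cases y2 : y ∈ A
  · have e := (g.cov y y2 x hxy).resolve_left x3
    simp only [mem_insert, mem_singleton] at e
    rcases e with e | e | e
    · exact absurd e x4
    · exact absurd e x5
    · exact absurd (e ▸ h.wbF) x2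
  by_cases y3 : y = a
  · exact Or.inr (Or.inl y3)
  by_cases y4 : y = u
  · exact Or.inr (Or.inr (Or.inl y4))
  · exact Or.inl ⟨nb_sub _ hy, y1, y2, y3, y4⟩

theorem fan2b_two (hc : Con3 V τ) {F A : Finset α} {a b c wb wc u : α}
    (h : AFan V τ F a b c wb wc) (g : Cfg V τ F a b c wb u A)
    (hm : ∀ u' A', Cfg V τ F a b c wb u' A' → A.card ≤ A'.card) : 2 ≤ (nb V τ u ∩ A).card := by
  by_contra k
  have h4 : 4 ≤ V.card := h.hub.trans (card_le_card (nb_sub a))
  obtain ⟨u', hu', h1⟩ : ∃ u' ∈ A, ∀ v ∈ A, u ∈ nb V τ v → v = u' := by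
    rcases (nb V τ u ∩ A).eq_empty_or_nonempty with e | ⟨u', e⟩
    · exact ⟨b, g.bA, fun v hv hu =>
        absurd (mem_inter.2 ⟨nb_symm (g.sub hv) hu, hv⟩) (e ▸ notMem_empty v)⟩
    · exact ⟨u', (mem_inter.1 e).2, fun v hv hu => card_le_one.1 (by omega) v
        (mem_inter.2 ⟨nb_symm (g.sub hv) hu, hv⟩) u' e⟩
  by_cases hb : u' = b
  · subst hb
    have h2 : Cov V τ (A.erase u') {a, u'} := fun v hv w hw => by
      obtain ⟨v1, v2⟩ := mem_erase.1 hv
      have h3 := g.cov v v2 w hw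
      simp only [mem_insert, mem_singleton, mem_erase] at h3 ⊢
      rcases h3 with e | e | e | e
      · tauto
      · tauto
      · exact absurd (h1 v v2 (e ▸ hw)) v1
      · rcases h.out wb h.wbF v (nb_symm (g.sub v2) (e ▸ hw)) with e' | e' | e' | e'
        · exact absurd e' (g.dF v v2)
        · exact absurd (e' ▸ v2) g.aA
        · exact absurd e'.2 v1
        · exact absurd e'.1 h.wbc
    rcases (A.erase u').eq_empty_or_nonempty with e | e
    · have h3 : nb V τ u' ⊆ {a, u, wb} := fun w hw => (g.cov u' hu' w hw).resolve_left fun e' =>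
        absurd (mem_erase.2 ⟨(mem_nb.1 hw).2.1, e'⟩) (e ▸ notMem_empty w)
      have h5 := hc.dg3 h4 h.hb
      have h6 : ({a, u, wb} : Finset α).card ≤ 3 := card_le_three
      have h7 := eq_of_subset_of_card_le h3 (h6.trans h5)
      have h8 := card_le_card h3
      exact h.eb ⟨le_antisymm (h8.trans h6) h5, h7 ▸ mem_insert_self _ _⟩
    · have h3 := hc.three ((erase_subset _ _).trans g.sub) e h2 h.hc
        (fun e' => g.cA (mem_of_mem_erase e')) (by simp [h.ac.symm, h.bc.symm])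
      have h5 : ({a, u'} : Finset α).card ≤ 2 := card_le_two
      omega
  · refine (hm u' (A.erase u') ⟨g.sub hu', g.dF _ hu', fun e => g.aA (e ▸ hu'),
      (erase_subset _ _).trans g.sub, fun v hv => g.dF v (mem_of_mem_erase hv),
      fun e => g.aA (mem_of_mem_erase e), notMem_erase _ _, mem_erase.2 ⟨Ne.symm hb, g.bA⟩,
      fun e => g.cA (mem_of_mem_erase e), fun e => g.cA (e ▸ hu'), fun v hv w hw => ?_⟩).not_gt
      (card_erase_lt_of_mem hu')
    obtain ⟨v1, v2⟩ := mem_erase.1 hv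
    have h3 := g.cov v v2 w hw
    simp only [mem_insert, mem_singleton, mem_erase] at h3 ⊢
    rcases h3 with e | e | e | e
    · tauto
    · tauto
    · exact absurd (h1 v v2 (e ▸ hw)) v1
    · tauto

theorem fan2b_one (hc : Con3 V τ) {F A : Finset α} {a b c wb wc u : α}
    (h : AFan V τ F a b c wb wc) (g : Cfg V τ F a b c wb u A) :
    ∃ w ∈ nb V τ u, w ∉ A ∧ w ∉ F ∧ w ≠ a := by
  by_contra k
  have g' := g.other h
  have h1 : Cov V τ (V \ (F ∪ A ∪ {a, u})) {a, wc} := fun v hv w hw => by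
    refine (g'.cov v hv w hw).imp_right fun h3 => ?_
    simp only [mem_insert, mem_singleton] at h3 ⊢
    rcases h3 with e | e | e
    · exact Or.inl e
    · simp only [mem_sdiff, mem_union, mem_insert, mem_singleton, not_or] at hv
      exact absurd ⟨v, nb_symm hv.1 (e ▸ hw), hv.2.1.2, hv.2.1.1, hv.2.2.1⟩ k
    · exact Or.inr e
  have h2 : b ≠ wc := fun e => h.bF (e ▸ h.wcF)
  have h3 := hc.three g'.sub ⟨c, g'.bA⟩ h1 h.hb g'.cA (by simp [h.ab.symm, h2])
  have h5 : ({a, wc} : Finset α).card ≤ 2 := card_le_two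
  omega

/-- A smallest obstruction lies in a thick fragment. -/
theorem Cfg.thick (hc : Con3 V τ) {F A : Finset α} {a b c wb wc u : α}
    (h : AFan V τ F a b c wb wc) (g : Cfg V τ F a b c wb u A)
    (hm : ∀ u' A', Cfg V τ F a b c wb u' A' → A.card ≤ A'.card) :
    2 ≤ (nb V τ u ∩ A).card ∧ (∃ w ∈ nb V τ u, w ∉ A ∧ w ∉ F ∧ w ≠ a) ∧
      ∃ Q T, Thick V τ Q T ∧ Q ⊆ insert u A := by
  have two := fan2b_two hc h g hm
  refine ⟨two, fan2b_one hc h g, ?_⟩
  obtain ⟨w, w1, w2, w3, w4⟩ := fan2b_one hc h g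
  have h4 : 4 ≤ V.card := h.hub.trans (card_le_card (nb_sub a))
  have hA : 2 ≤ A.card := two.trans (card_le_card inter_subset_right)
  have hF : ∀ v ∈ F, v ∉ insert u A := fun v hv e =>
    (mem_insert.1 e).elim (fun e' => g.uF (e' ▸ hv)) fun e' => g.dF v e' hv
  have ha : a ∉ insert u A := fun e => (mem_insert.1 e).elim g.ua.symm g.aA
  have awb : a ≠ wb := fun e => h.aF (e ▸ h.wbF)
  have uwb : u ≠ wb := fun e => g.uF (e ▸ h.wbF)
  have wwb : wb ≠ w := fun e => w3 (e ▸ h.wbF)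
  have wu : w ≠ u := (mem_nb.1 w1).2.1
  have oa : 2 ≤ (nb V τ a \ insert u A).card := one_lt_card.2
    ⟨wb, mem_sdiff.2 ⟨nb_symm (h.sub h.wbF) (h.cub _ h.wbF).2, hF _ h.wbF⟩,
      wc, mem_sdiff.2 ⟨nb_symm (h.sub h.wcF) (h.cub _ h.wcF).2, hF _ h.wcF⟩, h.wbc⟩
  have ob : 2 ≤ (nb V τ wb \ insert u A).card := by
    obtain ⟨v, -, v', v1, v2, -, v3⟩ := h.conn {wb} ⟨wb, h.wbF, mem_singleton_self _⟩
      ⟨wc, h.wcF, fun e => h.wbc (mem_singleton.1 e).symm⟩
    rw [mem_singleton.1 v2] at v3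
    exact one_lt_card.2 ⟨a, mem_sdiff.2 ⟨(h.cub _ h.wbF).2, ha⟩, v', mem_sdiff.2 ⟨v3, hF _ v1⟩,
      fun e => h.aF (e ▸ v1)⟩
  have mono : ∀ s : Finset α, (s \ insert u A).card ≤ (s \ A).card := fun s =>
    card_le_card (sdiff_subset_sdiff subset_rfl (subset_insert _ _))
  by_cases k : 2 ≤ (nb V τ u \ A).card
  · refine ⟨A, {a, u, wb}, ⟨g.sub, ?_, ?_, hA, card_eq_three.2
      ⟨a, u, wb, g.ua.symm, awb, uwb, rfl⟩, g.cov, ?_⟩, subset_insert _ _⟩
    · simp [insert_subset_iff, h.ha, g.uV, h.sub h.wbF]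
    · have : wb ∉ A := fun e => g.dF _ e h.wbF
      simp [g.aA, g.uA, this]
    · simp only [mem_insert, mem_singleton, forall_eq_or_imp, forall_eq]
      exact ⟨oa.trans (mono _), k, ob.trans (mono _)⟩
  · have hw : w ∉ insert u A := fun e => (mem_insert.1 e).elim wu w2
    refine ⟨insert u A, {a, wb, w}, ⟨insert_subset g.uV g.sub, ?_, ?_,
      hA.trans (card_le_card (subset_insert _ _)), card_eq_three.2
      ⟨a, wb, w, awb, w4.symm, wwb, rfl⟩, fun v hv z hz => ?_, ?_⟩, subset_rfl⟩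
    · simp [insert_subset_iff, h.ha, nb_sub _ w1, h.sub h.wbF]
    · rw [disjoint_right]
      simp only [mem_insert (b := a), mem_insert (b := wb), mem_singleton, forall_eq_or_imp,
        forall_eq]
      exact ⟨ha, hF _ h.wbF, hw⟩
    · rcases mem_insert.1 hv with rfl | hv
      · by_cases e : z ∈ A
        · exact Or.inl (mem_insert_of_mem e)
        · have := card_le_one.1 (by omega : (nb V τ v \ A).card ≤ 1) z (mem_sdiff.2 ⟨hz, e⟩) w
            (mem_sdiff.2 ⟨w1, w2⟩)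
          exact Or.inr (by simp [this])
      · have h3 := g.cov v hv z hz
        simp only [mem_insert, mem_singleton] at h3 ⊢
        tauto
    · simp only [mem_insert (b := a), mem_insert (b := wb), mem_singleton, forall_eq_or_imp,
        forall_eq]
      refine ⟨oa, ob, ?_⟩
      have h5 : 3 ≤ (nb V τ w).card := hc.dg3 h4 (nb_sub _ w1)
      have h6 : (nb V τ w).erase u ⊆ nb V τ w \ insert u A := fun z hz => by
        obtain ⟨z1, z2⟩ := mem_erase.1 hz
        refine mem_sdiff.2 ⟨z2, fun e => (mem_insert.1 e).elim z1 fun e' => ?_⟩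
        have h3 := g.cov z e' w (nb_symm (nb_sub _ w1) z2)
        simp only [mem_insert, mem_singleton] at h3
        tauto
      have h7 := card_le_card h6
      have h8 := pred_card_le_card_erase (s := nb V τ w) (a := u)
      omega

/-- Two maximal fans that are not contained in each other are disjoint. -/
theorem AFan.disj {F F' : Finset α} {a b c wb wc a' b' c' wb' wc' r : α}
    (h : AFan V τ F a b c wb wc) (h' : AFan V τ F' a' b' c' wb' wc') (hr : r ∈ F') (hr' : r ∉ F) :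
    ∀ v ∈ F', v ∉ F := by
  intro v hv' hv
  by_cases e : a' = a
  · subst e
    obtain ⟨x, _, w, w1, x2, w2, xw⟩ := h'.conn F ⟨v, hv', hv⟩ ⟨r, hr, hr'⟩
    rcases h.out x x2 w xw with k | k | k | k
    · exact w2 k
    · exact h'.aF (k ▸ w1)
    · exact h.eb (k.2 ▸ h'.cub w w1)
    · exact h.ec (k.2 ▸ h'.cub w w1)
  have aF : a' ∉ F := fun q => by
    have e1 := (h.cub a' q).1
    have e2 := h'.hub
    omega
  have aF' : a ∉ F' := fun q => by
    have e1 := (h'.cub a q).1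
    have e2 := h.hub
    omega
  have key : ∀ x ∈ F', x ∈ F → (x = wb ∧ a' = b) ∨ (x = wc ∧ a' = c) := fun x x1 x2 =>
    ((h.out x x2 a' (h'.cub x x1).2).resolve_left aF).resolve_left e
  obtain ⟨x, _, w, w1, x2, w2, xw⟩ := h'.conn {v} ⟨v, hv', mem_singleton_self v⟩
    ⟨r, hr, fun q => hr' (mem_singleton.1 q ▸ hv)⟩
  rw [mem_singleton] at x2 w2
  subst x2
  have k1 := key x hv' hv
  have wa : w ≠ a' := fun q => h'.aF (q ▸ w1)
  have bc := h.bc
  have wbc := h.wbc
  rcases h.out x hv w xw with k | k | k | k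
  · have k2 := key w w1 k
    grind
  · exact aF' (k ▸ w1)
  · grind
  · grind

theorem fan2c_two (hc : Con3 V τ) {B : Finset α} {p q c : α} (hB : B ⊆ V) (h : Cov V τ B {p, q})
    (hcV : c ∈ V) (h1 : c ∉ B) (h2 : c ≠ p) (h3 : c ≠ q) : ∀ v, v ∉ B := by
  intro v hv
  have k := hc.three hB ⟨v, hv⟩ h hcV h1 (by simp [h2, h3])
  have := card_le_two (a := p) (b := q)
  omega

theorem fan2c_cub {A : Finset α} {u w z : α} (h3 : dg V τ u = 3) (two : 2 ≤ (nb V τ u ∩ A).card)
    (hw : w ∈ nb V τ u) (hwA : w ∉ A) (hz : z ∈ nb V τ u) (hzA : z ∉ A) : z = w := by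
  by_contra k
  have h1 : insert z (insert w (nb V τ u ∩ A)) ⊆ nb V τ u := by
    intro y hy
    simp only [mem_insert, mem_inter] at hy
    rcases hy with e | e | e
    · exact e ▸ hz
    · exact e ▸ hw
    · exact e.1
  have h2 := card_le_card h1
  rw [card_insert_of_notMem (by simp [k, hzA]), card_insert_of_notMem (by simp [hwA])] at h2
  unfold dg at h3
  omega

/-- The crossing argument. -/
theorem Cfg.cross (hc : Con3 V τ) {F A F' D : Finset α}
    {a b c wb wc u a' b' c' wb' wc' u' r s : α}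
    (h : AFan V τ F a b c wb wc) (g : Cfg V τ F a b c wb u A)
    (h' : AFan V τ F' a' b' c' wb' wc') (g' : Cfg V τ F' a' b' c' wb' u' D)
    (two : 2 ≤ (nb V τ u ∩ A).card) (one : ∃ w ∈ nb V τ u, w ∉ A ∧ w ∉ F ∧ w ≠ a)
    (hr : r ∈ F') (hs : s ∈ F') (hrs : r ≠ s) (hrA : r ∈ insert u A) (hsA : s ∈ insert u A)
    (haD : a ∉ D) (hwD : wb ∉ D) :
    D.card < A.card ∨ ∃ u'' A', Cfg V τ F' a' c' b' wc' u'' A' ∧ A'.card < A.card := by
  have hrF : r ∉ F := by
    rcases mem_insert.1 hrA with e | e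
    · exact e ▸ g.uF
    · exact g.dF r e
  have dj := h.disj h' hr hrF
  have aF' : a ∉ F' := fun k => by
    have h1 := (h'.cub a k).1
    have h2 := h.hub
    omega
  have wF' : wb ∉ F' := fun k => dj wb k h.wbF
  have cA : ∀ v ∈ A, ∀ w ∈ nb V τ v, w ∈ A ∨ w = a ∨ w = u ∨ w = wb := fun v hv w hw => by
    simpa using g.cov v hv w hw
  have cD : ∀ v ∈ D, ∀ w ∈ nb V τ v, w ∈ D ∨ w = a' ∨ w = u' ∨ w = wb' := fun v hv w hw => by
    simpa using g'.cov v hv w hw
  have wD : ∀ v ∈ D, wb' ∈ nb V τ v → v = b' := fun v hv k => by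
    rcases h'.out wb' h'.wbF v (nb_symm (g'.sub hv) k) with e | e | e | e
    · exact absurd e (g'.dF v hv)
    · exact absurd (e ▸ hv) g'.aA
    · exact e.2
    · exact absurd e.1 h'.wbc
  obtain ⟨t, htF, htA⟩ : ∃ t ∈ F', t ∈ A := by
    rcases mem_insert.1 hrA with e | e
    · rcases mem_insert.1 hsA with f | f
      · exact absurd (e.trans f.symm) hrs
      · exact ⟨s, hs, f⟩
    · exact ⟨r, hr, e⟩
  by_cases huD : u ∈ D
  · have uF' : u ∉ F' := g'.dF u huD
    have rA : r ∈ A := (mem_insert.1 hrA).resolve_left fun e => uF' (e ▸ hr)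
    have sA : s ∈ A := (mem_insert.1 hsA).resolve_left fun e => uF' (e ▸ hs)
    have FA : ∀ v ∈ F', v ∈ A := by
      intro z hz
      by_contra k
      obtain ⟨v, _, w, hw, vA, wA, vw⟩ := h'.conn A ⟨r, hr, rA⟩ ⟨z, hz, k⟩
      rcases cA v vA w vw with e | e | e | e
      · exact wA e
      · exact aF' (e ▸ hw)
      · exact uF' (e ▸ hw)
      · exact wF' (e ▸ hw)
    have key : ∀ p, p ∉ F' → (∀ w, w ∉ A → w = a' ∨ w = u' → w = p) → D.card < A.card := by
      intro p pF hp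
      have h1 : Cov V τ (D \ insert u A) {u, p} := by
        intro v hv w hw
        simp only [mem_sdiff, mem_insert, not_or, mem_singleton] at hv ⊢
        have wA : w ∉ A := fun k => by
          rcases cA w k v (nb_symm (g'.sub hv.1) hw) with e | e | e | e
          · exact hv.2.2 e
          · exact haD (e ▸ hv.1)
          · exact hv.2.1 e
          · exact hwD (e ▸ hv.1)
        by_cases wu : w = u
        · exact Or.inr (Or.inl wu)
        rcases cD v hv.1 w hw with e | e | e | e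
        · exact Or.inl ⟨e, wu, wA⟩
        · exact Or.inr (Or.inr (hp w wA (Or.inl e)))
        · exact Or.inr (Or.inr (hp w wA (Or.inr e)))
        · exact absurd (e ▸ FA wb' h'.wbF) wA
      have h2 := fan2c_two hc (sdiff_subset.trans g'.sub) h1 (h'.sub hr)
        (fun k => g'.dF r (mem_sdiff.1 k).1 hr) (fun e => uF' (e ▸ hr)) (fun e => pF (e ▸ hr))
      have h3 : D ⊆ insert u ((A.erase r).erase s) := by
        intro v hv
        have k := h2 v
        simp only [mem_sdiff, mem_insert, not_and, not_not, mem_erase] at k ⊢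
        rcases k hv with e | e
        · exact Or.inl e
        · exact Or.inr ⟨fun f => g'.dF v hv (f ▸ hs), fun f => g'.dF v hv (f ▸ hr), e⟩
      have h4 := (card_le_card h3).trans (card_insert_le _ _)
      have h5 : s ∈ A.erase r := mem_erase.2 ⟨hrs.symm, sA⟩
      have h6 := card_erase_add_one h5
      have h7 := card_erase_add_one rA
      omega
    by_cases k1 : a' ∈ A
    · exact Or.inl (key u' g'.uF fun w wA e => e.resolve_left fun f => wA (f ▸ k1))
    by_cases k2 : u' ∈ A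
    · exact Or.inl (key a' h'.aF fun w wA e => e.resolve_right fun f => wA (f ▸ k2))
    have aa : a' = a := by
      rcases cA r rA a' (h'.cub r hr).2 with e | e | e | e
      · exact absurd e k1
      · exact e
      · exact absurd (e ▸ huD) g'.aA
      · have h1 := (h.cub wb h.wbF).1
        have h2 := h'.hub
        rw [e] at h2
        omega
    have o := g'.other h'
    have c'A : c' ∈ A := by
      rcases cA wc' (FA wc' h'.wcF) c' h'.cw with e | e | e | e
      · exact e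
      · exact absurd (aa.trans e.symm) h'.ac
      · exact absurd (e ▸ huD) g'.cA
      · refine absurd ?_ h'.ec
        rw [e, aa]
        exact h.cub wb h.wbF
    refine Or.inr ⟨wb, A ∩ (V \ (F' ∪ D ∪ {a', u'})), ⟨h.sub h.wbF, wF', ?_, ?_, ?_, ?_, ?_, ?_, ?_,
      ?_, ?_⟩, ?_⟩
    · exact fun e => h.aF (aa ▸ e ▸ h.wbF)
    · exact inter_subset_left.trans g.sub
    · exact fun v hv => o.dF v (mem_inter.1 hv).2
    · exact fun k => k1 (mem_inter.1 k).1
    · exact fun k => g.dF wb (mem_inter.1 k).1 h.wbF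
    · exact mem_inter.2 ⟨c'A, o.bA⟩
    · exact fun k => o.cA (mem_inter.1 k).2
    · exact fun e => hwD (e ▸ g'.bA)
    · intro v hv w hw
      have h1 := cA v (mem_inter.1 hv).1 w hw
      have h2 := o.cov v (mem_inter.1 hv).2 w hw
      have h3 : u ∉ V \ (F' ∪ D ∪ {a', u'}) := by simp [huD]
      have h4 : u ≠ u' := fun e => g'.uA (e ▸ huD)
      have h5 : u ≠ a' := fun e => g'.aA (e ▸ huD)
      simp only [mem_inter, mem_insert, mem_singleton] at h2 ⊢
      rcases h2 with e | e | e | e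
      · rcases h1 with f | f | f | f
        · exact Or.inl ⟨f, e⟩
        · exact Or.inr (Or.inl (f.trans aa.symm))
        · exact absurd (f ▸ e) h3
        · exact Or.inr (Or.inr (Or.inl f))
      · exact Or.inr (Or.inl e)
      · rcases h1 with f | f | f | f
        · exact absurd (e ▸ f) k2
        · exact Or.inr (Or.inl (f.trans aa.symm))
        · exact absurd (f.symm.trans e) h4
        · exact Or.inr (Or.inr (Or.inl f))
      · exact Or.inr (Or.inr (Or.inr e))
    · refine card_lt_card ⟨inter_subset_left, fun k => ?_⟩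
      exact o.dF r (mem_inter.1 (k rA)).2 hr
  · have nD : ∀ v ∈ A, ∀ w ∈ nb V τ v, w ∈ D → w ∈ A := fun v hv w hw k => by
      rcases cA v hv w hw with e | e | e | e
      · exact e
      · exact absurd (e ▸ k) haD
      · exact absurd (e ▸ k) huD
      · exact absurd (e ▸ k) hwD
    by_cases bA : b' ∈ A
    · have h1 : Cov V τ (D \ A) {a', u'} := by
        intro v hv w hw
        simp only [mem_sdiff, mem_insert, mem_singleton] at hv ⊢
        rcases cD v hv.1 w hw with e | e | e | e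
        · exact Or.inl ⟨e, fun k => hv.2 (nD w k v (nb_symm (g'.sub hv.1) hw) hv.1)⟩
        · exact Or.inr (Or.inl e)
        · exact Or.inr (Or.inr e)
        · exact absurd (wD v hv.1 (e ▸ hw) ▸ bA) hv.2
      have h2 := fan2c_two hc (sdiff_subset.trans g'.sub) h1 h'.hc
        (fun k => g'.cA (mem_sdiff.1 k).1) h'.ac.symm g'.cu
      refine Or.inl (card_lt_card ⟨fun v hv => ?_, fun k => g'.dF t (k htA) htF⟩)
      by_contra k
      exact h2 v (mem_sdiff.2 ⟨hv, k⟩)
    exfalso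
    have h1 : Cov V τ (D ∩ A) {a', u'} := by
      intro v hv w hw
      simp only [mem_inter, mem_insert, mem_singleton] at hv ⊢
      rcases cD v hv.1 w hw with e | e | e | e
      · exact Or.inl ⟨e, nD v hv.2 w hw e⟩
      · exact Or.inr (Or.inl e)
      · exact Or.inr (Or.inr e)
      · exact absurd (wD v hv.1 (e ▸ hw) ▸ hv.2) bA
    have h2 := fan2c_two hc (inter_subset_left.trans g'.sub) h1 h'.hc
      (fun k => g'.cA (mem_inter.1 k).1) h'.ac.symm g'.cu
    have wA : wb' ∉ A := fun k => bA (nD wb' k b' h'.bw g'.bA)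
    obtain ⟨v, hv, w, hw, vA, wA', vw⟩ := h'.conn A ⟨t, htF, htA⟩ ⟨wb', h'.wbF, wA⟩
    have uF' : u ∈ F' := by
      rcases cA v vA w vw with e | e | e | e
      · exact absurd e wA'
      · exact absurd (e ▸ hw) aF'
      · exact e ▸ hw
      · exact absurd (e ▸ hw) wF'
    obtain ⟨z, hz, zA, zF, za⟩ := one
    have a'A : a' ∈ A := by
      by_contra k
      have e0 := fan2c_cub (h'.cub u uF').1 two hz zA (h'.cub u uF').2 k
      rcases cA t htA a' (h'.cub t htF).2 with e | e | e | e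
      · exact k e
      · exact za (e0.symm.trans e)
      · exact h'.aF (e ▸ uF')
      · exact zF (e0 ▸ e ▸ h.wbF)
    have h3 : Cov V τ D {u', wb'} := by
      intro y hy w hw
      simp only [mem_insert, mem_singleton]
      rcases cD y hy w hw with e | e | e | e
      · exact Or.inl e
      · exact absurd (mem_inter.2 ⟨hy, nD a' a'A y (nb_symm (g'.sub hy) (e ▸ hw)) hy⟩) (h2 y)
      · exact Or.inr (Or.inl e)
      · exact Or.inr (Or.inr e)
    exact fan2c_two hc g'.sub h3 h'.hc g'.cA g'.cu (fun e => h'.cF (e ▸ h'.wbF)) b' g'.bA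

theorem fan_cross (hc : Con3 V τ) (P : Finset α → α → α → α → α → α → Prop)
    (hP : ∀ F a b c wb wc, P F a b c wb wc → AFan V τ F a b c wb wc ∧ P F a c b wc wb)
    (H : ∀ Q T, Thick V τ Q T →
      ∃ F a b c wb wc, P F a b c wb wc ∧ ∃ r ∈ F, ∃ s ∈ F, r ≠ s ∧ r ∈ Q ∧ s ∈ Q)
    (ex : ∃ F a b c wb wc, P F a b c wb wc) :
    ∃ F a b c wb wc, P F a b c wb wc ∧ Con3 (V \ F) (pth τ a b c) := by
  classical
  by_contra k
  have all : ∀ F a b c wb wc, P F a b c wb wc → ∃ u A, Cfg V τ F a b c wb u A :=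
    fun F a b c wb wc p => (hP _ _ _ _ _ _ p).1.cfg hc fun q => k ⟨F, a, b, c, wb, wc, p, q⟩
  have ex' : ∃ n, ∃ F a b c wb wc u A, P F a b c wb wc ∧ Cfg V τ F a b c wb u A ∧ A.card = n := by
    obtain ⟨F, a, b, c, wb, wc, p⟩ := ex
    obtain ⟨u, A, g⟩ := all _ _ _ _ _ _ p
    exact ⟨_, F, a, b, c, wb, wc, u, A, p, g, rfl⟩
  obtain ⟨F, a, b, c, wb, wc, u, A, p, g, e⟩ := Nat.find_spec ex'
  have mn : ∀ F' a' b' c' wb' wc' u' A', P F' a' b' c' wb' wc' → Cfg V τ F' a' b' c' wb' u' A' →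
      A.card ≤ A'.card := fun F' a' b' c' wb' wc' u' A' p' g' =>
    e ▸ Nat.find_min' ex' ⟨F', a', b', c', wb', wc', u', A', p', g', rfl⟩
  have h := (hP _ _ _ _ _ _ p).1
  obtain ⟨two, one, Q, T, th, hQ⟩ := g.thick hc h fun u' A' g' => mn _ _ _ _ _ _ u' A' p g'
  obtain ⟨F', a', b', c', wb', wc', p', r, hr, s, hs, hrs, rQ, sQ⟩ := H Q T th
  have fin : ∀ b' c' wb' wc' u' D, P F' a' b' c' wb' wc' → Cfg V τ F' a' b' c' wb' u' D →
      a ∉ D → wb ∉ D → False := by
    intro b' c' wb' wc' u' D p' g' h1 h2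
    obtain ⟨h', p''⟩ := hP _ _ _ _ _ _ p'
    rcases Cfg.cross hc h g h' g' two one hr hs hrs (hQ rQ) (hQ sQ) h1 h2 with q | ⟨u'', A', q, q'⟩
    · exact absurd (mn _ _ _ _ _ _ _ _ p' g') (by omega)
    · exact absurd (mn _ _ _ _ _ _ _ _ p'' q) (by omega)
  obtain ⟨u', D, g'⟩ := all _ _ _ _ _ _ p'
  obtain ⟨h', p''⟩ := hP _ _ _ _ _ _ p'
  have n1 : a ∈ nb V τ wb := (h.cub wb h.wbF).2
  have n2 : wb ∈ nb V τ a := nb_symm (h.sub h.wbF) n1
  have far : ∀ x ∈ D, ∀ y, y = x ∨ y ∈ nb V τ x → y ∉ V \ (F' ∪ D ∪ {a', u'}) := by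
    intro x hx y hy q
    simp only [mem_sdiff, mem_union, mem_insert, mem_singleton, not_or] at q
    rcases hy with rfl | hy
    · exact q.2.1.2 hx
    · have e1 := (g'.cov x hx y hy).resolve_left q.2.1.2
      simp only [mem_insert, mem_singleton] at e1
      rcases e1 with e1 | e1 | e1
      · exact q.2.2.1 e1
      · exact q.2.2.2 e1
      · exact q.2.1.1 (e1 ▸ h'.wbF)
  by_cases c1 : a ∈ D
  · exact fin _ _ _ _ _ _ p'' (g'.other h') (far a c1 a (Or.inl rfl)) (far a c1 wb (Or.inr n2))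
  by_cases c2 : wb ∈ D
  · exact fin _ _ _ _ _ _ p'' (g'.other h') (far wb c2 a (Or.inr n1)) (far wb c2 wb (Or.inl rfl))
  · exact fin _ _ _ _ _ _ p' g' c1 c2

end Pool.Agent.Lib.MP_efe3d7_co.H
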