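import Pool.Agent.Lib.MP_efe3d7_co.H.Fan0
import Pool.Agent.Lib.MP_efe3d7_co.H.Fr2

/-! Replacing a maximal fan by a small network. -/

set_option autoImplicit false

open Finset

namespace Pool.Agent.Lib.MP_efe3d7_co.H

variable {α : Type} [DecidableEq α] {V : Finset α} {τ : Sym2 α → Fin 3}

theorem fr2b_two (hc : Con3 V τ) (h4 : 4 ≤ V.card) {F : Finset α} (hF : F ⊆ V) {a b wb : α}
    (hb : b ∈ V) (one : ∀ v ∈ F, b ∈ nb V τ v → v = wb) (eb : ¬ (dg V τ b = 3 ∧ a ∈ nb V τ b))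
    (hw : wb ∈ F) : ∃ N : Finset α, 2 ≤ N.card ∧ ∀ w ∈ N, w ∈ nb V τ b ∧ w ∉ F ∧ w ≠ a := by
  refine ⟨((nb V τ b).erase a).erase wb, ?_, fun w hw' => ?_⟩
  · have h1 := hc.dg3 h4 hb
    have h2 := pred_card_le_card_erase (s := (nb V τ b).erase a) (a := wb)
    unfold dg at h1 eb
    by_cases k : a ∈ nb V τ b
    · rw [card_erase_of_mem k] at h2
      have : (nb V τ b).card ≠ 3 := fun j => eb ⟨j, k⟩
      omega
    · rw [erase_eq_of_notMem k] at h2 ⊢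
      omega
  · simp only [mem_erase] at hw'
    exact ⟨hw'.2.2, fun k => hw'.1 (one w k (nb_symm hb hw'.2.2)), hw'.2.1⟩

theorem AFan.safe (hc : Con3 V τ) {F : Finset α} {a b c wb wc : α} (h : AFan V τ F a b c wb wc)
    {K : Finset α} (hK : K ⊆ F) (hne : K.Nonempty) {τ' : Sym2 α → Fin 3}
    (far : ∀ u ∈ V \ F, ∀ w ∈ V \ F, s(u, w) ≠ s(a, b) → s(u, w) ≠ s(a, c) → τ s(u, w) ≠ 0 →
      τ' s(u, w) ≠ 0)
    (nq : ∀ u ∈ K, ∀ w ∈ nb (V \ F ∪ K) τ' u, w ∈ K ∨ w = a ∨ w = b ∨ w = c)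
    (l1 : ∀ B S : Finset α, B ⊆ K → B.Nonempty → Cov (V \ F ∪ K) τ' B S → 3 ≤ S.card)
    (l2 : (∀ B : Finset α, B ⊆ K →
      2 ≤ (bd (V \ F ∪ K) τ' (insert a B) ∩ (K ∪ {b, c})).card) ∨
      2 ≤ (nb V τ a \ (F ∪ {b, c})).card) : Con3 (V \ F ∪ K) τ' := by
  have h4 : 4 ≤ V.card := h.hub.trans (card_le_card (nb_sub a))
  have ab := h.ab
  have ac := h.ac
  have bc := h.bc
  have hT : ({a, b, c} : Finset α) ⊆ V \ F := fun t ht => by
    simp only [mem_insert, mem_singleton] at ht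
    rcases ht with rfl | rfl | rfl
    exacts [mem_sdiff.2 ⟨h.ha, h.aF⟩, mem_sdiff.2 ⟨h.hb, h.bF⟩, mem_sdiff.2 ⟨h.hc, h.cF⟩]
  have hd : Disjoint F {a, b, c} := disjoint_right.2 fun t ht => (mem_sdiff.1 (hT ht)).2
  have h3 : ({a, b, c} : Finset α).card = 3 := card_eq_three.2 ⟨a, b, c, ab, ac, bc, rfl⟩
  have hcov : Cov V τ F {a, b, c} := fun v hv w hw => by
    rcases h.out v hv w hw with k | k | k | k <;> simp [k]
  have inK : ∀ u ∈ V \ F ∪ K, u ∈ F → u ∈ K := fun u h1 h2 =>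
    (mem_union.1 h1).resolve_left fun k => (mem_sdiff.1 k).2 h2
  have nq' : ∀ u ∈ V \ F ∪ K, u ∈ F → ∀ w ∈ nb (V \ F ∪ K) τ' u, w ∈ F ∨ w ∈ ({a, b, c} : Finset α) :=
    fun u h1 h2 w hw => (nq u (inK u h1 h2) w hw).imp (fun k => hK k) fun k => by simpa using k
  have nem : (∃ u ∈ V \ F ∪ K, u ∈ F) ∨ ∀ u ∈ ({a, b, c} : Finset α), ∀ w ∈ ({a, b, c} : Finset α),
      u ≠ w → τ' s(u, w) ≠ 0 := by
    obtain ⟨u, hu⟩ := hne
    exact Or.inl ⟨u, mem_union_right _ hu, hK hu⟩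
  have l1' : ∀ B S : Finset α, B ⊆ V \ F ∪ K → B ⊆ F → B.Nonempty → Cov (V \ F ∪ K) τ' B S →
      3 ≤ S.card := fun B S h1 h2 => l1 B S fun u hu => inK u (h1 hu) (h2 hu)
  obtain ⟨Nb, b1, b2⟩ := fr2b_two hc h4 h.sub h.hb (fun v hv k => by
    rcases h.out v hv b k with j | j | j | j
    exacts [absurd j h.bF, absurd j ab.symm, j.1, absurd j.2 bc]) h.eb h.wbF
  obtain ⟨Nc, c1, c2⟩ := fr2b_two hc h4 h.sub h.hc (fun v hv k => by
    rcases h.out v hv c k with j | j | j | j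
    exacts [absurd j h.cF, absurd j ac.symm, absurd j.2 bc.symm, j.1]) h.ec h.wcF
  have two : ∀ (t : α) (N : Finset α), t ∈ V \ F → t ≠ a → 2 ≤ N.card →
      (∀ w ∈ N, w ∈ nb V τ t ∧ w ∉ F ∧ w ≠ a) → 2 ≤ (nb (V \ F ∪ K) τ' t \ F).card :=
    fun t N t1 t2 n1 n2 => n1.trans (card_le_card fun w hw => by
      obtain ⟨w1, w2, w3⟩ := n2 w hw
      obtain ⟨w4, w5, w6⟩ := mem_nb.1 w1
      exact mem_sdiff.2 ⟨mem_nb.2 ⟨mem_union_left _ (mem_sdiff.2 ⟨w4, w2⟩), w5,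
        far t t1 w (mem_sdiff.2 ⟨w4, w2⟩) (by simp [t2, w3]) (by simp [t2, w3]) w6⟩, w2⟩)
  refine safe_gen hc (hT.trans sdiff_subset) hd h3 hcov
    (union_subset sdiff_subset (hK.trans h.sub)) (fun u h1 h2 => ?_)
    (fun u u1 w w1 _ u2 u3 w2 => ?_) nq' nem l1' fun t ht B S h1 h2 h5 h6 => ?_
  · by_contra k
    exact h2 (mem_union_left _ (mem_sdiff.2 ⟨h1, k⟩))
  · simp only [mem_insert, mem_singleton, not_or] at u3
    exact far u (mem_sdiff.2 ⟨u1, u2⟩) w (mem_sdiff.2 ⟨w1, w2⟩) (by simp [u3]) (by simp [u3])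
  have fin := fun k => l2_of_two hd h3 (hT.trans subset_union_left) nq' nem l1' ht k h1 h2 h5 h6
  have ht' := hT ht
  simp only [mem_insert, mem_singleton] at ht
  rcases ht with rfl | rfl | rfl
  · rcases l2 with l2 | l2
    swap
    · refine fin (l2.trans (card_le_card fun w hw => ?_))
      simp only [mem_sdiff, mem_union, mem_insert, mem_singleton, not_or] at hw
      obtain ⟨w4, w5, w6⟩ := mem_nb.1 hw.1
      exact mem_sdiff.2 ⟨mem_nb.2 ⟨mem_union_left _ (mem_sdiff.2 ⟨w4, hw.2.1⟩), w5,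
        far t ht' w (mem_sdiff.2 ⟨w4, hw.2.1⟩) (by simp [hw.2.2.1, ab]) (by simp [hw.2.2.2, ac])
          w6⟩, hw.2.1⟩
    exfalso
    obtain ⟨r, r1, r2, r3, r4⟩ : ∃ r ∈ nb V τ t, r ∉ F ∧ r ≠ b ∧ r ≠ c := by
      by_contra k
      obtain ⟨p, p1, p2⟩ := exists_mem_ne (s := Nb) (by omega) c
      obtain ⟨p3, p4, p5⟩ := b2 p p1
      have := hc.three (B := V \ (F ∪ {t, b, c})) (S := {b, c}) sdiff_subset
        ⟨p, by simp [nb_sub _ p3, p4, p5, p2, (mem_nb.1 p3).2.1]⟩ (fun u hu w hw => by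
          obtain ⟨u1, u2⟩ := mem_sdiff.1 hu
          have k1 : w ∉ F := fun j => u2 (mem_union.2 (hcov w j u (nb_symm u1 hw)))
          simp only [mem_union, mem_insert, mem_singleton, not_or] at u2
          have k2 : w ≠ t := by
            rintro rfl
            exact k ⟨u, nb_symm u1 hw, u2.1, u2.2.2.1, u2.2.2.2⟩
          by_cases k3 : w ∈ ({b, c} : Finset α)
          · exact Or.inr k3
          · exact Or.inl (by simpa [nb_sub _ hw, k1, k2] using k3)) h.ha (by simp)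
        (by simp [ab, ac])
      have := card_le_two (a := b) (b := c)
      omega
    obtain ⟨r5, r6, r7⟩ := mem_nb.1 r1
    have r8 : r ∈ S := (h6 t (mem_insert_self _ _) r (mem_nb.2 ⟨mem_union_left _
      (mem_sdiff.2 ⟨r5, r2⟩), r6, far t ht' r (mem_sdiff.2 ⟨r5, r2⟩) (by simp [r3, ab])
        (by simp [r4, ac]) r7⟩)).resolve_left fun k => by
          rcases mem_insert.1 k with k | k
          exacts [r6 k, r2 (h2 k)]
    have := (l2 B fun u hu => inK u (h1 hu) (h2 hu)).trans (card_le_card (t := S.erase r)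
      fun w hw => mem_erase.2 ⟨by
        rintro rfl
        have := (mem_inter.1 hw).2
        simp only [mem_union, mem_insert, mem_singleton] at this
        rcases this with j | j | j
        exacts [r2 (hK j), r3 j, r4 j], h6.bd_sub (mem_inter.1 hw).1⟩)
    rw [card_erase_of_mem r8] at this
    omega
  · exact fin (two _ Nb ht' ab.symm b1 b2)
  · exact fin (two _ Nc ht' ac.symm c1 c2)

end Pool.Agent.Lib.MP_efe3d7_co.H
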