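import Pool.Agent.Lib.MP_efe3d7_co.H.FanD
import Pool.Agent.Lib.MP_efe3d7_co.H.Fan3

/-! A small network put in place of a fan. -/

set_option autoImplicit false

open Finset

namespace Pool.Agent.Lib.MP_efe3d7_co.H.Fn

variable {α : Type} [DecidableEq α] {V : Finset α} {τ : Sym2 α → Fin 3}

/-- The types after putting the network `k` on `c, a, b, p, q`. -/
def ov (τ : Sym2 α → Fin 3) (c a b p q : α) (k : Cd) (e : Sym2 α) : Fin 3 :=
  if e = s(c, a) then k.ca else if e = s(a, b) then k.ab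
  else if e = s(c, b) then (if k.fl then 1 else τ e)
  else if e = s(p, c) then k.pc else if e = s(p, a) then k.pa else if e = s(p, b) then k.pb
  else if e = s(q, c) then k.qc else if e = s(q, a) then k.qa else if e = s(q, b) then k.qb
  else if e = s(p, q) then k.e else if p ∈ e ∨ q ∈ e then 0 else τ e

/-- The inner vertices of a network. -/
def inn (p q : α) (k : Cd) : Finset α := if k.n = 0 then ∅ else if k.n = 1 then {p} else {p, q}

/-- The empty network. -/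
def zc : Cd := ⟨0, 0, 0, false, 0, 0, 0, 0, 0, 0, 0⟩

/-- Three terminals in `U` and two new vertices. -/
structure Pos (U : Finset α) (c a b p q : α) : Prop where
  hc : c ∈ U
  ha : a ∈ U
  hb : b ∈ U
  hp : p ∉ U
  hq : q ∉ U
  ca : c ≠ a
  cb : c ≠ b
  ab : a ≠ b
  pq : p ≠ q

variable {U : Finset α} {c a b p q : α}

omit [DecidableEq α] in
theorem Pos.ne (h : Pos U c a b p q) : p ≠ c ∧ p ≠ a ∧ p ≠ b ∧ q ≠ c ∧ q ≠ a ∧ q ≠ b :=
  ⟨fun e => h.hp (e ▸ h.hc), fun e => h.hp (e ▸ h.ha), fun e => h.hp (e ▸ h.hb),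
    fun e => h.hq (e ▸ h.hc), fun e => h.hq (e ▸ h.ha), fun e => h.hq (e ▸ h.hb)⟩

/-- The types of the ten pairs. -/
theorem Pos.ten (h : Pos U c a b p q) (τ : Sym2 α → Fin 3) (k : Cd) :
    ov τ c a b p q k s(c, a) = k.ca ∧ ov τ c a b p q k s(a, b) = k.ab ∧
    ov τ c a b p q k s(c, b) = (if k.fl then 1 else τ s(c, b)) ∧
    ov τ c a b p q k s(p, c) = k.pc ∧ ov τ c a b p q k s(p, a) = k.pa ∧
    ov τ c a b p q k s(p, b) = k.pb ∧ ov τ c a b p q k s(q, c) = k.qc ∧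
    ov τ c a b p q k s(q, a) = k.qa ∧ ov τ c a b p q k s(q, b) = k.qb ∧
    ov τ c a b p q k s(p, q) = k.e := by
  obtain ⟨n1, n2, n3, n4, n5, n6⟩ := h.ne
  have n7 := h.ca
  have n8 := h.cb
  have n9 := h.ab
  have n0 := h.pq
  simp [ov, n0, n1, n2, n3, n4, n5, n6, n7, n8, n9, n0.symm, n1.symm, n2.symm, n4.symm,
    n5.symm, n7.symm, n8.symm, n9.symm]

theorem Pos.pu (h : Pos U c a b p q) (τ : Sym2 α → Fin 3) (k : Cd) {u : α} (hu : u ∈ U)
    (h1 : u ≠ c) (h2 : u ≠ a) (h3 : u ≠ b) :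
    ov τ c a b p q k s(p, u) = 0 ∧ ov τ c a b p q k s(q, u) = 0 := by
  obtain ⟨n1, n2, n3, n4, n5, n6⟩ := h.ne
  have m1 : u ≠ p := fun e => h.hp (e ▸ hu)
  have m2 : u ≠ q := fun e => h.hq (e ▸ hu)
  simp [ov, n1, n2, n3, n4, n5, n6, h1, h2, h3, m1, m2, h.pq, h.pq.symm]

theorem Pos.uu (h : Pos U c a b p q) (τ : Sym2 α → Fin 3) (k : Cd) {u w : α} (hu : u ∈ U)
    (hw : w ∈ U) (h1 : s(u, w) ≠ s(c, a)) (h2 : s(u, w) ≠ s(a, b)) (h3 : s(u, w) ≠ s(c, b)) :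
    ov τ c a b p q k s(u, w) = τ s(u, w) := by
  have m1 : u ≠ p := fun e => h.hp (e ▸ hu)
  have m2 : u ≠ q := fun e => h.hq (e ▸ hu)
  have m3 : w ≠ p := fun e => h.hp (e ▸ hw)
  have m4 : w ≠ q := fun e => h.hq (e ▸ hw)
  rw [ov, if_neg h1, if_neg h2, if_neg h3]
  simp [m1, m2, m3, m4, m1.symm, m2.symm, m3.symm, m4.symm]

theorem pos_of_afan {F : Finset α} {wb wc : α} (h : AFan V τ F a b c wb wc) :
    Pos (V \ F) c a b wc wb :=
  ⟨mem_sdiff.2 ⟨h.hc, h.cF⟩, mem_sdiff.2 ⟨h.ha, h.aF⟩, mem_sdiff.2 ⟨h.hb, h.bF⟩,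
    fun e => (mem_sdiff.1 e).2 h.wcF, fun e => (mem_sdiff.1 e).2 h.wbF, h.ac.symm, h.bc.symm,
    h.ab, h.wbc.symm⟩

end Pool.Agent.Lib.MP_efe3d7_co.H.Fn
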