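import Pool.Agent.Lib.MP_efe3d7_co.H.FanC0

/-! Safe networks give three-connected graphs. -/

set_option autoImplicit false

open Finset

namespace Pool.Agent.Lib.MP_efe3d7_co.H.Fn

variable {α : Type} [DecidableEq α] {V : Finset α} {τ : Sym2 α → Fin 3}

/-- The number `n` is at most the indicator of `y ∈ S`. -/
def Fc1 (S : Finset α) (y : α) (n : ℕ) : Prop := n ≤ 1 ∧ (n ≠ 0 → y ∈ S)

theorem fc1_step {S : Finset α} {e : α} {n m : ℕ} (h : Fc1 S e n) (hm : m ≤ (S.erase e).card) :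
    n + m ≤ S.card := by
  by_cases k : n = 0
  · have := card_erase_le (s := S) (a := e)
    omega
  · have := card_erase_add_one (h.2 k)
    have := h.1
    omega

theorem Fc1.erase {S : Finset α} {e f : α} {n : ℕ} (h : Fc1 S e n) (k : f ≠ e) :
    Fc1 (S.erase f) e n := ⟨h.1, fun j => mem_erase.2 ⟨k.symm, h.2 j⟩⟩

theorem Fc1.inter {S T : Finset α} {e : α} {n : ℕ} (h : Fc1 S e n) (k : e ∈ T) :
    Fc1 (S ∩ T) e n := ⟨h.1, fun j => mem_inter.2 ⟨h.2 j, k⟩⟩

theorem fc1_two {S : Finset α} {e1 e2 : α} {n1 n2 : ℕ} (h1 : Fc1 S e1 n1) (h2 : Fc1 S e2 n2)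
    (d : e1 ≠ e2) : n1 + n2 ≤ S.card :=
  fc1_step h1 (fc1_step (m := 0) (h2.erase d) (Nat.zero_le _))

theorem fc1_three {S : Finset α} {e1 e2 e3 : α} {n1 n2 n3 : ℕ} (h1 : Fc1 S e1 n1)
    (h2 : Fc1 S e2 n2) (h3 : Fc1 S e3 n3) (d12 : e1 ≠ e2) (d13 : e1 ≠ e3) (d23 : e2 ≠ e3) :
    n1 + n2 + n3 ≤ S.card := by
  have := fc1_step h1 (fc1_two (h2.erase d12) (h3.erase d13) d23)
  omega

theorem fc1_four {S : Finset α} {e1 e2 e3 e4 : α} {n1 n2 n3 n4 : ℕ} (h1 : Fc1 S e1 n1)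
    (h2 : Fc1 S e2 n2) (h3 : Fc1 S e3 n3) (h4 : Fc1 S e4 n4) (d12 : e1 ≠ e2) (d13 : e1 ≠ e3)
    (d14 : e1 ≠ e4) (d23 : e2 ≠ e3) (d24 : e2 ≠ e4) (d34 : e3 ≠ e4) :
    n1 + n2 + n3 + n4 ≤ S.card := by
  have := fc1_step h1 (fc1_three (h2.erase d12) (h3.erase d13) (h4.erase d14) d23 d24 d34)
  omega

theorem fc1_oz {B S : Finset α} (h : Cov V τ B S) {x z y : α} (hx : x ∈ B) (hz : z ∈ B)
    (hy : y ∈ V) (k : y ∉ B) {s t : Fin 3} (hs : τ s(x, y) = s) (ht : τ s(z, y) = t) :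
    Fc1 S y (oz s t) := by
  unfold oz
  split_ifs with j
  · exact ⟨by omega, fun e => absurd rfl e⟩
  refine ⟨le_rfl, fun _ => ?_⟩
  rcases not_and_or.1 j with j | j
  · exact (h x hx y (mem_nb.2 ⟨hy, fun e => k (e ▸ hx), hs ▸ j⟩)).resolve_left k
  · exact (h z hz y (mem_nb.2 ⟨hy, fun e => k (e ▸ hz), ht ▸ j⟩)).resolve_left k

theorem fc1_nz {B S : Finset α} (h : Cov V τ B S) {x y : α} (hx : x ∈ B) (hy : y ∈ V) (k : y ∉ B)
    {t : Fin 3} (ht : τ s(x, y) = t) : Fc1 S y (nz t) := by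
  have := fc1_oz h hx hx hy k ht ht
  simpa only [oz, nz, and_self] using this

theorem fc1_le (s t : Fin 3) : nz s ≤ 1 ∧ oz s t ≤ 1 := by
  unfold nz oz
  split_ifs <;> simp

theorem col_con (hc : Con3 V τ) {F : Finset α} {a b c wb wc : α} (h : AFan V τ F a b c wb wc)
    (pa : Con3 (V \ F) (pth τ a b c)) {ta : Bool} {k : Cd} (hs : safe ta k = true)
    (hta : ta = true → 2 ≤ (nb V τ a \ (F ∪ {b, c})).card) :
    Con3 (V \ F ∪ inn wc wb k) (ov τ c a b wc wb k) := by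
  have g := pos_of_afan h
  obtain ⟨n1, n2, n3, n4, n5, n6⟩ := g.ne
  obtain ⟨t1, t2, t3, t4, t5, t6, t7, t8, t9, t0⟩ := g.ten τ k
  have gu := @Pos.uu _ _ _ _ _ _ _ _ g τ k
  have gp := @Pos.pu _ _ _ _ _ _ _ _ g τ k
  generalize ov τ c a b wc wb k = σ at *
  have sw : ∀ {x y : α} {t : Fin 3}, σ s(x, y) = t → σ s(y, x) = t := fun e => by
    rw [Sym2.eq_swap]; exact e
  have far : ∀ u ∈ V \ F, ∀ w ∈ V \ F, s(u, w) ≠ s(a, b) → s(u, w) ≠ s(a, c) → τ s(u, w) ≠ 0 →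
      σ s(u, w) ≠ 0 := fun u hu w hw e1 e2 e3 => by
    by_cases e : s(u, w) = s(c, b)
    · rw [e] at e3 ⊢
      rw [t3]
      split_ifs
      exacts [by decide, e3]
    · rwa [gu hu hw (by rwa [Sym2.eq_swap (a := c)]) e1 e]
  unfold safe at hs
  unfold inn
  by_cases k0 : k.n = 0
  · rw [if_pos k0, decide_eq_true_eq] at hs
    rw [if_pos k0, union_empty]
    have z1 := (fc1_le k.ca 0).1
    have z2 := (fc1_le k.ab 0).1
    refine pa.mono fun u hu w hw _ e => ?_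
    by_cases e1 : s(u, w) = s(a, b)
    · rw [e1, t2]
      intro j
      rw [j, show nz 0 = 0 from rfl] at hs
      omega
    by_cases e2 : s(u, w) = s(a, c)
    · rw [e2, sw t1]
      intro j
      rw [j, show nz 0 = 0 from rfl] at hs
      omega
    rw [pth, Function.update_of_ne e2, Function.update_of_ne e1] at e
    exact far u hu w hw e1 e2 e
  rw [if_neg k0] at hs ⊢
  have nq : ∀ K : Finset α, K ⊆ {wc, wb} → ∀ u ∈ K, ∀ w ∈ nb (V \ F ∪ K) σ u,
      w ∈ K ∨ w = a ∨ w = b ∨ w = c := fun K hK u hu w hw => by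
    by_contra j
    simp only [not_or] at j
    obtain ⟨w1, -, w3⟩ := mem_nb.1 hw
    have := gp ((mem_union.1 w1).resolve_right j.1) j.2.2.2 j.2.1 j.2.2.1
    rcases mem_insert.1 (hK hu) with e | e
    · exact w3 (e ▸ this.1)
    · exact w3 (mem_singleton.1 e ▸ this.2)
  have hK : ({wc, wb} : Finset α) ⊆ F := by simp [insert_subset_iff, h.wcF, h.wbF]
  have out : ∀ B : Finset α, B ⊆ F → c ∉ B ∧ a ∉ B ∧ b ∉ B := fun B hB =>
    ⟨fun e => h.cF (hB e), fun e => h.aF (hB e), fun e => h.bF (hB e)⟩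
  have ca := g.ca
  have cb := g.cb
  have ab := g.ab
  have pq := g.pq
  have mc := fun K => mem_union_left K g.hc
  have ma := fun K => mem_union_left K g.ha
  have mb := fun K => mem_union_left K g.hb
  by_cases k1 : k.n = 1
  · rw [if_pos k1] at hs ⊢
    simp only [Bool.and_eq_true, Bool.or_eq_true, decide_eq_true_eq] at hs
    have hK1 : ({wc} : Finset α) ⊆ {wc, wb} := by simp
    refine h.safe hc (hK1.trans hK) (by simp) far (nq _ hK1) (fun B S hB hne cov => ?_) ?_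
    · obtain ⟨o1, o2, o3⟩ := out B (hB.trans (hK1.trans hK))
      obtain ⟨u, hu⟩ := hne
      have hp : wc ∈ B := mem_singleton.1 (hB hu) ▸ hu
      exact hs.1.ge.trans (fc1_three (fc1_nz cov hp (mc _) o1 t4) (fc1_nz cov hp (ma _) o2 t5)
        (fc1_nz cov hp (mb _) o3 t6) ca cb ab)
    refine (hs.2.symm.imp_right hta).imp_left fun j B hB => ?_
    obtain ⟨o1, o2, o3⟩ := out B (hB.trans (hK1.trans hK))
    have cov := cov_bd (V := V \ F ∪ {wc}) (τ := σ) (insert a B)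
    have o4 : c ∉ insert a B := by simp [ca, o1]
    have o5 : b ∉ insert a B := by simp [ab.symm, o3]
    have z1 := (fc1_le k.pc 0).1
    have z2 := (fc1_le k.pa 0).1
    have z3 := (fc1_le k.pb 0).1
    by_cases hp : wc ∈ B
    · have hp' := mem_insert_of_mem (b := a) hp
      exact le_trans (by omega) (fc1_two ((fc1_nz cov hp' (mc _) o4 t4).inter (by simp))
        ((fc1_nz cov hp' (mb _) o5 t6).inter (by simp)) cb)
    · have hp' := mem_insert_self a B
      exact le_trans (by omega) (fc1_three ((fc1_nz cov hp' (mc _) o4 (sw t1)).inter (by simp))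
        ((fc1_nz cov hp' (mb _) o5 t2).inter (by simp))
        ((fc1_nz cov hp' (by simp) (by simp [n2, hp]) (sw t5)).inter (by simp)) cb n1.symm n3.symm)
  rw [if_neg k1] at hs ⊢
  simp only [Bool.and_eq_true, Bool.or_eq_true, decide_eq_true_eq] at hs
  obtain ⟨⟨⟨s1, s2⟩, s3⟩, s4⟩ := hs
  have mp : wc ∈ V \ F ∪ {wc, wb} := by simp
  have mq : wb ∈ V \ F ∪ {wc, wb} := by simp
  refine h.safe hc hK (by simp) far (nq _ Subset.rfl) (fun B S hB hne cov => ?_) ?_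
  · obtain ⟨o1, o2, o3⟩ := out B (hB.trans hK)
    by_cases hp : wc ∈ B <;> by_cases hq : wb ∈ B
    · exact s3.ge.trans (fc1_three (fc1_oz cov hp hq (mc _) o1 t4 t7)
        (fc1_oz cov hp hq (ma _) o2 t5 t8) (fc1_oz cov hp hq (mb _) o3 t6 t9) ca cb ab)
    · exact s1.trans (fc1_four (fc1_nz cov hp (mc _) o1 t4) (fc1_nz cov hp (ma _) o2 t5)
        (fc1_nz cov hp (mb _) o3 t6) (fc1_nz cov hp mq hq t0) ca cb n4.symm ab n5.symm n6.symm)
    · exact s2.trans (fc1_four (fc1_nz cov hq (mc _) o1 t7) (fc1_nz cov hq (ma _) o2 t8)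
        (fc1_nz cov hq (mb _) o3 t9) (fc1_nz cov hq mp hp (sw t0)) ca cb n1.symm ab n2.symm
        n3.symm)
    · obtain ⟨u, hu⟩ := hne
      rcases mem_insert.1 (hB hu) with e | e
      exacts [absurd (e ▸ hu) hp, absurd (mem_singleton.1 e ▸ hu) hq]
  refine (s4.symm.imp_right hta).imp_left fun j B hB => ?_
  obtain ⟨o1, o2, o3⟩ := out B (hB.trans hK)
  have cov := cov_bd (V := V \ F ∪ {wc, wb}) (τ := σ) (insert a B)
  have o4 : c ∉ insert a B := by simp [ca, o1]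
  have o5 : b ∉ insert a B := by simp [ab.symm, o3]
  have ha := mem_insert_self a B
  by_cases hp : wc ∈ B <;> by_cases hq : wb ∈ B
  · have hp' := mem_insert_of_mem (b := a) hp
    have hq' := mem_insert_of_mem (b := a) hq
    have z := (fc1_le k.pa k.qa).2
    exact le_trans (by omega) (fc1_two ((fc1_oz cov hp' hq' (mc _) o4 t4 t7).inter (by simp))
      ((fc1_oz cov hp' hq' (mb _) o5 t6 t9).inter (by simp)) cb)
  · have hp' := mem_insert_of_mem (b := a) hp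
    exact j.1.2.trans (fc1_three
      ((fc1_oz cov ha hp' mq (by simp [n5, hq]) (sw t8) t0).inter (by simp))
      ((fc1_oz cov ha hp' (mb _) o5 t2 t6).inter (by simp))
      ((fc1_oz cov ha hp' (mc _) o4 (sw t1) t4).inter (by simp)) n6 n4 cb.symm)
  · have hq' := mem_insert_of_mem (b := a) hq
    exact j.2.trans (fc1_three
      ((fc1_oz cov ha hq' mp (by simp [n2, hp]) (sw t5) (sw t0)).inter (by simp))
      ((fc1_oz cov ha hq' (mb _) o5 t2 t9).inter (by simp))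
      ((fc1_oz cov ha hq' (mc _) o4 (sw t1) t7).inter (by simp)) n3 n1 cb.symm)
  · exact j.1.1.trans (fc1_four
      ((fc1_nz cov ha mp (by simp [n2, hp]) (sw t5)).inter (by simp))
      ((fc1_nz cov ha mq (by simp [n5, hq]) (sw t8)).inter (by simp))
      ((fc1_nz cov ha (mb _) o5 t2).inter (by simp))
      ((fc1_nz cov ha (mc _) o4 (sw t1)).inter (by simp)) pq n3 n1 n6 n4 cb.symm)

end Pool.Agent.Lib.MP_efe3d7_co.H.Fn
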