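import Pool.Agent.Lib.MP_efe3d7_co.H.FanC0

/-! Counting vertices and edges. -/

set_option autoImplicit false

open Finset

namespace Pool.Agent.Lib.MP_efe3d7_co.H.Fn

variable {α : Type} [DecidableEq α] {V : Finset α} {τ : Sym2 α → Fin 3}

variable {U : Finset α} {c a b p q : α}

theorem col_card (h : Pos U c a b p q) (k : Cd) : (U ∪ inn p q k).card = U.card + k.n.val := by
  have hp := h.hp
  have hq : q ∉ insert p U := by simp [h.hq, h.pq.symm]
  unfold inn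
  obtain e | e | e : k.n = 0 ∨ k.n = 1 ∨ k.n = 2 := by omega
  · simp [e]
  · simp [e, hp]
  · rw [e, if_neg (by decide), if_neg (by decide), union_comm, pair_comm, insert_union,
      ← insert_eq, card_insert_of_notMem hq, card_insert_of_notMem hp]
    rfl

theorem fanc2a_ins {d : α} (hd : d ∉ U) (G : Sym2 α → ℕ) :
    ∑ e ∈ pairs (insert d U), G e = ∑ u ∈ U, G s(d, u) + ∑ e ∈ pairs U, G e := by
  have h1 : pairs (insert d U) = U.image (fun z => s(d, z)) ∪ pairs U := by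
    ext e
    induction e using Sym2.ind with
    | h a b =>
      simp only [mk_mem_pairs, mem_insert, mem_union, mem_image, Sym2.eq_iff]
      grind
  rw [h1, sum_union (disjoint_left.2 fun e he he' => ?_),
    sum_image fun z _ w _ h => Sym2.congr_right.1 h]
  obtain ⟨z, _, rfl⟩ := mem_image.1 he
  exact hd (mk_mem_pairs.1 he').1

theorem fanc2a_three (h : Pos U c a b p q) (f : α → ℕ)
    (hf : ∀ u ∈ U, u ≠ c → u ≠ a → u ≠ b → f u = 0) : ∑ u ∈ U, f u = f c + f a + f b := by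
  rw [← sum_subset (s₁ := {c, a, b}) (by simp [insert_subset_iff, h.hc, h.ha, h.hb])
    fun u hu n => hf u hu (by grind) (by grind) (by grind),
    sum_insert (by simp [h.ca, h.cb]), sum_pair h.ab, add_assoc]

theorem fanc2a_base (h : Pos U c a b p q) (τ : Sym2 α → Fin 3) (g : Fin 3 → ℕ) : ∃ r, ∀ k : Cd,
    ∑ e ∈ pairs U, g (ov τ c a b p q k e) =
      r + g k.ca + g k.ab + g (if k.fl then 1 else τ s(c, b)) := by
  refine ⟨∑ e ∈ pairs U \ {s(c, a), s(a, b), s(c, b)}, g (τ e), fun k => ?_⟩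
  obtain ⟨t1, t2, t3, -⟩ := h.ten τ k
  have n1 := h.ca
  have n2 := h.cb
  have n3 := h.ab
  rw [← sum_sdiff (s₁ := {s(c, a), s(a, b), s(c, b)}) (by
      simp [insert_subset_iff, mk_mem_pairs, h.hc, h.ha, h.hb, n1, n2, n3]),
    sum_insert (by simp [n1, n2, n3]), sum_pair (by simp [n1.symm, n3]), t1, t2, t3,
    sum_congr rfl (g := fun e => g (τ e)) fun e he => ?_]
  · omega
  induction e using Sym2.ind with
  | h u w =>
    obtain ⟨he, n⟩ := mem_sdiff.1 he
    simp only [mem_insert, mem_singleton, not_or] at n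
    rw [h.uu τ k (mk_mem_pairs.1 he).1 (mk_mem_pairs.1 he).2.1 n.1 n.2.1 n.2.2]

theorem fanc2a_sum (h : Pos U c a b p q) (τ : Sym2 α → Fin 3) (k : Cd) {g : Fin 3 → ℕ}
    (g0 : g 0 = 0) : ∑ e ∈ pairs (U ∪ inn p q k), g (ov τ c a b p q k e) + g (τ s(c, b)) =
      ∑ e ∈ pairs U, g (ov τ c a b p q zc e) + tot g k + g (if k.fl then 1 else τ s(c, b)) := by
  obtain ⟨r, hr⟩ := fanc2a_base h τ g
  obtain ⟨-, -, -, t1, t2, t3, t4, t5, t6, t7⟩ := h.ten τ k
  have hq : q ∉ insert p U := by simp [h.hq, h.pq.symm]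
  have s1 := fanc2a_three h (fun u => g (ov τ c a b p q k s(p, u))) fun u hu a1 a2 a3 => by
    rw [(h.pu τ k hu a1 a2 a3).1, g0]
  have s2 := fanc2a_three h (fun u => g (ov τ c a b p q k s(q, u))) fun u hu a1 a2 a3 => by
    rw [(h.pu τ k hu a1 a2 a3).2, g0]
  have z : ∑ e ∈ pairs U, g (ov τ c a b p q zc e) = r + g 0 + g 0 + g (τ s(c, b)) := hr zc
  rw [t1, t2, t3] at s1
  rw [t4, t5, t6] at s2
  rw [Sym2.eq_swap] at t7
  rw [z, g0, inn, tot]
  split_ifs with e1 e2 e3 e4 e5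
  all_goals first
    | rw [union_empty]
    | rw [union_comm, ← insert_eq, fanc2a_ins h.hp, s1]
    | rw [union_comm, pair_comm, insert_union, ← insert_eq, fanc2a_ins hq, sum_insert h.hp,
        fanc2a_ins h.hp, s1, s2, t7]
  all_goals simp only [hr k, *, if_true, if_false, Bool.false_eq_true]; omega

theorem col_ne (h : Pos U c a b p q) (τ : Sym2 α → Fin 3) (k : Cd) :
    ne (U ∪ inn p q k) (ov τ c a b p q k) ≤ ne U (ov τ c a b p q zc) + cnt k ∧
      (k.fl = false → ne (U ∪ inn p q k) (ov τ c a b p q k) = ne U (ov τ c a b p q zc) + cnt k ∧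
        nh (U ∪ inn p q k) (ov τ c a b p q k) = nh U (ov τ c a b p q zc) + tot hz k) := by
  have e1 : ∀ (U : Finset α) σ, ne U σ = ∑ e ∈ pairs U, nz (σ e) := fun U σ => by
    rw [ne, card_filter]
    exact sum_congr rfl fun e _ => by simp [nz]
  have e2 : ∀ (U : Finset α) σ, nh U σ = ∑ e ∈ pairs U, hz (σ e) := fun U σ => by
    rw [nh, card_filter]; rfl
  have a1 := fanc2a_sum h τ k (g := nz) rfl
  have a2 := fanc2a_sum h τ k (g := hz) rfl
  rw [e1, e1, e2, e2, cnt]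
  cases f : k.fl
  · rw [f, if_neg Bool.false_ne_true] at a1 a2
    rw [if_neg Bool.false_ne_true]
    omega
  · rw [f, if_pos rfl, show nz 1 = 1 from rfl] at a1
    rw [if_pos rfl]
    exact ⟨by omega, fun e => absurd e (by decide)⟩

theorem fanc2b_edge {v : ℕ → α} {k : ℕ} (h : Fan V τ a v k) {i : ℕ} (hi : i < k) :
    τ s(v (i + 1), a) ≠ 0 ∧ τ s(v (i + 1), v i) ≠ 0 ∧ τ s(v (i + 1), v (i + 2)) ≠ 0 := by
  have e := h.nbr i hi
  refine ⟨(mem_nb.1 (?_ : a ∈ nb V τ (v (i + 1)))).2.2,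
    (mem_nb.1 (?_ : v i ∈ nb V τ (v (i + 1)))).2.2,
    (mem_nb.1 (?_ : v (i + 2) ∈ nb V τ (v (i + 1)))).2.2⟩ <;> simp [e]

theorem fanc2b_le (g : Pos U c a b p q) {e : Sym2 α} (he : e ∈ pairs U)
    (n : ov τ c a b p q zc e ≠ 0) : τ e ≠ 0 := by
  induction e using Sym2.ind with
  | h u w =>
    obtain ⟨hu, hw, -⟩ := mk_mem_pairs.1 he
    obtain ⟨t1, t2, t3, -⟩ := g.ten τ zc
    by_cases h1 : s(u, w) = s(c, a)
    · exact absurd (h1 ▸ t1) n
    by_cases h2 : s(u, w) = s(a, b)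
    · exact absurd (h2 ▸ t2) n
    by_cases h3 : s(u, w) = s(c, b)
    · rw [h3] at n ⊢
      rw [t3] at n
      exact n
    · rwa [g.uu τ zc hu hw h1 h2 h3] at n

theorem fan_seven {v : ℕ → α} {k : ℕ} (h : Fan V τ a v k) (h3 : 3 ≤ k) (p q : α)
    (g : Pos (V \ fanQ v k) (v 0) a (v (k + 1)) p q) :
    ne (V \ fanQ v k) (ov τ (v 0) a (v (k + 1)) p q zc) + 7 ≤ ne V τ := by
  have d : ∀ i j, i ≤ 4 → j ≤ 4 → i ≠ j → v i ≠ v j := fun i j hi hj n e =>
    n (h.inj i j (by omega) (by omega) e)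
  have na : ∀ i, i ≤ 4 → v i ≠ a := fun i hi => h.na i (by omega)
  have hv : ∀ i, i ≤ 4 → v i ∈ V := fun i hi => h.hv i (by omega)
  have hq : ∀ i, i < 3 → v (i + 1) ∉ V \ fanQ v k := fun i hi e =>
    (mem_sdiff.1 e).2 (mem_fanQ.2 ⟨i, by omega, rfl⟩)
  obtain ⟨e1, e2, e3⟩ := fanc2b_edge h (i := 0) (by omega)
  obtain ⟨e4, -, e5⟩ := fanc2b_edge h (i := 1) (by omega)
  obtain ⟨e6, -, e7⟩ := fanc2b_edge h (i := 2) (by omega)
  have c7 : ({s(v 1, a), s(v 1, v 0), s(v 1, v 2), s(v 2, a), s(v 2, v 3), s(v 3, a),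
      s(v 3, v 4)} : Finset (Sym2 α)).card = 7 := by
    have a0 := na 0 (by omega)
    have a1 := na 1 (by omega)
    have a2 := na 2 (by omega)
    have a3 := na 3 (by omega)
    have a4 := na 4 (by omega)
    have d01 := d 0 1 (by omega) (by omega) (by omega)
    have d02 := d 0 2 (by omega) (by omega) (by omega)
    have d03 := d 0 3 (by omega) (by omega) (by omega)
    have d04 := d 0 4 (by omega) (by omega) (by omega)
    have d12 := d 1 2 (by omega) (by omega) (by omega)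
    have d13 := d 1 3 (by omega) (by omega) (by omega)
    have d14 := d 1 4 (by omega) (by omega) (by omega)
    have d23 := d 2 3 (by omega) (by omega) (by omega)
    have d24 := d 2 4 (by omega) (by omega) (by omega)
    have d34 := d 3 4 (by omega) (by omega) (by omega)
    rw [card_insert_of_notMem, card_insert_of_notMem, card_insert_of_notMem,
      card_insert_of_notMem, card_insert_of_notMem, card_insert_of_notMem, card_singleton]
    all_goals simp only [mem_insert, mem_singleton, Sym2.eq_iff]; grind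
  rw [← c7, ne, ne, ← card_union_of_disjoint]
  · refine card_le_card fun e he => ?_
    rcases mem_union.1 he with he | he
    · obtain ⟨m, n⟩ := mem_filter.1 he
      refine mem_filter.2 ⟨?_, fanc2b_le g m n⟩
      induction e using Sym2.ind with
      | h u w =>
        obtain ⟨hu, hw, n⟩ := mk_mem_pairs.1 m
        exact mk_mem_pairs.2 ⟨(mem_sdiff.1 hu).1, (mem_sdiff.1 hw).1, n⟩
    · simp only [mem_insert, mem_singleton] at he
      rcases he with rfl | rfl | rfl | rfl | rfl | rfl | rfl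
      · exact mem_filter.2 ⟨mk_mem_pairs.2 ⟨hv 1 (by omega), h.ha, na 1 (by omega)⟩, e1⟩
      · exact mem_filter.2 ⟨mk_mem_pairs.2 ⟨hv 1 (by omega), hv 0 (by omega),
          d 1 0 (by omega) (by omega) (by omega)⟩, e2⟩
      · exact mem_filter.2 ⟨mk_mem_pairs.2 ⟨hv 1 (by omega), hv 2 (by omega),
          d 1 2 (by omega) (by omega) (by omega)⟩, e3⟩
      · exact mem_filter.2 ⟨mk_mem_pairs.2 ⟨hv 2 (by omega), h.ha, na 2 (by omega)⟩, e4⟩
      · exact mem_filter.2 ⟨mk_mem_pairs.2 ⟨hv 2 (by omega), hv 3 (by omega),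
          d 2 3 (by omega) (by omega) (by omega)⟩, e5⟩
      · exact mem_filter.2 ⟨mk_mem_pairs.2 ⟨hv 3 (by omega), h.ha, na 3 (by omega)⟩, e6⟩
      · exact mem_filter.2 ⟨mk_mem_pairs.2 ⟨hv 3 (by omega), hv 4 (by omega),
          d 3 4 (by omega) (by omega) (by omega)⟩, e7⟩
  · refine disjoint_left.2 fun e he he' => ?_
    have m := (mem_filter.1 he).1
    simp only [mem_insert, mem_singleton] at he'
    rcases he' with rfl | rfl | rfl | rfl | rfl | rfl | rfl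
    · exact hq 0 (by omega) (mk_mem_pairs.1 m).1
    · exact hq 0 (by omega) (mk_mem_pairs.1 m).1
    · exact hq 0 (by omega) (mk_mem_pairs.1 m).1
    · exact hq 1 (by omega) (mk_mem_pairs.1 m).1
    · exact hq 1 (by omega) (mk_mem_pairs.1 m).1
    · exact hq 2 (by omega) (mk_mem_pairs.1 m).1
    · exact hq 2 (by omega) (mk_mem_pairs.1 m).1

theorem fanc2b_code (s t : Fin 3) (b0 b1 b2 b3 b4 : Bool) : ∃ m, m < 288 ∧
    tgT m = ⟨2, s, t, false, bT b0, bT b1, 0, 0, bT b2, bT b3, bT b4⟩ ∧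
    (m < 32 → s = 0 ∧ t = 0) := by
  have k : ∀ (s t : Fin 3) (b0 b1 b2 b3 b4 : Bool),
      let m := 96 * s.val + 32 * t.val + b0.toNat + 2 * b1.toNat + 4 * b2.toNat + 8 * b3.toNat +
        16 * b4.toNat
      m < 288 ∧ (dig (m / 96) = s ∧ dig (m / 32) = t ∧ bit m 0 = b0 ∧ bit m 1 = b1 ∧
        bit m 2 = b2 ∧ bit m 3 = b3 ∧ bit m 4 = b4) ∧ (m < 32 → s = 0 ∧ t = 0) := by
    decide
  obtain ⟨h1, ⟨a1, a2, a3, a4, a5, a6, a7⟩, h2⟩ := k s t b0 b1 b2 b3 b4
  exact ⟨_, h1, by rw [tgT, a1, a2, a3, a4, a5, a6, a7], h2⟩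

theorem fanc2b_bT {t : Fin 3} (h : t ≠ 0) : bT (decide (t = 2)) = t := by
  revert t
  decide

theorem fanc2b_ov {k : Cd} {e : Sym2 α} (h0 : k.fl = false) (h1 : k.ca = τ s(c, a))
    (h2 : k.ab = τ s(a, b)) (h3 : k.pc = τ s(p, c)) (h4 : k.pa = τ s(p, a))
    (h5 : k.pb = τ s(p, b)) (h6 : k.qc = τ s(q, c)) (h7 : k.qa = τ s(q, a))
    (h8 : k.qb = τ s(q, b)) (h9 : k.e = τ s(p, q))
    (h : p ∈ e ∨ q ∈ e → e ≠ s(p, c) → e ≠ s(p, a) → e ≠ s(q, a) → e ≠ s(q, b) → e ≠ s(p, q) →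
      τ e = 0) : ov τ c a b p q k e = τ e := by
  rw [ov, h0, h1, h2, h3, h4, h5, h6, h7, h8, h9, if_neg Bool.false_ne_true]
  by_cases c1 : e = s(c, a)
  · rw [if_pos c1, c1]
  by_cases c2 : e = s(a, b)
  · rw [if_neg c1, if_pos c2, c2]
  rw [if_neg c1, if_neg c2]
  by_cases c3 : e = s(c, b)
  · rw [if_pos c3]
  by_cases c4 : e = s(p, c)
  · rw [if_neg c3, if_pos c4, c4]
  rw [if_neg c3, if_neg c4]
  by_cases c5 : e = s(p, a)
  · rw [if_pos c5, c5]
  by_cases c6 : e = s(p, b)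
  · rw [if_neg c5, if_pos c6, c6]
  rw [if_neg c5, if_neg c6]
  by_cases c7 : e = s(q, c)
  · rw [if_pos c7, c7]
  by_cases c8 : e = s(q, a)
  · rw [if_neg c7, if_pos c8, c8]
  rw [if_neg c7, if_neg c8]
  by_cases c9 : e = s(q, b)
  · rw [if_pos c9, c9]
  by_cases c10 : e = s(p, q)
  · rw [if_neg c9, if_pos c10, c10]
  rw [if_neg c9, if_neg c10]
  by_cases c11 : p ∈ e ∨ q ∈ e
  · rw [if_pos c11, h c11 c4 c5 c8 c9 c10]
  · rw [if_neg c11]

/-- A fan with two vertices is one of the listed networks. -/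
theorem fan_two {v : ℕ → α} (h : Fan V τ a v 2) : ∃ m, m < 288 ∧
    V \ fanQ v 2 ∪ inn (v 1) (v 2) (tgT m) = V ∧
    (∀ u ∈ V, ∀ w ∈ V, u ≠ w → ov τ (v 0) a (v 3) (v 1) (v 2) (tgT m) s(u, w) = τ s(u, w)) ∧
    (m < 32 → 2 ≤ (nb V τ a \ (fanQ v 2 ∪ {v 3, v 0})).card) := by
  obtain ⟨e1, e2, e3⟩ := fanc2b_edge h (i := 0) (by omega)
  obtain ⟨e4, -, e5⟩ := fanc2b_edge h (i := 1) (by omega)
  obtain ⟨m, h1, h2, h3⟩ := fanc2b_code (τ s(v 0, a)) (τ s(a, v 3)) (decide (τ s(v 1, v 0) = 2))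
    (decide (τ s(v 1, a) = 2)) (decide (τ s(v 2, a) = 2)) (decide (τ s(v 2, v 3) = 2))
    (decide (τ s(v 1, v 2) = 2))
  rw [fanc2b_bT e1, fanc2b_bT e2, fanc2b_bT e3, fanc2b_bT e4, fanc2b_bT e5] at h2
  have hF : fanQ v 2 = {v 1, v 2} := by
    ext w
    simp only [mem_fanQ, mem_insert, mem_singleton]
    constructor
    · rintro ⟨i, hi, rfl⟩
      obtain rfl | rfl : i = 0 ∨ i = 1 := by omega
      · exact Or.inl rfl
      · exact Or.inr rfl
    · rintro (rfl | rfl)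
      · exact ⟨0, by omega, rfl⟩
      · exact ⟨1, by omega, rfl⟩
  have d : ∀ i j, i ≤ 3 → j ≤ 3 → i ≠ j → v i ≠ v j := fun i j hi hj n e =>
    n (h.inj i j hi hj e)
  have z1 : ∀ w ∈ V, w ≠ v 1 → w ≠ a → w ≠ v 0 → w ≠ v 2 → τ s(v 1, w) = 0 := by
    intro w hw n0 n1 n2 n3
    by_contra n
    have : w ∈ nb V τ (v (0 + 1)) := mem_nb.2 ⟨hw, n0, n⟩
    rw [h.nbr 0 (by omega)] at this
    simp [n1, n2, n3] at this
  have z2 : ∀ w ∈ V, w ≠ v 2 → w ≠ a → w ≠ v 1 → w ≠ v 3 → τ s(v 2, w) = 0 := by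
    intro w hw n0 n1 n2 n3
    by_contra n
    have : w ∈ nb V τ (v (1 + 1)) := mem_nb.2 ⟨hw, n0, n⟩
    rw [h.nbr 1 (by omega)] at this
    simp [n1, n2, n3] at this
  refine ⟨m, h1, ?_, fun u hu w hw n => ?_, fun l => ?_⟩
  · rw [h2, inn, if_neg (show ¬ (2 : Fin 3) = 0 by decide), if_neg (show ¬ (2 : Fin 3) = 1 by decide),
      hF]
    exact sdiff_union_of_subset (by
      simp [insert_subset_iff, h.hv 1 (by omega), h.hv 2 (by omega)])
  · have y1 := z1 (v 3) (h.hv 3 (by omega)) (d 3 1 (by omega) (by omega) (by omega))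
      (h.na 3 (by omega)) (d 3 0 (by omega) (by omega) (by omega))
      (d 3 2 (by omega) (by omega) (by omega))
    have y2 := z2 (v 0) (h.hv 0 (by omega)) (d 0 2 (by omega) (by omega) (by omega))
      (h.na 0 (by omega)) (d 0 1 (by omega) (by omega) (by omega))
      (d 0 3 (by omega) (by omega) (by omega))
    rw [h2]
    refine fanc2b_ov rfl rfl rfl rfl rfl y1.symm y2.symm rfl rfl rfl
      fun c c1 c2 c3 c4 c5 => ?_
    simp only [Sym2.mem_iff] at c
    simp only [ne_eq, Sym2.eq_iff] at c1 c2 c3 c4 c5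
    rcases c with (rfl | rfl) | (rfl | rfl)
    · exact z1 w hw n.symm (by grind) (by grind) (by grind)
    · rw [Sym2.eq_swap]
      exact z1 u hu n (by grind) (by grind) (by grind)
    · exact z2 w hw n.symm (by grind) (by grind) (by grind)
    · rw [Sym2.eq_swap]
      exact z2 u hu n (by grind) (by grind) (by grind)
  · obtain ⟨s0, t0⟩ := h3 l
    have s : nb V τ a \ {v 1, v 2} ⊆ nb V τ a \ (fanQ v 2 ∪ {v 3, v 0}) := by
      intro w hw
      obtain ⟨m1, m2⟩ := mem_sdiff.1 hw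
      refine mem_sdiff.2 ⟨m1, fun e => ?_⟩
      rw [hF, mem_union, mem_insert (a := w) (b := v 3), mem_singleton] at e
      rcases e with e | rfl | rfl
      · exact m2 e
      · exact (mem_nb.1 m1).2.2 t0
      · exact (mem_nb.1 m1).2.2 (by rw [Sym2.eq_swap]; exact s0)
    have c1 := card_le_card s
    have c2 := le_card_sdiff ({v 1, v 2} : Finset α) (nb V τ a)
    have c3 : ({v 1, v 2} : Finset α).card ≤ 2 := card_le_two
    have c4 : 4 ≤ (nb V τ a).card := h.hub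
    omega

end Pool.Agent.Lib.MP_efe3d7_co.H.Fn
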