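import Pool.Agent.Lib.MP_efe3d7_co.H.FanC0

/-! The value of a graph with a small network. -/

set_option autoImplicit false

open Finset

namespace Pool.Agent.Lib.MP_efe3d7_co.H.Fn

variable {α : Type} [DecidableEq α] {V : Finset α} {τ : Sym2 α → Fin 3}

variable [Fintype α] {x : ℝ} {U : Finset α} {c a b p q : α}

/-- A new vertex joined to the three terminals, which are kept. -/
theorem form_star (hx : 0 < x) {y : Sym2 α → ℝ} {d : α} (hd : d ∉ U) (hc : c ∈ U) (ha : a ∈ U)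
    (hb : b ∈ U) (hca : c ≠ a) (hcb : c ≠ b) (hab : a ≠ b)
    (hy : ∀ v ∈ U, v ≠ c → v ≠ a → v ≠ b → y s(d, v) = 1) {β₀ β₁ β₂ β₃ β₄ : ℝ}
    (h : Form x U y c a b β₀ β₁ β₂ β₃ β₄) :
    Form x (insert d U) y c a b
      ((2 - x - y s(d, c) - y s(d, a) - y s(d, b)) * β₀)
      ((1 - x - y s(d, a) * y s(d, c) - y s(d, b)) * β₁)
      ((1 - x - y s(d, b) * y s(d, c) - y s(d, a)) * β₂)
      ((1 - x - y s(d, c) - y s(d, a) * y s(d, b)) * β₃)
      ((-x - y s(d, a) * (y s(d, b) * y s(d, c))) * β₄) := by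
  intro t₁ t₂ t₃
  have dc : d ≠ c := fun e => hd (e ▸ hc)
  have da : d ≠ a := fun e => hd (e ▸ ha)
  have db : d ≠ b := fun e => hd (e ▸ hb)
  have hF : Form x U (set3 y c a b t₁ t₂ t₃) c a b β₀ β₁ β₂ β₃ β₄ :=
    h.congr hca hcb hab fun u _ v _ h1 h2 h3 => set3_out _ h1 h2 h3 _ _ _ _
  rw [(vertex3 hx hd hc ha hb hca hcb hab (fun v hv h1 h2 h3 => by
      rw [set3_out _ dc da db, hy v hv h1 h2 h3]) hF).eval fun _ _ _ _ _ _ _ => rfl,
    set3_ra, set3_rb _ hab, set3_ab _ hca hcb, set3_out _ dc da db, set3_out _ dc da db,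
    set3_out' _ dc da db, Sym2.eq_swap (a := c)]
  ring

theorem col_val (hx : 0 < x) (h : Pos U c a b p q) {β₀ β₁ β₂ β₃ β₄ : ℝ}
    (hf : Form x U (fun e => wt x (τ e)) c a b β₀ β₁ β₂ β₃ β₄) (k : Cd) :
    FF x (U ∪ inn p q k) (ov τ c a b p q k) =
      pr (ev5 x (cvP k)) ⟨β₀, β₁, wt x (τ s(c, b)) * β₂, β₃, wt x (τ s(c, b)) * β₄⟩ := by
  obtain ⟨n1, n2, n3, n4, n5, n6⟩ := h.ne
  obtain ⟨e1, e2, e3, e4, e5, e6, e7, e8, e9, e0⟩ := h.ten τ k
  rw [FF]
  generalize hy : (fun e => wt x (ov τ c a b p q k e)) = y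
  have ey : ∀ e, y e = wt x (ov τ c a b p q k e) := fun e => (congrFun hy e).symm
  have hF : Form x U y c a b β₀ β₁ β₂ β₃ β₄ := hf.congr h.ca h.cb h.ab fun u hu v hv h1 h2 h3 => by
    rw [ey, h.uu τ k hu hv (by simp [h1, h2]) (by simp [h2, h3]) (by simp [h1, h3])]
  have hp : ∀ v ∈ U, v ≠ c → v ≠ a → v ≠ b → y s(p, v) = 1 := fun v hv h1 h2 h3 => by
    rw [ey, (h.pu τ k hv h1 h2 h3).1, wt0]
  have hq : ∀ v ∈ U, v ≠ c → v ≠ a → v ≠ b → y s(q, v) = 1 := fun v hv h1 h2 h3 => by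
    rw [ey, (h.pu τ k hv h1 h2 h3).2, wt0]
  have up : ∀ u ∈ U, u ≠ p := fun u hu e => h.hp (e ▸ hu)
  have uq : ∀ u ∈ U, u ≠ q := fun u hu e => h.hq (e ▸ hu)
  unfold inn cvP inP
  split_ifs with k0 k1
  · rw [union_empty, hF.eval fun _ _ _ _ _ _ _ => rfl]
    simp only [ey, e1, e2, e3]
    cases k.fl <;> simp [pr, ev5, outP, pev_wP, wt1] <;> ring
  · rw [union_comm, ← insert_eq, (form_star hx h.hp h.hc h.ha h.hb h.ca h.cb h.ab hp hF).eval
      fun _ _ _ _ _ _ _ => rfl]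
    simp only [ey, e1, e2, e3, e4, e5, e6]
    cases k.fl <;> simp [pr, ev5, outP, stP, pev_wP, wt1] <;> ring
  · have hU : U ∪ {p, q} = insert q (insert p U) := by
      ext z
      simp only [mem_union, mem_insert, mem_singleton]
      tauto
    have hq' : q ∉ insert p U := by simp [h.hq, h.pq.symm]
    have o1 : ∀ u v, v ∈ U → Function.update y s(p, q) 1 s(u, v) = y s(u, v) := fun u v hv =>
      Function.update_of_ne (by simp [up v hv, uq v hv]) _ _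
    have f1 := form_star hx hq' (mem_insert_of_mem h.hc) (mem_insert_of_mem h.ha)
      (mem_insert_of_mem h.hb) h.ca h.cb h.ab (y := Function.update y s(p, q) 1)
      (fun v hv h1 h2 h3 => by
        rcases mem_insert.1 hv with rfl | hv
        · rw [Sym2.eq_swap, Function.update_self]
        · rw [o1 _ _ hv, hq v hv h1 h2 h3])
      (form_star hx h.hp h.hc h.ha h.hb h.ca h.cb h.ab
        (fun v hv h1 h2 h3 => by rw [o1 _ _ hv, hp v hv h1 h2 h3])
        (hF.congr h.ca h.cb h.ab fun u _ v hv _ _ _ => o1 u v hv))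
    have f2 := form_star hx h.hp h.hc h.ha h.hb h.ca h.cb h.ab (y := mergeW y p q)
      (fun v hv h1 h2 h3 => by rw [mergeW_self, hp v hv h1 h2 h3, hq v hv h1 h2 h3, mul_one])
      (hF.congr h.ca h.cb h.ab fun u hu v hv _ _ _ => mergeW_of_ne _ _ (up u hu) (up v hv))
    rw [hU, ff_del hx (mem_insert_of_mem (mem_insert_self _ _)) (mem_insert_self _ _) h.pq,
      erase_insert hq', f1.eval fun _ _ _ _ _ _ _ => rfl, f2.eval fun _ _ _ _ _ _ _ => rfl]
    simp only [o1 _ _ h.hc, o1 _ _ h.ha, o1 _ _ h.hb, mergeW_self,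
      mergeW_of_ne _ _ n1.symm n2.symm, mergeW_of_ne _ _ n1.symm n3.symm,
      mergeW_of_ne _ _ n2.symm n3.symm]
    simp only [ey, e1, e2, e3, e4, e5, e6, e7, e8, e9, e0]
    cases k.fl <;> simp [pr, ev5, outP, stP, twoP, pev_wP, wt1] <;> ring

end Pool.Agent.Lib.MP_efe3d7_co.H.Fn
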