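import Pool.Agent.Lib.MP_efe3d7_co.H.FanP

/-! Small networks on three terminals and the checker for certificates. -/

set_option autoImplicit false

namespace Pool.Agent.Lib.MP_efe3d7_co.H.Fn

/-- Five values. -/
structure T5 (β : Type) where
  /-- all terminals different -/
  a : β
  /-- first pair -/
  b : β
  /-- second pair -/
  c : β
  /-- third pair -/
  d : β
  /-- all terminals equal -/
  e : β

/-- Evaluation of five polynomials. -/
noncomputable def ev5 (x : ℝ) (f : T5 (List ℤ)) : T5 ℝ :=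
  ⟨pev x f.a, pev x f.b, pev x f.c, pev x f.d, pev x f.e⟩

/-- The pairing of a network with the rest of the graph. -/
def pr (f g : T5 ℝ) : ℝ := f.a * g.a - f.b * g.b - f.c * g.c - f.d * g.d - f.e * g.e

/-- A network on the terminals `c, a, b` with at most two inner vertices `p, q`. -/
structure Cd where
  /-- number of inner vertices -/
  n : Fin 3
  /-- type of `c a` -/
  ca : Fin 3
  /-- type of `a b` -/
  ab : Fin 3
  /-- the pair `c b` becomes a hard edge -/
  fl : Bool
  /-- type of `p c` -/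
  pc : Fin 3
  /-- type of `p a` -/
  pa : Fin 3
  /-- type of `p b` -/
  pb : Fin 3
  /-- type of `q c` -/
  qc : Fin 3
  /-- type of `q a` -/
  qa : Fin 3
  /-- type of `q b` -/
  qb : Fin 3
  /-- type of `p q` -/
  e : Fin 3

/-- The weight of a type as a polynomial. -/
def wP (t : Fin 3) : List ℤ := if t = 0 then [1] else if t = 1 then [] else [0, -1]

theorem pev_wP (x : ℝ) (t : Fin 3) : pev x (wP t) = wt x t := by
  unfold wP wt
  split_ifs <;> simp

/-- One inner vertex joined to the terminals. -/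
def stP (c a b : List ℤ) : T5 (List ℤ) :=
  ⟨psub (psub (psub [2, -1] c) a) b, psub (psub [1, -1] (pmul a c)) b,
    psub (psub [1, -1] (pmul b c)) a, psub (psub [1, -1] c) (pmul a b),
    psub [0, -1] (pmul a (pmul b c))⟩

/-- Two inner vertices. -/
def twoP (s t u : T5 (List ℤ)) (w : List ℤ) : T5 (List ℤ) :=
  ⟨padd (pmul s.a t.a) (pmul w u.a), padd (pmul s.b t.b) (pmul w u.b),
    padd (pmul s.c t.c) (pmul w u.c), padd (pmul s.d t.d) (pmul w u.d),
    padd (pmul s.e t.e) (pmul w u.e)⟩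

/-- The contribution of the inner vertices. -/
def inP (k : Cd) : T5 (List ℤ) :=
  if k.n = 0 then ⟨[1], [1], [1], [1], [1]⟩
  else if k.n = 1 then stP (wP k.pc) (wP k.pa) (wP k.pb)
  else twoP (stP (wP k.pc) (wP k.pa) (wP k.pb)) (stP (wP k.qc) (wP k.qa) (wP k.qb))
    (stP (pmul (wP k.pc) (wP k.qc)) (pmul (wP k.pa) (wP k.qa)) (pmul (wP k.pb) (wP k.qb)))
    (psub [1] (wP k.e))

/-- The edges between terminals. -/
def outP (g : T5 (List ℤ)) (s t : List ℤ) (fl : Bool) : T5 (List ℤ) :=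
  ⟨g.a, pmul s g.b, if fl then [] else g.c, pmul t g.d,
    if fl then [] else pmul (pmul s t) g.e⟩

/-- The vector of a network. -/
def cvP (k : Cd) : T5 (List ℤ) := outP (inP k) (wP k.ca) (wP k.ab) k.fl

/-- Indicator of an edge. -/
def nz (t : Fin 3) : ℕ := if t = 0 then 0 else 1

/-- Indicator of a hard edge. -/
def hz (t : Fin 3) : ℕ := if t = 1 then 1 else 0

/-- Indicator of at least one of two edges. -/
def oz (s t : Fin 3) : ℕ := if s = 0 ∧ t = 0 then 0 else 1

/-- Sum of an indicator over the pairs of a network. -/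
def tot (g : Fin 3 → ℕ) (k : Cd) : ℕ :=
  g k.ca + g k.ab + (if k.n = 0 then 0 else g k.pc + g k.pa + g k.pb +
    if k.n = 1 then 0 else g k.qc + g k.qa + g k.qb + g k.e)

/-- The number of edges. -/
def cnt (k : Cd) : ℕ := tot nz k + if k.fl then 1 else 0

/-- The network can replace a maximal fan. -/
def safe (ta : Bool) (k : Cd) : Bool :=
  if k.n = 0 then decide (nz k.ca + nz k.ab = 2)
  else if k.n = 1 then decide (nz k.pc + nz k.pa + nz k.pb = 3) &&
    (ta || decide (1 ≤ nz k.ca + nz k.ab))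
  else decide (3 ≤ nz k.pc + nz k.pa + nz k.pb + nz k.e) &&
    decide (3 ≤ nz k.qc + nz k.qa + nz k.qb + nz k.e) &&
    decide (oz k.pc k.qc + oz k.pa k.qa + oz k.pb k.qb = 3) &&
    (ta || (decide (2 ≤ nz k.pa + nz k.qa + nz k.ab + nz k.ca) &&
      decide (2 ≤ oz k.qa k.e + oz k.ab k.pb + oz k.ca k.pc) &&
      decide (2 ≤ oz k.pa k.e + oz k.ab k.qb + oz k.ca k.qc)))

/-- The weight of a network among those of the same size. -/
def wgt (k : Cd) : ℕ := 9 ^ (k.n.val + 9 - tot hz k) * 8 ^ (2 + tot hz k - k.n.val)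

/-- A digit as a type. -/
def dig (m : ℕ) : Fin 3 := if m % 3 = 0 then 0 else if m % 3 = 1 then 1 else 2

/-- Decoding of a network. -/
def dec (m : ℕ) : Cd :=
  ⟨dig m, dig (m / 3), dig (m / 9), decide (m / 27 % 3 = 1), dig (m / 81), dig (m / 243),
    dig (m / 729), dig (m / 2187), dig (m / 6561), dig (m / 19683), dig (m / 59049)⟩

/-- Natural numbers as integers. -/
def toZ : List ℕ → List ℤ
  | [] => []
  | a :: l => Int.ofNat a :: toZ l

theorem nng_toZ (l : List ℕ) : nng (toZ l) = true := by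
  induction l with
  | nil => rfl
  | cons a l ih => simp [toZ, nng, ih]

/-- Add a multiple of a vector. -/
def acc (c : List ℤ) (g s : T5 (List ℤ)) : T5 (List ℤ) :=
  ⟨padd (pmul c g.a) s.a, padd (pmul c g.b) s.b, padd (pmul c g.c) s.c, padd (pmul c g.d) s.d,
    padd (pmul c g.e) s.e⟩

/-- The combination of the networks of a certificate. -/
def sumC (s : T5 (List ℤ)) : List (ℕ × List ℕ) → T5 (List ℤ)
  | [] => s
  | u :: l => acc (toP (toZ u.2)).1 (cvP (dec u.1)) (sumC s l)

/-- The combination of the weights of the networks of the same size. -/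
def sumW (N : ℕ) : List (ℕ × List ℕ) → List ℤ
  | [] => []
  | u :: l => if cnt (dec u.1) < N then sumW N l
      else padd (psm (Int.ofNat (wgt (dec u.1))) (toP (toZ u.2)).1) (sumW N l)

/-- All networks of a certificate are admissible. -/
def allOK (ta : Bool) (N E : ℕ) : List (ℕ × List ℕ) → Bool
  | [] => true
  | u :: l => safe ta (dec u.1) &&
      (decide (cnt (dec u.1) < N) || (decide (cnt (dec u.1) = E) && !(dec u.1).fl)) &&
      allOK ta N E l

/-- Some smaller network has a positive coefficient at the given end. -/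
def anyPos (N : ℕ) (g : List ℤ → ℤ) : List (ℕ × List ℕ) → Bool
  | [] => false
  | u :: l => (decide (cnt (dec u.1) < N) && decide (0 < g (toZ u.2))) || anyPos N g l

/-- Test for the zero vector. -/
def zero5 (s : T5 (List ℤ)) : Bool :=
  pzero s.a && pzero s.b && pzero s.c && pzero s.d && pzero s.e

/-- A certificate. -/
abbrev Ct := List ℕ × List (ℕ × List ℕ)

/-- The checker. -/
def chk (ta : Bool) (N E w : ℕ) (f : T5 (List ℤ)) (c : Ct) : Bool :=
  allOK ta N E c.2 && posB (toZ c.1) && anyPos N (fun l => l.headD 0) c.2 &&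
    anyPos N (fun l => l.getLastD 0) c.2 &&
    zero5 (sumC (acc (psm (-1) (toP (toZ c.1)).1) f ⟨[], [], [], [], []⟩) c.2) &&
    nonneg (psub (psm (Int.ofNat w) (toP (toZ c.1)).1) (sumW N c.2))

variable {x : ℝ}

theorem pr_acc (c : List ℤ) (g s : T5 (List ℤ)) (γ : T5 ℝ) :
    pr (ev5 x (acc c g s)) γ = pev x c * pr (ev5 x g) γ + pr (ev5 x s) γ := by
  simp only [pr, ev5, acc, pev_add, pev_mul]
  ring

theorem sum_bound (h1 : 1 / 4 ≤ x) (h2 : x ≤ 1 / 2) {ta : Bool} {N E : ℕ} {γ : T5 ℝ} {μ : ℝ}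
    (hs : ∀ k, safe ta k = true → cnt k < N → 0 < pr (ev5 x (cvP k)) γ)
    (he : ∀ k, safe ta k = true → cnt k = E → k.fl = false → μ * wgt k ≤ pr (ev5 x (cvP k)) γ)
    (s : T5 (List ℤ)) (g : List ℤ → ℤ) (hg : ∀ l, nng l = true → 0 < g l → 0 < bR x l)
    (l : List (ℕ × List ℕ)) (h : allOK ta N E l = true) :
    pr (ev5 x s) γ + μ * pev x (sumW N l) ≤ pr (ev5 x (sumC s l)) γ ∧
      (anyPos N g l = true → pr (ev5 x s) γ + μ * pev x (sumW N l) < pr (ev5 x (sumC s l)) γ) := by
  induction l with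
  | nil => simp [sumW, sumC, anyPos]
  | cons u l ih =>
    simp only [allOK, Bool.and_eq_true, Bool.or_eq_true, decide_eq_true_eq,
      Bool.not_eq_true'] at h
    obtain ⟨i1, i2⟩ := ih h.2
    have c0 := bR_nonneg h1 h2 (nng_toZ u.2)
    rw [sumC, pr_acc, (pev_toP _).1, sumW, anyPos]
    simp only [Bool.and_eq_true, Bool.or_eq_true, decide_eq_true_eq]
    split_ifs with k
    · have p := hs _ h.1.1 k
      refine ⟨by nlinarith [mul_nonneg c0 p.le], ?_⟩
      rintro (e | e)
      · nlinarith [mul_pos (hg _ (nng_toZ u.2) e.2) p]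
      · nlinarith [mul_nonneg c0 p.le, i2 e]
    · have e := h.1.2.resolve_left k
      have p := mul_le_mul_of_nonneg_left (he _ h.1.1 e.1 e.2) c0
      rw [pev_add, pev_sm, (pev_toP _).1]
      simp only [Int.ofNat_eq_natCast, Int.cast_natCast]
      refine ⟨by nlinarith, ?_⟩
      rintro (e | e)
      · exact absurd e.1 k
      · nlinarith [i2 e]

theorem chk_sound (h1 : 1 / 4 ≤ x) (h2 : x ≤ 1 / 2) {ta : Bool} {N E w : ℕ} {γ : T5 ℝ} {μ : ℝ}
    (hμ : μ ≤ 0) (hs : ∀ k, safe ta k = true → cnt k < N → 0 < pr (ev5 x (cvP k)) γ)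
    (he : ∀ k, safe ta k = true → cnt k = E → k.fl = false → μ * wgt k ≤ pr (ev5 x (cvP k)) γ)
    {f : T5 (List ℤ)} {c : Ct} (h : chk ta N E w f c = true) : μ * w < pr (ev5 x f) γ := by
  simp only [chk, zero5, Bool.and_eq_true] at h
  obtain ⟨⟨⟨⟨⟨a1, a2⟩, a3⟩, a4⟩, ⟨⟨⟨⟨z1, z2⟩, z3⟩, z4⟩, z5⟩⟩, a6⟩ := h
  have M := bR_pos h1 h2 a2
  have b := pev_nonneg h1 h2 a6
  have z : pr (ev5 x (sumC (acc (psm (-1) (toP (toZ c.1)).1) f ⟨[], [], [], [], []⟩) c.2)) γ = 0 := by
    simp only [pr, ev5, pev_zero z1, pev_zero z2, pev_zero z3, pev_zero z4, pev_zero z5]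
    ring
  have key : pr (ev5 x (acc (psm (-1) (toP (toZ c.1)).1) f ⟨[], [], [], [], []⟩)) γ +
      μ * pev x (sumW N c.2) < 0 := by
    rw [← z]
    rcases h2.lt_or_eq with k | k
    · exact (sum_bound h1 h2 hs he _ _ (fun l a b => bR_head h1 k a b) _ a1).2 a3
    · exact (sum_bound h1 h2 hs he _ _ (fun l _ b => by
        rw [k, bR_half]; exact_mod_cast b) _ a1).2 a4
  rw [pr_acc, pev_sm, (pev_toP _).1] at key
  rw [pev_sub, pev_sm, (pev_toP _).1] at b
  simp only [Int.ofNat_eq_natCast, Int.cast_natCast] at b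
  have z0 : pr (ev5 x ⟨[], [], [], [], []⟩) γ = 0 := by simp [pr, ev5]
  rw [z0] at key
  push_cast at key
  by_contra n
  nlinarith [mul_nonneg M.le (sub_nonneg.2 (not_lt.1 n)), mul_nonneg (neg_nonneg.2 hμ) b]

/-- One step along the fan, for one row. -/
def rowP (s r : List ℤ) (a : List ℤ × List ℤ) : List ℤ × List ℤ :=
  (psub a.2 (pmul (pmul r s) a.1), padd (pmul (psub [1, -1] r) a.2) (pmul (pmul [0, 1] s) a.1))

/-- One step along the fan. -/
def stpP (s r : List ℤ) (a : T5 (List ℤ)) : T5 (List ℤ) :=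
  ⟨pmul (psub [1] r) a.a, (rowP s r (a.b, a.c)).1, (rowP s r (a.b, a.c)).2,
    (rowP s r (a.d, a.e)).1, (rowP s r (a.d, a.e)).2⟩

/-- The vector of a state. -/
def finP (t s : List ℤ) (a : T5 (List ℤ)) : T5 (List ℤ) :=
  ⟨psub a.a a.e, pmul s (pmul [0, 1] a.d), psub (pmul [1, -1] a.a) a.e, pmul [0, 1] (pmul t a.c),
    pmul (pmul s [0, 0, -1]) (pmul t a.b)⟩

/-- Hard or forced. -/
def bP (b : Bool) : List ℤ := if b then [0, -1] else []

/-- Absent or forced. -/
def aP (b : Bool) : List ℤ := if b then [0, -1] else [1]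

/-- An end of an interval. -/
def enP (b : Bool) (A : List ℤ) : List ℤ := if b then A else pmul [0, -1] A

/-- A corner of a box. -/
def crn (bx v1 v2 v3 v4 : Bool) : T5 (List ℤ) :=
  ⟨if bx then [1, 2, 1] else [1, 3, 3, 1], enP v1 [1, 1], enP v2 [1, 1], enP v3 [1], enP v4 [1]⟩

/-- The first state. -/
def iniP (r : Bool) : T5 (List ℤ) :=
  ⟨psub [1] (bP r), if r then [1] else [], [1], [1], psub [1, -1] (bP r)⟩

/-- A binary digit. -/
def bit (m i : ℕ) : Bool := decide (m / 2 ^ i % 2 = 1)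

/-- The vector after the last step from a corner of a box. -/
def tgB (m : ℕ) : T5 (List ℤ) :=
  finP (aP (bit m 7)) (aP (bit m 6)) (stpP (bP (bit m 4)) (bP (bit m 5))
    (crn (bit m 7) (bit m 0) (bit m 1) (bit m 2) (bit m 3)))

/-- The vector of a fan with three vertices. -/
def tgK (m : ℕ) : T5 (List ℤ) :=
  finP [1] (aP (bit m 7)) (stpP (bP (bit m 5)) (bP (bit m 6)) (stpP (bP (bit m 3)) (bP (bit m 4))
    (stpP (bP (bit m 1)) (bP (bit m 2)) (iniP (bit m 0)))))

/-- Hard or forced, as a type. -/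
def bT (b : Bool) : Fin 3 := if b then 2 else 1

/-- A fan with two vertices. -/
def tgT (m : ℕ) : Cd :=
  ⟨2, dig (m / 96), dig (m / 32), false, bT (bit m 0), bT (bit m 1), 0, 0, bT (bit m 2),
    bT (bit m 3), bT (bit m 4)⟩

/-- Check a list of certificates, starting from an index. -/
def chkL (g : ℕ → Ct → Bool) : ℕ → List Ct → Bool
  | _, [] => true
  | m, c :: l => g m c && chkL g (m + 1) l

theorem chkL_get {g : ℕ → Ct → Bool} {l : List Ct} {m : ℕ} (h : chkL g m l = true) {i : ℕ}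
    (h1 : m ≤ i) (h2 : i < m + l.length) : ∃ c, g i c = true := by
  induction l generalizing m with
  | nil => simp at h2; omega
  | cons c l ih =>
    simp only [chkL, Bool.and_eq_true] at h
    rcases h1.eq_or_lt with e | e
    · exact ⟨c, e ▸ h.1⟩
    · exact ih h.2 e (by simp only [List.length_cons] at h2; omega)

/-- The check for corners. -/
def ckB (m : ℕ) (c : Ct) : Bool := chk false 7 6 0 (tgB m) c

/-- The check for fans with three vertices. -/
def ckK (m : ℕ) (c : Ct) : Bool := chk false 7 6 0 (tgK m) c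

/-- The check for fans with two vertices. -/
def ckT (m : ℕ) (c : Ct) : Bool :=
  chk (decide (m < 32)) (cnt (tgT m)) (cnt (tgT m)) (wgt (tgT m)) (cvP (tgT m)) c

end Pool.Agent.Lib.MP_efe3d7_co.H.Fn
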