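import Pool.Agent.Lib.MP_efe3d7_co.H.FanD

/-! Certificates for fans. -/

set_option autoImplicit false

namespace Pool.Agent.Lib.MP_efe3d7_co.H.Fn

/-- Certificates. -/
def dT96 : List Ct :=
  [([5, 6], [(85619, [1, 2]), (85625, [4, 4])]),
   ([5, 6], [(85700, [1, 2]), (85706, [4, 4])]),
   ([5, 6], [(85862, [1, 2]), (85868, [4, 4])]),
   ([5, 6], [(85943, [1, 2]), (85949, [4, 4])]),
   ([5, 6], [(92180, [1, 2]), (92186, [4, 4])]),
   ([5, 6], [(92261, [1, 2]), (92267, [4, 4])]),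
   ([5, 6], [(92423, [1, 2]), (92429, [4, 4])]),
   ([5, 6], [(92504, [1, 2]), (92510, [4, 4])]),
   ([5, 6], [(105302, [1, 2]), (105308, [4, 4])]),
   ([5, 6], [(105383, [1, 2]), (105389, [4, 4])]),
   ([5, 6], [(105545, [1, 2]), (105551, [4, 4])]),
   ([5, 6], [(105626, [1, 2]), (105632, [4, 4])]),
   ([5, 6], [(111863, [1, 2]), (111869, [4, 4])]),
   ([5, 6], [(111944, [1, 2]), (111950, [4, 4])]),
   ([5, 6], [(112106, [1, 2]), (112112, [4, 4])]),
   ([5, 6], [(112187, [1, 2]), (112193, [4, 4])])]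

theorem okT96 : chkL ckT 96 dT96 = true := by decide +kernel

/-- Certificates. -/
def dT112 : List Ct :=
  [([5, 6], [(144668, [1, 2]), (144674, [4, 4])]),
   ([5, 6], [(144749, [1, 2]), (144755, [4, 4])]),
   ([5, 6], [(144911, [1, 2]), (144917, [4, 4])]),
   ([5, 6], [(144992, [1, 2]), (144998, [4, 4])]),
   ([5, 6], [(151229, [1, 2]), (151235, [4, 4])]),
   ([5, 6], [(151310, [1, 2]), (151316, [4, 4])]),
   ([5, 6], [(151472, [1, 2]), (151478, [4, 4])]),
   ([5, 6], [(151553, [1, 2]), (151559, [4, 4])]),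
   ([5, 6], [(164351, [1, 2]), (164357, [4, 4])]),
   ([5, 6], [(164432, [1, 2]), (164438, [4, 4])]),
   ([5, 6], [(164594, [1, 2]), (164600, [4, 4])]),
   ([5, 6], [(164675, [1, 2]), (164681, [4, 4])]),
   ([5, 6], [(170912, [1, 2]), (170918, [4, 4])]),
   ([5, 6], [(170993, [1, 2]), (170999, [4, 4])]),
   ([5, 6], [(171155, [1, 2]), (171161, [4, 4])]),
   ([5, 6], [(171236, [1, 2]), (171242, [4, 4])])]

theorem okT112 : chkL ckT 112 dT112 = true := by decide +kernel

/-- Certificates. -/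
def dT128 : List Ct :=
  [([5, 6], [(85628, [1, 2]), (85634, [4, 4])]),
   ([5, 6], [(85709, [1, 2]), (85715, [4, 4])]),
   ([5, 6], [(85871, [1, 2]), (85877, [4, 4])]),
   ([5, 6], [(85952, [1, 2]), (85958, [4, 4])]),
   ([5, 6], [(92189, [1, 2]), (92195, [4, 4])]),
   ([5, 6], [(92270, [1, 2]), (92276, [4, 4])]),
   ([5, 6], [(92432, [1, 2]), (92438, [4, 4])]),
   ([5, 6], [(92513, [1, 2]), (92519, [4, 4])]),
   ([5, 6], [(105311, [1, 2]), (105317, [4, 4])]),
   ([5, 6], [(105392, [1, 2]), (105398, [4, 4])]),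
   ([5, 6], [(105554, [1, 2]), (105560, [4, 4])]),
   ([5, 6], [(105635, [1, 2]), (105641, [4, 4])]),
   ([5, 6], [(111872, [1, 2]), (111878, [4, 4])]),
   ([5, 6], [(111953, [1, 2]), (111959, [4, 4])]),
   ([5, 6], [(112115, [1, 2]), (112121, [4, 4])]),
   ([5, 6], [(112196, [1, 2]), (112202, [4, 4])])]

theorem okT128 : chkL ckT 128 dT128 = true := by decide +kernel

/-- Certificates. -/
def dT144 : List Ct :=
  [([5, 6], [(144677, [1, 2]), (144683, [4, 4])]),
   ([5, 6], [(144758, [1, 2]), (144764, [4, 4])]),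
   ([5, 6], [(144920, [1, 2]), (144926, [4, 4])]),
   ([5, 6], [(145001, [1, 2]), (145007, [4, 4])]),
   ([5, 6], [(151238, [1, 2]), (151244, [4, 4])]),
   ([5, 6], [(151319, [1, 2]), (151325, [4, 4])]),
   ([5, 6], [(151481, [1, 2]), (151487, [4, 4])]),
   ([5, 6], [(151562, [1, 2]), (151568, [4, 4])]),
   ([5, 6], [(164360, [1, 2]), (164366, [4, 4])]),
   ([5, 6], [(164441, [1, 2]), (164447, [4, 4])]),
   ([5, 6], [(164603, [1, 2]), (164609, [4, 4])]),
   ([5, 6], [(164684, [1, 2]), (164690, [4, 4])]),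
   ([5, 6], [(170921, [1, 2]), (170927, [4, 4])]),
   ([5, 6], [(171002, [1, 2]), (171008, [4, 4])]),
   ([5, 6], [(171164, [1, 2]), (171170, [4, 4])]),
   ([5, 6], [(171245, [1, 2]), (171251, [4, 4])])]

theorem okT144 : chkL ckT 144 dT144 = true := by decide +kernel

/-- Certificates. -/
def dT160 : List Ct :=
  [([5, 6], [(85637, [1, 2]), (85643, [4, 4])]),
   ([5, 6], [(85718, [1, 2]), (85724, [4, 4])]),
   ([5, 6], [(85880, [1, 2]), (85886, [4, 4])]),
   ([5, 6], [(85961, [1, 2]), (85967, [4, 4])]),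
   ([5, 6], [(92198, [1, 2]), (92204, [4, 4])]),
   ([5, 6], [(92279, [1, 2]), (92285, [4, 4])]),
   ([5, 6], [(92441, [1, 2]), (92447, [4, 4])]),
   ([5, 6], [(92522, [1, 2]), (92528, [4, 4])]),
   ([5, 6], [(105320, [1, 2]), (105326, [4, 4])]),
   ([5, 6], [(105401, [1, 2]), (105407, [4, 4])]),
   ([5, 6], [(105563, [1, 2]), (105569, [4, 4])]),
   ([5, 6], [(105644, [1, 2]), (105650, [4, 4])]),
   ([5, 6], [(111881, [1, 2]), (111887, [4, 4])]),
   ([5, 6], [(111962, [1, 2]), (111968, [4, 4])]),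
   ([5, 6], [(112124, [1, 2]), (112130, [4, 4])]),
   ([5, 6], [(112205, [1, 2]), (112211, [4, 4])])]

theorem okT160 : chkL ckT 160 dT160 = true := by decide +kernel

/-- Certificates. -/
def dT176 : List Ct :=
  [([5, 6], [(144686, [1, 2]), (144692, [4, 4])]),
   ([5, 6], [(144767, [1, 2]), (144773, [4, 4])]),
   ([5, 6], [(144929, [1, 2]), (144935, [4, 4])]),
   ([5, 6], [(145010, [1, 2]), (145016, [4, 4])]),
   ([5, 6], [(151247, [1, 2]), (151253, [4, 4])]),
   ([5, 6], [(151328, [1, 2]), (151334, [4, 4])]),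
   ([5, 6], [(151490, [1, 2]), (151496, [4, 4])]),
   ([5, 6], [(151571, [1, 2]), (151577, [4, 4])]),
   ([5, 6], [(164369, [1, 2]), (164375, [4, 4])]),
   ([5, 6], [(164450, [1, 2]), (164456, [4, 4])]),
   ([5, 6], [(164612, [1, 2]), (164618, [4, 4])]),
   ([5, 6], [(164693, [1, 2]), (164699, [4, 4])]),
   ([5, 6], [(170930, [1, 2]), (170936, [4, 4])]),
   ([5, 6], [(171011, [1, 2]), (171017, [4, 4])]),
   ([5, 6], [(171173, [1, 2]), (171179, [4, 4])]),
   ([5, 6], [(171254, [1, 2]), (171260, [4, 4])])]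

theorem okT176 : chkL ckT 176 dT176 = true := by decide +kernel

theorem allT1 {i : ℕ} (h1 : 96 ≤ i) (h2 : i < 192) : ∃ c, ckT i c = true := by
  by_cases k0 : i < 112
  · exact chkL_get okT96 (by omega) k0
  by_cases k1 : i < 128
  · exact chkL_get okT112 (by omega) k1
  by_cases k2 : i < 144
  · exact chkL_get okT128 (by omega) k2
  by_cases k3 : i < 160
  · exact chkL_get okT144 (by omega) k3
  by_cases k4 : i < 176
  · exact chkL_get okT160 (by omega) k4
  exact chkL_get okT176 (by omega) h2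

end Pool.Agent.Lib.MP_efe3d7_co.H.Fn
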