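import Pool.Agent.Lib.MP_efe3d7_co.H.FanR
import Pool.Agent.Lib.MP_efe3d7_co.H.FanT0
import Pool.Agent.Lib.MP_efe3d7_co.H.FanT1
import Pool.Agent.Lib.MP_efe3d7_co.H.FanT2
import Pool.Agent.Lib.MP_efe3d7_co.H.FanC1
import Pool.Agent.Lib.MP_efe3d7_co.H.FanC2
import Pool.Agent.Lib.MP_efe3d7_co.H.FanC3
import Pool.Agent.Lib.MP_efe3d7_co.H.Fan1
import Pool.Agent.Lib.MP_efe3d7_co.H.Fan2

/-! Graphs in which every minimal thick fragment is a pair of adjacent cubic vertices. -/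

set_option autoImplicit false

open Finset

namespace Pool.Agent.Lib.MP_efe3d7_co.H

namespace Fn

variable {α : Type} [DecidableEq α] {V : Finset α} {τ : Sym2 α → Fin 3}

theorem allT {i : ℕ} (h : i < 288) : ∃ c, ckT i c = true := by
  by_cases k0 : i < 96
  · exact allT0 (by omega) k0
  by_cases k1 : i < 192
  · exact allT1 (by omega) k1
  exact allT2 (by omega) h

theorem wt_bw (x : ℝ) {t : Fin 3} (h : t ≠ 0) : wt x t = bw x (decide (t = 2)) := by
  revert h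
  fin_cases t <;> simp [wt, bw]

theorem hz_le (t : Fin 3) : hz t ≤ 1 := by
  unfold hz; split_ifs <;> omega

theorem wgt_eq (k : Cd) : (wgt k : ℝ) = 9 ^ 9 * 8 ^ 2 * ((9 / 8) ^ k.n.val / (9 / 8) ^ tot hz k) := by
  have h1 : tot hz k ≤ 9 := by
    have := hz_le k.ca; have := hz_le k.ab; have := hz_le k.pc; have := hz_le k.pa
    have := hz_le k.pb; have := hz_le k.qc; have := hz_le k.qa; have := hz_le k.qb
    have := hz_le k.e
    unfold tot; split_ifs <;> omega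
  have h2 : k.n.val ≤ 2 := by omega
  unfold wgt
  push_cast
  rw [pow_sub₀ _ (by norm_num) (by omega), pow_sub₀ _ (by norm_num) (by omega), pow_add, pow_add,
    div_pow, div_pow]
  field_simp

theorem ne_congr {τ' : Sym2 α → Fin 3} (h : ∀ u ∈ V, ∀ w ∈ V, u ≠ w → τ' s(u, w) = τ s(u, w)) :
    ne V τ' = ne V τ ∧ nh V τ' = nh V τ := by
  have k : ∀ e ∈ pairs V, τ' e = τ e := by
    intro e he
    induction e using Sym2.ind with
    | h u w => obtain ⟨a, b, c⟩ := mk_mem_pairs.1 he; exact h u a w b c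
  exact ⟨congrArg card (filter_congr fun e he => by rw [k e he]),
    congrArg card (filter_congr fun e he => by rw [k e he])⟩

variable [Fintype α] {x : ℝ}

theorem wheel_red (h1 : 1 / 4 ≤ x) (h2 : x ≤ 1 / 2) (hc : Con3 V τ) (h : Wheel V τ) :
    Red x V τ := by
  obtain ⟨a, v, k, f, hU⟩ := h
  have hx : 0 < x := by linarith
  have k2 := f.k2
  have n1 : v 0 ≠ a := f.na 0 (by omega)
  have n2 : v 0 ≠ v (k + 1) := fun e => by have := f.inj _ _ (by omega) le_rfl e; omega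
  have n3 : a ≠ v (k + 1) := (f.na _ le_rfl).symm
  have h4 : 4 ≤ V.card := f.hub.trans (card_le_card (nb_sub a))
  have en : ∀ i j l, (i = 0 ∧ j = k + 1 ∧ l = 1) ∨ (i = k + 1 ∧ j = 0 ∧ l = k) →
      a ∈ nb V τ (v i) ∧ v j ∈ nb V τ (v i) := by
    intro i j l hi
    have hiV := f.hv i (by omega)
    have sub : nb V τ (v i) ⊆ {a, v j, v l} := by
      intro w hw
      by_cases hF : w ∈ fanQ v k
      · obtain ⟨m, m1, rfl⟩ := mem_fanQ.1 hF
        have := nb_symm hiV hw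
        rw [f.nbr m m1] at this
        simp only [mem_insert, mem_singleton] at this ⊢
        rcases this with e | e | e
        · exact absurd e (f.na i (by omega))
        · have := f.inj _ _ (by omega) (by omega) e
          exact Or.inr (Or.inr (congrArg v (by omega)))
        · have := f.inj _ _ (by omega) (by omega) e
          exact Or.inr (Or.inr (congrArg v (by omega)))
      · have e : w ∈ V \ fanQ v k := mem_sdiff.2 ⟨nb_sub _ hw, hF⟩
        have ne := (mem_nb.1 hw).2.1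
        rw [hU] at e
        simp only [mem_insert, mem_singleton] at e ⊢
        rcases hi with ⟨rfl, rfl, rfl⟩ | ⟨rfl, rfl, rfl⟩ <;> tauto
    have e := eq_of_subset_of_card_le sub (card_le_three.trans (hc.dg3 h4 hiV))
    rw [e]
    simp
  have e0 := en 0 (k + 1) 1 (Or.inl ⟨rfl, rfl, rfl⟩)
  have e1 := en (k + 1) 0 k (Or.inr ⟨rfl, rfl, rfl⟩)
  have t1 : τ s(a, v (k + 1)) ≠ 0 := by rw [Sym2.eq_swap]; exact (mem_nb.1 e1.1).2.2
  have hf := form_three hx (fun e => wt x (τ e)) n1 n2 n3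
  rw [← hU] at hf
  obtain ⟨r₀, s, r, e⟩ := fan_val hx f hf
  rw [wt_bw x t1, wt_bw x (mem_nb.1 e0.1).2.2, wt_bw x (mem_nb.1 e0.2).2.2] at e
  have p := wheel_pos h1 h2 r₀ s r k2 (decide (τ s(a, v (k + 1)) = 2))
    (decide (τ s(v 0, a) = 2)) (decide (τ s(v 0, v (k + 1)) = 2))
  have : 0 < x * FF x V τ := by
    rw [e]
    simp only [pr] at p ⊢
    nlinarith [mul_pos (show 0 < 1 + x by linarith) p]
  intro _ μ hμ _
  exact (mul_nonpos_of_nonpos_of_nonneg hμ (ww_pos V τ).le).trans_lt (pos_of_mul_pos_left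
    (by rwa [mul_comm] at this) hx.le)

theorem mfan_red (h1 : 1 / 4 ≤ x) (h2 : x ≤ 1 / 2) (hc : Con3 V τ) {a : α} {v : ℕ → α} {k : ℕ}
    (h : MFan V τ a v k) (pa : Con3 (V \ fanQ v k) (pth τ a (v (k + 1)) (v 0))) : Red x V τ := by
  have hx : 0 < x := by linarith
  have af := h.afan
  have g := pos_of_afan af
  obtain ⟨β₀, β₁, β₂, β₃, β₄, hf⟩ := exists_form hx (fun e => wt x (τ e)) g.hc g.ha g.hb g.ca g.cb g.ab
  intro sm μ hμ eq
  rcases h.1.k2.eq_or_lt with rfl | k3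
  · obtain ⟨m, m1, m2, m3, m4⟩ := fan_two h.1
    obtain ⟨c, hk⟩ := allT m1
    have hta : decide (m < 32) = true → 2 ≤ (nb V τ a \ (fanQ v 2 ∪ {v 3, v 0})).card :=
      fun e => m4 (of_decide_eq_true e)
    obtain ⟨c1, c2⟩ := (col_ne g τ (tgT m)).2 rfl
    have c3 := col_card g (tgT m)
    have c4 := col_val hx g hf (tgT m)
    rw [m2] at c1 c2 c3 c4
    rw [(ne_congr m3).1] at c1
    rw [(ne_congr m3).2] at c2
    have c5 : FF x V (ov τ (v 0) a (v 3) (v 1) (v 2) (tgT m)) = FF x V τ :=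
      ff_congr fun u hu w hw huw => by rw [m3 u hu w hw huw]
    set C : ℝ := (9 / 8) ^ (V \ fanQ v 2).card /
      (9 / 8) ^ nh (V \ fanQ v 2) (ov τ (v 0) a (v 3) (v 1) (v 2) zc) / (9 ^ 9 * 8 ^ 2) with hC
    have C0 : 0 ≤ C := by positivity
    have wk : ∀ k : Cd, C * wgt k = (9 / 8) ^ ((V \ fanQ v 2).card + k.n.val) /
        (9 / 8) ^ (nh (V \ fanQ v 2) (ov τ (v 0) a (v 3) (v 1) (v 2) zc) + tot hz k) := by
      intro k
      rw [wgt_eq, hC, pow_add, pow_add]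
      field_simp
    have := chk_sound (μ := μ * C) h1 h2 (mul_nonpos_of_nonpos_of_nonneg hμ C0)
      (fun k a b => by
        rw [← col_val hx g hf k]
        exact sm _ _ (col_con hc af pa a hta) (by have := (col_ne g τ k).1; omega))
      (fun k a b e => by
        obtain ⟨d1, d2⟩ := (col_ne g τ k).2 e
        have := eq _ _ (col_con hc af pa a hta) (by omega)
        rwa [col_val hx g hf k, ww, col_card g k, d2, ← wk, ← mul_assoc] at this) hk
    rwa [← c4, c5, mul_assoc, wk, ← c2, ← c3] at this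
  · obtain ⟨r₀, s, r, e⟩ := fan_val hx h.1 hf
    have h7 := fan_seven h.1 k3 _ _ g
    have p := long_pos h1 h2 (fun k a b => by
      rw [← col_val hx g hf k]
      exact sm _ _ (col_con hc af pa a (by simp)) (by have := (col_ne g τ k).1; omega))
      r₀ s r k3 (τ s(a, v (k + 1))) (τ s(v 0, a))
    rw [← e] at p
    exact (mul_nonpos_of_nonpos_of_nonneg hμ (ww_pos V τ).le).trans_lt (pos_of_mul_pos_left
      (by rwa [mul_comm] at p) hx.le)

end Fn

variable {α : Type} [DecidableEq α] [Fintype α] {V : Finset α} {τ : Sym2 α → Fin 3} {x : ℝ}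

theorem fans (h1 : 1 / 4 ≤ x) (h2 : x ≤ 1 / 2) (hc : Con3 V τ)
    (H : ∀ Q T, MinThick V τ Q T →
      ∃ u v, Q = {u, v} ∧ τ s(u, v) ≠ 0 ∧ dg V τ u = 3 ∧ dg V τ v = 3)
    (ex : ∃ Q T, Thick V τ Q T) : Red x V τ := by
  by_cases hw : Wheel V τ
  · exact Fn.wheel_red h1 h2 hc hw
  have key : ∀ Q T, Thick V τ Q T → ∃ F a b c wb wc, (∃ v k, MFan V τ a v k ∧ F = fanQ v k ∧
      b = v (k + 1) ∧ c = v 0 ∧ wb = v k ∧ wc = v 1) ∧ ∃ r ∈ F, ∃ s ∈ F, r ≠ s ∧ r ∈ Q ∧ s ∈ Q := by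
    intro Q T h
    obtain ⟨Q', T', hm, hs⟩ := exists_min h
    obtain ⟨r, s, rfl, e1, e2, e3⟩ := H Q' T' hm
    obtain ⟨a, v, f, e⟩ := fan_of_pair hc hm.1 e1 e2 e3
    obtain ⟨v', k', f', e'⟩ := (f.ext hc).resolve_left hw
    rw [e] at e'
    refine ⟨_, a, _, _, _, _, ⟨v', k', f', rfl, rfl, rfl, rfl, rfl⟩, r, e' (by simp), s,
      e' (by simp), ?_, hs (by simp), hs (by simp)⟩
    rintro rfl
    have := hm.1.cQ
    simp at this
  obtain ⟨_, a, _, _, _, _, ⟨v, k, f, rfl, rfl, rfl, rfl, rfl⟩, pa⟩ := fan_cross hc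
    (fun F a b c wb wc => ∃ v k, MFan V τ a v k ∧ F = fanQ v k ∧ b = v (k + 1) ∧ c = v 0 ∧
      wb = v k ∧ wc = v 1) (by
      rintro _ a _ _ _ _ ⟨v, k, f, rfl, rfl, rfl, rfl, rfl⟩
      refine ⟨f.afan, fun i => v (k + 1 - i), k, ⟨f.1.rev.1, by simpa using f.2.2,
        by simpa using f.2.1⟩, f.1.rev.2.symm, by simp, by simp, by simp, by simp⟩) key (by
      obtain ⟨Q, T, h⟩ := ex
      obtain ⟨F, a, b, c, wb, wc, k, _⟩ := key Q T h
      exact ⟨F, a, b, c, wb, wc, k⟩)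
  exact Fn.mfan_red h1 h2 hc f pa

end Pool.Agent.Lib.MP_efe3d7_co.H
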