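import Pool.Agent.Lib.MP_efe3d7_co.H.G0

/-! Integer polynomials as lists, positivity on the interval from one quarter to one half. -/

set_option autoImplicit false

namespace Pool.Agent.Lib.MP_efe3d7_co.H.Fn

/-- The value of a polynomial. -/
noncomputable def pev (x : ℝ) : List ℤ → ℝ
  | [] => 0
  | c :: l => c + x * pev x l

/-- Sum. -/
def padd : List ℤ → List ℤ → List ℤ
  | [], m => m
  | a :: l, [] => a :: l
  | a :: l, b :: m => (a + b) :: padd l m

/-- Scalar multiple. -/
def psm (c : ℤ) : List ℤ → List ℤ
  | [] => []
  | a :: l => (c * a) :: psm c l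

/-- Product. -/
def pmul : List ℤ → List ℤ → List ℤ
  | [], _ => []
  | a :: l, m => padd (psm a m) (0 :: pmul l m)

/-- Difference. -/
def psub (l m : List ℤ) : List ℤ := padd l (psm (-1) m)

/-- Test for zero. -/
def pzero : List ℤ → Bool
  | [] => true
  | a :: l => decide (a = 0) && pzero l

/-- All entries are nonnegative. -/
def nng : List ℤ → Bool
  | [] => true
  | a :: l => decide (0 ≤ a) && nng l

variable {x : ℝ}

@[simp] theorem pev_nil : pev x [] = 0 := rfl

@[simp] theorem pev_cons (c : ℤ) (l : List ℤ) : pev x (c :: l) = c + x * pev x l := rfl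

@[simp] theorem pev_add (l m : List ℤ) : pev x (padd l m) = pev x l + pev x m := by
  induction l generalizing m with
  | nil => simp [padd]
  | cons a l ih =>
    cases m with
    | nil => simp [padd]
    | cons b m => simp only [padd, pev_cons, ih]; push_cast; ring

@[simp] theorem pev_sm (c : ℤ) (l : List ℤ) : pev x (psm c l) = c * pev x l := by
  induction l with
  | nil => simp [psm]
  | cons a l ih => simp only [psm, pev_cons, ih]; push_cast; ring

@[simp] theorem pev_mul (l m : List ℤ) : pev x (pmul l m) = pev x l * pev x m := by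
  induction l with
  | nil => simp [pmul]
  | cons a l ih => simp only [pmul, pev_add, pev_sm, pev_cons, ih]; push_cast; ring

@[simp] theorem pev_sub (l m : List ℤ) : pev x (psub l m) = pev x l - pev x m := by
  simp only [psub, pev_add, pev_sm]; push_cast; ring

theorem pev_zero {l : List ℤ} (h : pzero l = true) : pev x l = 0 := by
  induction l with
  | nil => rfl
  | cons a l ih =>
    simp only [pzero, Bool.and_eq_true, decide_eq_true_eq] at h
    simp [h.1, ih h.2]

/-- The value of a list of coefficients in the basis of powers of `4x - 1` and `2 - 4x`. -/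
noncomputable def bR (x : ℝ) : List ℤ → ℝ
  | [] => 0
  | c :: l => c * (2 - 4 * x) ^ l.length + (4 * x - 1) * bR x l

/-- Change to the basis of monomials. -/
def toP : List ℤ → List ℤ × List ℤ
  | [] => ([], [1])
  | c :: l => (padd (psm c (toP l).2) (pmul [-1, 4] (toP l).1), pmul [2, -4] (toP l).2)

theorem pev_toP (l : List ℤ) :
    pev x (toP l).1 = bR x l ∧ pev x (toP l).2 = (2 - 4 * x) ^ l.length := by
  induction l with
  | nil => simp [toP, bR]
  | cons c l ih =>
    simp only [toP, pev_add, pev_sm, pev_mul, ih.1, ih.2, bR, pev_cons, pev_nil, List.length_cons]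
    push_cast
    constructor <;> ring

theorem bR_nonneg (h1 : 1 / 4 ≤ x) (h2 : x ≤ 1 / 2) {l : List ℤ} (h : nng l = true) :
    0 ≤ bR x l := by
  induction l with
  | nil => exact le_rfl
  | cons c l ih =>
    simp only [nng, Bool.and_eq_true, decide_eq_true_eq] at h
    have : (0 : ℝ) ≤ c := by exact_mod_cast h.1
    exact add_nonneg (mul_nonneg this (pow_nonneg (by linarith) _))
      (mul_nonneg (by linarith) (ih h.2))

theorem bR_head (h1 : 1 / 4 ≤ x) (h2 : x < 1 / 2) {l : List ℤ} (h : nng l = true)
    (h0 : 0 < l.headD 0) : 0 < bR x l := by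
  cases l with
  | nil => simp at h0
  | cons c l =>
    simp only [nng, Bool.and_eq_true, decide_eq_true_eq] at h
    have : (0 : ℝ) < c := by exact_mod_cast h0
    exact add_pos_of_pos_of_nonneg (mul_pos this (pow_pos (by linarith) _))
      (mul_nonneg (by linarith) (bR_nonneg h1 h2.le h.2))

theorem bR_half (l : List ℤ) : bR (1 / 2) l = l.getLastD 0 := by
  induction l with
  | nil => simp [bR]
  | cons c l ih =>
    cases l with
    | nil => simp [bR]
    | cons d l =>
      rw [bR, ih]
      simp only [List.length_cons, List.getLastD_cons]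
      norm_num

/-- A test for positivity of a list of coefficients. -/
def posB (l : List ℤ) : Bool := nng l && decide (0 < l.headD 0) && decide (0 < l.getLastD 0)

theorem bR_pos (h1 : 1 / 4 ≤ x) (h2 : x ≤ 1 / 2) {l : List ℤ} (h : posB l = true) :
    0 < bR x l := by
  simp only [posB, Bool.and_eq_true, decide_eq_true_eq] at h
  rcases h2.lt_or_eq with k | k
  · exact bR_head h1 k h.1.1 h.1.2
  · rw [k, bR_half]; exact_mod_cast h.2

theorem len_psm (c : ℤ) (l : List ℤ) : (psm c l).length = l.length := by
  induction l with
  | nil => rfl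
  | cons a l ih => simp [psm, ih]

theorem len_padd (l m : List ℤ) (h : l.length ≤ m.length) : (padd l m).length = m.length := by
  induction l generalizing m with
  | nil => rfl
  | cons a l ih =>
    cases m with
    | nil => simp at h
    | cons b m => simp only [padd, List.length_cons] at h ⊢; rw [ih m (by omega)]

theorem bR_sm (c : ℤ) (l : List ℤ) : bR x (psm c l) = c * bR x l := by
  induction l with
  | nil => simp [psm, bR]
  | cons a l ih => simp only [psm, bR, ih, len_psm]; push_cast; ring

theorem bR_add (j : ℕ) (l m : List ℤ) (h : l.length + j = m.length) :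
    bR x (padd l m) = (2 - 4 * x) ^ j * bR x l + bR x m := by
  induction l generalizing m with
  | nil => simp [padd, bR]
  | cons a l ih =>
    cases m with
    | nil => simp at h
    | cons b m =>
      simp only [List.length_cons] at h
      simp only [padd, bR]
      rw [ih m (by omega), len_padd l m (by omega), ← show l.length + j = m.length by omega]
      push_cast; ring

/-- Multiplication by a linear form. -/
def mulPS (a b : ℤ) (l : List ℤ) : List ℤ := padd (psm a l) (0 :: psm b l)

theorem len_mulPS (a b : ℤ) (l : List ℤ) : (mulPS a b l).length = l.length + 1 := by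
  rw [mulPS, len_padd] <;> simp [len_psm]

theorem bR_mulPS (a b : ℤ) (l : List ℤ) :
    bR x (mulPS a b l) = (a * (2 - 4 * x) + b * (4 * x - 1)) * bR x l := by
  rw [mulPS, bR_add 1 _ _ (by simp [len_psm]), bR_sm, bR, bR_sm]
  push_cast; ring

/-- Change from the basis of monomials. -/
def hom : List ℤ → List ℤ × List ℤ
  | [] => ([], [1])
  | c :: p => (padd (psm c (hom p).2) (mulPS 1 2 (hom p).1), mulPS 4 4 (hom p).2)

theorem bR_hom (p : List ℤ) : (hom p).1.length = p.length ∧ (hom p).2.length = p.length + 1 ∧
    4 * bR x (hom p).1 = 4 ^ p.length * pev x p ∧ bR x (hom p).2 = 4 ^ p.length := by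
  induction p with
  | nil => simp [hom, bR]
  | cons c p ih =>
    obtain ⟨i1, i2, i3, i4⟩ := ih
    have e : (psm c (hom p).2).length + 0 = (mulPS 1 2 (hom p).1).length := by
      rw [len_psm, len_mulPS, i1, i2]
    refine ⟨?_, ?_, ?_, ?_⟩
    · rw [hom, len_padd _ _ (by omega), len_mulPS, i1, List.length_cons]
    · rw [hom, len_mulPS, i2, List.length_cons]
    · rw [hom, bR_add 0 _ _ e, bR_sm, bR_mulPS, i4, List.length_cons, pev_cons]
      push_cast
      linear_combination (4 * x) * i3
    · rw [hom, bR_mulPS, i4, List.length_cons]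
      push_cast; ring

/-- A test for nonnegativity of a polynomial. -/
def nonneg (p : List ℤ) : Bool := nng (hom p).1

/-- A test for positivity of a polynomial. -/
def posit (p : List ℤ) : Bool := posB (hom p).1

theorem pev_nonneg (h1 : 1 / 4 ≤ x) (h2 : x ≤ 1 / 2) {p : List ℤ} (h : nonneg p = true) :
    0 ≤ pev x p := by
  have a := bR_nonneg h1 h2 h
  have b := (bR_hom (x := x) p).2.2.1
  have : (0 : ℝ) < 4 ^ p.length := by positivity
  by_contra k
  nlinarith [mul_pos this (sub_pos.2 (not_le.1 k))]

theorem pev_pos (h1 : 1 / 4 ≤ x) (h2 : x ≤ 1 / 2) {p : List ℤ} (h : posit p = true) :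
    0 < pev x p := by
  have a := bR_pos h1 h2 h
  have b := (bR_hom (x := x) p).2.2.1
  have : (0 : ℝ) < 4 ^ p.length := by positivity
  by_contra k
  nlinarith [mul_nonneg this.le (sub_nonneg.2 (not_lt.1 k))]

end Pool.Agent.Lib.MP_efe3d7_co.H.Fn
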