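import Pool.Agent.Lib.MP_efe3d7_co.H.FanD

/-! Polynomial inequalities for boxes and wheels. -/

set_option autoImplicit false

namespace Pool.Agent.Lib.MP_efe3d7_co.H.Fn

/-- A coordinate lies in its interval. -/
def inI (m l t : List ℤ) : Bool :=
  nonneg (padd (pmul m t) (pmul [0, 1] l)) && nonneg (psub l (pmul m t))

/-- A state lies in a box. -/
def entOK (m n : List ℤ) (a : T5 (List ℤ)) : Bool :=
  posit a.a && inI m a.a a.b && inI m a.a a.c && inI n a.a a.d && inI n a.a a.e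

theorem ent2 : ∀ b0 b1 b2 b3 b4 : Bool, entOK [1, 1] [1, 2, 1]
    (stpP (bP b3) (bP b4) (stpP (bP b1) (bP b2) (iniP b0))) = true := by decide +kernel

theorem ent3 : ∀ b0 b1 b2 b3 b4 b5 b6 : Bool, entOK [1, 2, 1] [1, 3, 3, 1]
    (stpP (bP b5) (bP b6) (stpP (bP b3) (bP b4) (stpP (bP b1) (bP b2) (iniP b0)))) = true := by
  decide +kernel

/-- The value for a wheel. -/
def whP (f : T5 (List ℤ)) (w : List ℤ) : List ℤ :=
  psub (psub (psub (psub (pmul [0, 1, -1] f.a) (pmul [0, 1] f.b)) (pmul (pmul w [0, 1]) f.c))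
    (pmul [0, 1] f.d)) (pmul w f.e)

theorem wh2 : ∀ b0 b1 b2 b3 b4 t u w : Bool, posit (whP (finP (bP t) (bP u)
    (stpP (bP b3) (bP b4) (stpP (bP b1) (bP b2) (iniP b0)))) (bP w)) = true := by decide +kernel

theorem wh3 : ∀ v1 v2 v3 v4 s r t u w : Bool, posit (whP (finP (bP t) (bP u)
    (stpP (bP s) (bP r) (crn true v1 v2 v3 v4))) (bP w)) = true := by decide +kernel

/-- A number with given binary digits. -/
def enc (b0 b1 b2 b3 b4 b5 b6 b7 : Bool) : ℕ :=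
  b0.toNat + 2 * b1.toNat + 4 * b2.toNat + 8 * b3.toNat + 16 * b4.toNat + 32 * b5.toNat +
    64 * b6.toNat + 128 * b7.toNat

theorem enc_bit : ∀ b0 b1 b2 b3 b4 b5 b6 b7 : Bool, enc b0 b1 b2 b3 b4 b5 b6 b7 < 256 ∧
    bit (enc b0 b1 b2 b3 b4 b5 b6 b7) 0 = b0 ∧ bit (enc b0 b1 b2 b3 b4 b5 b6 b7) 1 = b1 ∧
    bit (enc b0 b1 b2 b3 b4 b5 b6 b7) 2 = b2 ∧ bit (enc b0 b1 b2 b3 b4 b5 b6 b7) 3 = b3 ∧
    bit (enc b0 b1 b2 b3 b4 b5 b6 b7) 4 = b4 ∧ bit (enc b0 b1 b2 b3 b4 b5 b6 b7) 5 = b5 ∧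
    bit (enc b0 b1 b2 b3 b4 b5 b6 b7) 6 = b6 ∧ bit (enc b0 b1 b2 b3 b4 b5 b6 b7) 7 = b7 := by
  decide +kernel

end Pool.Agent.Lib.MP_efe3d7_co.H.Fn
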