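import Pool.Agent.Lib.MP_efe3d7_co.H.FanV
import Pool.Agent.Lib.MP_efe3d7_co.H.FanW
import Pool.Agent.Lib.MP_efe3d7_co.H.FanB0
import Pool.Agent.Lib.MP_efe3d7_co.H.FanB1
import Pool.Agent.Lib.MP_efe3d7_co.H.FanB2
import Pool.Agent.Lib.MP_efe3d7_co.H.FanB3
import Pool.Agent.Lib.MP_efe3d7_co.H.FanK0
import Pool.Agent.Lib.MP_efe3d7_co.H.FanK1
import Pool.Agent.Lib.MP_efe3d7_co.H.FanK2
import Pool.Agent.Lib.MP_efe3d7_co.H.FanK3

/-! Long fans and wheels: the invariant boxes. -/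

set_option autoImplicit false

namespace Pool.Agent.Lib.MP_efe3d7_co.H.Fn

variable {x : ℝ}

theorem pev_bP (b : Bool) : pev x (bP b) = bw x b := by
  cases b <;> simp [bP, bw]

theorem ev_stp (s r : Bool) (a : T5 (List ℤ)) :
    ev5 x (stpP (bP s) (bP r) a) = stpR x (bw x s) (bw x r) (ev5 x a) := by
  simp only [ev5, stpP, rowP, stpR, pev_add, pev_mul, pev_sub, pev_bP, pev_cons, pev_nil]
  congr 1 <;> (push_cast; ring)

theorem ev_fin (t s : List ℤ) (a : T5 (List ℤ)) :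
    ev5 x (finP t s a) = finR x (pev x t) (pev x s) (ev5 x a) := by
  simp only [ev5, finP, finR, pev_mul, pev_sub, pev_cons, pev_nil]
  congr 1 <;> (push_cast; ring)

theorem ev_ini (r₀ : Bool) (s r : ℕ → Bool) : ev5 x (iniP r₀) = sta x r₀ s r 0 := by
  cases r₀ <;> simp [ev5, iniP, sta, bP, bw] <;> ring

/-- Two coordinates lie in an interval. -/
def InB (x m l t u : ℝ) : Prop := -x * l ≤ m * t ∧ m * t ≤ l ∧ -x * l ≤ m * u ∧ m * u ≤ l

theorem InB.step (h1 : 1 / 4 ≤ x) (h2 : x ≤ 1 / 2) {m l t u : ℝ} (hl : 0 < l) (h : InB x m l t u)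
    (s r : Bool) : InB x m ((1 - bw x r) * l) (u - bw x r * bw x s * t)
      ((1 - x - bw x r) * u + x * bw x s * t) := by
  obtain ⟨a, b, c, d⟩ := h
  have x0 : 0 ≤ x := by linarith
  have x1 : 0 ≤ 1 - x := by linarith
  have xx : 0 ≤ x * x := mul_nonneg x0 x0
  have xl : 0 ≤ x * l := mul_nonneg x0 hl.le
  have e1 := mul_le_mul_of_nonneg_left a xx
  have e2 := mul_le_mul_of_nonneg_left b xx
  have e3 := mul_le_mul_of_nonneg_left c x1
  have e4 := mul_le_mul_of_nonneg_left d x1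
  have e5 : x * x * (x * l) ≤ x * l := by nlinarith
  have e6 : 0 ≤ x * (x * l) := mul_nonneg x0 xl
  cases s <;> cases r <;> simp only [InB, bw, if_true, Bool.false_eq_true, if_false] <;>
    refine ⟨?_, ?_, ?_, ?_⟩ <;> nlinarith

/-- A state lies in a box. -/
def Box (x m n : ℝ) (a : T5 ℝ) : Prop := 0 < a.a ∧ InB x m a.a a.b a.c ∧ InB x n a.a a.d a.e

theorem Box.step (h1 : 1 / 4 ≤ x) (h2 : x ≤ 1 / 2) {m n : ℝ} {a : T5 ℝ} (h : Box x m n a)
    (s r : Bool) : Box x m n (stpR x (bw x s) (bw x r) a) := by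
  refine ⟨mul_pos ?_ h.1, h.2.1.step h1 h2 h.1 s r, h.2.2.step h1 h2 h.1 s r⟩
  cases r <;> simp only [bw, if_true, Bool.false_eq_true, if_false] <;> linarith

theorem box_of_ent (h1 : 1 / 4 ≤ x) (h2 : x ≤ 1 / 2) {m n : List ℤ} {a : T5 (List ℤ)}
    (h : entOK m n a = true) : Box x (pev x m) (pev x n) (ev5 x a) := by
  have k : ∀ m l t : List ℤ, inI m l t = true →
      -x * pev x l ≤ pev x m * pev x t ∧ pev x m * pev x t ≤ pev x l := by
    intro m l t h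
    simp only [inI, Bool.and_eq_true] at h
    have a := pev_nonneg h1 h2 h.1
    have b := pev_nonneg h1 h2 h.2
    simp only [pev_add, pev_mul, pev_sub, pev_cons, pev_nil] at a b
    push_cast at a
    constructor <;> linarith
  simp only [entOK, Bool.and_eq_true] at h
  obtain ⟨⟨⟨⟨a0, a1⟩, a2⟩, a3⟩, a4⟩ := h
  exact ⟨pev_pos h1 h2 a0, ⟨(k _ _ _ a1).1, (k _ _ _ a1).2, k _ _ _ a2⟩,
    (k _ _ _ a3).1, (k _ _ _ a3).2, k _ _ _ a4⟩

theorem box2 (h1 : 1 / 4 ≤ x) (h2 : x ≤ 1 / 2) (r₀ : Bool) (s r : ℕ → Bool) (j : ℕ) :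
    Box x (pev x [1, 1]) (pev x [1, 2, 1]) (sta x r₀ s r (j + 2)) := by
  induction j with
  | zero =>
    have := box_of_ent h1 h2 (ent2 r₀ (s 0) (r 0) (s 1) (r 1))
    rwa [ev_stp, ev_stp, ev_ini r₀ s r] at this
  | succ j ih => exact ih.step h1 h2 _ _

theorem box3 (h1 : 1 / 4 ≤ x) (h2 : x ≤ 1 / 2) (r₀ : Bool) (s r : ℕ → Bool) (j : ℕ) :
    Box x (pev x [1, 2, 1]) (pev x [1, 3, 3, 1]) (sta x r₀ s r (j + 3)) := by
  induction j with
  | zero =>
    have := box_of_ent h1 h2 (ent3 r₀ (s 0) (r 0) (s 1) (r 1) (s 2) (r 2))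
    rwa [ev_stp, ev_stp, ev_stp, ev_ini r₀ s r] at this
  | succ j ih => exact ih.step h1 h2 _ _

theorem pick {m l t : ℝ} (c : ℝ) {A : List ℤ} (hA : 0 ≤ pev x A) (h1 : -x * l ≤ m * t)
    (h2 : m * t ≤ l) : ∃ v, l * (c * pev x (enP v A)) ≤ m * pev x A * (c * t) := by
  rcases le_total 0 c with k | k
  · refine ⟨false, ?_⟩
    simp only [enP, Bool.false_eq_true, if_false, pev_mul, pev_cons, pev_nil]
    push_cast
    nlinarith [mul_le_mul_of_nonneg_left h1 (mul_nonneg k hA)]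
  · refine ⟨true, ?_⟩
    simp only [enP, if_true]
    nlinarith [mul_le_mul_of_nonneg_left h2 (mul_nonneg (neg_nonneg.2 k) hA)]

/-- Positivity at the corners gives positivity on the box. -/
theorem box_pos (h1 : 1 / 4 ≤ x) (bx : Bool) {m : ℝ} {a γ : T5 ℝ} {t u s r : ℝ}
    (hm : m * pev x [1, 1] = pev x (crn bx true true true true).a)
    (h : Box x m (pev x (crn bx true true true true).a) a)
    (hp : ∀ v1 v2 v3 v4, 0 < pr (finR x t u (stpR x s r (ev5 x (crn bx v1 v2 v3 v4)))) γ) :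
    0 < pr (finR x t u (stpR x s r a)) γ := by
  obtain ⟨c0, c1, c2, c3, c4, hl⟩ : ∃ c0 c1 c2 c3 c4 : ℝ, ∀ a : T5 ℝ,
      pr (finR x t u (stpR x s r a)) γ = c0 * a.a + c1 * a.b + c2 * a.c + c3 * a.d + c4 * a.e :=
    ⟨pr (finR x t u (stpR x s r ⟨1, 0, 0, 0, 0⟩)) γ, pr (finR x t u (stpR x s r ⟨0, 1, 0, 0, 0⟩)) γ,
      pr (finR x t u (stpR x s r ⟨0, 0, 1, 0, 0⟩)) γ,
      pr (finR x t u (stpR x s r ⟨0, 0, 0, 1, 0⟩)) γ,
      pr (finR x t u (stpR x s r ⟨0, 0, 0, 0, 1⟩)) γ, fun a => by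
        simp only [pr, finR, stpR]; ring⟩
  have q1 : 0 ≤ pev x [1, 1] := by simp; linarith
  have q0 : 0 ≤ pev x [1] := by simp
  have q2 : pev x [1] = 1 := by simp
  have q3 : 0 < pev x (crn bx true true true true).a := by
    have : 0 < x := by linarith
    cases bx <;> simp [crn] <;> positivity
  obtain ⟨l0, ⟨a1, a2, a3, a4⟩, b1, b2, b3, b4⟩ := h
  obtain ⟨v1, e1⟩ := pick c1 q1 a1 a2
  obtain ⟨v2, e2⟩ := pick c2 q1 a3 a4
  obtain ⟨v3, e3⟩ := pick c3 q0 b1 b2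
  obtain ⟨v4, e4⟩ := pick c4 q0 b3 b4
  have p := hp v1 v2 v3 v4
  rw [hl] at p ⊢
  rw [hm] at e1 e2
  rw [q2, mul_one] at e3 e4
  change 0 < c0 * pev x (crn bx true true true true).a + c1 * pev x (enP v1 [1, 1]) +
    c2 * pev x (enP v2 [1, 1]) + c3 * pev x (enP v3 [1]) + c4 * pev x (enP v4 [1]) at p
  by_contra n
  nlinarith [mul_pos l0 p, mul_nonneg q3.le (sub_nonneg.2 (not_lt.1 n))]

theorem allB {i : ℕ} (h : i < 256) : ∃ c, ckB i c = true := by
  by_cases k0 : i < 64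
  · exact allB0 (by omega) k0
  by_cases k1 : i < 128
  · exact allB1 (by omega) k1
  by_cases k2 : i < 192
  · exact allB2 (by omega) k2
  exact allB3 (by omega) h

theorem allK {i : ℕ} (h : i < 256) : ∃ c, ckK i c = true := by
  by_cases k0 : i < 64
  · exact allK0 (by omega) k0
  by_cases k1 : i < 128
  · exact allK1 (by omega) k1
  by_cases k2 : i < 192
  · exact allK2 (by omega) k2
  exact allK3 (by omega) h

theorem long_bool (h1 : 1 / 4 ≤ x) (h2 : x ≤ 1 / 2) {γ : T5 ℝ}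
    (hs : ∀ k, safe false k = true → cnt k < 7 → 0 < pr (ev5 x (cvP k)) γ) (r₀ : Bool)
    (s r : ℕ → Bool) (j : ℕ) (t u : Bool) :
    0 < pr (finR x (pev x (aP t)) (pev x (aP u)) (sta x r₀ s r (j + 3))) γ := by
  have snd : ∀ (f : T5 (List ℤ)) (c : Ct), chk false 7 6 0 f c = true → 0 < pr (ev5 x f) γ := by
    intro f c h
    simpa using chk_sound (μ := 0) h1 h2 le_rfl hs
      (fun k a b _ => by simpa using (hs k a (by omega)).le) h
  have crnp : ∀ bx v1 v2 v3 v4 s r : Bool, 0 < pr (finR x (pev x (aP bx)) (pev x (aP u))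
      (stpR x (bw x s) (bw x r) (ev5 x (crn bx v1 v2 v3 v4)))) γ := by
    intro bx v1 v2 v3 v4 s r
    obtain ⟨e, e0, e1, e2, e3, e4, e5, e6, e7⟩ := enc_bit v1 v2 v3 v4 s r u bx
    obtain ⟨c, hc⟩ := allB e
    have := snd _ _ hc
    rwa [tgB, e0, e1, e2, e3, e4, e5, e6, e7, ev_fin, ev_stp] at this
  cases t
  · cases j with
    | zero =>
      obtain ⟨e, e0, e1, e2, e3, e4, e5, e6, e7⟩ :=
        enc_bit r₀ (s 0) (r 0) (s 1) (r 1) (s 2) (r 2) u
      obtain ⟨c, hc⟩ := allK e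
      have := snd _ _ hc
      rwa [tgK, e0, e1, e2, e3, e4, e5, e6, e7, ev_fin, ev_stp, ev_stp, ev_stp,
        ev_ini r₀ s r] at this
    | succ j =>
      exact box_pos h1 false (by simp [crn]; ring) (box3 h1 h2 r₀ s r j)
        fun v1 v2 v3 v4 => crnp false v1 v2 v3 v4 _ _
  · exact box_pos h1 true (by simp [crn]; ring) (box2 h1 h2 r₀ s r j)
      fun v1 v2 v3 v4 => crnp true v1 v2 v3 v4 _ _

theorem mix (h1 : 1 / 4 ≤ x) {p q : ℝ} (h : ∀ b, 0 < p + pev x (aP b) * q) (t : Fin 3) :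
    0 < p + wt x t * q := by
  have a := h false
  have b := h true
  simp only [aP, if_true, Bool.false_eq_true, if_false, pev_cons, pev_nil] at a b
  push_cast at a b
  unfold wt
  split_ifs
  · linarith
  · nlinarith
  · linarith

theorem long_pos (h1 : 1 / 4 ≤ x) (h2 : x ≤ 1 / 2) {γ : T5 ℝ}
    (hs : ∀ k, safe false k = true → cnt k < 7 → 0 < pr (ev5 x (cvP k)) γ) (r₀ : Bool)
    (s r : ℕ → Bool) {k : ℕ} (hk : 3 ≤ k) (t u : Fin 3) :
    0 < pr (finR x (wt x t) (wt x u) (sta x r₀ s r k)) γ := by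
  obtain ⟨j, rfl⟩ : ∃ j, k = j + 3 := ⟨k - 3, by omega⟩
  have k1 : ∀ (a : T5 ℝ) (t u : ℝ), pr (finR x t u a) γ = pr (finR x 0 u a) γ +
      t * (pr (finR x 1 u a) γ - pr (finR x 0 u a) γ) := fun a t u => by
    simp only [pr, finR]; ring
  have k2 : ∀ (a : T5 ℝ) (t u : ℝ), pr (finR x t u a) γ = pr (finR x t 0 a) γ +
      u * (pr (finR x t 1 a) γ - pr (finR x t 0 a) γ) := fun a t u => by
    simp only [pr, finR]; ring
  rw [k1]
  refine mix h1 (fun b => ?_) t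
  rw [← k1, k2]
  refine mix h1 (fun b' => ?_) u
  rw [← k2]
  exact long_bool h1 h2 hs r₀ s r j b b'

theorem wheel_pos (h1 : 1 / 4 ≤ x) (h2 : x ≤ 1 / 2) (r₀ : Bool) (s r : ℕ → Bool) {k : ℕ}
    (hk : 2 ≤ k) (t u w : Bool) :
    0 < pr (finR x (bw x t) (bw x u) (sta x r₀ s r k)) ⟨x * (1 - x), x, bw x w * x, x, bw x w⟩ := by
  obtain ⟨j, rfl⟩ : ∃ j, k = j + 2 := ⟨k - 2, by omega⟩
  have snd : ∀ f : T5 (List ℤ), posit (whP f (bP w)) = true →
      0 < pr (ev5 x f) ⟨x * (1 - x), x, bw x w * x, x, bw x w⟩ := by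
    intro f h
    have := pev_pos h1 h2 h
    simp only [whP, pev_mul, pev_sub, pev_cons, pev_nil, pev_bP] at this
    push_cast at this
    simp only [pr, ev5]
    linarith
  cases j with
  | zero =>
    have := snd _ (wh2 r₀ (s 0) (r 0) (s 1) (r 1) t u w)
    rwa [ev_fin, ev_stp, ev_stp, ev_ini r₀ s r, pev_bP, pev_bP] at this
  | succ j =>
    refine box_pos h1 true (by simp [crn]; ring) (box2 h1 h2 r₀ s r j) fun v1 v2 v3 v4 => ?_
    have := snd _ (wh3 v1 v2 v3 v4 (s (j + 2)) (r (j + 2)) t u w)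
    rwa [ev_fin, ev_stp, pev_bP, pev_bP] at this

end Pool.Agent.Lib.MP_efe3d7_co.H.Fn
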