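import Pool.Agent.Lib.MP_efe3d7_co.H.FanD
import Pool.Agent.Lib.MP_efe3d7_co.H.Fan0

/-! The value of a graph with a fan. -/

set_option autoImplicit false

open Finset

namespace Pool.Agent.Lib.MP_efe3d7_co.H.Fn

variable {α : Type} [DecidableEq α] {V : Finset α} {τ : Sym2 α → Fin 3}

/-- One step along the fan. -/
def stpR (x s r : ℝ) (a : T5 ℝ) : T5 ℝ :=
  ⟨(1 - r) * a.a, a.c - r * s * a.b, (1 - x - r) * a.c + x * s * a.b, a.e - r * s * a.d,
    (1 - x - r) * a.e + x * s * a.d⟩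

/-- The vector of a state. -/
def finR (x t s : ℝ) (a : T5 ℝ) : T5 ℝ :=
  ⟨a.a - a.e, s * (x * a.d), (1 - x) * a.a - a.e, x * (t * a.c), s * (-x ^ 2) * (t * a.b)⟩

/-- Hard or forced. -/
def bw (x : ℝ) (b : Bool) : ℝ := if b then -x else 0

/-- The states along a fan, from its last vertex. -/
def sta (x : ℝ) (r₀ : Bool) (s r : ℕ → Bool) : ℕ → T5 ℝ
  | 0 => ⟨1 - bw x r₀, if r₀ then 1 else 0, 1, 1, 1 - x - bw x r₀⟩
  | j + 1 => stpR x (bw x (s j)) (bw x (r j)) (sta x r₀ s r j)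

variable [Fintype α] {x : ℝ}

omit [Fintype α] in
theorem fanv_mem {a : α} {v : ℕ → α} {k : ℕ} (h : Fan V τ a v k) {i l : ℕ} (hi : i ≤ k)
    (hl : l ≤ k + 1) : v l ∈ (V \ fanQ v k) ∪ fanQ v i ↔ l ≤ i ∨ l = k + 1 := by
  have q : ∀ n ≤ k, v l ∈ fanQ v n ↔ 1 ≤ l ∧ l ≤ n := fun n hn => by
    rw [mem_fanQ]
    constructor
    · rintro ⟨m, hm, e⟩
      have := h.inj _ _ (by omega) hl e
      omega
    · rintro ⟨h1, h2⟩
      exact ⟨l - 1, by omega, by rw [Nat.sub_add_cancel h1]⟩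
  rw [mem_union, mem_sdiff, q k le_rfl, q i hi]
  have := h.hv l hl
  constructor
  · rintro (e | e) <;> omega
  · intro e
    by_cases e' : 1 ≤ l ∧ l ≤ k
    · exact Or.inr (by omega)
    · exact Or.inl ⟨this, e'⟩

omit [Fintype α] in
theorem fanv_sub {a : α} {v : ℕ → α} {k : ℕ} (h : Fan V τ a v k) {i : ℕ} (hi : i ≤ k) :
    (V \ fanQ v k) ∪ fanQ v i ⊆ V := by
  refine union_subset sdiff_subset fun w hw => ?_
  obtain ⟨m, hm, rfl⟩ := mem_fanQ.1 hw
  exact h.hv _ (by omega)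

omit [Fintype α] in
theorem fanv_hub {a : α} {v : ℕ → α} {k : ℕ} (h : Fan V τ a v k) (i : ℕ) :
    a ∈ (V \ fanQ v k) ∪ fanQ v i := by
  refine mem_union_left _ (mem_sdiff.2 ⟨h.ha, fun hw => ?_⟩)
  obtain ⟨m, hm, e⟩ := mem_fanQ.1 hw
  exact h.na _ (by omega) e

omit [Fintype α] in
theorem fanv_succ (W : Finset α) (v : ℕ → α) (i : ℕ) :
    W ∪ fanQ v (i + 1) = insert (v (i + 1)) (W ∪ fanQ v i) := by
  rw [fanQ, range_add_one, image_insert, union_insert, fanQ]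

theorem fanv_bw (x : ℝ) {t : Fin 3} (ht : t ≠ 0) : wt x t = bw x (decide (t = 2)) := by
  have e : t = 1 ∨ t = 2 := by revert t; decide
  rcases e with rfl | rfl
  · simp [wt, bw]
  · simp [wt, bw]

omit [Fintype α] in
theorem fanv_one {a : α} {v : ℕ → α} {k : ℕ} (h : Fan V τ a v k) (x : ℝ) {i : ℕ} (hi : i < k)
    {w : α} (hw : w ∈ V) (h0 : w ≠ v (i + 1)) (h1 : w ≠ a) (h2 : w ≠ v i) (h3 : w ≠ v (i + 2)) :
    wt x (τ s(v (i + 1), w)) = 1 := by
  have e : τ s(v (i + 1), w) = 0 := by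
    by_contra n
    have m : w ∈ nb V τ (v (i + 1)) := mem_nb.2 ⟨hw, h0, n⟩
    rw [h.nbr i hi] at m
    simp [h1, h2, h3] at m
  simp [wt, e]

omit [Fintype α] in
theorem fanv_adj {a : α} {v : ℕ → α} {k : ℕ} (h : Fan V τ a v k) {i : ℕ} (hi : i < k) :
    τ s(v (i + 1), a) ≠ 0 ∧ τ s(v i, v (i + 1)) ≠ 0 ∧ τ s(v (i + 1), v (i + 2)) ≠ 0 := by
  have q : ∀ w, w ∈ ({a, v i, v (i + 2)} : Finset α) → τ s(v (i + 1), w) ≠ 0 := fun w hw => by
    rw [← h.nbr i hi] at hw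
    exact (mem_nb.1 hw).2.2
  refine ⟨q _ (by simp), ?_, q _ (by simp)⟩
  rw [Sym2.eq_swap]
  exact q _ (by simp)

theorem fanv_step (x t σ σ' ρ κ β₀ β₁ β₂ β₃ β₄ : ℝ) (A : T5 ℝ) :
    pr (finR x t σ' A) ⟨(2 - x - ρ) * β₀ - (1 - x) * (σ * β₁) - (1 - x) * (κ * β₂),
      β₀ - ρ * (σ * β₁) - κ * β₂, 1 * (β₀ - σ * β₁ - ρ * (κ * β₂)),
      (1 - x - ρ) * β₃ - x * (σ * κ * β₄), 1 * (-β₃ - ρ * (σ * κ * β₄))⟩ =
    pr (finR x t σ (stpR x σ' ρ A)) ⟨β₀, β₁, κ * β₂, β₃, κ * β₄⟩ := by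
  simp only [pr, finR, stpR]
  ring

theorem fan_val (hx : 0 < x) {a : α} {v : ℕ → α} {k : ℕ} (h : Fan V τ a v k)
    {β₀ β₁ β₂ β₃ β₄ : ℝ}
    (hf : Form x (V \ fanQ v k) (fun e => wt x (τ e)) (v 0) a (v (k + 1)) β₀ β₁ β₂ β₃ β₄) :
    ∃ (r₀ : Bool) (s r : ℕ → Bool), x * FF x V τ =
      pr (finR x (wt x (τ s(a, v (k + 1)))) (wt x (τ s(v 0, a))) (sta x r₀ s r k))
        ⟨β₀, β₁, wt x (τ s(v 0, v (k + 1))) * β₂, β₃, wt x (τ s(v 0, v (k + 1))) * β₄⟩ := by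
  have k2 := h.k2
  refine ⟨decide (τ s(v k, v (k + 1)) = 2), fun j => decide (τ s(v (k - j), a) = 2),
    fun j => decide (τ s(v (k - j - 1), v (k - j)) = 2), ?_⟩
  have main : ∀ j i : ℕ, i + j = k → ∀ β₀ β₁ β₂ β₃ β₄ : ℝ,
      Form x ((V \ fanQ v k) ∪ fanQ v i) (fun e => wt x (τ e)) (v i) a (v (k + 1))
        β₀ β₁ β₂ β₃ β₄ →
      x * FF x V τ = pr (finR x (wt x (τ s(a, v (k + 1)))) (wt x (τ s(v i, a)))
        (sta x (decide (τ s(v k, v (k + 1)) = 2)) (fun j => decide (τ s(v (k - j), a) = 2))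
          (fun j => decide (τ s(v (k - j - 1), v (k - j)) = 2)) j))
        ⟨β₀, β₁, (if j = 0 then 1 else wt x (τ s(v i, v (k + 1)))) * β₂, β₃,
          (if j = 0 then 1 else wt x (τ s(v i, v (k + 1)))) * β₄⟩ := by
    intro j
    induction j with
    | zero =>
      intro i hi β₀ β₁ β₂ β₃ β₄ hF
      obtain rfl : i = k := by omega
      have hV : (V \ fanQ v i) ∪ fanQ v i = V :=
        sdiff_union_of_subset (subset_union_right.trans (fanv_sub h le_rfl))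
      rw [hV] at hF
      have n : τ s(v i, v (i + 1)) ≠ 0 := by
        have := (fanv_adj h (i := i - 1) (by omega)).2.2
        rwa [show i - 1 + 1 = i by omega, show i - 1 + 2 = i + 1 by omega] at this
      rw [FF, hF.eval fun _ _ _ _ _ _ _ => rfl, fanv_bw x n]
      simp only [pr, finR, sta, if_true]
      cases decide (τ s(v i, v (i + 1)) = 2)
      · simp only [bw, Bool.false_eq_true, if_false]
        ring
      · simp only [bw, if_true]
        ring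
    | succ j ih =>
      intro i hi β₀ β₁ β₂ β₃ β₄ hF
      have ik : i < k := by omega
      have hd : v (i + 1) ∉ (V \ fanQ v k) ∪ fanQ v i := by
        rw [fanv_mem h ik.le (by omega)]
        omega
      have F2 := vertex3 hx hd ((fanv_mem h ik.le (by omega)).2 (Or.inl le_rfl)) (fanv_hub h i)
        ((fanv_mem h ik.le le_rfl).2 (Or.inr rfl)) (h.na i (by omega))
        (fun e => by have := h.inj _ _ (by omega) le_rfl e; omega) (h.na _ le_rfl).symm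
        (fun w hw h1 h2 h3 => fanv_one h x ik (fanv_sub h ik.le hw) (fun e => hd (e ▸ hw)) h2 h1
          fun e => by
            rw [e, fanv_mem h ik.le (by omega)] at hw
            exact h3 (by rw [e, show i + 2 = k + 1 by omega])) hF
      rw [← fanv_succ] at F2
      have e1 : (if j = 0 then (1 : ℝ) else wt x (τ s(v (i + 1), v (k + 1)))) = 1 := by
        split_ifs with e
        · rfl
        · refine fanv_one h x ik (h.hv _ le_rfl) ?_ (h.na _ le_rfl) ?_ ?_ <;>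
            exact fun e => by have := h.inj _ _ le_rfl (by omega) e; omega
      have a := fanv_adj h ik
      rw [ih (i + 1) (by omega) _ _ _ _ _ F2, e1, fanv_step, if_neg (Nat.succ_ne_zero j), sta,
        show k - j = i + 1 by omega, Nat.add_sub_cancel, ← fanv_bw x a.1, ← fanv_bw x a.2.1]
  have e0 : (V \ fanQ v k) ∪ fanQ v 0 = V \ fanQ v k := by simp [fanQ]
  have := main k 0 (Nat.zero_add k) β₀ β₁ β₂ β₃ β₄ (by rwa [e0])
  rwa [if_neg (by omega)] at this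

end Pool.Agent.Lib.MP_efe3d7_co.H.Fn
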