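import Pool.Agent.Lib.MP_efe3d7_co.H.Fr6

/-! Graphs without a thick fragment. -/

set_option autoImplicit false

open Finset

namespace Pool.Agent.Lib.MP_efe3d7_co.H

variable {α : Type} [DecidableEq α] {V : Finset α} {τ : Sym2 α → Fin 3}

/-- There is no thick fragment. -/
def NoThick (V : Finset α) (τ : Sym2 α → Fin 3) : Prop := ∀ Q T, ¬ Thick V τ Q T

theorem NoThick.tri (h : NoThick V τ) (h5 : 5 ≤ V.card) {a b c : α} (ha : a ∈ V)
    (hb : b ∈ nb V τ a) (hc : c ∈ nb V τ a) : c ∉ nb V τ b := by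
  intro hcb
  obtain ⟨hbV, hba, -⟩ := mem_nb.1 hb
  obtain ⟨hcV, hca, -⟩ := mem_nb.1 hc
  have hcb' : c ≠ b := (mem_nb.1 hcb).2.1
  have hT : ({a, b, c} : Finset α) ⊆ V := by
    intro t ht
    simp only [mem_insert, mem_singleton] at ht
    rcases ht with rfl | rfl | rfl <;> assumption
  have h3 : ({a, b, c} : Finset α).card = 3 :=
    card_eq_three.2 ⟨a, b, c, hba.symm, hca.symm, hcb'.symm, rfl⟩
  have two : ∀ t x y : α, x ≠ y → x ∈ nb V τ t → y ∈ nb V τ t → x ∈ ({a, b, c} : Finset α) →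
      y ∈ ({a, b, c} : Finset α) → 2 ≤ (nb V τ t \ (V \ {a, b, c})).card := by
    intro t x y hxy hx hy hxT hyT
    refine one_lt_card.2 ⟨x, ?_, y, ?_, hxy⟩
    · exact mem_sdiff.2 ⟨hx, fun k => (mem_sdiff.1 k).2 hxT⟩
    · exact mem_sdiff.2 ⟨hy, fun k => (mem_sdiff.1 k).2 hyT⟩
  refine h (V \ {a, b, c}) {a, b, c} ⟨sdiff_subset, hT, sdiff_disjoint, ?_, h3, ?_, ?_⟩
  · rw [card_sdiff_of_subset hT, h3]
    omega
  · intro x _ y hy
    by_cases k : y ∈ ({a, b, c} : Finset α)
    · exact Or.inr k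
    · exact Or.inl (mem_sdiff.2 ⟨nb_sub _ hy, k⟩)
  · intro t ht
    simp only [mem_insert, mem_singleton] at ht
    rcases ht with e | e | e <;> rw [e]
    · exact two a b c hcb'.symm hb hc (by simp) (by simp)
    · exact two b a c hca.symm (nb_symm ha hb) hcb (by simp) (by simp)
    · exact two c a b hba.symm (nb_symm ha hc) (nb_symm hbV hcb) (by simp) (by simp)

theorem fr4a_ind (hc : Con3 V τ) (h : NoThick V τ) (h5 : 5 ≤ V.card) (n : ℕ) :
    ∀ B U : Finset α, (V \ B).card ≤ n → B ⊆ V → 2 ≤ B.card → Cov V τ B U → U ⊆ V →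
      Disjoint B U → U.card ≤ 3 → (V \ (B ∪ U)).card ≤ 1 := by
  induction n with
  | zero =>
    intro B U hn _ _ _ _ _ _
    have := card_le_card
      (sdiff_subset_sdiff (subset_refl V) (subset_union_left (s₁ := B) (s₂ := U)))
    omega
  | succ n ih =>
    intro B U hn hB h2 hcov hU hd h3
    by_contra k
    have hCV : V \ (B ∪ U) ⊆ V := sdiff_subset
    have hCne : (V \ (B ∪ U)).Nonempty := card_pos.1 (by omega)
    have mC : ∀ v, v ∈ V \ (B ∪ U) ↔ v ∈ V ∧ v ∉ B ∧ v ∉ U := fun v => by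
      simp only [mem_sdiff, mem_union, not_or]
    have hU3 : U.card = 3 := by
      obtain ⟨c, hcC⟩ := hCne
      obtain ⟨c1, c2, c3⟩ := (mC c).1 hcC
      have := hc.three hB (card_pos.1 (by omega)) hcov c1 c2 c3
      omega
    obtain ⟨u, huU, hu1⟩ : ∃ u ∈ U, (nb V τ u \ B).card ≤ 1 := by
      by_contra n1
      push Not at n1
      exact h B U ⟨hB, hU, hd, h2, hU3, hcov, fun t ht => n1 t ht⟩
    have huV : u ∈ V := hU huU
    have huB : u ∉ B := fun e => disjoint_left.1 hd e huU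
    have hUe : (U.erase u).card = 2 := by rw [card_erase_of_mem huU, hU3]
    obtain ⟨u', hu'n, hu'C⟩ : ∃ u' ∈ nb V τ u, u' ∈ V \ (B ∪ U) := by
      by_contra n1
      push Not at n1
      have h1 : Cov V τ (V \ (B ∪ U)) (U.erase u) := fun a ha b hb =>
        (hcov.compl a ha b hb).imp_right fun e => mem_erase.2 ⟨fun e' =>
          n1 a (by rw [← e']; exact nb_symm (hCV ha) hb) ha, e⟩
      have := hc.three hCV hCne h1 huV (fun e => ((mC u).1 e).2.2 huU) (notMem_erase u U)
      omega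
    obtain ⟨hu'V, hu'B, hu'U⟩ := (mC u').1 hu'C
    have uniq : ∀ z ∈ nb V τ u, z ∉ B → z = u' := fun z hz hzB =>
      card_le_one.1 hu1 z (mem_sdiff.2 ⟨hz, hzB⟩) u' (mem_sdiff.2 ⟨hu'n, hu'B⟩)
    have hU' : (insert u' (U.erase u)).card ≤ 3 := (card_insert_le _ _).trans (by omega)
    have hcov' : Cov V τ (insert u B) (insert u' (U.erase u)) := by
      intro a ha b hb
      simp only [mem_insert, mem_erase] at ha ⊢
      rcases ha with e | e
      · have := uniq b (by rw [← e]; exact hb)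
        tauto
      · have := hcov a e b hb
        tauto
    have hlt : (V \ insert u B).card ≤ n := by
      have e : V \ insert u B = (V \ B).erase u := sdiff_insert V B u
      rw [e, card_erase_of_mem (mem_sdiff.2 ⟨huV, huB⟩)]
      omega
    have hd' : Disjoint (insert u B) (insert u' (U.erase u)) := by
      rw [disjoint_left]
      intro z hz hz'
      simp only [mem_insert, mem_erase] at hz hz'
      rcases hz with e | e <;> rcases hz' with e' | e'
      · exact hu'U (by rw [← e', e]; exact huU)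
      · exact e'.1 e
      · exact hu'B (by rw [← e']; exact e)
      · exact disjoint_left.1 hd e e'.2
    have hI := ih (insert u B) (insert u' (U.erase u)) hlt (insert_subset huV hB)
      (h2.trans (card_le_card (subset_insert _ _))) hcov'
      (insert_subset hu'V ((erase_subset _ _).trans hU)) hd' hU'
    have mI : ∀ v ∈ V \ (B ∪ U), v ≠ u' → v ∈ V \ (insert u B ∪ insert u' (U.erase u)) := by
      intro v hv hne
      obtain ⟨v1, v2, v3⟩ := (mC v).1 hv
      have : v ≠ u := fun e => v3 (by rw [e]; exact huU)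
      simp only [mem_sdiff, mem_union, mem_insert, mem_erase]
      tauto
    obtain ⟨w, hwC, hwu⟩ : ∃ w ∈ V \ (B ∪ U), w ≠ u' := exists_mem_ne (by omega) u'
    have pair : ∀ v ∈ V \ (B ∪ U), v ≠ u' → v = w := fun v hv hne =>
      card_le_one.1 hI v (mI v hv hne) w (mI w hwC hwu)
    obtain ⟨hwV, hwB, _⟩ := (mC w).1 hwC
    have hsub : nb V τ w ⊆ insert u' (U.erase u) := by
      intro b hb
      rw [mem_insert, mem_erase]
      rcases hcov.compl w hwC b hb with e | e
      · by_contra n1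
        exact (mem_nb.1 hb).2.1 (pair b e fun e' => n1 (Or.inl e'))
      · exact Or.inr ⟨fun e' => hwu (uniq w (by rw [← e']; exact nb_symm hwV hb) hwB), e⟩
    have hw3 := hc.dg3 (by omega) hwV
    have heq : nb V τ w = insert u' (U.erase u) := eq_of_subset_of_card_le hsub (hU'.trans hw3)
    obtain ⟨y, hy, hyU⟩ : ∃ y ∈ nb V τ u', y ∈ U.erase u := by
      by_contra n1
      push Not at n1
      have h1 : nb V τ u' ⊆ {w, u} := by
        intro b hb
        rw [mem_insert, mem_singleton]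
        rcases hcov.compl u' hu'C b hb with e | e
        · exact Or.inl (pair b e (mem_nb.1 hb).2.1)
        · by_contra n2
          exact n1 b hb (mem_erase.2 ⟨fun e' => n2 (Or.inr e'), e⟩)
      have h4 := hc.dg3 (by omega) hu'V
      have h6 := (card_le_card h1).trans card_le_two
      unfold dg at h4
      omega
    exact h.tri h5 hwV (by rw [heq]; exact mem_insert_self _ _)
      (by rw [heq]; exact mem_insert_of_mem hyU) hy

theorem NoThick.quasi (hc : Con3 V τ) (h : NoThick V τ) (h5 : 5 ≤ V.card) {B U : Finset α}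
    (hB : B ⊆ V) (h2 : 2 ≤ B.card) (hcov : Cov V τ B U) (h3 : U.card ≤ 3) :
    (V \ (B ∪ U)).card ≤ 1 := by
  have h1 := fr4a_ind hc h h5 _ B (bd V τ B) le_rfl hB h2 (cov_bd B) (bd_subV B)
    (disjoint_left.2 fun a ha k => (mem_bd.1 k).2 ha) ((card_le_card hcov.bd_sub).trans h3)
  exact (card_le_card (sdiff_subset_sdiff (subset_refl V)
    (union_subset_union (subset_refl B) hcov.bd_sub))).trans h1

theorem fr4b_one {D U : Finset α} (hD : D ⊆ V) (hne : D.Nonempty) (h1 : D.card ≤ 1)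
    (h : Cov V τ D U) : ∃ c ∈ V, nb V τ c ⊆ U := by
  obtain ⟨c, hc⟩ := hne
  exact ⟨c, hD hc, fun b hb => (h c hc b hb).resolve_left fun e =>
    (mem_nb.1 hb).2.1 (card_le_one.1 h1 b e c hc)⟩

/-- Every edge can be contracted. -/
theorem NoThick.contr (hc : Con3 V τ) (h : NoThick V τ) (h5 : 5 ≤ V.card) {u v : α} (hu : u ∈ V)
    (hv : v ∈ nb V τ u) : Con3 (V.erase v) (mg τ u v) := by
  refine contr_of hc (by omega) hu (nb_sub u hv) (mem_nb.1 hv).2.1.symm
    fun B s hB hne _ _ hcov => ?_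
  have key : ∀ D : Finset α, D ⊆ V → D.Nonempty → D.card ≤ 1 → Cov V τ D {u, v, s} → False :=
    fun D h1 h2 h3 h4 => by
      obtain ⟨c, hcV, h6⟩ := fr4b_one h1 h2 h3 h4
      have h7 := eq_of_subset_of_card_le h6 (card_le_three.trans (hc.dg3 (by omega) hcV))
      exact h.tri h5 hcV (b := u) (c := v) (by simp [h7]) (by simp [h7]) hv
  by_contra hn
  by_cases h1 : B.card ≤ 1
  · exact key B hB hne h1 hcov
  · exact key _ sdiff_subset (sdiff_nonempty.2 hn)
      (h.quasi hc h5 hB (by omega) hcov card_le_three) hcov.compl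

/-- Without cubic vertices every edge can be deleted. -/
theorem NoThick.del (hc : Con3 V τ) (h : NoThick V τ) (h5 : 5 ≤ V.card)
    (h4 : ∀ v ∈ V, dg V τ v ≠ 3) (u v : α) : Con3 V (Function.update τ s(u, v) 0) := by
  have key : ∀ D S : Finset α, ∀ b, D ⊆ V → D.Nonempty → D.card ≤ 1 → Cov V τ D (insert b S) →
      S.card ≤ 2 → False := fun D S b h1 h2 h3 h6 h7 => by
    obtain ⟨c, hcV, h8⟩ := fr4b_one h1 h2 h3 h6
    have h9 : dg V τ c ≤ _ := (card_le_card h8).trans (card_insert_le b S)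
    have := hc.dg3 (by omega) hcV
    have := h4 c hcV
    omega
  have cov : ∀ (A S : Finset α) (a b : α), a ∈ A → s(a, b) = s(u, v) →
      Cov V (Function.update τ s(u, v) 0) A S → Cov V τ A (insert b S) :=
    fun A S a b ha e hA p hp q hq => by
      by_cases e' : s(p, q) = s(u, v)
      · rcases Sym2.eq_iff.1 (e'.trans e.symm) with ⟨-, rfl⟩ | ⟨-, rfl⟩
        exacts [.inr (mem_insert_self _ _), .inl ha]
      · exact (hA p hp q (mem_nb_del.2 ⟨hq, e'⟩)).imp_right mem_insert_of_mem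
  refine con3_of_sep hc.1 fun A S C hA hC hS hV h1 h2 h3 cA cC => ?_
  have sA : A ⊆ V := fun a ha => (hV a).2 (.inl ha)
  have sC : C ⊆ V := fun a ha => (hV a).2 (.inr (.inr ha))
  by_cases e : ∃ a ∈ A, ∃ b ∈ C, s(a, b) = s(u, v)
  · obtain ⟨a, ha, b, hb, e⟩ := e
    have dA := cov A S a b ha e cA
    by_cases h6 : A.card ≤ 1
    · exact key A S b sA hA h6 dA hS
    have h7 := h.quasi hc h5 sA (by omega) dA ((card_insert_le b S).trans (by omega))
    rcases (V \ (A ∪ insert b S)).eq_empty_or_nonempty with h8 | h8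
    · refine key C S a sC hC ((card_le_card fun c hcC => ?_).trans (card_singleton b).le)
        (cov C S b a hb (Sym2.eq_swap.trans e) cC) hS
      have := sdiff_eq_empty_iff_subset.1 h8 (sC hcC)
      grind
    · exact key _ S b sdiff_subset h8 h7 dA.compl hS
  · obtain ⟨c, hcC⟩ := hC
    have := hc.three (S := S) sA hA (fun p hp q hq => ?_) (sC hcC) (fun e => h3 c e hcC) (h2 c hcC)
    · omega
    by_cases e' : s(p, q) = s(u, v)
    · rcases (hV q).1 (nb_sub p hq) with h6 | h6 | h6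
      exacts [.inl h6, .inr h6, (e ⟨p, hp, q, h6, e'⟩).elim]
    · exact cA p hp q (mem_nb_del.2 ⟨hq, e'⟩)

variable [Fintype α] {x : ℝ}

theorem fr4b_par (x : ℝ) {s t : Fin 3} (h : s = 0 ∨ t = 0) :
    wt x s * wt x t = wt x (par s t) := by
  rcases h with rfl | rfl
  · fin_cases t <;> simp [wt, par]
  · fin_cases s <;> simp [wt, par]

theorem NoThick.red_forced (h0 : 0 < x) (hc : Con3 V τ) (h : NoThick V τ) (h5 : 5 ≤ V.card)
    {u v : α} (hu : u ∈ V) (hv : v ∈ V) (huv : u ≠ v) (ht : τ s(u, v) = 2) : Red x V τ := by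
  have hv' : v ∈ nb V τ u := mem_nb.2 ⟨hv, huv.symm, by rw [ht]; decide⟩
  refine red_con h0 hc hu hv huv ht fun hs => ?_
  have key : ∀ b ∈ V.erase v, u ≠ b →
      mergeW (fun e => wt x (τ e)) u v s(u, b) = wt x (mg τ u v s(u, b)) := fun b hb e => by
    rw [mergeW_self, mg_self]
    refine fr4b_par x ?_
    by_contra hn
    rw [not_or] at hn
    exact h.tri h5 hu hv' (mem_nb.2 ⟨mem_of_mem_erase hb, e.symm, hn.1⟩)
      (mem_nb.2 ⟨mem_of_mem_erase hb, ne_of_mem_erase hb, hn.2⟩)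
  refine (hs _ _ (h.contr hc h5 hu hv') (ne_mg_lt hu hv' fun _ he => he)).trans_eq
    (ff_congr fun a ha b hb hab => ?_).symm
  by_cases e : a = u
  · subst e
    exact key b hb hab
  by_cases e' : b = u
  · subst e'
    rw [Sym2.eq_swap]
    exact key a ha hab.symm
  · rw [mergeW_of_ne _ _ e e', mg_of_ne _ _ e e']

theorem NoThick.red_nocubic (h1 : 1 / 4 ≤ x) (hc : Con3 V τ) (h : NoThick V τ) (h5 : 5 ≤ V.card)
    (h4 : ∀ v ∈ V, dg V τ v ≠ 3) : Red x V τ := by
  obtain ⟨u, hu⟩ : V.Nonempty := card_pos.1 (by omega)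
  obtain ⟨v, hv⟩ : (nb V τ u).Nonempty :=
    card_pos.1 (lt_of_lt_of_le (by decide) (hc.dg3 (by omega) hu))
  obtain ⟨h6, h7, h8⟩ := mem_nb.1 hv
  rcases (by decide : ∀ t : Fin 3, t ≠ 0 → t = 1 ∨ t = 2) _ h8 with e | e
  · exact red_del h1 hc hu h6 h7.symm e (h.del hc h5 h4 u v)
  · exact h.red_forced (by linarith) hc h5 hu h6 h7.symm e

end Pool.Agent.Lib.MP_efe3d7_co.H
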