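import Pool.Agent.Lib.MP_efe3d7_co.H.Fr4

/-! The frames of a graph without a thick fragment. -/

set_option autoImplicit false

open Finset

namespace Pool.Agent.Lib.MP_efe3d7_co.H

variable {α : Type} [DecidableEq α] {V : Finset α} {τ : Sym2 α → Fin 3}

theorem fr5_F (hc : Con3 V τ) (h4 : 4 ≤ V.card) (f : Bool)
    (hf : f = true → (∀ a ∈ V, ∀ b ∈ V, a ≠ b → τ s(a, b) ≠ 2) ∧
      (∀ a ∈ V, ∀ b ∈ nb V τ a, ∀ c ∈ nb V τ a, c ∉ nb V τ b) ∧
      ∀ B U : Finset α, B ⊆ V → 2 ≤ B.card → Cov V τ B U → U.card ≤ 3 →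
        (V \ (B ∪ U)).card ≤ 1) :
    Ok ⟨false, false, false, false, false, f⟩ V τ (envF V) where
  con := hc
  subQ := Subset.rfl
  subT := empty_subset _
  dis := fun _ _ => notMem_empty _
  cT := Nat.zero_le _
  nbq := fun _ _ _ hb => Or.inl (nb_sub _ hb)
  omn := fun _ => rfl
  oms := fun e => by cases e
  omv := fun _ e => by cases e
  ds3 := fun v hv => by
    have h1 : v ∈ V := hv.resolve_right (notMem_empty _)
    exact (hc.dg3 h4 h1).trans_eq (if_pos h1).symm
  dsT := fun _ e => absurd e (notMem_empty _)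
  big := fun e => by cases e
  dr1 := fun _ e => absurd e (notMem_empty _)
  dr2 := fun _ _ _ e => absurd e (notMem_empty _)
  two := fun _ _ _ e => absurd e (notMem_empty _)
  q2 := fun e => by cases e
  a1 := fun e => by rcases e with e | e <;> cases e
  a2 := fun e => by rcases e with e | e <;> cases e
  t0 := fun e => by cases e
  nf := fun e => by cases e
  fr := fun e => ⟨rfl, hf e⟩
  safe := fun e => by rcases e with e | e <;> cases e

theorem ok_F0 (hc : Con3 V τ) (h4 : 4 ≤ V.card) :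
    Ok ⟨false, false, false, false, false, false⟩ V τ (envF V) :=
  fr5_F hc h4 false fun e => by cases e

theorem ok_F (hc : Con3 V τ) (h : NoThick V τ) (h5 : 5 ≤ V.card)
    (hh : ∀ a ∈ V, ∀ b ∈ V, a ≠ b → τ s(a, b) ≠ 2) :
    Ok ⟨false, false, false, false, false, true⟩ V τ (envF V) :=
  fr5_F hc (by omega) true fun _ => ⟨hh, fun _ ha _ hb _ hc' => h.tri h5 ha hb hc',
    fun _ _ hB h2 hcov h3 => h.quasi hc h5 hB h2 hcov h3⟩

theorem safe_W {w : α} (hw : w ∈ V) {V' : Finset α} {τ' : Sym2 α → Fin 3}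
    (g : Chg V τ (envW V τ w) V' τ') : Con3 V' τ' := by
  have h3 : (nb V' τ' w).card = 3 := g.om3 w rfl
  have hw' : w ∈ V' := by
    by_contra k
    exact notMem_erase w V (g.del w hw k)
  refine con3_of_sep (h3.symm.trans_le (card_le_card (nb_sub w))) ?_
  intro A S C hA hC hS hV _ hCS hAC cA cC
  have key : ∀ B : Finset α, B ⊆ V' → B.Nonempty → Cov V' τ' B S → w ∉ B →
      2 ≤ (B ∩ nb V' τ' w).card := fun B hB hne hcov hwB => by
    by_contra k
    have := g.l1 B S hB hne ⟨fun b hb => mem_erase.2 ⟨fun e => hwB (e ▸ hb), g.sub (hB hb)⟩,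
      fun w' e => by cases e; omega⟩ hcov
    omega
  have sA : A ⊆ V' := fun a ha => (hV a).2 (Or.inl ha)
  have sC : C ⊆ V' := fun a ha => (hV a).2 (Or.inr (Or.inr ha))
  have side : ∀ B D : Finset α, D ⊆ V' → D.Nonempty → Cov V' τ' B S → Cov V' τ' D S →
      (∀ v ∈ B, v ∉ D) → (∀ v ∈ D, v ∉ S) → w ∉ B := fun B D hD hne cB cD h1 h2 hwB => by
    obtain ⟨y, hy⟩ := card_pos.1 (zero_lt_two.trans_le (key D hD hne cD (h1 w hwB)))
    obtain ⟨y1, y2⟩ := mem_inter.1 hy
    exact (cB w hwB y y2).elim (fun e => h1 y e y1) (h2 y y1)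
  have k1 := key A sA hA cA (side A C sC hC cA cC hAC hCS)
  have k2 := key C sC hC cC (side C A sA hA cC cA (fun v hv e => hAC v e hv) ‹_›)
  have k3 : Disjoint (A ∩ nb V' τ' w) (C ∩ nb V' τ' w) :=
    disjoint_left.2 fun v h1 h2 => hAC v (mem_inter.1 h1).1 (mem_inter.1 h2).1
  have k4 := card_le_card (union_subset (inter_subset_right (s₁ := A) (s₂ := nb V' τ' w))
    (inter_subset_right (s₁ := C)))
  rw [card_union_of_disjoint k3] at k4
  omega

theorem fr5_two {w : α} (h3 : dg V τ w = 3) {B U : Finset α} (hB : (B ∩ nb V τ w).card ≤ 1)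
    (hV : ∀ c ∈ V, c ≠ w → c ∈ B ∨ c ∈ U) : 2 ≤ (U.erase w ∩ nb V τ w).card := by
  have h1 : nb V τ w ⊆ B ∩ nb V τ w ∪ U.erase w ∩ nb V τ w := fun y hy => by
    obtain ⟨y1, y2, -⟩ := mem_nb.1 hy
    simp only [mem_union, mem_inter, mem_erase]
    exact (hV y y1 y2).imp (fun e => ⟨e, hy⟩) fun e => ⟨⟨y2, e⟩, hy⟩
  have h2 := (card_le_card h1).trans (card_union_le _ _)
  unfold dg at h3
  omega

theorem fr5_key (hc : Con3 V τ) (h : NoThick V τ) (h5 : 5 ≤ V.card) {w : α} (hw : w ∈ V)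
    (h3 : dg V τ w = 3) {B U : Finset α} (hB : B ⊆ V.erase w) (h1 : (B ∩ nb V τ w).card ≤ 1)
    (h2 : 2 ≤ B.card) (hcov : Cov V τ B U) (hU : U.card ≤ 3) :
    (∀ c ∈ V, c ≠ w → c ∈ B ∨ c ∈ U) ∧ U ⊆ insert w (nb V τ w) := by
  have hwB : w ∉ B := fun e => notMem_erase w V (hB e)
  have hq := card_le_one.1 (h.quasi hc h5 (hB.trans (erase_subset _ _)) h2 hcov hU)
  have hn : ∀ c ∈ V \ (B ∪ U), nb V τ c = U := fun c hcC => by
    refine eq_of_subset_of_card_le (fun y hy => (hcov.compl c hcC y hy).resolve_left fun e => ?_)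
      (hU.trans (hc.dg3 (by omega) (mem_sdiff.1 hcC).1))
    exact (mem_nb.1 hy).2.1 (hq y e c hcC)
  have hV : ∀ c ∈ V, c ≠ w → c ∈ B ∨ c ∈ U := fun c hcV hcw => by
    by_contra k
    have hcC : c ∈ V \ (B ∪ U) := mem_sdiff.2 ⟨hcV, fun e => k (mem_union.1 e)⟩
    have hwU : w ∈ U := by
      by_contra k'
      exact hcw (hq c hcC w (mem_sdiff.2 ⟨hw, fun e => (mem_union.1 e).elim hwB k'⟩))
    have h6 : (nb V τ w).erase c ⊆ B ∩ nb V τ w := fun y hy => by
      obtain ⟨y1, y2⟩ := mem_erase.1 hy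
      refine mem_inter.2 ⟨?_, y2⟩
      by_contra k'
      have y3 : y ∉ U := fun e =>
        h.tri h5 hcV (hn c hcC ▸ hwU : w ∈ nb V τ c) (hn c hcC ▸ e : y ∈ nb V τ c) y2
      exact y1 (hq y (mem_sdiff.2 ⟨nb_sub _ y2, fun e => (mem_union.1 e).elim k' y3⟩) c hcC)
    have h7 := (pred_card_le_card_erase (a := c)).trans (card_le_card h6)
    unfold dg at h3
    omega
  refine ⟨hV, ?_⟩
  by_cases hwU : w ∈ U
  · have h6 := fr5_two h3 h1 hV
    have h7 : U.erase w ∩ nb V τ w = U.erase w :=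
      eq_of_subset_of_card_le inter_subset_left (by rw [card_erase_of_mem hwU]; omega)
    exact subset_insert_iff.2 (h7 ▸ inter_subset_right)
  · rw [hn w (mem_sdiff.2 ⟨hw, fun e => (mem_union.1 e).elim hwB hwU⟩)]
    exact subset_insert _ _

theorem ok_W (hc : Con3 V τ) (h : NoThick V τ) (h5 : 5 ≤ V.card) {w : α} (hw : w ∈ V)
    (h3 : dg V τ w = 3) : Ok ⟨false, true, false, false, false, false⟩ V τ (envW V τ w) where
  con := hc
  subQ := erase_subset _ _
  subT := empty_subset _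
  dis := fun _ _ => notMem_empty _
  cT := Nat.zero_le _
  nbq := fun _ _ b hb => by
    by_cases e : b = w
    · exact Or.inr (Or.inr (congrArg some e.symm))
    · exact Or.inl (mem_erase.2 ⟨e, nb_sub _ hb⟩)
  omn := fun e => by cases e
  oms := fun _ => ⟨rfl, w, rfl⟩
  omv := fun _ e => by
    cases e
    exact ⟨hw, notMem_erase _ _, notMem_empty _, h3⟩
  ds3 := fun v hv => by
    have h1 : v ∈ V.erase w := hv.resolve_right (notMem_empty _)
    exact (hc.dg3 (by omega) (mem_of_mem_erase h1)).trans_eq (if_pos h1).symm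
  dsT := fun _ e => absurd e (notMem_empty _)
  big := fun e => by cases e
  dr1 := fun v hv =>
    ⟨mem_erase.2 ⟨(mem_nb.1 hv).2.1, nb_sub _ hv⟩, w, nb_symm hw hv, Or.inr rfl⟩
  dr2 := fun _ _ _ e => absurd e (notMem_empty _)
  two := fun _ _ _ e => absurd e (notMem_empty _)
  q2 := fun e => by cases e
  a1 := fun _ B U hB hne hcov => by
    by_contra k
    have h1 := hc.2 B U (hB.1.trans (erase_subset _ _)) hne (by omega) hcov
    have h2 : w ∈ U := (mem_union.1 (h1 hw)).resolve_left fun e => notMem_erase w V (hB.1 e)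
    have h4 := (fr5_two h3 (hB.2 w rfl) fun c hc _ => mem_union.1 (h1 hc)).trans
      (card_le_card inter_subset_left)
    rw [card_erase_of_mem h2] at h4
    omega
  a2 := fun _ B U hB h2 hcov _ hU => by
    obtain ⟨k1, k2⟩ := fr5_key hc h h5 hw h3 hB.1 (hB.2 w rfl) h2 hcov hU
    have k3 : ∀ u ∈ U, u ≠ w → u ∈ nb V τ w := fun u hu e =>
      (mem_insert.1 (k2 hu)).resolve_left e
    refine ⟨fun c hcQ c1 c2 => ?_, fun u hu hQ => k3 u hu (mem_erase.1 hQ).1,
      fun e => (by cases e), fun _ u hu hQ => ?_, fun w' e => ?_⟩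
    · obtain ⟨c3, c4⟩ := mem_erase.1 (hcQ.resolve_right (notMem_empty _))
      exact ((k1 c c4 c3).elim c1 c2).elim
    · obtain ⟨u1, u2⟩ := mem_erase.1 (hQ.resolve_right fun e => notMem_empty _ e.1)
      have k4 : nb V τ u ⊆ insert w (nb V τ u ∩ B) := fun y hy => by
        by_cases e : y = w
        · exact mem_insert.2 (Or.inl e)
        · exact mem_insert_of_mem (mem_inter.2 ⟨hy, (k1 y (nb_sub _ hy) e).resolve_right
            fun e' => h.tri h5 hw (k3 u hu u1) (k3 y e' e) hy⟩)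
      have k5 := (hc.dg3 (by omega) u2).trans ((card_le_card k4).trans (card_insert_le _ _))
      omega
    · cases e
      exact k2
  t0 := fun e => by cases e
  nf := fun e => by cases e
  fr := fun e => by cases e
  safe := fun _ _ _ g => safe_W hw g

end Pool.Agent.Lib.MP_efe3d7_co.H
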