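import Pool.Agent.Lib.MP_efe3d7_co.H.Bas

/-! The roots of the case trees occur. -/

set_option autoImplicit false

open Finset

namespace Pool.Agent.Lib.MP_efe3d7_co.H

variable {α : Type} [DecidableEq α] {V : Finset α} {τ : Sym2 α → Fin 3} {E : Env α}

theorem enum2 (a : α) {A B : Finset α} (h : Disjoint A B) :
    ∃ v : ℕ → α, (∀ i < A.card + B.card, ∀ j < A.card + B.card, v i = v j → i = j) ∧
      (∀ i < A.card, v i ∈ A) ∧ (∀ i < A.card + B.card, A.card ≤ i → v i ∈ B) ∧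
      ∀ z ∈ A, ∃ l < A.card + B.card, v l = z := by
  have hl : (A.toList ++ B.toList).length = A.card + B.card := by simp
  have hn : (A.toList ++ B.toList).Nodup := List.Nodup.append A.nodup_toList B.nodup_toList
    fun z h1 h2 => disjoint_left.1 h (mem_toList.1 h1) (mem_toList.1 h2)
  refine ⟨fun i => (A.toList ++ B.toList).getD i a, fun i hi j hj e => ?_, fun i hi => ?_,
    fun i hi k => ?_, fun z hz => ?_⟩
  · simp only [List.getD_eq_getElem _ _ (hl ▸ hi), List.getD_eq_getElem _ _ (hl ▸ hj)] at e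
    exact (hn.getElem_inj_iff).1 e
  · simp only [List.getD_append _ _ _ _ (A.length_toList ▸ hi),
      List.getD_eq_getElem _ _ (A.length_toList ▸ hi)]
    exact mem_toList.1 (List.getElem_mem _)
  · have k2 : i - A.toList.length < B.toList.length := by simp; omega
    simp only [List.getD_append_right _ _ _ _ (A.length_toList ▸ k), List.getD_eq_getElem _ _ k2]
    exact mem_toList.1 (List.getElem_mem _)
  · obtain ⟨l, h1, h2⟩ := List.getElem_of_mem (List.mem_append_left B.toList (mem_toList.2 hz))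
    exact ⟨l, hl ▸ h1, by simp only [List.getD_eq_getElem _ _ h1, h2]⟩

/-- The configuration only speaks of the vertices from `s` on, their degree `d` and forced edges. -/
def Jn (k : K) (s d : ℕ) : Prop :=
  ∀ i < k.n, (tb k.lq i = true → s ≤ i) ∧ tb k.lt i = false ∧ tb k.dy i = false ∧
    (tb k.dn i = true → s ≤ i) ∧ dig k.lo i = 0 ∧ (dig k.ex i = 0 ∨ (s ≤ i ∧ dig k.ex i = d)) ∧
    ∀ j < k.n, k.F i j = false ∧ (k.P i j = 0 ∨ (k.P i j = 3 ∧ (s ≤ i ∨ s ≤ j)))

instance (k : K) (s d : ℕ) : Decidable (Jn k s d) := by unfold Jn; infer_instance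

theorem sat_join {k : K} {s d : ℕ} (h : Jn k s d) {v : ℕ → α}
    (inj : ∀ i < k.n, ∀ j < k.n, v i = v j → i = j) (mem : ∀ i < k.n, v i ∈ E.Q ∨ v i ∈ E.T)
    (hq : ∀ i < k.n, s ≤ i → v i ∈ E.Q ∧ (tb k.dn i = true → v i ∉ E.Dr) ∧
      (dig k.ex i ≠ 0 → dg V τ (v i) = d))
    (hp : ∀ i < k.n, ∀ j < k.n, k.P i j = 3 → i ≠ j → s ≤ i → τ s(v i, v j) = 2)
    (al : k.al = true → ∀ z, z ∈ E.Q ∨ z ∈ E.T → ∃ l < k.n, v l = z) : Sat k V τ E v := by
  refine ⟨inj, mem, fun i hi e => (hq i hi ((h i hi).1 e)).1,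
    fun i hi e => absurd ((h i hi).2.1 ▸ e) (by decide),
    fun i hi e => absurd ((h i hi).2.2.1 ▸ e) (by decide),
    fun i hi e => ⟨(hq i hi ((h i hi).2.2.2.1 e)).1, (hq i hi ((h i hi).2.2.2.1 e)).2.1 e⟩,
    fun i hi => (h i hi).2.2.2.2.1 ▸ Nat.zero_le _, fun i hi e => ?_, fun i hi j hj ij => ?_,
    fun i hi j hj _ e => absurd (((h i hi).2.2.2.2.2.2 j hj).1 ▸ e) (by decide), al⟩
  · obtain ⟨a, b⟩ := (h i hi).2.2.2.2.2.1.resolve_left e
    rw [ds_Q (hq i hi a).1, (hq i hi a).2.2 e, b]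
  · rcases ((h i hi).2.2.2.2.2.2 j hj).2 with e | ⟨e, a⟩
    · rw [e]; simp
    · have : τ s(v i, v j) = 2 := by
        rcases a with a | a
        · exact hp i hi j hj e ij a
        · rw [Sym2.eq_swap]; exact hp j hj i hi (k.P_comm i j ▸ e) ij.symm a
      rw [e, this]; simp

theorem sat_one {k : K} {d : ℕ} (h : Jn k 0 d) (hn : k.n = 1) (ha : k.al = false) {u : α}
    (hu : u ∈ E.Q) (hd : tb k.dn 0 = true → u ∉ E.Dr) (he : dg V τ u = d) :
    Sat k V τ E fun _ => u :=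
  sat_join h (fun i hi j hj _ => by omega) (fun _ _ => Or.inl hu)
    (fun i hi _ => ⟨hu, fun e => hd (by rwa [show i = 0 by omega] at e), fun _ => he⟩)
    (fun i hi j hj _ ij => absurd (by omega) ij) fun e => absurd (ha ▸ e) (by decide)

end Pool.Agent.Lib.MP_efe3d7_co.H
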