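import Pool.Agent.Lib.MP_efe3d7_co.H.G0

/-! Deleting edges at one vertex. -/

set_option autoImplicit false

open Finset

namespace Pool.Agent.Lib.MP_efe3d7_co.H

variable {α : Type} [DecidableEq α] {V : Finset α} {τ : Sym2 α → Fin 3}

/-- Sets with at most two neighbours besides `z` whose edges to `z` are all soft. -/
structure S2Good (V : Finset α) (τ : Sym2 α → Fin 3) (z : α) (W Y : Finset α) : Prop where
  sub : Y ⊆ V.erase z
  ne : Y.Nonempty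
  sw : nb V τ z ∩ Y ⊆ W
  two : ((bd V τ Y).erase z).card ≤ 2

theorem s2_cov (z : α) (Y : Finset α) : Cov V τ Y (insert z ((bd V τ Y).erase z)) :=
  (cov_bd Y).mono (subset_insert_iff.2 Subset.rfl)

theorem s2_submod (z : α) (Y Y' : Finset α) :
    ((bd V τ (Y ∩ Y')).erase z).card + ((bd V τ (Y ∪ Y')).erase z).card ≤
      ((bd V τ Y).erase z).card + ((bd V τ Y').erase z).card := by
  rw [← card_union_add_card_inter, ← card_union_add_card_inter ((bd V τ Y).erase z)]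
  refine add_le_add (card_le_card fun v hv => ?_) (card_le_card fun v hv => ?_)
  · simp only [mem_union, mem_erase, mem_bd, mem_inter] at hv ⊢
    rcases hv with ⟨h0, ⟨a, ha, h1⟩, h2⟩ | ⟨h0, ⟨a, ha | ha, h1⟩, h2⟩
    · by_cases k : v ∈ Y
      · exact Or.inr ⟨h0, ⟨a, ha.2, h1⟩, fun e => h2 ⟨k, e⟩⟩
      · exact Or.inl ⟨h0, ⟨a, ha.1, h1⟩, k⟩
    · exact Or.inl ⟨h0, ⟨a, ha, h1⟩, fun e => h2 (Or.inl e)⟩
    · exact Or.inr ⟨h0, ⟨a, ha, h1⟩, fun e => h2 (Or.inr e)⟩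
  · simp only [mem_union, mem_erase, mem_bd, mem_inter] at hv ⊢
    obtain ⟨⟨h0, ⟨a, ha, h1⟩, _⟩, _, _, h2⟩ := hv
    exact ⟨⟨h0, ⟨a, ha.1, h1⟩, fun e => h2 (Or.inl e)⟩, h0, ⟨a, ha.2, h1⟩, fun e => h2 (Or.inr e)⟩

theorem S2Good.card (hc : Con3 V τ) {z : α} (hz : z ∈ V) {W Y : Finset α}
    (h1 : ∀ (Y S : Finset α) (w : α), Y ⊆ V.erase z → S.card ≤ 2 → Cov V τ Y (insert z S) →
      w ∈ W → nb V τ z ∩ Y = {w} → False) (g : S2Good V τ z W Y) : 2 ≤ (nb V τ z ∩ Y).card := by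
  have hV : Y ⊆ V := g.sub.trans (erase_subset _ _)
  by_contra k
  rcases (show (nb V τ z ∩ Y).card = 0 ∨ (nb V τ z ∩ Y).card = 1 by omega) with e | e
  · have := hc.three hV g.ne (S := (bd V τ Y).erase z) (fun a ha b hb => by
      refine (cov_bd Y a ha b hb).imp_right fun u => mem_erase.2 ⟨fun e' => ?_, u⟩
      have : a ∈ nb V τ z ∩ Y := mem_inter.2 ⟨nb_symm (hV ha) (e' ▸ hb), ha⟩
      rw [card_eq_zero.1 e] at this
      exact notMem_empty _ this) hz (fun u => (mem_erase.1 (g.sub u)).1 rfl) (notMem_erase _ _)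
    have := g.two
    omega
  · obtain ⟨w, hw⟩ := card_eq_one.1 e
    exact h1 Y _ w g.sub g.two (s2_cov z Y) (g.sw (hw ▸ mem_singleton_self w)) hw

/-- One half of the disjointness argument. -/
theorem S2Good.half {z w : α} {W Y Y' J : Finset α} (g : S2Good V τ z W Y)
    (g' : S2Good V τ z W Y') (h3 : 3 ≤ (nb V τ z \ (nb V τ z ∩ Y)).card)
    (hm : ∀ Z, S2Good V τ z W Z → nb V τ z ∩ Z ⊆ nb V τ z ∩ Y' → nb V τ z ∩ Z = nb V τ z ∩ Y')
    (hw : w ∈ Y) (hw' : w ∈ nb V τ z ∩ Y') (hV : ∀ v ∈ V, v ∈ Y ∨ v ∈ Y' ∨ v = z ∨ v ∈ J) :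
    ∃ s ∈ J, s ∉ (bd V τ Y).erase z := by
  by_contra k
  push Not at k
  have hZ : ∀ v ∈ V \ (Y ∪ insert z ((bd V τ Y).erase z)), v ∈ Y' := fun v hv => by
    simp only [mem_sdiff, mem_union, mem_insert, not_or] at hv
    have := hV v hv.1
    have := k v
    tauto
  have hne : ¬ nb V τ z \ (nb V τ z ∩ Y) ⊆ (bd V τ Y).erase z := fun e => by
    have := card_le_card e
    have := g.two
    omega
  obtain ⟨v, v1, v2⟩ := not_subset.1 hne
  have hs : nb V τ z ∩ (V \ (Y ∪ insert z ((bd V τ Y).erase z))) ⊆ nb V τ z ∩ Y' :=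
    fun u hu => mem_inter.2 ⟨(mem_inter.1 hu).1, hZ u (mem_inter.1 hu).2⟩
  have e := hm _ ⟨fun u hu => g'.sub (hZ u hu), ⟨v, ?_⟩, hs.trans g'.sw,
    (card_le_card (subset_insert_iff.1 (s2_cov z Y).compl.bd_sub)).trans g.two⟩ hs
  · rw [← e] at hw'
    exact (mem_sdiff.1 (mem_inter.1 hw').2).2 (mem_union_left _ hw)
  · simp only [mem_sdiff, mem_inter, not_and] at v1
    simp only [mem_sdiff, mem_union, mem_insert, not_or]
    exact ⟨nb_sub _ v1.1, v1.2 v1.1, (mem_nb.1 v1.1).2.1, v2⟩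

theorem soft_family (hc : Con3 V τ) (h4 : 4 ≤ V.card) {z : α} (hz : z ∈ V) {W : Finset α}
    (hW : W ⊆ nb V τ z)
    (h1 : ∀ (Y S : Finset α) (w : α), Y ⊆ V.erase z → S.card ≤ 2 → Cov V τ Y (insert z S) →
      w ∈ W → nb V τ z ∩ Y = {w} → False) :
    ∃ M : Finset (Finset α), (∀ m ∈ M, m ⊆ W ∧ 2 ≤ m.card) ∧
      (∀ m ∈ M, ∀ m' ∈ M, m ≠ m' → Disjoint m m') ∧
      ∀ τ' : Sym2 α → Fin 3,
        (∀ a ∈ V, ∀ b ∈ V, a ≠ z → b ≠ z → τ s(a, b) ≠ 0 → τ' s(a, b) ≠ 0) →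
        (∀ w ∈ nb V τ z, w ∉ W → τ' s(z, w) ≠ 0) → (∀ m ∈ M, ∃ w ∈ m, τ' s(z, w) ≠ 0) →
        3 ≤ ((nb V τ z).filter fun w => τ' s(z, w) ≠ 0).card → Con3 V τ' := by
  classical
  refine ⟨W.powerset.filter fun m => (∃ Y, S2Good V τ z W Y ∧ nb V τ z ∩ Y = m) ∧
    (∀ Z, S2Good V τ z W Z → nb V τ z ∩ Z ⊆ m → nb V τ z ∩ Z = m) ∧ 3 ≤ (nb V τ z \ m).card,
    fun m hm => ?_, fun m hm m' hm' hne => ?_, fun τ' t1 t2 t3 t4 => ?_⟩
  · obtain ⟨_, ⟨Y, g, rfl⟩, _⟩ := mem_filter.1 hm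
    exact ⟨g.sw, g.card hc hz h1⟩
  · obtain ⟨_, ⟨Y, g, rfl⟩, m1, m2⟩ := mem_filter.1 hm
    obtain ⟨_, ⟨Y', g', rfl⟩, m1', m2'⟩ := mem_filter.1 hm'
    refine disjoint_left.2 fun w hw hw' => ?_
    have i1 : nb V τ z ∩ (Y ∩ Y') ⊆ nb V τ z ∩ Y := inter_subset_inter_left inter_subset_left
    have i2 : nb V τ z ∩ (Y ∩ Y') ⊆ nb V τ z ∩ Y' := inter_subset_inter_left inter_subset_right
    have n3 : 3 ≤ ((bd V τ (Y ∩ Y')).erase z).card := by
      by_contra k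
      have g0 : S2Good V τ z W (Y ∩ Y') := ⟨inter_subset_left.trans g.sub,
        ⟨w, mem_inter.2 ⟨(mem_inter.1 hw).2, (mem_inter.1 hw').2⟩⟩, i1.trans g.sw, by omega⟩
      exact hne ((m1 _ g0 i1).symm.trans (m1' _ g0 i2))
    have n4 := s2_submod (V := V) (τ := τ) z Y Y'
    have n5 := g.two
    have n6 := g'.two
    have n7 := card_insert_le z ((bd V τ (Y ∪ Y')).erase z)
    have hV := hc.2 (Y ∪ Y') _ ((union_subset g.sub g'.sub).trans (erase_subset _ _))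
      (g.ne.mono subset_union_left) (by omega) (s2_cov z _)
    have hV' : ∀ v ∈ V, v ∈ Y ∨ v ∈ Y' ∨ v = z ∨ v ∈ (bd V τ (Y ∪ Y')).erase z := fun v hv => by
      simpa only [mem_union, mem_insert, or_assoc] using hV hv
    obtain ⟨s, s1, s2⟩ := g.half g' m2 m1' (mem_inter.1 hw).2 hw' hV'
    obtain ⟨s', s1', s2'⟩ := g'.half g m2' m1 (mem_inter.1 hw').2 hw
      fun v hv => or_left_comm.1 (hV' v hv)
    obtain rfl : s = s' := card_le_one.1 (by omega) s s1 s' s1'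
    simp only [mem_erase, mem_bd, mem_union] at s1 s2 s2'
    obtain ⟨h0, ⟨a, ha | ha, h2⟩, h3⟩ := s1
    · exact s2 ⟨h0, ⟨a, ha, h2⟩, fun e => h3 (Or.inl e)⟩
    · exact s2' ⟨h0, ⟨a, ha, h2⟩, fun e => h3 (Or.inr e)⟩
  · have cv : ∀ A S : Finset α, A ⊆ V → z ∉ A → Cov V τ' A S → Cov V τ A (insert z S) := by
      intro A S hA hzA h a ha b hb
      by_cases e : b = z
      · exact Or.inr (e ▸ mem_insert_self _ _)
      · obtain ⟨k1, k2, k3⟩ := mem_nb.1 hb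
        exact (h a ha b (mem_nb.2 ⟨k1, k2, t1 a (hA ha) b k1 (fun u => hzA (u ▸ ha)) e k3⟩)).imp_right
          mem_insert_of_mem
    have key : ∀ A S : Finset α, A ⊆ V → A.Nonempty → S.card ≤ 2 → z ∉ A → z ∉ S →
        Cov V τ' A S → False := by
      intro A S hA hne hS hzA hzS h
      have d : ∀ w ∈ A, τ' s(z, w) = 0 := fun w hw => by
        by_contra k
        exact (h w hw z (mem_nb.2 ⟨hz, fun u => hzA (u ▸ hw), Sym2.eq_swap ▸ k⟩)).elim hzA hzS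
      have g : S2Good V τ z W A := ⟨subset_erase.2 ⟨hA, hzA⟩, hne, fun w hw => by
        by_contra k
        exact t2 w (mem_inter.1 hw).1 k (d w (mem_inter.1 hw).2),
        (card_le_card (subset_insert_iff.1 (cv A S hA hzA h).bd_sub)).trans hS⟩
      obtain ⟨m, hm, hmin⟩ := exists_min_image (W.powerset.filter fun m =>
        (∃ Y, S2Good V τ z W Y ∧ nb V τ z ∩ Y = m) ∧ m ⊆ A) card
        ⟨_, mem_filter.2 ⟨mem_powerset.2 g.sw, ⟨A, g, rfl⟩, inter_subset_right⟩⟩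
      obtain ⟨k1, k2, k3⟩ := mem_filter.1 hm
      obtain ⟨w, w1, w2⟩ := t3 m (mem_filter.2 ⟨k1, k2, fun Z gZ hZ =>
        eq_of_subset_of_card_le hZ (hmin _ (mem_filter.2
          ⟨mem_powerset.2 gZ.sw, ⟨Z, gZ, rfl⟩, hZ.trans k3⟩)),
        t4.trans (card_le_card fun u hu => mem_sdiff.2
          ⟨(mem_filter.1 hu).1, fun e => (mem_filter.1 hu).2 (d u (k3 e))⟩)⟩)
      exact w2 (d w (k3 w1))
    refine con3_of_sep hc.1 fun A S C hA hC hS hp hAS hCS hAC cA cC => ?_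
    have sA : A ⊆ V := fun v hv => (hp v).2 (Or.inl hv)
    have sC : C ⊆ V := fun v hv => (hp v).2 (Or.inr (Or.inr hv))
    rcases (hp z).1 hz with e | e | e
    · exact key C S sC hC hS (hAC z e) (hAS z e) cC
    · obtain ⟨c, hc'⟩ := hC
      have k := cv A S sA (fun u => hAS z u e) cA
      rw [insert_eq_of_mem e] at k
      have := hc.three sA hA k (sC hc') (fun u => hAC c u hc') (hCS c hc')
      omega
    · exact key A S sA hA hS (fun u => hAC z u e) (hCS z e) cA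

end Pool.Agent.Lib.MP_efe3d7_co.H
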