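import Pool.Agent.Lib.MP_efe3d7_co.H.Soft1
import Pool.Agent.Lib.MP_efe3d7_co.H.Soft2

/-! Contracting a forced edge with soft parallel pairs. -/

set_option autoImplicit false

open Finset

namespace Pool.Agent.Lib.MP_efe3d7_co.H

variable {α : Type} [DecidableEq α] {V : Finset α} {τ : Sym2 α → Fin 3}

/-- Common neighbours joined to both vertices by forced edges. -/
def sft (V : Finset α) (τ : Sym2 α → Fin 3) (u v : α) : Finset α :=
  V.filter fun w => w ≠ u ∧ w ≠ v ∧ τ s(u, w) = 2 ∧ τ s(v, w) = 2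

/-- Replace the values on the pairs at `u`. -/
noncomputable def s5lift {β : Type} (u : α) (t : α → β) (y : Sym2 α → β) (e : Sym2 α) : β :=
  if h : u ∈ e then t (Sym2.Mem.other h) else y e

theorem s5lift_self {β : Type} (u : α) (t : α → β) (y : Sym2 α → β) (z : α) :
    s5lift u t y s(u, z) = t z := by
  have h : u ∈ s(u, z) := Sym2.mem_mk_left u z
  have h2 : Sym2.Mem.other h = z := Sym2.congr_right.1 (Sym2.other_spec h)
  rw [s5lift, dif_pos h, h2]

theorem s5lift_of_ne {β : Type} {u : α} (t : α → β) (y : Sym2 α → β) {a b : α} (ha : a ≠ u)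
    (hb : b ≠ u) : s5lift u t y s(a, b) = y s(a, b) := by
  have h : u ∉ s(a, b) := by simp [ha.symm, hb.symm]
  rw [s5lift, dif_neg h]

theorem s5_ind (u : α) (P : Sym2 α → Prop) (h1 : ∀ z, P s(u, z))
    (h2 : ∀ a b, a ≠ u → b ≠ u → P s(a, b)) (e : Sym2 α) : P e := by
  induction e using Sym2.ind with
  | h a b =>
    by_cases ha : a = u
    · rw [ha]; exact h1 b
    by_cases hb : b = u
    · rw [hb, Sym2.eq_swap]; exact h1 a
    · exact h2 a b ha hb

theorem s5lift_upd {β : Type} (u : α) (t : α → β) (y : Sym2 α → β) (w : α) (s : β) :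
    s5lift u (Function.update t w s) y = Function.update (s5lift u t y) s(u, w) s := by
  funext e
  refine s5_ind u (fun e => s5lift u (Function.update t w s) y e =
    Function.update (s5lift u t y) s(u, w) s e) (fun z => ?_) (fun a b ha hb => ?_) e
  · by_cases hz : z = w
    · rw [hz, s5lift_self, Function.update_self, Function.update_self]
    · rw [s5lift_self, Function.update_of_ne hz,
        Function.update_of_ne (fun k => hz (Sym2.congr_right.1 k)), s5lift_self]
  · rw [s5lift_of_ne _ _ ha hb, Function.update_of_ne (by simp [ha, hb]), s5lift_of_ne _ _ ha hb]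

theorem s5_wt_par (x : ℝ) {s t : Fin 3} (h : ¬(s = 2 ∧ t = 2)) :
    wt x (par s t) = wt x s * wt x t := by
  have k : ∀ s : Fin 3, s = 0 ∨ s = 1 ∨ s = 2 := by decide
  have p00 : par 0 0 = 0 := by decide
  have p01 : par 0 1 = 1 := by decide
  have p02 : par 0 2 = 2 := by decide
  have p10 : par 1 0 = 1 := by decide
  have p11 : par 1 1 = 1 := by decide
  have p12 : par 1 2 = 1 := by decide
  have p20 : par 2 0 = 2 := by decide
  have p21 : par 2 1 = 1 := by decide
  rcases k s with rfl | rfl | rfl <;> rcases k t with rfl | rfl | rfl <;>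
    simp_all [wt0, wt1, wt2]

theorem s5_mem {u v w : α} :
    w ∈ sft V τ u v ↔ w ∈ V ∧ w ≠ u ∧ w ≠ v ∧ τ s(u, w) = 2 ∧ τ s(v, w) = 2 := by simp [sft]

variable [Fintype α] {x : ℝ}

theorem soft_edge (h0 : 0 < x) (h1 : x ≤ 1 / 2) (hc : Con3 V τ) (h5 : 5 ≤ V.card) {u v : α}
    (hu : u ∈ V) (hv : v ∈ V) (huv : u ≠ v) (ht : τ s(u, v) = 2)
    (hcon : Con3 (V.erase v) (mg τ u v))
    (hs : ∀ (Y S : Finset α) (w : α), Y ⊆ V → u ∉ Y → v ∉ Y → S.card ≤ 2 →
      Cov V τ Y (insert u (insert v S)) → w ∈ Y → w ∈ sft V τ u v →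
      (∀ y ∈ Y, y ∈ nb V τ u ∨ y ∈ nb V τ v → y = w) → False)
    (hdeg : 3 ≤ (nb (V.erase v) (mg τ u v) u \ sft V τ u v).card + (sft V τ u v).card / 2) :
    Red x V τ := by
  refine red_con h0 hc hu hv huv ht fun sm => ?_
  have n2 : (2 : Fin 3) ≠ 0 := by decide
  have hvu : v ∈ nb V τ u := mem_nb.2 ⟨hv, huv.symm, by rw [ht]; exact n2⟩
  have hW : sft V τ u v ⊆ nb (V.erase v) (mg τ u v) u := fun w hw => by
    obtain ⟨a, b, c, d, _⟩ := s5_mem.1 hw
    exact mem_nb_mg_self.2 ⟨b, c, Or.inl (mem_nb.2 ⟨a, b, by rw [d]; exact n2⟩)⟩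
  obtain ⟨M, m1, m2, m3⟩ := soft_family hcon (by rw [card_erase_of_mem hv]; omega)
    (mem_erase.2 ⟨huv, hu⟩) hW (fun Y S w hY hS hcov hw he => by
      have k : ∀ y ∈ Y, y ≠ u ∧ y ≠ v ∧ y ∈ V := fun y hy => by
        simpa only [mem_erase] using hY hy
      have hwY : w ∈ Y := (mem_inter.1 (he ▸ mem_singleton_self w)).2
      refine hs Y S w (fun y hy => (k y hy).2.2) (fun e => (k u e).1 rfl)
        (fun e => (k v e).2.1 rfl) hS (fun a ha b hb => ?_) hwY hw fun y hy hn => ?_
      · by_cases e : b = v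
        · exact Or.inr (by simp [e])
        · refine (hcov a ha b ((mem_nb_mg (k a ha).1 (k a ha).2.1 hu hv).2
            ⟨e, Or.inl hb⟩)).imp_right fun q => ?_
          simp only [mem_insert] at q ⊢
          tauto
      · rw [← mem_singleton, ← he]
        exact mem_inter.2 ⟨mem_nb_mg_self.2 ⟨(k y hy).1, (k y hy).2.1, hn⟩, hy⟩)
  have key := se_ind h0 h1 (fun t => ff x (V.erase v) (s5lift u t fun e => wt x (τ e)))
    (fun t w => ⟨_, _, fun s => by
      rw [s5lift_upd, ff_aff, sub_eq_add_neg, ← mul_neg]⟩) _ (sft V τ u v) M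
    (fun w => wt x (τ s(u, w)) * wt x (τ s(v, w))) rfl m1 m2
    (fun w hw => by
      obtain ⟨_, _, _, d, e⟩ := s5_mem.1 hw
      rw [d, e, wt2]; ring) (fun σ s1 s2 => by
      set τ' := s5lift u (fun w => if w ∈ sft V τ u v then σ w else mg τ u v s(u, w)) τ with hτ'
      have t1 : ∀ w, τ' s(u, w) = if w ∈ sft V τ u v then σ w else mg τ u v s(u, w) :=
        fun w => s5lift_self _ _ _ _
      have t2 : ∀ a b, a ≠ u → b ≠ u → τ' s(a, b) = τ s(a, b) :=
        fun a b ha hb => s5lift_of_ne _ _ ha hb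
      have c3 : Con3 (V.erase v) τ' := by
        refine m3 τ' (fun a _ b _ ha hb q => ?_) (fun w hw q => ?_) (fun m hm => ?_) ?_
        · rwa [t2 a b ha hb, ← mg_of_ne τ v ha hb]
        · rw [t1, if_neg q]
          exact (mem_nb.1 hw).2.2
        · obtain ⟨w, hw, q⟩ := s1 m hm
          exact ⟨w, hw, by rwa [t1, if_pos ((m1 m hm).1 hw)]⟩
        · have a1 : (nb (V.erase v) (mg τ u v) u \ sft V τ u v) ∪
              (sft V τ u v).filter (fun w => ¬ σ w = 0) ⊆
              (nb (V.erase v) (mg τ u v) u).filter fun w => τ' s(u, w) ≠ 0 := by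
            intro w hw
            rcases mem_union.1 hw with q | q
            · obtain ⟨q1, q2⟩ := mem_sdiff.1 q
              exact mem_filter.2 ⟨q1, by rw [t1, if_neg q2]; exact (mem_nb.1 q1).2.2⟩
            · obtain ⟨q1, q2⟩ := mem_filter.1 q
              exact mem_filter.2 ⟨hW q1, by rwa [t1, if_pos q1]⟩
          have a2 := card_le_card a1
          rw [card_union_of_disjoint
            (disjoint_left.2 fun w q1 q2 => (mem_sdiff.1 q1).2 (mem_filter.1 q2).1)] at a2
          have a3 := card_filter_add_card_filter_not (s := sft V τ u v) fun w => σ w = 0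
          omega
      have lt : ne (V.erase v) τ' < ne V τ := by
        refine ne_mg_lt hu hvu (s5_ind u _ (fun z q => ?_) fun a b ha hb q => ?_)
        · by_cases hz : z ∈ sft V τ u v
          · exact (mem_nb.1 (hW hz)).2.2
          · rwa [t1, if_neg hz] at q
        · rwa [mg_of_ne τ v ha hb, ← t2 a b ha hb]
      have p := sm _ _ c3 lt
      have q : ∀ b ∈ V.erase v, b ≠ u → wt x (τ' s(u, b)) =
          if b ∈ sft V τ u v then wt x (σ b) else wt x (τ s(u, b)) * wt x (τ s(v, b)) := by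
        intro b hb hbu
        rw [t1]
        split_ifs with k
        · rfl
        · rw [mg_self, s5_wt_par x fun e =>
            k (s5_mem.2 ⟨mem_of_mem_erase hb, hbu, ne_of_mem_erase hb, e⟩)]
      refine p.trans_eq (ff_congr fun a ha b hb hab => ?_)
      by_cases e1 : a = u
      · subst e1
        rw [s5lift_self, q b hb hab.symm]
      by_cases e2 : b = u
      · subst e2
        rw [Sym2.eq_swap, s5lift_self, q a ha hab]
      · rw [t2 a b e1 e2, s5lift_of_ne _ _ e1 e2])
  refine key.trans_eq (congrArg _ (funext (s5_ind u _ (fun z => ?_) fun a b ha hb => ?_)))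
  · rw [s5lift_self, mergeW_self]
  · rw [s5lift_of_ne _ _ ha hb, mergeW_of_ne _ v ha hb]

end Pool.Agent.Lib.MP_efe3d7_co.H
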