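import Pool.Agent.Lib.MP_efe3d7_co.H.G0

/-! Sets of vertices of degree at least five with three neighbours. -/

set_option autoImplicit false

open Finset

namespace Pool.Agent.Lib.MP_efe3d7_co.H

variable {α : Type} [DecidableEq α] {V : Finset α} {τ : Sym2 α → Fin 3}

theorem soft6_sub {B U : Finset α} (hcov : Cov V τ B U) {u : α} (hu : u ∈ B) : nb V τ u \ B ⊆ U :=
  fun s hs => (hcov u hu s (mem_sdiff.1 hs).1).resolve_left (mem_sdiff.1 hs).2

theorem exists_unspoiled {B U : Finset α} (hB : B ⊆ V) (hne : B.Nonempty) (h3 : U.card ≤ 3)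
    (hcov : Cov V τ B U) (h5 : ∀ v ∈ B, 5 ≤ dg V τ v) :
    ∃ u ∈ B, ∃ v ∈ B, v ∈ nb V τ u ∧ ∀ s ∈ nb V τ u, s ∉ B → nb V τ s ∩ B ≠ {u, v} := by
  by_contra h
  push Not at h
  have key : ∀ u ∈ B, U ⊆ nb V τ u := fun u hu => by
    have : Nonempty α := ⟨u⟩
    choose! f h1 h2 h4 using h u hu
    have h6 : (nb V τ u ∩ B).card ≤ (nb V τ u \ B).card := by
      refine card_le_card_of_injOn f (fun p hp => ?_) fun p hp p' hp' e => ?_
      · obtain ⟨a, b⟩ := mem_inter.1 (mem_coe.1 hp)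
        exact mem_coe.2 (mem_sdiff.2 ⟨h1 p b a, h2 p b a⟩)
      · obtain ⟨a, b⟩ := mem_inter.1 (mem_coe.1 hp)
        obtain ⟨a', b'⟩ := mem_inter.1 (mem_coe.1 hp')
        have h7 : p ∈ ({u, p'} : Finset α) := by
          rw [← h4 p' b' a', ← e, h4 p b a]
          simp
        exact mem_singleton.1 ((mem_insert.1 h7).resolve_left (mem_nb.1 a).2.1)
    have h7 := card_inter_add_card_sdiff (nb V τ u) B
    have h8 : 5 ≤ (nb V τ u).card := h5 u hu
    exact eq_of_subset_of_card_le (soft6_sub hcov hu) (by omega) ▸ sdiff_subset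
  obtain ⟨u, hu⟩ := hne
  have h7 := card_inter_add_card_sdiff (nb V τ u) B
  have h8 : 5 ≤ (nb V τ u).card := h5 u hu
  have h9 := card_le_card (soft6_sub hcov hu)
  obtain ⟨a, ha, b, hb, hab⟩ := one_lt_card.1 (by omega : 1 < (nb V τ u ∩ B).card)
  rw [mem_inter] at ha hb
  obtain ⟨s, h1, h2, h4⟩ := h u hu b hb.2 hb.1
  have h6 : a ∈ ({u, b} : Finset α) := h4 ▸ mem_inter.2
    ⟨nb_symm (hB ha.2) (key a ha.2 (soft6_sub hcov hu (mem_sdiff.2 ⟨h1, h2⟩))), ha.2⟩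
  exact hab (mem_singleton.1 ((mem_insert.1 h6).resolve_left (mem_nb.1 ha.1).2.1))

theorem twins_join (hc : Con3 V τ) {B U : Finset α} (hB : B ⊆ V) (hne : B.Nonempty)
    (h3 : U.card ≤ 3) (hcov : Cov V τ B U) (h5 : ∀ v ∈ B, 5 ≤ dg V τ v)
    (hout : 3 ≤ (V \ B).card)
    (tw : ∀ u ∈ B, ∀ v ∈ B, v ∈ nb V τ u → (∀ s ∈ nb V τ u, s ∉ B → nb V τ s ∩ B ≠ {u, v}) →
      τ s(u, v) = 2 ∧ (nb V τ u).erase v = (nb V τ v).erase u ∧ ((nb V τ u).erase v).card = 5 ∧
        ∀ w ∈ (nb V τ u).erase v, τ s(u, w) = 2 ∧ τ s(v, w) = 2) :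
    ∃ K W : Finset α, K ⊆ B ∧ K.card = 4 ∧ W.card = 3 ∧ Disjoint K W ∧
      (∀ u ∈ K, nb V τ u = K.erase u ∪ W) ∧
      ∀ u ∈ K, ∀ v, v ∈ K ∨ v ∈ W → u ≠ v → τ s(u, v) = 2 := by
  obtain ⟨u, hu, v, hv, huv, hs⟩ := exists_unspoiled hB hne h3 hcov h5
  obtain ⟨t1, t2, t3, t4⟩ := tw u hu v hv huv hs
  have h1 := fun p (hp : p ∈ nb V τ u ∩ B) => tw u hu p (mem_inter.1 hp).2 (mem_inter.1 hp).1
    fun s a b e => by
      have h2 : s ∈ (nb V τ v).erase u := t2 ▸ mem_erase.2 ⟨fun e' => b (e' ▸ hv), a⟩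
      have h4 : v ∈ ({u, p} : Finset α) :=
        e ▸ mem_inter.2 ⟨nb_symm (hB hv) (mem_of_mem_erase h2), hv⟩
      obtain rfl := mem_singleton.1 ((mem_insert.1 h4).resolve_left (mem_nb.1 huv).2.1)
      exact hs s a b e
  have h0 := not_mem_nb (V := V) (τ := τ) u
  have h2 : ∀ a ∈ insert u (nb V τ u ∩ B),
      nb V τ a = (insert u (nb V τ u ∩ B)).erase a ∪ nb V τ u \ B := fun a ha => by
    rcases mem_insert.1 ha with rfl | ha
    · rw [erase_insert fun h => h0 (mem_inter.1 h).1, union_comm, sdiff_union_inter]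
    · ext w
      have h4 := Finset.ext_iff.1 (h1 a ha).2.1 w
      have h6 := nb_symm (hB hu) (mem_inter.1 ha).1
      have h7 := not_mem_nb (V := V) (τ := τ) a
      simp only [mem_erase, mem_union, mem_insert, mem_inter, mem_sdiff] at h4 ha ⊢
      grind
  have hK : insert u (nb V τ u ∩ B) ⊆ B := insert_subset hu inter_subset_right
  have h4 : 3 ≤ (nb V τ u \ B).card :=
    hc.three' (hK.trans hB) (insert_nonempty _ _) (fun a ha b hb => by
      rw [h2 a ha, mem_union] at hb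
      exact hb.imp_left mem_of_mem_erase) sdiff_subset hout fun t ht h => (mem_sdiff.1 ht).2 (hK h)
  have h6 := card_le_card (soft6_sub hcov hu)
  have h7 := card_inter_add_card_sdiff (nb V τ u) B
  have h8 := card_erase_add_one huv
  refine ⟨insert u (nb V τ u ∩ B), nb V τ u \ B, hK, ?_, by omega,
    disjoint_sdiff.mono_left hK, h2, fun a ha b hb hab => ?_⟩
  · rw [card_insert_of_notMem fun h => h0 (mem_inter.1 h).1]
    omega
  have h9 : b ≠ u → b ∈ nb V τ u := fun h => by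
    simp only [mem_insert, mem_inter, mem_sdiff] at hb
    tauto
  rcases mem_insert.1 ha with rfl | ha
  · by_cases e : b = v
    · exact e ▸ t1
    · exact (t4 b (mem_erase.2 ⟨e, h9 hab.symm⟩)).1
  · by_cases e : b = u
    · rw [e, Sym2.eq_swap]
      exact (h1 a ha).1
    · exact ((h1 a ha).2.2.2 b (mem_erase.2 ⟨hab.symm, h9 e⟩)).2

end Pool.Agent.Lib.MP_efe3d7_co.H
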