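import Pool.Agent.Lib.MP_efe3d7_co.H.Soft4
import Pool.Agent.Lib.MP_efe3d7_co.H.Soft5
import Pool.Agent.Lib.MP_efe3d7_co.H.Soft6

/-! Fragments with large degrees are reducible. -/

set_option autoImplicit false

open Finset

namespace Pool.Agent.Lib.MP_efe3d7_co.H

variable {α : Type} [DecidableEq α] {V : Finset α} {τ : Sym2 α → Fin 3}

theorem soft7_cubic {Q T : Finset α} (h : Big V τ Q T) {u v p : α} (hu : u ∈ core V τ Q T)
    (hv : v ∈ core V τ Q T) (huv : u ≠ v) (hpu : p ∈ nb V τ u) (hpv : p ∈ nb V τ v) (hp : p ∈ Q)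
    (h3 : dg V τ p = 3) : p ∉ core V τ Q T ∧ nb V τ p ∩ core V τ Q T = {u, v} := by
  have hc : p ∉ core V τ Q T := ((h.deg p hp).resolve_left (by omega)).2
  refine ⟨hc, ?_⟩
  have k := h.min.1
  obtain ⟨t, ht, e⟩ : ∃ t ∈ T, nb V τ t ∩ Q = {p} := by
    by_contra n
    exact hc (mem_core.2 ⟨hp, fun t ht e => n ⟨t, ht, e⟩⟩)
  have huQ := (mem_core.1 hu).1
  have hvQ := (mem_core.1 hv).1
  have htQ : t ∉ Q := fun e => disjoint_left.1 k.dis e ht
  have a1 : u ∈ nb V τ p := nb_symm (k.subQ huQ) hpu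
  have a2 : v ∈ nb V τ p := nb_symm (k.subQ hvQ) hpv
  have a3 : t ∈ nb V τ p :=
    nb_symm (k.subT ht) (mem_inter.1 (e ▸ mem_singleton_self p : p ∈ nb V τ t ∩ Q)).1
  have a4 : t ≠ u := fun e => htQ (e ▸ huQ)
  have a5 : t ≠ v := fun e => htQ (e ▸ hvQ)
  have a6 : ({t, u, v} : Finset α) = nb V τ p := by
    refine eq_of_subset_of_card_le (by simp [insert_subset_iff, a1, a2, a3]) ?_
    rw [card_insert_of_notMem (by simp [a4, a5]), card_pair huv]
    exact h3.le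
  rw [← a6]
  ext z
  simp only [mem_inter, mem_insert, mem_singleton]
  constructor
  · rintro ⟨rfl | e, k2⟩
    · exact absurd (mem_core.1 k2).1 htQ
    · exact e
  · rintro (rfl | rfl)
    · exact ⟨Or.inr (Or.inl rfl), hu⟩
    · exact ⟨Or.inr (Or.inr rfl), hv⟩

theorem soft7_fin {t : Fin 3} (h0 : t ≠ 0) (h2 : t ≠ 2) : t = 1 := by
  revert t; decide

theorem soft7_sft {u v w : α} (h : w ∈ sft V τ u v) :
    w ∈ (nb V τ u).erase v ∧ w ∈ (nb V τ v).erase u ∧ τ s(u, w) = 2 ∧ τ s(v, w) = 2 := by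
  obtain ⟨a, b, c, d, e⟩ := mem_filter.1 h
  exact ⟨mem_erase.2 ⟨c, mem_nb.2 ⟨a, b, by rw [d]; decide⟩⟩,
    mem_erase.2 ⟨b, mem_nb.2 ⟨a, c, by rw [e]; decide⟩⟩, d, e⟩

variable [Fintype α] {x : ℝ}

theorem Big.twin (h1 : 1 / 4 ≤ x) (h2 : x ≤ 1 / 2) {Q T : Finset α} (h : Big V τ Q T)
    (nr : ¬ Red x V τ) {u v : α} (hu : u ∈ core V τ Q T) (hv : v ∈ core V τ Q T)
    (huv : v ∈ nb V τ u)
    (hs : ∀ s ∈ nb V τ u, s ∉ core V τ Q T → nb V τ s ∩ core V τ Q T ≠ {u, v}) :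
    τ s(u, v) = 2 ∧ (nb V τ u).erase v = (nb V τ v).erase u ∧
      (((nb V τ u).erase v).card = 4 ∨ ((nb V τ u).erase v).card = 5) ∧
      ∀ w ∈ (nb V τ u).erase v, τ s(u, w) = 2 ∧ τ s(v, w) = 2 := by
  have k := h.min.1
  have huQ := (mem_core.1 hu).1
  have hvQ := (mem_core.1 hv).1
  have huV := k.subQ huQ
  have hvV := k.subQ hvQ
  have hne : u ≠ v := (mem_nb.1 huv).2.1.symm
  have du : 5 ≤ dg V τ u := (h.deg u huQ).resolve_right fun e => e.2 hu
  have dv : 5 ≤ dg V τ v := (h.deg v hvQ).resolve_right fun e => e.2 hv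
  have hard : ∀ a ∈ core V τ Q T, ∀ p ∈ nb V τ a, (p ∈ Q → dg V τ p ≠ 3) → τ s(a, p) = 2 := by
    intro a ha p hp h3
    by_contra n
    obtain ⟨b1, b2, b3⟩ := mem_nb.1 hp
    exact nr (red_del h1 h.con (k.subQ (mem_core.1 ha).1) b1 b2.symm (soft7_fin b3 n)
      (h.del ha hp h3))
  have t2 : τ s(u, v) = 2 := hard u hu v huv fun _ => by omega
  have hdeg : (nb (V.erase v) (mg τ u v) u \ sft V τ u v).card + (sft V τ u v).card / 2 ≤ 2 := by
    by_contra n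
    refine nr (soft_edge (by linarith) h2 h.con k.five huV hvV hne t2 (h.contr hu hv huv hs)
      (fun Y S w a1 a2 a3 a4 a5 a6 a7 a8 => ?_) (by omega))
    obtain ⟨b1, b2, -⟩ := soft7_sft a7
    obtain ⟨c1, c2⟩ := h.single hu hv hne a1 a2 a3 a4 a5 a6 (mem_of_mem_erase b1)
      (mem_of_mem_erase b2) a8
    exact hs w (mem_of_mem_erase b1) c1 c2
  have sA : (nb V τ u).erase v ⊆ nb (V.erase v) (mg τ u v) u := fun z hz =>
    mem_nb_mg_self.2 ⟨(mem_nb.1 (mem_of_mem_erase hz)).2.1, ne_of_mem_erase hz,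
      Or.inl (mem_of_mem_erase hz)⟩
  have sB : (nb V τ v).erase u ⊆ nb (V.erase v) (mg τ u v) u := fun z hz =>
    mem_nb_mg_self.2 ⟨ne_of_mem_erase hz, (mem_nb.1 (mem_of_mem_erase hz)).2.1,
      Or.inr (mem_of_mem_erase hz)⟩
  have wA : sft V τ u v ⊆ (nb V τ u).erase v := fun z hz => (soft7_sft hz).1
  have wB : sft V τ u v ⊆ (nb V τ v).erase u := fun z hz => (soft7_sft hz).2.1
  have cA : ((nb V τ u).erase v).card + 1 = dg V τ u := card_erase_add_one huv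
  have cB : ((nb V τ v).erase u).card + 1 = dg V τ v := card_erase_add_one (nb_symm huV huv)
  have cN := card_sdiff_add_card_eq_card (wA.trans sA)
  have lA := card_le_card sA
  have lB := card_le_card sB
  have lW := card_le_card wA
  by_cases e0 : (nb (V.erase v) (mg τ u v) u \ sft V τ u v).card = 0
  · have eA : sft V τ u v = (nb V τ u).erase v := eq_of_subset_of_card_le wA (by omega)
    have eB : sft V τ u v = (nb V τ v).erase u := eq_of_subset_of_card_le wB (by omega)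
    exact ⟨t2, eA.symm.trans eB, by omega, fun w hw => (soft7_sft (eA ▸ hw)).2.2⟩
  · exfalso
    have eA := eq_of_subset_of_card_le sA (by omega)
    have eB := eq_of_subset_of_card_le sB (by omega)
    obtain ⟨p, hp⟩ := card_pos.1 (Nat.pos_of_ne_zero e0)
    obtain ⟨p1, p2⟩ := mem_sdiff.1 hp
    have pA : p ∈ (nb V τ u).erase v := eA ▸ p1
    have pB : p ∈ (nb V τ v).erase u := eB ▸ p1
    have pu := mem_of_mem_erase pA
    have pv := mem_of_mem_erase pB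
    have h3 : p ∈ Q → dg V τ p ≠ 3 := fun a b =>
      have c := soft7_cubic h hu hv hne pu pv a b
      hs p pu c.1 c.2
    exact p2 (mem_filter.2 ⟨nb_sub _ pu, ne_of_mem_erase pB, ne_of_mem_erase pA,
      hard u hu p pu h3, hard v hv p pv h3⟩)

theorem soft (h1 : 1 / 4 ≤ x) (h2 : x ≤ 1 / 2) {Q T : Finset α} (h : Big V τ Q T)
    (k24 : ∀ u ∈ core V τ Q T, ∀ v ∈ core V τ Q T, u ≠ v → τ s(u, v) = 2 →
      (nb V τ u).erase v = (nb V τ v).erase u → ((nb V τ u).erase v).card = 4 →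
      (∀ w ∈ (nb V τ u).erase v, τ s(u, w) = 2 ∧ τ s(v, w) = 2) → Red x V τ)
    (k4j : ∀ K W : Finset α, K ⊆ core V τ Q T → K.card = 4 → W.card = 3 → Disjoint K W →
      (∀ u ∈ K, nb V τ u = K.erase u ∪ W) →
      (∀ u ∈ K, ∀ v, v ∈ K ∨ v ∈ W → u ≠ v → τ s(u, v) = 2) → Red x V τ) :
    Red x V τ := by
  by_contra nr
  obtain ⟨U, u3, ucov⟩ := h.slots
  have hq := h.q0
  have hsub : core V τ Q T ⊆ Q := sdiff_subset
  obtain ⟨K, W, k1, k2, k3, k4, k5, k6⟩ := twins_join h.con (hsub.trans h.min.1.subQ)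
    (card_pos.1 (by omega)) u3 ucov (fun v hv => (h.deg v (hsub hv)).resolve_right fun e => e.2 hv)
    (h.min.1.cT ▸ card_le_card fun t ht => mem_sdiff.2 ⟨h.min.1.subT ht, fun e =>
      disjoint_left.1 h.min.1.dis (hsub e) ht⟩)
    fun u hu v hv huv hs => by
      obtain ⟨a1, a2, a3, a4⟩ := h.twin h1 h2 nr hu hv huv hs
      exact ⟨a1, a2, a3.resolve_left fun k =>
        nr (k24 u hu v hv (mem_nb.1 huv).2.1.symm a1 a2 k a4), a4⟩
  exact nr (k4j K W k1 k2 k3 k4 k5 k6)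

end Pool.Agent.Lib.MP_efe3d7_co.H
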