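import Pool.Agent.Lib.MP_efe3d7_co.H.All
import Pool.Agent.Lib.MP_efe3d7_co.H.Roo
import Pool.Agent.Lib.MP_efe3d7_co.H.Fr5
import Pool.Agent.Lib.MP_efe3d7_co.H.Soft7
import Pool.Agent.Lib.MP_efe3d7_co.H.FanM

/-! Every member of the class is reducible. -/

set_option autoImplicit false

open Finset

namespace Pool.Agent.Lib.MP_efe3d7_co.H

variable {α : Type} [Fintype α] [DecidableEq α] {x : ℝ} {V : Finset α} {τ : Sym2 α → Fin 3}

theorem red_four (h1 : 1 / 4 ≤ x) (h2 : x ≤ 1 / 2) (hc : Con3 V τ) (h4 : V.card = 4) :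
    Red x V τ := by
  obtain ⟨a, -⟩ : V.Nonempty := card_pos.1 (by omega)
  obtain ⟨v, inj, mem, -, sur⟩ := enum2 a (disjoint_empty_right V)
  rw [h4, card_empty] at inj sur
  rw [h4] at mem
  have f : ∀ {P : Prop}, false = true → P := fun h => by cases h
  refine valid_K4 h1 h2 V τ (envF V) v ⟨ok_F0 hc h4.ge, f, f, f, f, f⟩
    (sat_join (s := 0) (d := 0) (by decide) inj (fun i hi => Or.inl (mem i hi))
      (fun i hi _ => ⟨mem i hi, fun _ => notMem_empty _, fun e => absurd (dig_zero i) e⟩)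
      (fun i _ j _ e => absurd ((dig_zero _).symm.trans e) (by decide)) fun _ z hz => ?_)
  exact sur z (hz.resolve_right (notMem_empty _))

theorem red_free (h1 : 1 / 4 ≤ x) (h2 : x ≤ 1 / 2) (hc : Con3 V τ) (h5 : 5 ≤ V.card)
    (h : NoThick V τ) : Red x V τ := by
  by_cases k1 : ∃ u ∈ V, ∃ v ∈ V, u ≠ v ∧ τ s(u, v) = 2
  · obtain ⟨u, hu, v, hv, huv, e⟩ := k1
    exact h.red_forced (by linarith) hc h5 hu hv huv e
  by_cases k2 : ∀ v ∈ V, dg V τ v ≠ 3
  · exact h.red_nocubic h1 hc h5 k2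
  push Not at k1 k2
  obtain ⟨u, hu, e⟩ := k2
  have f : ∀ {P : Prop}, false = true → P := fun h => by cases h
  exact valid_F h1 h2 V τ (envF V) _ ⟨ok_F hc h h5 k1, f, fun _ w hw h3 => ok_W hc h h5 hw h3,
    f, f, f⟩ (sat_one (d := 3) (by decide) rfl rfl hu (fun _ => notMem_empty _) e)

theorem red_big (h1 : 1 / 4 ≤ x) (h2 : x ≤ 1 / 2) {Q T : Finset α} (h : Big V τ Q T)
    (o : Ok2 ⟨true, false, true, true, false, false⟩ V τ (envR V τ Q T)) : Red x V τ := by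
  have nq : ∀ u ∈ core V τ Q T, ∀ z ∈ nb V τ u, z ∈ Q ∨ z ∈ T :=
    fun u hu z hz => h.min.1.cov u (mem_sdiff.1 hu).1 z hz
  refine soft h1 h2 h (fun a ha b hb ab e1 e2 e3 e4 => ?_) fun C W c1 c2 c3 c4 c5 c6 => ?_
  · have dis : Disjoint ((nb V τ a).erase b) {a, b} := disjoint_left.2 fun z hz k => by
      rcases mem_insert.1 k with rfl | k
      · exact not_mem_nb _ (mem_of_mem_erase hz)
      · exact ne_of_mem_erase hz (mem_singleton.1 k)
    obtain ⟨v, inj, m1, m2, -⟩ := enum2 a dis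
    rw [e3, card_pair ab] at inj m2
    rw [e3] at m1
    have hV : ∀ u ∈ core V τ Q T, u ∈ V := fun u hu => h.min.1.subQ (mem_sdiff.1 hu).1
    have ba : b ∈ nb V τ a := mem_nb.2 ⟨hV b hb, ab.symm, by rw [e1]; decide⟩
    have da : dg V τ a = 5 := by rw [dg, ← card_erase_add_one ba, e3]
    have db : dg V τ b = 5 := by rw [dg, ← card_erase_add_one (nb_symm (hV a ha) ba), ← e2, e3]
    have m3 : ∀ i < 6, 4 ≤ i → v i = a ∨ v i = b := fun i hi k => by simpa using m2 i hi k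
    have m4 : ∀ i < 6, 4 ≤ i → v i ∈ core V τ Q T := fun i hi k => by
      rcases m3 i hi k with e | e <;> rwa [e]
    refine valid_k24 h1 h2 V τ _ v o (sat_join (s := 4) (d := 5) (by decide +kernel) inj
      (fun i hi => ?_) (fun i hi k => ⟨(mem_sdiff.1 (m4 i hi k)).1,
        fun _ => (mem_sdiff.1 (m4 i hi k)).2, fun _ => ?_⟩) (fun i hi j hj _ ij k => ?_)
      fun e => by cases e)
    · by_cases k : i < 4
      · exact nq a ha _ (mem_of_mem_erase (m1 i k))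
      · exact Or.inl (mem_sdiff.1 (m4 i hi (not_lt.1 k))).1
    · rcases m3 i hi k with e | e <;> rwa [e]
    · by_cases k' : j < 4
      · rcases m3 i hi k with e | e <;> rw [e]
        exacts [(e4 _ (m1 j k')).1, (e4 _ (m1 j k')).2]
      · have ne : v i ≠ v j := fun e => ij (inj i hi j hj e)
        rcases m3 i hi k with e | e <;> rcases m3 j hj (not_lt.1 k') with e' | e' <;>
          rw [e, e'] at ne ⊢
        exacts [absurd rfl ne, e1, Sym2.eq_swap ▸ e1, absurd rfl ne]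
  · obtain ⟨a, ha⟩ : C.Nonempty := card_pos.1 (by omega)
    obtain ⟨v, inj, m1, m2, -⟩ := enum2 a c4.symm
    rw [c2, c3] at inj m2
    rw [c3] at m1
    refine valid_k34 h1 h2 V τ _ v o (sat_join (s := 3) (d := 6) (by decide +kernel) inj
      (fun i hi => ?_) (fun i hi k => ⟨(mem_sdiff.1 (c1 (m2 i hi k))).1,
        fun _ => (mem_sdiff.1 (c1 (m2 i hi k))).2, fun _ => ?_⟩) (fun i hi j hj _ ij k => ?_)
      fun e => by cases e)
    · by_cases k : i < 3
      · exact nq a (c1 ha) _ (c5 a ha ▸ mem_union_right _ (m1 i k))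
      · exact Or.inl (mem_sdiff.1 (c1 (m2 i hi (not_lt.1 k)))).1
    · rw [dg, c5 _ (m2 i hi k), card_union_of_disjoint (c4.mono_left (erase_subset _ _)),
        card_erase_of_mem (m2 i hi k), c2, c3]
    · refine c6 _ (m2 i hi k) _ ?_ fun e => ij (inj i hi j hj e)
      by_cases k' : j < 3
      exacts [Or.inr (m1 j k'), Or.inl (m2 j hj (not_lt.1 k'))]

theorem red_min (h1 : 1 / 4 ≤ x) (h2 : x ≤ 1 / 2) (hc : Con3 V τ) {Q T : Finset α}
    (h : MinThick V τ Q T)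
    (hn : ¬ ∃ u v, Q = {u, v} ∧ τ s(u, v) ≠ 0 ∧ dg V τ u = 3 ∧ dg V τ v = 3) : Red x V τ := by
  have f : ∀ {P : Prop}, false = true → P := fun h => by cases h
  have hQ := h.1.cQ
  obtain ⟨a, -⟩ : Q.Nonempty := card_pos.1 (by omega)
  by_cases k0 : (Q \ (envR V τ Q T).Dr).card ≤ 2
  · refine valid_S h1 h2 V τ _ (fun _ => a) (ok2_R hc h _ rfl rfl rfl f f fun _ =>
      ⟨k0, fun a b e1 e2 e3 e4 => hn ⟨a, b, ?_, e2, e3, e4⟩⟩) (sat_zero _ _)
    exact eq_of_subset_of_card_le e1 (card_le_two.trans hQ)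
  have q0 : 3 ≤ (Q \ (envR V τ Q T).Dr).card := by omega
  by_cases k1 : ∃ u ∈ Q, u ∉ (envR V τ Q T).Dr ∧ dg V τ u = 3
  · obtain ⟨u, hu, e1, e2⟩ := k1
    exact valid_A h1 h2 V τ _ _ (ok2_R hc h _ rfl rfl rfl (fun _ => q0) f f)
      (sat_one (d := 3) (by decide) rfl rfl hu (fun _ => e1) e2)
  push Not at k1
  have d3 : ∀ u ∈ Q, 3 ≤ dg V τ u := fun u hu =>
    hc.dg3 (by have := h.1.five; omega) (h.1.subQ hu)
  have o : Ok2 ⟨true, false, true, true, false, false⟩ V τ (envR V τ Q T) :=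
    ok2_R hc h _ rfl rfl rfl (fun _ => q0) (fun _ u hu e => by
      have := d3 u hu; have := k1 u hu e; omega) f
  by_cases k2 : ∃ u ∈ Q, dg V τ u = 4
  · obtain ⟨u, hu, e⟩ := k2
    exact valid_B h1 h2 V τ _ _ o
      (sat_one (d := 4) (by decide) rfl rfl hu (fun e => absurd e (by decide)) e)
  push Not at k2
  refine red_big h1 h2 ⟨hc, h, q0, fun u hu => ?_⟩ o
  have := d3 u hu
  have := k2 u hu
  by_cases e : dg V τ u = 3
  · exact Or.inr ⟨e, fun k => k1 u hu (mem_sdiff.1 k).2 e⟩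
  · exact Or.inl (by omega)

theorem red_all (h1 : 1 / 4 ≤ x) (h2 : x ≤ 1 / 2) (V : Finset α) (τ : Sym2 α → Fin 3)
    (hc : Con3 V τ) : Red x V τ := by
  by_cases k3 : V.card = 3
  · exact red_three h1 h2 hc k3
  by_cases k4 : V.card = 4
  · exact red_four h1 h2 hc k4
  by_cases k : NoThick V τ
  · exact red_free h1 h2 hc (by have := hc.1; omega) k
  by_contra nr
  refine nr (fans h1 h2 hc (fun Q T h => ?_) ?_)
  · by_contra hn
    exact nr (red_min h1 h2 hc h hn)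
  · by_contra e
    exact k fun Q T h => e ⟨Q, T, h⟩

theorem ff_pos (h1 : 1 / 4 ≤ x) (h2 : x ≤ 1 / 2) {n : ℕ} (G : SimpleGraph (Fin n))
    [DecidableRel G.Adj] (hn : 4 ≤ n)
    (hG : ∀ S : Finset (Fin n), S.card ≤ 2 → (G.induce ((↑S : Set (Fin n))ᶜ)).Connected) :
    0 < ff x univ fun e => if e ∈ G.edgeFinset then (0 : ℝ) else 1 := by
  have h := pos_of_red (red_all h1 h2) _ _ (con3_of_conn G hn hG)
  rw [FF] at h
  convert h using 3 with e
  split_ifs <;> simp [wt]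

end Pool.Agent.Lib.MP_efe3d7_co.H
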