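import Pool.Agent.Lib.MP_efe3d7_co.H.Bas

/-! Colourings with a given pattern. -/

set_option autoImplicit false

open Finset

namespace Pool.Agent.Lib.MP_efe3d7_co.H

variable {α : Type} [Fintype α] [DecidableEq α]

theorem RG_le {cs u d : ℕ} (h : RG cs u d) : d ≤ u := by
  have := card_image_le (s := range u) (f := dig cs)
  rwa [h, card_range, card_range] at this

theorem RG_step {cs u d c : ℕ} (hu : u < 8) (h : RG cs u d) (hc : c ≤ d) :
    RG (sdg cs u c) (u + 1) (if c = d then d + 1 else d) := by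
  have h8 : c < 8 := by have := RG_le h; omega
  have h1 : (range u).image (dig (sdg cs u c)) = range d :=
    (image_congr fun i hi => by
      rw [dig_sdg _ _ _ h8, if_neg (mem_range.1 (mem_coe.1 hi)).ne]).trans h
  rw [RG, range_add_one, image_insert, h1, dig_sdg _ _ _ h8, if_pos rfl]
  split_ifs with e
  · rw [e, range_add_one]
  · exact insert_eq_of_mem (mem_range.2 (by omega))

theorem pat1_cond (c d : ℕ) :
    (bif Nat.beq c d then d + 1 else d) = if c = d then d + 1 else d := by
  by_cases e : c = d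
  · simp [e]
  · rw [if_neg e, Bool.eq_false_iff.2 fun h => e (Nat.eq_of_beq_eq_true h), cond_false]

theorem parts_RG {s : ℕ} (hs : s ≤ 8) {p : ℕ × ℕ} (hp : p ∈ parts s) : RG p.1 s p.2 := by
  induction s generalizing p with
  | zero =>
    rw [List.mem_singleton.1 hp]
    simp [RG]
  | succ s ih =>
    obtain ⟨q, hq, h⟩ := List.mem_flatMap.1 hp
    obtain ⟨c, hc, rfl⟩ := List.mem_map.1 h
    rw [pat1_cond]
    exact RG_step (by omega) (ih (by omega) hq) (Nat.le_of_lt_succ (List.mem_range.1 hc))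

omit [Fintype α] [DecidableEq α] in
theorem pat1_succ {β : Type} (v : ℕ → α) (u cs : ℕ) {c : ℕ} (hc : c < 8) (col : α → β) :
    Pat v (u + 1) (sdg cs u c) col ↔
      Pat v u cs col ∧ ∀ i < u, (col (v u) = col (v i) ↔ c = dig cs i) := by
  have h1 : ∀ i < u, dig (sdg cs u c) i = dig cs i := fun i hi => by
    rw [dig_sdg _ _ _ hc, if_neg hi.ne]
  have h2 : dig (sdg cs u c) u = c := by rw [dig_sdg _ _ _ hc, if_pos rfl]
  refine ⟨fun h => ⟨fun i hi j hj => ?_, fun i hi => ?_⟩, fun h i hi j hj => ?_⟩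
  · rw [h i (by omega) j (by omega), h1 i hi, h1 j hj]
  · rw [h u (by omega) i (by omega), h1 i hi, h2]
  · rcases Nat.lt_succ_iff_lt_or_eq.1 hi with hi | rfl <;>
      rcases Nat.lt_succ_iff_lt_or_eq.1 hj with hj | rfl
    · rw [h1 i hi, h1 j hj, h.1 i hi j hj]
    · rw [h1 i hi, h2, eq_comm, h.2 i hi, eq_comm]
    · rw [h1 j hj, h2, h.2 j hj]
    · simp

theorem SS_refine (n : ℕ) (U : Finset α) (y : Sym2 α → ℝ) (v : ℕ → α) {u cs d : ℕ} (hu : u < 8)
    (h : RG cs u d) :
    SS n U y v u cs = ∑ c ∈ range (d + 1), SS n U y v (u + 1) (sdg cs u c) := by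
  have hd := RG_le h
  have h1 : ∀ i < u, dig cs i < d := fun i hi => by
    rw [← mem_range, ← show _ = range d from h]
    exact mem_image_of_mem _ (mem_range.2 hi)
  have h2 : ∀ c < d, ∃ i < u, dig cs i = c := fun c hc => by
    rw [← mem_range, ← show _ = range d from h] at hc
    simpa using hc
  simp only [SS]
  rw [sum_comm]
  refine sum_congr rfl fun col _ => ?_
  by_cases hp : Pat v u cs col
  · obtain ⟨c, hc, h3⟩ : ∃ c ≤ d, ∀ i < u, (col (v u) = col (v i) ↔ c = dig cs i) := by
      by_cases e : ∃ i < u, col (v u) = col (v i)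
      · obtain ⟨j, hj, e⟩ := e
        exact ⟨dig cs j, (h1 j hj).le, fun i hi => by rw [e, hp j hj i hi]⟩
      · exact ⟨d, le_rfl, fun i hi => iff_of_false (fun e' => e ⟨i, hi, e'⟩) (h1 i hi).ne'⟩
    rw [if_pos hp, sum_eq_single_of_mem c (mem_range.2 (by omega)),
      if_pos ((pat1_succ v u cs (by omega) col).2 ⟨hp, h3⟩)]
    intro b hb hbc
    have hb' := mem_range.1 hb
    refine if_neg fun h4 => hbc ?_
    have h5 := ((pat1_succ v u cs (by omega) col).1 h4).2
    by_cases e : b < d
    · obtain ⟨i, hi, e⟩ := h2 b e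
      rw [(h3 i hi).1 ((h5 i hi).2 e.symm), e]
    · obtain ⟨i, hi, e⟩ := h2 c (by omega)
      rw [(h5 i hi).1 ((h3 i hi).2 e.symm), e]
  · rw [if_neg hp, eq_comm]
    exact sum_eq_zero fun b hb => if_neg fun h4 =>
      hp ((pat1_succ v u cs (by have := mem_range.1 hb; omega) col).1 h4).1

theorem pat1_flat {ι κ : Type} (l : List ι) (g : ι → List κ) (f : κ → ℝ) :
    ((l.flatMap g).map f).sum = (l.map fun a => ((g a).map f).sum).sum := by
  induction l with
  | nil => rfl
  | cons a l ih => simp [List.flatMap_cons, ih]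

theorem sum_parts (n : ℕ) (U : Finset α) (y : Sym2 α → ℝ) (v : ℕ → α) {s : ℕ} (hs : s ≤ 8) :
    ∑ c : α → Fin n, W U y c = ((parts s).map fun p => SS n U y v s p.1).sum := by
  induction s with
  | zero => simp [parts, SS, Pat]
  | succ s ih =>
    rw [ih (by omega), parts, pat1_flat]
    refine congrArg List.sum (List.map_congr_left fun q hq => ?_)
    rw [SS_refine n U y v (by omega) (parts_RG (by omega) hq), List.map_map,
      ← List.sum_toFinset _ List.nodup_range, List.toFinset_range]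
    rfl

end Pool.Agent.Lib.MP_efe3d7_co.H
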