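import Pool.Agent.Lib.MP_efe3d7_co.H.Pat1

/-! Removing one inner vertex. -/

set_option autoImplicit false

open Finset

namespace Pool.Agent.Lib.MP_efe3d7_co.H

variable {α : Type} [Fintype α] [DecidableEq α]

theorem pat3_avg {n : ℕ} (a : α) (G : (α → Fin n) → Fin n → ℝ)
    (h : ∀ c i j, G (Function.update c a j) i = G c i) :
    (n : ℝ) * ∑ c : α → Fin n, G c (c a) = ∑ c : α → Fin n, ∑ i, G c i := by
  have h1 : ∑ p : (α → Fin n) × Fin n, G p.1 (p.1 a) = ∑ p : (α → Fin n) × Fin n, G p.1 p.2 := by
    refine (sum_bijective (fun p => (Function.update p.1 a p.2, p.1 a))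
      (Function.Involutive.bijective fun p => by simp) (by simp) fun p _ => ?_).symm
    simp [h]
  rw [Fintype.sum_prod_type, Fintype.sum_prod_type] at h1
  rw [← h1, mul_sum]
  simp

theorem pat3_card {β γ : Type} [DecidableEq β] [DecidableEq γ] (f : ℕ → β) (g : ℕ → γ) (u : ℕ)
    (h : ∀ i < u, ∀ j < u, f i = f j ↔ g i = g j) :
    ((range u).image f).card = ((range u).image g).card := by
  induction u with
  | zero => simp
  | succ u ih =>
    have h1 : f u ∈ (range u).image f ↔ g u ∈ (range u).image g := by
      simp only [mem_image, mem_range]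
      exact exists_congr fun i => and_congr_right fun hi => h i (by omega) u (by omega)
    rw [range_add_one, image_insert, image_insert, card_insert_eq_ite, card_insert_eq_ite,
      ih fun i hi j hj => h i (by omega) j (by omega)]
    exact if_congr h1 rfl rfl

theorem SS_peel (x : ℝ) (n : ℕ) (U : Finset α) (y : Sym2 α → ℝ) (v : ℕ → α) {u ct cs d c : ℕ}
    (hu : u < 8) (h : RG cs u d) (hc : c ≤ d) (hv : v u ∉ U) (hU : ∀ i < u, v i ∈ U)
    (hinj : ∀ i < u, ∀ j < u, v i = v j → i = j)
    (h1 : ∀ z ∈ U, (∀ i < u, v i ≠ z) → y s(v u, z) = 1)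
    (h2 : ∀ j < u, y s(v u, v j) = wn x (ty ct u j)) :
    (n : ℝ) * SS n (insert (v u) U) y v (u + 1) (sdg cs u c) =
      (if c = d then (n : ℝ) - d else facR x ct cs u c) * SS n U y v u cs := by
  classical
  have hd : ∀ j, dig (sdg cs u c) j = if j = u then c else dig cs j := fun j =>
    dig_sdg cs u j (by have := RG_le h; omega)
  have hlt : ∀ j < u, dig cs j < d := fun j hj =>
    mem_range.1 (h ▸ mem_image_of_mem _ (mem_range.2 hj))
  have hne : ∀ j < u, v j ≠ v u := fun j hj e => hv (e ▸ hU j hj)
  have hp : ∀ col : α → Fin n, Pat v (u + 1) (sdg cs u c) col ↔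
      Pat v u cs col ∧ ∀ j < u, (col (v u) = col (v j) ↔ dig cs j = c) := fun col => by
    refine ⟨fun H => ⟨fun i hi j hj => ?_, fun j hj => ?_⟩, fun H i hi j hj => ?_⟩
    · simpa [hd, hi.ne, hj.ne] using H i (by omega) j (by omega)
    · simpa [hd, hj.ne, eq_comm (a := c)] using H u (by omega) j (by omega)
    · rw [hd, hd]
      split_ifs with a b b
      · simp [a, b]
      · rw [a, H.2 j (by omega), eq_comm]
      · rw [b, eq_comm, H.2 i (by omega)]
      · exact H.1 i (by omega) j (by omega)
  let G : (α → Fin n) → Fin n → ℝ := fun col i =>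
    if Pat v u cs col ∧ ∀ j < u, (i = col (v j) ↔ dig cs j = c) then W U y col else 0
  have e1 : SS n (insert (v u) U) y v (u + 1) (sdg cs u c) =
      facR x ct cs u c * ∑ col : α → Fin n, G col (col (v u)) := by
    rw [SS, mul_sum]
    refine sum_congr rfl fun col _ => ?_
    by_cases H : Pat v (u + 1) (sdg cs u c) col
    · rw [if_pos H, W_insert hv]
      refine congrArg₂ _ ?_ (if_pos ((hp col).1 H)).symm
      rw [← prod_subset (s₁ := (range u).image v) (fun z hz => ?_) fun z hz hz' => ?_,
        prod_image fun i hi j hj => hinj i (mem_range.1 hi) j (mem_range.1 hj)]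
      · exact prod_congr rfl fun j hj => if_congr (((hp col).1 H).2 j (mem_range.1 hj))
          (h2 j (mem_range.1 hj)) rfl
      · obtain ⟨i, hi, rfl⟩ := mem_image.1 hz
        exact hU i (mem_range.1 hi)
      · rw [h1 z hz fun i hi e => hz' (mem_image.2 ⟨i, mem_range.2 hi, e⟩), ite_self]
    · rw [if_neg H]
      exact (mul_eq_zero_of_right _ (if_neg fun H' => H ((hp col).2 H'))).symm
  have e2 : ∀ col i j, G (Function.update col (v u) j) i = G col i := fun col i j => by
    have a1 : ∀ l < u, Function.update col (v u) j (v l) = col (v l) := fun l hl =>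
      Function.update_of_ne (hne l hl) _ _
    refine if_congr (and_congr (forall₂_congr fun a ha => forall₂_congr fun b hb => ?_)
      (forall₂_congr fun a ha => ?_)) (W_congr (fun _ _ _ _ _ => rfl) fun a ha b hb => ?_) rfl
    · rw [a1 a ha, a1 b hb]
    · rw [a1 a ha]
    · rw [Function.update_of_ne (ne_of_mem_of_not_mem ha hv),
        Function.update_of_ne (ne_of_mem_of_not_mem hb hv)]
  have e3 : ∀ col, ∑ i, G col i =
      (if c = d then (n : ℝ) - d else 1) * if Pat v u cs col then W U y col else 0 := fun col => by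
    by_cases H : Pat v u cs col
    swap
    · simp [G, H]
    simp only [G, H, true_and, if_true]
    rw [← sum_filter, sum_const, nsmul_eq_mul]
    congr 1
    split_ifs with hcd
    · have a1 : (univ.filter fun i : Fin n => ∀ j < u, (i = col (v j) ↔ dig cs j = c)) =
          ((range u).image fun j => col (v j))ᶜ := by
        ext i
        simp only [mem_filter, mem_univ, true_and, mem_compl, mem_image, mem_range, not_exists,
          not_and]
        refine forall₂_congr fun j hj => ?_
        have := hlt j hj
        exact ⟨fun a b => by have := a.1 b.symm; omega,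
          fun a => ⟨fun b => (a b.symm).elim, fun b => by omega⟩⟩
      have a2 := pat3_card (fun j => col (v j)) (dig cs) u H
      rw [h, card_range] at a2
      rw [a1, card_compl, Nat.cast_sub (card_le_univ _), a2, Fintype.card_fin]
    · obtain ⟨j, hj, e⟩ := mem_image.1 (h.ge (mem_range.2 (lt_of_le_of_ne hc hcd)))
      rw [mem_range] at hj
      have a1 : (univ.filter fun i : Fin n => ∀ j < u, (i = col (v j) ↔ dig cs j = c)) =
          {col (v j)} := by
        ext i
        simp only [mem_filter, mem_univ, true_and, mem_singleton]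
        exact ⟨fun a => (a j hj).2 e, fun a l hl => by rw [a, H j hj l hl, e, eq_comm]⟩
      rw [a1, card_singleton, Nat.cast_one]
  rw [e1, mul_left_comm, pat3_avg _ G e2, sum_congr rfl fun col _ => e3 col, ← mul_sum, SS,
    ← mul_assoc]
  congr 1
  split_ifs with hcd
  · rw [facR, prod_eq_one fun j hj => if_neg (by have := hlt j (mem_range.1 hj); omega), one_mul]
  · exact mul_one _

end Pool.Agent.Lib.MP_efe3d7_co.H
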