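import Pool.Agent.Lib.MP_efe3d7_co.H.Kf

/-! The tables of a configuration describe the window. -/

set_option autoImplicit false

open Finset

namespace Pool.Agent.Lib.MP_efe3d7_co.H

variable {α : Type} [Fintype α] [DecidableEq α]

variable {m : Md} {p : Pre} {k : K} {V : Finset α} {τ : Sym2 α → Fin 3} {E : Env α} {v : ℕ → α}


theorem prs_str {s : ℕ} (h : strOk k s = true) : k.n ≤ 8 ∧ s ≤ 7 ∧ s ≤ k.n ∧
    (∀ i < k.n, s ≤ i → tb k.lq i = true ∧ k.cl i = true) ∧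
    ∀ i < k.n, ∀ j < k.n, i ≠ j → k.eP i j ≤ 3 := by
  simp only [strOk, Bool.and_eq_true, Bool.or_eq_true, allB_iff, Nat.ble_eq, Nat.blt_eq] at h
  obtain ⟨⟨⟨a, b⟩, c⟩, d⟩ := h
  refine ⟨a, b, c, fun i hi l => (d i hi).1.resolve_left (by omega), fun i hi j hj ne => ?_⟩
  rcases lt_or_gt_of_ne ne with l | l
  · rw [K.eP_comm]; exact (d j hj).2 i l
  · exact (d i hi).2 j l

theorem prs_ha (m : Md) (s : ℕ) (hn : k.n ≤ 8) {i : ℕ} (hi : i < k.n) (j : ℕ) :
    tb (fld (preOf m k s).ha i) j = (decide (j < k.n) && k.aj i j) := by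
  rw [← tb_msk, ← fld_pk_msk k.aj (by omega : k.n ≤ 16) hi]
  simp only [preOf, mkPre, frc_eq, id]
  rfl

theorem prs_kn (m : Md) (s : ℕ) (hn : k.n ≤ 8) {i j : ℕ} (hi : i < k.n) (hj : j < k.n) :
    tb (fld (preOf m k s).kn i) j = nz (k.eP i j) := by
  simp only [preOf, mkPre, frc_eq, id]
  rw [fld_pk_msk (fun i j => nz (k.eP i j)) (by omega : k.n ≤ 16) hi, tb_msk, decide_eq_true hj,
    Bool.true_and]

theorem prs_fb (m : Md) (s : ℕ) (hn : k.n ≤ 8) {i : ℕ} (hi : i < k.n) (j : ℕ) :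
    tb (fld (preOf m k s).fb i) j = (decide (j < k.n) && (!Nat.beq i j && k.F i j)) := by
  simp only [preOf, mkPre, frc_eq, id]
  rw [fld_pk_msk (fun i j => !Nat.beq i j && k.F i j) (by omega : k.n ≤ 16) hi, tb_msk]

theorem prs_eq (m : Md) (k : K) (s : ℕ) : (preOf m k s).n = k.n ∧ (preOf m k s).s = s ∧
    (preOf m k s).lq = k.lq ∧ (preOf m k s).lt = k.lt ∧ (preOf m k s).dn = k.dn ∧
    (preOf m k s).cl = msk k.n k.cl ∧
    (preOf m k s).d4 = (msk k.n fun i => Nat.ble 4 (k.el m i)) ∧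
    (preOf m k s).d5 = (msk k.n fun i => Nat.ble 5 (k.el m i)) ∧
    (preOf m k s).al = (k.al && !m.wm) := by
  simp only [preOf, mkPre, frc_eq, id, and_self]

theorem ps_of (hO : Ok m V τ E) (hS : Sat k V τ E v) {s : ℕ} (h : strOk k s = true) :
    PS m (preOf m k s) V τ E v := by
  obtain ⟨n8, s7, sn, hin, -⟩ := prs_str h
  have ha := @prs_ha k m s n8
  have kn := @prs_kn k m s n8
  have fb := @prs_fb k m s n8
  obtain ⟨e1, e2, e3, e4, e5, e6, e7, e8, e9⟩ := prs_eq m k s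
  generalize preOf m k s = p at *
  have ha' : ∀ i < k.n, ∀ j, tb (fld p.ha i) j = true ↔ j < k.n ∧ k.aj i j = true :=
    fun i hi j => by rw [ha hi, Bool.and_eq_true, decide_eq_true_iff]
  constructor <;> simp only [e1, e2, e3, e4, e5, e6, e7, e8, e9]
  · exact n8
  · exact s7
  · exact sn
  · exact hS.inj
  · exact hS.mem
  · intro i hi j q
    obtain ⟨hj, a⟩ := (ha' i hi j).1 q
    obtain ⟨ne, b⟩ := (k.aj_iff i j).1 a
    exact ⟨hj, ne, (hS.pr i hi j hj ne).2.2.2 b⟩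
  · intro i hi j hj
    rw [ha hi, ha hj, K.aj_comm, decide_eq_true hi, decide_eq_true hj]
  · intro i hi j hj
    rw [kn hi hj, kn hj hi, K.eP_comm]
  · intro i hi j hj q
    have := ((k.aj_iff i j).1 ((ha' i hi j).1 q).2).2
    have := k.eP_cases i j
    rw [kn hi hj, nz_iff]
    omega
  · intro i hi j hj ne q1 q2
    rw [kn hi hj, nz_iff] at q1
    have : ¬2 ≤ k.P i j := fun c => by
      rw [(ha' i hi j).2 ⟨hj, (k.aj_iff i j).2 ⟨ne, c⟩⟩] at q2
      exact Bool.noConfusion q2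
    have := k.eP_cases i j
    exact eP_one hO hS hi hj ne (by omega)
  · intro i hi l
    obtain ⟨a, b⟩ := hin i hi l
    refine ⟨hS.lq i hi a, by rw [tb_msk, b, decide_eq_true hi]; rfl, fun j hj _ => ?_⟩
    rw [kn hi hj, nz_iff, K.eP, a, b, Bool.true_or, Bool.true_or, Bool.and_true, Bool.and_true]
    cases c : Nat.beq (k.P i j) 0
    · exact Nat.ne_of_beq_eq_false c
    · exact one_ne_zero
  · intro i hi q z hz hq
    rw [tb_msk, Bool.and_eq_true] at q
    obtain ⟨j, hj, a, b⟩ := cl_sound hO hS hi q.2 hz hq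
    exact ⟨j, hj, (ha' i hi j).2 ⟨hj, a⟩, b⟩
  · exact hS.lq
  · exact hS.lt
  · exact hS.dn
  · intro i hi j q
    rw [fb hi, Bool.and_eq_true, Bool.and_eq_true, decide_eq_true_iff, Bool.not_eq_true'] at q
    have ne := Nat.ne_of_beq_eq_false q.2.1
    exact ⟨q.1, ne, hS.fb i hi j q.1 ne q.2.2⟩
  · intro i hi q
    rw [tb_msk, Bool.and_eq_true, Nat.ble_eq] at q
    exact q.2.trans (el_sound hO hS hi)
  · intro i hi q
    rw [tb_msk, Bool.and_eq_true, Nat.ble_eq] at q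
    exact q.2.trans (el_sound hO hS hi)
  · intro q
    rw [Bool.and_eq_true, Bool.not_eq_true'] at q
    exact ⟨q.2, hS.al q.1⟩

theorem colG_self (hO : Ok m V τ E) (hS : Sat k V τ E v) {s : ℕ} (h : strOk k s = true) :
    TyB (preOf m k s) (k.n - s) k.ct ∧ Pure (preOf m k s) k.ct ∧
      ColG (preOf m k s) (k.n - s) k.ct V τ v V τ := by
  obtain ⟨n8, s7, sn, -, e3⟩ := prs_str h
  have kn := @prs_kn k m s n8
  obtain ⟨e1, e2, -⟩ := prs_eq m k s
  generalize preOf m k s = p at *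
  have e : p.s + (k.n - s) = k.n := by omega
  have ct := @K.ty_ct k (by omega)
  refine ⟨⟨by omega, fun i hi j hj ne => ?_⟩, fun i hi j hj ne q => ?_,
    fun z => ⟨fun hz => ⟨hz, fun i hi _ => by omega⟩, And.left⟩, fun _ _ _ => rfl,
    fun i hi j hj ne => ?_⟩
  · rw [e] at hi hj
    have := e3 i hi j hj ne
    rw [ct hi hj ne, kn hi hj, nz_iff]
    omega
  · rw [kn (by omega) (by omega), ← Bool.not_eq_true, nz_iff, not_not] at q
    rw [ct (by omega) (by omega) ne, q]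
  · rw [e] at hi hj
    have a := e3 i hi j hj ne
    have b := k.eP_cases i j
    obtain ⟨-, c2, c3, -⟩ := hS.pr i hi j hj ne
    rw [ct hi hj ne, kn hi hj]
    by_cases c : k.eP i j = 0
    · rw [c]; rfl
    rw [if_pos ((nz_iff _).2 c)]
    obtain d | d | d : k.eP i j = 1 ∨ k.eP i j = 2 ∨ k.eP i j = 3 := by omega
    · rw [eP_one hO hS hi hj ne d, d]; rfl
    · rw [c2 (by omega), d]; rfl
    · rw [c3 (by omega), d]; rfl

theorem preOf_n (m : Md) (k : K) (s : ℕ) : (preOf m k s).n = k.n := by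
  simp only [preOf, mkPre, frc_eq, id]

theorem preOf_s (m : Md) (k : K) (s : ℕ) : (preOf m k s).s = s := by
  simp only [preOf, mkPre, frc_eq, id]

end Pool.Agent.Lib.MP_efe3d7_co.H
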