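import Pool.Agent.Lib.MP_efe3d7_co.H.Kf
import Pool.Agent.Lib.MP_efe3d7_co.H.ChkEq

/-! Contradiction rules, first part. -/

set_option autoImplicit false
set_option linter.unusedSimpArgs false

open Finset

namespace Pool.Agent.Lib.MP_efe3d7_co.H

variable {α : Type} [Fintype α] [DecidableEq α]

variable {m : Md} {p : Pre} {k : K} {V : Finset α} {τ : Sym2 α → Fin 3} {E : Env α} {v : ℕ → α}

theorem rul1_nb (a b : ℕ) : Nat.beq a b = false ↔ a ≠ b := by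
  rw [← Bool.not_eq_true, Nat.beq_eq]

omit [Fintype α] in
theorem rul1_card {A : Finset α} {B : Finset ℕ} (h : ∀ z ∈ A, ∃ j ∈ B, v j = z) :
    A.card ≤ B.card :=
  (card_le_card fun z hz => mem_image.2 (h z hz)).trans card_image_le

theorem con0 (hO : Ok2 m V τ E) (hS : Sat k V τ E v) {i : ℕ} (h : conOk m k 0 i = true) :
    False := by
  simp only [conOk, Bool.and_eq_true, Bool.or_eq_true, Bool.not_eq_true', allB_iff, anyB_iff,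
    Nat.ble_eq, Nat.blt_eq, Nat.beq_eq, nz_iff, cnt_eq, Nat.add_eq, rul1_nb] at h
  obtain ⟨⟨hi, h1⟩, h2⟩ := h
  have := lb_sound hO.ok hS hi
  have := hS.ex i hi h1
  omega

theorem con1 (hO : Ok2 m V τ E) (hS : Sat k V τ E v) {i : ℕ} (h : conOk m k 1 i = true) :
    False := by
  simp only [conOk, Bool.and_eq_true, Bool.or_eq_true, Bool.not_eq_true', allB_iff, anyB_iff,
    Nat.ble_eq, Nat.blt_eq, Nat.beq_eq, nz_iff, cnt_eq, Nat.add_eq, rul1_nb] at h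
  obtain ⟨⟨⟨hi, h1⟩, h2⟩, h3⟩ := h
  have e := el_sound hO.ok hS hi
  have key : ∀ z ∈ nb V τ (v i), z ∈ E.Q ∨ z ∈ E.T →
      ∃ l < k.n, v l = z ∧ i ≠ l ∧ k.eP i l ≠ 1 := by
    intro z hz hq
    obtain ⟨l, hl, rfl⟩ := hS.al h1 z hq
    have hil : i ≠ l := fun q => (mem_nb.1 hz).2.1 (by rw [q])
    exact ⟨l, hl, rfl, hil, fun q => (mem_nb.1 hz).2.2 (eP_one hO.ok hS hi hl hil q)⟩
  rcases h3 with ⟨h3, h4⟩ | ⟨h3, h4⟩
  · have hq := hS.lq i hi h3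
    rw [ds_Q hq] at e
    refine absurd (rul1_card (v := v) (A := nb V τ (v i)) fun z hz => ?_)
      (not_le.2 (h4.trans_le e))
    have := hO.ok.nbq _ hq z hz
    rw [hO.ok.omn h2] at this
    obtain ⟨l, hl, a, b, c⟩ := key z hz (by simpa using this)
    exact ⟨l, mem_filter.2 ⟨mem_range.2 hl, b, c⟩, a⟩
  · have ht := hS.lt i hi h3
    rw [ds_nQ fun q => hO.ok.dis _ q ht] at e
    refine absurd (rul1_card (v := v) (A := nb V τ (v i) ∩ E.Q) fun z hz => ?_)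
      (not_le.2 (Nat.lt_of_add_lt_add_left (h4.trans_le e)))
    obtain ⟨z1, z2⟩ := mem_inter.1 hz
    obtain ⟨l, hl, a, b, c⟩ := key z z1 (Or.inl z2)
    refine ⟨l, mem_filter.2 ⟨mem_range.2 hl, ⟨b, ?_⟩, c⟩, a⟩
    rw [← Bool.not_eq_true]
    exact fun q => hO.ok.dis z z2 (a ▸ hS.lt l hl q)

theorem con2 (hO : Ok2 m V τ E) (hS : Sat k V τ E v) {i : ℕ} (h : conOk m k 2 i = true) :
    False := by
  simp only [conOk, Bool.and_eq_true, Bool.or_eq_true, Bool.not_eq_true', allB_iff, anyB_iff,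
    Nat.ble_eq, Nat.blt_eq, Nat.beq_eq, nz_iff, cnt_eq, Nat.add_eq, rul1_nb] at h
  obtain ⟨⟨hi, h1⟩, j, hj, ⟨a, b⟩, c⟩ := h
  obtain ⟨q, r⟩ := hS.dn i hi h1
  exact r (hO.ok.dr2 _ q _ (hS.lt j hj b) (aj_sound hO.ok hS hi hj a)
    ((hS.ex j hj (by omega)).trans c))

theorem con3 (hO : Ok2 m V τ E) (hS : Sat k V τ E v) {i : ℕ} (h : conOk m k 3 i = true) :
    False := by
  simp only [conOk, Bool.and_eq_true, Bool.or_eq_true, Bool.not_eq_true', allB_iff, anyB_iff,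
    Nat.ble_eq, Nat.blt_eq, Nat.beq_eq, nz_iff, cnt_eq, Nat.add_eq, rul1_nb] at h
  obtain ⟨⟨⟨⟨hi, h1⟩, h2⟩, h3⟩, h4⟩ := h
  obtain ⟨q, z, hz, r⟩ := hO.ok.dr1 _ (hS.dy i hi h1)
  obtain ⟨j, hj, a, rfl⟩ := cl_sound hO.ok hS hi h3 hz (Or.inl q)
  rcases r with ⟨r1, r2⟩ | r
  · rcases np_sound hO.ok hS hj ((h4 j hj).resolve_left (by simp [a])) with b | b
    · exact hO.ok.dis _ b r1
    · omega
  · obtain ⟨-, b, c, -⟩ := hO.ok.omv _ r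
    exact (hS.mem j hj).elim b c

theorem con4 (hO : Ok2 m V τ E) (hS : Sat k V τ E v) {i : ℕ} (h : conOk m k 4 i = true) :
    False := by
  simp only [conOk, Bool.and_eq_true, Bool.or_eq_true, Bool.not_eq_true', allB_iff, anyB_iff,
    Nat.ble_eq, Nat.blt_eq, Nat.beq_eq, nz_iff, cnt_eq, Nat.add_eq, rul1_nb] at h
  obtain ⟨⟨hi, h1⟩, h2⟩ := h
  obtain ⟨a, ha, b, hb, hab⟩ := one_lt_card.1 h2
  obtain ⟨a0, ⟨a1, a2⟩, a3⟩ := mem_filter.1 ha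
  obtain ⟨b0, ⟨b1, b2⟩, b3⟩ := mem_filter.1 hb
  rw [mem_range] at a0 b0
  exact hab (hS.inj a a0 b b0 (hO.ok.two _ (hS.lq i hi h1) _ (hS.lt a a0 a2) _ (hS.lt b b0 b2)
    (aj_sound hO.ok hS hi a0 a1) (aj_sound hO.ok hS hi b0 b1)
    ((hS.ex a a0 (by omega)).trans a3) ((hS.ex b b0 (by omega)).trans b3)))

theorem con6 (hO : Ok2 m V τ E) (hS : Sat k V τ E v) {i : ℕ} (h : conOk m k 6 i = true) :
    False := by
  simp only [conOk, Bool.and_eq_true, Bool.or_eq_true, Bool.not_eq_true', allB_iff, anyB_iff,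
    Nat.ble_eq, Nat.blt_eq, Nat.beq_eq, nz_iff, cnt_eq, Nat.add_eq, rul1_nb] at h
  obtain ⟨⟨⟨⟨h0, hi⟩, h1⟩, h2⟩, h3⟩ := h
  have e := hO.ok.t0 h0 (v i) (h2.imp (fun q => hS.dy i hi q.1) fun q =>
    ⟨hS.lt i hi q.1, q.2.trans_eq (hS.ex i hi (by omega)).symm⟩)
  refine absurd (rul1_card (v := v) (A := nb V τ (v i) ∩ (E.Q \ E.Dr)) fun z hz => ?_)
    (not_le.2 (lt_of_le_of_lt h3 e))
  obtain ⟨z1, z2⟩ := mem_inter.1 hz
  obtain ⟨z2, z3⟩ := mem_sdiff.1 z2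
  obtain ⟨j, hj, a, rfl⟩ := cl_sound hO.ok hS hi h1 z1 (Or.inr z2)
  refine ⟨j, mem_filter.2 ⟨mem_range.2 hj, ⟨a, ?_⟩, ?_⟩, rfl⟩ <;> rw [← Bool.not_eq_true]
  · exact fun q => hO.ok.dis _ z2 (hS.lt j hj q)
  · exact fun q => z3 (hS.dy j hj q)

theorem con13 (hO : Ok2 m V τ E) (hS : Sat k V τ E v) {i : ℕ} (h : conOk m k 13 i = true) :
    False := by
  simp only [conOk, Bool.and_eq_true, Bool.or_eq_true, Bool.not_eq_true', allB_iff, anyB_iff,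
    Nat.ble_eq, Nat.blt_eq, Nat.beq_eq, nz_iff, cnt_eq, Nat.add_eq, rul1_nb] at h
  obtain ⟨⟨⟨⟨hi, h1⟩, h2⟩, h3⟩, h4⟩ := h
  obtain ⟨q, z, hz, r⟩ := hO.ok.dr1 _ (hS.dy i hi h3)
  rw [hO.ok.omn h1] at r
  obtain ⟨r1, r2⟩ := r.resolve_right (by simp)
  obtain ⟨l, hl, rfl⟩ := hS.al h2 z (Or.inr r1)
  have hil : i ≠ l := fun e => (mem_nb.1 hz).2.1 (by rw [e])
  rcases h4 l hl with (b | b) | b
  · exact hil b
  · exact (mem_nb.1 hz).2.2 (eP_one hO.ok hS hi hl hil b)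
  · rcases np_sound hO.ok hS hl b with c | c
    · exact hO.ok.dis _ c r1
    · omega

end Pool.Agent.Lib.MP_efe3d7_co.H
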