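import Pool.Agent.Lib.MP_efe3d7_co.H.Kf
import Pool.Agent.Lib.MP_efe3d7_co.H.ChkEq

/-! Contradiction rules, second part. -/

set_option autoImplicit false

open Finset

namespace Pool.Agent.Lib.MP_efe3d7_co.H

variable {α : Type} [Fintype α] [DecidableEq α]

variable {m : Md} {p : Pre} {k : K} {V : Finset α} {τ : Sym2 α → Fin 3} {E : Env α} {v : ℕ → α}

omit [Fintype α] in
theorem rul2_door (hO : Ok m V τ E) (hw : m.wm = false) {D T : Finset α} (hD : D ⊆ E.Dr)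
    (hT : T ⊆ E.T) (h : ∀ d ∈ D, ∀ q ∈ T, q ∈ nb V τ d → ds V τ E q ≠ 3) :
    T.card + D.card ≤ 3 := by
  have h1 : D.card ≤ (E.T \ T).card := by
    refine card_le_card_of_forall_subsingleton (fun d q => q ∈ nb V τ d ∧ ds V τ E q = 3)
      (fun d hd => ?_) fun q hq a ha b hb => ?_
    · obtain ⟨-, q, h2, h3 | h3⟩ := hO.dr1 d (hD hd)
      · exact ⟨q, mem_sdiff.2 ⟨h3.1, fun e => h d hd q e h2 h3.2⟩, h2, h3.2⟩
      · simp [hO.omn hw] at h3
    · have h2 := ha.2.2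
      rw [ds_nQ fun e => hO.dis q e (mem_sdiff.1 hq).1] at h2
      have h3 := (hO.dr1 a (hD ha.1)).1
      have h4 := (hO.dr1 b (hD hb.1)).1
      exact card_le_one.1 (show (nb V τ q ∩ E.Q).card ≤ 1 by omega) a
        (mem_inter.2 ⟨nb_symm (hO.subQ h3) ha.2.1, h3⟩) b
        (mem_inter.2 ⟨nb_symm (hO.subQ h4) hb.2.1, h4⟩)
  have h2 := card_sdiff_add_card_eq_card hT
  have := hO.cT
  omega

theorem con5 (hO : Ok2 m V τ E) (hS : Sat k V τ E v) {i : ℕ} (h : conOk m k 5 i = true) :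
    False := by
  simp only [conOk, Bool.and_eq_true, Bool.not_eq_true', Nat.ble_eq, Nat.add_eq, cnt_eq,
    allB_iff, Bool.or_eq_true, Nat.beq_eq] at h
  obtain ⟨hw, h⟩ := h
  rw [← card_img hS.inj, ← card_image_of_injOn (f := v) (s := (range k.n).filter _)
    fun a ha b hb => hS.inj a (mem_range.1 (mem_filter.1 ha).1) b
      (mem_range.1 (mem_filter.1 hb).1)] at h
  refine absurd (h.trans (rul2_door hO.ok hw (fun d hd => ?_) (fun q hq => ?_)
    fun d hd q hq h1 h2 => ?_)) (by decide)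
  · obtain ⟨j, hj, rfl⟩ := mem_image.1 hd
    exact hS.dy j (mem_range.1 (mem_filter.1 hj).1) (mem_filter.1 hj).2.1
  · obtain ⟨j, hj, rfl⟩ := mem_image.1 hq
    exact hS.lt j (mem_bs.1 hj).1 (mem_bs.1 hj).2
  · obtain ⟨j, hj, rfl⟩ := mem_image.1 hd
    obtain ⟨l, hl, rfl⟩ := mem_image.1 hq
    obtain ⟨h3, -, h4⟩ := mem_filter.1 hj
    obtain ⟨h5, h6⟩ := mem_bs.1 hl
    have h7 : j ≠ l := fun e => (mem_nb.1 h1).2.1 (e ▸ rfl)
    rcases h4 l h5 with (e | e) | e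
    · exact h7 e
    · exact (mem_nb.1 h1).2.2 (eP_one hO.ok hS (mem_range.1 h3) h5 h7 e)
    · rcases np_sound hO.ok hS h5 e with e | e
      · exact hO.ok.dis _ e (hS.lt l h5 h6)
      · omega

theorem con8 (hO : Ok2 m V τ E) (hS : Sat k V τ E v) {i : ℕ} (h : conOk m k 8 i = true) :
    False := by
  simp only [conOk, Bool.and_eq_true, anyB_iff, Bool.or_eq_true, Nat.beq_eq, nz_bit, tb_land,
    K.tb_nm] at h
  obtain ⟨hf, a, ha, h⟩ := h
  obtain ⟨h1, h2, h3, -⟩ := hO.ok.fr hf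
  have h4 : ∀ q, q ∉ E.T := fun q hq => hO.ok.dis q (h1 ▸ hO.ok.subT hq) hq
  have h5 : ∀ j < k.n, v j ∈ V := fun j hj => hO.ok.memV (hS.mem j hj)
  rcases h with (h | h) | ⟨b, hb, h | ⟨h, c, hc, hc'⟩⟩
  · exact h4 _ (hS.lt a ha h)
  · obtain ⟨-, q, -, h6 | h6⟩ := hO.ok.dr1 _ (hS.dy a ha h)
    · exact h4 q h6.1
    · exact (hO.ok.omv q h6).2.1 (h1 ▸ (hO.ok.omv q h6).1)
  · exact h2 _ (h5 a ha) _ (h5 b (hb.trans ha)) (fun e => hb.ne' (hS.inj a ha b (hb.trans ha) e))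
      ((hS.pr a ha b (hb.trans ha) hb.ne').2.2.1 h)
  · exact h3 _ (h5 a ha) _ (aj_sound hO.ok hS ha (hb.trans ha) h) _
      (aj_sound hO.ok hS ha hc.1 hc.2) (aj_sound hO.ok hS (hb.trans ha) hc.1 hc'.2)

theorem con10 (hO : Ok2 m V τ E) (hS : Sat k V τ E v) {i : ℕ} (h : conOk m k 10 i = true) :
    False := by
  simp only [conOk, Bool.and_eq_true, anyB_iff, allB_iff, Bool.or_eq_true, Nat.beq_eq] at h
  obtain ⟨⟨hf, hl⟩, a, ha, b, hb, ⟨⟨⟨⟨h1, h2⟩, h3⟩, h4⟩, h5⟩, h6⟩ := h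
  have hb := hb.trans ha
  refine hO.ok.nf hf (v a) (v b) (fun z hz => ?_) (mem_nb.1 (aj_sound hO.ok hS ha hb h1)).2.2
    (by rw [← ds_Q (hS.lq a ha h2), hS.ex a ha (by omega), h4])
    (by rw [← ds_Q (hS.lq b hb h3), hS.ex b hb (by omega), h5])
  obtain ⟨l, h7, rfl⟩ := hS.al hl z (.inl hz)
  rcases h6 l h7 with (rfl | rfl) | e
  · simp
  · simp
  · exact (hO.ok.dis _ hz (hS.lt l h7 e)).elim

theorem con11 (hO : Ok2 m V τ E) (hS : Sat k V τ E v) {i : ℕ} (h : conOk m k 11 i = true) :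
    False := by
  simp only [conOk, Bool.and_eq_true, Bool.not_eq_true', Nat.ble_eq, Bool.or_eq_true,
    ← card_img hS.inj] at h
  rcases h with ⟨hf, h⟩ | ⟨hw, h⟩
  · refine absurd ((h.trans (card_le_card fun d hd => ?_)).trans (hO.sm hf)) (by decide)
    obtain ⟨j, hj, rfl⟩ := mem_image.1 hd
    exact mem_sdiff.2 (hS.dn j (mem_bs.1 hj).1 (mem_bs.1 hj).2)
  · have := rul2_door (D := (bs k.n k.dy).image v) hO.ok hw (fun d hd => ?_) (empty_subset _)
      fun _ _ q hq => absurd hq (notMem_empty q)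
    · omega
    obtain ⟨j, hj, rfl⟩ := mem_image.1 hd
    exact hS.dy j (mem_bs.1 hj).1 (mem_bs.1 hj).2

theorem con12 (hO : Ok2 m V τ E) (hS : Sat k V τ E v) {i : ℕ} (h : conOk m k 12 i = true) :
    False := by
  simp only [conOk, Bool.and_eq_true, Bool.not_eq_true', Nat.ble_eq, Bool.or_eq_true,
    cnt_eq] at h
  obtain ⟨⟨hr, hl⟩, h⟩ := h
  obtain ⟨h1, h2⟩ := hO.ok.q2 hr
  rcases h with h | h
  · refine absurd ((h2.ge.trans ((card_le_card fun z hz => ?_).trans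
      (card_image_le (f := v)))).trans h) (by decide)
    obtain ⟨l, h3, rfl⟩ := hS.al hl z (.inr hz)
    exact mem_image_of_mem v (mem_filter.2 ⟨mem_range.2 h3,
      Bool.eq_false_iff.2 fun e => hO.ok.dis _ (hS.lq l h3 e) hz⟩)
  · refine absurd ((h1.trans ((card_le_card fun z hz => ?_).trans
      (card_image_le (f := v)))).trans h) (by decide)
    obtain ⟨l, h3, rfl⟩ := hS.al hl z (.inl hz)
    exact mem_image_of_mem v (mem_filter.2 ⟨mem_range.2 h3,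
      Bool.eq_false_iff.2 fun e => hO.ok.dis _ hz (hS.lt l h3 e)⟩)

end Pool.Agent.Lib.MP_efe3d7_co.H
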