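import Pool.Agent.Lib.MP_efe3d7_co.H.Kf
import Pool.Agent.Lib.MP_efe3d7_co.H.ChkEq

/-! Contradiction rules, third part. -/

set_option autoImplicit false

open Finset

namespace Pool.Agent.Lib.MP_efe3d7_co.H

variable {α : Type} [Fintype α] [DecidableEq α]

variable {m : Md} {p : Pre} {k : K} {V : Finset α} {τ : Sym2 α → Fin 3} {E : Env α} {v : ℕ → α}

omit [Fintype α] in
theorem rul3_mem (hS : Sat k V τ E v) (M : ℕ) {j : ℕ} (hj : j < k.n) :
    v j ∈ (bs k.n M).image v ↔ tb M j = true := by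
  simp only [mem_image, mem_bs]
  refine ⟨?_, fun e => ⟨j, ⟨hj, e⟩, rfl⟩⟩
  rintro ⟨l, ⟨h1, h2⟩, e⟩
  rwa [← hS.inj l h1 j hj e]

theorem rul3_aux (hO : Ok m V τ E) (hS : Sat k V τ E v) {i U : ℕ} (hU : df (un k.n i k.nm) i = U)
    (h1 : nz i = true) (h2 : nz (df i (ful k.n)) = false)
    (h3 : ∀ j < k.n, tb i j = false ∨ tb k.lq j = true ∧ k.cl j = true) :
    (bs k.n i).image v ⊆ E.Q ∧ ((bs k.n i).image v).Nonempty ∧
      Cov V τ ((bs k.n i).image v) ((bs k.n U).image v) ∧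
      Disjoint ((bs k.n i).image v) ((bs k.n U).image v) ∧ (∀ j, tb U j = true → j < k.n) ∧
      ∀ z ∈ (bs k.n (df (df (ful k.n) i) U)).image v, (z ∈ E.Q ∨ z ∈ E.T) ∧
        z ∉ (bs k.n i).image v ∧ z ∉ (bs k.n U).image v := by
  have e1 : ∀ j, tb U j = true ↔
      (∃ l < k.n, tb i l = true ∧ j < k.n ∧ k.aj l j = true) ∧ tb i j = false := fun j => by
    rw [← hU, tb_df, Bool.and_eq_true, tb_un, Bool.not_eq_true']
    simp only [K.tb_nm]
  have e2 : ∀ j < k.n, tb i j = true → tb k.lq j = true ∧ k.cl j = true := fun j hj e =>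
    (h3 j hj).resolve_left (by simp [e])
  refine ⟨fun z hz => ?_, ?_, fun z hz y hy => ?_, disjoint_left.2 fun z hz hz' => ?_,
    fun j hj => ?_, fun z hz => ?_⟩
  · obtain ⟨j, hj, rfl⟩ := mem_image.1 hz
    exact hS.lq j (mem_bs.1 hj).1 (e2 j (mem_bs.1 hj).1 (mem_bs.1 hj).2).1
  · obtain ⟨j, hj⟩ := (nz_bit i).1 h1
    have h4 := (nz_false _).1 h2 j
    rw [tb_df, hj, tb_ful] at h4
    exact ⟨v j, (rul3_mem hS i (by simpa using h4)).2 hj⟩
  · obtain ⟨j, hj, rfl⟩ := mem_image.1 hz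
    obtain ⟨k1, k2⟩ := mem_bs.1 hj
    obtain ⟨l, hl, k3, rfl⟩ := cl_sound hO hS k1 (e2 j k1 k2).2 hy
      (Or.inl (hS.lq j k1 (e2 j k1 k2).1))
    rw [rul3_mem hS i hl, rul3_mem hS U hl, e1]
    cases k4 : tb i l
    · exact Or.inr ⟨⟨j, k1, k2, hl, k3⟩, rfl⟩
    · exact Or.inl rfl
  · obtain ⟨j, hj, rfl⟩ := mem_image.1 hz
    obtain ⟨k1, k2⟩ := mem_bs.1 hj
    have k3 := ((e1 j).1 ((rul3_mem hS U k1).1 hz')).2
    rw [k2] at k3
    exact absurd k3 (by decide)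
  · obtain ⟨⟨l, -, -, k1, -⟩, -⟩ := (e1 j).1 hj
    exact k1
  · obtain ⟨j, hj, rfl⟩ := mem_image.1 hz
    obtain ⟨k1, k2⟩ := mem_bs.1 hj
    simp only [tb_df, Bool.and_eq_true, Bool.not_eq_true'] at k2
    rw [rul3_mem hS i k1, rul3_mem hS U k1, k2.1.2, k2.2]
    exact ⟨hS.mem j k1, by decide, by decide⟩

theorem con7 (hO : Ok2 m V τ E) (hS : Sat k V τ E v) {i : ℕ} (h : conOk m k 7 i = true) :
    False := by
  simp only [conOk, frc_eq, Bool.and_eq_true, Bool.or_eq_true, Bool.not_eq_true', allB_iff,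
    anyB_iff, Nat.ble_eq] at h
  obtain ⟨⟨⟨⟨hr, h1⟩, h2⟩, h3⟩, h⟩ := h
  generalize hU : df (un k.n i k.nm) i = U at h
  obtain ⟨a1, a2, a3, a4, a5, a6⟩ := rul3_aux hO.ok hS hU h1 h2 h3
  have hA : Adm V τ E ((bs k.n i).image v) :=
    ⟨a1, fun w hw => by simp [hO.ok.omn (hO.ok.wm_false hr)] at hw⟩
  have c1 := card_img hS.inj i
  have c2 := card_img hS.inj U
  have c3 := card_img hS.inj (df (df (ful k.n) i) U)
  have b1 := hO.ok.a1 (Or.inl hr) _ _ hA a2 a3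
  obtain ⟨⟨k1, k2⟩, h⟩ := h.resolve_left (by omega)
  obtain ⟨b2, b3, b4, -⟩ := hO.ok.a2 (Or.inl hr) _ _ hA (by omega) a3 a4 (by omega)
  rcases h with ((h | h) | h) | ⟨j, hj, ⟨k3, k4⟩, k5⟩
  · have := b4 h.1
    omega
  · obtain ⟨j, hj⟩ := (nz_bit _).1 h
    rw [tb_land, Bool.and_eq_true] at hj
    have k3 := hS.dn j (a5 j hj.1) hj.2
    exact k3.2 (b3 _ ((rul3_mem hS U (a5 j hj.1)).2 hj.1) k3.1)
  · have k3 := card_le_card (show (bs k.n (df (df (ful k.n) i) U)).image v ⊆ E.T from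
      fun z hz => (b2 z (a6 z hz).1 (a6 z hz).2.1 (a6 z hz).2.2).1)
    have := hO.ok.cT
    omega
  · obtain ⟨k6, k7⟩ := b2 (v j) (hS.mem j hj) (by simp only [rul3_mem hS i hj, k3]; decide)
      (by simp only [rul3_mem hS U hj, k4]; decide)
    rcases np_sound hO.ok hS hj k5 with k8 | k8
    · exact hO.ok.dis _ k8 k6
    · omega

theorem con9 (hO : Ok2 m V τ E) (hS : Sat k V τ E v) {i : ℕ} (h : conOk m k 9 i = true) :
    False := by
  simp only [conOk, frc_eq, Bool.and_eq_true, Bool.or_eq_true, Bool.not_eq_true', allB_iff,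
    Nat.ble_eq] at h
  obtain ⟨⟨⟨⟨hr, h1⟩, h2⟩, h3⟩, h⟩ := h
  generalize hU : df (un k.n i k.nm) i = U at h
  obtain ⟨a1, a2, a3, -, -, a6⟩ := rul3_aux hO.ok hS hU h1 h2 h3
  have c1 := card_img hS.inj i
  have c2 := card_img hS.inj U
  have c3 := card_img hS.inj (df (df (ful k.n) i) U)
  have hB := a1.trans hO.ok.subQ
  have c4 := card_le_card (show (bs k.n (df (df (ful k.n) i) U)).image v ⊆
      V \ ((bs k.n i).image v ∪ (bs k.n U).image v) from fun z hz =>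
    mem_sdiff.2 ⟨hO.ok.memV (a6 z hz).1, fun e => (mem_union.1 e).elim (a6 z hz).2.1 (a6 z hz).2.2⟩)
  rcases h with ⟨k1, k2⟩ | ⟨⟨k1, k2⟩, k3⟩
  · have k3 := (nz_iff _).1 k2
    rw [sdiff_eq_empty_iff_subset.2 (hO.ok.con.2 _ _ hB a2 (by omega) a3), card_empty] at c4
    omega
  · have k4 := (hO.ok.fr hr).2.2.2 _ _ hB (by omega) a3 (by omega)
    omega

end Pool.Agent.Lib.MP_efe3d7_co.H
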