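import Pool.Agent.Lib.MP_efe3d7_co.H.Kf
import Pool.Agent.Lib.MP_efe3d7_co.H.ChkEq

/-! Contradiction rules, fourth part. -/

set_option autoImplicit false

open Finset

namespace Pool.Agent.Lib.MP_efe3d7_co.H

variable {α : Type} [Fintype α] [DecidableEq α]

variable {m : Md} {k : K} {V : Finset α} {τ : Sym2 α → Fin 3} {E : Env α} {v : ℕ → α}

theorem rul4_card (hO : Ok2 m V τ E) (hS : Sat k V τ E v) {i c : ℕ} (hi : i < k.n)
    (hd : tb k.dy i = true) (hc : c ≤ 4) (h : m.q0 = true ∨ c ≤ pc k.n k.lq) : c ≤ E.Q.card := by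
  rcases h with h | h
  · have h1 := hO.q3 h
    have h2 := hS.dy i hi hd
    have h3 : (E.Q \ E.Dr).card < E.Q.card := card_lt_card ⟨sdiff_subset, fun e =>
      (mem_sdiff.1 (e (hO.ok.dr1 _ h2).1)).2 h2⟩
    omega
  · rw [← card_img hS.inj] at h
    refine h.trans (card_le_card fun z hz => ?_)
    obtain ⟨j, hj, rfl⟩ := mem_image.1 hz
    exact hS.lq j (mem_bs.1 hj).1 (mem_bs.1 hj).2

theorem con14 (hO : Ok2 m V τ E) (hS : Sat k V τ E v) {i : ℕ} (h : conOk m k 14 i = true) :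
    False := by
  simp only [conOk, Bool.and_eq_true, Bool.or_eq_true, Nat.ble_eq, Nat.blt_eq] at h
  obtain ⟨⟨⟨⟨a1, a2⟩, a3⟩, a4⟩, a5⟩ := h
  have h1 := hO.dt a1 (rul4_card hO hS a2 a3 (by omega) a4) _ (hS.dy i a2 a3)
  rw [← card_img hS.inj] at a5
  refine absurd (a5.trans (card_le_card fun z hz => ?_)) (not_le.2 (Nat.lt_succ_of_le h1))
  obtain ⟨j, hj, rfl⟩ := mem_image.1 hz
  obtain ⟨b1, b2⟩ := mem_bs.1 hj
  rw [tb_land, Bool.and_eq_true] at b2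
  exact mem_inter.2 ⟨aj_sound hO.ok hS a2 b1 ((k.tb_nm i j).1 b2.1).2, hS.lt j b1 b2.2⟩

theorem con15 (hO : Ok2 m V τ E) (hS : Sat k V τ E v) {i : ℕ} (h : conOk m k 15 i = true) :
    False := by
  simp only [conOk, Bool.and_eq_true, Bool.or_eq_true, Nat.ble_eq, Nat.blt_eq, nz_bit,
    tb_land] at h
  obtain ⟨⟨⟨⟨a1, a2⟩, a3⟩, a4⟩, j, b1, b2⟩ := h
  obtain ⟨c1, c2⟩ := (k.tb_nm i j).1 b1
  exact hO.dd a1 (rul4_card hO hS a2 a3 le_rfl a4) _ (hS.dy i a2 a3) _ (hS.dy j c1 b2)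
    (aj_sound hO.ok hS a2 c1 c2)

end Pool.Agent.Lib.MP_efe3d7_co.H
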