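import Pool.Agent.Lib.MP_efe3d7_co.H.Chk

/-! The meaning of the tables of the checker. -/

set_option autoImplicit false

open Finset

namespace Pool.Agent.Lib.MP_efe3d7_co.H

variable {α : Type} [Fintype α] [DecidableEq α]

/-- The set of bits below `n`. -/
def bs (n m : ℕ) : Finset ℕ := (range n).filter fun i => tb m i = true

/-- The weight of a type given as a number. -/
noncomputable def wn (x : ℝ) (t : ℕ) : ℝ := if t = 1 then 0 else if t = 2 then -x else 1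

/-- The digits `0, ..., u - 1` of `cs` take exactly the values `0, ..., d - 1`. -/
def RG (cs u d : ℕ) : Prop := (range u).image (dig cs) = range d

/-- The colouring has the pattern `cs` on `v 0, ..., v (u - 1)`. -/
def Pat {β : Type} (v : ℕ → α) (u cs : ℕ) (c : α → β) : Prop :=
  ∀ i < u, ∀ j < u, (c (v i) = c (v j) ↔ dig cs i = dig cs j)

open Classical in
/-- The sum of the weights of the colourings with a given pattern. -/
noncomputable def SS (n : ℕ) (U : Finset α) (y : Sym2 α → ℝ) (v : ℕ → α) (u cs : ℕ) : ℝ :=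
  ∑ c : α → Fin n, if Pat v u cs c then W U y c else 0

/-- The factor of vertex `u` with colour `c` against the earlier vertices. -/
noncomputable def facR (x : ℝ) (ct cs u c : ℕ) : ℝ :=
  ∏ j ∈ range u, if dig cs j = c then wn x (ty ct u j) else 1

/-- The sum over the colours of `r` further vertices, as a polynomial in the number of colours. -/
noncomputable def locP (x : ℝ) (ct : ℕ) : ℕ → ℕ → ℕ → ℕ → Polynomial ℝ
  | 0, _, _, _ => 1
  | r + 1, u, cs, d =>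
    (Polynomial.X - Polynomial.C (d : ℝ)) * locP x ct r (u + 1) (sdg cs u d) (d + 1) +
      ∑ c ∈ range d, Polynomial.C (facR x ct cs u c) * locP x ct r (u + 1) (sdg cs u c) d

/-- The tables `p` describe the window `v`. -/
structure PS (m : Md) (p : Pre) (V : Finset α) (τ : Sym2 α → Fin 3) (E : Env α) (v : ℕ → α) :
    Prop where
  n8 : p.n ≤ 8
  s7 : p.s ≤ 7
  sn : p.s ≤ p.n
  inj : ∀ i < p.n, ∀ j < p.n, v i = v j → i = j
  mem : ∀ i < p.n, v i ∈ E.Q ∨ v i ∈ E.T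
  ha : ∀ i < p.n, ∀ j, tb (fld p.ha i) j = true → j < p.n ∧ i ≠ j ∧ τ s(v i, v j) ≠ 0
  has : ∀ i < p.n, ∀ j < p.n, tb (fld p.ha i) j = tb (fld p.ha j) i
  kns : ∀ i < p.n, ∀ j < p.n, tb (fld p.kn i) j = tb (fld p.kn j) i
  hak : ∀ i < p.n, ∀ j < p.n, tb (fld p.ha i) j = true → tb (fld p.kn i) j = true
  kn : ∀ i < p.n, ∀ j < p.n, i ≠ j → tb (fld p.kn i) j = true → tb (fld p.ha i) j = false →
    τ s(v i, v j) = 0
  int : ∀ i < p.n, p.s ≤ i → v i ∈ E.Q ∧ tb p.cl i = true ∧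
    ∀ j < p.n, i ≠ j → tb (fld p.kn i) j = true
  cl : ∀ i < p.n, tb p.cl i = true → ∀ z ∈ nb V τ (v i), v i ∈ E.Q ∨ z ∈ E.Q →
    ∃ j < p.n, tb (fld p.ha i) j = true ∧ v j = z
  lq : ∀ i < p.n, tb p.lq i = true → v i ∈ E.Q
  lt : ∀ i < p.n, tb p.lt i = true → v i ∈ E.T
  dn : ∀ i < p.n, tb p.dn i = true → v i ∈ E.Q ∧ v i ∉ E.Dr
  fb : ∀ i < p.n, ∀ j, tb (fld p.fb i) j = true → j < p.n ∧ i ≠ j ∧
    ∀ z ∈ nb V τ (v i), z ∈ nb V τ (v j) → ∃ l < p.n, v l = z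
  d4 : ∀ i < p.n, tb p.d4 i = true → 4 ≤ ds V τ E (v i)
  d5 : ∀ i < p.n, tb p.d5 i = true → 5 ≤ ds V τ E (v i)
  al : p.al = true → m.wm = false ∧ ∀ z, z ∈ E.Q ∨ z ∈ E.T → ∃ l < p.n, v l = z

/-- The types `ct` on `p.s + ni` vertices are meaningful. -/
def TyB (p : Pre) (ni ct : ℕ) : Prop :=
  p.s + ni ≤ p.n ∧ ∀ i < p.s + ni, ∀ j < p.s + ni, i ≠ j →
    ty ct i j ≤ 2 ∧ (tb (fld p.kn i) j = true ∨ ty ct i j ≤ 1)

/-- The types `ct` vanish on pairs with unknown status. -/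
def Pure (p : Pre) (ct : ℕ) : Prop :=
  ∀ i < p.s, ∀ j < p.s, i ≠ j → tb (fld p.kn i) j = false → ty ct i j = 0

/-- `(U, σ)` arises from `(V, τ)` by putting the types `ct` on the window. -/
structure ColG (p : Pre) (ni ct : ℕ) (V : Finset α) (τ : Sym2 α → Fin 3) (v : ℕ → α)
    (U : Finset α) (σ : Sym2 α → Fin 3) : Prop where
  mem : ∀ z, z ∈ U ↔ z ∈ V ∧ ∀ i < p.n, v i = z → i < p.s + ni
  out : ∀ a b, (∀ i < p.n, v i ≠ a) → σ s(a, b) = τ s(a, b)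
  inn : ∀ i < p.s + ni, ∀ j < p.s + ni, i ≠ j → (σ s(v i, v j)).val =
    if tb (fld p.kn i) j = true then ty ct i j else
      if ty ct i j = 1 then 1 else (τ s(v i, v j)).val

/-- The vertices of a column. -/
def cV (g : Col) (v : ℕ → α) (U : Finset α) : Finset α := if g.mg = true then U.erase (v g.b) else U

/-- The types of a column. -/
noncomputable def cT (g : Col) (v : ℕ → α) (σ : Sym2 α → Fin 3) : Sym2 α → Fin 3 :=
  if g.mg = true then mg σ (v g.a) (v g.b) else σ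

/-- The image of an index under the merge. -/
def rho (g : Col) (i : ℕ) : ℕ := if g.mg = true ∧ i = g.b then g.a else i

/-- The index is a vertex of the column. -/
def inW (p : Pre) (g : Col) (i : ℕ) : Prop := i < p.s + g.ni ∧ ¬ (g.mg = true ∧ i = g.b)

/-- The edges of a column `(V', τ')`. -/
structure Rep (p : Pre) (g : Col) (V : Finset α) (τ : Sym2 α → Fin 3) (v : ℕ → α)
    (V' : Finset α) (τ' : Sym2 α → Fin 3) : Prop where
  le : p.s + g.ni ≤ p.n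
  mg : g.mg = true → g.a < p.s ∧ g.b < p.s ∧ g.a ≠ g.b ∧ tb p.lq g.b = true ∧
    tb (fld p.fb g.a) g.b = true
  mem : ∀ z, z ∈ V' ↔ z ∈ V ∧ ∀ i < p.n, v i = z → inW p g i
  oo : ∀ a b, (∀ i < p.n, v i ≠ a) → (∀ i < p.n, v i ≠ b) → τ' s(a, b) = τ s(a, b)
  ow : ∀ i < p.s, ∀ z, (∀ l < p.n, v l ≠ z) → τ s(v i, z) ≠ 0 → τ' s(v (rho g i), z) ≠ 0
  wo : ∀ j, inW p g j → ∀ z ∈ V, (∀ l < p.n, v l ≠ z) → τ' s(v j, z) ≠ 0 →
    ∃ i < p.s, rho g i = j ∧ τ s(v i, z) ≠ 0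
  un : ∀ i < p.s, ∀ j < p.s, i ≠ j → tb (fld p.kn i) j = false → τ s(v i, v j) ≠ 0 →
    rho g i ≠ rho g j ∧ τ' s(v (rho g i), v (rho g j)) ≠ 0
  ct : ∀ i < p.s + g.ni, ∀ j < p.s + g.ni, rho g i ≠ rho g j → ty g.ct i j ≠ 0 →
    τ' s(v (rho g i), v (rho g j)) ≠ 0

/-- A labelling of the terminals that comes from a small cut of a column. -/
structure Lab (p : Pre) (V : Finset α) (τ : Sym2 α → Fin 3) (E : Env α) (v : ℕ → α)
    (J1 JS o1 o : ℕ) (O1 So : Finset α) : Prop where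
  j1 : ∀ i, tb J1 i = true → i < p.s ∧ v i ∈ E.Q
  js : ∀ i, tb JS i = true → i < p.s
  oQ : ∀ z ∈ O1, z ∈ E.Q ∧ ∀ l < p.n, v l ≠ z
  so : ∀ z ∈ So, ∀ l < p.n, v l ≠ z
  co1 : o1 = min 2 O1.card
  co : So.card ≤ o
  nO : ∀ y ∈ O1, ∀ z ∈ nb V τ y, z ∈ O1 ∨ z ∈ So ∨
    ∃ i, (tb J1 i = true ∨ tb JS i = true) ∧ v i = z
  nJ : ∀ i, tb J1 i = true → ∀ z ∈ nb V τ (v i), (∀ l < p.n, v l ≠ z) → z ∈ O1 ∨ z ∈ So
  nU : ∀ i, tb J1 i = true → ∀ j < p.s, i ≠ j → tb (fld p.kn i) j = false →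
    τ s(v i, v j) ≠ 0 → tb J1 j = true ∨ tb JS j = true
  adm : ∀ w, E.om = some w → ((O1 ∪ (bs p.s J1).image v) ∩ nb V τ w).card ≤ 1

/-- The tables of a configuration. -/
def preOf (m : Md) (k : K) (s : ℕ) : Pre := mkPre m k s id

/-- Deleting the base of a triangle with a cubic apex keeps the graph in the class. -/
def N1 (α : Type) [Fintype α] [DecidableEq α] : Prop :=
  ∀ (V : Finset α) (τ : Sym2 α → Fin 3) (r a b : α), Con3 V τ → r ∈ V → dg V τ r = 3 →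
    a ∈ nb V τ r → b ∈ nb V τ r → b ∈ nb V τ a → 4 ≤ dg V τ a → 4 ≤ dg V τ b →
    Con3 V (Function.update τ s(a, b) 0)

end Pool.Agent.Lib.MP_efe3d7_co.H
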