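import Pool.Agent.Lib.MP_efe3d7_co.H.Kf

/-! Occurrences of configurations. -/

set_option autoImplicit false

open Finset

namespace Pool.Agent.Lib.MP_efe3d7_co.H

variable {α : Type} [Fintype α] [DecidableEq α]

variable {m : Md} {p : Pre} {k : K} {V : Finset α} {τ : Sym2 α → Fin 3} {E : Env α} {v : ℕ → α}

theorem sub_eP {k : K} {a b : ℕ} (h : 2 ≤ k.eP a b) : k.P a b = k.eP a b := by
  rcases k.eP_cases a b with h1 | ⟨-, h1⟩
  · exact h1.symm
  · omega

theorem sub_sound (hO : Ok m V τ E) (hS : Sat k V τ E v) {k' : K} {σ : ℕ}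
    (h : subOk m k k' σ = true) : Sat k' V τ E fun i => v (hx σ i) := by
  simp only [subOk, frc_eq, Bool.and_eq_true, Bool.or_eq_true, Bool.not_eq_true', allB_iff,
    anyB_iff, Nat.ble_eq, Nat.blt_eq, Nat.beq_eq] at h
  obtain ⟨⟨-, hal⟩, hall⟩ := h
  have hlt : ∀ i < k'.n, hx σ i < k.n := fun i hi => (hall i hi).1.1.1.1.1.1.1
  have hpair : ∀ i < k'.n, ∀ j < k'.n, i ≠ j → hx σ i ≠ hx σ j ∧
      (k'.P i j = 0 ∨ k'.P i j = k.eP (hx σ i) (hx σ j) ∨
        (k'.P i j = 4 ∧ k.aj (hx σ i) (hx σ j) = true)) ∧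
      (k'.F i j = true → k.F (hx σ i) (hx σ j) = true ∧ ∀ z < k.n, (∃ l < k'.n, hx σ l = z) ∨
        k.eP (hx σ i) z = 1 ∨ k.eP (hx σ j) z = 1) := by
    have key : ∀ i < k'.n, ∀ j < i, hx σ i ≠ hx σ j ∧
        (k'.P i j = 0 ∨ k'.P i j = k.eP (hx σ i) (hx σ j) ∨
          (k'.P i j = 4 ∧ k.aj (hx σ i) (hx σ j) = true)) ∧
        (k'.F i j = true → k.F (hx σ i) (hx σ j) = true ∧ ∀ z < k.n, (∃ l < k'.n, hx σ l = z) ∨
          k.eP (hx σ i) z = 1 ∨ k.eP (hx σ j) z = 1) := by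
      intro i hi j hj
      obtain ⟨⟨h1, h2⟩, h3⟩ := (hall i hi).2 j hj
      refine ⟨Nat.ne_of_beq_eq_false h1, or_assoc.1 h2, fun hF => ?_⟩
      rcases h3 with h3 | h3
      · rw [hF] at h3
        exact absurd h3 (by simp)
      · exact ⟨h3.1, fun z hz => or_assoc.1 (h3.2 z hz)⟩
    intro i hi j hj hij
    rcases lt_or_gt_of_ne hij with h1 | h1
    · obtain ⟨a1, a2, a3⟩ := key j hj i h1
      rw [k'.P_comm, k.eP_comm, k.aj_comm] at a2
      rw [k'.F_comm, k.F_comm] at a3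
      refine ⟨a1.symm, a2, fun hF => ⟨(a3 hF).1, fun z hz => ?_⟩⟩
      rcases (a3 hF).2 z hz with b | b | b
      · exact Or.inl b
      · exact Or.inr (Or.inr b)
      · exact Or.inr (Or.inl b)
    · exact key i hi j h1
  have himp : ∀ {a b : Bool}, (a = false ∨ b = true) → a = true → b = true := by
    intro a b h1 h2
    rcases h1 with h1 | h1
    · rw [h2] at h1
      exact absurd h1 (by simp)
    · exact h1
  have hinj : ∀ i < k'.n, ∀ j < k'.n, hx σ i = hx σ j → i = j := by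
    intro i hi j hj e
    by_contra hij
    exact (hpair i hi j hj hij).1 e
  refine ⟨fun i hi j hj e => hinj i hi j hj (hS.inj _ (hlt i hi) _ (hlt j hj) e),
    fun i hi => hS.mem _ (hlt i hi),
    fun i hi h1 => hS.lq _ (hlt i hi) (himp (hall i hi).1.1.1.1.1.1.2 h1),
    fun i hi h1 => hS.lt _ (hlt i hi) (himp (hall i hi).1.1.1.1.1.2 h1),
    fun i hi h1 => hS.dy _ (hlt i hi) (himp (hall i hi).1.1.1.1.2 h1),
    fun i hi h1 => hS.dn _ (hlt i hi) (himp (hall i hi).1.1.1.2 h1),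
    fun i hi => (hall i hi).1.1.2.trans (el_sound hO hS (hlt i hi)),
    fun i hi h1 => ?_, fun i hi j hj hij => ?_, fun i hi j hj hij hF z hz1 hz2 => ?_,
    fun h1 z hz => ?_⟩
  · rcases (hall i hi).1.2 with h2 | h2
    · exact absurd h2 h1
    · rw [h2] at h1 ⊢
      exact hS.ex _ (hlt i hi) h1
  · obtain ⟨a1, a2, -⟩ := hpair i hi j hj hij
    obtain ⟨-, b2, b3, b4⟩ := hS.pr _ (hlt i hi) _ (hlt j hj) a1
    refine ⟨fun h1 => ?_, fun h1 => b2 ?_, fun h1 => b3 ?_, fun h1 => b4 ?_⟩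
    · exact eP_one hO hS (hlt i hi) (hlt j hj) a1 (by omega)
    · rw [sub_eP (by omega)]
      omega
    · rw [sub_eP (by omega)]
      omega
    · rcases a2 with a2 | a2 | a2
      · omega
      · rw [sub_eP (by omega)]
        omega
      · exact ((k.aj_iff _ _).1 a2.2).2
  · obtain ⟨a1, -, a3⟩ := hpair i hi j hj hij
    obtain ⟨b1, b2⟩ := a3 hF
    obtain ⟨l, hl, rfl⟩ := hS.fb _ (hlt i hi) _ (hlt j hj) a1 b1 z hz1 hz2
    rcases b2 l hl with ⟨l', hl', rfl⟩ | b | b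
    · exact ⟨l', hl', rfl⟩
    · obtain ⟨-, c2, c3⟩ := mem_nb.1 hz1
      exact absurd (eP_one hO hS (hlt i hi) hl (fun e => c2 (by rw [← e])) b) c3
    · obtain ⟨-, c2, c3⟩ := mem_nb.1 hz2
      exact absurd (eP_one hO hS (hlt j hj) hl (fun e => c2 (by rw [← e])) b) c3
  · rcases hal with h2 | ⟨h2, h3⟩
    · rw [h1] at h2
      exact absurd h2 (by simp)
    · obtain ⟨l, hl, rfl⟩ := hS.al h2 z hz
      have himg : (range k'.n).image (hx σ) = range k.n := by
        apply eq_of_subset_of_card_le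
        · intro a ha
          obtain ⟨i, hi, rfl⟩ := mem_image.1 ha
          exact mem_range.2 (hlt i (mem_range.1 hi))
        · rw [card_image_of_injOn fun i hi j hj e =>
            hinj i (mem_range.1 (mem_coe.1 hi)) j (mem_range.1 (mem_coe.1 hj)) e,
            card_range, card_range, h3]
      have hl2 : l ∈ (range k'.n).image (hx σ) := by
        rw [himg]
        exact mem_range.2 hl
      obtain ⟨i, hi, rfl⟩ := mem_image.1 hl2
      exact ⟨i, mem_range.1 hi, rfl⟩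

omit [Fintype α] in
theorem le_sound {m' : Md} (h : m'.le m = true) (hO : Ok2 m V τ E) : Ok2 m' V τ E := by
  simp only [Md.le, Bool.and_eq_true, Bool.or_eq_true, Bool.not_eq_true', beq_iff_eq] at h
  obtain ⟨⟨⟨⟨⟨h1, h2⟩, h3⟩, h4⟩, h5⟩, h6⟩ := h
  have himp : ∀ {a b : Bool}, (a = false ∨ b = true) → a = true → b = true := by
    intro a b h1 h2
    rcases h1 with h1 | h1
    · rw [h2] at h1
      exact absurd h1 (by simp)
    · exact h1
  have o := hO.ok
  refine ⟨⟨o.con, o.subQ, o.subT, o.dis, o.cT, o.nbq, fun h => o.omn (h2 ▸ h),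
    fun h => o.oms (h2 ▸ h), o.omv, o.ds3, o.dsT, fun h => o.big (himp h4 h), o.dr1, o.dr2, o.two,
    fun h => o.q2 (h1 ▸ h), fun h => o.a1 (h1 ▸ h2 ▸ h), fun h B U a1 a2 a3 a4 a5 => ?_,
    fun h => o.t0 (himp h3 h), fun h => o.nf (himp h5 h), fun h => o.fr (himp h6 h),
    fun h => o.safe (h1 ▸ h2 ▸ h)⟩, fun h => hO.sm (himp h5 h), fun h => hO.w (himp h6 h),
    fun h => hO.q3 (himp h3 h), fun h => hO.dt (h1 ▸ h), fun h => hO.dd (h1 ▸ h)⟩
  obtain ⟨b1, b2, b3, b4, b5⟩ := o.a2 (h1 ▸ h2 ▸ h) B U a1 a2 a3 a4 a5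
  exact ⟨b1, b2, fun h => b3 (himp h3 h),
    fun h => b4 (h.imp (himp h3) fun h' => h2 ▸ h'), b5⟩

omit [Fintype α] in
theorem sat_envW (hO : Ok m V τ E) (hf : m.fr = true) (hS : Sat k V τ E v) (h1 : k.al = false)
    (h2 : k.dy = 0) (h3 : k.dn = 0) {w : α} (hw : ∀ i < k.n, v i ≠ w) :
    Sat k V τ (envW V τ w) v := by
  have hQ := (hO.fr hf).1
  have hT : ∀ z, z ∉ E.T := fun z hz => hO.dis z (by rw [hQ]; exact hO.subT hz) hz
  have hq : ∀ i < k.n, v i ∈ E.Q := fun i hi => (hS.mem i hi).resolve_right (hT _)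
  have hm : ∀ i < k.n, v i ∈ (envW V τ w).Q := fun i hi =>
    mem_erase.2 ⟨hw i hi, hO.subQ (hq i hi)⟩
  have hd : ∀ i < k.n, ds V τ (envW V τ w) (v i) = ds V τ E (v i) := fun i hi => by
    rw [ds_Q (hm i hi), ds_Q (hq i hi)]
  refine ⟨hS.inj, fun i hi => Or.inl (hm i hi), fun i hi _ => hm i hi,
    fun i hi h => absurd (hS.lt i hi h) (hT _), fun i hi h => ?_, fun i hi h => ?_,
    fun i hi => ?_, fun i hi h => ?_, hS.pr, hS.fb, fun h => ?_⟩
  · rw [h2, tb_zero] at h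
    exact absurd h (by simp)
  · rw [h3, tb_zero] at h
    exact absurd h (by simp)
  · rw [hd i hi]
    exact hS.lo i hi
  · rw [hd i hi]
    exact hS.ex i hi h
  · rw [h1] at h
    exact absurd h (by simp)

end Pool.Agent.Lib.MP_efe3d7_co.H
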