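import Pool.Agent.Lib.MP_efe3d7_co.H.Kf

/-! Case distinctions without new vertices. -/

set_option autoImplicit false

open Finset

namespace Pool.Agent.Lib.MP_efe3d7_co.H

variable {α : Type} [Fintype α] [DecidableEq α]

variable {x : ℝ} {m : Md} {k : K}

theorem tre1_bit {a i : ℕ} {R : ℕ → Prop} (hi : R i) {j : ℕ} (h : tb a j = true → R j)
    (hj : tb (Nat.lor a (bt i)) j = true) : R j := by
  rw [tb_lor, tb_bt, Bool.or_eq_true, decide_eq_true_eq] at hj
  exact hj.elim h fun e => e ▸ hi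

omit [Fintype α] in
theorem tre1_sP {V : Finset α} {τ : Sym2 α → Fin 3} {E : Env α} {v : ℕ → α} (h : Sat k V τ E v)
    {i j d : ℕ} (hi : i < k.n) (hj : j < k.n) (hn : k.n ≤ 16) (hd : d < 8)
    (h1 : (d = 1 → τ s(v i, v j) = 0) ∧ (d = 2 → τ s(v i, v j) = 1) ∧
      (d = 3 → τ s(v i, v j) = 2) ∧ (2 ≤ d → τ s(v i, v j) ≠ 0)) : Sat (k.sP i j d) V τ E v := by
  refine ⟨h.inj, h.mem, h.lq, h.lt, h.dy, h.dn, h.lo, h.ex, fun a ha b hb hab => ?_, h.fb, h.al⟩
  rw [K.P_sP k (ha.trans_le hn) (hb.trans_le hn) (hi.trans_le hn) (hj.trans_le hn) hd]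
  split_ifs with h2
  · rcases h2 with ⟨rfl, rfl⟩ | ⟨rfl, rfl⟩
    · exact h1
    · rwa [Sym2.eq_swap]
  · exact h.pr a ha b hb hab

theorem v_loc {i : ℕ} (hi : i < k.n) (ha : Valid α x m { k with lq := Nat.lor k.lq (bt i) })
    (hb : Valid α x m { k with lt := Nat.lor k.lt (bt i) }) : Valid α x m k := by
  intro V τ E v hO h
  rcases h.mem i hi with h1 | h1
  · exact ha V τ E v hO { h with lq := fun j hj => tre1_bit (R := (v · ∈ E.Q)) h1 (h.lq j hj) }
  · exact hb V τ E v hO { h with lt := fun j hj => tre1_bit (R := (v · ∈ E.T)) h1 (h.lt j hj) }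

theorem v_door {i : ℕ} (hi : i < k.n) (hq : tb k.lq i = true)
    (ha : Valid α x m { k with dy := Nat.lor k.dy (bt i) })
    (hb : Valid α x m { k with dn := Nat.lor k.dn (bt i) }) : Valid α x m k := by
  intro V τ E v hO h
  by_cases h1 : v i ∈ E.Dr
  · exact ha V τ E v hO { h with dy := fun j hj => tre1_bit (R := (v · ∈ E.Dr)) h1 (h.dy j hj) }
  · exact hb V τ E v hO { h with
      dn := fun j hj => tre1_bit (R := fun l => v l ∈ E.Q ∧ v l ∉ E.Dr) ⟨h.lq i hi hq, h1⟩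
        (h.dn j hj) }

theorem v_deg {i : ℕ} (hi : i < k.n) (h6 : k.el m i ≤ 6)
    (ha : Valid α x m { k with ex := sdg k.ex i (k.el m i) })
    (hb : Valid α x m { k with lo := sdg k.lo i (Nat.succ (k.el m i)) }) : Valid α x m k := by
  intro V τ E v hO h
  rcases (el_sound hO.ok h hi).eq_or_lt with h1 | h1
  · refine ha V τ E v hO { h with ex := fun j hj => ?_ }
    change dig (sdg _ _ _) j ≠ 0 → _ = dig (sdg _ _ _) j
    rw [dig_sdg _ _ _ (by omega)]
    split_ifs with h2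
    · exact fun _ => h2 ▸ h1.symm
    · exact h.ex j hj
  · refine hb V τ E v hO { h with lo := fun j hj => ?_ }
    change dig (sdg _ _ _) j ≤ _
    rw [dig_sdg _ _ _ (by omega)]
    split_ifs with h2
    · exact h2 ▸ h1
    · exact h.lo j hj

theorem v_adj {i j : ℕ} (hi : i < k.n) (hj : j < k.n) (hij : i ≠ j) (hn : k.n ≤ 16)
    (ha : Valid α x m (k.sP i j 1)) (hb : Valid α x m (k.sP i j 4)) : Valid α x m k := by
  intro V τ E v hO h
  by_cases h1 : τ s(v i, v j) = 0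
  · exact ha V τ E v hO (tre1_sP h hi hj hn (by omega) (by simp [h1]))
  · exact hb V τ E v hO (tre1_sP h hi hj hn (by omega) (by simp [h1]))

theorem v_typ {i j : ℕ} (hi : i < k.n) (hj : j < k.n) (hij : k.aj i j = true) (hn : k.n ≤ 16)
    (ha : Valid α x m (k.sP i j 2)) (hb : Valid α x m (k.sP i j 3)) : Valid α x m k := by
  intro V τ E v hO h
  obtain ⟨h2, h3⟩ := (K.aj_iff k i j).1 hij
  have h4 := (h.pr i hi j hj h2).2.2.2 h3
  by_cases h1 : τ s(v i, v j) = 1
  · exact ha V τ E v hO (tre1_sP h hi hj hn (by omega) (by simp [h1]))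
  · exact hb V τ E v hO (tre1_sP h hi hj hn (by omega)
      ⟨by omega, by omega, fun _ => by omega, fun _ => h4⟩)

end Pool.Agent.Lib.MP_efe3d7_co.H
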