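import Pool.Agent.Lib.MP_efe3d7_co.H.Kf

/-! Case distinctions with a new vertex. -/

set_option autoImplicit false

open Finset

namespace Pool.Agent.Lib.MP_efe3d7_co.H

variable {α : Type} [Fintype α] [DecidableEq α]

variable {x : ℝ} {m : Md} {k : K}


theorem sat_new {V : Finset α} {τ : Sym2 α → Fin 3} {E : Env α} {v : ℕ → α} (hS : Sat k V τ E v)
    (hf : k.fresh = true) {z : α} (hz : z ∈ E.Q ∨ z ∈ E.T) (hn : ∀ l < k.n, v l ≠ z) :
    Sat { k with n := Nat.succ k.n } V τ E (Function.update v k.n z) := by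
  simp only [K.fresh, Bool.and_eq_true, Bool.not_eq_true', allB_iff, Nat.ble_eq,
    Nat.beq_eq] at hf
  obtain ⟨⟨⟨⟨⟨⟨⟨⟨-, f1⟩, f2⟩, f3⟩, f4⟩, f5⟩, f6⟩, f7⟩, f8⟩ := hf
  have e1 : ∀ i < k.n, Function.update v k.n z i = v i := fun i hi =>
    Function.update_of_ne hi.ne _ _
  have e2 : Function.update v k.n z k.n = z := Function.update_self _ _ _
  have cs : ∀ i < Nat.succ k.n, i < k.n ∨ i = k.n := fun i hi => Nat.lt_succ_iff_lt_or_eq.1 hi
  refine ⟨?_, ?_, ?_, ?_, ?_, ?_, ?_, ?_, ?_, ?_, ?_⟩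
  · intro i hi j hj e
    rcases cs i hi with h1 | rfl <;> rcases cs j hj with h2 | rfl
    · rw [e1 i h1, e1 j h2] at e
      exact hS.inj i h1 j h2 e
    · rw [e1 i h1, e2] at e
      exact absurd e (hn i h1)
    · rw [e1 j h2, e2] at e
      exact absurd e.symm (hn j h2)
    · rfl
  · intro i hi
    rcases cs i hi with h1 | rfl
    · rw [e1 i h1]
      exact hS.mem i h1
    · rwa [e2]
  · intro i hi h
    rcases cs i hi with h1 | rfl
    · rw [e1 i h1]
      exact hS.lq i h1 h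
    · exact absurd (f2.symm.trans h) Bool.false_ne_true
  · intro i hi h
    rcases cs i hi with h1 | rfl
    · rw [e1 i h1]
      exact hS.lt i h1 h
    · exact absurd (f3.symm.trans h) Bool.false_ne_true
  · intro i hi h
    rcases cs i hi with h1 | rfl
    · rw [e1 i h1]
      exact hS.dy i h1 h
    · exact absurd (f4.symm.trans h) Bool.false_ne_true
  · intro i hi h
    rcases cs i hi with h1 | rfl
    · rw [e1 i h1]
      exact hS.dn i h1 h
    · exact absurd (f5.symm.trans h) Bool.false_ne_true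
  · intro i hi
    rcases cs i hi with h1 | rfl
    · rw [e1 i h1]
      exact hS.lo i h1
    · exact f6.le.trans (Nat.zero_le _)
  · intro i hi h
    rcases cs i hi with h1 | rfl
    · rw [e1 i h1]
      exact hS.ex i h1 h
    · exact absurd f7 h
  · intro i hi j hj hij
    change (k.P i j = 1 → _) ∧ (k.P i j = 2 → _) ∧ (k.P i j = 3 → _) ∧ (2 ≤ k.P i j → _)
    rcases cs i hi with h1 | rfl <;> rcases cs j hj with h2 | rfl
    · rw [e1 i h1, e1 j h2]
      exact hS.pr i h1 j h2 hij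
    · simp [(f8 i h1).1]
    · simp [k.P_comm k.n j, (f8 j h2).1]
    · exact absurd rfl hij
  · intro i hi j hj hij h y hy hy'
    change k.F i j = true at h
    rcases cs i hi with h1 | rfl <;> rcases cs j hj with h2 | rfl
    · rw [e1 i h1] at hy
      rw [e1 j h2] at hy'
      obtain ⟨l, hl, e⟩ := hS.fb i h1 j h2 hij h y hy hy'
      exact ⟨l, Nat.lt_succ_of_lt hl, (e1 l hl).trans e⟩
    · exact absurd ((f8 i h1).2.symm.trans h) Bool.false_ne_true
    · rw [k.F_comm] at h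
      exact absurd ((f8 j h2).2.symm.trans h) Bool.false_ne_true
    · exact absurd rfl hij
  · intro h
    exact absurd (f1.symm.trans h) Bool.false_ne_true

theorem tre2_n (hf : k.fresh = true) : k.n ≤ 14 := by
  simp only [K.fresh, Bool.and_eq_true, Nat.ble_eq] at hf
  exact hf.1.1.1.1.1.1.1.1

theorem tre2_sP {V : Finset α} {τ : Sym2 α → Fin 3} {E : Env α} {v : ℕ → α}
    (hS : Sat k V τ E v) (hn : k.n ≤ 16) {a b : ℕ} (ha : a < k.n) (hb : b < k.n)
    (h : τ s(v a, v b) ≠ 0) : Sat (k.sP a b 4) V τ E v := by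
  refine ⟨hS.inj, hS.mem, hS.lq, hS.lt, hS.dy, hS.dn, hS.lo, hS.ex, ?_, hS.fb, hS.al⟩
  intro i hi j hj hij
  change i < k.n at hi
  change j < k.n at hj
  rw [k.P_sP (by omega) (by omega) (by omega) (by omega) (by norm_num)]
  split_ifs with e
  · refine ⟨by omega, by omega, by omega, fun _ => ?_⟩
    rcases e with ⟨rfl, rfl⟩ | ⟨rfl, rfl⟩
    · exact h
    · rwa [Sym2.eq_swap]
  · exact hS.pr i hi j hj hij

theorem tre2_add {V : Finset α} {τ : Sym2 α → Fin 3} {E : Env α} {v : ℕ → α} {z : α} {k' : K}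
    (hn : k.n ≤ 14) (hk : k'.n = Nat.succ k.n) (hS : Sat k' V τ E (Function.update v k.n z))
    {i : ℕ} (hi : i < k.n) (hz : z ∈ nb V τ (v i)) :
    Sat (k'.sP i k.n 4) V τ E (Function.update v k.n z) :=
  tre2_sP hS (by omega) (by omega) (by omega) (by
    rw [Function.update_of_ne hi.ne, Function.update_self]
    exact (mem_nb.1 hz).2.2)

theorem tre2_mem {V : Finset α} {τ : Sym2 α → Fin 3} {E : Env α} (hO : Ok m V τ E)
    (hw : m.wm = false) {a z : α} (ha : a ∈ E.Q) (hz : z ∈ nb V τ a) : z ∈ E.Q ∨ z ∈ E.T := by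
  rcases hO.nbq a ha z hz with h | h | h
  · exact Or.inl h
  · exact Or.inr h
  · rw [hO.omn hw] at h
    cases h

theorem v_alx (hf : k.fresh = true) (ha : Valid α x m { k with al := true })
    (hb : Valid α x m { k with n := Nat.succ k.n }) : Valid α x m k := by
  intro V τ E v hO hS
  by_cases h : ∀ z, z ∈ E.Q ∨ z ∈ E.T → ∃ l < k.n, v l = z
  · exact ha V τ E v hO
      ⟨hS.inj, hS.mem, hS.lq, hS.lt, hS.dy, hS.dn, hS.lo, hS.ex, hS.pr, hS.fb, fun _ => h⟩
  · push Not at h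
    obtain ⟨z, hz, hn⟩ := h
    exact hb V τ E _ hO (sat_new hS hf hz hn)

theorem v_fbd {i j : ℕ} (hi : i < k.n) (hj : j < k.n) (hij : i ≠ j) (hw : m.wm = false)
    (hf : k.fresh = true) (hq : tb k.lq i = true ∨ tb k.lq j = true)
    (ha : Valid α x m { k with fb := Nat.lor k.fb (bt (px i j)) })
    (hb : Valid α x m ((k.sP j k.n 4).add i)) : Valid α x m k := by
  intro V τ E v hO hS
  have hn := tre2_n hf
  by_cases h : ∀ z ∈ nb V τ (v i), z ∈ nb V τ (v j) → ∃ l < k.n, v l = z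
  · refine ha V τ E v hO
      ⟨hS.inj, hS.mem, hS.lq, hS.lt, hS.dy, hS.dn, hS.lo, hS.ex, hS.pr, ?_, hS.al⟩
    intro a h1 b h2 hab e
    change a < k.n at h1
    change b < k.n at h2
    change tb (Nat.lor k.fb (bt (px i j))) (px a b) = true at e
    rw [tb_lor, tb_bt, Bool.or_eq_true, decide_eq_true_eq,
      px_inj (by omega) (by omega) (by omega) (by omega)] at e
    rcases e with e | ⟨rfl, rfl⟩ | ⟨rfl, rfl⟩
    · exact hS.fb a h1 b h2 hab e
    · exact h
    · exact fun z h3 h4 => h z h4 h3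
  · push Not at h
    obtain ⟨z, h1, h2, h3⟩ := h
    have hz : z ∈ E.Q ∨ z ∈ E.T := hq.elim (fun e => tre2_mem hO.ok hw (hS.lq i hi e) h1)
      fun e => tre2_mem hO.ok hw (hS.lq j hj e) h2
    exact hb V τ E _ hO (tre2_add hn rfl (tre2_add hn rfl (sat_new hS hf hz h3) hj h2) hi h1)

theorem v_exp {i : ℕ} (hi : i < k.n) (hw : m.wm = false) (hf : k.fresh = true)
    (hq : tb k.lq i = true)
    (hc : (cnt k.n fun j => !Nat.beq i j && !Nat.beq (k.eP i j) 1) < k.el m i)
    (ha : Valid α x m (k.add i)) : Valid α x m k := by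
  intro V τ E v hO hS
  have hQ := hS.lq i hi hq
  have h : ∃ z ∈ nb V τ (v i), ∀ l < k.n, v l ≠ z := by
    by_contra h
    push Not at h
    have h1 : nb V τ (v i) ⊆ ((range k.n).filter fun j =>
        (!Nat.beq i j && !Nat.beq (k.eP i j) 1) = true).image v := by
      intro z hz
      obtain ⟨l, hl, rfl⟩ := h z hz
      have e1 : i ≠ l := fun e => (mem_nb.1 hz).2.1 (e ▸ rfl)
      have e2 : k.eP i l ≠ 1 := fun e => (mem_nb.1 hz).2.2 (eP_one hO.ok hS hi hl e1 e)
      refine mem_image_of_mem _ (mem_filter.2 ⟨mem_range.2 hl, ?_⟩)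
      rw [Bool.and_eq_true, Bool.not_eq_true', Bool.not_eq_true', ← Bool.not_eq_true,
        ← Bool.not_eq_true, Nat.beq_eq, Nat.beq_eq]
      exact ⟨e1, e2⟩
    have h2 := (card_le_card h1).trans card_image_le
    have h3 := el_sound hO.ok hS hi
    rw [ds_Q hQ, dg] at h3
    rw [cnt_eq] at hc
    omega
  obtain ⟨z, h1, h2⟩ := h
  exact ha V τ E _ hO
    (tre2_add (tre2_n hf) rfl (sat_new hS hf (tre2_mem hO.ok hw hQ h1) h2) hi h1)

theorem v_prm {i : ℕ} (hi : i < k.n) (hw : m.wm = false) (hf : k.fresh = true)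
    (hd : tb k.dy i = true)
    (hc : (allB k.n fun l => Nat.beq i l || Nat.beq (k.eP i l) 1 || k.np m l) = true)
    (ha : Valid α x m { k.add i with lt := Nat.lor k.lt (bt k.n), ex := sdg k.ex k.n 3 }) :
    Valid α x m k := by
  intro V τ E v hO hS
  obtain ⟨-, z, h1, h2⟩ := hO.ok.dr1 _ (hS.dy i hi hd)
  rw [hO.ok.omn hw] at h2
  obtain ⟨h2, h3⟩ := h2.resolve_right (by simp)
  simp only [allB_iff, Bool.or_eq_true, Nat.beq_eq] at hc
  have h4 : ∀ l < k.n, v l ≠ z := by
    rintro l hl rfl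
    by_cases e1 : i = l
    · exact (mem_nb.1 h1).2.1 (e1 ▸ rfl)
    rcases hc l hl with (e | e) | e
    · exact e1 e
    · exact (mem_nb.1 h1).2.2 (eP_one hO.ok hS hi hl e1 e)
    · rcases np_sound hO.ok hS hl e with e2 | e2
      · exact hO.ok.dis _ e2 h2
      · omega
  have h5 : Sat (k.add i) V τ E (Function.update v k.n z) :=
    tre2_add (tre2_n hf) rfl (sat_new hS hf (Or.inr h2) h4) hi h1
  refine ha V τ E _ hO
    ⟨h5.inj, h5.mem, h5.lq, ?_, h5.dy, h5.dn, h5.lo, ?_, h5.pr, h5.fb, h5.al⟩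
  · intro j hj e
    change tb (Nat.lor k.lt (bt k.n)) j = true at e
    rw [tb_lor, tb_bt, Bool.or_eq_true, decide_eq_true_eq] at e
    rcases e with e | rfl
    · exact h5.lt j hj e
    · rwa [Function.update_self]
  · intro j hj
    change dig (sdg k.ex k.n 3) j ≠ 0 → _ = dig (sdg k.ex k.n 3) j
    rw [dig_sdg _ _ _ (by norm_num)]
    split_ifs with e
    · rw [e, Function.update_self]
      exact fun _ => h3
    · exact h5.ex j hj

end Pool.Agent.Lib.MP_efe3d7_co.H
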