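import Pool.Agent.Lib.MP_efe3d7_co.H.Crt
import Pool.Agent.Lib.MP_efe3d7_co.H.Base
import Pool.Agent.Lib.MP_efe3d7_co.H.Rul1
import Pool.Agent.Lib.MP_efe3d7_co.H.Rul2
import Pool.Agent.Lib.MP_efe3d7_co.H.Rul3
import Pool.Agent.Lib.MP_efe3d7_co.H.Rul4
import Pool.Agent.Lib.MP_efe3d7_co.H.Sub
import Pool.Agent.Lib.MP_efe3d7_co.H.Tre1
import Pool.Agent.Lib.MP_efe3d7_co.H.Tre2

/-! Soundness of the checker. -/

set_option autoImplicit false

open Finset

namespace Pool.Agent.Lib.MP_efe3d7_co.H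

variable {α : Type} [Fintype α] [DecidableEq α] {x : ℝ}

theorem con_sound {m : Md} {k : K} {V : Finset α} {τ : Sym2 α → Fin 3} {E : Env α} {v : ℕ → α}
    (hO : Ok2 m V τ E) (hS : Sat k V τ E v) {r i : ℕ} (h : conOk m k r i = true) : False :=
  match r, h with
  | 0, h => con0 hO hS h
  | 1, h => con1 hO hS h
  | 2, h => con2 hO hS h
  | 3, h => con3 hO hS h
  | 4, h => con4 hO hS h
  | 5, h => con5 hO hS h
  | 6, h => con6 hO hS h
  | 7, h => con7 hO hS h
  | 8, h => con8 hO hS h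
  | 9, h => con9 hO hS h
  | 10, h => con10 hO hS h
  | 11, h => con11 hO hS h
  | 12, h => con12 hO hS h
  | 13, h => con13 hO hS h
  | 14, h => con14 hO hS h
  | 15, h => con15 hO hS h
  | _ + 16, h => absurd h (by simp [conOk])

theorem blt_lt {a b : ℕ} (h : Nat.blt a b = true) : a < b := by simpa using h

theorem nbeq {a b : ℕ} (h : Nat.beq a b = false) : a ≠ b := Nat.ne_of_beq_eq_false h

theorem chk_sound (h1 : 1 / 4 ≤ x) (h2 : x ≤ 1 / 2) (hN : N1 α) (L : BT) (N : ℕ)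
    (hL : ∀ j < N, Valid α x (L.get j).1 (L.get j).2) (m : Md) (t : Tr) :
    ∀ k, chk L N m t k = true → Valid α x m k := by
  induction t with
  | con r i => exact fun k h V τ E v hO hS => (con_sound hO hS h).elim
  | ref j σ =>
    intro k h V τ E v hO hS
    simp only [chk, Bool.and_eq_true] at h
    exact hL j (blt_lt h.1.1) V τ E _ (le_sound h.1.2 hO) (sub_sound hO.ok hS h.2)
  | rfw j σ z =>
    intro k h V τ E v hO hS
    simp only [chk, Bool.and_eq_true, Bool.not_eq_true', allB_iff] at h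
    obtain ⟨⟨⟨⟨⟨⟨⟨⟨⟨⟨⟨a1, a2⟩, -⟩, a4⟩, a5⟩, a6⟩, a7⟩, a8⟩, a9⟩, a10⟩, a11⟩, a12⟩ := h
    have hz := blt_lt a8
    have e3 := Nat.eq_of_beq_eq_true a10
    have hq := hS.lq z hz a9
    have hd : dg V τ (v z) = 3 := by rw [← ds_Q hq, hS.ex z hz (by omega), e3]
    have hs := sub_sound hO.ok hS a12
    have hW : Ok2 mdW V τ (envW V τ (v z)) :=
      ⟨hO.w a2 _ (hO.ok.subQ hq) hd, fun h => absurd h (by decide), fun h => absurd h (by decide),
        fun h => absurd h (by decide), fun h => absurd h (by decide), fun h => absurd h (by decide)⟩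
    refine hL j (blt_lt a1) V τ _ _ (le_sound a4 hW) (sat_envW hO.ok a2 hs a5
      (Nat.eq_of_beq_eq_true a6) (Nat.eq_of_beq_eq_true a7) fun i hi e => ?_)
    have hb : hx σ i < k.n := by
      simp only [subOk, Bool.and_eq_true, allB_iff, frc_eq] at a12
      exact blt_lt (a12.2 i hi).1.1.1.1.1.1.1
    exact nbeq (a11 i hi) (hS.inj _ hb _ hz e)
  | cert c =>
    exact fun k h V τ E v hO hS =>
      certEx_sound h1 h2 hN hO.ok hS (c := c) (ex := false) h fun e => absurd e (by decide)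
  | base D t => exact fun k h V τ E v hO hS => base_sound h1 h2 hO.ok hS (D := D) (t := t) h
  | loc i a b ia ib =>
    intro k h
    simp only [chk, Bool.and_eq_true, K.frc_eq] at h
    exact v_loc (blt_lt h.1.1) (ia _ h.1.2) (ib _ h.2)
  | door i a b ia ib =>
    intro k h
    simp only [chk, Bool.and_eq_true, K.frc_eq] at h
    exact v_door (blt_lt h.1.1.1) h.1.1.2 (ia _ h.1.2) (ib _ h.2)
  | deg i a b ia ib =>
    intro k h
    simp only [chk, Bool.and_eq_true, K.frc_eq] at h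
    exact v_deg (blt_lt h.1.1.1) (Nat.le_of_ble_eq_true h.1.1.2) (ia _ h.1.2) (ib _ h.2)
  | adj i j a b ia ib =>
    intro k h
    simp only [chk, Bool.and_eq_true, K.frc_eq, Bool.not_eq_true'] at h
    exact v_adj (blt_lt h.1.1.1.1.1) (blt_lt h.1.1.1.1.2) (nbeq h.1.1.1.2)
      (Nat.le_of_ble_eq_true h.1.1.2) (ia _ h.1.2) (ib _ h.2)
  | typ i j a b ia ib =>
    intro k h
    simp only [chk, Bool.and_eq_true, K.frc_eq] at h
    exact v_typ (blt_lt h.1.1.1.1.1) (blt_lt h.1.1.1.1.2) h.1.1.1.2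
      (Nat.le_of_ble_eq_true h.1.1.2) (ia _ h.1.2) (ib _ h.2)
  | fbd i j a b ia ib =>
    intro k h
    simp only [chk, Bool.and_eq_true, K.frc_eq, Bool.not_eq_true', Bool.or_eq_true] at h
    obtain ⟨⟨⟨⟨⟨⟨⟨a1, a2⟩, a3⟩, a4⟩, a5⟩, a6⟩, a7⟩, a8⟩ := h
    exact v_fbd (blt_lt a1) (blt_lt a2) (nbeq a3) a4 a5 a6 (ia _ a7) (ib _ a8)
  | exp i a ia =>
    intro k h
    simp only [chk, Bool.and_eq_true, K.frc_eq, Bool.not_eq_true'] at h
    obtain ⟨⟨⟨⟨⟨a1, a2⟩, a3⟩, a4⟩, a5⟩, a6⟩ := h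
    exact v_exp (blt_lt a1) a2 a3 a4 (blt_lt a5) (ia _ a6)
  | prm i a ia =>
    intro k h
    simp only [chk, Bool.and_eq_true, K.frc_eq, Bool.not_eq_true'] at h
    obtain ⟨⟨⟨⟨⟨a1, a2⟩, a3⟩, a4⟩, a5⟩, a6⟩ := h
    exact v_prm (blt_lt a1) a2 a3 a4 a5 (ia _ a6)
  | alx a b ia ib =>
    intro k h
    simp only [chk, Bool.and_eq_true, K.frc_eq] at h
    exact v_alx h.1.1 (ia _ h.1.2) (ib _ h.2)

/-- The first `N` entries of the table are valid. -/
def VU (α : Type) [Fintype α] [DecidableEq α] (x : ℝ) (L : BT) (N : ℕ) : Prop :=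
  ∀ j < N, Valid α x (L.get j).1 (L.get j).2

theorem VU.succ {L : BT} {N : ℕ} (h : VU α x L N) (h' : Valid α x (L.get N).1 (L.get N).2) :
    VU α x L (N + 1) := fun j hj => by
  rcases Nat.lt_succ_iff_lt_or_eq.1 hj with e | e
  · exact h j e
  · exact e ▸ h'

theorem chkL_sound (h1 : 1 / 4 ≤ x) (h2 : x ≤ 1 / 2) (hN : N1 α) (L : BT) (ts : List Tr) :
    ∀ N, chkL L ts N = true → VU α x L N → VU α x L (N + ts.length) := by
  induction ts with
  | nil => exact fun N _ h => h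
  | cons t ts ih =>
    intro N h hL
    simp only [chkL, Bool.and_eq_true, frc_eq] at h
    have := ih _ h.2 (hL.succ (chk_sound h1 h2 hN L N hL _ t _ h.1))
    rwa [List.length_cons, ← add_assoc, add_right_comm]

end Pool.Agent.Lib.MP_efe3d7_co.H
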