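import Pool.Agent.Lib.MP_efe3d7_co.H.G0

/-! Soft weights as mixtures of the three types, in pairs. -/

set_option autoImplicit false

open Finset

namespace Pool.Agent.Lib.MP_efe3d7_co.H

variable {α : Type} [DecidableEq α] {V : Finset α} {τ : Sym2 α → Fin 3}

theorem soft1_aff (Φ : (α → ℝ) → ℝ)
    (haff : ∀ (t : α → ℝ) (w : α), ∃ p q : ℝ, ∀ s, Φ (Function.update t w s) = p + s * q)
    (t : α → ℝ) (w : α) (s : ℝ) : Φ (Function.update t w s) =
      Φ (Function.update t w 0) + s * (Φ (Function.update t w 1) - Φ (Function.update t w 0)) := by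
  obtain ⟨p, q, h⟩ := haff t w
  rw [h s, h 0, h 1]; ring

theorem soft1_bil (Φ : (α → ℝ) → ℝ)
    (haff : ∀ (t : α → ℝ) (w : α), ∃ p q : ℝ, ∀ s, Φ (Function.update t w s) = p + s * q)
    (t₀ : α → ℝ) {w₁ w₂ : α} (hne : w₁ ≠ w₂) : ∃ a b c d : ℝ, ∀ s t : ℝ,
      Φ (Function.update (Function.update t₀ w₁ s) w₂ t) = a + b * s + c * t + d * s * t := by
  obtain ⟨p0, q0, h0⟩ := haff (Function.update t₀ w₁ 0) w₂
  obtain ⟨p1, q1, h1⟩ := haff (Function.update t₀ w₁ 1) w₂
  refine ⟨p0, p1 - p0, q0, q1 - q0, fun s t => ?_⟩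
  rw [Function.update_comm hne, soft1_aff Φ haff, ← Function.update_comm hne,
    ← Function.update_comm hne, h0, h1]
  ring

theorem soft1_wt0 (x : ℝ) : wt x 0 = 1 := by simp [wt]

theorem soft1_wt1 (x : ℝ) : wt x 1 = 0 := by simp [wt]

theorem soft1_wt2 (x : ℝ) : wt x 2 = -x := by
  have h0 : (2 : Fin 3) ≠ 0 := by decide
  have h1 : (2 : Fin 3) ≠ 1 := by decide
  simp [wt, h0, h1]

theorem soft1_mix {x : ℝ} (h0 : 0 < x) (h1 : x ≤ 1 / 2) (Φ : (α → ℝ) → ℝ)
    (haff : ∀ (t : α → ℝ) (w : α), ∃ p q : ℝ, ∀ s, Φ (Function.update t w s) = p + s * q)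
    (t₀ : α → ℝ) {w₁ w₂ : α} (hne : w₁ ≠ w₂) (e₁ : t₀ w₁ = x ^ 2) (e₂ : t₀ w₂ = x ^ 2)
    (h : ∀ i j : Fin 3, i ≠ 0 ∨ j ≠ 0 →
      0 < Φ (Function.update (Function.update t₀ w₁ (wt x i)) w₂ (wt x j))) : 0 < Φ t₀ := by
  obtain ⟨a, b, c, d, hf⟩ := soft1_bil Φ haff t₀ hne
  have e : Φ t₀ = a + b * x ^ 2 + c * x ^ 2 + d * x ^ 2 * x ^ 2 := by
    rw [← hf, ← e₁, Function.update_eq_self, e₁, ← e₂, Function.update_eq_self]
  have f01 := h 0 1 (Or.inr (by decide))
  have f10 := h 1 0 (Or.inl (by decide))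
  have f22 := h 2 2 (Or.inl (by decide))
  have f11 := h 1 1 (Or.inl (by decide))
  rw [hf] at f01 f10 f22 f11
  simp only [soft1_wt0, soft1_wt1, soft1_wt2] at f01 f10 f22 f11
  have c1 : 0 < x ^ 2 + x ^ 3 := by positivity
  have c2 : 0 < x ^ 2 := by positivity
  have c3 : 0 ≤ (1 + x) ^ 2 * (1 - 2 * x) := mul_nonneg (by positivity) (by linarith)
  have k1 := mul_pos c1 f01
  have k2 := mul_pos c1 f10
  have k3 := mul_pos c2 f22
  have k4 := mul_nonneg c3 f11.le
  rw [e]
  nlinarith [k1, k2, k3, k4]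

theorem soft1_cnt (A : Finset α) (σ : α → Fin 3) {w₁ w₂ : α} (hne : w₁ ≠ w₂) (i j : Fin 3)
    (hij : i ≠ 0 ∨ j ≠ 0) :
    (A.filter fun w => Function.update (Function.update σ w₁ i) w₂ j w = 0).card ≤
      (((A.erase w₁).erase w₂).filter fun w => σ w = 0).card + 1 := by
  rcases hij with hi | hj
  · refine le_trans (card_le_card ?_) (card_insert_le w₂ _)
    intro w hw
    rw [mem_filter] at hw
    by_cases h2 : w = w₂
    · simp [h2]
    · by_cases h1 : w = w₁
      · subst h1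
        rw [Function.update_of_ne hne, Function.update_self] at hw
        exact absurd hw.2 hi
      · rw [Function.update_of_ne h2, Function.update_of_ne h1] at hw
        simp [h1, h2, hw.1, hw.2]
  · refine le_trans (card_le_card ?_) (card_insert_le w₁ _)
    intro w hw
    rw [mem_filter] at hw
    by_cases h2 : w = w₂
    · subst h2
      rw [Function.update_self] at hw
      exact absurd hw.2 hj
    · by_cases h1 : w = w₁
      · simp [h1]
      · rw [Function.update_of_ne h2, Function.update_of_ne h1] at hw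
        simp [h1, h2, hw.1, hw.2]

theorem soft1_fun (x : ℝ) (A : Finset α) (σ : α → Fin 3) (t₀ : α → ℝ) {w₁ w₂ : α}
    (hne : w₁ ≠ w₂) (m₁ : w₁ ∈ A) (m₂ : w₂ ∈ A) (i j : Fin 3) :
    (fun w => if w ∈ A then wt x (Function.update (Function.update σ w₁ i) w₂ j w) else t₀ w) =
      fun w => if w ∈ (A.erase w₁).erase w₂ then wt x (σ w)
        else Function.update (Function.update t₀ w₁ (wt x i)) w₂ (wt x j) w := by
  funext w
  by_cases h2 : w = w₂
  · subst h2
    simp [m₂]
  · by_cases h1 : w = w₁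
    · subst h1
      simp [m₁, Function.update_of_ne hne]
    · simp [h1, h2]

theorem soft1_one (x : ℝ) (t₀ : α → ℝ) (w₀ : α) (i : Fin 3) :
    (fun w => if w ∈ ({w₀} : Finset α) then wt x ((fun _ => i) w) else t₀ w) =
      Function.update t₀ w₀ (wt x i) := by
  funext w
  by_cases h : w = w₀
  · subst h
    simp
  · simp [h]

theorem se_ind {x : ℝ} (h0 : 0 < x) (h1 : x ≤ 1 / 2) (Φ : (α → ℝ) → ℝ)
    (haff : ∀ (t : α → ℝ) (w : α), ∃ p q : ℝ, ∀ s, Φ (Function.update t w s) = p + s * q)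
    (n : ℕ) : ∀ (A : Finset α) (M : Finset (Finset α)) (t₀ : α → ℝ), A.card = n →
      (∀ m ∈ M, m ⊆ A ∧ 2 ≤ m.card) → (∀ m ∈ M, ∀ m' ∈ M, m ≠ m' → Disjoint m m') →
      (∀ w ∈ A, t₀ w = x ^ 2) →
      (∀ σ : α → Fin 3, (∀ m ∈ M, ∃ w ∈ m, σ w ≠ 0) →
        2 * (A.filter fun w => σ w = 0).card ≤ A.card + 1 →
        0 < Φ fun w => if w ∈ A then wt x (σ w) else t₀ w) → 0 < Φ t₀ := by
  induction n using Nat.strong_induction_on with
  | _ n ih =>
  intro A M t₀ hn hM hd ht hσ
  have step : ∀ (w₁ w₂ : α) (M' : Finset (Finset α)), w₁ ≠ w₂ → w₁ ∈ A → w₂ ∈ A → M' ⊆ M →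
      (∀ m ∈ M', w₁ ∉ m ∧ w₂ ∉ m) → (∀ m ∈ M, m ∈ M' ∨ (w₁ ∈ m ∧ w₂ ∈ m)) → 0 < Φ t₀ := by
    intro w₁ w₂ M' hne m₁ m₂ hs hout hin
    have m₂' : w₂ ∈ A.erase w₁ := mem_erase.2 ⟨hne.symm, m₂⟩
    have hc : ((A.erase w₁).erase w₂).card + 2 = A.card := by
      have a1 := card_erase_add_one m₁
      have a2 := card_erase_add_one m₂'
      omega
    refine soft1_mix h0 h1 Φ haff t₀ hne (ht _ m₁) (ht _ m₂) fun i j hij => ?_
    refine ih _ (by omega) ((A.erase w₁).erase w₂) M' _ rfl ?_ ?_ ?_ ?_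
    · intro m hm
      refine ⟨fun w hw => ?_, (hM m (hs hm)).2⟩
      refine mem_erase.2 ⟨?_, mem_erase.2 ⟨?_, (hM m (hs hm)).1 hw⟩⟩
      · rintro rfl
        exact (hout m hm).2 hw
      · rintro rfl
        exact (hout m hm).1 hw
    · intro m hm m' hm' h
      exact hd m (hs hm) m' (hs hm') h
    · intro w hw
      have a2 := mem_erase.1 hw
      have a1 := mem_erase.1 a2.2
      rw [Function.update_of_ne a2.1, Function.update_of_ne a1.1]
      exact ht w a1.2
    · intro σ h1σ h2σ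
      rw [← soft1_fun x A σ t₀ hne m₁ m₂ i j]
      refine hσ _ ?_ ?_
      · intro m hm
        rcases hin m hm with h | h
        · obtain ⟨w, hw, hw0⟩ := h1σ m h
          have n1 : w ≠ w₁ := by
            rintro rfl
            exact (hout m h).1 hw
          have n2 : w ≠ w₂ := by
            rintro rfl
            exact (hout m h).2 hw
          exact ⟨w, hw, by rwa [Function.update_of_ne n2, Function.update_of_ne n1]⟩
        · rcases hij with hi | hj
          · exact ⟨w₁, h.1, by rwa [Function.update_of_ne hne, Function.update_self]⟩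
          · exact ⟨w₂, h.2, by rwa [Function.update_self]⟩
      · have := soft1_cnt A σ hne i j hij
        omega
  rcases M.eq_empty_or_nonempty with hM0 | ⟨m, hm⟩
  · subst hM0
    by_cases h2 : 1 < A.card
    · obtain ⟨w₁, m₁, w₂, m₂, hne⟩ := one_lt_card.1 h2
      exact step w₁ w₂ ∅ hne m₁ m₂ (Subset.refl _) (by simp) (by simp)
    · rcases A.eq_empty_or_nonempty with hA | ⟨w₀, hw₀⟩
      · subst hA
        have := hσ (fun _ => 1) (by simp) (by simp)
        simpa using this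
      · have hA : A = {w₀} := by
          refine eq_singleton_iff_unique_mem.2 ⟨hw₀, fun w hw => ?_⟩
          exact card_le_one.1 (by omega) w hw w₀ hw₀
        subst hA
        have hle : ∀ σ : α → Fin 3,
            2 * (({w₀} : Finset α).filter fun w => σ w = 0).card ≤ ({w₀} : Finset α).card + 1 := by
          intro σ
          have := card_filter_le ({w₀} : Finset α) fun w => σ w = 0
          rw [card_singleton] at this ⊢
          omega
        have f0 := hσ (fun _ => 0) (by simp) (hle _)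
        have f2 := hσ (fun _ => 2) (by simp) (hle _)
        rw [soft1_one, soft1_wt0] at f0
        rw [soft1_one, soft1_wt2] at f2
        obtain ⟨p, q, hf⟩ := haff t₀ w₀
        have e : Φ t₀ = p + x ^ 2 * q := by
          rw [← hf, ← ht w₀ hw₀, Function.update_eq_self]
        rw [hf] at f0 f2
        have k1 := mul_pos h0 f0
        have k2 := mul_pos (show 0 < 1 - x by linarith) f2
        rw [e]
        nlinarith [k1, k2]
  · obtain ⟨w₁, m₁, w₂, m₂, hne⟩ := one_lt_card.1 (show 1 < m.card from (hM m hm).2)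
    refine step w₁ w₂ (M.erase m) hne ((hM m hm).1 m₁) ((hM m hm).1 m₂) (erase_subset _ _) ?_ ?_
    · intro m' hm'
      have a := mem_erase.1 hm'
      have hdj := hd m hm m' a.2 (Ne.symm a.1)
      exact ⟨disjoint_left.1 hdj m₁, disjoint_left.1 hdj m₂⟩
    · intro m' hm'
      by_cases h : m' = m
      · subst h
        exact Or.inr ⟨m₁, m₂⟩
      · exact Or.inl (mem_erase.2 ⟨h, hm'⟩)

end Pool.Agent.Lib.MP_efe3d7_co.H
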