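import Pool.Agent.Lib.MP_efe3d7_co.H.Fr1
import Pool.Agent.Lib.MP_efe3d7_co.H.Fr2

/-! Fragments with large degrees: single common neighbours. -/

set_option autoImplicit false

open Finset

namespace Pool.Agent.Lib.MP_efe3d7_co.H

variable {α : Type} [DecidableEq α] {V : Finset α} {τ : Sym2 α → Fin 3}

/-- A minimal thick fragment whose vertices have degree at least five or are cubic doors. -/
structure Big (V : Finset α) (τ : Sym2 α → Fin 3) (Q T : Finset α) : Prop where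
  con : Con3 V τ
  min : MinThick V τ Q T
  q0 : 3 ≤ (core V τ Q T).card
  deg : ∀ v ∈ Q, 5 ≤ dg V τ v ∨ (dg V τ v = 3 ∧ v ∉ core V τ Q T)

theorem Big.three {Q T : Finset α} (h : Big V τ Q T) : 3 ≤ Q.card :=
  h.q0.trans (card_le_card sdiff_subset)

theorem s3a_door {Q T : Finset α} {d : α} (hd : d ∈ Q) (hd0 : d ∉ core V τ Q T) :
    ∃ t ∈ T, nb V τ t ∩ Q = {d} := by
  by_contra k
  exact hd0 (mem_core.2 ⟨hd, fun t ht e => k ⟨t, ht, e⟩⟩)

theorem Big.doors {Q T : Finset α} (h : Big V τ Q T) {d d' : α} (hd : d ∈ Q)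
    (hd0 : d ∉ core V τ Q T) (hd' : d' ∈ Q) (hd0' : d' ∉ core V τ Q T) : d' ∉ nb V τ d := by
  obtain ⟨t, ht, e⟩ := s3a_door hd hd0
  obtain ⟨t', ht', e'⟩ := s3a_door hd' hd0'
  have h1 : core V τ Q T ⊆ Q.erase d := fun c hc =>
    mem_erase.2 ⟨fun k => hd0 (k ▸ hc), (mem_core.1 hc).1⟩
  have h2 := card_le_card h1
  rw [card_erase_of_mem hd] at h2
  have h3 := h.q0
  exact h.min.door_two h.con (by omega) ht ht' e e'

/-- The core has three neighbours. -/
theorem Big.slots {Q T : Finset α} (h : Big V τ Q T) :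
    ∃ U : Finset α, U.card ≤ 3 ∧ Cov V τ (core V τ Q T) U := by
  classical
  have hk := h.min.1
  refine ⟨T.image fun t => if e : ∃ d, nb V τ t ∩ Q = {d} then e.choose else t,
    card_image_le.trans hk.cT.le, fun a ha b hb => ?_⟩
  obtain ⟨haQ, ha0⟩ := mem_core.1 ha
  rcases hk.cov a haQ b hb with k | k
  · by_cases k0 : b ∈ core V τ Q T
    · exact Or.inl k0
    · obtain ⟨t, ht, e⟩ := s3a_door k k0
      have e1 : ∃ d, nb V τ t ∩ Q = {d} := ⟨b, e⟩
      refine Or.inr (mem_image.2 ⟨t, ht, ?_⟩)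
      rw [dif_pos e1]
      exact singleton_injective (e1.choose_spec.symm.trans e)
  · refine Or.inr (mem_image.2 ⟨b, k, dif_neg ?_⟩)
    rintro ⟨d, e⟩
    have h1 : a ∈ nb V τ b ∩ Q := mem_inter.2 ⟨nb_symm (hk.subQ haQ) hb, haQ⟩
    rw [e, mem_singleton] at h1
    exact ha0 b k (h1 ▸ e)

-- BEGIN Soft3b
theorem s3b_door {Q T : Finset α} {d : α} (hd : d ∈ Q) (h0 : d ∉ core V τ Q T) :
    ∃ t ∈ T, nb V τ t ∩ Q = {d} := by
  by_contra k
  push Not at k
  exact h0 (mem_core.2 ⟨hd, k⟩)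

theorem s3b_card4 (a b : α) {S : Finset α} (hS : S.card ≤ 2) :
    (insert a (insert b S)).card ≤ 4 := by
  have h1 := card_insert_le a (insert b S)
  have h2 := card_insert_le b S
  omega

/-- The case of a common neighbour of degree at most four. -/
theorem s3b_small {Q T : Finset α} (h : Big V τ Q T) {u v w : α} (hu : u ∈ Q) (hv : v ∈ Q)
    (huv : u ≠ v) (hw : w ∈ Q ∨ w ∈ T) (hwu : u ∈ nb V τ w) (hwv : v ∈ nb V τ w)
    (h4 : dg V τ w ≤ 4) : w ∉ core V τ Q T ∧ nb V τ w ∩ Q ⊆ {u, v} := by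
  have hth := h.min.1
  have hdis := disjoint_left.1 hth.dis
  have hsub : ({u, v} : Finset α) ⊆ nb V τ w ∩ Q := by
    intro a ha
    rcases mem_insert.1 ha with rfl | ha
    · exact mem_inter.2 ⟨hwu, hu⟩
    · rw [mem_singleton.1 ha]; exact mem_inter.2 ⟨hwv, hv⟩
  have hc2 : ({u, v} : Finset α).card = 2 := card_pair huv
  have hsplit := card_inter_add_card_sdiff (nb V τ w) Q
  unfold dg at h4
  have key : w ∉ core V τ Q T ∧ (nb V τ w ∩ Q).card ≤ 2 := by
    rcases hw with hw | hw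
    · rcases h.deg w hw with k | ⟨k, k0⟩
      · unfold dg at k; omega
      · obtain ⟨t, ht, e⟩ := s3b_door hw k0
        have h1 : w ∈ nb V τ t := (mem_inter.1 (e ▸ mem_singleton_self w)).1
        have h2 : t ∈ nb V τ w \ Q :=
          mem_sdiff.2 ⟨nb_symm (hth.subT ht) h1, fun q => hdis q ht⟩
        have h3 := card_pos.2 ⟨t, h2⟩
        unfold dg at k
        exact ⟨k0, by omega⟩
    · have := hth.out w hw
      exact ⟨fun q => hdis (mem_core.1 q).1 hw, by omega⟩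
  exact ⟨key.1, (eq_of_subset_of_card_le hsub (by omega)).symm.subset⟩

/-- The count of the cover when the side is not inside the fragment. -/
theorem s3b_count {Q T : Finset α} (hc : Con3 V τ) (hth : Thick V τ Q T) {Y X : Finset α} {u : α}
    (hY : Y ⊆ V) (hX : X.card ≤ 3) (hcov : Cov V τ Y X) (hu : u ∈ Q) (huY : u ∉ Y)
    (hn : ¬ Y ⊆ Q) : (X ∩ Q).card ≤ (T ∩ Y).card := by
  have hdis := disjoint_left.1 hth.dis
  have hsplit := card_inter_add_card_sdiff X Q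
  have far : ∀ a ∈ V, a ∉ Q → a ∉ T → ∀ b ∈ nb V τ a, b ∉ Q := fun a ha h1 h2 b hb hq =>
    (hth.cov b hq a (nb_symm ha hb)).elim h1 h2
  by_cases hB : (Y \ (Q ∪ T)).Nonempty
  · have hc2 : Cov V τ (Y \ (Q ∪ T)) (T ∩ Y ∪ X \ Q) := by
      intro a ha b hb
      simp only [mem_sdiff, mem_union, mem_inter, not_or] at ha ⊢
      have h1 := far a (hY ha.1) ha.2.1 ha.2.2 b hb
      have h2 := hcov a ha.1 b hb
      tauto
    have h3 := hc.three (sdiff_subset.trans hY) hB hc2 (hth.subQ hu)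
      (fun q => huY (mem_sdiff.1 q).1) (by
        simp only [mem_sdiff, mem_union, mem_inter, not_or]
        tauto)
    have := card_union_le (T ∩ Y) (X \ Q)
    omega
  have hin : ∀ a ∈ Y, a ∉ Q → a ∈ T := fun a ha h1 => by
    by_contra h2
    exact hB ⟨a, by simp [ha, h1, h2]⟩
  obtain ⟨t, htY, htQ⟩ := not_subset.1 hn
  have htT := hin t htY htQ
  have h1 : 0 < (T ∩ Y).card := card_pos.2 ⟨t, mem_inter.2 ⟨htT, htY⟩⟩
  by_contra k
  have hT3 := hth.cT
  have hTs := card_inter_add_card_sdiff T Y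
  by_cases c1 : (T ∩ Y).card = 1
  · have h2 : nb V τ t \ Q ⊆ X \ Q := by
      intro b hb
      obtain ⟨hb1, hb2⟩ := mem_sdiff.1 hb
      refine mem_sdiff.2 ⟨(hcov t htY b hb1).resolve_left fun q => ?_, hb2⟩
      have e := card_le_one.1 c1.le b (mem_inter.2 ⟨hin b q hb2, q⟩) t (mem_inter.2 ⟨htT, htY⟩)
      exact (mem_nb.1 hb1).2.1 e
    have h3 := card_le_card h2
    have h4 := hth.out t htT
    omega
  · have hXQ : ∀ b ∈ X, b ∈ Q := fun b hb => by
      by_contra q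
      have := card_pos.2 ⟨b, mem_sdiff.2 ⟨hb, q⟩⟩
      omega
    obtain ⟨t', ht'⟩ := card_eq_one.1 (show (T \ Y).card = 1 by omega)
    have m1 : ∀ b, b ∈ T → b ∉ Y → b = t' := fun b h1 h2 =>
      mem_singleton.1 (ht' ▸ mem_sdiff.2 ⟨h1, h2⟩)
    obtain ⟨m2, m3⟩ : t' ∈ T ∧ t' ∉ Y := mem_sdiff.1 (ht' ▸ mem_singleton_self t')
    have hZ := hcov.compl
    have m4 : t' ∈ V \ (Y ∪ X) := by
      simp only [mem_sdiff, mem_union, not_or]
      exact ⟨hth.subT m2, m3, fun q => hdis (hXQ _ q) m2⟩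
    have h4 := hth.out t' m2
    obtain ⟨b, hb⟩ := card_pos.1 (show 0 < (nb V τ t' \ Q).card by omega)
    obtain ⟨hb1, hb2⟩ := mem_sdiff.1 hb
    have hb3 : b ∈ V \ (Y ∪ X) := (hZ t' m4 b hb1).resolve_right fun q => hb2 (hXQ _ q)
    have hb4 : b ∉ T := fun q => (mem_nb.1 hb1).2.1 (m1 b q fun q' => by simp [q'] at hb3)
    have hc3 : Cov V τ ((V \ (Y ∪ X)) \ (Q ∪ T)) {t'} := by
      intro a ha c hcn
      obtain ⟨a1, a2⟩ := mem_sdiff.1 ha
      simp only [mem_union, not_or] at a2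
      have e1 := far a (mem_sdiff.1 a1).1 a2.1 a2.2 c hcn
      have e2 : c ∈ V \ (Y ∪ X) := (hZ a a1 c hcn).resolve_right fun q => e1 (hXQ _ q)
      by_cases e3 : c ∈ T
      · exact Or.inr (mem_singleton.2 (m1 c e3 fun q' => by simp [q'] at e2))
      · exact Or.inl (mem_sdiff.2 ⟨e2, by simp [e1, e3]⟩)
    have h5 := hc.three (sdiff_subset.trans sdiff_subset)
      ⟨b, mem_sdiff.2 ⟨hb3, by simp [hb2, hb4]⟩⟩ hc3 (hth.subQ hu) (by simp [hu])
      (fun q => hdis hu (mem_singleton.1 q ▸ m2))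
    simp at h5

theorem Big.single {Q T : Finset α} (h : Big V τ Q T) {u v w : α} (hu : u ∈ core V τ Q T)
    (hv : v ∈ core V τ Q T) (huv : u ≠ v) {Y S : Finset α} (hY : Y ⊆ V) (hu' : u ∉ Y)
    (hv' : v ∉ Y) (hS : S.card ≤ 2) (hcov : Cov V τ Y (insert u (insert v S))) (hw : w ∈ Y)
    (hwu : w ∈ nb V τ u) (hwv : w ∈ nb V τ v)
    (hone : ∀ y ∈ Y, y ∈ nb V τ u ∨ y ∈ nb V τ v → y = w) :
    w ∉ core V τ Q T ∧ nb V τ w ∩ core V τ Q T = {u, v} := by
  have hth := h.min.1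
  have hdis := disjoint_left.1 hth.dis
  have huQ := (mem_core.1 hu).1
  have hvQ := (mem_core.1 hv).1
  have huw : u ∈ nb V τ w := nb_symm (hth.subQ huQ) hwu
  have hvw : v ∈ nb V τ w := nb_symm (hth.subQ hvQ) hwv
  have hwQ : w ∈ Q ∨ w ∈ T := hth.cov u huQ w hwu
  suffices key : w ∉ core V τ Q T ∧ ∀ c ∈ nb V τ w, c ∈ core V τ Q T → c = u ∨ c = v by
    refine ⟨key.1, ?_⟩
    ext c
    simp only [mem_inter, mem_insert, mem_singleton]
    refine ⟨fun k => key.2 c k.1 k.2, ?_⟩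
    rintro (rfl | rfl)
    · exact ⟨huw, hu⟩
    · exact ⟨hvw, hv⟩
  obtain ⟨S0, hS0⟩ : ∃ S0, S0 = S \ insert u (insert v Y) := ⟨_, rfl⟩
  have mS : ∀ a, a ∈ S0 ↔ a ∈ S ∧ a ≠ u ∧ a ≠ v ∧ a ∉ Y := fun a => by
    simp [hS0, not_or]
  have cS : S0.card ≤ 2 := (card_le_card (hS0 ▸ sdiff_subset)).trans hS
  have hcov' : ∀ a ∈ Y, ∀ b ∈ nb V τ a, b ∈ Y ∨ b = u ∨ b = v ∨ b ∈ S0 := fun a ha b hb => by
    have := hcov a ha b hb
    simp only [mem_insert] at this
    rw [mS]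
    tauto
  have small : dg V τ w ≤ 4 →
      w ∉ core V τ Q T ∧ ∀ c ∈ nb V τ w, c ∈ core V τ Q T → c = u ∨ c = v := fun h4 => by
    obtain ⟨k1, k2⟩ := s3b_small h huQ hvQ huv hwQ huw hvw h4
    exact ⟨k1, fun c c1 c2 => by simpa using k2 (mem_inter.2 ⟨c1, (mem_core.1 c2).1⟩)⟩
  by_cases hne : (Y.erase w).Nonempty
  swap
  · refine small ((card_le_card fun b hb => ?_).trans (s3b_card4 u v cS))
    have e1 := hcov' w hw b hb
    have e2 : b ∉ Y := fun q => hne ⟨b, mem_erase.2 ⟨(mem_nb.1 hb).2.1, q⟩⟩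
    simp only [mem_insert]
    tauto
  have hYV : Y.erase w ⊆ V := (erase_subset _ _).trans hY
  have cX : (insert w S0).card ≤ 3 := (card_insert_le w S0).trans (by omega)
  have cv : Cov V τ (Y.erase w) (insert w S0) := by
    intro a ha b hb
    obtain ⟨a1, a2⟩ := mem_erase.1 ha
    simp only [mem_erase, mem_insert]
    rcases hcov' a a2 b hb with e | e | e | e
    · tauto
    · exact absurd (hone a a2 (Or.inl (e ▸ nb_symm (hY a2) hb))) a1
    · exact absurd (hone a a2 (Or.inr (e ▸ nb_symm (hY a2) hb))) a1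
    · tauto
  have dX : Disjoint (Y.erase w) (insert w S0) := disjoint_left.2 fun a ha hb => by
    simp only [mem_erase, mem_insert, mS] at ha hb
    tauto
  have uX : u ∉ insert w S0 := by
    simp only [mem_insert, mS, not_or]
    exact ⟨fun q => hu' (q ▸ hw), fun q => q.2.1 rfl⟩
  have vX : v ∉ insert w S0 := by
    simp only [mem_insert, mS, not_or]
    exact ⟨fun q => hv' (q ▸ hw), fun q => q.2.2.1 rfl⟩
  have uY : u ∉ Y.erase w := fun q => hu' (mem_erase.1 q).2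
  have vY : v ∉ Y.erase w := fun q => hv' (mem_erase.1 q).2
  by_cases hsub : Y.erase w ⊆ Q
  · exfalso
    by_cases h2 : 2 ≤ (Y.erase w).card
    · exact uX ((h.min.ax h.con hsub h2 cv dX cX).1 u huQ uY).1
    obtain ⟨y, hy⟩ := card_eq_one.1 (show (Y.erase w).card = 1 by
      have := card_pos.2 hne
      omega)
    have my : y ∈ Y.erase w := hy ▸ mem_singleton_self y
    have ey : ∀ a ∈ Y, a = w ∨ a = y := fun a ha => by
      by_cases q : a = w
      · exact Or.inl q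
      · exact Or.inr (mem_singleton.1 (hy ▸ mem_erase.2 ⟨q, ha⟩))
    have yQ := hsub my
    have n1 : nb V τ y ⊆ insert w S0 := fun b hb => (cv y my b hb).resolve_left fun q =>
      (mem_nb.1 hb).2.1 (mem_singleton.1 (hy ▸ q))
    have n2 := card_le_card n1
    rcases h.deg y yQ with k | ⟨k, k0⟩
    · unfold dg at k; omega
    unfold dg at k
    have n3 : nb V τ y = insert w S0 := eq_of_subset_of_card_le n1 (by omega)
    have wy : w ∈ nb V τ y := n3 ▸ mem_insert_self w S0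
    obtain ⟨t, ht, e⟩ := s3b_door yQ k0
    have et : ∀ a ∈ nb V τ t, a ∈ Q → a = y := fun a a1 a2 =>
      mem_singleton.1 (e ▸ mem_inter.2 ⟨a1, a2⟩)
    have ty : t ∈ nb V τ y :=
      nb_symm (hth.subT ht) (mem_inter.1 (e ▸ mem_singleton_self y)).1
    have tw : t ≠ w := fun q => uY (et u (q ▸ huw) huQ ▸ my)
    have wQ : w ∈ Q := hwQ.resolve_right fun q =>
      tw (h.min.door_one h.con h.three ht e q wy).symm
    have tS : t ∈ S0 := (mem_insert.1 (n1 ty)).resolve_left tw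
    have tn : t ∉ nb V τ w := fun q =>
      (mem_erase.1 my).1 (et w (nb_symm (hY hw) q) wQ).symm
    have c2 : (insert y (S0.erase t)).card ≤ 2 := by
      have e1 := card_insert_le y (S0.erase t)
      have e2 := card_erase_of_mem tS
      have e3 := card_pos.2 ⟨t, tS⟩
      omega
    have h4 : dg V τ w ≤ 4 := by
      refine (card_le_card fun b hb => ?_).trans (s3b_card4 u v c2)
      have e3 := (mem_nb.1 hb).2.1
      have e4 : b ≠ t := fun q => tn (q ▸ hb)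
      simp only [mem_insert, mem_erase]
      rcases hcov' w hw b hb with e1 | e1 | e1 | e1
      · exact Or.inr (Or.inr (Or.inl ((ey b e1).resolve_left e3)))
      · exact Or.inl e1
      · exact Or.inr (Or.inl e1)
      · exact Or.inr (Or.inr (Or.inr ⟨e4, e1⟩))
    exact h.doors yQ k0 wQ (small h4).1 wy
  have cnt := s3b_count h.con hth hYV cX cv huQ uY hsub
  have hZ := cv.compl
  obtain ⟨Z, hZe⟩ : ∃ Z, Z = V \ (Y.erase w ∪ insert w S0) := ⟨_, rfl⟩
  rw [← hZe] at hZ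
  have mZ : ∀ a, a ∈ Z ↔ a ∈ V ∧ a ∉ Y.erase w ∧ a ∉ insert w S0 := fun a => by
    rw [hZe, mem_sdiff, mem_union, not_or]
  have c1 : (T \ Y.erase w ∪ insert w S0 ∩ Q).card ≤ 3 := by
    have e1 := card_union_le (T \ Y.erase w) (insert w S0 ∩ Q)
    have e2 := card_inter_add_card_sdiff T (Y.erase w)
    have e3 := hth.cT
    omega
  have cv1 : Cov V τ (Q ∩ Z) (T \ Y.erase w ∪ insert w S0 ∩ Q) := by
    intro a ha b hb
    obtain ⟨a1, a2⟩ := mem_inter.1 ha
    have e1 := hth.cov a a1 b hb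
    have e2 := hZ a a2 b hb
    rw [mem_inter, mem_union, mem_sdiff, mem_inter]
    rcases e1 with e1 | e1 <;> rcases e2 with e2 | e2
    · exact Or.inl ⟨e1, e2⟩
    · exact Or.inr (Or.inr ⟨e2, e1⟩)
    · exact Or.inr (Or.inl ⟨e1, ((mZ b).1 e2).2.1⟩)
    · exact Or.inr (Or.inl ⟨e1, disjoint_right.1 dX e2⟩)
  have d1 : Disjoint (Q ∩ Z) (T \ Y.erase w ∪ insert w S0 ∩ Q) := disjoint_left.2 fun a ha hb => by
    rw [mem_inter] at ha
    rw [mem_union, mem_sdiff, mem_inter] at hb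
    exact hb.elim (fun q => hdis ha.1 q.1) fun q => ((mZ a).1 ha.2).2.2 q.1
  have b2 : 2 ≤ (Q ∩ Z).card := by
    rw [← card_pair huv]
    refine card_le_card fun a ha => ?_
    rcases mem_insert.1 ha with rfl | ha
    · exact mem_inter.2 ⟨huQ, (mZ _).2 ⟨hth.subQ huQ, uY, uX⟩⟩
    · rw [mem_singleton.1 ha]
      exact mem_inter.2 ⟨hvQ, (mZ _).2 ⟨hth.subQ hvQ, vY, vX⟩⟩
  have ax := (h.min.ax h.con inter_subset_left b2 cv1 d1 c1).1
  have cZ : ∀ c ∈ core V τ Q T, c ∈ Z := fun c hc => by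
    by_contra q
    obtain ⟨_, t, ht, _, e⟩ := ax c (mem_core.1 hc).1 fun r => q (mem_inter.1 r).2
    exact (mem_core.1 hc).2 t ht e
  refine ⟨fun q => ((mZ w).1 (cZ w q)).2.2 (mem_insert_self w S0), fun c c1 c2 => ?_⟩
  have e2 := (mZ c).1 (cZ c c2)
  rcases hcov' w hw c c1 with e1 | e1 | e1 | e1
  · exact absurd (mem_erase.2 ⟨(mem_nb.1 c1).2.1, e1⟩) e2.2.1
  · exact Or.inl e1
  · exact Or.inr e1
  · exact absurd (mem_insert_of_mem e1) e2.2.2
-- END Soft3b

end Pool.Agent.Lib.MP_efe3d7_co.H
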