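import Pool.Agent.Lib.MP_efe3d7_co.H.Bas

/-! The candidate set and its neighbourhood. -/

set_option autoImplicit false

open Finset

namespace Pool.Agent.Lib.MP_efe3d7_co.H

variable {α : Type} [Fintype α] [DecidableEq α]

variable {m : Md} {p : Pre} {k : K} {V : Finset α} {τ : Sym2 α → Fin 3} {E : Env α} {v : ℕ → α}

variable {J1 JS o1 o : ℕ} {O1 So : Finset α}

theorem try1_B (p : Pre) (J0 c i : ℕ) : tb (cB p J0 c) i = true ↔
    tb J0 i = true ∨ (i < p.n ∧ ¬ i < p.s ∧ tb (Nat.shiftRight c 9) i = true) := by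
  simp only [cB, tb_lor, tb_land, tb_df, tb_ful, Bool.or_eq_true, Bool.and_eq_true,
    decide_eq_true_eq, Bool.not_eq_true', decide_eq_false_iff_not, and_assoc]

theorem try1_U (p : Pre) (J1 JS : ℕ) (z : Bool) (J0 B j : ℕ) :
    tb (cU p J1 JS z J0 B) j = true ↔
      ((z = true ∧ (tb J1 j = true ∨ tb JS j = true) ∧ tb p.cl j = false) ∨
        (∃ a < p.s, tb J0 a = true ∧ (tb J1 j = true ∨ tb JS j = true) ∧
          tb (fld p.kn a) j = false) ∨
        ∃ i < p.n, tb B i = true ∧ tb (fld p.ha i) j = true) ∧ tb B j = false := by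
  cases z <;>
  simp only [cU, cond_true, cond_false, tb_lor, tb_df, tb_un, tb_zero, Bool.or_eq_true,
    Bool.and_eq_true, Bool.not_eq_true', or_assoc, Bool.false_eq_true, false_and, false_or,
    true_and]

omit [Fintype α] in
theorem try1_img {n M i : ℕ} (h : ∀ i < n, ∀ j < n, v i = v j → i = j) (hi : i < n) :
    v i ∈ (bs n M).image v ↔ tb M i = true := by
  constructor
  · intro hm
    obtain ⟨j, hj, e⟩ := mem_image.1 hm
    obtain ⟨h1, h2⟩ := mem_bs.1 hj
    rwa [← h j h1 i hi e]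
  · intro hm
    exact mem_image.2 ⟨i, mem_bs.2 ⟨hi, hm⟩, rfl⟩

omit [Fintype α] in
theorem try1_out (hL : Lab p V τ E v J1 JS o1 o O1 So) {rd : ℕ} (z opn : Bool)
    (hrd : rd = 0 ∨ (rd = 1 ∧ ∃ q ∈ So, ∀ i, tb J1 i = true → q ∉ nb V τ (v i)))
    (hz : z = false → opn = true → o1 ≤ 1) :
    ∃ Uo : Finset α, Uo ⊆ So ∪ O1 ∧ (z = true → Uo = So \ O1) ∧
      (z = false → opn = true → ∀ i, tb J1 i = true → ∀ b ∈ nb V τ (v i),
        b ∈ O1 ∨ b ∈ So → b ∈ Uo) ∧ (z = false → opn = false → Uo = ∅) ∧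
      Uo.card ≤ if z = true then o else if opn = true then o + o1 - rd else 0 := by
  have hco := hL.co
  cases z
  · cases opn
    · exact ⟨∅, empty_subset _, fun h => by simp at h, fun _ h => by simp at h, fun _ _ => rfl,
        by simp⟩
    · have h1 := hz rfl rfl
      have h2 := hL.co1
      have h3 : (So ∪ O1).card ≤ o + o1 := (card_union_le _ _).trans (by omega)
      rcases hrd with rfl | ⟨rfl, q, hq, hq'⟩
      · refine ⟨So ∪ O1, Subset.rfl, fun h => by simp at h, fun _ _ i _ b _ hb => ?_,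
          fun _ h => by simp at h, by simpa using h3⟩
        exact mem_union.2 hb.symm
      · refine ⟨(So ∪ O1).erase q, erase_subset _ _, fun h => by simp at h,
          fun _ _ i hi b hb hb' => ?_, fun _ h => by simp at h, ?_⟩
        · exact mem_erase.2 ⟨fun e => hq' i hi (e ▸ hb), mem_union.2 hb'.symm⟩
        · rw [card_erase_of_mem (mem_union_left _ hq)]
          simp only [Bool.false_eq_true, if_false, if_true]
          omega
  · refine ⟨So \ O1, sdiff_subset.trans subset_union_left, fun _ => rfl, fun h => by simp at h,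
      fun h => by simp at h, ?_⟩
    simpa using (card_le_card sdiff_subset).trans hco

omit [Fintype α] in
theorem cand (hO : Ok m V τ E) (hP : PS m p V τ E v) (hL : Lab p V τ E v J1 JS o1 o O1 So)
    {rd J0 B U : ℕ} (c : ℕ) (z : Bool) (hJ0 : ∀ i, tb J0 i = true → tb J1 i = true)
    (hrd : rd = 0 ∨ (rd = 1 ∧ ∃ q ∈ So, ∀ i, tb J1 i = true → q ∉ nb V τ (v i)))
    (hz : z = false → nz (df J0 p.cl) = true → o1 ≤ 1) (hB : B = cB p J0 c)
    (hU : U = cU p J1 JS z J0 B) :
    (∀ i, tb B i = true → i < p.n ∧ (i < p.s → tb J0 i = true)) ∧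
    (∀ i, tb U i = true → i < p.n) ∧
    ∃ Br Ur : Finset α, Adm V τ E Br ∧ Cov V τ Br Ur ∧ Disjoint Br Ur ∧
      Br = (bs p.n B).image v ∪ (if z = true then O1 else ∅) ∧
      Br.card = pc p.n B + (if z = true then O1.card else 0) ∧
      Ur.card ≤ pc p.n U +
        (if z = true then o else if nz (df J0 p.cl) = true then o + o1 - rd else 0) ∧
      (∀ i < p.n, v i ∈ Br ↔ tb B i = true) ∧ (∀ i < p.n, v i ∈ Ur ↔ tb U i = true) ∧
      (z = false → nz (df J0 p.cl) = false → ∀ y ∈ O1, y ∉ Ur) := by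
  have hBm : ∀ i, tb B i = true ↔
      tb J0 i = true ∨ (i < p.n ∧ ¬ i < p.s ∧ tb (Nat.shiftRight c 9) i = true) := by
    intro i; rw [hB]; exact try1_B p J0 c i
  have hUm := fun j => hU ▸ try1_U p J1 JS z J0 B j
  have hsn := hP.sn
  have hJ : ∀ j, tb J1 j = true ∨ tb JS j = true → j < p.s := fun j h =>
    h.elim (fun h => (hL.j1 j h).1) (hL.js j)
  have h1 : ∀ i, tb B i = true → i < p.n ∧ (i < p.s → tb J0 i = true) := by
    intro i hi
    rcases (hBm i).1 hi with h | ⟨h, h', -⟩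
    · exact ⟨by have := (hL.j1 i (hJ0 i h)).1; omega, fun _ => h⟩
    · exact ⟨h, fun h'' => absurd h'' h'⟩
  have h2 : ∀ i, tb U i = true → i < p.n := by
    intro j hj
    rcases ((hUm j).1 hj).1 with ⟨-, h, -⟩ | ⟨a, -, -, h, -⟩ | ⟨i, hi, -, h⟩
    · have := hJ j h; omega
    · have := hJ j h; omega
    · exact (hP.ha i hi j h).1
  have hBQ : ∀ i, tb B i = true → v i ∈ E.Q := by
    intro i hi
    by_cases h : i < p.s
    · exact (hL.j1 i (hJ0 i ((h1 i hi).2 h))).2
    · exact (hP.int i (h1 i hi).1 (by omega)).1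
  obtain ⟨Uo, hU1, hU2, hU3, hU4, hU5⟩ := try1_out hL z (nz (df J0 p.cl)) hrd hz
  have hUo : ∀ y ∈ Uo, ∀ l < p.n, v l ≠ y := fun y hy =>
    (mem_union.1 (hU1 hy)).elim (hL.so y) fun h => (hL.oQ y h).2
  have hO1 : ∀ y ∈ (if z = true then O1 else ∅), z = true ∧ y ∈ O1 := by
    intro y hy
    split_ifs at hy with h
    · exact ⟨h, hy⟩
    · exact absurd hy (notMem_empty y)
  have hBr : ∀ i < p.n, v i ∈ (bs p.n B).image v ∪ (if z = true then O1 else ∅) ↔
      tb B i = true := by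
    intro i hi
    rw [mem_union, try1_img hP.inj hi]
    exact ⟨fun h => h.elim id fun h => absurd rfl ((hL.oQ _ (hO1 _ h).2).2 i hi), Or.inl⟩
  have hUr : ∀ i < p.n, v i ∈ (bs p.n U).image v ∪ Uo ↔ tb U i = true := by
    intro i hi
    rw [mem_union, try1_img hP.inj hi]
    exact ⟨fun h => h.elim id fun h => absurd rfl (hUo _ h i hi), Or.inl⟩
  have hcs : ∀ a ∈ (bs p.n B).image v ∪ (if z = true then O1 else ∅),
      (∃ i, tb B i = true ∧ v i = a) ∨ (z = true ∧ a ∈ O1) := by
    intro a ha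
    rcases mem_union.1 ha with h | h
    · obtain ⟨i, hi, e⟩ := mem_image.1 h
      exact Or.inl ⟨i, (mem_bs.1 hi).2, e⟩
    · exact Or.inr (hO1 a h)
  have hin : ∀ y ∈ O1, z = true → y ∈ (bs p.n B).image v ∪ (if z = true then O1 else ∅) :=
    fun y hy h => mem_union_right _ (by rwa [if_pos h])
  have hso : ∀ y, y ∈ O1 ∨ y ∈ So → z = true →
      y ∈ (bs p.n B).image v ∪ (if z = true then O1 else ∅) ∨ y ∈ (bs p.n U).image v ∪ Uo := by
    intro y hy h
    by_cases h' : y ∈ O1
    · exact Or.inl (hin y h' h)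
    · exact Or.inr (mem_union_right _ (hU2 h ▸ mem_sdiff.2 ⟨hy.resolve_left h', h'⟩))
  refine ⟨h1, h2, _, (bs p.n U).image v ∪ Uo, ⟨fun a ha => ?_, fun w hw => ?_⟩,
    fun a ha b hb => ?_, ?_, rfl, ?_, ?_, hBr, hUr, fun hz0 hop y hy hy' => ?_⟩
  · rcases hcs a ha with ⟨i, hi, rfl⟩ | ⟨-, h⟩
    · exact hBQ i hi
    · exact (hL.oQ a h).1
  · refine (card_le_card fun a ha => ?_).trans (hL.adm w hw)
    obtain ⟨ha, haw⟩ := mem_inter.1 ha
    refine mem_inter.2 ⟨?_, haw⟩
    rcases hcs a ha with ⟨i, hi, rfl⟩ | ⟨-, h⟩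
    · by_cases hs : i < p.s
      · exact mem_union_right _ (mem_image.2 ⟨i, mem_bs.2 ⟨hs, hJ0 i ((h1 i hi).2 hs)⟩, rfl⟩)
      · obtain ⟨hwV, hwQ, hwT, -⟩ := hO.omv w hw
        obtain ⟨hq, hc, -⟩ := hP.int i (h1 i hi).1 (by omega)
        obtain ⟨j, hj, -, e⟩ := hP.cl i (h1 i hi).1 hc w (nb_symm hwV haw) (Or.inl hq)
        exact ((e ▸ hP.mem j hj : w ∈ E.Q ∨ w ∈ E.T).elim hwQ hwT).elim
    · exact mem_union_left _ h
  · rcases hcs a ha with ⟨i, hi, rfl⟩ | ⟨hz1, ha1⟩
    · obtain ⟨hin', his⟩ := h1 i hi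
      by_cases hw : ∃ j < p.n, v j = b
      · obtain ⟨j, hj, rfl⟩ := hw
        obtain ⟨-, hne, hτ⟩ := mem_nb.1 hb
        have hij : i ≠ j := fun e => hne (e ▸ rfl)
        rw [hBr j hj, hUr j hj]
        cases hBj : tb B j
        · refine Or.inr ((hUm j).2 ⟨Or.inr ?_, hBj⟩)
          cases hk : tb (fld p.kn i) j
          · have hs : i < p.s := by
              by_contra hs
              rw [(hP.int i hin' (by omega)).2.2 j hj hij] at hk
              exact Bool.noConfusion hk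
            have hs' : j < p.s := by
              by_contra hs'
              rw [hP.kns i hin' j hj, (hP.int j hj (by omega)).2.2 i hin' hij.symm] at hk
              exact Bool.noConfusion hk
            exact Or.inl ⟨i, hs, his hs, hL.nU i (hJ0 i (his hs)) j hs' hij hk hτ, hk⟩
          · refine Or.inr ⟨i, hin', hi, ?_⟩
            cases hh : tb (fld p.ha i) j
            · exact absurd (hP.kn i hin' j hj hij hk hh) hτ
            · rfl
        · exact Or.inl rfl
      · have hw' : ∀ l < p.n, v l ≠ b := fun l hl e => hw ⟨l, hl, e⟩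
        have hc : tb p.cl i = false := by
          cases hc : tb p.cl i
          · rfl
          · obtain ⟨j, hj, -, e⟩ := hP.cl i hin' hc b hb (Or.inl (hBQ i hi))
            exact absurd e (hw' j hj)
        have hs : i < p.s := by
          by_contra hs
          rw [(hP.int i hin' (by omega)).2.1] at hc
          exact Bool.noConfusion hc
        have hb' := hL.nJ i (hJ0 i (his hs)) b hb hw'
        cases hz' : z
        · have hop : nz (df J0 p.cl) = true :=
            (nz_bit _).2 ⟨i, by rw [tb_df, his hs, hc]; rfl⟩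
          exact Or.inr (mem_union_right _ (hU3 hz' hop i (hJ0 i (his hs)) b hb hb'))
        · exact hz' ▸ hso b hb' hz'
    · rcases hL.nO a ha1 b hb with h | h | ⟨j, hj, rfl⟩
      · exact hso b (Or.inl h) hz1
      · exact hso b (Or.inr h) hz1
      · have hjn : j < p.n := by have := hJ j hj; omega
        rw [hBr j hjn, hUr j hjn]
        cases hBj : tb B j
        · refine Or.inr ((hUm j).2 ⟨Or.inl ⟨hz1, hj, ?_⟩, hBj⟩)
          cases hc : tb p.cl j
          · rfl
          · obtain ⟨haQ, hao⟩ := hL.oQ a ha1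
            obtain ⟨l, hl, -, e⟩ := hP.cl j hjn hc a (nb_symm (hO.subQ haQ) hb) (Or.inr haQ)
            exact absurd e (hao l hl)
        · exact Or.inl rfl
  · refine disjoint_left.2 fun a ha ha' => ?_
    rcases hcs a ha with ⟨i, hi, rfl⟩ | ⟨hz1, ha1⟩
    · have h := ((hUm i).1 ((hUr i (h1 i hi).1).1 ha')).2
      rw [hi] at h
      exact Bool.noConfusion h
    · rcases mem_union.1 ha' with h | h
      · obtain ⟨l, hl, e⟩ := mem_image.1 h
        exact (hL.oQ a ha1).2 l (mem_bs.1 hl).1 e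
      · rw [hU2 hz1] at h
        exact (mem_sdiff.1 h).2 ha1
  · rw [card_union_of_disjoint, card_img hP.inj]
    · split_ifs <;> rfl
    · refine disjoint_left.2 fun a ha ha' => ?_
      obtain ⟨l, hl, e⟩ := mem_image.1 ha
      exact (hL.oQ a (hO1 a ha').2).2 l (mem_bs.1 hl).1 e
  · refine (card_union_le _ _).trans ?_
    rw [card_img hP.inj]
    exact Nat.add_le_add_left hU5 _
  · rw [hU4 hz0 hop, union_empty] at hy'
    obtain ⟨l, hl, e⟩ := mem_image.1 hy'
    exact (hL.oQ y hy).2 l (mem_bs.1 hl).1 e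

end Pool.Agent.Lib.MP_efe3d7_co.H
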