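import Pool.Agent.Lib.MP_efe3d7_co.H.Bas

/-! Counting neighbours in the candidate set. -/

set_option autoImplicit false

open Finset

namespace Pool.Agent.Lib.MP_efe3d7_co.H

variable {α : Type} [Fintype α] [DecidableEq α]

variable {m : Md} {p : Pre} {k : K} {V : Finset α} {τ : Sym2 α → Fin 3} {E : Env α} {v : ℕ → α}

variable {J1 JS o1 o : ℕ} {O1 So : Finset α}

omit [Fintype α] in
theorem try2_mem (hO : Ok m V τ E) (hP : PS m p V τ E v) (hL : Lab p V τ E v J1 JS o1 o O1 So)
    {J0 B y : ℕ} (z : Bool) (hJ0 : ∀ i, tb J0 i = true → tb J1 i = true)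
    (hB : ∀ i, tb B i = true → i < p.n ∧ (i < p.s → tb J0 i = true)) (hy : y < p.n) {b : α}
    (hb : b ∈ nb V τ (v y) ∩ ((bs p.n B).image v ∪ (if z = true then O1 else ∅))) :
    b ∈ (bs p.n (Nat.land (fld p.ha y) B)).image v ∨
      (y < p.s ∧ (tb J1 y = true ∨ tb JS y = true) ∧
        (b ∈ (bs p.s (df J0 (fld p.kn y))).image v ∨
          (z = true ∧ tb p.cl y = false ∧ b ∈ O1))) := by
  obtain ⟨hb, hb'⟩ := mem_inter.1 hb
  obtain ⟨-, hne, hτ⟩ := mem_nb.1 hb
  rcases mem_union.1 hb' with h | h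
  · obtain ⟨j, hj, rfl⟩ := mem_image.1 h
    obtain ⟨hj, hBj⟩ := mem_bs.1 hj
    have hyj : y ≠ j := fun e => hne (e ▸ rfl)
    cases hk : tb (fld p.kn y) j
    · have hs : y < p.s := by
        by_contra hs
        rw [(hP.int y hy (by omega)).2.2 j hj hyj] at hk
        exact Bool.noConfusion hk
      have hk' : tb (fld p.kn j) y = false := by rw [hP.kns j hj y hy, hk]
      have hs' : j < p.s := by
        by_contra hs'
        rw [(hP.int j hj (by omega)).2.2 y hy hyj.symm] at hk'
        exact Bool.noConfusion hk'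
      have h0 := (hB j hBj).2 hs'
      refine Or.inr ⟨hs, hL.nU j (hJ0 j h0) y hs hyj.symm hk' (by rwa [Sym2.eq_swap]),
        Or.inl (mem_image.2 ⟨j, mem_bs.2 ⟨hs', ?_⟩, rfl⟩)⟩
      rw [tb_df, h0, hk]
      rfl
    · refine Or.inl (mem_image.2 ⟨j, mem_bs.2 ⟨hj, ?_⟩, rfl⟩)
      rw [tb_land, hBj, Bool.and_true]
      cases hh : tb (fld p.ha y) j
      · exact absurd (hP.kn y hy j hj hyj hk hh) hτ
      · rfl
  · split_ifs at h with hz
    · obtain ⟨hQ, ho⟩ := hL.oQ b h
      have hc : tb p.cl y = false := by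
        cases hc : tb p.cl y
        · rfl
        · obtain ⟨l, hl, -, e⟩ := hP.cl y hy hc b hb (Or.inr hQ)
          exact absurd e (ho l hl)
      have hs : y < p.s := by
        by_contra hs
        rw [(hP.int y hy (by omega)).2.1] at hc
        exact Bool.noConfusion hc
      refine Or.inr ⟨hs, ?_, Or.inr ⟨hz, hc, h⟩⟩
      rcases hL.nO b h (v y) (nb_symm (hO.memV (hP.mem y hy)) hb) with h' | h' | ⟨i, hi, e⟩
      · exact absurd rfl ((hL.oQ _ h').2 y hy)
      · exact absurd rfl (hL.so _ h' y hy)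
      · have hi' : i < p.s := hi.elim (fun h => (hL.j1 i h).1) (hL.js i)
        rwa [← hP.inj i (by have := hP.sn; omega) y hy e]
    · exact absurd h (notMem_empty b)

omit [Fintype α] in
theorem nb_cnt (hO : Ok m V τ E) (hP : PS m p V τ E v) (hL : Lab p V τ E v J1 JS o1 o O1 So)
    {J0 J2 B y : ℕ} (z : Bool) (hJ0 : ∀ i, tb J0 i = true → tb J1 i = true)
    (hJ2 : ∀ i, tb J2 i = true → tb J1 i = false ∧ tb JS i = false)
    (hB : ∀ i, tb B i = true → i < p.n ∧ (i < p.s → tb J0 i = true)) (hy : y < p.n)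
    (h : Nat.add (pc p.n (Nat.land (fld p.ha y) B)) (bif Nat.ble p.s y || tb J2 y then 0 else
      Nat.add (pc p.s (df J0 (fld p.kn y))) (bif z && !tb p.cl y then o1 else 0)) ≤ 1) :
    (nb V τ (v y) ∩ ((bs p.n B).image v ∪ (if z = true then O1 else ∅))).card ≤ 1 := by
  have hm := fun b => try2_mem (b := b) hO hP hL z hJ0 hB hy
  have hA : ∀ n M, ((bs n M).image v).card ≤ pc n M := fun n M => by
    rw [pc_eq]; exact card_image_le
  simp only [Nat.add_eq] at h
  cases hf : (Nat.ble p.s y || tb J2 y)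
  · rw [hf, cond_false] at h
    cases hg : (z && !tb p.cl y)
    · rw [hg, cond_false] at h
      refine (card_le_card (t := (bs p.n (Nat.land (fld p.ha y) B)).image v ∪
        (bs p.s (df J0 (fld p.kn y))).image v) fun b hb => ?_).trans
        ((card_union_le _ _).trans ((Nat.add_le_add (hA _ _) (hA _ _)).trans (by omega)))
      rcases hm b hb with h' | ⟨-, -, h' | ⟨h1, h2, -⟩⟩
      · exact mem_union_left _ h'
      · exact mem_union_right _ h'
      · rw [h1, h2] at hg
        exact Bool.noConfusion hg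
    · rw [hg, cond_true] at h
      have h1 := hL.co1
      refine (card_le_card (t := ((bs p.n (Nat.land (fld p.ha y) B)).image v ∪
        (bs p.s (df J0 (fld p.kn y))).image v) ∪ O1) fun b hb => ?_).trans
        ((card_union_le _ _).trans ((Nat.add_le_add_right ((card_union_le _ _).trans
          (Nat.add_le_add (hA _ _) (hA _ _))) _).trans (by omega)))
      rcases hm b hb with h' | ⟨-, -, h' | ⟨-, -, h'⟩⟩
      · exact mem_union_left _ (mem_union_left _ h')
      · exact mem_union_left _ (mem_union_right _ h')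
      · exact mem_union_right _ h'
  · rw [hf, cond_true] at h
    refine (card_le_card (t := (bs p.n (Nat.land (fld p.ha y) B)).image v) fun b hb => ?_).trans
      ((hA _ _).trans (by omega))
    rcases hm b hb with h' | ⟨hs, hj, -⟩
    · exact h'
    · rcases Bool.or_eq_true_iff.1 hf with h' | h'
      · exact absurd (Nat.le_of_ble_eq_true h') (by omega)
      · obtain ⟨h1, h2⟩ := hJ2 y h'
        rw [h1, h2] at hj
        exact hj.elim Bool.noConfusion Bool.noConfusion

end Pool.Agent.Lib.MP_efe3d7_co.H
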