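import Pool.Agent.Lib.MP_efe3d7_co.H.Try1
import Pool.Agent.Lib.MP_efe3d7_co.H.Try2

/-! A successful candidate contradicts the labelling. -/

set_option autoImplicit false

open Finset

namespace Pool.Agent.Lib.MP_efe3d7_co.H

variable {α : Type} [Fintype α] [DecidableEq α]

variable {m : Md} {p : Pre} {k : K} {V : Finset α} {τ : Sym2 α → Fin 3} {E : Env α} {v : ℕ → α}

variable {J1 JS o1 o : ℕ} {O1 So : Finset α}

theorem try_sound (hm : m.rl = true ∨ m.wm = true) (hO : Ok m V τ E) (hP : PS m p V τ E v)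
    (hL : Lab p V τ E v J1 JS o1 o O1 So) {J2 rd np nd : ℕ}
    (hJ2 : ∀ i, tb J2 i = true → tb J1 i = false ∧ tb JS i = false)
    (hrd : rd = 0 ∨ (rd = 1 ∧ ∃ q ∈ So, ∀ i, tb J1 i = true → q ∉ nb V τ (v i)))
    (hnp : ∀ y < p.n, tb np y = true → v y ∈ E.Q ∨ (v y ∈ E.T ∧ 4 ≤ ds V τ E (v y)))
    (hnd : ∀ y < p.n, tb nd y = true → v y ∈ E.Q ∧ v y ∉ E.Dr) (c : ℕ)
    (h : tryC m p J1 J2 JS o1 o rd np nd c = true) : False := by
  simp only [tryC, frc_eq] at h
  have hJ0 : ∀ i, tb (Nat.land J1 (Nat.shiftRight c 1)) i = true → tb J1 i = true := fun i hi => by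
    rw [tb_land, Bool.and_eq_true] at hi
    exact hi.1
  generalize Nat.land J1 (Nat.shiftRight c 1) = J0 at h hJ0
  generalize tb c 0 = z at h
  generalize hB : cB p J0 c = B at h
  generalize hU : cU p J1 JS z J0 B = U at h
  rw [Bool.and_eq_true] at h
  obtain ⟨h0, h⟩ := h
  have hz : z = false → nz (df J0 p.cl) = true → o1 ≤ 1 := by
    rintro rfl k
    simpa [k] using (show (Nat.ble o1 1 || !nz (df J0 p.cl)) = true from
      (Bool.and_eq_true _ _ ▸ h0 : _ ∧ _).2)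
  obtain ⟨bB, bU, Br, Ur, adm, cov, dis, eB, cB', cU', mB, mU, hO1⟩ :=
    cand hO hP hL c z hJ0 hrd hz hB.symm hU.symm
  have co := hL.co1
  have eu : Nat.add (pc p.n U) (bif z then o else bif nz (df J0 p.cl) then
      Nat.sub (Nat.add o o1) rd else 0) = pc p.n U +
      (if z = true then o else if nz (df J0 p.cl) = true then o + o1 - rd else 0) := by
    cases z <;> cases nz (df J0 p.cl) <;> rfl
  have eb : Nat.add (pc p.n B) (bif z then o1 else 0) = pc p.n B + if z = true then o1 else 0 := by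
    cases z <;> rfl
  rw [eu, eb] at h
  generalize pc p.n U + (if z = true then o else
    if nz (df J0 p.cl) = true then o + o1 - rd else 0) = u at h cU'
  have hne : Br.Nonempty := by
    cases z
    · obtain ⟨i, hi⟩ := (nz_bit B).1 (Bool.and_eq_true _ _ ▸ h0 : _ ∧ _).1
      exact ⟨v i, (mB i (bB i hi).1).2 hi⟩
    · have h1 : o1 ≠ 0 := (nz_iff o1).1 h0
      rw [if_pos rfl] at cB'
      exact card_pos.1 (by omega)
  have single : Br.card = 1 → ∀ i, tb B i = true → ds V τ E (v i) ≤ u := by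
    intro h1 i hi
    have h2 := (mB i (bB i hi).1).2 hi
    have h3 : nb V τ (v i) ⊆ Ur := fun y hy => (cov _ h2 y hy).resolve_left fun k =>
      (mem_nb.1 hy).2.1 (card_le_one.1 h1.le _ k _ h2)
    rw [ds_Q (adm.1 h2)]
    exact (card_le_card h3).trans cU'
  simp only [Bool.and_eq_true, Bool.or_eq_true, Bool.not_eq_true', anyB_iff, Nat.ble_eq,
    Nat.beq_eq, nz_bit, tb_land, tb_df, tb_ful, decide_eq_true_eq, Pre.hf] at h
  rcases h with (h | ⟨⟨rfl, h1⟩, h⟩) | ⟨⟨h1, h2⟩, h⟩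
  · have := hO.a1 hm Br Ur adm hne cov
    omega
  · rw [← cB'.trans (by simp : _ = pc p.n B + if false = true then o1 else 0)] at h1
    rcases h with ⟨⟨i, e1, e2⟩, e3⟩ | ⟨⟨i, e1, e2⟩, e3⟩
    · have := hP.d4 i (bB i e1).1 e2
      have := single h1 i e1
      omega
    · have := hP.d5 i (bB i e1).1 e2
      have := single h1 i e1
      omega
  have h3 : 2 ≤ Br.card := by
    split_ifs at h1 cB' <;> omega
  obtain ⟨c1, c2, c3, c4, c5⟩ := hO.a2 hm Br Ur adm h3 cov dis (by omega)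
  have c1' : ∀ y < p.n, tb B y = false → tb U y = false → v y ∈ E.T ∧ ds V τ E (v y) = 3 :=
    fun y hy e1 e2 => c1 _ (hP.mem y hy) (by rw [mB y hy, e1]; simp) (by rw [mU y hy, e2]; simp)
  rcases h with (((((⟨y, ⟨⟨e1, e2⟩, e3⟩, e4⟩ | h) | ⟨y, e1, e2⟩) | ⟨⟨e1, rfl⟩, e3⟩) |
    ⟨⟨e1, e2⟩, e3⟩) | ⟨e1, a, e2, e3, j, e4, e5⟩) | ⟨e1, y, e2, ⟨e3, e4⟩, e5⟩
  · obtain ⟨k1, k2⟩ := c1' y e1 e2 e3
    rcases hnp y e1 e4 with k | k
    · exact hO.dis _ k k1
    · omega
  · have k1 : (bs p.n (df (df (ful p.n) B) U)).image v ⊆ E.T := by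
      intro y hy
      obtain ⟨i, hi, rfl⟩ := mem_image.1 hy
      simp only [mem_bs, tb_df, Bool.and_eq_true, Bool.not_eq_true'] at hi
      exact (c1' i hi.1 hi.2.1.2 hi.2.2).1
    have k2 := card_le_card k1
    rw [card_img hP.inj] at k2
    have := hO.cT
    omega
  · have k := hnd y (bU y e1) e2
    exact k.2 (c2 _ ((mU y (bU y e1)).2 e1) k.1)
  · have k0 : o1 ≠ 0 := (nz_iff o1).1 ((nz_bit o1).2 e1)
    obtain ⟨y, hy⟩ : O1.Nonempty := card_pos.1 (by omega)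
    obtain ⟨k1, k2⟩ := hL.oQ y hy
    refine hO.dis y k1 (c1 y (Or.inl k1) ?_ (hO1 rfl e3 y hy)).1
    rw [eB]
    simp only [Bool.false_eq_true, if_false, union_empty, mem_image, mem_bs]
    rintro ⟨i, hi, e⟩
    exact k2 i hi.1 e
  · have := c3 e1
    rcases e2 with rfl | e2
    · simp only [Bool.false_eq_true, if_false] at e3 cB'
      omega
    · split_ifs at e3 cB' <;> omega
  · obtain ⟨-, w, hw⟩ := hO.oms e1
    obtain ⟨w1, w2, w3, -⟩ := hO.omv w hw
    have k0 : ∀ l < p.n, v l ≠ w := fun l hl e =>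
      (hP.mem l hl).elim (fun k => w2 (e ▸ k)) fun k => w3 (e ▸ k)
    have k1 : ∀ l, tb U l = true → w ∈ nb V τ (v l) := fun l hl =>
      nb_symm w1 ((mem_insert.1 (c5 w hw ((mU l (bU l hl)).2 hl))).resolve_left (k0 l (bU l hl)))
    obtain ⟨l, hl, e⟩ := (hP.fb a (bU a e3) j e4).2.2 w (k1 a e3) (k1 j e5)
    exact k0 l hl e
  · have k1 := c4 e1 _ ((mU y e2).2 e3) (hnp y e2 e4)
    have k2 := nb_cnt hO hP hL z hJ0 hJ2 bB e2 e5
    rw [← eB] at k2
    omega

end Pool.Agent.Lib.MP_efe3d7_co.H
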